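import Pool.Agent.H42.CD.Det

/-!
# Module ARM: an infinite cluster contains long paths satisfying the local conditions

Let `M = N * (L + 1 + 2 * g)`. The open graph (`Linked`, which is symmetric: `ed_rev`) is locally finite, so
in an infinite cluster there are points at graph distance `≥ M` from `x`; a shortest open path of length
`M` from `x` gives letters `w j` (`j < M`; put anything, e.g. the first letter, beyond `M`; if `M = 0` any `w`;
the cluster is infinite so `d ≥ 1`) with `pos x w` injective on `{i ≤ M}`, `pe x w j ∈ O` and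
`U (pe x w j) ≤ t` for `j < M`. So the first condition of `ArmW` holds. For every block `b < N` `BlockOK` holds
(bad or not): at a core vertex `z = pos x w (b n' + c)`, `1 ≤ c < n'`, the path edges are `ed z (rev (w (c-1)))`
(`ed_rev`) and `ed z (w c)` (indices shifted by `b n'`); they are open, their directions are different
because `pos (c-1) ≠ pos (c+1)` by injectivity, so their times are different (`hne`), and `det_side` applies.
-/

open MeasureTheory Set Filter
open scoped ENNReal Topology

namespace H42.CD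

/-- `y` is the end of an open path with `n` steps from `x` -/
def ArmP {d : ℕ} (U : Edge d → ℝ) (O : Set (Edge d)) (t : ℝ) (x : V d) (n : ℕ) (y : V d) : Prop :=
  ∃ w : ℕ → Dir d, pos x w n = y ∧ ∀ j, j < n → pe x w j ∈ O ∧ U (pe x w j) ≤ t

theorem arm_pos_congr {d : ℕ} (x : V d) {w w' : ℕ → Dir d} (n : ℕ)
    (h : ∀ j, j < n → w j = w' j) : pos x w n = pos x w' n := by
  unfold pos
  congr 1
  exact Finset.sum_congr rfl fun j hj => by rw [h j (Finset.mem_range.1 hj)]

theorem arm_exists {d : ℕ} {U : Edge d → ℝ} {O : Set (Edge d)} {t : ℝ} {x y : V d}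
    (i0 : Dir d) (h : y ∈ cluster U O t x) : ∃ n, ArmP U O t x n y := by
  have h' : Relation.ReflTransGen (Linked U O t) x y := h
  induction h' with
  | refl => exact ⟨0, fun _ => i0, pos_zero _ _, fun j hj => absurd hj (Nat.not_lt_zero _)⟩
  | tail hyz hz ih =>
    obtain ⟨n, w, hw, hw'⟩ := ih hyz
    obtain ⟨i, rfl, hi, hi'⟩ := hz
    have h1 : ∀ m, m ≤ n → pos x (fun j => if j < n then w j else i) m = pos x w m := by
      intro m hm
      refine arm_pos_congr x m fun j hj => ?_
      rw [if_pos (by omega)]
    refine ⟨n + 1, fun j => if j < n then w j else i, ?_, fun j hj => ?_⟩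
    · rw [pos_succ, h1 n le_rfl, hw]
      simp
    · unfold pe
      rw [h1 j (by omega)]
      by_cases hjn : j < n
      · simp only [if_pos hjn]
        exact hw' j hjn
      · have hjn' : j = n := by omega
        subst hjn'
        simp only [lt_irrefl, if_false]
        rw [hw]
        exact ⟨hi, hi'⟩

theorem arm_cut {d : ℕ} (x : V d) (w : ℕ → Dir d) {i j : ℕ} (hij : i < j)
    (he : pos x w i = pos x w j) (m : ℕ) :
    pos x (fun l => if l < i then w l else w (l + (j - i))) m =
      if m ≤ i then pos x w m else pos x w (m + (j - i)) := by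
  induction m with
  | zero => simp
  | succ m ih =>
    rw [pos_succ, ih]
    by_cases h1 : m < i
    · rw [if_pos h1.le, if_pos h1, if_pos (show m + 1 ≤ i by omega), pos_succ]
    · rw [if_neg h1, if_neg (show ¬ m + 1 ≤ i by omega)]
      have h2 : m + 1 + (j - i) = (m + (j - i)) + 1 := by omega
      rw [h2, pos_succ]
      by_cases h3 : m ≤ i
      · have h4 : m = i := by omega
        subst h4
        rw [if_pos le_rfl, he]
        have h5 : m + (j - m) = j := by omega
        rw [h5]
      · rw [if_neg h3]

theorem arm_finite (d M : ℕ) (x : V d) : {y : V d | dist1 y x ≤ M}.Finite := by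
  refine Set.Finite.subset (Set.finite_Icc (fun a => x a - (M : ℤ)) (fun a => x a + (M : ℤ)))
    fun y hy => ?_
  have hy' : dist1 y x ≤ M := hy
  have h : ∀ a, (y a - x a).natAbs ≤ M := fun a =>
    le_trans (Finset.single_le_sum (f := fun a => (y a - x a).natAbs) (fun _ _ => Nat.zero_le _)
      (Finset.mem_univ a)) hy'
  refine ⟨fun a => ?_, fun a => ?_⟩
  · have := h a
    change x a - (M : ℤ) ≤ y a
    omega
  · have := h a
    change y a ≤ x a + (M : ℤ)
    omega

theorem arm_path {d : ℕ} {U : Edge d → ℝ} {O : Set (Edge d)} {t : ℝ} {x : V d}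
    (hinf : (cluster U O t x).Infinite) (M : ℕ) : ∃ w : ℕ → Dir d,
      (∀ i j, i < j → j ≤ M + 1 → pos x w i ≠ pos x w j) ∧
      ∀ j, j < M + 1 → pe x w j ∈ O ∧ U (pe x w j) ≤ t := by
  classical
  obtain ⟨y, hy, hyM⟩ := hinf.exists_notMem_finite (arm_finite d M x)
  have hyM' : M < dist1 y x := not_le.1 hyM
  have hd : Nonempty (Dir d) := by
    rcases Nat.eq_zero_or_pos d with h0 | h0
    · subst h0
      have : y = x := Subsingleton.elim _ _
      rw [this, dist1_self] at hyM'
      exact absurd hyM' (Nat.not_lt_zero _)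
    · exact ⟨(⟨0, h0⟩, true)⟩
  obtain ⟨i0⟩ := hd
  have hex := arm_exists i0 hy
  have hmin := fun k (hk : k < Nat.find hex) => Nat.find_min hex hk
  obtain ⟨w, hw, hw'⟩ := Nat.find_spec hex
  set n := Nat.find hex with hn
  have hnM : M + 1 ≤ n := by
    have h1 := dist1_pos_le x w 0 n (Nat.zero_le _)
    rw [pos_zero, hw, dist1_comm] at h1
    omega
  refine ⟨w, fun i j hij hj he => ?_, fun j hj => hw' j (by omega)⟩
  refine hmin (n - (j - i)) (by omega) ⟨fun l => if l < i then w l else w (l + (j - i)), ?_, ?_⟩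
  · rw [arm_cut x w hij he]
    by_cases h1 : n - (j - i) ≤ i
    · have h2 : n = j := by omega
      rw [if_pos h1, ← hw]
      have h3 : n - (j - i) = i := by omega
      rw [h3, he, h2]
    · rw [if_neg h1, ← hw]
      congr 1
      omega
  · intro l hl
    unfold pe
    rw [arm_cut x w hij he]
    by_cases h1 : l < i
    · rw [if_pos h1.le]
      simp only [if_pos h1]
      exact hw' l (by omega)
    · simp only [if_neg h1]
      by_cases h2 : l ≤ i
      · have h3 : l = i := by omega
        subst h3
        rw [if_pos le_rfl, he]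
        have h4 : l + (j - l) = j := by omega
        rw [h4]
        exact hw' j (by omega)
      · rw [if_neg h2]
        exact hw' (l + (j - i)) (by omega)

theorem arm_of_infinite {d κ K g L N : ℕ} {U : Edge d → ℝ} {O : Set (Edge d)} {t : ℝ}
    (hg : 1 ≤ g) (hU : ∀ e, U e ≤ 1) (hne : ∀ (x : V d) (i j : Dir d), i ≠ j →
      U (ed x i) ≠ U (ed x j)) (hS : Stable κ U O) {x : V d}
    (hinf : (cluster U O t x).Infinite) : U ∈ ArmEv κ K g L N t x := by
  obtain ⟨w, hinj, hopen⟩ := arm_path hinf (N * (L + 1 + 2 * g))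
  refine ⟨w, fun i hi j hj hij => ?_, fun b hb => ?_⟩
  · have hi' : i ≤ N * (L + 1 + 2 * g) := hi
    have hj' : j ≤ N * (L + 1 + 2 * g) := hj
    rcases lt_trichotomy i j with h | h | h
    · exact absurd hij (hinj i j h (by omega))
    · exact h
    · exact absurd hij.symm (hinj j i h (by omega))
  have hbn : b * (L + 1 + 2 * g) + (L + 1 + 2 * g) ≤ N * (L + 1 + 2 * g) := by
    have h1 : (b + 1) * (L + 1 + 2 * g) ≤ N * (L + 1 + 2 * g) := Nat.mul_le_mul_right _ hb
    have h2 : (b + 1) * (L + 1 + 2 * g) = b * (L + 1 + 2 * g) + (L + 1 + 2 * g) := by ring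
    omega
  refine ⟨fun j hj => (hopen _ (by omega)).2, fun _ => ⟨fun j hj => ?_, fun c hc hc' => ?_⟩⟩
  · rw [← pe_add]
    exact (hopen _ (by omega)).2
  · rw [← pe_add, ← pe_add, ← pos_add]
    obtain ⟨m, hm⟩ : ∃ m, b * (L + 1 + 2 * g) + (c - 1) = m := ⟨_, rfl⟩
    have hm1 : b * (L + 1 + 2 * g) + c = m + 1 := by omega
    have hmlt : m + 1 < N * (L + 1 + 2 * g) := by omega
    simp only [hm, hm1]
    have h1 : pe x w m = ed (pos x w (m + 1)) (rev (w m)) := by
      rw [pos_succ, ed_rev]
      rfl
    have h2 : pe x w (m + 1) = ed (pos x w (m + 1)) (w (m + 1)) := rfl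
    have h3 : rev (w m) ≠ w (m + 1) := by
      intro h
      refine hinj m (m + 2) (by omega) (by omega) ?_
      rw [pos_succ x w (m + 1), pos_succ x w m, ← h, add_stp_rev]
    rw [h1, h2]
    refine det_side hU hS K _ h3 ?_ ?_ (hne _ _ _ h3)
    · rw [← h1]
      exact (hopen m (by omega)).1
    · rw [← h2]
      exact (hopen (m + 1) (by omega)).1

end H42.CD
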