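import Pool.Agent.H42.CD.Basic

/-!
# Module COUNT1: random words rarely end near a given point

(1) For every `k` there is a constant `C` such that the number of words `(i_1, ..., i_k)` of letters with
  `Σ stp i_j = y` is at most `C (2d)^(k/2)` (natural division), for all `d`, `y` (one can take `C = k!`).
  Proof by strong induction on `k` with `C_k`: fix the last letter `i_k`. The coordinate of `i_k` is either a
  coordinate where `y ≠ 0`... A simple way: call a word of length `k`. Either some letter `i_j`, `j < k`, is the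
  reverse of `i_k`: at most `k` choices of `j`, `2d` choices of `i_k`, and removing both letters gives a word of
  length `k - 2` with the same sum: at most `k (2d) C_{k-2} (2d)^((k-2)/2) = k C_{k-2} (2d)^(k/2)`. Or no letter is
  the reverse of `i_k`; then `y` has at the coordinate of `i_k` a nonzero value with the sign of `i_k`, and at least
  `1` in absolute value; the number of possible `i_k` is at most the number of nonzero coordinates of `y`, which
  is at most `k` (a word of length `k` has at most `k` coordinates; if the set of words is nonempty then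
  `y` is a sum of `k` unit vectors). So at most `k C_{k-1} (2d)^((k-1)/2) ≤ k C_{k-1} (2d)^(k/2)`. (`d ≥ 1`.)
(2) The ball `{z | dist1 z z₀ ≤ R}` has at most `(2d+1)^R` points: every point of the ball is
  `z₀ + Σ_{j<R} a_j` with `a_j ∈ {0} ∪ {unit steps}`.
(3) So the number of words of length `k` with `dist1 (Σ stp i_j) z₀ ≤ R` is at most
  `(2d+1)^R C (2d)^(k/2)`, and if `k ≥ 2R + 8` this is `≤ C' (2d)^k / d^4`:
  `(2d+1)^R ≤ (4d)^R`, `R + k/2 ≤ k - 4`.
-/

open MeasureTheory Set Filter
open scoped ENNReal Topology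

namespace H42.CD

namespace Count1

theorem card_Dir (d : ℕ) : Fintype.card (Dir d) = 2 * d := by
  simp [Dir, mul_comm]

theorem stp_mul_nonneg {d : ℕ} (i j : Dir d) (h : j ≠ rev i) :
    0 ≤ stp i i.1 * stp j i.1 := by
  rw [stp_apply, stp_apply]
  rcases i with ⟨a, s⟩
  rcases j with ⟨b, t⟩
  by_cases hab : a = b
  · subst hab
    cases s <;> cases t <;> simp_all [rev]
  · simp [hab]

theorem stp_mul_self {d : ℕ} (i : Dir d) : stp i i.1 * stp i i.1 = 1 := by
  rw [stp_apply]
  rcases i with ⟨a, s⟩
  cases s <;> simp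

theorem eq_of_stp_mul_pos {d : ℕ} (i j : Dir d) (h : 0 < stp i i.1 * stp j i.1) : j = i := by
  rw [stp_apply, stp_apply] at h
  rcases i with ⟨a, s⟩
  rcases j with ⟨b, t⟩
  by_cases hab : a = b
  · subst hab
    cases s <;> cases t <;> simp_all
  · simp [hab] at h

open Classical in
/-- number of words with given sum -/
noncomputable def cnt (d k : ℕ) (y : V d) : ℕ :=
  (Finset.univ.filter fun w : Fin k → Dir d => ∑ j, stp (w j) = y).card

open Classical in
theorem cnt_step (d k : ℕ) (y : V d) (A B : ℕ) (hA : ∀ z, cnt d k z ≤ A)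
    (hB : ∀ z, cnt d (k + 1) z ≤ B) :
    cnt d (k + 2) y ≤ (k + 1) * (2 * d * A) + (k + 2) * B := by
  unfold cnt
  by_cases hne : ∃ w0 : Fin (k + 2) → Dir d, ∑ j, stp (w0 j) = y
  · obtain ⟨w0, hw0⟩ := hne
    set I : Finset (Dir d) := Finset.univ.filter fun i => 0 < stp i i.1 * y i.1 with hI
    have hIcard : I.card ≤ k + 2 := by
      have h1 : I ⊆ Finset.univ.image w0 := by
        intro i hi
        rw [hI, Finset.mem_filter] at hi
        have h2 := hi.2
        rw [← hw0, Finset.sum_apply, Finset.mul_sum] at h2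
        obtain ⟨j, -, hj⟩ := Finset.exists_lt_of_sum_lt (s := Finset.univ) (f := fun _ : Fin (k+2) => (0:ℤ))
          (g := fun j => stp i i.1 * stp (w0 j) i.1) (by simpa using h2)
        rw [Finset.mem_image]
        exact ⟨j, Finset.mem_univ _, eq_of_stp_mul_pos i (w0 j) hj⟩
      refine (Finset.card_le_card h1).trans ?_
      refine Finset.card_image_le.trans ?_
      simp
    have hsub : (Finset.univ.filter fun w : Fin (k + 2) → Dir d => ∑ j, stp (w j) = y) ⊆
        (Finset.univ.biUnion fun j : Fin (k + 1) =>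
          Finset.univ.filter fun w : Fin (k + 2) → Dir d =>
            w j.succ = rev (w 0) ∧ ∑ j, stp (w j) = y) ∪
        (I.biUnion fun i => Finset.univ.filter fun w : Fin (k + 2) → Dir d =>
            w 0 = i ∧ ∑ j, stp (w j) = y) := by
      intro w hw
      rw [Finset.mem_filter] at hw
      rw [Finset.mem_union]
      by_cases hr : ∃ j : Fin (k + 1), w j.succ = rev (w 0)
      · left
        obtain ⟨j, hj⟩ := hr
        rw [Finset.mem_biUnion]
        exact ⟨j, Finset.mem_univ _, by rw [Finset.mem_filter]; exact ⟨Finset.mem_univ _, hj, hw.2⟩⟩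
      · right
        push Not at hr
        rw [Finset.mem_biUnion]
        refine ⟨w 0, ?_, by rw [Finset.mem_filter]; exact ⟨Finset.mem_univ _, rfl, hw.2⟩⟩
        rw [hI, Finset.mem_filter]
        refine ⟨Finset.mem_univ _, ?_⟩
        rw [← hw.2, Finset.sum_apply, Finset.mul_sum, Fin.sum_univ_succ]
        have h1 := stp_mul_self (w 0)
        have h2 : 0 ≤ ∑ i : Fin (k + 1), stp (w 0) (w 0).1 * stp (w i.succ) (w 0).1 :=
          Finset.sum_nonneg fun i _ => stp_mul_nonneg _ _ (hr i)
        omega
    refine (Finset.card_le_card hsub).trans ?_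
    refine (Finset.card_union_le _ _).trans ?_
    refine Nat.add_le_add ?_ ?_
    · refine Finset.card_biUnion_le.trans ?_
      refine (Finset.sum_le_card_nsmul _ _ (2 * d * A) ?_).trans ?_
      · intro j _
        -- injection to Dir × words
        have hinj : ((Finset.univ.filter fun w : Fin (k + 2) → Dir d =>
            w j.succ = rev (w 0) ∧ ∑ j, stp (w j) = y)).card ≤
            ((Finset.univ : Finset (Dir d)) ×ˢ
              (Finset.univ.filter fun w : Fin k → Dir d => ∑ j, stp (w j) = y)).card := by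
          refine Finset.card_le_card_of_injOn
            (fun w => (w 0, fun t => w (j.succAbove t).succ)) ?_ ?_
          · intro w hw
            simp only [Finset.coe_filter, Finset.mem_univ, true_and, Set.mem_ofPred_eq] at hw
            simp only [Finset.coe_product, Finset.coe_univ, Finset.coe_filter, Finset.mem_univ,
              true_and, Set.mem_prod, Set.mem_univ, Set.mem_ofPred_eq]
            rw [Fin.sum_univ_succ, Fin.sum_univ_succAbove _ j, hw.1, stp_rev] at hw
            have := hw.2
            rw [← add_assoc, add_neg_cancel, zero_add] at this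
            exact this
          · intro w hw w' hw' h
            simp only [Finset.coe_filter, Finset.mem_univ, true_and, Set.mem_ofPred_eq] at hw hw'
            simp only [Prod.mk.injEq] at h
            funext s
            refine Fin.cases ?_ (fun s => ?_) s
            · exact h.1
            · by_cases hs : s = j
              · rw [hs, hw.1, hw'.1, h.1]
              · obtain ⟨t, ht⟩ := Fin.exists_succAbove_eq hs
                rw [← ht]
                exact congrFun h.2 t
        refine hinj.trans ?_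
        rw [Finset.card_product, Finset.card_univ, card_Dir]
        exact Nat.mul_le_mul_left _ (hA y)
      · simp
    · refine Finset.card_biUnion_le.trans ?_
      refine (Finset.sum_le_card_nsmul _ _ B ?_).trans ?_
      · intro i _
        refine le_trans ?_ (hB (y - stp i))
        unfold cnt
        refine Finset.card_le_card_of_injOn (fun w => fun t => w t.succ) ?_ ?_
        · intro w hw
          simp only [Finset.coe_filter, Finset.mem_univ, true_and, Set.mem_ofPred_eq] at hw
          simp only [Finset.coe_filter, Finset.mem_univ, true_and, Set.mem_ofPred_eq]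
          rw [Fin.sum_univ_succ, hw.1] at hw
          rw [← hw.2]; simp
        · intro w hw w' hw' h
          simp only [Finset.coe_filter, Finset.mem_univ, true_and, Set.mem_ofPred_eq] at hw hw'
          funext s
          refine Fin.cases ?_ (fun s => ?_) s
          · rw [hw.1, hw'.1]
          · exact congrFun h s
      · rw [smul_eq_mul]
        exact Nat.mul_le_mul_right _ hIcard
  · push Not at hne
    rw [Finset.card_eq_zero.2]
    · exact Nat.zero_le _
    · rw [Finset.filter_eq_empty_iff]
      intro w _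
      exact hne w

theorem cnt_le (k : ℕ) : ∃ C C' : ℕ, ∀ d : ℕ, 1 ≤ d → ∀ y : V d,
    cnt d k y ≤ C * (2 * d) ^ (k / 2) ∧ cnt d (k + 1) y ≤ C' * (2 * d) ^ ((k + 1) / 2) := by
  classical
  induction k with
  | zero =>
    refine ⟨1, 1, fun d hd y => ⟨?_, ?_⟩⟩
    · unfold cnt
      refine (Finset.card_le_univ _).trans ?_
      simp
    · unfold cnt
      simp only [Nat.zero_add, Nat.reduceDiv, pow_zero, mul_one]
      rw [Finset.card_le_one]
      intro w hw w' hw'
      simp only [Finset.mem_filter, Finset.mem_univ, true_and] at hw hw'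
      rw [Fin.sum_univ_succ, Fin.sum_univ_zero, add_zero] at hw hw'
      funext s
      rw [Fin.fin_one_eq_zero s]
      exact stp_inj (hw.trans hw'.symm)
  | succ k ih =>
    obtain ⟨C, C', h⟩ := ih
    refine ⟨C', (k + 1) * C + (k + 2) * C', fun d hd y => ⟨(h d hd y).2, ?_⟩⟩
    have h1 := cnt_step d k y (C * (2 * d) ^ (k / 2)) (C' * (2 * d) ^ ((k + 1) / 2))
      (fun z => (h d hd z).1) (fun z => (h d hd z).2)
    refine h1.trans ?_
    have h2 : (k + 1 + 1) / 2 = k / 2 + 1 := by omega
    have h3 : (2 * d) ^ ((k + 1) / 2) ≤ (2 * d) ^ (k / 2 + 1) :=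
      Nat.pow_le_pow_right (by omega) (by omega)
    rw [h2]
    have h4 : (k + 2) * (C' * (2 * d) ^ ((k + 1) / 2)) ≤ (k + 2) * (C' * (2 * d) ^ (k / 2 + 1)) :=
      Nat.mul_le_mul_left _ (Nat.mul_le_mul_left _ h3)
    calc (k + 1) * (2 * d * (C * (2 * d) ^ (k / 2))) + (k + 2) * (C' * (2 * d) ^ ((k + 1) / 2))
        ≤ (k + 1) * (2 * d * (C * (2 * d) ^ (k / 2))) + (k + 2) * (C' * (2 * d) ^ (k / 2 + 1)) := by
          omega
      _ = ((k + 1) * C + (k + 2) * C') * (2 * d) ^ (k / 2 + 1) := by ring

/-- optional step -/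
def ostp {d : ℕ} (a : Option (Dir d)) : V d := a.elim 0 stp

theorem exists_path {d : ℕ} (R : ℕ) : ∀ (z z0 : V d), dist1 z z0 ≤ R →
    ∃ a : Fin R → Option (Dir d), z = z0 - ∑ r, ostp (a r) := by
  induction R with
  | zero =>
    intro z z0 h
    refine ⟨fun r => r.elim0, ?_⟩
    rw [dist1_eq_zero.1 (Nat.le_zero.1 h)]
    simp
  | succ R ih =>
    intro z z0 h
    by_cases hz : z = z0
    · refine ⟨fun _ => none, ?_⟩
      rw [hz]; simp [ostp]
    · obtain ⟨a, ha⟩ : ∃ a, z a ≠ z0 a := by
        by_contra hcon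
        push Not at hcon
        exact hz (funext hcon)
      -- the step
      obtain ⟨i, hi⟩ : ∃ i : Dir d, dist1 (z + stp i) z0 + 1 ≤ dist1 z z0 := by
        refine ⟨(a, decide (z a < z0 a)), ?_⟩
        unfold dist1
        rw [← Finset.add_sum_erase _ (fun x => ((z + stp (a, decide (z a < z0 a))) x - z0 x).natAbs)
            (Finset.mem_univ a),
          ← Finset.add_sum_erase _ (fun x => (z x - z0 x).natAbs) (Finset.mem_univ a)]
        have h1 : ∑ x ∈ Finset.univ.erase a, ((z + stp (a, decide (z a < z0 a))) x - z0 x).natAbs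
            = ∑ x ∈ Finset.univ.erase a, (z x - z0 x).natAbs := by
          refine Finset.sum_congr rfl fun x hx => ?_
          rw [Pi.add_apply, stp_apply, if_neg (Finset.ne_of_mem_erase hx), add_zero]
        rw [h1, Pi.add_apply, stp_apply, if_pos rfl]
        by_cases hlt : z a < z0 a
        · simp only [hlt, decide_true, if_true]
          omega
        · simp only [hlt, decide_false, Bool.false_eq_true, if_false]
          omega
      obtain ⟨b, hb⟩ := ih (z + stp i) z0 (by omega)
      refine ⟨Fin.cons (some i) b, ?_⟩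
      rw [Fin.sum_univ_succ]
      simp only [Fin.cons_zero, Fin.cons_succ]
      have : ostp (some i) = stp i := rfl
      rw [this, ← sub_sub, sub_right_comm, ← hb]
      simp

end Count1

open Count1

theorem count_sum (k : ℕ) : ∃ C : ℕ, ∀ d : ℕ, 1 ≤ d → ∀ y : V d,
    (Finset.univ.filter fun w : Fin k → Dir d => ∑ j, stp (w j) = y).card
      ≤ C * (2 * d) ^ (k / 2) := by
  obtain ⟨C, C', h⟩ := cnt_le k
  refine ⟨C, fun d hd y => ?_⟩
  have h1 := (h d hd y).1
  unfold cnt at h1
  convert h1

theorem count_near {k R : ℕ} (hk : 2 * R + 8 ≤ k) : ∃ C : ℝ, 0 < C ∧ ∀ d : ℕ, 1 ≤ d →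
    ∀ z0 : V d, ((Finset.univ.filter fun w : Fin k → Dir d =>
      dist1 (∑ j, stp (w j)) z0 ≤ R).card : ℝ) ≤ C * (2 * d) ^ k / (d : ℝ) ^ 4 := by
  classical
  obtain ⟨C, hC⟩ := count_sum k
  refine ⟨C * 2 ^ R + 1, by positivity, fun d hd z0 => ?_⟩
  have h1 : (Finset.univ.filter fun w : Fin k → Dir d => dist1 (∑ j, stp (w j)) z0 ≤ R).card ≤
      (2 * d + 1) ^ R * (C * (2 * d) ^ (k / 2)) := by
    have hsub : (Finset.univ.filter fun w : Fin k → Dir d => dist1 (∑ j, stp (w j)) z0 ≤ R) ⊆
        (Finset.univ : Finset (Fin R → Option (Dir d))).biUnion fun a =>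
          Finset.univ.filter fun w : Fin k → Dir d => ∑ j, stp (w j) = z0 - ∑ r, ostp (a r) := by
      intro w hw
      rw [Finset.mem_filter] at hw
      obtain ⟨a, ha⟩ := exists_path R _ _ hw.2
      rw [Finset.mem_biUnion]
      exact ⟨a, Finset.mem_univ _, by rw [Finset.mem_filter]; exact ⟨Finset.mem_univ _, ha⟩⟩
    refine (Finset.card_le_card hsub).trans ?_
    refine Finset.card_biUnion_le.trans ?_
    refine (Finset.sum_le_card_nsmul _ _ (C * (2 * d) ^ (k / 2)) ?_).trans ?_
    · intro a _
      exact hC d hd _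
    · rw [smul_eq_mul, Finset.card_univ, Fintype.card_fun, Fintype.card_option, card_Dir,
        Fintype.card_fin]
  have hd' : (1:ℝ) ≤ d := by exact_mod_cast hd
  have h2 : ((2 * d + 1) ^ R * (C * (2 * d) ^ (k / 2)) : ℝ)
      ≤ (C * 2 ^ R) * (2 * d) ^ (k - 4) := by
    have h3 : ((2 * d + 1 : ℝ)) ^ R ≤ (2 * (2 * d)) ^ R :=
      pow_le_pow_left₀ (by positivity) (by linarith) R
    calc ((2 * d + 1) ^ R * (C * (2 * d) ^ (k / 2)) : ℝ)
        ≤ (2 * (2 * d)) ^ R * (C * (2 * d) ^ (k / 2)) :=
          mul_le_mul_of_nonneg_right h3 (by positivity)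
      _ = (C * 2 ^ R) * (2 * d) ^ (R + k / 2) := by rw [mul_pow, pow_add]; ring
      _ ≤ (C * 2 ^ R) * (2 * d) ^ (k - 4) := by
          refine mul_le_mul_of_nonneg_left ?_ (by positivity)
          exact pow_le_pow_right₀ (by linarith) (by omega)
  have h4 : (2 * d : ℝ) ^ (k - 4) ≤ (2 * d) ^ k / (d : ℝ) ^ 4 := by
    rw [le_div_iff₀ (by positivity)]
    have h5 : (2 * d : ℝ) ^ k = (2 * d) ^ (k - 4) * (2 * d) ^ 4 := by
      rw [← pow_add]; congr 1; omega
    rw [h5]
    refine mul_le_mul_of_nonneg_left ?_ (by positivity)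
    exact pow_le_pow_left₀ (by positivity) (by linarith) 4
  calc ((Finset.univ.filter fun w : Fin k → Dir d =>
      dist1 (∑ j, stp (w j)) z0 ≤ R).card : ℝ)
      ≤ ((2 * d + 1) ^ R * (C * (2 * d) ^ (k / 2)) : ℝ) := by exact_mod_cast h1
    _ ≤ (C * 2 ^ R) * (2 * d) ^ (k - 4) := h2
    _ ≤ (C * 2 ^ R + 1) * (2 * d) ^ (k - 4) := by
        refine mul_le_mul_of_nonneg_right (by linarith) (by positivity)
    _ ≤ (C * 2 ^ R + 1) * ((2 * d) ^ k / (d : ℝ) ^ 4) := by
        refine mul_le_mul_of_nonneg_left h4 (by positivity)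
    _ = (C * 2 ^ R + 1) * (2 * d) ^ k / (d : ℝ) ^ 4 := by ring

end H42.CD
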