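import Pool.Agent.H42.CD.ArmWord
import Pool.Agent.H42.CD.Count1

/-!
# Module COUNT2: bad blocks are rare

`n' = L + 1 + 2 g`, `R = 2 K + 6` (`g ≥ 2R + 8`). Claim: for `d ≥ d0` and `N n' ≤ d²`,
`Σ_w φ^(gd w) ≤ (2d)^(N n') (2 φ)^N`, i.e. with `c = 1/φ ≥ 1`, under the uniform law on the words
`w ∈ (Dir d)^(N n')`, `E c^(#blocks which are bad or have a repeated coordinate) ≤ 2^N`.
`E1 b`: block `b` has a repeated coordinate or one of its core vertices is within `R` of a path vertex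
  with index `< b n'`. For given previous blocks, the fraction of the words of block `b` with `E1 b` is at most
  `n'^2 / d + L (d² + 1) C / d^4 ≤ C'/d =: δ`: two given letters have the same coordinate with probability
  `1/d`; the core vertex `c > g` is `start + Σ_{j<c}`: condition on the letters `j < c - g` of the block and apply
  `count_near` with `k = g` to the letters `c - g ≤ j < c` (`z0` = path vertex minus the rest); there are at
  most `N n' ≤ d²` earlier path vertices and `L` core vertices.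
`E2 b`: one of its core vertices is within `R` of a path vertex with index `> (b+1) n'`. For given later
  blocks (they determine the path after time `(b+1) n'` relative to `pos w ((b+1) n')`), the fraction of words of
  block `b` with `E2 b` is `≤ δ`: the core vertex `c ≤ g + L` is `pos w ((b+1) n') - Σ_{c ≤ j < n'}`, and
  `n' - c ≥ g + 1`; use the letters `c ≤ j < c + g`.
Bad or repeated implies `E1 b` or `E2 b`.
`E c^(2 #{b | E1 b}) ≤ (1 + c² δ)^N` by summing over the blocks one after the other (last block first, it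
occurs only in its own `E1`), and `E c^(2 #{b | E2 b}) ≤ (1 + c² δ)^N` summing in the other order.
Cauchy-Schwarz (`Finset.sum_mul_sq_le_sq_mul_sq`): `E c^(#bad) ≤ (1 + c² δ)^N ≤ 2^N` if `c² δ ≤ 1`.
A useful abstract lemma, by induction on `N`: if `E ⊆ {0..N-1} × (Ω^N)` and `1_{E b}(w)` depends only on
`w_0..w_b`, with at most `δ #Ω` values of `w_b` for given `w_0..w_{b-1}`, then
`Σ_w ∏_b (1 + c² 1_{E b}(w)) ≤ (#Ω)^N (1 + c² δ)^N`.
-/

open MeasureTheory Set Filter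
open scoped ENNReal Topology

namespace H42.CD

/-- extension of a finite word -/
def extw {d M : ℕ} (l0 : Dir d) (w : Fin M → Dir d) : ℕ → Dir d :=
  fun j => if h : j < M then w ⟨j, h⟩ else l0

namespace Count2

/-- concatenation -/
def cat {d : ℕ} (M : ℕ) (u v : ℕ → Dir d) : ℕ → Dir d := fun j => if j < M then u j else v (j - M)

theorem cat_lt {d M j : ℕ} {u v : ℕ → Dir d} (h : j < M) : cat M u v j = u j := by
  unfold cat; rw [if_pos h]

theorem cat_add {d M j : ℕ} {u v : ℕ → Dir d} : cat M u v (M + j) = v j := by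
  unfold cat; rw [if_neg (by omega), Nat.add_sub_cancel_left]

/-- sum over all words of length `M` -/
noncomputable def S {d : ℕ} (l0 : Dir d) (M : ℕ) (F : (ℕ → Dir d) → ℝ) : ℝ :=
  ∑ w : Fin M → Dir d, F (extw l0 w)

theorem extw_append {d M n : ℕ} (l0 : Dir d) (u : Fin M → Dir d) (v : Fin n → Dir d) :
    extw l0 (Fin.append u v) = cat M (extw l0 u) (extw l0 v) := by
  funext j
  unfold cat extw
  by_cases h : j < M
  · rw [dif_pos (by omega), if_pos h, dif_pos h]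
    exact Fin.append_left u v ⟨j, h⟩
  · rw [if_neg h]
    by_cases h2 : j < M + n
    · rw [dif_pos h2, dif_pos (by omega)]
      have : (⟨j, h2⟩ : Fin (M + n)) = Fin.natAdd M ⟨j - M, by omega⟩ := by
        apply Fin.ext; simp; omega
      rw [this, Fin.append_right]
    · rw [dif_neg h2, dif_neg (by omega)]

theorem S_add {d : ℕ} (l0 : Dir d) (M n : ℕ) (F : (ℕ → Dir d) → ℝ) :
    S l0 (M + n) F = S l0 M fun u => S l0 n fun v => F (cat M u v) := by
  unfold S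
  rw [← Fintype.sum_prod_type', ← (Fin.appendEquiv M n).sum_comp]
  refine Finset.sum_congr rfl fun w _ => ?_
  congr 1
  exact extw_append l0 w.1 w.2

theorem S_swap {d : ℕ} (l0 : Dir d) (M n : ℕ) (F : (ℕ → Dir d) → (ℕ → Dir d) → ℝ) :
    (S l0 M fun u => S l0 n fun v => F u v) = S l0 n fun v => S l0 M fun u => F u v := by
  unfold S
  exact Finset.sum_comm

theorem S_mono {d : ℕ} (l0 : Dir d) (M : ℕ) {F G : (ℕ → Dir d) → ℝ} (h : ∀ w, F w ≤ G w) :
    S l0 M F ≤ S l0 M G := Finset.sum_le_sum fun _ _ => h _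

theorem S_nonneg {d : ℕ} (l0 : Dir d) (M : ℕ) {F : (ℕ → Dir d) → ℝ} (h : ∀ w, 0 ≤ F w) :
    0 ≤ S l0 M F := Finset.sum_nonneg fun _ _ => h _

theorem S_const {d : ℕ} (l0 : Dir d) (M : ℕ) (a : ℝ) :
    (S l0 M fun _ => a) = (2 * d) ^ M * a := by
  unfold S
  rw [Finset.sum_const, Finset.card_univ, Fintype.card_fun, Count1.card_Dir, Fintype.card_fin,
    nsmul_eq_mul]
  push_cast
  ring

theorem S_mul_left {d : ℕ} (l0 : Dir d) (M : ℕ) (a : ℝ) (F : (ℕ → Dir d) → ℝ) :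
    (S l0 M fun w => a * F w) = a * S l0 M F := by
  unfold S
  rw [Finset.mul_sum]

theorem S_mul_right {d : ℕ} (l0 : Dir d) (M : ℕ) (a : ℝ) (F : (ℕ → Dir d) → ℝ) :
    (S l0 M fun w => F w * a) = S l0 M F * a := by
  unfold S
  rw [Finset.sum_mul]

theorem S_add_fun {d : ℕ} (l0 : Dir d) (M : ℕ) (F G : (ℕ → Dir d) → ℝ) :
    (S l0 M fun w => F w + G w) = S l0 M F + S l0 M G := by
  unfold S
  rw [Finset.sum_add_distrib]

theorem S_sum {d : ℕ} (l0 : Dir d) (M : ℕ) {ι : Type} (s : Finset ι) (F : ι → (ℕ → Dir d) → ℝ) :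
    (S l0 M fun w => ∑ i ∈ s, F i w) = ∑ i ∈ s, S l0 M (F i) := by
  unfold S
  rw [Finset.sum_comm]

open Classical in
/-- indicator -/
noncomputable def ind (p : Prop) : ℝ := if p then 1 else 0

theorem ind_nonneg (p : Prop) : 0 ≤ ind p := by unfold ind; split_ifs <;> norm_num

theorem sum_ind {ι : Type} [Fintype ι] (p : ι → Prop) [DecidablePred p] :
    ∑ i, ind (p i) = ((Finset.univ.filter p).card : ℝ) := by
  rw [Finset.card_filter]
  push_cast
  refine Finset.sum_congr rfl fun i _ => ?_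
  unfold ind
  by_cases h : p i <;> simp [h]

theorem ind_mono {p q : Prop} (h : p → q) : ind p ≤ ind q := by
  unfold ind
  by_cases hp : p
  · rw [if_pos hp, if_pos (h hp)]
  · rw [if_neg hp]; split_ifs <;> norm_num

theorem ind_or (p q : Prop) : ind (p ∨ q) ≤ ind p + ind q := by
  unfold ind
  by_cases hp : p <;> by_cases hq : q <;> simp [hp, hq]

theorem ind_exists {ι : Type} (s : Finset ι) (p : ι → Prop) :
    ind (∃ i ∈ s, p i) ≤ ∑ i ∈ s, ind (p i) := by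
  classical
  by_cases h : ∃ i ∈ s, p i
  · obtain ⟨i, hi, hp⟩ := h
    have h1 : ind (∃ i ∈ s, p i) = 1 := by unfold ind; rw [if_pos ⟨i, hi, hp⟩]
    have h2 : ind (p i) = 1 := by unfold ind; rw [if_pos hp]
    rw [h1, ← h2]
    exact Finset.single_le_sum (f := fun i => ind (p i)) (fun i _ => ind_nonneg _) hi
  · have h1 : ind (∃ i ∈ s, p i) = 0 := by unfold ind; rw [if_neg h]
    rw [h1]
    exact Finset.sum_nonneg fun i _ => ind_nonneg _

/-! ### Positions -/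

theorem pos_eq {d : ℕ} (x : V d) (w : ℕ → Dir d) (i : ℕ) :
    pos x w i = x + ∑ j ∈ Finset.range i, stp (w j) := rfl

theorem pos_cat_le {d M : ℕ} {x : V d} {u v : ℕ → Dir d} {i : ℕ} (h : i ≤ M) :
    pos x (cat M u v) i = pos x u i := by
  unfold pos
  congr 1
  refine Finset.sum_congr rfl fun j hj => ?_
  rw [cat_lt (lt_of_lt_of_le (Finset.mem_range.1 hj) h)]

theorem pos_cat_add {d M : ℕ} {x : V d} {u v : ℕ → Dir d} {i : ℕ} :
    pos x (cat M u v) (M + i) = pos x u M + ∑ j ∈ Finset.range i, stp (v j) := by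
  unfold pos
  rw [Finset.sum_range_add, add_assoc]
  congr 1
  congr 1
  · refine Finset.sum_congr rfl fun j hj => ?_
    rw [cat_lt (Finset.mem_range.1 hj)]
  · refine Finset.sum_congr rfl fun j hj => ?_
    rw [cat_add]

/-! ### Counting -/

/-- all words of length `k`: ending near a given point -/
theorem S_near {d k R : ℕ} {C : ℝ} (l0 : Dir d)
    (hC : ∀ z0 : V d, ((Finset.univ.filter fun w : Fin k → Dir d =>
      dist1 (∑ j, stp (w j)) z0 ≤ R).card : ℝ) ≤ C * (2 * d) ^ k / (d : ℝ) ^ 4) (x y : V d) :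
    (S l0 k fun v => ind (dist1 (x + ∑ j ∈ Finset.range k, stp (v j)) y ≤ R)) ≤
      C * (2 * d) ^ k / (d : ℝ) ^ 4 := by
  classical
  refine le_trans (le_of_eq ?_) (hC (y - x))
  unfold S
  beta_reduce
  rw [← sum_ind]
  refine Finset.sum_congr rfl fun w _ => ?_
  have h1 : ∑ j ∈ Finset.range k, stp (extw l0 w j) = ∑ j, stp (w j) := by
    rw [Finset.sum_range]
    refine Finset.sum_congr rfl fun j _ => ?_
    unfold extw
    rw [dif_pos j.2]
  rw [h1]
  have h2 : dist1 (x + ∑ j, stp (w j)) y = dist1 (∑ j, stp (w j)) (y - x) := by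
    rw [← dist1_add_right _ (y - x) x, sub_add_cancel, add_comm]
  rw [h2]

/-- version with `k` first letters among the first `c` ones -/
theorem S_near_first {d k R n c : ℕ} {C : ℝ} (l0 : Dir d)
    (hC : ∀ z0 : V d, ((Finset.univ.filter fun w : Fin k → Dir d =>
      dist1 (∑ j, stp (w j)) z0 ≤ R).card : ℝ) ≤ C * (2 * d) ^ k / (d : ℝ) ^ 4) (x y : V d)
    (hkc : k ≤ c) :
    (S l0 (k + n) fun v => ind (dist1 (x + ∑ j ∈ Finset.range c, stp (v j)) y ≤ R)) ≤
      C * (2 * d) ^ (k + n) / (d : ℝ) ^ 4 := by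
  rw [S_add, S_swap]
  obtain ⟨e, rfl⟩ := Nat.exists_eq_add_of_le hkc
  have h1 : ∀ v : ℕ → Dir d, (S l0 k fun u => ind (dist1 (x +
      ∑ j ∈ Finset.range (k + e), stp (cat k u v j)) y ≤ R)) ≤ C * (2 * d) ^ k / (d : ℝ) ^ 4 := by
    intro v
    refine le_trans (le_of_eq ?_) (S_near l0 hC (x + ∑ j ∈ Finset.range e, stp (v j)) y)
    unfold S
    refine Finset.sum_congr rfl fun u _ => ?_
    beta_reduce
    rw [Finset.sum_range_add]
    have h2 : ∑ j ∈ Finset.range k, stp (cat k (extw l0 u) v j)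
        = ∑ j ∈ Finset.range k, stp (extw l0 u j) :=
      Finset.sum_congr rfl fun j hj => by rw [cat_lt (Finset.mem_range.1 hj)]
    have h3 : ∑ j ∈ Finset.range e, stp (cat k (extw l0 u) v (k + j))
        = ∑ j ∈ Finset.range e, stp (v j) :=
      Finset.sum_congr rfl fun j hj => by rw [cat_add]
    rw [h2, h3]
    congr 3
    abel
  refine (S_mono l0 n h1).trans ?_
  rw [S_const, pow_add]
  apply le_of_eq
  ring

/-- version with the last `k` letters, the letters `c ≤ j < n + k` being summed -/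
theorem S_near_last {d k R n c : ℕ} {C : ℝ} (l0 : Dir d)
    (hC : ∀ z0 : V d, ((Finset.univ.filter fun w : Fin k → Dir d =>
      dist1 (∑ j, stp (w j)) z0 ≤ R).card : ℝ) ≤ C * (2 * d) ^ k / (d : ℝ) ^ 4) (y : V d)
    (hkc : c ≤ n) :
    (S l0 (n + k) fun v => ind (dist1 (∑ j ∈ Finset.range c, stp (v j))
        (∑ j ∈ Finset.range (n + k), stp (v j) + y) ≤ R)) ≤
      C * (2 * d) ^ (n + k) / (d : ℝ) ^ 4 := by
  rw [S_add]
  have h1 : ∀ v : ℕ → Dir d, (S l0 k fun u => ind (dist1 (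
      ∑ j ∈ Finset.range c, stp (cat n v u j)) (
      ∑ j ∈ Finset.range (n + k), stp (cat n v u j) + y) ≤ R)) ≤ C * (2 * d) ^ k / (d : ℝ) ^ 4 := by
    intro v
    refine le_trans (le_of_eq ?_) (S_near l0 hC (∑ j ∈ Finset.range n, stp (v j) + y)
      (∑ j ∈ Finset.range c, stp (v j)))
    unfold S
    refine Finset.sum_congr rfl fun u _ => ?_
    beta_reduce
    rw [dist1_comm, Finset.sum_range_add]
    have h2 : ∑ j ∈ Finset.range n, stp (cat n v (extw l0 u) j)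
        = ∑ j ∈ Finset.range n, stp (v j) :=
      Finset.sum_congr rfl fun j hj => by rw [cat_lt (Finset.mem_range.1 hj)]
    have h2' : ∑ j ∈ Finset.range c, stp (cat n v (extw l0 u) j)
        = ∑ j ∈ Finset.range c, stp (v j) :=
      Finset.sum_congr rfl fun j hj => by
        rw [cat_lt (lt_of_lt_of_le (Finset.mem_range.1 hj) hkc)]
    have h3 : ∑ j ∈ Finset.range k, stp (cat n v (extw l0 u) (n + j))
        = ∑ j ∈ Finset.range k, stp (extw l0 u j) :=
      Finset.sum_congr rfl fun j hj => by rw [cat_add]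
    rw [h2, h2', h3]
    congr 3
    abel
  refine (S_mono l0 n h1).trans ?_
  rw [S_const, pow_add]
  apply le_of_eq
  ring

/-- two letters with the same coordinate -/
theorem S_rep {d n i j : ℕ} (hd : 1 ≤ d) (l0 : Dir d) (hij : i ≠ j) (hi : i < n) (hj : j < n) :
    (S l0 n fun v => ind ((v i).1 = (v j).1)) ≤ (2 * d) ^ n / (d : ℝ) := by
  classical
  unfold S
  beta_reduce
  rw [sum_ind fun w : Fin n → Dir d => (extw l0 w i).1 = (extw l0 w j).1]
  rw [le_div_iff₀ (by exact_mod_cast hd)]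
  have h1 : ((Finset.univ.filter fun w : Fin n → Dir d => (extw l0 w i).1 = (extw l0 w j).1) ×ˢ
      (Finset.univ : Finset (Fin d))).card ≤ (Finset.univ : Finset (Fin n → Dir d)).card := by
    refine Finset.card_le_card_of_injOn
      (fun p => Function.update p.1 ⟨j, hj⟩ (p.2, (p.1 ⟨j, hj⟩).2)) (fun p _ => by simp) ?_
    intro p hp q hq h
    simp only [Finset.coe_product, Finset.coe_filter, Finset.mem_univ, true_and,
      Finset.coe_univ, Set.mem_prod, Set.mem_ofPred_eq, Set.mem_univ, and_true] at hp hq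
    unfold extw at hp hq
    simp only [hi, hj, dif_pos] at hp hq
    have hne : (⟨i, hi⟩ : Fin n) ≠ ⟨j, hj⟩ := fun h => hij (Fin.mk.inj_iff.1 h)
    have hj' := congrFun h ⟨j, hj⟩
    have hi' := congrFun h ⟨i, hi⟩
    simp only [Function.update_self, Prod.mk.injEq] at hj'
    simp only [Function.update_of_ne hne] at hi'
    refine Prod.ext ?_ hj'.1
    funext t
    by_cases ht : t = ⟨j, hj⟩
    · rw [ht]
      refine Prod.ext ?_ hj'.2
      rw [← hp, ← hq, hi']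
    · have := congrFun h t
      simp only [Function.update_of_ne ht] at this
      exact this
  rw [Finset.card_product, Finset.card_univ, Finset.card_univ, Fintype.card_fin,
    Fintype.card_fun, Count1.card_Dir, Fintype.card_fin] at h1
  exact_mod_cast h1

/-! ### Weights -/

open Classical in
/-- weight -/
noncomputable def wt (a : ℝ) (p : Prop) : ℝ := if p then a else 1

theorem wt_ge_one {a : ℝ} (ha : 1 ≤ a) (p : Prop) : 1 ≤ wt a p := by
  unfold wt; split_ifs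
  · exact ha
  · exact le_rfl

theorem wt_le {a : ℝ} (ha : 0 ≤ a) (p : Prop) : wt a p ≤ 1 + a * ind p := by
  unfold wt ind
  split_ifs <;> linarith

theorem wt_sq (a : ℝ) (p : Prop) : wt a p ^ 2 = wt (a ^ 2) p := by
  unfold wt
  split_ifs
  · rfl
  · norm_num

theorem wt_congr {a : ℝ} {p q : Prop} (h : p ↔ q) : wt a p = wt a q := by
  rw [propext h]

theorem S_wt {d M : ℕ} (l0 : Dir d) {a δ : ℝ} (ha : 0 ≤ a) (p : (ℕ → Dir d) → Prop)
    (h : (S l0 M fun v => ind (p v)) ≤ δ * (2 * d) ^ M) :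
    (S l0 M fun v => wt a (p v)) ≤ (2 * d) ^ M * (1 + a * δ) := by
  refine (S_mono l0 M (fun v => wt_le ha (p v))).trans ?_
  rw [S_add_fun, S_const, S_mul_left]
  have := mul_le_mul_of_nonneg_left h ha
  nlinarith

/-- block `b` has a repeated coordinate or is near an earlier vertex -/
def E1 {d : ℕ} (K g L : ℕ) (w : ℕ → Dir d) (b : ℕ) : Prop :=
  (∃ p ∈ ((Finset.range (L + 1 + 2 * g)) ×ˢ (Finset.range (L + 1 + 2 * g))).filter
      fun p => p.1 < p.2,
    (w (b * (L + 1 + 2 * g) + p.1)).1 = (w (b * (L + 1 + 2 * g) + p.2)).1) ∨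
  ∃ c ∈ Finset.Ioc g (g + L), ∃ m ∈ Finset.range (b * (L + 1 + 2 * g)),
    dist1 (pos 0 w (b * (L + 1 + 2 * g) + c)) (pos 0 w m) ≤ 2 * K + 6

/-- block `b` is near a later vertex -/
def E2 {d : ℕ} (K g L N : ℕ) (w : ℕ → Dir d) (b : ℕ) : Prop :=
  ∃ c ∈ Finset.Ioc g (g + L), ∃ m ∈ Finset.Ioc ((b + 1) * (L + 1 + 2 * g)) (N * (L + 1 + 2 * g)),
    dist1 (pos 0 w (b * (L + 1 + 2 * g) + c)) (pos 0 w m) ≤ 2 * K + 6

theorem E_of_bad {d K g L N b : ℕ} {w : ℕ → Dir d}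
    (h : ¬ (¬ BadBlock K g L N w b ∧ ¬ RepBlock g L w b)) :
    E1 K g L w b ∨ E2 K g L N w b := by
  rw [not_and_or, not_not, not_not] at h
  rcases h with h | h
  · obtain ⟨c, m, h1, h2, h3, h4, h5⟩ := h
    rcases h4 with h4 | h4
    · left; right
      exact ⟨c, Finset.mem_Ioc.2 ⟨h1, h2⟩, m, Finset.mem_range.2 h4, h5⟩
    · right
      exact ⟨c, Finset.mem_Ioc.2 ⟨h1, h2⟩, m, Finset.mem_Ioc.2 ⟨h4, h3⟩, h5⟩
  · left; left
    obtain ⟨i, j, h1, h2, h3⟩ := h
    refine ⟨(i, j), ?_, h3⟩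
    simp only [Finset.mem_filter, Finset.mem_product, Finset.mem_range]
    omega

theorem E1_cat {d K g L N b : ℕ} {u v : ℕ → Dir d} (hb : b < N) :
    E1 K g L (cat (N * (L + 1 + 2 * g)) u v) b ↔ E1 K g L u b := by
  have hle : (b + 1) * (L + 1 + 2 * g) ≤ N * (L + 1 + 2 * g) := Nat.mul_le_mul_right _ hb
  rw [Nat.add_mul, one_mul] at hle
  have hA : ∀ p ∈ ((Finset.range (L + 1 + 2 * g)) ×ˢ (Finset.range (L + 1 + 2 * g))).filter
      (fun p => p.1 < p.2), ((cat (N * (L + 1 + 2 * g)) u v (b * (L + 1 + 2 * g) + p.1)).1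
        = (cat (N * (L + 1 + 2 * g)) u v (b * (L + 1 + 2 * g) + p.2)).1 ↔
        (u (b * (L + 1 + 2 * g) + p.1)).1 = (u (b * (L + 1 + 2 * g) + p.2)).1) := by
    intro p hp
    simp only [Finset.mem_filter, Finset.mem_product, Finset.mem_range] at hp
    rw [cat_lt (by omega), cat_lt (by omega)]
  have hB : ∀ c ∈ Finset.Ioc g (g + L), ∀ m ∈ Finset.range (b * (L + 1 + 2 * g)),
      (dist1 (pos 0 (cat (N * (L + 1 + 2 * g)) u v) (b * (L + 1 + 2 * g) + c))
        (pos 0 (cat (N * (L + 1 + 2 * g)) u v) m) ≤ 2 * K + 6 ↔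
      dist1 (pos 0 u (b * (L + 1 + 2 * g) + c)) (pos 0 u m) ≤ 2 * K + 6) := by
    intro c hc m hm
    simp only [Finset.mem_Ioc] at hc
    rw [Finset.mem_range] at hm
    rw [pos_cat_le (by omega), pos_cat_le (by omega)]
  unfold E1
  constructor
  · rintro (⟨p, hp, h⟩ | ⟨c, hc, m, hm, h⟩)
    · exact Or.inl ⟨p, hp, (hA p hp).1 h⟩
    · exact Or.inr ⟨c, hc, m, hm, (hB c hc m hm).1 h⟩
  · rintro (⟨p, hp, h⟩ | ⟨c, hc, m, hm, h⟩)
    · exact Or.inl ⟨p, hp, (hA p hp).2 h⟩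
    · exact Or.inr ⟨c, hc, m, hm, (hB c hc m hm).2 h⟩

theorem E2_cat {d K g L N b : ℕ} {u v : ℕ → Dir d} :
    E2 K g L (N + 1) (cat (L + 1 + 2 * g) v u) (b + 1) ↔ E2 K g L N u b := by
  have hB : ∀ c m : ℕ,
      (dist1 (pos 0 (cat (L + 1 + 2 * g) v u) ((b + 1) * (L + 1 + 2 * g) + c))
        (pos 0 (cat (L + 1 + 2 * g) v u) (L + 1 + 2 * g + m)) =
      dist1 (pos 0 u (b * (L + 1 + 2 * g) + c)) (pos 0 u m)) := by
    intro c m
    have h1 : (b + 1) * (L + 1 + 2 * g) + c = (L + 1 + 2 * g) + (b * (L + 1 + 2 * g) + c) := by ring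
    rw [h1, pos_cat_add, pos_cat_add]
    have h2 : ∀ i, pos (0 : V d) u i = ∑ j ∈ Finset.range i, stp (u j) := fun i => by
      rw [pos_eq, zero_add]
    rw [← h2, ← h2, add_comm _ (pos 0 u (b * (L + 1 + 2 * g) + c)), add_comm _ (pos 0 u m),
      dist1_add_right]
  unfold E2
  constructor
  · rintro ⟨c, hc, m, hm, h⟩
    rw [Finset.mem_Ioc] at hm
    have e1 : (b + 1 + 1) * (L + 1 + 2 * g) = (b + 1) * (L + 1 + 2 * g) + (L + 1 + 2 * g) := by ring
    have e2 : (N + 1) * (L + 1 + 2 * g) = N * (L + 1 + 2 * g) + (L + 1 + 2 * g) := by ring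
    rw [e1, e2] at hm
    refine ⟨c, hc, m - (L + 1 + 2 * g), Finset.mem_Ioc.2 ⟨by omega, by omega⟩, ?_⟩
    rw [← hB]
    have e3 : L + 1 + 2 * g + (m - (L + 1 + 2 * g)) = m := by omega
    rw [e3]
    exact h
  · rintro ⟨c, hc, m, hm, h⟩
    rw [Finset.mem_Ioc] at hm
    have e1 : (b + 1 + 1) * (L + 1 + 2 * g) = (b + 1) * (L + 1 + 2 * g) + (L + 1 + 2 * g) := by ring
    have e2 : (N + 1) * (L + 1 + 2 * g) = N * (L + 1 + 2 * g) + (L + 1 + 2 * g) := by ring
    refine ⟨c, hc, L + 1 + 2 * g + m, Finset.mem_Ioc.2 ⟨by omega, by omega⟩, ?_⟩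
    rw [hB]
    exact h

/-- fraction of the words of the last block with `E1` -/
theorem S_E1 {d K g L N : ℕ} {C : ℝ} (hd : 1 ≤ d) (hN : N * (L + 1 + 2 * g) ≤ d ^ 2) (hC0 : 0 ≤ C)
    (l0 : Dir d) (hC : ∀ z0 : V d, ((Finset.univ.filter fun w : Fin g → Dir d =>
      dist1 (∑ j, stp (w j)) z0 ≤ 2 * K + 6).card : ℝ) ≤ C * (2 * d) ^ g / (d : ℝ) ^ 4)
    (u : ℕ → Dir d) :
    (S l0 (L + 1 + 2 * g) fun v => ind (E1 K g L (cat (N * (L + 1 + 2 * g)) u v) N)) ≤
      (((L + 1 + 2 * g : ℕ) : ℝ) ^ 2 + L * C) / d * (2 * d) ^ (L + 1 + 2 * g) := by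
  have hd0 : (0:ℝ) < d := by exact_mod_cast hd
  have hd1 : (1:ℝ) ≤ d := by exact_mod_cast hd
  have h1 : ∀ v : ℕ → Dir d, ind (E1 K g L (cat (N * (L + 1 + 2 * g)) u v) N) ≤
      (∑ p ∈ ((Finset.range (L + 1 + 2 * g)) ×ˢ (Finset.range (L + 1 + 2 * g))).filter
        (fun p => p.1 < p.2), ind ((v p.1).1 = (v p.2).1)) +
      ∑ c ∈ Finset.Ioc g (g + L), ∑ m ∈ Finset.range (N * (L + 1 + 2 * g)),
        ind (dist1 (pos 0 u (N * (L + 1 + 2 * g)) + ∑ j ∈ Finset.range c, stp (v j))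
          (pos 0 u m) ≤ 2 * K + 6) := by
    intro v
    unfold E1
    refine (ind_or _ _).trans ?_
    refine add_le_add ?_ ?_
    · refine (ind_exists _ _).trans (le_of_eq ?_)
      refine Finset.sum_congr rfl fun p _ => ?_
      rw [cat_add, cat_add]
    · refine (ind_exists _ _).trans ?_
      refine Finset.sum_le_sum fun c _ => ?_
      refine (ind_exists _ _).trans (le_of_eq ?_)
      refine Finset.sum_congr rfl fun m hm => ?_
      rw [pos_cat_add, pos_cat_le (Finset.mem_range.1 hm).le]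
  refine (S_mono l0 _ h1).trans ?_
  rw [S_add_fun, S_sum, S_sum]
  have h2 : ∑ p ∈ ((Finset.range (L + 1 + 2 * g)) ×ˢ (Finset.range (L + 1 + 2 * g))).filter
        (fun p => p.1 < p.2), (S l0 (L + 1 + 2 * g) fun v => ind ((v p.1).1 = (v p.2).1)) ≤
      ((L + 1 + 2 * g : ℕ) : ℝ) ^ 2 * ((2 * d) ^ (L + 1 + 2 * g) / d) := by
    refine (Finset.sum_le_card_nsmul _ _ ((2 * d) ^ (L + 1 + 2 * g) / (d:ℝ)) ?_).trans ?_
    · intro p hp
      simp only [Finset.mem_filter, Finset.mem_product, Finset.mem_range] at hp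
      exact S_rep hd l0 hp.2.ne hp.1.1 hp.1.2
    · rw [nsmul_eq_mul]
      refine mul_le_mul_of_nonneg_right ?_ (by positivity)
      have h3 : (((Finset.range (L + 1 + 2 * g)) ×ˢ (Finset.range (L + 1 + 2 * g))).filter
        (fun p : ℕ × ℕ => p.1 < p.2)).card ≤ (L + 1 + 2 * g) ^ 2 := by
        refine (Finset.card_filter_le _ _).trans ?_
        rw [Finset.card_product, Finset.card_range, sq]
      exact_mod_cast h3
  have h3 : ∑ c ∈ Finset.Ioc g (g + L), (S l0 (L + 1 + 2 * g) fun v =>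
      ∑ m ∈ Finset.range (N * (L + 1 + 2 * g)),
        ind (dist1 (pos 0 u (N * (L + 1 + 2 * g)) + ∑ j ∈ Finset.range c, stp (v j))
          (pos 0 u m) ≤ 2 * K + 6)) ≤ L * C * ((2 * d) ^ (L + 1 + 2 * g) / d) := by
    refine (Finset.sum_le_card_nsmul _ _ (C * ((2 * d) ^ (L + 1 + 2 * g) / (d:ℝ))) ?_).trans ?_
    · intro c hc
      rw [S_sum]
      refine (Finset.sum_le_card_nsmul _ _ (C * (2 * d) ^ (L + 1 + 2 * g) / (d:ℝ) ^ 4) ?_).trans ?_
      · intro m _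
        have e : L + 1 + 2 * g = g + (L + 1 + g) := by ring
        have := S_near_first (n := L + 1 + g) (c := c) l0 hC (pos 0 u (N * (L + 1 + 2 * g)))
          (pos 0 u m) (Finset.mem_Ioc.1 hc).1.le
        rw [← e] at this
        exact this
      · rw [nsmul_eq_mul, Finset.card_range]
        have hN' : ((N * (L + 1 + 2 * g) : ℕ) : ℝ) ≤ (d:ℝ) ^ 2 := by exact_mod_cast hN
        calc ((N * (L + 1 + 2 * g) : ℕ) : ℝ) * (C * (2 * d) ^ (L + 1 + 2 * g) / (d:ℝ) ^ 4)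
            ≤ (d:ℝ) ^ 2 * (C * (2 * d) ^ (L + 1 + 2 * g) / (d:ℝ) ^ 4) :=
              mul_le_mul_of_nonneg_right hN' (by positivity)
          _ = C * ((2 * d) ^ (L + 1 + 2 * g) / (d:ℝ)) * (1 / d) := by field_simp
          _ ≤ C * ((2 * d) ^ (L + 1 + 2 * g) / (d:ℝ)) * 1 := by
              refine mul_le_mul_of_nonneg_left ?_ (by positivity)
              rw [div_le_one hd0]; exact hd1
          _ = _ := mul_one _
    · rw [nsmul_eq_mul, Nat.card_Ioc, Nat.add_sub_cancel_left]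
      apply le_of_eq; ring
  refine (add_le_add h2 h3).trans (le_of_eq ?_)
  ring

/-- fraction of the words of the first block with `E2` -/
theorem S_E2 {d K g L N : ℕ} {C : ℝ} (hd : 1 ≤ d) (hN : N * (L + 1 + 2 * g) ≤ d ^ 2) (hC0 : 0 ≤ C)
    (l0 : Dir d) (hC : ∀ z0 : V d, ((Finset.univ.filter fun w : Fin g → Dir d =>
      dist1 (∑ j, stp (w j)) z0 ≤ 2 * K + 6).card : ℝ) ≤ C * (2 * d) ^ g / (d : ℝ) ^ 4)
    (u : ℕ → Dir d) :
    (S l0 (L + 1 + 2 * g) fun v => ind (E2 K g L (N + 1) (cat (L + 1 + 2 * g) v u) 0)) ≤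
      (((L + 1 + 2 * g : ℕ) : ℝ) ^ 2 + L * C) / d * (2 * d) ^ (L + 1 + 2 * g) := by
  have hd0 : (0:ℝ) < d := by exact_mod_cast hd
  have hd1 : (1:ℝ) ≤ d := by exact_mod_cast hd
  have h1 : ∀ v : ℕ → Dir d, ind (E2 K g L (N + 1) (cat (L + 1 + 2 * g) v u) 0) ≤
      ∑ c ∈ Finset.Ioc g (g + L), ∑ m ∈ Finset.Ioc 0 (N * (L + 1 + 2 * g)),
        ind (dist1 (∑ j ∈ Finset.range c, stp (v j))
          (∑ j ∈ Finset.range (L + 1 + 2 * g), stp (v j) + pos 0 u m) ≤ 2 * K + 6) := by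
    intro v
    have h2 : E2 K g L (N + 1) (cat (L + 1 + 2 * g) v u) 0 →
        ∃ c ∈ Finset.Ioc g (g + L), ∃ m ∈ Finset.Ioc 0 (N * (L + 1 + 2 * g)),
          dist1 (∑ j ∈ Finset.range c, stp (v j))
          (∑ j ∈ Finset.range (L + 1 + 2 * g), stp (v j) + pos 0 u m) ≤ 2 * K + 6 := by
      rintro ⟨c, hc, m, hm, h⟩
      rw [Finset.mem_Ioc] at hm
      have e2 : (N + 1) * (L + 1 + 2 * g) = N * (L + 1 + 2 * g) + (L + 1 + 2 * g) := by ring
      rw [e2, Nat.zero_add, one_mul] at hm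
      refine ⟨c, hc, m - (L + 1 + 2 * g), Finset.mem_Ioc.2 ⟨by omega, by omega⟩, ?_⟩
      have e3 : m = L + 1 + 2 * g + (m - (L + 1 + 2 * g)) := by omega
      rw [e3, Nat.zero_mul, Nat.zero_add, pos_cat_add,
        pos_cat_le (by have := (Finset.mem_Ioc.1 hc).2; omega), pos_eq, pos_eq, zero_add,
        zero_add] at h
      rw [pos_eq, zero_add]
      exact h
    refine (ind_mono h2).trans ?_
    refine (ind_exists _ _).trans ?_
    refine Finset.sum_le_sum fun c _ => ?_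
    exact ind_exists _ _
  refine (S_mono l0 _ h1).trans ?_
  rw [S_sum]
  have h3 : ∑ c ∈ Finset.Ioc g (g + L), (S l0 (L + 1 + 2 * g) fun v =>
      ∑ m ∈ Finset.Ioc 0 (N * (L + 1 + 2 * g)),
        ind (dist1 (∑ j ∈ Finset.range c, stp (v j))
          (∑ j ∈ Finset.range (L + 1 + 2 * g), stp (v j) + pos 0 u m) ≤ 2 * K + 6)) ≤
      L * C * ((2 * d) ^ (L + 1 + 2 * g) / d) := by
    refine (Finset.sum_le_card_nsmul _ _ (C * ((2 * d) ^ (L + 1 + 2 * g) / (d:ℝ))) ?_).trans ?_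
    · intro c hc
      rw [S_sum]
      refine (Finset.sum_le_card_nsmul _ _ (C * (2 * d) ^ (L + 1 + 2 * g) / (d:ℝ) ^ 4) ?_).trans ?_
      · intro m _
        have e : L + 1 + 2 * g = (L + 1 + g) + g := by ring
        have := S_near_last (n := L + 1 + g) (c := c) l0 hC
          (pos 0 u m) (by have := (Finset.mem_Ioc.1 hc).2; omega)
        rw [← e] at this
        exact this
      · rw [nsmul_eq_mul, Nat.card_Ioc, Nat.sub_zero]
        have hN' : ((N * (L + 1 + 2 * g) : ℕ) : ℝ) ≤ (d:ℝ) ^ 2 := by exact_mod_cast hN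
        calc ((N * (L + 1 + 2 * g) : ℕ) : ℝ) * (C * (2 * d) ^ (L + 1 + 2 * g) / (d:ℝ) ^ 4)
            ≤ (d:ℝ) ^ 2 * (C * (2 * d) ^ (L + 1 + 2 * g) / (d:ℝ) ^ 4) :=
              mul_le_mul_of_nonneg_right hN' (by positivity)
          _ = C * ((2 * d) ^ (L + 1 + 2 * g) / (d:ℝ)) * (1 / d) := by field_simp
          _ ≤ C * ((2 * d) ^ (L + 1 + 2 * g) / (d:ℝ)) * 1 := by
              refine mul_le_mul_of_nonneg_left ?_ (by positivity)
              rw [div_le_one hd0]; exact hd1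
          _ = _ := mul_one _
    · rw [nsmul_eq_mul, Nat.card_Ioc, Nat.add_sub_cancel_left]
      apply le_of_eq; ring
  refine h3.trans ?_
  have : 0 ≤ ((L + 1 + 2 * g : ℕ) : ℝ) ^ 2 * ((2 * d) ^ (L + 1 + 2 * g) / d) := by positivity
  calc L * C * ((2 * d : ℝ) ^ (L + 1 + 2 * g) / d)
      ≤ ((L + 1 + 2 * g : ℕ) : ℝ) ^ 2 * ((2 * d) ^ (L + 1 + 2 * g) / d) +
        L * C * ((2 * d : ℝ) ^ (L + 1 + 2 * g) / d) := by linarith
    _ = _ := by ring

theorem S_prod1 {d K g L : ℕ} {C a : ℝ} (hd : 1 ≤ d) (hC0 : 0 ≤ C) (ha : 0 ≤ a)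
    (l0 : Dir d) (hC : ∀ z0 : V d, ((Finset.univ.filter fun w : Fin g → Dir d =>
      dist1 (∑ j, stp (w j)) z0 ≤ 2 * K + 6).card : ℝ) ≤ C * (2 * d) ^ g / (d : ℝ) ^ 4)
    (N : ℕ) (hN : N * (L + 1 + 2 * g) ≤ d ^ 2) :
    (S l0 (N * (L + 1 + 2 * g)) fun w => ∏ b ∈ Finset.range N, wt a (E1 K g L w b)) ≤
      ((2 * d) ^ (L + 1 + 2 * g) *
        (1 + a * ((((L + 1 + 2 * g : ℕ) : ℝ) ^ 2 + L * C) / d))) ^ N := by
  induction N with
  | zero =>
    simp only [Finset.range_zero, Finset.prod_empty, pow_zero]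
    rw [S_const]; simp
  | succ N ih =>
    have e2 : (N + 1) * (L + 1 + 2 * g) = N * (L + 1 + 2 * g) + (L + 1 + 2 * g) := by ring
    rw [e2] at hN
    rw [e2, S_add, pow_succ]
    have hN' : N * (L + 1 + 2 * g) ≤ d ^ 2 := by omega
    have h1 : ∀ u : ℕ → Dir d, (S l0 (L + 1 + 2 * g) fun v =>
        ∏ b ∈ Finset.range (N + 1), wt a (E1 K g L (cat (N * (L + 1 + 2 * g)) u v) b)) ≤
        (∏ b ∈ Finset.range N, wt a (E1 K g L u b)) * ((2 * d) ^ (L + 1 + 2 * g) *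
        (1 + a * ((((L + 1 + 2 * g : ℕ) : ℝ) ^ 2 + L * C) / d))) := by
      intro u
      have h2 : ∀ v : ℕ → Dir d,
          ∏ b ∈ Finset.range (N + 1), wt a (E1 K g L (cat (N * (L + 1 + 2 * g)) u v) b) =
          (∏ b ∈ Finset.range N, wt a (E1 K g L u b)) *
            wt a (E1 K g L (cat (N * (L + 1 + 2 * g)) u v) N) := by
        intro v
        rw [Finset.prod_range_succ]
        congr 1
        exact Finset.prod_congr rfl fun b hb => wt_congr (E1_cat (Finset.mem_range.1 hb))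
      simp only [h2]
      rw [S_mul_left]
      refine mul_le_mul_of_nonneg_left ?_ ?_
      · exact S_wt l0 ha _ (S_E1 hd hN' hC0 l0 hC u)
      · refine Finset.prod_nonneg fun b _ => ?_
        unfold wt; split_ifs <;> linarith
    refine (S_mono l0 _ h1).trans ?_
    rw [S_mul_right]
    exact mul_le_mul_of_nonneg_right (ih hN') (by positivity)

theorem S_prod2 {d K g L : ℕ} {C a : ℝ} (hd : 1 ≤ d) (hC0 : 0 ≤ C) (ha : 0 ≤ a)
    (l0 : Dir d) (hC : ∀ z0 : V d, ((Finset.univ.filter fun w : Fin g → Dir d =>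
      dist1 (∑ j, stp (w j)) z0 ≤ 2 * K + 6).card : ℝ) ≤ C * (2 * d) ^ g / (d : ℝ) ^ 4)
    (N : ℕ) (hN : N * (L + 1 + 2 * g) ≤ d ^ 2) :
    (S l0 (N * (L + 1 + 2 * g)) fun w => ∏ b ∈ Finset.range N, wt a (E2 K g L N w b)) ≤
      ((2 * d) ^ (L + 1 + 2 * g) *
        (1 + a * ((((L + 1 + 2 * g : ℕ) : ℝ) ^ 2 + L * C) / d))) ^ N := by
  induction N with
  | zero =>
    simp only [Finset.range_zero, Finset.prod_empty, pow_zero]
    rw [S_const]; simp
  | succ N ih =>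
    have e2 : (N + 1) * (L + 1 + 2 * g) = (L + 1 + 2 * g) + N * (L + 1 + 2 * g) := by ring
    rw [e2] at hN
    rw [e2, S_add, S_swap, pow_succ]
    have hN' : N * (L + 1 + 2 * g) ≤ d ^ 2 := by omega
    have h1 : ∀ u : ℕ → Dir d, (S l0 (L + 1 + 2 * g) fun v =>
        ∏ b ∈ Finset.range (N + 1), wt a (E2 K g L (N + 1) (cat (L + 1 + 2 * g) v u) b)) ≤
        (∏ b ∈ Finset.range N, wt a (E2 K g L N u b)) * ((2 * d) ^ (L + 1 + 2 * g) *
        (1 + a * ((((L + 1 + 2 * g : ℕ) : ℝ) ^ 2 + L * C) / d))) := by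
      intro u
      have h2 : ∀ v : ℕ → Dir d,
          ∏ b ∈ Finset.range (N + 1), wt a (E2 K g L (N + 1) (cat (L + 1 + 2 * g) v u) b) =
          (∏ b ∈ Finset.range N, wt a (E2 K g L N u b)) *
            wt a (E2 K g L (N + 1) (cat (L + 1 + 2 * g) v u) 0) := by
        intro v
        rw [Finset.prod_range_succ']
        congr 1
        exact Finset.prod_congr rfl fun b hb => wt_congr E2_cat
      simp only [h2]
      rw [S_mul_left]
      refine mul_le_mul_of_nonneg_left ?_ ?_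
      · exact S_wt l0 ha _ (S_E2 hd hN' hC0 l0 hC u)
      · refine Finset.prod_nonneg fun b _ => ?_
        unfold wt; split_ifs <;> linarith
    refine (S_mono l0 _ h1).trans ?_
    rw [S_mul_right]
    exact mul_le_mul_of_nonneg_right (ih hN') (by positivity)

open Classical in
theorem gd_le {d K g L N : ℕ} {φ : ℝ} (h0 : 0 < φ) (h1 : φ ≤ 1) (w : ℕ → Dir d) :
    φ ^ gd K g L N w ≤ φ ^ N * ((∏ b ∈ Finset.range N, wt φ⁻¹ (E1 K g L w b)) *
      ∏ b ∈ Finset.range N, wt φ⁻¹ (E2 K g L N w b)) := by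
  have hc : 1 ≤ φ⁻¹ := (one_le_inv₀ h0).2 h1
  unfold gd
  rw [← Finset.prod_const, Finset.prod_filter, ← Finset.prod_mul_distrib]
  have h2 : φ ^ N = ∏ b ∈ Finset.range N, φ := by rw [Finset.prod_const, Finset.card_range]
  rw [h2, ← Finset.prod_mul_distrib]
  refine Finset.prod_le_prod (fun b _ => ?_) fun b _ => ?_
  · split_ifs
    · exact h0.le
    · exact zero_le_one
  · have h3 := wt_ge_one hc (E1 K g L w b)
    have h4 := wt_ge_one hc (E2 K g L N w b)
    split_ifs with h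
    · have h5 : 1 ≤ wt φ⁻¹ (E1 K g L w b) * wt φ⁻¹ (E2 K g L N w b) := by nlinarith
      nlinarith
    · have h5 : φ⁻¹ ≤ wt φ⁻¹ (E1 K g L w b) * wt φ⁻¹ (E2 K g L N w b) := by
        rcases E_of_bad h with h6 | h6
        · have h7 : wt φ⁻¹ (E1 K g L w b) = φ⁻¹ := by unfold wt; rw [if_pos h6]
          rw [h7]
          have : 0 < φ⁻¹ := inv_pos.2 h0
          nlinarith
        · have h7 : wt φ⁻¹ (E2 K g L N w b) = φ⁻¹ := by unfold wt; rw [if_pos h6]
          rw [h7]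
          have : 0 < φ⁻¹ := inv_pos.2 h0
          nlinarith
      calc (1:ℝ) = φ * φ⁻¹ := (mul_inv_cancel₀ h0.ne').symm
        _ ≤ _ := mul_le_mul_of_nonneg_left h5 h0.le

end Count2

open Count2

theorem count_words {K g L : ℕ} (hg : 4 * K + 20 ≤ g) {φ : ℝ} (h0 : 0 < φ) (h1 : φ ≤ 1) :
    ∃ d0 : ℕ, ∀ d, d0 ≤ d → ∀ (N : ℕ), N * (L + 1 + 2 * g) ≤ d ^ 2 → ∀ l0 : Dir d,
      ∑ w : Fin (N * (L + 1 + 2 * g)) → Dir d, φ ^ gd K g L N (extw l0 w)
        ≤ (2 * d : ℝ) ^ (N * (L + 1 + 2 * g)) * (2 * φ) ^ N := by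
  obtain ⟨C, hC0, hC⟩ := count_near (k := g) (R := 2 * K + 6) (by omega)
  obtain ⟨d1, hd1⟩ := exists_nat_ge
    (φ⁻¹ ^ 2 * (((L + 1 + 2 * g : ℕ) : ℝ) ^ 2 + L * C))
  refine ⟨max 1 d1, fun d hd N hN l0 => ?_⟩
  have hdone : 1 ≤ d := le_trans (le_max_left _ _) hd
  have hdd : d1 ≤ d := le_trans (le_max_right _ _) hd
  have hd0 : (0:ℝ) < d := by exact_mod_cast hdone
  have hφ : 0 < φ⁻¹ := inv_pos.2 h0
  have ha : 0 ≤ φ⁻¹ ^ 2 := by positivity
  have hX : 1 + φ⁻¹ ^ 2 * ((((L + 1 + 2 * g : ℕ) : ℝ) ^ 2 + L * C) / d) ≤ 2 := by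
    have h3 : φ⁻¹ ^ 2 * ((((L + 1 + 2 * g : ℕ) : ℝ) ^ 2 + L * C) / d) ≤ 1 := by
      rw [← mul_div_assoc, div_le_one hd0]
      refine hd1.trans ?_
      exact_mod_cast hdd
    linarith
  have hX2 : ((2 * (d:ℝ)) ^ (L + 1 + 2 * g) *
      (1 + φ⁻¹ ^ 2 * ((((L + 1 + 2 * g : ℕ) : ℝ) ^ 2 + L * C) / d))) ^ N ≤
      ((2 * (d:ℝ)) ^ (L + 1 + 2 * g) * 2) ^ N :=
    pow_le_pow_left₀ (by positivity) (mul_le_mul_of_nonneg_left hX (by positivity)) N
  have hP1 := (S_prod1 (L := L) hdone hC0.le ha l0 (hC d hdone) N hN).trans hX2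
  have hP2 := (S_prod2 (L := L) hdone hC0.le ha l0 (hC d hdone) N hN).trans hX2
  set Y : ℝ := ((2 * (d:ℝ)) ^ (L + 1 + 2 * g) * 2) ^ N with hY
  have hY0 : 0 ≤ Y := by rw [hY]; positivity
  have hstep : ∑ w : Fin (N * (L + 1 + 2 * g)) → Dir d, φ ^ gd K g L N (extw l0 w) ≤
      φ ^ N * ∑ w : Fin (N * (L + 1 + 2 * g)) → Dir d,
        ((∏ b ∈ Finset.range N, wt φ⁻¹ (E1 K g L (extw l0 w) b)) *
      ∏ b ∈ Finset.range N, wt φ⁻¹ (E2 K g L N (extw l0 w) b)) := by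
    rw [Finset.mul_sum]
    exact Finset.sum_le_sum fun w _ => gd_le h0 h1 _
  have hCS := Finset.sum_mul_sq_le_sq_mul_sq Finset.univ
    (fun w : Fin (N * (L + 1 + 2 * g)) → Dir d =>
      ∏ b ∈ Finset.range N, wt φ⁻¹ (E1 K g L (extw l0 w) b))
    (fun w => ∏ b ∈ Finset.range N, wt φ⁻¹ (E2 K g L N (extw l0 w) b))
  have hA : ∑ w : Fin (N * (L + 1 + 2 * g)) → Dir d,
      (∏ b ∈ Finset.range N, wt φ⁻¹ (E1 K g L (extw l0 w) b)) ^ 2 ≤ Y := by
    refine le_trans (le_of_eq ?_) hP1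
    unfold S
    refine Finset.sum_congr rfl fun w _ => ?_
    rw [← Finset.prod_pow]
    exact Finset.prod_congr rfl fun b _ => wt_sq _ _
  have hB : ∑ w : Fin (N * (L + 1 + 2 * g)) → Dir d,
      (∏ b ∈ Finset.range N, wt φ⁻¹ (E2 K g L N (extw l0 w) b)) ^ 2 ≤ Y := by
    refine le_trans (le_of_eq ?_) hP2
    unfold S
    refine Finset.sum_congr rfl fun w _ => ?_
    rw [← Finset.prod_pow]
    exact Finset.prod_congr rfl fun b _ => wt_sq _ _
  have hfin : ∑ w : Fin (N * (L + 1 + 2 * g)) → Dir d,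
        ((∏ b ∈ Finset.range N, wt φ⁻¹ (E1 K g L (extw l0 w) b)) *
      ∏ b ∈ Finset.range N, wt φ⁻¹ (E2 K g L N (extw l0 w) b)) ≤ Y := by
    have h5 : (∑ w : Fin (N * (L + 1 + 2 * g)) → Dir d,
        ((∏ b ∈ Finset.range N, wt φ⁻¹ (E1 K g L (extw l0 w) b)) *
      ∏ b ∈ Finset.range N, wt φ⁻¹ (E2 K g L N (extw l0 w) b))) ^ 2 ≤ Y ^ 2 := by
      refine hCS.trans ?_
      rw [sq Y]
      refine mul_le_mul hA hB ?_ hY0
      exact Finset.sum_nonneg fun w _ => sq_nonneg _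
    exact (abs_le_of_sq_le_sq' h5 hY0).2
  refine hstep.trans ?_
  refine (mul_le_mul_of_nonneg_left hfin (by positivity)).trans (le_of_eq ?_)
  have e3 : (2 * (d:ℝ)) ^ (N * (L + 1 + 2 * g)) = ((2 * (d:ℝ)) ^ (L + 1 + 2 * g)) ^ N := by
    rw [← pow_mul, mul_comm N]
  rw [hY, mul_pow ((2 * (d:ℝ)) ^ (L + 1 + 2 * g)) (2:ℝ) N, e3, mul_pow (2:ℝ) φ N]
  generalize ((2 * (d:ℝ)) ^ (L + 1 + 2 * g)) ^ N = Z
  ring

end H42.CD
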