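import Pool.Agent.H42.CD.MLBasic

/-!
# Module MLGROWTH: supermultiplicativity and growth in `s`

* `mL_super`: `mL g s (L + M + 1) ≥ g(s) mL g s L mL g s M`. Prove first, for `0 ≤ u ≤ s`,
  `kit g s (L + M + 1) u ≥ g s * kit g s L u * mL g s M` by induction on `L`:
  `kit g s (M+1) u = ∫_0^s g (max u v) kit g s M v dv ≥ g s * mL g s M`; and for `L + 1` insert the
  induction hypothesis in the integral. Integrate over `u`.
* `mL_growth`: let `0 < s < s'`, `g` antitone positive `≤ 1` on `[0, ∞)`, `η = (s' - s) g(s')^2 / s`. Then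
  `(1+η)^(L/2) mL g s L ≤ mL g s' L`. For `a, z ∈ [0, s]`:
  `∫_0^{s'} g(max a v) g(max v z) dv ≥ (1+η) ∫_0^s g(max a v) g(max v z) dv`, because the difference of the two
  integrals is `≥ (s'-s) g(s')^2` and the second integral is `≤ s`. So for `u ∈ [0, s]`
  `kit g s' (k+2) u = ∫_0^{s'} (∫_0^{s'} g(max u v) g(max v z) dv) kit g s' k z dz
     ≥ (1+η) ∫_0^s (∫_0^s g(max u v) g(max v z) dv) kit g s' k z dz`
  (Fubini: `intervalIntegral_integral_interval_swap` / `MeasureTheory.integral_integral_swap`), and by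
  induction `kit g s' k u ≥ (1+η)^(k/2) kit g s k u` on `[0, s]` for all `k` (steps of two; for `k = 1`
  `kit g s' 1 ≥ kit g s 1`). Integrate over `u ∈ [0, s] ⊆ [0, s']`.
-/

open MeasureTheory Set Filter
open scoped ENNReal Topology

namespace H42.CD

theorem kit_int' {g : ℝ → ℝ} (hg : Continuous g) (s s' : ℝ) (k : ℕ) (u : ℝ) :
    IntervalIntegrable (fun v => g (max u v) * kit g s' k v) volume 0 s := by
  refine Continuous.intervalIntegrable ?_ 0 s
  exact (hg.comp (continuous_const.max continuous_id)).mul (kit_cont hg s' k)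

theorem kit_super {g : ℝ → ℝ} (hg : Continuous g) {s : ℝ} (hs : 0 < s)
    (h0 : ∀ x, 0 ≤ x → x ≤ s → 0 < g x) (ha : ∀ x y, 0 ≤ x → x ≤ y → g y ≤ g x) (M L : ℕ)
    {u : ℝ} (hu : 0 ≤ u) (hu' : u ≤ s) :
    (g s * mL g s M) * kit g s L u ≤ kit g s (L + M + 1) u := by
  have h0' : ∀ x, 0 ≤ x → x ≤ s → 0 ≤ g x := fun x h1 h2 => (h0 x h1 h2).le
  induction L generalizing u with
  | zero =>
    have h1 : kit g s (0 + M + 1) u = ∫ v in (0:ℝ)..s, g (max u v) * kit g s M v := by
      rw [zero_add]; rfl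
    rw [h1]
    have h2 : g s * mL g s M * kit g s 0 u = ∫ v in (0:ℝ)..s, g s * kit g s M v := by
      rw [intervalIntegral.integral_const_mul]; simp [kit, mL]
    rw [h2]
    refine intervalIntegral.integral_mono_on hs.le
      ((continuous_const.mul (kit_cont hg s M)).intervalIntegrable 0 s) (kit_int hg s M u 0 s)
      fun v hv => ?_
    exact mul_le_mul_of_nonneg_right (ha _ _ (le_max_of_le_left hu) (max_le hu' hv.2))
      (kit_nonneg hs.le h0' M hv.1 hv.2)
  | succ L ih =>
    have h1 : kit g s (L + 1 + M + 1) u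
        = ∫ v in (0:ℝ)..s, g (max u v) * kit g s (L + M + 1) v := by
      have : L + 1 + M + 1 = (L + M + 1) + 1 := by ring
      rw [this]; rfl
    rw [h1]
    have h2 : g s * mL g s M * kit g s (L + 1) u
        = ∫ v in (0:ℝ)..s, (g s * mL g s M) * (g (max u v) * kit g s L v) := by
      rw [intervalIntegral.integral_const_mul]; rfl
    rw [h2]
    refine intervalIntegral.integral_mono_on hs.le
      ((kit_int hg s L u 0 s).const_mul _) (kit_int hg s (L + M + 1) u 0 s) fun v hv => ?_
    have h3 := ih hv.1 hv.2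
    have h4 : 0 ≤ g (max u v) := h0' _ (le_max_of_le_left hu) (max_le hu' hv.2)
    calc (g s * mL g s M) * (g (max u v) * kit g s L v)
        = g (max u v) * ((g s * mL g s M) * kit g s L v) := by ring
      _ ≤ _ := mul_le_mul_of_nonneg_left h3 h4

theorem mL_super {g : ℝ → ℝ} (hg : Continuous g) {s : ℝ} (hs : 0 < s)
    (h0 : ∀ x, 0 ≤ x → x ≤ s → 0 < g x) (ha : ∀ x y, 0 ≤ x → x ≤ y → g y ≤ g x) (L M : ℕ) :
    g s * mL g s L * mL g s M ≤ mL g s (L + M + 1) := by
  have h1 : g s * mL g s L * mL g s M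
      = ∫ u in (0:ℝ)..s, (g s * mL g s M) * kit g s L u := by
    rw [intervalIntegral.integral_const_mul]
    change g s * mL g s L * mL g s M = (g s * mL g s M) * mL g s L
    ring
  rw [h1]
  unfold mL
  refine intervalIntegral.integral_mono_on hs.le
      ((continuous_const.mul (kit_cont hg s L)).intervalIntegrable 0 s)
      ((kit_cont hg s (L + M + 1)).intervalIntegrable 0 s) fun v hv => ?_
  exact kit_super hg hs h0 ha M L hv.1 hv.2

/-- one step of the growth: the two-fold kernel on `[0, s']` dominates `1 + η` times the one on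
`[0, s]` -/
theorem two_step {g : ℝ → ℝ} (hg : Continuous g) (h0 : ∀ x, 0 ≤ x → 0 < g x)
    (h1 : ∀ x, 0 ≤ x → g x ≤ 1) (ha : ∀ x y, 0 ≤ x → x ≤ y → g y ≤ g x) {s s' : ℝ}
    (hs : 0 < s) (hss : s < s') {K : ℝ → ℝ} (hK : Continuous K)
    (hK0 : ∀ x, 0 ≤ x → x ≤ s' → 0 ≤ K x) {u : ℝ} (hu : 0 ≤ u) (hu' : u ≤ s) :
    (1 + (s' - s) * g s' ^ 2 / s) *
      (∫ v in (0:ℝ)..s, g (max u v) * ∫ z in (0:ℝ)..s, g (max v z) * K z)
      ≤ ∫ v in (0:ℝ)..s', g (max u v) * ∫ z in (0:ℝ)..s', g (max v z) * K z := by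
  have hs' : 0 < s' := hs.trans hss
  have hcz : ∀ v, Continuous fun z => g (max v z) * K z := fun v =>
    (hg.comp (continuous_const.max continuous_id)).mul hK
  have hch : ∀ r : ℝ, Continuous fun v => ∫ z in (0:ℝ)..r, g (max v z) * K z := by
    intro r
    refine intervalIntegral.continuous_parametric_intervalIntegral_of_continuous' ?_ 0 r
    exact (hg.comp (continuous_fst.max continuous_snd)).mul (hK.comp continuous_snd)
  have hcf : ∀ r : ℝ, Continuous fun v => g (max u v) * ∫ z in (0:ℝ)..r, g (max v z) * K z :=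
    fun r => (hg.comp (continuous_const.max continuous_id)).mul (hch r)
  -- total mass
  obtain ⟨m, hm⟩ : ∃ m, m = ∫ z in (0:ℝ)..s, K z := ⟨_, rfl⟩
  have hm0 : 0 ≤ m := by
    rw [hm]
    exact intervalIntegral.integral_nonneg hs.le fun z hz => hK0 z hz.1 (hz.2.trans hss.le)
  -- step 1: reduce the inner integral
  have hinner : ∀ v, 0 ≤ v → v ≤ s' →
      (∫ z in (0:ℝ)..s, g (max v z) * K z) ≤ ∫ z in (0:ℝ)..s', g (max v z) * K z := by
    intro v hv hv'
    have h2 := intervalIntegral.integral_add_adjacent_intervals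
      ((hcz v).intervalIntegrable (μ := volume) 0 s) ((hcz v).intervalIntegrable s s')
    have h3 : 0 ≤ ∫ z in s..s', g (max v z) * K z := by
      refine intervalIntegral.integral_nonneg hss.le fun z hz => ?_
      exact mul_nonneg (h0 _ (le_max_of_le_left hv)).le (hK0 z (hs.le.trans hz.1) hz.2)
    linarith
  have h2 : (∫ v in (0:ℝ)..s', g (max u v) * ∫ z in (0:ℝ)..s, g (max v z) * K z)
      ≤ ∫ v in (0:ℝ)..s', g (max u v) * ∫ z in (0:ℝ)..s', g (max v z) * K z := by
    refine intervalIntegral.integral_mono_on hs'.le ((hcf s).intervalIntegrable 0 s')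
      ((hcf s').intervalIntegrable 0 s') fun v hv => ?_
    exact mul_le_mul_of_nonneg_left (hinner v hv.1 hv.2) (h0 _ (le_max_of_le_left hu)).le
  refine le_trans ?_ h2
  -- step 2: split the outer integral
  rw [← intervalIntegral.integral_add_adjacent_intervals
      ((hcf s).intervalIntegrable (μ := volume) 0 s) ((hcf s).intervalIntegrable s s')]
  have hlow : (s' - s) * (g s' ^ 2 * m)
      ≤ ∫ v in s..s', g (max u v) * ∫ z in (0:ℝ)..s, g (max v z) * K z := by
    have h3 : (s' - s) * (g s' ^ 2 * m) = ∫ v in s..s', g s' ^ 2 * m := by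
      rw [intervalIntegral.integral_const, smul_eq_mul]
    rw [h3]
    refine intervalIntegral.integral_mono_on hss.le (by simp)
      ((hcf s).intervalIntegrable s s') fun v hv => ?_
    have hv0 : 0 ≤ v := hs.le.trans hv.1
    have h4 : g s' ≤ g (max u v) :=
      ha _ _ (le_max_of_le_left hu) (max_le (hu'.trans hss.le) hv.2)
    have h5 : g s' * m ≤ ∫ z in (0:ℝ)..s, g (max v z) * K z := by
      rw [hm, ← intervalIntegral.integral_const_mul]
      refine intervalIntegral.integral_mono_on hs.le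
        ((continuous_const.mul hK).intervalIntegrable 0 s) ((hcz v).intervalIntegrable 0 s)
        fun z hz => ?_
      exact mul_le_mul_of_nonneg_right (ha _ _ (le_max_of_le_left hv0)
        (max_le hv.2 (hz.2.trans hss.le))) (hK0 z hz.1 (hz.2.trans hss.le))
    calc g s' ^ 2 * m = g s' * (g s' * m) := by ring
      _ ≤ _ := mul_le_mul h4 h5 (mul_nonneg (h0 _ hs'.le).le hm0)
        (h0 _ (le_max_of_le_left hu)).le
  have hup : (∫ v in (0:ℝ)..s, g (max u v) * ∫ z in (0:ℝ)..s, g (max v z) * K z) ≤ s * m := by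
    have h3 : s * m = ∫ v in (0:ℝ)..s, m := by simp
    rw [h3]
    refine intervalIntegral.integral_mono_on hs.le ((hcf s).intervalIntegrable 0 s) (by simp)
      fun v hv => ?_
    have h5 : (∫ z in (0:ℝ)..s, g (max v z) * K z) ≤ m := by
      rw [hm]
      refine intervalIntegral.integral_mono_on hs.le ((hcz v).intervalIntegrable 0 s)
        (hK.intervalIntegrable 0 s) fun z hz => ?_
      have := mul_le_mul_of_nonneg_right (h1 _ (le_max_of_le_left hv.1) : g (max v z) ≤ 1)
        (hK0 z hz.1 (hz.2.trans hss.le))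
      linarith
    have h6 : 0 ≤ ∫ z in (0:ℝ)..s, g (max v z) * K z := by
      refine intervalIntegral.integral_nonneg hs.le fun z hz => ?_
      exact mul_nonneg (h0 _ (le_max_of_le_left hv.1)).le (hK0 z hz.1 (hz.2.trans hss.le))
    calc g (max u v) * (∫ z in (0:ℝ)..s, g (max v z) * K z)
        ≤ 1 * (∫ z in (0:ℝ)..s, g (max v z) * K z) :=
          mul_le_mul_of_nonneg_right (h1 _ (le_max_of_le_left hu)) h6
      _ ≤ m := by rw [one_mul]; exact h5
  generalize (∫ v in (0:ℝ)..s, g (max u v) * ∫ z in (0:ℝ)..s, g (max v z) * K z) = X at hup ⊢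
  generalize (∫ v in s..s', g (max u v) * ∫ z in (0:ℝ)..s, g (max v z) * K z) = Y at hlow ⊢
  have h7 : (s' - s) * g s' ^ 2 / s * X ≤ (s' - s) * (g s' ^ 2 * m) := by
    have h8 : 0 ≤ (s' - s) * g s' ^ 2 / s :=
      div_nonneg (mul_nonneg (sub_nonneg.2 hss.le) (sq_nonneg _)) hs.le
    calc (s' - s) * g s' ^ 2 / s * X ≤ (s' - s) * g s' ^ 2 / s * (s * m) :=
          mul_le_mul_of_nonneg_left hup h8
      _ = (s' - s) * (g s' ^ 2 * m) := by field_simp
  linarith

theorem kit_growth {g : ℝ → ℝ} (hg : Continuous g) (h0 : ∀ x, 0 ≤ x → 0 < g x)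
    (h1 : ∀ x, 0 ≤ x → g x ≤ 1) (ha : ∀ x y, 0 ≤ x → x ≤ y → g y ≤ g x) {s s' : ℝ}
    (hs : 0 < s) (hss : s < s') (k : ℕ) :
    ∀ u, 0 ≤ u → u ≤ s →
      (1 + (s' - s) * g s' ^ 2 / s) ^ (k / 2) * kit g s k u ≤ kit g s' k u := by
  have hs' : 0 < s' := hs.trans hss
  have hη : 0 ≤ 1 + (s' - s) * g s' ^ 2 / s := by
    have h8 : 0 ≤ (s' - s) * g s' ^ 2 / s :=
      div_nonneg (mul_nonneg (sub_nonneg.2 hss.le) (sq_nonneg _)) hs.le
    linarith
  have h0' : ∀ x, 0 ≤ x → x ≤ s' → 0 ≤ g x := fun x h _ => (h0 x h).le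
  induction k using Nat.twoStepInduction with
  | zero => intro u _ _; simp [kit]
  | one =>
    intro u hu hu'
    have e1 : kit g s 1 u = ∫ v in (0:ℝ)..s, g (max u v) * 1 := rfl
    have e2 : kit g s' 1 u = ∫ v in (0:ℝ)..s', g (max u v) * 1 := rfl
    have hc : Continuous fun v => g (max u v) * 1 :=
      (hg.comp (continuous_const.max continuous_id)).mul continuous_const
    have h2 := intervalIntegral.integral_add_adjacent_intervals
      (hc.intervalIntegrable (μ := volume) 0 s) (hc.intervalIntegrable s s')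
    have h3 : 0 ≤ ∫ v in s..s', g (max u v) * 1 := by
      refine intervalIntegral.integral_nonneg hss.le fun z hz => ?_
      exact mul_nonneg (h0 _ (le_max_of_le_left hu)).le zero_le_one
    rw [e1, e2, ← h2]
    simp only [Nat.reduceDiv, pow_zero, one_mul]
    linarith
  | more k ih _ =>
    intro u hu hu'
    have e1 : kit g s (k + 2) u
        = ∫ v in (0:ℝ)..s, g (max u v) * ∫ z in (0:ℝ)..s, g (max v z) * kit g s k z := rfl
    have e2 : kit g s' (k + 2) u
        = ∫ v in (0:ℝ)..s', g (max u v) * ∫ z in (0:ℝ)..s', g (max v z) * kit g s' k z := rfl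
    have h2 := two_step hg h0 h1 ha hs hss (kit_cont hg s' k)
      (fun x hx hx' => kit_nonneg hs'.le h0' k hx hx') hu hu'
    rw [← e2] at h2
    refine le_trans ?_ h2
    have e3 : (k + 2) / 2 = k / 2 + 1 := by omega
    rw [e3, pow_succ', mul_assoc]
    refine mul_le_mul_of_nonneg_left ?_ hη
    rw [e1, ← intervalIntegral.integral_const_mul]
    have hc1 : Continuous fun v => (1 + (s' - s) * g s' ^ 2 / s) ^ (k / 2) *
        (g (max u v) * ∫ z in (0:ℝ)..s, g (max v z) * kit g s k z) := by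
      have := kit_cont hg s (k + 1)
      exact continuous_const.mul ((hg.comp (continuous_const.max continuous_id)).mul this)
    have hc2 : Continuous fun v =>
        (g (max u v) * ∫ z in (0:ℝ)..s, g (max v z) * kit g s' k z) := by
      refine (hg.comp (continuous_const.max continuous_id)).mul ?_
      refine intervalIntegral.continuous_parametric_intervalIntegral_of_continuous' ?_ 0 s
      exact (hg.comp (continuous_fst.max continuous_snd)).mul
        ((kit_cont hg s' k).comp continuous_snd)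
    refine intervalIntegral.integral_mono_on hs.le (hc1.intervalIntegrable 0 s)
      (hc2.intervalIntegrable 0 s) fun v hv => ?_
    have h3 : (1 + (s' - s) * g s' ^ 2 / s) ^ (k / 2) *
        (∫ z in (0:ℝ)..s, g (max v z) * kit g s k z)
        ≤ ∫ z in (0:ℝ)..s, g (max v z) * kit g s' k z := by
      rw [← intervalIntegral.integral_const_mul]
      refine intervalIntegral.integral_mono_on hs.le ((kit_int hg s k v 0 s).const_mul _)
        (kit_int' hg s s' k v) fun z hz => ?_
      have h4 := ih z hz.1 hz.2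
      have h5 : 0 ≤ g (max v z) := (h0 _ (le_max_of_le_left hv.1)).le
      calc (1 + (s' - s) * g s' ^ 2 / s) ^ (k / 2) * (g (max v z) * kit g s k z)
          = g (max v z) * ((1 + (s' - s) * g s' ^ 2 / s) ^ (k / 2) * kit g s k z) := by ring
        _ ≤ _ := mul_le_mul_of_nonneg_left h4 h5
    have h5 : 0 ≤ g (max u v) := (h0 _ (le_max_of_le_left hu)).le
    calc (1 + (s' - s) * g s' ^ 2 / s) ^ (k / 2) *
          (g (max u v) * ∫ z in (0:ℝ)..s, g (max v z) * kit g s k z)
        = g (max u v) * ((1 + (s' - s) * g s' ^ 2 / s) ^ (k / 2) *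
          ∫ z in (0:ℝ)..s, g (max v z) * kit g s k z) := by ring
      _ ≤ _ := mul_le_mul_of_nonneg_left h3 h5

theorem mL_growth {g : ℝ → ℝ} (hg : Continuous g) (h0 : ∀ x, 0 ≤ x → 0 < g x)
    (h1 : ∀ x, 0 ≤ x → g x ≤ 1) (ha : ∀ x y, 0 ≤ x → x ≤ y → g y ≤ g x) {s s' : ℝ}
    (hs : 0 < s) (hss : s < s') (L : ℕ) :
    (1 + (s' - s) * g s' ^ 2 / s) ^ (L / 2) * mL g s L ≤ mL g s' L := by
  have hs' : 0 < s' := hs.trans hss
  unfold mL
  have h2 := intervalIntegral.integral_add_adjacent_intervals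
      ((kit_cont hg s' L).intervalIntegrable (μ := volume) 0 s)
      ((kit_cont hg s' L).intervalIntegrable s s')
  have h3 : 0 ≤ ∫ v in s..s', kit g s' L v := by
    refine intervalIntegral.integral_nonneg hss.le fun z hz => ?_
    exact kit_nonneg hs'.le (fun x h _ => (h0 x h).le) L (hs.le.trans hz.1) hz.2
  have h4 : (1 + (s' - s) * g s' ^ 2 / s) ^ (L / 2) * (∫ u in (0:ℝ)..s, kit g s L u)
      ≤ ∫ u in (0:ℝ)..s, kit g s' L u := by
    rw [← intervalIntegral.integral_const_mul]
    refine intervalIntegral.integral_mono_on hs.le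
      ((continuous_const.mul (kit_cont hg s L)).intervalIntegrable 0 s)
      ((kit_cont hg s' L).intervalIntegrable 0 s) fun v hv => ?_
    exact kit_growth hg h0 h1 ha hs hss L v hv.1 hv.2
  linarith

end H42.CD
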