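import Pool.Agent.H42.CD.ScBdd
import Pool.Agent.H42.CD.MLGrowth

/-!
# Module SUBSUP: exponential decay / growth below and above `sc κ`

`sub_decay`: there is `s' > s` in the set defining `sc κ`, with `k = K` and `mL (FF κ false K) s' L ≤ C` for all `L`.
By `mL_growth`, `mL (FF κ false K) s L ≤ C (1+η)^(-(L/2)) ≤ C' λ^L` with `λ = (1+η)^(-1/2)`,
`C' = C (1+η)^(1/2)`.

`sup_growth`: let `sc κ < s'' < s`. For every `k`, `mL (FF κ false k) s'' L` is not bounded above in `L`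
(`s''` is not in the set; `0 < s''` because `1 ≤ sc κ`). Let `δ = exp (-s)`; `FF κ b k s ≥ δ`. Let
`η₀ = (s - s'') δ^2 / s''` and let `g = FF κ false k`. By `mL_growth` and `FF_lower`
`mL g s L ≥ (1+η₀)^(L/2) mL g s'' L`. Choose `k` such that
`(1 - ε)^2 (1 + η₀) > 1` where `ε = s^(k+1)/(k+1)! / δ`; then `FF κ true k ≥ (1-ε) FF κ false k` on `[0, s]`
(`FF_diff`, `FF_lower`). Let `θ = (1-ε)^2 (1+η₀) > 1`. For `f = FF κ true k`:
`mL f s L ≥ (1-ε)^L mL g s L ≥ (1-ε)^L (1+η₀)^(L/2) mL g s'' L ≥ (1-ε) θ^(L/2) mL g s'' L`.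
Choose `L₀` with `δ * mL f s L₀ ≥ 2` (possible as `mL g s'' L` is unbounded). By `mL_super`
(`f s ≥ δ`): `mL f s (L₀ + M + 1) ≥ 2 mL f s M`. So with `p = L₀ + 1`, `mL f s (j p + r) ≥ 2^j mL f s r`
for `r < p`; take `ρ = 2^(1/p)` and `c = (1/2) min_{r<p} mL f s r > 0`.
-/

open MeasureTheory Set Filter
open scoped ENNReal Topology

namespace H42.CD

theorem FF_pos {κ : ℕ} (hκ : 2 ≤ κ) (b : Bool) (k : ℕ) {x : ℝ} (hx : 0 ≤ x) : 0 < FF κ b k x :=
  (Real.exp_pos _).trans_le (FF_lower hκ b k hx)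

theorem one_mem_sc {κ : ℕ} (hκ : 3 ≤ κ) :
    (1:ℝ) ∈ {s : ℝ | 0 < s ∧ ∃ k, BddAbove (Set.range fun L => mL (FF κ false k) s L)} := by
  refine ⟨one_pos, 0, 1, ?_⟩
  rintro _ ⟨L, rfl⟩
  have h := mL_le_pow (FF_cont κ false 0) (s := 1) zero_le_one
    (fun x hx _ => (FF_pos (by omega) false 0 hx).le) (fun x hx _ => FF_le_one κ false 0 hx) L
  simpa using h

theorem one_le_sc {κ : ℕ} (hκ : 3 ≤ κ) : 1 ≤ sc κ :=
  le_csSup (sc_bdd hκ) (one_mem_sc hκ)

theorem sub_decay {κ : ℕ} (hκ : 3 ≤ κ) {s : ℝ} (hs : 0 < s) (h : s < sc κ) :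
    ∃ (K : ℕ) (C r : ℝ), 0 ≤ r ∧ r < 1 ∧ ∀ L, mL (FF κ false K) s L ≤ C * r ^ L := by
  obtain ⟨s', ⟨hs', K, C, hC⟩, hss⟩ := exists_lt_of_lt_csSup ⟨1, one_mem_sc hκ⟩ h
  have hC' : ∀ L, mL (FF κ false K) s' L ≤ C := fun L => hC ⟨L, rfl⟩
  have hpos : ∀ x, 0 ≤ x → 0 < FF κ false K x := fun x hx => FF_pos (by omega) false K hx
  have hC0 : 0 ≤ C :=
    (mL_nonneg hs'.le (fun x hx _ => (hpos x hx).le) 0).trans (hC' 0)
  have hg := fun L => mL_growth (FF_cont κ false K) hpos (fun x hx => FF_le_one κ false K hx)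
    (fun x y hx hxy => FF_anti κ false K hx hxy) hs hss L
  obtain ⟨η, hη⟩ : ∃ η, η = (s' - s) * FF κ false K s' ^ 2 / s := ⟨_, rfl⟩
  have hη0 : 0 < η := by
    rw [hη]
    exact div_pos (mul_pos (sub_pos.2 hss) (pow_pos (hpos s' hs'.le) 2)) hs
  rw [← hη] at hg
  obtain ⟨ρ, hρ1, hρ2⟩ : ∃ ρ : ℝ, 1 < ρ ∧ ρ ^ 2 = 1 + η :=
    ⟨Real.sqrt (1 + η), by
      rw [Real.lt_sqrt (by norm_num)]; linarith, Real.sq_sqrt (by linarith)⟩
  have hρ0 : 0 < ρ := by linarith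
  refine ⟨K, C * ρ, ρ⁻¹, (inv_pos.2 hρ0).le, inv_lt_one_of_one_lt₀ hρ1, fun L => ?_⟩
  have h1 := (hg L).trans (hC' L)
  rw [← hρ2, ← pow_mul] at h1
  have h2 : ρ ^ L ≤ ρ ^ (2 * (L / 2)) * ρ := by
    rw [← pow_succ]
    exact pow_le_pow_right₀ hρ1.le (by omega)
  have hm := mL_nonneg (g := FF κ false K) hs.le (fun x hx _ => (hpos x hx).le) L
  rw [inv_pow, ← div_eq_mul_inv, le_div_iff₀ (pow_pos hρ0 L)]
  calc mL (FF κ false K) s L * ρ ^ L
      ≤ mL (FF κ false K) s L * (ρ ^ (2 * (L / 2)) * ρ) := mul_le_mul_of_nonneg_left h2 hm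
    _ = (ρ ^ (2 * (L / 2)) * mL (FF κ false K) s L) * ρ := by ring
    _ ≤ C * ρ := mul_le_mul_of_nonneg_right h1 hρ0.le

/-- doubling every `p` steps gives exponential growth -/
theorem geo_growth (a : ℕ → ℝ) (p : ℕ) (hp : 0 < p) (ha : ∀ L, 0 < a L)
    (h : ∀ M, 2 * a M ≤ a (M + p)) :
    ∃ c r : ℝ, 0 < c ∧ 1 < r ∧ ∀ L, c * r ^ L ≤ a L := by
  obtain ⟨r, hr1, hr2⟩ : ∃ r : ℝ, 1 < r ∧ r ^ p = 2 := by
    refine ⟨(2:ℝ) ^ ((1:ℝ) / p), ?_, ?_⟩
    · exact Real.one_lt_rpow (by norm_num) (by positivity)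
    · rw [← Real.rpow_natCast, ← Real.rpow_mul (by norm_num)]
      have : ((1:ℝ) / p) * p = 1 := by
        have : (p:ℝ) ≠ 0 := by positivity
        field_simp
      rw [this, Real.rpow_one]
  have hr0 : 0 < r := by linarith
  obtain ⟨c, hc, hc2⟩ : ∃ c : ℝ, 0 < c ∧ ∀ L < p, c * r ^ L ≤ a L := by
    obtain ⟨i, hi, hmin⟩ := Finset.exists_min_image (Finset.range p) (fun L => a L / r ^ L)
      ⟨0, Finset.mem_range.2 hp⟩
    refine ⟨a i / r ^ i, div_pos (ha i) (pow_pos hr0 i), fun L hL => ?_⟩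
    have := hmin L (Finset.mem_range.2 hL)
    rwa [le_div_iff₀ (pow_pos hr0 L)] at this
  refine ⟨c, r, hc, hr1, fun L => ?_⟩
  induction L using Nat.strong_induction_on with
  | _ L ih =>
    rcases lt_or_ge L p with hL | hL
    · exact hc2 L hL
    · have h1 := ih (L - p) (by omega)
      have h2 := h (L - p)
      rw [Nat.sub_add_cancel hL] at h2
      calc c * r ^ L = 2 * (c * r ^ (L - p)) := by
            have : r ^ L = r ^ (L - p) * r ^ p := by rw [← pow_add, Nat.sub_add_cancel hL]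
            rw [this, hr2]; ring
        _ ≤ 2 * a (L - p) := by linarith
        _ ≤ a L := h2

theorem sup_growth {κ : ℕ} (hκ : 3 ≤ κ) {s : ℝ} (h : sc κ < s) :
    ∃ (K : ℕ) (c r : ℝ), 0 < c ∧ 1 < r ∧ ∀ L, c * r ^ L ≤ mL (FF κ true K) s L := by
  have hsc := one_le_sc hκ
  obtain ⟨t, ht1, ht2⟩ := exists_between h
  have ht0 : 0 < t := by linarith
  have hs0 : 0 < s := by linarith
  obtain ⟨δ, hδ⟩ : ∃ δ, δ = Real.exp (-s) := ⟨_, rfl⟩
  have hδ0 : 0 < δ := by rw [hδ]; exact Real.exp_pos _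
  obtain ⟨η, hη⟩ : ∃ η, η = (s - t) * δ ^ 2 / t := ⟨_, rfl⟩
  have hη0 : 0 < η := by
    rw [hη]
    exact div_pos (mul_pos (sub_pos.2 ht2) (pow_pos hδ0 2)) ht0
  -- choice of `k`
  have hlim : Tendsto (fun k : ℕ => s ^ (k + 1) / ((k + 1).factorial : ℝ) / δ) atTop (𝓝 0) := by
    have h1 := (FloorSemiring.tendsto_pow_div_factorial_atTop s).comp (tendsto_add_atTop_nat 1)
    have h2 := h1.div_const δ
    simpa [Function.comp_def] using h2
  have hlim2 : Tendsto (fun k : ℕ => (1 - s ^ (k + 1) / ((k + 1).factorial : ℝ) / δ) ^ 2 * (1 + η))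
      atTop (𝓝 ((1 - 0) ^ 2 * (1 + η))) :=
    ((tendsto_const_nhds.sub hlim).pow 2).mul tendsto_const_nhds
  have hev1 := hlim2.eventually (lt_mem_nhds (show (1:ℝ) < (1 - 0) ^ 2 * (1 + η) by
    norm_num; exact hη0))
  have hev2 := hlim.eventually (gt_mem_nhds (show (0:ℝ) < 1 by norm_num))
  obtain ⟨k, hk1, hk2⟩ := (hev1.and hev2).exists
  obtain ⟨ε, hε⟩ : ∃ ε, ε = s ^ (k + 1) / ((k + 1).factorial : ℝ) / δ := ⟨_, rfl⟩
  rw [← hε] at hk1 hk2
  have hε0 : 0 ≤ ε := by rw [hε]; positivity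
  have hpos : ∀ b x, 0 ≤ x → 0 < FF κ b k x := fun b x hx => FF_pos (by omega) b k hx
  -- unboundedness at `t`
  have hunb : ∀ C : ℝ, ∃ L, C < mL (FF κ false k) t L := by
    intro C
    by_contra hcon
    push Not at hcon
    have hmem : t ∈ {s : ℝ | 0 < s ∧ ∃ k, BddAbove (Set.range fun L => mL (FF κ false k) s L)} := by
      refine ⟨ht0, k, C, ?_⟩
      rintro _ ⟨L, rfl⟩
      exact hcon L
    have := le_csSup (sc_bdd hκ) hmem
    change t ≤ sc κ at this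
    linarith
  have hge : ∀ b x, 0 ≤ x → x ≤ s → δ ≤ FF κ b k x := by
    intro b x hx hxs
    refine le_trans ?_ (FF_lower (by omega) b k hx)
    rw [hδ]
    exact Real.exp_le_exp.2 (by linarith)
  -- comparison of the kernels
  have hcmp : ∀ x, 0 ≤ x → x ≤ s → (1 - ε) * FF κ false k x ≤ FF κ true k x := by
    intro x hx hxs
    have h1 := FF_diff κ k hx
    have h2 : x ^ (k + 1) / ((k + 1).factorial : ℝ) ≤ s ^ (k + 1) / ((k + 1).factorial : ℝ) := by
      gcongr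
    have h3 : s ^ (k + 1) / ((k + 1).factorial : ℝ) = ε * δ := by
      rw [hε]; field_simp
    have h4 : ε * δ ≤ ε * FF κ false k x := mul_le_mul_of_nonneg_left (hge false x hx hxs) hε0
    nlinarith
  have hlow : ∀ L, (1 - ε) * mL (FF κ false k) t L ≤ mL (FF κ true k) s L := by
    intro L
    have h1 : mL (fun x => (1 - ε) * FF κ false k x) s L ≤ mL (FF κ true k) s L :=
      mL_mono (continuous_const.mul (FF_cont κ false k)) (FF_cont κ true k) hs0.le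
        (fun x hx _ => mul_nonneg (by linarith) (hpos false x hx).le) hcmp L
    rw [mL_smul] at h1
    have h2 := mL_growth (FF_cont κ false k) (hpos false) (fun x hx => FF_le_one κ false k hx)
      (fun x y hx hxy => FF_anti κ false k hx hxy) ht0 ht2 L
    have h3 : 1 + η ≤ 1 + (s - t) * FF κ false k s ^ 2 / t := by
      rw [hη]
      have : δ ^ 2 ≤ FF κ false k s ^ 2 :=
        pow_le_pow_left₀ hδ0.le (hge false s hs0.le le_rfl) 2
      have h4 : (s - t) * δ ^ 2 / t ≤ (s - t) * FF κ false k s ^ 2 / t :=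
        div_le_div_of_nonneg_right (mul_le_mul_of_nonneg_left this (by linarith)) ht0.le
      linarith
    have hm := mL_nonneg (g := FF κ false k) ht0.le (fun x hx _ => (hpos false x hx).le) L
    have h5 : (1 + η) ^ (L / 2) * mL (FF κ false k) t L ≤ mL (FF κ false k) s L := by
      refine le_trans ?_ h2
      exact mul_le_mul_of_nonneg_right (pow_le_pow_left₀ (by linarith) h3 _) hm
    have h6 : (1 - ε) ≤ (1 - ε) ^ L * (1 + η) ^ (L / 2) := by
      have h7 : (1 - ε) ^ (2 * (L / 2) + 1) ≤ (1 - ε) ^ L :=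
        pow_le_pow_of_le_one (by linarith) (by linarith) (by omega)
      have h8 : (1:ℝ) ≤ ((1 - ε) ^ 2 * (1 + η)) ^ (L / 2) := one_le_pow₀ hk1.le
      have h9 : 0 ≤ (1 + η) ^ (L / 2) := by positivity
      calc 1 - ε = 1 * (1 - ε) := by ring
        _ ≤ ((1 - ε) ^ 2 * (1 + η)) ^ (L / 2) * (1 - ε) :=
          mul_le_mul_of_nonneg_right h8 (by linarith)
        _ = (1 - ε) ^ (2 * (L / 2) + 1) * (1 + η) ^ (L / 2) := by
          rw [mul_pow, ← pow_mul]; ring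
        _ ≤ _ := mul_le_mul_of_nonneg_right h7 h9
    calc (1 - ε) * mL (FF κ false k) t L
        ≤ ((1 - ε) ^ L * (1 + η) ^ (L / 2)) * mL (FF κ false k) t L :=
          mul_le_mul_of_nonneg_right h6 hm
      _ = (1 - ε) ^ L * ((1 + η) ^ (L / 2) * mL (FF κ false k) t L) := by ring
      _ ≤ (1 - ε) ^ L * mL (FF κ false k) s L :=
          mul_le_mul_of_nonneg_left h5 (pow_nonneg (by linarith) _)
      _ ≤ _ := h1
  -- a good `L₀`
  obtain ⟨L₀, hL₀⟩ := hunb (2 / δ / (1 - ε))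
  have hε1 : 0 < 1 - ε := by linarith
  have h2 : 2 ≤ δ * mL (FF κ true k) s L₀ := by
    have h3 := hlow L₀
    have h4 : 2 / δ < (1 - ε) * mL (FF κ false k) t L₀ := by
      rwa [div_lt_iff₀ hε1, mul_comm] at hL₀
    have h5 : 2 / δ ≤ mL (FF κ true k) s L₀ := by linarith
    rwa [div_le_iff₀ hδ0, mul_comm] at h5
  obtain ⟨c, r, hc, hr, hcr⟩ := geo_growth (fun L => mL (FF κ true k) s L) (L₀ + 1)
    (Nat.succ_pos _) (fun L => mL_pos (FF_cont κ true k) hs0 (fun x hx _ => hpos true x hx) L)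
    (fun M => by
      have h6 := mL_super (FF_cont κ true k) hs0 (fun x hx _ => hpos true x hx)
        (fun x y hx hxy => FF_anti κ true k hx hxy) L₀ M
      have h7 : mL (FF κ true k) s (M + (L₀ + 1)) = mL (FF κ true k) s (L₀ + M + 1) := by
        congr 1; ring
      have hM := mL_nonneg (g := FF κ true k) hs0.le (fun x hx _ => (hpos true x hx).le) M
      have hL := mL_nonneg (g := FF κ true k) hs0.le (fun x hx _ => (hpos true x hx).le) L₀
      change 2 * mL (FF κ true k) s M ≤ mL (FF κ true k) s (M + (L₀ + 1))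
      rw [h7]
      refine le_trans ?_ h6
      refine mul_le_mul_of_nonneg_right (h2.trans ?_) hM
      exact mul_le_mul_of_nonneg_right (hge true s hs0.le le_rfl) hL)
  exact ⟨k, c, r, hc, hr, hcr⟩

end H42.CD
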