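import Pool.Agent.H42.CD.BlockUp
import Pool.Agent.H42.CD.SubSup
import Pool.Agent.H42.CD.Count

/-!
# Module ARMPROB: long paths are very unlikely below `sc κ`

`sub_decay` gives `K, C, r`. Let `g = 4K + 20`, `n' = L + 1 + 2g`. Choose `L` with
`s^(2g) C r^L ≤ 1/400`... Let `φ = min 1 (1 / (100 s^n'))`. If `φ = 1` the hypothesis `hφ` of `arm_word` is
`prob_le` (times of the distinct edges of the block; the coordinates are distinct so the edges are distinct,
or use monotonicity and `path_inj`). If `φ = 1/(100 s^n') < 1`: `(1/s)^(L+1) mL (FF κ false K) s L < φ` because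
`s^(2g) mL ≤ 1/400 < 1/100`, and `block_up` applies. In both cases `s^n' φ ≤ 1/100`.
`ArmEv ⊆ ⋃_w ArmW` over self-avoiding words; `ArmW` and `pos` only depend on the first `N n'` letters (for
`BadBlock` only positions with index `≤ N n'` are used), so it is a finite union over
`w : Fin (N n') → Dir d` (extended by `extw`) with `pos x (extw w)` injective on `{i ≤ N n'}`. By `arm_word` and
`count_words` the probability is at most `t^(N n') (2d)^(N n') (2φ)^N = (s^n' 2 φ)^N ≤ (1/50)^N`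
(`2 d t = s`).
-/

open MeasureTheory Set Filter
open scoped ENNReal Topology

namespace H42.CD

theorem armP_cover {d : ℕ} (κ K g L N : ℕ) (t : ℝ) (x : V d) (l0 : Dir d) :
    ArmEv κ K g L N t x ⊆ ⋃ u : Fin (N * (L + 1 + 2 * g)) → Dir d,
      ({_U : Edge d → ℝ | Set.InjOn (pos x (extw l0 u)) {i | i ≤ N * (L + 1 + 2 * g)}} ∩
        ArmW κ K g L N t x (extw l0 u)) := by
  rintro U ⟨w, hw1, hw2⟩
  rw [Set.mem_iUnion]
  have hE : ∀ i < N * (L + 1 + 2 * g), w i =
      extw l0 (fun i : Fin (N * (L + 1 + 2 * g)) => w i.val) i := by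
    intro i hi
    unfold extw
    rw [dif_pos hi]
  refine ⟨fun i => w i.val, ?_, measH_armW hE hw2⟩
  intro a ha b hb hab
  rw [← measH_pos x (w := w) (fun i hi => hE i (lt_of_lt_of_le hi ha)),
    ← measH_pos x (w := w) (fun i hi => hE i (lt_of_lt_of_le hi hb))] at hab
  exact hw1 ha hb hab

theorem armP_block_le {d κ K g L : ℕ} {t : ℝ} (h0 : 0 ≤ t) (h1 : t ≤ 1) (x : V d)
    (w : ℕ → Dir d) (hw : ∀ i j, i < j → j < L + 1 + 2 * g → (w i).1 ≠ (w j).1) :
    lawU d {U | BlockOK κ K g L t U x w} ≤ ENNReal.ofReal (t ^ (L + 1 + 2 * g)) := by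
  classical
  have hsnd : ∀ (y : V d) (i : Dir d), (ed y i).2 = i.1 := by
    intro y i; unfold ed; split_ifs <;> rfl
  have hinj : Set.InjOn (pe x w) (Finset.range (L + 1 + 2 * g) : Set ℕ) := by
    intro a ha b hb hab
    have ha' : a < L + 1 + 2 * g := by simpa using ha
    have hb' : b < L + 1 + 2 * g := by simpa using hb
    have h2 := congrArg Prod.snd hab
    unfold pe at h2
    rw [hsnd, hsnd] at h2
    rcases lt_trichotomy a b with h3 | h3 | h3
    · exact absurd h2 (hw a b h3 hb')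
    · exact h3
    · exact absurd h2.symm (hw b a h3 ha')
  have hcard : ((Finset.range (L + 1 + 2 * g)).image (pe x w)).card = L + 1 + 2 * g := by
    rw [Finset.card_image_of_injOn hinj, Finset.card_range]
  refine le_trans (measure_mono (t := {U : Edge d → ℝ |
    ∀ e ∈ (Finset.range (L + 1 + 2 * g)).image (pe x w), U e ≤ t}) ?_) ?_
  swap
  · rw [prob_le _ h0 h1, hcard]
  rintro U ⟨hU, -⟩
  intro e he
  obtain ⟨j, hj, rfl⟩ := Finset.mem_image.1 he
  exact hU j (Finset.mem_range.1 hj)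

theorem arm_prob {κ : ℕ} (hκ : 3 ≤ κ) {s : ℝ} (hs : 0 < s) (h : s < sc κ) :
    ∃ K g L : ℕ, 1 ≤ g ∧ ∃ d0 : ℕ, ∀ d, d0 ≤ d → ∀ N : ℕ, N * (L + 1 + 2 * g) ≤ d ^ 2 →
      ∀ x : V d, lawU d (ArmEv κ K g L N (s / (2 * d)) x) ≤ ENNReal.ofReal ((1 / 50) ^ N) := by
  obtain ⟨K, C, r, hr0, hr1, hC⟩ := sub_decay hκ hs h
  obtain ⟨g, hg⟩ : ∃ g, g = 4 * K + 20 := ⟨_, rfl⟩
  -- choice of `L`
  have hlim : Tendsto (fun L : ℕ => s ^ (2 * g) * (C * r ^ L)) atTop (𝓝 (s ^ (2 * g) * (C * 0))) :=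
    ((tendsto_pow_atTop_nhds_zero_of_lt_one hr0 hr1).const_mul C).const_mul _
  rw [mul_zero, mul_zero] at hlim
  obtain ⟨L, hL⟩ := (hlim.eventually (gt_mem_nhds (show (0:ℝ) < 1 / 100 by norm_num))).exists
  have hm : s ^ (2 * g) * mL (FF κ false K) s L < 1 / 100 :=
    lt_of_le_of_lt (mul_le_mul_of_nonneg_left (hC L) (by positivity)) hL
  obtain ⟨n, hn⟩ : ∃ n, n = L + 1 + 2 * g := ⟨_, rfl⟩
  obtain ⟨φ, hφ⟩ : ∃ φ : ℝ, φ = min 1 (1 / (100 * s ^ n)) := ⟨_, rfl⟩
  have hsn : 0 < s ^ n := pow_pos hs n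
  have hφ0 : 0 < φ := by
    rw [hφ]; exact lt_min one_pos (by positivity)
  have hφ1 : φ ≤ 1 := by rw [hφ]; exact min_le_left _ _
  have hφ2 : s ^ n * (2 * φ) ≤ 1 / 50 := by
    have h1 : φ ≤ 1 / (100 * s ^ n) := by rw [hφ]; exact min_le_right _ _
    calc s ^ n * (2 * φ) ≤ s ^ n * (2 * (1 / (100 * s ^ n))) := by gcongr
      _ = 1 / 50 := by field_simp; norm_num
  -- the probability of a block
  have hblock : ∃ d0 : ℕ, ∀ d, d0 ≤ d → ∀ (x : V d) (w : ℕ → Dir d),
      (∀ i j, i < j → j < L + 1 + 2 * g → (w i).1 ≠ (w j).1) →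
      lawU d {U | BlockOK κ K g L (s / (2 * d)) U x w}
        ≤ ENNReal.ofReal (φ * (s / (2 * d)) ^ (L + 1 + 2 * g)) := by
    rcases le_total 1 (1 / (100 * s ^ n)) with hc | hc
    · have hφ' : φ = 1 := by rw [hφ, min_eq_left hc]
      obtain ⟨d0, hd0⟩ := exists_nat_ge s
      refine ⟨d0 + 1, fun d hd x w hw => ?_⟩
      have hd' : s ≤ d := hd0.trans (by exact_mod_cast (by omega : d0 ≤ d))
      have hdp : 0 < (d:ℝ) := lt_of_lt_of_le hs hd'
      rw [hφ', one_mul]
      refine armP_block_le (by positivity) ?_ x w hw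
      rw [div_le_one (by positivity)]
      linarith
    · have hφ' : φ = 1 / (100 * s ^ n) := by rw [hφ, min_eq_right hc]
      refine block_up (by omega) (by omega) hs ?_
      rw [hφ']
      have h1 : (1 / s) ^ (L + 1) * mL (FF κ false K) s L =
          (s ^ (2 * g) * mL (FF κ false K) s L) / s ^ n := by
        rw [hn, pow_add s (L + 1) (2 * g), one_div, inv_pow]
        have : s ^ (L + 1) ≠ 0 := (pow_pos hs _).ne'
        have : s ^ (2 * g) ≠ 0 := (pow_pos hs _).ne'
        field_simp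
      have h2 : 1 / (100 * s ^ n) = (1 / 100) / s ^ n := by
        field_simp
      rw [h1, h2]
      exact div_lt_div_of_pos_right hm hsn
  obtain ⟨d1, hd1⟩ := hblock
  obtain ⟨d2, hd2⟩ := count_words (K := K) (g := g) (L := L) (by omega) hφ0 hφ1
  obtain ⟨d3, hd3⟩ := exists_nat_ge s
  refine ⟨K, g, L, by omega, d1 + d2 + d3 + 1, fun d hd N hN x => ?_⟩
  have hd' : s ≤ d := hd3.trans (by exact_mod_cast (by omega : d3 ≤ d))
  have hdp : 0 < (d:ℝ) := lt_of_lt_of_le hs hd'
  have ht0 : 0 ≤ s / (2 * d) := by positivity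
  have ht1 : s / (2 * d) ≤ 1 := by
    rw [div_le_one (by positivity)]
    linarith
  have l0 : Dir d := (⟨0, by omega⟩, true)
  have hword := fun w => arm_word (d := d) (κ := κ) (K := K) (g := g) (L := L) (N := N)
    (by omega) ht0 ht1 hφ0.le (hd1 d (by omega)) x w
  calc lawU d (ArmEv κ K g L N (s / (2 * d)) x)
      ≤ lawU d (⋃ u : Fin (N * (L + 1 + 2 * g)) → Dir d,
          ({_U : Edge d → ℝ | Set.InjOn (pos x (extw l0 u)) {i | i ≤ N * (L + 1 + 2 * g)}} ∩
          ArmW κ K g L N (s / (2 * d)) x (extw l0 u))) := measure_mono (armP_cover _ _ _ _ _ _ _ _)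
    _ ≤ ∑ u : Fin (N * (L + 1 + 2 * g)) → Dir d, lawU d
          ({_U : Edge d → ℝ | Set.InjOn (pos x (extw l0 u)) {i | i ≤ N * (L + 1 + 2 * g)}} ∩
          ArmW κ K g L N (s / (2 * d)) x (extw l0 u)) := by
        refine (measure_iUnion_le _).trans ?_
        rw [tsum_fintype]
    _ ≤ ∑ u : Fin (N * (L + 1 + 2 * g)) → Dir d, ENNReal.ofReal
          ((s / (2 * d)) ^ (N * (L + 1 + 2 * g)) * φ ^ gd K g L N (extw l0 u)) := by
        refine Finset.sum_le_sum fun u _ => ?_
        by_cases hinj : Set.InjOn (pos x (extw l0 u)) {i | i ≤ N * (L + 1 + 2 * g)}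
        · exact (measure_mono Set.inter_subset_right).trans (hword _ hinj)
        · have h1 : {_U : Edge d → ℝ | Set.InjOn (pos x (extw l0 u))
              {i | i ≤ N * (L + 1 + 2 * g)}} ∩ ArmW κ K g L N (s / (2 * d)) x (extw l0 u) = ∅ := by
            ext U
            simp only [Set.mem_inter_iff, Set.mem_setOf_eq, Set.mem_empty_iff_false, iff_false]
            exact fun h => hinj h.1
          rw [h1, measure_empty]
          exact bot_le
    _ = ENNReal.ofReal ((s / (2 * d)) ^ (N * (L + 1 + 2 * g)) *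
          ∑ u : Fin (N * (L + 1 + 2 * g)) → Dir d, φ ^ gd K g L N (extw l0 u)) := by
        rw [Finset.mul_sum, ENNReal.ofReal_sum_of_nonneg]
        intro u _
        positivity
    _ ≤ ENNReal.ofReal ((1 / 50) ^ N) := by
        refine ENNReal.ofReal_le_ofReal ?_
        calc (s / (2 * d)) ^ (N * (L + 1 + 2 * g)) *
              ∑ u : Fin (N * (L + 1 + 2 * g)) → Dir d, φ ^ gd K g L N (extw l0 u)
            ≤ (s / (2 * d)) ^ (N * (L + 1 + 2 * g)) *
              ((2 * d : ℝ) ^ (N * (L + 1 + 2 * g)) * (2 * φ) ^ N) :=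
              mul_le_mul_of_nonneg_left (hd2 d (by omega) N hN l0) (by positivity)
          _ = (s ^ n * (2 * φ)) ^ N := by
              rw [← mul_assoc, ← mul_pow, div_mul_cancel₀ _ (by positivity), ← hn, mul_comm N n,
                pow_mul, ← mul_pow]
          _ ≤ (1 / 50) ^ N := pow_le_pow_left₀ (by positivity) hφ2 N

end H42.CD
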