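import Pool.Agent.H42.CD.Defs2

/-!
# Module MEAS: measurability

* `meas_avail`, `meas_rcnt`: induction on `k`. `rcnt` is the sum over `i` of the indicators of
  `{p | p.1 [i] < p.2 ∧ avail κ b k (sub p.1 i) (p.1 [i])}`, each measurable by the induction
  hypothesis composed with the measurable map `p ↦ (sub p.1 i, p.1 [i])`.
* `meas_pull`: coordinatewise (`measurable_pi_iff`), by induction on the word.
* `meas_side`: the same counting argument, with `meas_avail` composed with `meas_pull`.
* `meas_blockOK`, `meas_armW`, `meas_blkEv`: countable intersections.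
* `meas_armEv`: the event depends only on the letters with index `≤ N * (L + 1 + 2 * g)`, so it is a
  finite union over words `Fin (N * (L+1+2g) + 1) → Dir d` (extended by their last letter) of
  measurable sets. If `d = 0` there is no word.
-/

open MeasureTheory Set Filter
open scoped ENNReal Topology

namespace H42.CD

theorem measH_card {X D : Type} [MeasurableSpace X] [Fintype D] (P : X → D → Prop)
    {inst : ∀ x, DecidablePred (P x)} (h : ∀ i, MeasurableSet {x | P x i}) :
    Measurable fun x => (@Finset.filter D (P x) (inst x) Finset.univ).card := by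
  have h1 : (fun x => (@Finset.filter D (P x) (inst x) Finset.univ).card) =
      fun x => ∑ i : D, if P x i then 1 else 0 := by
    funext x
    rw [Finset.card_filter]
  rw [h1]
  refine Finset.measurable_fun_sum _ fun i _ => ?_
  exact Measurable.ite (h i) measurable_const measurable_const

theorem measH_arg {D : Type} (i : D) :
    Measurable fun p : TC D × ℝ => ((sub p.1 i, p.1 [i]) : TC D × ℝ) := by
  refine Measurable.prodMk ?_ ?_
  · exact measurable_pi_iff.2 fun w => (measurable_pi_apply (i :: w)).comp measurable_fst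
  · exact (measurable_pi_apply [i]).comp measurable_fst

theorem meas_avail {D : Type} [Fintype D] (κ : ℕ) (b : Bool) (k : ℕ) :
    MeasurableSet {p : TC D × ℝ | avail κ b k p.1 p.2} := by
  induction k generalizing b with
  | zero =>
    have : {p : TC D × ℝ | avail κ b 0 p.1 p.2} = {_p : TC D × ℝ | b = true} := by
      ext p
      simp [avail]
    rw [this]
    exact MeasurableSet.const _
  | succ k ih =>
    simp only [avail]
    refine measurableSet_lt (measH_card (fun (p : TC D × ℝ) (i : D) =>
      p.1 [i] < p.2 ∧ avail κ (!b) k (sub p.1 i) (p.1 [i])) fun i => ?_) measurable_const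
    exact (measurableSet_lt ((measurable_pi_apply [i]).comp measurable_fst)
      measurable_snd).inter ((measH_arg i) (ih (!b)))

theorem meas_rcnt {D : Type} [Fintype D] (κ : ℕ) (b : Bool) (k : ℕ) :
    Measurable fun p : TC D × ℝ => rcnt κ b k p.1 p.2 := by
  unfold rcnt
  refine measH_card (fun (p : TC D × ℝ) (i : D) =>
    p.1 [i] < p.2 ∧ avail κ b k (sub p.1 i) (p.1 [i])) fun i => ?_
  exact (measurableSet_lt ((measurable_pi_apply [i]).comp measurable_fst)
    measurable_snd).inter ((measH_arg i) (meas_avail κ b k))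

theorem meas_pull {d : ℕ} (x : V d) (G : Finset (Dir d)) :
    Measurable fun U : Edge d → ℝ => pull U x G := by
  refine measurable_pi_iff.2 fun w => ?_
  induction w generalizing x G with
  | nil =>
    simp only [pull]
    exact measurable_const
  | cons i w ih =>
    cases w with
    | nil =>
      simp only [pull]
      by_cases h : i ∈ G
      · simp only [if_pos h]
        exact measurable_const
      · simp only [if_neg h]
        exact measurable_pi_apply _
    | cons j w =>
      simp only [pull]
      exact ih (x + stp i) {rev i}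

theorem meas_side {d : ℕ} (κ : ℕ) (b : Bool) (K : ℕ) (x : V d) (g h : Dir d)
    {f : (Edge d → ℝ) → ℝ} (hf : Measurable f) :
    Measurable fun U : Edge d → ℝ => side κ b K U x g h (f U) := by
  unfold side
  refine measH_card (fun (U : Edge d → ℝ) (l : Dir d) => l ≠ g ∧ l ≠ h ∧ U (ed x l) < f U ∧
    avail κ b K (pull U (x + stp l) {rev l}) (U (ed x l))) fun l => ?_
  have h1 : Measurable fun U : Edge d → ℝ =>
      ((pull U (x + stp l) {rev l}, U (ed x l)) : TC (Dir d) × ℝ) :=
    (meas_pull _ _).prodMk (measurable_pi_apply _)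
  exact (MeasurableSet.const _).inter ((MeasurableSet.const _).inter
    ((measurableSet_lt (measurable_pi_apply _) hf).inter (h1 (meas_avail κ b K))))

theorem measH_le {d : ℕ} (e : Edge d) (t : ℝ) :
    Measurable fun U : Edge d → ℝ => U e ≤ t :=
  measurableSet_setOfPred.1 (measurableSet_le (measurable_pi_apply e) measurable_const)

theorem measH_side {d : ℕ} (κ : ℕ) (b : Bool) (K : ℕ) (x : V d) (g h : Dir d) (e e' : Edge d) :
    Measurable fun U : Edge d → ℝ => side κ b K U x g h (max (U e) (U e')) + 1 < κ := by
  refine measurableSet_setOfPred.1 ?_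
  have h1 : Measurable fun U : Edge d → ℝ => side κ b K U x g h (max (U e) (U e')) :=
    meas_side κ b K x g h ((measurable_pi_apply e).max (measurable_pi_apply e'))
  have h2 : {U : Edge d → ℝ | side κ b K U x g h (max (U e) (U e')) + 1 < κ} =
      (fun U : Edge d → ℝ => side κ b K U x g h (max (U e) (U e'))) ⁻¹' {n | n + 1 < κ} := rfl
  rw [h2]
  exact h1 (MeasurableSet.of_discrete)

theorem meas_blockOK {d : ℕ} (κ K g L : ℕ) (t : ℝ) (x : V d) (w : ℕ → Dir d) :
    MeasurableSet {U : Edge d → ℝ | BlockOK κ K g L t U x w} := by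
  refine measurableSet_setOfPred.2 ?_
  unfold BlockOK
  refine Measurable.and ?_ ?_
  · exact Measurable.forall fun j => measurable_const.imp (measH_le _ _)
  · exact Measurable.forall fun c => measurable_const.imp (measurable_const.imp
      (measH_side κ false K _ _ _ _ _))

theorem meas_armW {d : ℕ} (κ K g L N : ℕ) (t : ℝ) (x : V d) (w : ℕ → Dir d) :
    MeasurableSet (ArmW κ K g L N t x w) := by
  unfold ArmW
  refine measurableSet_setOfPred.2 ?_
  refine Measurable.forall fun b => measurable_const.imp (Measurable.and ?_ ?_)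
  · exact Measurable.forall fun j => measurable_const.imp (measH_le _ _)
  · exact measurable_const.imp (measurableSet_setOfPred.1 (meas_blockOK κ K g L t _ _))

theorem measH_pos {d : ℕ} (x : V d) {w w' : ℕ → Dir d} {n : ℕ} (h : ∀ i < n, w i = w' i) :
    pos x w n = pos x w' n := by
  unfold pos
  congr 1
  refine Finset.sum_congr rfl fun j hj => ?_
  rw [h j (Finset.mem_range.1 hj)]

theorem measH_pe {d : ℕ} (x : V d) {w w' : ℕ → Dir d} {n : ℕ} (h : ∀ i ≤ n, w i = w' i) :
    pe x w n = pe x w' n := by
  unfold pe
  rw [measH_pos x (fun i hi => h i hi.le), h n le_rfl]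

theorem measH_blockOK {d : ℕ} {κ K g L : ℕ} {t : ℝ} {U : Edge d → ℝ} {x : V d}
    {w w' : ℕ → Dir d} (h : ∀ i < L + 1 + 2 * g, w i = w' i) (hb : BlockOK κ K g L t U x w) :
    BlockOK κ K g L t U x w' := by
  obtain ⟨h1, h2⟩ := hb
  refine ⟨fun j hj => ?_, fun c hc hc' => ?_⟩
  · rw [← measH_pe x (w := w) (fun i hi => h i (by omega))]
    exact h1 j hj
  · have h3 := h2 c hc hc'
    rw [measH_pos x (w := w) (w' := w') (fun i hi => h i (by omega)),
      measH_pe x (w := w) (w' := w') (n := c) (fun i hi => h i (by omega)),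
      measH_pe x (w := w) (w' := w') (n := c - 1) (fun i hi => h i (by omega)),
      h c (by omega), h (c - 1) (by omega)] at h3
    exact h3

theorem measH_bad {d : ℕ} {K g L N b : ℕ} {w w' : ℕ → Dir d} (hb : b < N)
    (h : ∀ i < N * (L + 1 + 2 * g), w i = w' i) (hbad : BadBlock K g L N w b) :
    BadBlock K g L N w' b := by
  obtain ⟨c, m, h1, h2, h3, h4, h5⟩ := hbad
  have h6 : (b + 1) * (L + 1 + 2 * g) ≤ N * (L + 1 + 2 * g) := Nat.mul_le_mul_right _ hb
  have h7 : (b + 1) * (L + 1 + 2 * g) = b * (L + 1 + 2 * g) + (L + 1 + 2 * g) := by ring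
  refine ⟨c, m, h1, h2, h3, h4, ?_⟩
  rw [← measH_pos 0 (w := w) (n := b * (L + 1 + 2 * g) + c) (fun i hi => h i (by omega)),
    ← measH_pos 0 (w := w) (n := m) (fun i hi => h i (by omega))]
  exact h5

theorem measH_armW {d : ℕ} {κ K g L N : ℕ} {t : ℝ} {U : Edge d → ℝ} {x : V d}
    {w w' : ℕ → Dir d} (h : ∀ i < N * (L + 1 + 2 * g), w i = w' i)
    (hU : U ∈ ArmW κ K g L N t x w) : U ∈ ArmW κ K g L N t x w' := by
  intro b hb
  have h6 : (b + 1) * (L + 1 + 2 * g) ≤ N * (L + 1 + 2 * g) := Nat.mul_le_mul_right _ hb
  have h7 : (b + 1) * (L + 1 + 2 * g) = b * (L + 1 + 2 * g) + (L + 1 + 2 * g) := by ring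
  obtain ⟨h1, h2⟩ := hU b hb
  refine ⟨fun j hj => ?_, fun hbad => ?_⟩
  · rw [← measH_pe x (w := w) (fun i hi => h i (by omega))]
    exact h1 j hj
  · have h3 := h2 (fun h4 => hbad (measH_bad hb h h4))
    rw [measH_pos x (w := w) (w' := w') (fun i hi => h i (by omega))] at h3
    exact measH_blockOK (fun i hi => h _ (by omega)) h3

open Classical in
/-- extension of a finite word -/
noncomputable def measE {d : ℕ} (i0 : Dir d) (M : ℕ) (u : Fin M → Dir d) : ℕ → Dir d :=
  fun i => if h : i < M then u ⟨i, h⟩ else i0

theorem meas_armEv {d : ℕ} (κ K g L N : ℕ) (t : ℝ) (x : V d) :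
    MeasurableSet (ArmEv κ K g L N t x) := by
  by_cases hne : Nonempty (Dir d)
  · obtain ⟨i0⟩ := hne
    have h1 : ArmEv κ K g L N t x = ⋃ u : Fin (N * (L + 1 + 2 * g)) → Dir d,
        ({_U : Edge d → ℝ | Set.InjOn (pos x (measE i0 _ u)) {i | i ≤ N * (L + 1 + 2 * g)}} ∩
          ArmW κ K g L N t x (measE i0 _ u)) := by
      ext U
      rw [Set.mem_iUnion]
      constructor
      · rintro ⟨w, hw1, hw2⟩
        have hE : ∀ i < N * (L + 1 + 2 * g), w i =
            measE i0 (N * (L + 1 + 2 * g)) (fun i => w i.val) i := by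
          intro i hi
          unfold measE
          rw [dif_pos hi]
        refine ⟨fun i => w i.val, ?_, measH_armW hE hw2⟩
        intro a ha b hb hab
        rw [← measH_pos x (w := w) (fun i hi => hE i (lt_of_lt_of_le hi ha)),
          ← measH_pos x (w := w) (fun i hi => hE i (lt_of_lt_of_le hi hb))] at hab
        exact hw1 ha hb hab
      · rintro ⟨u, hu1, hu2⟩
        exact ⟨_, hu1, hu2⟩
    rw [h1]
    exact MeasurableSet.iUnion fun u => (MeasurableSet.const _).inter (meas_armW κ K g L N t x _)
  · have h1 : ArmEv κ K g L N t x = ∅ := by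
      ext U
      simp only [Set.mem_empty_iff_false, iff_false]
      rintro ⟨w, -⟩
      exact hne ⟨w 0⟩
    rw [h1]
    exact MeasurableSet.empty

theorem meas_blkEv {d : ℕ} (κ K h T : ℕ) (t : ℝ) (y : V d) (p : Dir d)
    (v : Fin (2 * h + T) → Dir d) : MeasurableSet (BlkEv κ K h T t y p v) := by
  unfold BlkEv
  refine measurableSet_setOfPred.2 ?_
  refine Measurable.and ?_ (Measurable.and ?_ ?_)
  · exact Measurable.forall fun i => measH_le _ _
  · exact Measurable.forall fun i => measurable_const.imp (measH_side κ true K _ _ _ _ _)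
  · exact Measurable.forall fun i => measurable_const.imp (Measurable.forall fun l =>
      measurable_const.imp (measurable_const.imp
        (measurableSet_setOfPred.1 (measurableSet_lt measurable_const (measurable_pi_apply _)))))

end H42.CD
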