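import Pool.Agent.H42.CD.Defs2

/-!
# Module SUPP: on which edges the local events depend

* `dep_side`: `side κ b K U x g h m` inspects the edges `ed x l`, and in `pull U (x + stp l) {rev l}`
  words of length `≤ K`, i.e. edges `ed z i` with `dist1 z x ≤ K`; the base point of `ed z i` is
  within 1 of `z` (`ed_base`). Lemma by induction on `k`: if `U = U'` on `Near (k + 1) y` then
  `pull U y G` and `pull U' y G` agree on words of length `≤ k`, and
  `avail κ b k W v ↔ avail κ b k W' v` if `W = W'` on nonempty words of length `≤ k`.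
* `dep_blockOK`, `dep_blkEv`: from `dep_side`. (In `BlkEv` a core vertex has index `i ≥ 1`, and the edge
  through which it is entered is `ed (y + bpos v i) (rev (inl p v i))`, whose base point is within 1.)
* `dep_armEv`: vertices of the path are within distance `N * (L + 1 + 2 * g)` of `x`
  (`dist1_pos_le`).
-/

open MeasureTheory Set Filter
open scoped ENNReal Topology

namespace H42.CD

theorem supp_near_mono {d : ℕ} {r r' : ℕ} {x x' : V d} (h : dist1 x x' + r ≤ r') {e : Edge d}
    (he : e ∈ Near r x) : e ∈ Near r' x' := by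
  have h1 : dist1 e.1 x ≤ r := he
  have h2 := dist1_tri e.1 x x'
  change dist1 e.1 x' ≤ r'
  omega

theorem supp_ed_near {d : ℕ} {r : ℕ} (hr : 1 ≤ r) (x : V d) (i : Dir d) : ed x i ∈ Near r x :=
  le_trans (ed_base x i) hr

theorem supp_pull {d : ℕ} {U U' : Edge d → ℝ} (k : ℕ) (y : V d) (G : Finset (Dir d))
    (hU : ∀ e ∈ Near k y, U e = U' e) (w : List (Dir d)) (hw : w.length ≤ k) :
    pull U y G w = pull U' y G w := by
  induction k generalizing y G w with
  | zero =>
    have hw0 : w = [] := List.length_eq_zero_iff.1 (Nat.le_zero.1 hw)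
    subst hw0
    simp [pull]
  | succ k ih =>
    match w, hw with
    | [], _ => simp [pull]
    | [i], _ =>
      rw [pull_single, pull_single, hU _ (supp_ed_near (by omega) y i)]
    | i :: j :: w, hw =>
      have h1 : pull U (y + stp i) {rev i} (j :: w) = pull U' (y + stp i) {rev i} (j :: w) := by
        refine ih (y + stp i) {rev i} (fun e he => hU e (supp_near_mono ?_ he)) (j :: w) ?_
        · rw [dist1_stp]
          omega
        · simp only [List.length_cons] at hw ⊢
          omega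
      simpa only [pull] using h1

theorem supp_avail {D : Type} [Fintype D] {κ : ℕ} (k : ℕ) (b : Bool) (W W' : TC D) (v : ℝ)
    (h : ∀ w : List D, w ≠ [] → w.length ≤ k → W w = W' w) :
    avail κ b k W v ↔ avail κ b k W' v := by
  classical
  induction k generalizing b W W' v with
  | zero => simp [avail]
  | succ k ih =>
    have h1 : ∀ i : D, W [i] = W' [i] := fun i => h [i] (by simp) (by simp)
    have h2 : ∀ i : D, avail κ (!b) k (sub W i) (W [i]) ↔ avail κ (!b) k (sub W' i) (W' [i]) := by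
      intro i
      rw [h1 i]
      exact ih (!b) (sub W i) (sub W' i) (W' [i]) fun w hw hw' =>
        h (i :: w) (by simp) (by simp only [List.length_cons]; omega)
    unfold avail
    have h3 : (Finset.univ.filter fun i : D => W [i] < v ∧ avail κ (!b) k (sub W i) (W [i])) =
        (Finset.univ.filter fun i : D => W' [i] < v ∧ avail κ (!b) k (sub W' i) (W' [i])) := by
      refine Finset.filter_congr fun i _ => ?_
      rw [h2 i, h1 i]
    have h4 := congrArg (fun s => Finset.card s < κ) h3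
    simp only [eq_iff_iff] at h4
    convert h4

theorem dep_side {d : ℕ} {κ K : ℕ} {b : Bool} {x : V d} {g h : Dir d} {m : ℝ}
    {U U' : Edge d → ℝ} (hU : ∀ e ∈ Near (K + 2) x, U e = U' e) :
    side κ b K U x g h m = side κ b K U' x g h m := by
  classical
  unfold side
  congr 1
  refine Finset.filter_congr fun l _ => ?_
  have h1 : U (ed x l) = U' (ed x l) := hU _ (supp_ed_near (by omega) x l)
  have h2 : avail κ b K (pull U (x + stp l) {rev l}) (U (ed x l)) ↔
      avail κ b K (pull U' (x + stp l) {rev l}) (U' (ed x l)) := by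
    rw [h1]
    refine supp_avail K b _ _ _ fun w _ hw => supp_pull K _ _ (fun e he => hU e ?_) w hw
    refine supp_near_mono ?_ he
    rw [dist1_stp]
    omega
  rw [h1] at h2 ⊢
  rw [h2]

theorem dep_blockOK {d : ℕ} (κ K g L : ℕ) (t : ℝ) (x : V d) (w : ℕ → Dir d) :
    Dep {U : Edge d → ℝ | BlockOK κ K g L t U x w}
      {e | (∃ j, j < L + 1 + 2 * g ∧ e = pe x w j) ∨
        ∃ c, g < c ∧ c ≤ g + L ∧ e ∈ Near (K + 2) (pos x w c)} := by
  intro U U' hUU hU
  obtain ⟨h1, h2⟩ := hU
  refine ⟨fun j hj => ?_, fun c hc hc' => ?_⟩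
  · rw [← hUU _ (Or.inl ⟨j, hj, rfl⟩)]
    exact h1 j hj
  · have h3 := h2 c hc hc'
    rw [← hUU (pe x w (c - 1)) (Or.inl ⟨c - 1, by omega, rfl⟩),
      ← hUU (pe x w c) (Or.inl ⟨c, by omega, rfl⟩),
      ← dep_side (U := U) (U' := U') fun e he => hUU e (Or.inr ⟨c, hc, hc', he⟩)]
    exact h3

theorem dep_armEv {d : ℕ} (κ K g L N : ℕ) (t : ℝ) (x : V d) :
    Dep (ArmEv κ K g L N t x) (Near (N * (L + 1 + 2 * g) + K + 3) x) := by
  intro U U' hUU hU
  obtain ⟨w, hw, hW⟩ := hU
  have hpos : ∀ m, m ≤ N * (L + 1 + 2 * g) → dist1 (pos x w m) x ≤ N * (L + 1 + 2 * g) := by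
    intro m hm
    have h1 := dist1_pos_le x w 0 m (Nat.zero_le _)
    rw [pos_zero, dist1_comm] at h1
    omega
  have hpe : ∀ m, m ≤ N * (L + 1 + 2 * g) → U (pe x w m) = U' (pe x w m) := by
    intro m hm
    have h1 := hpos m hm
    exact hUU _ (supp_near_mono (by omega) (supp_ed_near (r := 1) le_rfl (pos x w m) (w m)))
  refine ⟨w, hw, fun b hb => ?_⟩
  have hbn : b * (L + 1 + 2 * g) + (L + 1 + 2 * g) ≤ N * (L + 1 + 2 * g) := by
    have h1 : (b + 1) * (L + 1 + 2 * g) ≤ N * (L + 1 + 2 * g) := Nat.mul_le_mul_right _ hb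
    have h2 : (b + 1) * (L + 1 + 2 * g) = b * (L + 1 + 2 * g) + (L + 1 + 2 * g) := by ring
    omega
  obtain ⟨h1, h2⟩ := hW b hb
  refine ⟨fun j hj => ?_, fun hbad => ?_⟩
  · rw [← hpe _ (by omega)]
    exact h1 j hj
  · refine dep_blockOK κ K g L t _ _ U U' (fun e he => ?_) (h2 hbad)
    rcases he with ⟨j, hj, rfl⟩ | ⟨c, hc, hc', he⟩
    · rw [← pe_add]
      exact hpe _ (by omega)
    · rw [← pos_add] at he
      have h3 := hpos (b * (L + 1 + 2 * g) + c) (by omega)
      exact hUU e (supp_near_mono (by omega) he)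

theorem dep_blkEv {d : ℕ} (κ K h T : ℕ) (t : ℝ) (y : V d) (p : Dir d)
    (v : Fin (2 * h + T) → Dir d) : Dep (BlkEv κ K h T t y p v) (bsupp K h T y p v) := by
  intro U U' hUU hU
  obtain ⟨h1, h2, h3⟩ := hU
  have h4 : ∀ i, U (bedge y v i) = U' (bedge y v i) := fun i => hUU _ (Or.inl ⟨i, rfl⟩)
  refine ⟨fun i => ?_, fun i hi => ?_, fun i hi l hl hl' => ?_⟩
  · rw [← h4]
    exact h1 i
  · have h5 := h2 i hi
    have h6 : ∀ e ∈ Near (K + 2) (y + bpos v i), U e = U' e := fun e he =>
      hUU e (Or.inr (Or.inl ⟨i, hi, he⟩))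
    rw [← h4, ← h6 _ (supp_ed_near (by omega) (y + bpos v i) (rev (inl p v i))),
      ← dep_side (U := U) (U' := U') h6]
    exact h5
  · rw [← hUU _ (Or.inr (Or.inr ⟨i, hi, l, hl, rfl⟩))]
    exact h3 i hi l hl hl'

end H42.CD
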