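import Pool.Agent.H42.CD.Ind
import Pool.Agent.H42.CD.Meas
import Pool.Agent.H42.CD.Supp

/-!
# Module ARMWORD: independence of the blocks of a self-avoiding path

`n' = L + 1 + 2 g`. For `b < N` let `E b = {U | all edges of block b have time ≤ t}` if block `b` is bad or has a
repeated coordinate, and `E b = {U | BlockOK ... (block b)}` otherwise. `ArmW ⊆ ⋂ b < N, E b`. `E b` depends on
(`dep_blockOK`) `S b` = the edges of block `b`, together with (in the second case)
`⋃_c Near (K+2) (core vertex c)`. The sets `S b` are pairwise disjoint: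
* path edges of different blocks are different, since the path is self-avoiding;
* if `e ∈ Near (K+2) z ∩ Near (K+2) z'` for core vertices of different blocks, `dist1 z z' ≤ 2K+4`, so the
  block of `z` would be bad;
* if `pe x w j`, `j` in block `b' ≠ b`, is in `Near (K+2) z`, `z = pos x w (b n' + c)` a core vertex of the good
  block `b`: the base point of the edge is `pos x w m` with `m ∈ {j, j+1}`, and
  `dist1 (pos x w m) z ≤ K+2`. If `m < b n'` or `(b+1) n' < m` block `b` would be bad. Otherwise `m = b n'` or
  `m = (b+1) n'`, and as block `b` has no repeated coordinate, the distance to `z` is `c > g` resp.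
  `n' - c > g`, but `g ≥ K + 2`.
(`BadBlock` is stated for the path from `0`; distances do not change under translation.)
By `indep_prod` the probability is `∏ P(E b)`, and `P(E b) ≤ t^n'` (`prob_le`: the edges of a block are
distinct) resp. `≤ φ t^n'` by hypothesis (positions within a block: `pos_add`, `pe_add`).
-/

open MeasureTheory Set Filter
open scoped ENNReal Topology

namespace H42.CD

open Classical in
/-- number of blocks which are neither bad nor have a repeated coordinate -/
noncomputable def gd {d : ℕ} (K g L N : ℕ) (w : ℕ → Dir d) : ℕ :=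
  ((Finset.range N).filter fun b => ¬ BadBlock K g L N w b ∧ ¬ RepBlock g L w b).card

/-! ### Distances along a path with distinct coordinates -/

theorem dist1_add_stp_of_eq {d : ℕ} {y z : V d} {l : Dir d} (h : y l.1 = z l.1) :
    dist1 (y + stp l) z = dist1 y z + 1 := by
  classical
  unfold dist1
  rw [← Finset.add_sum_erase Finset.univ (fun a => ((y + stp l) a - z a).natAbs)
      (Finset.mem_univ l.1), ← Finset.add_sum_erase Finset.univ (fun a => (y a - z a).natAbs)
      (Finset.mem_univ l.1)]
  have h1 : ∑ a ∈ Finset.univ.erase l.1, ((y + stp l) a - z a).natAbs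
      = ∑ a ∈ Finset.univ.erase l.1, (y a - z a).natAbs := by
    refine Finset.sum_congr rfl fun a ha => ?_
    rw [Pi.add_apply, stp_apply, if_neg (Finset.ne_of_mem_erase ha), add_zero]
  rw [h1]
  have h2 : ((y + stp l) l.1 - z l.1).natAbs = 1 := by
    rw [Pi.add_apply, stp_apply, if_pos rfl, h]
    rcases l with ⟨c, b⟩
    cases b <;> simp
  have h3 : (y l.1 - z l.1).natAbs = 0 := by
    rw [h]; simp
  omega

theorem pos_apply_eq {d : ℕ} (x : V d) (w : ℕ → Dir d) (a : Fin d) {i j : ℕ} (hij : i ≤ j)
    (h : ∀ k, i ≤ k → k < j → (w k).1 ≠ a) : pos x w j a = pos x w i a := by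
  induction j, hij using Nat.le_induction with
  | base => rfl
  | succ j hj ih =>
    rw [pos_succ, Pi.add_apply, stp_apply, if_neg, add_zero]
    · exact ih fun k hk hk' => h k hk (by omega)
    · intro h'
      exact h j hj (by omega) h'.symm

theorem dist1_distinct {d : ℕ} (x : V d) (w : ℕ → Dir d) {i j : ℕ} (hij : i ≤ j)
    (h : ∀ k l, i ≤ k → k < l → l < j → (w k).1 ≠ (w l).1) :
    dist1 (pos x w j) (pos x w i) = j - i := by
  induction j, hij using Nat.le_induction with
  | base => simp
  | succ j hj ih =>
    rw [pos_succ, dist1_add_stp_of_eq, ih]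
    · omega
    · intro k l hk hkl hl
      exact h k l hk hkl (by omega)
    · exact pos_apply_eq x w _ hj fun k hk hk' => h k j hk hk' (by omega)

theorem dist1_pos_zero {d : ℕ} (x : V d) (w : ℕ → Dir d) (i j : ℕ) :
    dist1 (pos 0 w i) (pos 0 w j) = dist1 (pos x w i) (pos x w j) := by
  have h : ∀ k, pos x w k = pos 0 w k + x := by
    intro k
    have := pos_translate x 0 w k
    rw [add_zero] at this
    rw [this, add_comm]
  rw [h i, h j, dist1_add_right]

/-- the base point of a path edge is one of its endpoints -/
theorem pe_base {d : ℕ} (x : V d) (w : ℕ → Dir d) (j : ℕ) :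
    ∃ m, (m = j ∨ m = j + 1) ∧ (pe x w j).1 = pos x w m := by
  by_cases hb : (w j).2 = true
  · refine ⟨j, Or.inl rfl, ?_⟩
    simp [pe, ed, hb]
  · refine ⟨j + 1, Or.inr rfl, ?_⟩
    have hb' : (w j).2 = false := by simpa using hb
    rw [pos_succ]
    simp [pe, ed, stp, hb', sub_eq_add_neg, ← Pi.single_neg]

/-- the edges of a self-avoiding path are distinct -/
theorem pe_injOn {d M : ℕ} {x : V d} {w : ℕ → Dir d} (hw : Set.InjOn (pos x w) {i | i ≤ M}) :
    ∀ i j, i < M → j < M → pe x w i = pe x w j → i = j := by
  intro i j hi hj he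
  unfold pe at he
  rcases ed_eq_iff.1 he with ⟨h1, _⟩ | ⟨h1, h2⟩
  · exact hw (show i ≤ M by omega) (show j ≤ M by omega) h1
  · exfalso
    have h3 : j = i + 1 := by
      refine hw (show j ≤ M by omega) (show i + 1 ≤ M by omega) ?_
      rw [pos_succ]; exact h1
    have h4 : j + 1 = i := by
      refine hw (show j + 1 ≤ M by omega) (show i ≤ M by omega) ?_
      rw [pos_succ, h1, h2, add_stp_rev]
    omega

theorem Dep.mono {I α : Type} {A : Set (I → α)} {S S' : Set I} (h : Dep A S) (hS : S ⊆ S') :
    Dep A S' := fun U U' hU hA => h U U' (fun e he => hU e (hS he)) hA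

theorem arm_word {d κ K g L N : ℕ} (hg : K + 2 ≤ g) {t φ : ℝ} (h0 : 0 ≤ t) (h1 : t ≤ 1)
    (hφ0 : 0 ≤ φ)
    (hφ : ∀ (x : V d) (w : ℕ → Dir d), (∀ i j, i < j → j < L + 1 + 2 * g → (w i).1 ≠ (w j).1) →
      lawU d {U | BlockOK κ K g L t U x w} ≤ ENNReal.ofReal (φ * t ^ (L + 1 + 2 * g)))
    (x : V d) (w : ℕ → Dir d) (hw : Set.InjOn (pos x w) {i | i ≤ N * (L + 1 + 2 * g)}) :
    lawU d (ArmW κ K g L N t x w)
      ≤ ENNReal.ofReal (t ^ (N * (L + 1 + 2 * g)) * φ ^ gd K g L N w) := by
  classical
  set n' : ℕ := L + 1 + 2 * g with hn'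
  let good : ℕ → Prop := fun b => ¬ BadBlock K g L N w b ∧ ¬ RepBlock g L w b
  let E : ℕ → Set (Edge d → ℝ) := fun b =>
    if good b then {U | BlockOK κ K g L t U (pos x w (b * n')) fun j => w (b * n' + j)}
    else {U | ∀ j, j < n' → U (pe x w (b * n' + j)) ≤ t}
  let S : ℕ → Set (Edge d) := fun b =>
    {e | (∃ j, j < n' ∧ e = pe x w (b * n' + j)) ∨
      (good b ∧ ∃ c, g < c ∧ c ≤ g + L ∧ e ∈ Near (K + 2) (pos x w (b * n' + c)))}
  -- index arithmetic
  have hidx : ∀ b, b < N → (b + 1) * n' ≤ N * n' := fun b hb => Nat.mul_le_mul_right n' hb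
  have hidx' : ∀ b b', b < b' → (b + 1) * n' ≤ b' * n' := fun b b' hb => Nat.mul_le_mul_right n' hb
  have hsucc : ∀ b, (b + 1) * n' = b * n' + n' := fun b => by ring
  have hbad : ∀ b c m, g < c → c ≤ g + L → m ≤ N * n' → (m < b * n' ∨ (b + 1) * n' < m) →
      dist1 (pos x w (b * n' + c)) (pos x w m) ≤ 2 * K + 6 → BadBlock K g L N w b := by
    intro b c m h1 h2 h3 h4 h5
    refine ⟨c, m, h1, h2, h3, h4, ?_⟩
    rw [dist1_pos_zero x]
    exact h5
  -- the event is contained in the intersection
  have hsub : ArmW κ K g L N t x w ⊆ ⋂ b ∈ Finset.range N, E b := by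
    intro U hU
    refine Set.mem_iInter₂.2 fun b hb => ?_
    have hb' : b < N := Finset.mem_range.1 hb
    obtain ⟨h2, h3⟩ := hU b hb'
    by_cases hgood : good b
    · simp only [E, if_pos hgood]
      exact h3 hgood.1
    · simp only [E, if_neg hgood]
      exact h2
  -- measurability
  have hmeas : ∀ b ∈ Finset.range N, MeasurableSet (E b) := by
    intro b _
    by_cases hgood : good b
    · simp only [E, if_pos hgood]
      exact meas_blockOK κ K g L t _ _
    · simp only [E, if_neg hgood]
      have : {U : Edge d → ℝ | ∀ j, j < n' → U (pe x w (b * n' + j)) ≤ t}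
          = ⋂ j : ℕ, ⋂ _ : j < n', {U : Edge d → ℝ | U (pe x w (b * n' + j)) ≤ t} := by
        ext U
        simp only [mem_iInter, mem_ofPred_eq]
      rw [this]
      exact MeasurableSet.iInter fun j => MeasurableSet.iInter fun _ =>
        measurableSet_le (measurable_pi_apply _) measurable_const
  -- dependence
  have hdep : ∀ b ∈ Finset.range N, Dep (E b) (S b) := by
    intro b _
    by_cases hgood : good b
    · simp only [E, if_pos hgood]
      refine (dep_blockOK κ K g L t _ _).mono ?_
      rintro e (⟨j, hj, rfl⟩ | ⟨c, hc1, hc2, he⟩)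
      · refine Or.inl ⟨j, hj, ?_⟩
        rw [pe_add]
      · refine Or.inr ⟨hgood, c, hc1, hc2, ?_⟩
        rw [pos_add]
        exact he
    · simp only [E, if_neg hgood]
      intro U U' hU hA j hj
      rw [← hU _ (Or.inl ⟨j, hj, rfl⟩)]
      exact hA j hj
  -- a path edge is not close to the core of a good block
  have hcross : ∀ b b', b < N → b' < N → b ≠ b' → ∀ j, j < n' → good b' → ∀ c, g < c → c ≤ g + L →
      ¬ pe x w (b * n' + j) ∈ Near (K + 2) (pos x w (b' * n' + c)) := by
    intro b b' hb hb' hne j hj hgood c hc1 hc2 hnear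
    obtain ⟨m, hm, hbase⟩ := pe_base x w (b * n' + j)
    have hd : dist1 (pos x w m) (pos x w (b' * n' + c)) ≤ K + 2 := by
      rw [← hbase]
      exact hnear
    have hbN := hidx b hb
    have hsb := hsucc b
    have hsb' := hsucc b'
    have hmN : m ≤ N * n' := by omega
    have hnotbad : ¬ (m < b' * n' ∨ (b' + 1) * n' < m) := by
      intro hor
      refine hgood.1 (hbad b' c m hc1 hc2 hmN hor ?_)
      rw [dist1_comm]
      omega
    have hdist : ∀ k l, b' * n' ≤ k → k < l → l < (b' + 1) * n' → (w k).1 ≠ (w l).1 := by
      intro k l hk hkl hl heq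
      refine hgood.2 ⟨k - b' * n', l - b' * n', by omega, by omega, ?_⟩
      rw [Nat.add_sub_of_le hk, Nat.add_sub_of_le (show b' * n' ≤ l by omega)]
      exact heq
    rcases lt_or_gt_of_ne hne with hlt | hgt
    · have h1 := hidx' b b' hlt
      have hm' : m = b' * n' := by omega
      have h2 := dist1_distinct x w (i := b' * n') (j := b' * n' + c) (by omega)
        fun k l hk hkl hl => hdist k l hk hkl (by omega)
      rw [hm', dist1_comm, h2] at hd
      omega
    · have h1 := hidx' b' b hgt
      have hm' : m = (b' + 1) * n' := by omega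
      have h2 := dist1_distinct x w (i := b' * n' + c) (j := (b' + 1) * n') (by omega)
        fun k l hk hkl hl => hdist k l (by omega) hkl hl
      rw [hm', h2] at hd
      omega
  -- disjointness
  have hdisj : ((Finset.range N : Finset ℕ) : Set ℕ).PairwiseDisjoint S := by
    intro b hb b' hb' hne
    have hbN : b < N := by simpa using hb
    have hbN' : b' < N := by simpa using hb'
    refine Set.disjoint_left.2 ?_
    rintro e (⟨j, hj, rfl⟩ | ⟨hgood, c, hc1, hc2, he⟩) (⟨j', hj', he'⟩ | ⟨hgood', c', hc1', hc2', he'⟩)
    · have h1 := hidx b hbN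
      have h2 := hidx b' hbN'
      have hsb := hsucc b
      have hsb' := hsucc b'
      have heq := pe_injOn hw (b * n' + j) (b' * n' + j') (by omega) (by omega) he'
      rcases lt_or_gt_of_ne hne with hlt | hgt
      · have h1 := hidx' b b' hlt
        omega
      · have h1 := hidx' b' b hgt
        omega
    · exact hcross b b' hbN hbN' hne j hj hgood' c' hc1' hc2' he'
    · rw [he'] at he
      exact hcross b' b hbN' hbN (Ne.symm hne) j' hj' hgood c hc1 hc2 he
    · have hdd : dist1 (pos x w (b * n' + c)) (pos x w (b' * n' + c')) ≤ 2 * K + 6 := by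
        have h1 : dist1 e.1 (pos x w (b * n' + c)) ≤ K + 2 := he
        have h2 : dist1 e.1 (pos x w (b' * n' + c')) ≤ K + 2 := he'
        have h3 := dist1_tri (pos x w (b * n' + c)) e.1 (pos x w (b' * n' + c'))
        rw [dist1_comm (pos x w (b * n' + c)) e.1] at h3
        omega
      have h2 := hidx b' hbN'
      have hsb' := hsucc b'
      refine hgood.1 (hbad b c (b' * n' + c') hc1 hc2 (by omega) ?_ hdd)
      rcases lt_or_gt_of_ne hne with hlt | hgt
      · have h1 := hidx' b b' hlt
        right
        omega
      · have h1 := hidx' b' b hgt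
        left
        omega
  -- probability of one block
  have hprob : ∀ b ∈ Finset.range N, lawU d (E b)
      ≤ ENNReal.ofReal (t ^ n' * if good b then φ else 1) := by
    intro b hb
    have hbN : b < N := Finset.mem_range.1 hb
    by_cases hgood : good b
    · simp only [E, if_pos hgood]
      rw [mul_comm (t ^ n') φ]
      refine hφ _ _ ?_
      intro i j hij hj heq
      exact hgood.2 ⟨i, j, hij, hj, heq⟩
    · simp only [E, if_neg hgood, mul_one]
      have hcard : ((Finset.range n').image fun j => pe x w (b * n' + j)).card = n' := by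
        rw [Finset.card_image_of_injOn, Finset.card_range]
        intro i hi j hj hij
        have h1 : i < n' := by simpa using hi
        have h2 : j < n' := by simpa using hj
        have h3 := hidx b hbN
        have h4 := hsucc b
        have := pe_injOn hw (b * n' + i) (b * n' + j) (by omega) (by omega) hij
        omega
      have := prob_le (d := d) ((Finset.range n').image fun j => pe x w (b * n' + j)) h0 h1
      rw [hcard] at this
      rw [← this]
      refine measure_mono fun U hU e he => ?_
      rw [Finset.mem_image] at he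
      obtain ⟨j, hj, rfl⟩ := he
      exact hU j (Finset.mem_range.1 hj)
  have hindep : lawU d (⋂ b ∈ Finset.range N, E b) = ∏ b ∈ Finset.range N, lawU d (E b) :=
    indep_prod unif (Finset.range N) S E hmeas hdep hdisj
  calc lawU d (ArmW κ K g L N t x w) ≤ lawU d (⋂ b ∈ Finset.range N, E b) := measure_mono hsub
    _ = ∏ b ∈ Finset.range N, lawU d (E b) := hindep
    _ ≤ ∏ b ∈ Finset.range N, ENNReal.ofReal (t ^ n' * if good b then φ else 1) :=
        Finset.prod_le_prod' hprob
    _ = ENNReal.ofReal (∏ b ∈ Finset.range N, (t ^ n' * if good b then φ else 1)) := by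
        rw [ENNReal.ofReal_prod_of_nonneg]
        intro b _
        refine mul_nonneg (by positivity) ?_
        split_ifs
        · exact hφ0
        · exact zero_le_one
    _ = ENNReal.ofReal (t ^ (N * n') * φ ^ gd K g L N w) := by
        congr 1
        rw [Finset.prod_mul_distrib, Finset.prod_const, Finset.card_range, ← pow_mul,
          mul_comm n' N]
        congr 1
        rw [← Finset.prod_filter, Finset.prod_const]
        unfold gd
        congr 1

end H42.CD
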