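import Pool.Agent.H42.CD.BFix

/-!
# Module BADM: admissible parameters, basic facts for the expected weights

`τ = 2h+T`. `Adm h T c0 d g`: `0 < g`, `4 h g + T + g ≤ d`, `d ≤ c0 g`.
* `card_fix'`: `card_fix` with `M = g`.
* `bw_nonempty`: there are enough coordinates.
* `bw_card_ge`: `g^τ ≤ #BW` (`card_fix'` with `S = univ` and `l` = an element of `BW`).
* `grow`: let `NoHit Δ v v'` say: no letter of `v` or `v'` has its coordinate in the support of `Δ`, and no
  letter of `v` has the same coordinate as a letter of `v'`. Then `nrm (Δ + disp v - disp v') = nrm Δ + 2 τ`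
  for `v, v' ∈ BW`: at each coordinate exactly one of the terms `Δ`, `stp (v i)`, `-stp (v' j)` is nonzero or all
  vanish, and each letter contributes `1`.
* `nrm_disp`: `nrm (disp v) ≤ n`.
* `sh_le`: `sh Δ v v' ≤ n`.
-/

open MeasureTheory Set Filter
open scoped ENNReal Topology

namespace H42.CD

/-- admissible parameters -/
def Adm (h T : ℕ) (c0 : ℝ) (d g : ℕ) : Prop :=
  0 < g ∧ 4 * h * g + T + g ≤ d ∧ (d : ℝ) ≤ c0 * g

/-- no coincidence of coordinates -/
def NoHit {d n : ℕ} (Δ : V d) (v v' : Fin n → Dir d) : Prop :=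
  (∀ i, Δ (v i).1 = 0) ∧ (∀ i, Δ (v' i).1 = 0) ∧ ∀ i j, (v i).1 ≠ (v' j).1

variable {h T d g : ℕ} {c0 : ℝ}

open Classical in
theorem card_fix' (ha : Adm h T c0 d g) (S : Finset (Fin (2 * h + T)))
    (l : Fin (2 * h + T) → Dir d) :
    g ^ S.card * ((BW d g h T).filter fun v => ∀ i ∈ S, v i = l i).card ≤ (BW d g h T).card := by
  obtain ⟨h1, h2, _⟩ := ha
  exact card_fix (by omega) (by omega) (by omega) S l

theorem bw_nonempty (ha : Adm h T c0 d g) : (BW d g h T).Nonempty := by
  obtain ⟨h1, h2, _⟩ := ha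
  have key : ∀ c, c < 2 * h → 2 * g * c + 2 * g ≤ 4 * h * g := by
    intro c hc
    have h3 : c + 1 ≤ 2 * h := hc
    calc 2 * g * c + 2 * g = 2 * g * (c + 1) := by ring
      _ ≤ 2 * g * (2 * h) := Nat.mul_le_mul_left _ h3
      _ = 4 * h * g := by ring
  set f : ℕ → ℕ := fun i => match gr h T i with
    | some c => 2 * g * c
    | none => 4 * h * g + (i - h) with hf
  have hval : ∀ i, i < 2 * h + T → (∃ c, c < 2 * h ∧ gr h T i = some c ∧ f i = 2 * g * c ∧
      (c = i ∧ i < h ∨ c = i - T ∧ h + T ≤ i)) ∨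
      (gr h T i = none ∧ f i = 4 * h * g + (i - h) ∧ h ≤ i ∧ i < h + T) := by
    intro i hi
    by_cases hi1 : i < h
    · have e : gr h T i = some i := by simp [gr, hi1]
      left
      refine ⟨i, by omega, e, ?_, Or.inl ⟨rfl, hi1⟩⟩
      simp only [hf, e]
    · by_cases hi2 : i < h + T
      · have e : gr h T i = none := by simp [gr, hi1, hi2]
        right
        refine ⟨e, ?_, by omega, hi2⟩
        simp only [hf, e]
      · have e : gr h T i = some (i - T) := by simp [gr, hi1, hi2]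
        left
        refine ⟨i - T, by omega, e, ?_, Or.inr ⟨rfl, by omega⟩⟩
        simp only [hf, e]
  have hlt : ∀ i, i < 2 * h + T → f i < d := by
    intro i hi
    rcases hval i hi with ⟨c, hc, _, e, _⟩ | ⟨_, e, h3, h4⟩
    · have := key c hc
      rw [e]
      omega
    · rw [e]
      omega
  refine ⟨fun i => (⟨f i.val, hlt i.val i.isLt⟩, true), ?_⟩
  rw [mem_bw]
  constructor
  · intro i
    rcases hval i.val i.isLt with ⟨c, hc, e1, e, _⟩ | ⟨e1, e, h3, h4⟩
    · simp only [Allow, e1]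
      refine ⟨trivial, ?_⟩
      rw [e]
      exact Nat.mul_div_cancel_left c (by omega)
    · simp only [Allow, e1]
      rw [e]
      omega
  · intro i j hij
    have hij' : f i.val = f j.val := congrArg Fin.val hij
    rcases hval i.val i.isLt with ⟨c, hc, _, e, hc'⟩ | ⟨_, e, h3, h4⟩ <;>
    rcases hval j.val j.isLt with ⟨c2, hc2, _, e2, hc2'⟩ | ⟨_, e2, h5, h6⟩
    · rw [e, e2] at hij'
      have : c = c2 := Nat.eq_of_mul_eq_mul_left (by omega) hij'
      refine Fin.ext ?_
      omega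
    · have := key c hc
      omega
    · have := key c2 hc2
      omega
    · refine Fin.ext ?_
      omega

theorem bw_card_ge (ha : Adm h T c0 d g) : g ^ (2 * h + T) ≤ (BW d g h T).card := by
  classical
  obtain ⟨l, hl⟩ := bw_nonempty ha
  have h1 := card_fix' ha Finset.univ l
  rw [Finset.card_univ, Fintype.card_fin] at h1
  have h2 : 1 ≤ ((BW d g h T).filter fun v => ∀ i ∈ Finset.univ, v i = l i).card := by
    rw [Nat.one_le_iff_ne_zero, ← Nat.pos_iff_ne_zero, Finset.card_pos]
    exact ⟨l, Finset.mem_filter.2 ⟨hl, fun _ _ => rfl⟩⟩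
  calc g ^ (2 * h + T) = g ^ (2 * h + T) * 1 := by rw [mul_one]
    _ ≤ _ := Nat.mul_le_mul_left _ h2
    _ ≤ _ := h1

lemma badm_natAbs_stp (l : Dir d) (a : Fin d) : (stp l a).natAbs = if a = l.1 then 1 else 0 := by
  rw [stp_apply]
  split_ifs <;> simp

theorem nrm_disp {n : ℕ} (v : Fin n → Dir d) : nrm (disp v) ≤ n := by
  show dist1 (disp v) 0 ≤ n
  unfold dist1 disp
  calc ∑ a, ((∑ j : Fin n, stp (v j)) a - (0 : V d) a).natAbs
      ≤ ∑ a, ∑ j : Fin n, (stp (v j) a).natAbs := by
        refine Finset.sum_le_sum fun a _ => ?_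
        rw [Pi.zero_apply, sub_zero, Finset.sum_apply]
        exact Int.natAbs_sum_le _ _
    _ = ∑ j : Fin n, ∑ a, (stp (v j) a).natAbs := Finset.sum_comm
    _ = ∑ _j : Fin n, 1 := by
        refine Finset.sum_congr rfl fun j _ => ?_
        simp only [badm_natAbs_stp]
        simp
    _ = n := by simp

theorem sh_le {n : ℕ} (Δ : V d) (v v' : Fin n → Dir d) : sh Δ v v' ≤ n := by
  unfold sh
  refine (Finset.card_le_card Finset.inter_subset_left).trans ?_
  unfold bedges
  simpa using Finset.card_image_le (s := (Finset.univ : Finset (Fin n))) (f := bedge Δ v)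

lemma badm_disp_miss {n : ℕ} {v : Fin n → Dir d} {a : Fin d} (ha : ∀ j, (v j).1 ≠ a) :
    disp v a = 0 := by
  unfold disp
  rw [Finset.sum_apply]
  refine Finset.sum_eq_zero fun j _ => ?_
  rw [stp_apply, if_neg]
  exact fun h => ha j h.symm

lemma badm_disp_hit {n : ℕ} {v : Fin n → Dir d} (hv : ∀ i j, (v i).1 = (v j).1 → i = j) (i : Fin n) :
    disp v (v i).1 = stp (v i) (v i).1 := by
  unfold disp
  rw [Finset.sum_apply]
  refine Finset.sum_eq_single i (fun j _ hj => ?_) (fun h => absurd (Finset.mem_univ i) h)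
  rw [stp_apply, if_neg]
  exact fun h => hj (hv j i h.symm)

lemma badm_card_hit {n : ℕ} {v : Fin n → Dir d} (hv : ∀ i j, (v i).1 = (v j).1 → i = j) (i : Fin n) :
    (∑ j : Fin n, if (v i).1 = (v j).1 then 1 else 0) = 1 := by
  rw [Finset.sum_eq_single i (fun j _ hj => ?_) (fun h => absurd (Finset.mem_univ i) h)]
  · simp
  · rw [if_neg]
    exact fun h => hj (hv j i h.symm)

lemma badm_card_miss {n : ℕ} {v : Fin n → Dir d} {a : Fin d} (ha : ∀ j, (v j).1 ≠ a) :
    (∑ j : Fin n, if a = (v j).1 then 1 else 0) = 0 := by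
  refine Finset.sum_eq_zero fun j _ => ?_
  rw [if_neg]
  exact fun h => ha j h.symm

lemma badm_sum_card_hit {n : ℕ} (v : Fin n → Dir d) :
    ∑ a : Fin d, (∑ j : Fin n, if a = (v j).1 then 1 else 0) = n := by
  rw [Finset.sum_comm]
  simp

theorem grow {Δ : V d} {v v' : Fin (2 * h + T) → Dir d} (hv : v ∈ BW d g h T)
    (hv' : v' ∈ BW d g h T) (hn : NoHit Δ v v') :
    nrm (Δ + disp v - disp v') = nrm Δ + 2 * (2 * h + T) := by
  obtain ⟨_, hi⟩ := mem_bw.1 hv
  obtain ⟨_, hi'⟩ := mem_bw.1 hv'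
  obtain ⟨n1, n2, n3⟩ := hn
  have key : ∀ a : Fin d, ((Δ + disp v - disp v') a - (0 : V d) a).natAbs
      = (Δ a - (0 : V d) a).natAbs + ((∑ j : Fin (2 * h + T), if a = (v j).1 then 1 else 0)
        + ∑ j : Fin (2 * h + T), if a = (v' j).1 then 1 else 0) := by
    intro a
    rw [Pi.zero_apply, sub_zero, sub_zero, Pi.sub_apply, Pi.add_apply]
    by_cases h1 : ∃ i, (v i).1 = a
    · obtain ⟨i, rfl⟩ := h1
      have h2 : ∀ j, (v' j).1 ≠ (v i).1 := fun j hj => n3 i j hj.symm
      rw [n1 i, badm_disp_hit hi, badm_disp_miss h2, badm_card_hit hi, badm_card_miss h2, zero_add, sub_zero,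
        badm_natAbs_stp]
      simp
    · push Not at h1
      rw [badm_disp_miss h1, badm_card_miss h1]
      by_cases h2 : ∃ i, (v' i).1 = a
      · obtain ⟨i, rfl⟩ := h2
        rw [n2 i, badm_disp_hit hi', badm_card_hit hi', add_zero, zero_sub, Int.natAbs_neg, badm_natAbs_stp]
        simp
      · push Not at h2
        rw [badm_disp_miss h2, badm_card_miss h2]
        simp
  show dist1 (Δ + disp v - disp v') 0 = dist1 Δ 0 + _
  unfold dist1
  rw [Finset.sum_congr rfl fun a _ => key a, Finset.sum_add_distrib, Finset.sum_add_distrib,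
    badm_sum_card_hit, badm_sum_card_hit]
  omega

end H42.CD
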