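import Pool.Agent.H42.CD.Defs2

/-!
# Module BCARD: the number of block words

The words are in bijection with (for each of the `2 h` drift positions, an element of the group: `2 g`
coordinates) × (injective `T`-tuples of neutral coordinates) × (signs of the core letters). The coordinates
of different drift groups and of core letters are automatically different. A coordinate `a` is in group
`c < 2 h` iff `2 g c ≤ a < 2 g (c + 1)`, and `2 g (c+1) ≤ 4 h g ≤ d`.
-/

open MeasureTheory Set Filter
open scoped ENNReal Topology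

namespace H42.CD

theorem bcard_bd {g h c r : ℕ} (hc : c < 2 * h) (hr : r < 2 * g) :
    2 * g * c + r < 4 * h * g := by
  have h1 : (c + 1) * (2 * g) ≤ (2 * h) * (2 * g) := Nat.mul_le_mul_right _ hc
  have h2 : (c + 1) * (2 * g) = 2 * g * c + 2 * g := by ring
  have h3 : (2 * h) * (2 * g) = 4 * h * g := by ring
  omega

/-- the block word with given data -/
def bcardF {d g h T : ℕ} (hd : 4 * h * g ≤ d)
    (x : (Fin (2 * h) → Fin (2 * g)) × ((Fin T → Bool) × (Fin T ↪ Fin (d - 4 * h * g)))) :
    Fin (2 * h + T) → Dir d := fun i =>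
  if h1 : i.val < h then
    (⟨2 * g * i.val + (x.1 ⟨i.val, by omega⟩).val,
      lt_of_lt_of_le (bcard_bd (by omega) (x.1 ⟨i.val, by omega⟩).isLt) hd⟩, true)
  else if h2 : i.val < h + T then
    (⟨4 * h * g + (x.2.2 ⟨i.val - h, by omega⟩).val, by
      have := (x.2.2 ⟨i.val - h, by omega⟩).isLt
      omega⟩, x.2.1 ⟨i.val - h, by omega⟩)
  else
    (⟨2 * g * (i.val - T) + (x.1 ⟨i.val - T, by omega⟩).val,
      lt_of_lt_of_le (bcard_bd (by omega) (x.1 ⟨i.val - T, by omega⟩).isLt) hd⟩, true)

theorem bcard_div {g c r : ℕ} (hr : r < 2 * g) : (2 * g * c + r) / (2 * g) = c := by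
  rw [Nat.mul_add_div (by omega), Nat.div_eq_of_lt hr, add_zero]

theorem bcardF_allow {d g h T : ℕ} (hd : 4 * h * g ≤ d)
    (x : (Fin (2 * h) → Fin (2 * g)) × ((Fin T → Bool) × (Fin T ↪ Fin (d - 4 * h * g))))
    (i : Fin (2 * h + T)) : Allow g h T i.val (bcardF hd x i) := by
  unfold Allow gr
  by_cases h1 : i.val < h
  · rw [if_pos h1]
    unfold bcardF
    rw [dif_pos h1]
    exact ⟨rfl, bcard_div (x.1 ⟨i.val, by omega⟩).isLt⟩
  · rw [if_neg h1]
    by_cases h2 : i.val < h + T
    · rw [if_pos h2]
      unfold bcardF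
      rw [dif_neg h1, dif_pos h2]
      exact Nat.le_add_right _ _
    · rw [if_neg h2]
      unfold bcardF
      rw [dif_neg h1, dif_neg h2]
      exact ⟨rfl, bcard_div (x.1 ⟨i.val - T, by omega⟩).isLt⟩

theorem bcard_lt {g h a c : ℕ} (hg : 0 < g) (hc : c < 2 * h) (ha : a / (2 * g) = c) :
    a < 4 * h * g := by
  have h1 : a < (c + 1) * (2 * g) := by
    rw [← Nat.div_lt_iff_lt_mul (by omega)]
    omega
  have h2 : (c + 1) * (2 * g) ≤ (2 * h) * (2 * g) := Nat.mul_le_mul_right _ hc
  have h3 : (2 * h) * (2 * g) = 4 * h * g := by ring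
  omega

/-- allowed letters with the same coordinate are at the same position or both in the core -/
theorem bcard_same {d g h T : ℕ} (hg : 0 < g) {i j : Fin (2 * h + T)} {l l' : Dir d}
    (hl : Allow g h T i.val l) (hl' : Allow g h T j.val l') (he : l.1 = l'.1) :
    i = j ∨ (h ≤ i.val ∧ i.val < h + T ∧ h ≤ j.val ∧ j.val < h + T) := by
  unfold Allow gr at hl hl'
  rw [he] at hl
  by_cases h1 : i.val < h
  · rw [if_pos h1] at hl
    have h5 := bcard_lt hg (show i.val < 2 * h by omega) hl.2
    by_cases h3 : j.val < h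
    · rw [if_pos h3] at hl'
      exact Or.inl (Fin.ext (hl.2.symm.trans hl'.2))
    · rw [if_neg h3] at hl'
      by_cases h4 : j.val < h + T
      · rw [if_pos h4] at hl'
        change 4 * h * g ≤ l'.1.val at hl'
        omega
      · rw [if_neg h4] at hl'
        have h6 := hl.2.symm.trans hl'.2
        omega
  · rw [if_neg h1] at hl
    by_cases h2 : i.val < h + T
    · rw [if_pos h2] at hl
      change 4 * h * g ≤ l'.1.val at hl
      by_cases h3 : j.val < h
      · rw [if_pos h3] at hl'
        have h5 := bcard_lt hg (show j.val < 2 * h by omega) hl'.2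
        omega
      · rw [if_neg h3] at hl'
        by_cases h4 : j.val < h + T
        · exact Or.inr ⟨by omega, h2, by omega, h4⟩
        · rw [if_neg h4] at hl'
          have h5 := bcard_lt hg (show j.val - T < 2 * h by omega) hl'.2
          omega
    · rw [if_neg h2] at hl
      have h5 := bcard_lt hg (show i.val - T < 2 * h by omega) hl.2
      by_cases h3 : j.val < h
      · rw [if_pos h3] at hl'
        have h6 := hl.2.symm.trans hl'.2
        omega
      · rw [if_neg h3] at hl'
        by_cases h4 : j.val < h + T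
        · rw [if_pos h4] at hl'
          change 4 * h * g ≤ l'.1.val at hl'
          omega
        · rw [if_neg h4] at hl'
          have h6 := hl.2.symm.trans hl'.2
          exact Or.inl (Fin.ext (by omega))

theorem bcardF_core {d g h T : ℕ} (hd : 4 * h * g ≤ d)
    (x : (Fin (2 * h) → Fin (2 * g)) × ((Fin T → Bool) × (Fin T ↪ Fin (d - 4 * h * g))))
    (i : Fin (2 * h + T)) (h1 : h ≤ i.val) (h2 : i.val < h + T) :
    (bcardF hd x i).1.val = 4 * h * g + (x.2.2 ⟨i.val - h, by omega⟩).val ∧
      (bcardF hd x i).2 = x.2.1 ⟨i.val - h, by omega⟩ := by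
  unfold bcardF
  rw [dif_neg (by omega), dif_pos h2]
  exact ⟨rfl, rfl⟩

theorem bcardF_low {d g h T : ℕ} (hd : 4 * h * g ≤ d)
    (x : (Fin (2 * h) → Fin (2 * g)) × ((Fin T → Bool) × (Fin T ↪ Fin (d - 4 * h * g))))
    (i : Fin (2 * h + T)) (h1 : i.val < h) :
    (bcardF hd x i).1.val = 2 * g * i.val + (x.1 ⟨i.val, by omega⟩).val ∧
      (bcardF hd x i).2 = true := by
  unfold bcardF
  rw [dif_pos h1]
  exact ⟨rfl, rfl⟩

theorem bcardF_high {d g h T : ℕ} (hd : 4 * h * g ≤ d)
    (x : (Fin (2 * h) → Fin (2 * g)) × ((Fin T → Bool) × (Fin T ↪ Fin (d - 4 * h * g))))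
    (i : Fin (2 * h + T)) (h1 : h + T ≤ i.val) :
    (bcardF hd x i).1.val = 2 * g * (i.val - T) + (x.1 ⟨i.val - T, by omega⟩).val ∧
      (bcardF hd x i).2 = true := by
  unfold bcardF
  rw [dif_neg (by omega), dif_neg (by omega)]
  exact ⟨rfl, rfl⟩

theorem bcardF_mem {d g h T : ℕ} (hg : 0 < g) (hd : 4 * h * g ≤ d)
    (x : (Fin (2 * h) → Fin (2 * g)) × ((Fin T → Bool) × (Fin T ↪ Fin (d - 4 * h * g)))) :
    bcardF hd x ∈ BW d g h T := by
  classical
  unfold BW
  rw [Finset.mem_filter]
  refine ⟨Finset.mem_univ _, bcardF_allow hd x, fun i j hij => ?_⟩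
  change (bcardF hd x i).1 = (bcardF hd x j).1 at hij
  rcases bcard_same hg (bcardF_allow hd x i) (bcardF_allow hd x j) hij with h1 |
    ⟨h1, h2, h3, h4⟩
  · exact h1
  · have h5 := congrArg Fin.val hij
    rw [(bcardF_core hd x i h1 h2).1, (bcardF_core hd x j h3 h4).1] at h5
    have h6 := x.2.2.injective (Fin.ext (Nat.add_left_cancel h5))
    have h7 := congrArg Fin.val h6
    simp only at h7
    exact Fin.ext (by omega)

theorem bcardF_inj {d g h T : ℕ} (hd : 4 * h * g ≤ d) :
    Function.Injective (bcardF (d := d) (g := g) (h := h) (T := T) hd) := by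
  intro x y hxy
  have hi := fun i => congrFun hxy i
  refine Prod.ext ?_ (Prod.ext ?_ ?_)
  · funext c
    by_cases hc : c.val < h
    · have h1 := congrArg (fun l : Dir d => l.1.val) (hi ⟨c.val, by omega⟩)
      rw [(bcardF_low hd x ⟨c.val, by omega⟩ hc).1,
        (bcardF_low hd y ⟨c.val, by omega⟩ hc).1] at h1
      exact Fin.ext (Nat.add_left_cancel h1)
    · have h1 := congrArg (fun l : Dir d => l.1.val) (hi ⟨c.val + T, by omega⟩)
      rw [(bcardF_high hd x ⟨c.val + T, by omega⟩ (by simp only; omega)).1,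
        (bcardF_high hd y ⟨c.val + T, by omega⟩ (by simp only; omega)).1] at h1
      simp only [Nat.add_sub_cancel] at h1
      exact Fin.ext (Nat.add_left_cancel h1)
  · funext j
    have h1 := congrArg (fun l : Dir d => l.2) (hi ⟨j.val + h, by omega⟩)
    rw [(bcardF_core hd x ⟨j.val + h, by omega⟩ (by simp only; omega) (by simp only; omega)).2,
      (bcardF_core hd y ⟨j.val + h, by omega⟩ (by simp only; omega) (by simp only; omega)).2] at h1
    simp only [Nat.add_sub_cancel] at h1
    exact h1
  · ext j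
    have h1 := congrArg (fun l : Dir d => l.1.val) (hi ⟨j.val + h, by omega⟩)
    rw [(bcardF_core hd x ⟨j.val + h, by omega⟩ (by simp only; omega) (by simp only; omega)).1,
      (bcardF_core hd y ⟨j.val + h, by omega⟩ (by simp only; omega) (by simp only; omega)).1] at h1
    simp only [Nat.add_sub_cancel] at h1
    exact Nat.add_left_cancel h1

theorem bcardF_surj {d g h T : ℕ} (hg : 0 < g) (hd : 4 * h * g ≤ d)
    (v : Fin (2 * h + T) → Dir d) (hv : v ∈ BW d g h T) : ∃ x, bcardF hd x = v := by
  classical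
  unfold BW at hv
  rw [Finset.mem_filter] at hv
  obtain ⟨-, hal, hinj⟩ := hv
  have hlow : ∀ i : Fin (2 * h + T), i.val < h →
      (v i).2 = true ∧ (v i).1.val / (2 * g) = i.val := by
    intro i h1
    have h2 := hal i
    unfold Allow gr at h2
    rw [if_pos h1] at h2
    exact h2
  have hhigh : ∀ i : Fin (2 * h + T), h + T ≤ i.val →
      (v i).2 = true ∧ (v i).1.val / (2 * g) = i.val - T := by
    intro i h1
    have h2 := hal i
    unfold Allow gr at h2
    rw [if_neg (by omega), if_neg (by omega)] at h2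
    exact h2
  have hcore : ∀ i : Fin (2 * h + T), h ≤ i.val → i.val < h + T →
      4 * h * g ≤ (v i).1.val := by
    intro i h1 h3
    have h2 := hal i
    unfold Allow gr at h2
    rw [if_neg (by omega), if_pos h3] at h2
    exact h2
  have hinjE : Function.Injective (fun j : Fin T =>
      (⟨(v ⟨j.val + h, by omega⟩).1.val - 4 * h * g, by
        have h1 := (v ⟨j.val + h, by omega⟩).1.isLt
        have h2 := hcore ⟨j.val + h, by omega⟩ (by simp only; omega) (by simp only; omega)
        omega⟩ : Fin (d - 4 * h * g))) := by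
    intro j j' hjj
    have h1 := congrArg Fin.val hjj
    simp only at h1
    have h2 := hcore ⟨j.val + h, by omega⟩ (by simp only; omega) (by simp only; omega)
    have h3 := hcore ⟨j'.val + h, by omega⟩ (by simp only; omega) (by simp only; omega)
    have h4 : (v ⟨j.val + h, by omega⟩).1 = (v ⟨j'.val + h, by omega⟩).1 := Fin.ext (by omega)
    have h5 := congrArg Fin.val (hinj h4)
    simp only at h5
    exact Fin.ext (by omega)
  refine ⟨⟨fun c => ⟨(v (if hc : c.val < h then ⟨c.val, by omega⟩ else
      ⟨c.val + T, by omega⟩)).1.val % (2 * g), Nat.mod_lt _ (by omega)⟩,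
      fun j => (v ⟨j.val + h, by omega⟩).2, ⟨_, hinjE⟩⟩, ?_⟩
  funext i
  by_cases h1 : i.val < h
  · refine Prod.ext (Fin.ext ?_) ?_
    · rw [(bcardF_low hd _ i h1).1]
      simp only [dif_pos h1]
      have h2 := (hlow i h1).2
      have h3 := Nat.div_add_mod (v i).1.val (2 * g)
      rw [h2] at h3
      exact h3
    · rw [(bcardF_low hd _ i h1).2, (hlow i h1).1]
  · by_cases h2 : i.val < h + T
    · have h4 : (⟨i.val - h + h, by omega⟩ : Fin (2 * h + T)) = i := Fin.ext (by simp only; omega)
      refine Prod.ext (Fin.ext ?_) ?_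
      · rw [(bcardF_core hd _ i (by omega) h2).1]
        have h3 := hcore i (by omega) h2
        simp only [Function.Embedding.coeFn_mk]
        rw [h4]
        omega
      · rw [(bcardF_core hd _ i (by omega) h2).2]
        simp only
        rw [h4]
    · have h4 : (⟨i.val - T + T, by omega⟩ : Fin (2 * h + T)) = i := Fin.ext (by simp only; omega)
      refine Prod.ext (Fin.ext ?_) ?_
      · rw [(bcardF_high hd _ i (by omega)).1]
        have h5 : ¬ i.val - T < h := by omega
        simp only [dif_neg h5]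
        rw [h4]
        have h6 := (hhigh i (by omega)).2
        have h3 := Nat.div_add_mod (v i).1.val (2 * g)
        rw [h6] at h3
        exact h3
      · rw [(bcardF_high hd _ i (by omega)).2, (hhigh i (by omega)).1]

theorem bw_card {d g h T : ℕ} (hg : 0 < g) (hd : 4 * h * g ≤ d) :
    (BW d g h T).card = (2 * g) ^ (2 * h) * (2 ^ T * (d - 4 * h * g).descFactorial T) := by
  have h1 : (BW d g h T).card = (Finset.univ : Finset ((Fin (2 * h) → Fin (2 * g)) ×
      ((Fin T → Bool) × (Fin T ↪ Fin (d - 4 * h * g))))).card := by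
    refine (Finset.card_bij (fun x _ => bcardF hd x) (fun x _ => bcardF_mem hg hd x)
      (fun x _ y _ hxy => bcardF_inj hd hxy) fun v hv => ?_).symm
    obtain ⟨x, hx⟩ := bcardF_surj hg hd v hv
    exact ⟨x, Finset.mem_univ _, hx⟩
  rw [h1, Finset.card_univ, Fintype.card_prod, Fintype.card_prod, Fintype.card_embedding_eq,
    Fintype.card_fun, Fintype.card_fun]
  simp only [Fintype.card_fin, Fintype.card_bool]

end H42.CD
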