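import Pool.Agent.H42.CD.BCard

/-!
# Module BFIX: the counting tool for block words

If `M ≤ 2 g` and `M + 2 T ≤ 2 (d - 4 h g)` then `M ^ #S * #{v ∈ BW | v i = l i for i ∈ S} ≤ #BW`.
Induction on `S`: let `i ∉ S`. If `v ∈ BW` agrees with `l` on `insert i S`, replacing `v i` by another allowed
letter whose coordinate is not used by the other letters gives an element of `BW` which agrees with `l` on
`S`; there are at least `M` choices: for a drift position the `2 g` letters of its group `c < 2h`
(coordinates `2 g c ≤ a < 2 g (c+1) ≤ 4 h g ≤ d`; no other position uses this group), for a core position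
the `2 (d - 4 h g)` neutral letters minus the at most `2 (T - 1)` with a coordinate used by another core
letter. The map `(v, new letter) ↦ new word` (`Function.update v i new`) is injective since `v i = l i` is known.
So `M * #(insert i S) ≤ #S-set`.
-/

open MeasureTheory Set Filter
open scoped ENNReal Topology

namespace H42.CD

theorem mem_bw {d g h T : ℕ} {v : Fin (2 * h + T) → Dir d} :
    v ∈ BW d g h T ↔ (∀ i, Allow g h T i.val (v i)) ∧ ∀ i j, (v i).1 = (v j).1 → i = j := by
  classical
  unfold BW
  rw [Finset.mem_filter]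
  exact ⟨fun hv => ⟨hv.2.1, fun i j hij => hv.2.2 hij⟩,
    fun hv => ⟨Finset.mem_univ _, hv.1, fun i j hij => hv.2 i j hij⟩⟩

open Classical in
/-- letters by which the letter at position `i` can be replaced -/
noncomputable def bfixC {d : ℕ} (g h T : ℕ) (v : Fin (2 * h + T) → Dir d)
    (i : Fin (2 * h + T)) : Finset (Dir d) :=
  Finset.univ.filter fun l' => Allow g h T i.val l' ∧ ∀ j, j ≠ i → (v j).1 ≠ l'.1

theorem bfix_drift {d g h T c : ℕ} (hg : 0 < g) (h2 : 4 * h * g ≤ d)
    {v : Fin (2 * h + T) → Dir d} (hv : v ∈ BW d g h T) (i : Fin (2 * h + T))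
    (hi : gr h T i.val = some c) (hc : c < 2 * h) (hcore : ¬ (h ≤ i.val ∧ i.val < h + T)) :
    2 * g ≤ (bfixC g h T v i).card := by
  classical
  let f : Fin (2 * g) → Dir d := fun r =>
    (⟨2 * g * c + r.val, lt_of_lt_of_le (bcard_bd hc r.isLt) h2⟩, true)
  have hf : Function.Injective f := by
    intro r r' hrr
    have h3 : 2 * g * c + r.val = 2 * g * c + r'.val := congrArg (fun l : Dir d => l.1.val) hrr
    exact Fin.ext (Nat.add_left_cancel h3)
  have h4 : (Finset.univ.image f).card = 2 * g := by
    rw [Finset.card_image_of_injective _ hf, Finset.card_univ, Fintype.card_fin]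
  rw [← h4]
  refine Finset.card_le_card fun l' hl' => ?_
  obtain ⟨r, -, rfl⟩ := Finset.mem_image.1 hl'
  unfold bfixC
  rw [Finset.mem_filter]
  have hal : Allow g h T i.val (f r) := by
    unfold Allow
    rw [hi]
    exact ⟨rfl, bcard_div r.isLt⟩
  refine ⟨Finset.mem_univ _, hal, fun j hji hj => ?_⟩
  rcases bcard_same hg ((mem_bw.1 hv).1 j) hal hj with h5 | ⟨-, -, h6, h7⟩
  · exact hji h5
  · exact hcore ⟨h6, h7⟩

theorem bfix_core {d g h T M : ℕ} (hg : 0 < g) (h2 : 4 * h * g ≤ d)
    (h3 : M + 2 * T ≤ 2 * (d - 4 * h * g))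
    {v : Fin (2 * h + T) → Dir d} (hv : v ∈ BW d g h T) (i : Fin (2 * h + T))
    (h4 : h ≤ i.val) (h5 : i.val < h + T) : M ≤ (bfixC g h T v i).card := by
  classical
  let f : Fin (d - 4 * h * g) × Bool → Dir d := fun r => (⟨4 * h * g + r.1.val, by
    have := r.1.isLt
    omega⟩, r.2)
  have hf : Function.Injective f := by
    intro r r' hrr
    have h6 : 4 * h * g + r.1.val = 4 * h * g + r'.1.val :=
      congrArg (fun l : Dir d => l.1.val) hrr
    have h7 : r.2 = r'.2 := congrArg (fun l : Dir d => l.2) hrr
    exact Prod.ext (Fin.ext (Nat.add_left_cancel h6)) h7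
  let e : Fin T × Bool → Dir d := fun r => ((v ⟨h + r.1.val, by omega⟩).1, r.2)
  have h8 : (Finset.univ.image f).card = 2 * (d - 4 * h * g) := by
    rw [Finset.card_image_of_injective _ hf, Finset.card_univ, Fintype.card_prod,
      Fintype.card_fin, Fintype.card_bool, mul_comm]
  have h9 : (Finset.univ.image e).card ≤ 2 * T := by
    refine le_trans Finset.card_image_le ?_
    rw [Finset.card_univ, Fintype.card_prod, Fintype.card_fin, Fintype.card_bool, mul_comm]
  have h10 : (Finset.univ.image f \ Finset.univ.image e).card ≤ (bfixC g h T v i).card := by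
    refine Finset.card_le_card fun l' hl' => ?_
    rw [Finset.mem_sdiff] at hl'
    obtain ⟨hl1, hl2⟩ := hl'
    obtain ⟨r, -, rfl⟩ := Finset.mem_image.1 hl1
    unfold bfixC
    rw [Finset.mem_filter]
    have hal : Allow g h T i.val (f r) := by
      unfold Allow gr
      rw [if_neg (by omega), if_pos h5]
      exact Nat.le_add_right _ _
    refine ⟨Finset.mem_univ _, hal, fun j hji hj => ?_⟩
    rcases bcard_same hg ((mem_bw.1 hv).1 j) hal hj with h5 | ⟨h6, h7, -, -⟩
    · exact hji h5
    · apply hl2
      refine Finset.mem_image.2 ⟨(⟨j.val - h, by omega⟩, (f r).2), Finset.mem_univ _, ?_⟩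
      refine Prod.ext ?_ rfl
      have h11 : (⟨h + (j.val - h), by omega⟩ : Fin (2 * h + T)) = j :=
        Fin.ext (by simp only; omega)
      change (v ⟨h + (j.val - h), by omega⟩).1 = (f r).1
      rw [h11]
      exact hj
  have h12 := Finset.le_card_sdiff (Finset.univ.image e) (Finset.univ.image f)
  omega

theorem bfix_choice {d g h T M : ℕ} (hg : 0 < g) (h1 : M ≤ 2 * g) (h2 : 4 * h * g ≤ d)
    (h3 : M + 2 * T ≤ 2 * (d - 4 * h * g)) {v : Fin (2 * h + T) → Dir d}
    (hv : v ∈ BW d g h T) (i : Fin (2 * h + T)) : M ≤ (bfixC g h T v i).card := by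
  by_cases h4 : i.val < h
  · refine le_trans h1 (bfix_drift (c := i.val) hg h2 hv i ?_ (by omega) (by omega))
    unfold gr
    rw [if_pos h4]
  · by_cases h5 : i.val < h + T
    · exact bfix_core hg h2 h3 hv i (by omega) h5
    · refine le_trans h1 (bfix_drift (c := i.val - T) hg h2 hv i ?_ (by omega) (by omega))
      unfold gr
      rw [if_neg h4, if_neg h5]

open Classical in
theorem bfix_step {d g h T M : ℕ} (h1 : M ≤ 2 * g) (h2 : 4 * h * g ≤ d)
    (h3 : M + 2 * T ≤ 2 * (d - 4 * h * g)) (S : Finset (Fin (2 * h + T)))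
    (l : Fin (2 * h + T) → Dir d) (i : Fin (2 * h + T)) (hi : i ∉ S) :
    M * ((BW d g h T).filter fun v => ∀ j ∈ insert i S, v j = l j).card ≤
      ((BW d g h T).filter fun v => ∀ j ∈ S, v j = l j).card := by
  rcases Nat.eq_zero_or_pos g with hg | hg
  · have hM : M = 0 := by omega
    rw [hM, zero_mul]
    exact Nat.zero_le _
  have h4 : M * ((BW d g h T).filter fun v => ∀ j ∈ insert i S, v j = l j).card ≤
      (((BW d g h T).filter fun v => ∀ j ∈ insert i S, v j = l j).sigma
        fun v => bfixC g h T v i).card := by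
    rw [Finset.card_sigma, mul_comm, ← smul_eq_mul]
    refine Finset.card_nsmul_le_sum _ _ _ fun v hv => ?_
    exact bfix_choice hg h1 h2 h3 (Finset.mem_filter.1 hv).1 i
  refine le_trans h4 (Finset.card_le_card_of_injOn
    (fun x => Function.update x.1 i x.2) ?_ ?_)
  · rintro ⟨v, l'⟩ hx
    rw [Finset.mem_coe, Finset.mem_sigma] at hx
    obtain ⟨hv, hl'⟩ := hx
    simp only at hv hl'
    rw [Finset.mem_filter] at hv
    unfold bfixC at hl'
    rw [Finset.mem_filter] at hl'
    obtain ⟨hv1, hv2⟩ := hv
    obtain ⟨-, hl1, hl2⟩ := hl'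
    rw [mem_bw] at hv1
    rw [Finset.mem_coe, Finset.mem_filter, mem_bw]
    simp only
    refine ⟨⟨fun j => ?_, fun j k hjk => ?_⟩, fun j hj => ?_⟩
    · by_cases hji : j = i
      · subst hji
        rw [Function.update_self]
        exact hl1
      · rw [Function.update_of_ne hji]
        exact hv1.1 j
    · by_cases hji : j = i
      · by_cases hki : k = i
        · rw [hji, hki]
        · rw [hji, Function.update_self, Function.update_of_ne hki] at hjk
          exact absurd hjk.symm (hl2 k hki)
      · by_cases hki : k = i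
        · rw [hki, Function.update_self, Function.update_of_ne hji] at hjk
          exact absurd hjk (hl2 j hji)
        · rw [Function.update_of_ne hji, Function.update_of_ne hki] at hjk
          exact hv1.2 j k hjk
    · have hji : j ≠ i := fun h => hi (h ▸ hj)
      rw [Function.update_of_ne hji]
      exact hv2 j (Finset.mem_insert_of_mem hj)
  · rintro ⟨v, l'⟩ hx ⟨v', l''⟩ hx' hxx
    rw [Finset.mem_coe, Finset.mem_sigma] at hx hx'
    have hv := (Finset.mem_filter.1 hx.1).2 i (Finset.mem_insert_self _ _)
    have hv' := (Finset.mem_filter.1 hx'.1).2 i (Finset.mem_insert_self _ _)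
    simp only at hv hv' hxx
    have h5 : l' = l'' := by
      have := congrFun hxx i
      rwa [Function.update_self, Function.update_self] at this
    have h6 : v = v' := by
      funext j
      by_cases hji : j = i
      · rw [hji, hv, hv']
      · have := congrFun hxx j
        rwa [Function.update_of_ne hji, Function.update_of_ne hji] at this
    subst h5 h6
    rfl

open Classical in
theorem card_fix {d g h T M : ℕ} (h1 : M ≤ 2 * g) (h2 : 4 * h * g ≤ d)
    (h3 : M + 2 * T ≤ 2 * (d - 4 * h * g)) (S : Finset (Fin (2 * h + T)))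
    (l : Fin (2 * h + T) → Dir d) :
    M ^ S.card * ((BW d g h T).filter fun v => ∀ i ∈ S, v i = l i).card ≤ (BW d g h T).card := by
  induction S using Finset.induction_on with
  | empty =>
    rw [Finset.card_empty, pow_zero, one_mul]
    exact Finset.card_filter_le _ _
  | insert i S hi ih =>
    rw [Finset.card_insert_of_notMem hi, pow_succ, mul_assoc]
    exact le_trans (Nat.mul_le_mul_left _ (bfix_step h1 h2 h3 S l i hi)) ih

end H42.CD
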