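import Pool.Agent.H42.CD.BFix

/-!
# Module BGEO: geometry of block words

`τ = 2h + T`. For `v ∈ BW d g h T` the letters `v i` have distinct coordinates; `lev (stp (v i)) = 1` for drift
positions (`i < h` or `h + T ≤ i`; the coordinate is `< 4 h g` since `l.1.val / (2 g) = c < 2 h`) and `0` for
core positions. So `lev (bpos v i) = min i h + (i - (h+T))` for `i ≤ τ`, and `dist1 (bpos v i) (bpos v j) = j - i`
for `i ≤ j ≤ τ` (the difference is a sum of unit vectors with distinct coordinates).
`prv_allow`: the last letter of a block word is allowed at the last position.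
`ext_ok`: a letter `p` allowed at the last position is in the last group, which is not used by the other
positions.
`start_zero`, `start_succ`, `lev_start`: immediate from the definitions.
-/

open MeasureTheory Set Filter
open scoped ENNReal Topology

namespace H42.CD

variable {d g h T : ℕ}

theorem bpos_zero {n : ℕ} (v : Fin n → Dir d) : bpos v 0 = 0 := by
  simp [bpos]

theorem bgeo_sum_succ {n : ℕ} (f : Fin n → V d) (i : Fin n) :
    (∑ j : Fin n, if j.val < i.val + 1 then f j else 0) =
      (∑ j : Fin n, if j.val < i.val then f j else 0) + f i := by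
  have h : ∀ j : Fin n, (if j.val < i.val + 1 then f j else 0) =
      (if j.val < i.val then f j else 0) + (if j = i then f j else 0) := by
    intro j
    by_cases h1 : j.val < i.val
    · have h2 : j ≠ i := fun h => by rw [h] at h1; exact lt_irrefl _ h1
      rw [if_pos h1, if_neg h2, if_pos (by omega), add_zero]
    · by_cases h2 : j = i
      · subst h2
        rw [if_pos (by omega), if_neg (lt_irrefl _), if_pos rfl, zero_add]
      · have h3 : ¬ j.val < i.val + 1 := fun h => h2 (Fin.ext (by omega))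
        rw [if_neg h3, if_neg h1, if_neg h2, add_zero]
  rw [Finset.sum_congr rfl fun j _ => h j, Finset.sum_add_distrib,
    Finset.sum_ite_eq' Finset.univ i f, if_pos (Finset.mem_univ _)]

theorem bpos_succ {n : ℕ} (v : Fin n → Dir d) (i : Fin n) :
    bpos v (i.val + 1) = bpos v i + stp (v i) :=
  bgeo_sum_succ (fun j => stp (v j)) i

theorem bpos_last {n : ℕ} (v : Fin n → Dir d) : bpos v n = disp v := by
  unfold bpos disp
  exact Finset.sum_congr rfl fun j _ => if_pos j.isLt

theorem bgeo_apply_eq {n : ℕ} (v : Fin n → Dir d) {i j : ℕ} (hij : i ≤ j) (hj : j ≤ n)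
    (a : Fin d) (ha : ∀ k : Fin n, i ≤ k.val → k.val < j → (v k).1 ≠ a) :
    bpos v i a = bpos v j a := by
  induction j, hij using Nat.le_induction with
  | base => rfl
  | succ j hij ih =>
    have h1 : bpos v (j + 1) = bpos v j + stp (v ⟨j, hj⟩) := bpos_succ v ⟨j, hj⟩
    have h2 : (v ⟨j, hj⟩).1 ≠ a := ha ⟨j, hj⟩ hij (Nat.lt_succ_self j)
    rw [ih (by omega) fun k hk hk' => ha k hk (by omega), h1, Pi.add_apply, stp_apply,
      if_neg h2.symm, add_zero]

theorem bgeo_dist_add (x y : V d) (l : Dir d) (h : x l.1 = y l.1) :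
    dist1 x (y + stp l) = dist1 x y + 1 := by
  unfold dist1
  rw [← Finset.add_sum_erase _ _ (Finset.mem_univ l.1),
    ← Finset.add_sum_erase (Finset.univ) (fun a => (x a - y a).natAbs) (Finset.mem_univ l.1)]
  have h1 : (x l.1 - (y + stp l) l.1).natAbs = 1 := by
    rw [Pi.add_apply, stp_apply, if_pos rfl, h]
    split_ifs <;> simp
  have h2 : (x l.1 - y l.1).natAbs = 0 := by rw [h]; simp
  have h3 : ∑ a ∈ Finset.univ.erase l.1, (x a - (y + stp l) a).natAbs =
      ∑ a ∈ Finset.univ.erase l.1, (x a - y a).natAbs := by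
    refine Finset.sum_congr rfl fun a ha => ?_
    rw [Pi.add_apply, stp_apply, if_neg (Finset.ne_of_mem_erase ha), add_zero]
  simp only [h1, h2, h3]
  omega

theorem dist_bpos {v : Fin (2 * h + T) → Dir d} (hv : v ∈ BW d g h T) {i j : ℕ} (hij : i ≤ j)
    (hj : j ≤ 2 * h + T) : dist1 (bpos v i) (bpos v j) = j - i := by
  induction j, hij using Nat.le_induction with
  | base => simp
  | succ j hij ih =>
    have h1 : bpos v (j + 1) = bpos v j + stp (v ⟨j, hj⟩) := bpos_succ v ⟨j, hj⟩
    rw [h1, bgeo_dist_add, ih (by omega)]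
    · omega
    · refine bgeo_apply_eq v hij (by omega) _ fun k hk hk' hkj => ?_
      have h2 := (mem_bw.1 hv).2 k ⟨j, hj⟩ hkj
      rw [h2] at hk'
      exact lt_irrefl _ hk'

theorem lev_add (x y : V d) : lev g h (x + y) = lev g h x + lev g h y := by
  unfold lev
  rw [← Finset.sum_add_distrib]
  refine Finset.sum_congr rfl fun a _ => ?_
  split_ifs <;> simp

theorem bgeo_lt (hg : 0 < g) {a c : ℕ} (hc : c < 2 * h) (ha : a / (2 * g) = c) :
    a < 4 * h * g := by
  have h1 : a < (c + 1) * (2 * g) := by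
    rw [← Nat.div_lt_iff_lt_mul (by omega)]
    omega
  have h2 : (c + 1) * (2 * g) ≤ (2 * h) * (2 * g) := Nat.mul_le_mul_right _ hc
  have h3 : (2 * h) * (2 * g) = 4 * h * g := by ring
  omega

theorem bgeo_allow_drift {i c : ℕ} {l : Dir d} (hl : Allow g h T i l) (hc : gr h T i = some c) :
    l.2 = true ∧ l.1.val / (2 * g) = c := by
  unfold Allow at hl
  rw [hc] at hl
  exact hl

theorem bgeo_allow_core {i : ℕ} {l : Dir d} (hl : Allow g h T i l) (hc : gr h T i = none) :
    4 * h * g ≤ l.1.val := by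
  unfold Allow at hl
  rw [hc] at hl
  exact hl

theorem bgeo_gr_low {i : ℕ} (hi : i < h) : gr h T i = some i := by
  unfold gr; rw [if_pos hi]

theorem bgeo_gr_core {i : ℕ} (hi : ¬ i < h) (hi' : i < h + T) : gr h T i = none := by
  unfold gr; rw [if_neg hi, if_pos hi']

theorem bgeo_gr_high {i : ℕ} (hi' : ¬ i < h + T) : gr h T i = some (i - T) := by
  unfold gr; rw [if_neg (by omega), if_neg hi']

theorem bgeo_lev_stp (l : Dir d) :
    lev g h (stp l) = if l.1.val < 4 * h * g then (if l.2 then 1 else -1) else 0 := by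
  unfold lev
  rw [Finset.sum_eq_single l.1]
  · rw [stp_apply, if_pos rfl]
  · intro a _ ha
    rw [stp_apply, if_neg ha]
    simp
  · intro h; exact absurd (Finset.mem_univ _) h

theorem lev_stp (hg : 0 < g) {i : ℕ} (hi : i < 2 * h + T) {l : Dir d} (hl : Allow g h T i l) :
    lev g h (stp l) = if i < h ∨ h + T ≤ i then 1 else 0 := by
  rw [bgeo_lev_stp]
  by_cases h1 : i < h
  · obtain ⟨h2, h3⟩ := bgeo_allow_drift hl (bgeo_gr_low h1)
    rw [if_pos (bgeo_lt hg (by omega) h3), h2, if_pos (Or.inl h1)]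
    simp
  · by_cases h4 : i < h + T
    · have h5 := bgeo_allow_core hl (bgeo_gr_core h1 h4)
      rw [if_neg (by omega), if_neg (by omega)]
    · obtain ⟨h2, h3⟩ := bgeo_allow_drift hl (bgeo_gr_high h4)
      rw [if_pos (bgeo_lt hg (by omega) h3), h2, if_pos (Or.inr (by omega))]
      simp

theorem lev_zero : lev g h (0 : V d) = 0 := by
  unfold lev
  refine Finset.sum_eq_zero fun a _ => ?_
  simp

theorem lev_bpos (hg : 0 < g) {v : Fin (2 * h + T) → Dir d} (hv : v ∈ BW d g h T) {i : ℕ}
    (hi : i ≤ 2 * h + T) : lev g h (bpos v i) = ((min i h + (i - (h + T)) : ℕ) : ℤ) := by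
  induction i with
  | zero => rw [bpos_zero, lev_zero]; simp
  | succ i ih =>
    have h1 : bpos v (i + 1) = bpos v i + stp (v ⟨i, hi⟩) := bpos_succ v ⟨i, hi⟩
    rw [h1, lev_add, ih (by omega), lev_stp hg (i := i) hi ((mem_bw.1 hv).1 ⟨i, hi⟩)]
    split_ifs with h2
    · rw [show (1 : ℤ) = ((1 : ℕ) : ℤ) from rfl, ← Nat.cast_add, Nat.cast_inj]
      omega
    · rw [add_zero, Nat.cast_inj]
      omega

theorem start_zero {n N : ℕ} (β : Fin N → Fin n → Dir d) : start β 0 = 0 := by
  simp [start]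

theorem start_succ {n N : ℕ} (β : Fin N → Fin n → Dir d) (b : Fin N) :
    start β (b.val + 1) = start β b + disp (β b) :=
  bgeo_sum_succ (fun j => disp (β j)) b

theorem lev_start (hg : 0 < g) {N : ℕ} {β : Fin N → Fin (2 * h + T) → Dir d}
    (hβ : ∀ b, β b ∈ BW d g h T) {b : ℕ} (hb : b ≤ N) :
    lev g h (start β b) = ((2 * h * b : ℕ) : ℤ) := by
  induction b with
  | zero => rw [start_zero, lev_zero]; simp
  | succ b ih =>
    have h1 : start β (b + 1) = start β b + disp (β ⟨b, hb⟩) := start_succ β ⟨b, hb⟩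
    rw [h1, lev_add, ih (by omega), ← bpos_last, lev_bpos hg (hβ _) le_rfl, ← Nat.cast_add,
      Nat.cast_inj]
    have h2 : min (2 * h + T) h = h := by omega
    have h3 : 2 * h + T - (h + T) = h := by omega
    rw [h2, h3]
    ring

theorem prv_allow (hh : 1 ≤ h) {N : ℕ} {β : Fin N → Fin (2 * h + T) → Dir d}
    (hβ : ∀ b, β b ∈ BW d g h T) {p : Dir d} (hp : Allow g h T (2 * h + T - 1) p) (b : Fin N) :
    Allow g h T (2 * h + T - 1) (prv p β b) := by
  unfold prv
  split_ifs with hb
  · exact (mem_bw.1 (hβ ⟨b.val - 1, by omega⟩)).1 ⟨2 * h + T - 1, by omega⟩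
  · exact hp

theorem ext_ok (hg : 0 < g) (hh : 1 ≤ h) {p : Dir d} (hp : Allow g h T (2 * h + T - 1) p)
    {v : Fin (2 * h + T) → Dir d} (hv : v ∈ BW d g h T) (i : Fin (2 * h + T))
    (hi : i.val + 1 < 2 * h + T) : p.1 ≠ (v i).1 := by
  intro hpi
  obtain ⟨-, h1⟩ := bgeo_allow_drift hp (bgeo_gr_high (by omega))
  have h2 : 2 * h + T - 1 - T = 2 * h - 1 := by omega
  rw [h2, hpi] at h1
  have h3 := (mem_bw.1 hv).1 i
  by_cases h4 : i.val < h
  · obtain ⟨-, h5⟩ := bgeo_allow_drift h3 (bgeo_gr_low h4)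
    omega
  · by_cases h6 : i.val < h + T
    · have h5 := bgeo_allow_core h3 (bgeo_gr_core h4 h6)
      have h7 : (v i).1.val < 4 * h * g := bgeo_lt hg (by omega) h1
      omega
    · obtain ⟨-, h5⟩ := bgeo_allow_drift h3 (bgeo_gr_high h6)
      omega

end H42.CD
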