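import Pool.Agent.H42.CD.BAdm
import Pool.Agent.H42.CD.BGeo

/-!
# Tools for the modules BMassA and BMassB: averages over pairs of block words
-/

open MeasureTheory Set Filter
open scoped ENNReal Topology

namespace H42.CD.BM

section avg

variable {d n : ℕ} {B : Finset (Fin n → Dir d)}

lemma avg_mono {f f' : (Fin n → Dir d) → (Fin n → Dir d) → ℝ}
    (h : ∀ v ∈ B, ∀ v' ∈ B, f v v' ≤ f' v v') : avg B f ≤ avg B f' := by
  unfold avg
  refine div_le_div_of_nonneg_right ?_ (by positivity)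
  exact Finset.sum_le_sum fun v hv => Finset.sum_le_sum fun v' hv' => h v hv v' hv'

lemma avg_add' (f f' : (Fin n → Dir d) → (Fin n → Dir d) → ℝ) :
    avg B (fun v v' => f v v' + f' v v') = avg B f + avg B f' := by
  unfold avg
  rw [← add_div]
  congr 1
  rw [← Finset.sum_add_distrib]
  exact Finset.sum_congr rfl fun v _ => Finset.sum_add_distrib

lemma avg_sum' {ι : Type*} (s : Finset ι) (f : ι → (Fin n → Dir d) → (Fin n → Dir d) → ℝ) :
    avg B (fun v v' => ∑ i ∈ s, f i v v') = ∑ i ∈ s, avg B (f i) := by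
  unfold avg
  rw [← Finset.sum_div]
  congr 1
  have h : ∀ v ∈ B, ∑ v' ∈ B, ∑ i ∈ s, f i v v' = ∑ i ∈ s, ∑ v' ∈ B, f i v v' :=
    fun v _ => Finset.sum_comm
  rw [Finset.sum_congr rfl h, Finset.sum_comm]

lemma avg_mul' (c : ℝ) (f : (Fin n → Dir d) → (Fin n → Dir d) → ℝ) :
    avg B (fun v v' => c * f v v') = c * avg B f := by
  unfold avg
  rw [← mul_div_assoc, Finset.mul_sum]
  congr 1
  exact Finset.sum_congr rfl fun v _ => (Finset.mul_sum _ _ _).symm

lemma avg_le' {f : (Fin n → Dir d) → (Fin n → Dir d) → ℝ} {c : ℝ} {k : (Fin n → Dir d) → ℝ}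
    (hc : 0 ≤ c) (h1 : ∀ v' ∈ B, ∑ v ∈ B, f v v' ≤ k v' * B.card)
    (h2 : ∑ v' ∈ B, k v' ≤ c * B.card) : avg B f ≤ c := by
  unfold avg
  rw [Finset.sum_comm]
  rcases Nat.eq_zero_or_pos B.card with h0 | h0
  · rw [h0]
    simpa using hc
  · have hB : (0 : ℝ) < B.card := Nat.cast_pos.2 h0
    rw [div_le_iff₀ (by positivity)]
    calc ∑ v' ∈ B, ∑ v ∈ B, f v v' ≤ ∑ v' ∈ B, k v' * B.card := Finset.sum_le_sum h1
      _ = (∑ v' ∈ B, k v') * B.card := by rw [Finset.sum_mul]
      _ ≤ c * B.card * B.card := by gcongr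
      _ = c * (B.card : ℝ) ^ 2 := by ring

lemma avg_const_le {c : ℝ} (hc : 0 ≤ c) : avg B (fun _ _ => c) ≤ c := by
  refine avg_le' (k := fun _ => c) hc (fun v' _ => ?_) ?_
  · simp [mul_comm]
  · simp [mul_comm]

end avg

variable {h T d g : ℕ} {c0 : ℝ}

/-- position `i` is shared -/
def Shr {n : ℕ} (Δ : V d) (v v' : Fin n → Dir d) (i : Fin n) : Prop := bedge Δ v i ∈ bedges 0 v'

open Classical in
/-- letters of `v'` and their reverses -/
noncomputable def Ls {n : ℕ} (v' : Fin n → Dir d) : Finset (Dir d) :=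
  Finset.univ.image v' ∪ Finset.univ.image (fun j => rev (v' j))

lemma card_Ls {n : ℕ} (v' : Fin n → Dir d) : (Ls v').card ≤ 2 * n := by
  classical
  unfold Ls
  refine (Finset.card_union_le _ _).trans ?_
  have h1 : (Finset.univ.image v').card ≤ n := by
    simpa using Finset.card_image_le (s := (Finset.univ : Finset (Fin n))) (f := v')
  have h2 : (Finset.univ.image (fun j => rev (v' j))).card ≤ n := by
    simpa using Finset.card_image_le (s := (Finset.univ : Finset (Fin n))) (f := fun j => rev (v' j))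
  omega

lemma shr_cases {n : ℕ} {Δ : V d} {v v' : Fin n → Dir d} {i : Fin n} (hs : Shr Δ v v' i) :
    ∃ j : Fin n, (Δ + bpos v i = bpos v' j ∧ v i = v' j) ∨
      (bpos v' j = Δ + bpos v i + stp (v i) ∧ v' j = rev (v i)) := by
  unfold Shr bedges at hs
  rw [Finset.mem_image] at hs
  obtain ⟨j, _, hj⟩ := hs
  unfold bedge at hj
  rw [eq_comm, ed_eq_iff] at hj
  refine ⟨j, ?_⟩
  rcases hj with ⟨h1, h2⟩ | ⟨h1, h2⟩
  · left
    rw [zero_add] at h1
    exact ⟨h1, h2⟩
  · right
    rw [zero_add] at h1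
    exact ⟨h1, h2⟩

lemma shr_mem {n : ℕ} {Δ : V d} {v v' : Fin n → Dir d} {i : Fin n} (hs : Shr Δ v v' i) :
    v i ∈ Ls v' := by
  classical
  obtain ⟨j, ⟨_, h2⟩ | ⟨_, h2⟩⟩ := shr_cases hs
  · unfold Ls
    rw [Finset.mem_union]
    left
    rw [h2]
    exact Finset.mem_image_of_mem _ (Finset.mem_univ _)
  · unfold Ls
    rw [Finset.mem_union]
    right
    rw [Finset.mem_image]
    refine ⟨j, Finset.mem_univ _, ?_⟩
    rw [h2, rev_rev]

lemma shr_crd {n : ℕ} {Δ : V d} {v v' : Fin n → Dir d} {i : Fin n} (hs : Shr Δ v v' i) :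
    ∃ j, (v' j).1 = (v i).1 := by
  obtain ⟨j, ⟨_, h2⟩ | ⟨_, h2⟩⟩ := shr_cases hs
  · exact ⟨j, by rw [h2]⟩
  · exact ⟨j, by rw [h2, rev_fst]⟩

lemma bpos_eq_zero {n : ℕ} (v : Fin n → Dir d) (i : ℕ) {a : Fin d} (ha : ∀ j, (v j).1 ≠ a) :
    bpos v i a = 0 := by
  unfold bpos
  rw [Finset.sum_apply]
  refine Finset.sum_eq_zero fun j _ => ?_
  split_ifs
  · rw [stp_apply, if_neg]
    exact fun h => ha j h.symm
  · rfl

/-- if an edge is shared and the starting points differ, then a letter has its coordinate in the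
support of the difference -/
lemma shr_supp {n : ℕ} {Δ : V d} (hΔ : Δ ≠ 0) {v v' : Fin n → Dir d} {i : Fin n}
    (hs : Shr Δ v v' i) : (∃ j, Δ (v j).1 ≠ 0) ∨ ∃ j, Δ (v' j).1 ≠ 0 := by
  by_contra hcon
  push Not at hcon
  obtain ⟨hv, hv'⟩ := hcon
  obtain ⟨a, ha⟩ : ∃ a, Δ a ≠ 0 := by
    by_contra h0
    push Not at h0
    exact hΔ (funext h0)
  have h1 : ∀ j, (v j).1 ≠ a := fun j hj => ha (hj ▸ hv j)
  have h2 : ∀ j, (v' j).1 ≠ a := fun j hj => ha (hj ▸ hv' j)
  obtain ⟨j, ⟨h3, _⟩ | ⟨h3, _⟩⟩ := shr_cases hs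
  · have h4 := congrFun h3 a
    rw [Pi.add_apply, bpos_eq_zero v _ h1, bpos_eq_zero v' _ h2, add_zero] at h4
    exact ha h4
  · have h4 := congrFun h3 a
    have h5 : stp (v i) a = 0 := by
      rw [stp_apply, if_neg]
      exact fun h => h1 i h.symm
    rw [Pi.add_apply, Pi.add_apply, bpos_eq_zero v _ h1, bpos_eq_zero v' _ h2, h5, add_zero,
      add_zero] at h4
    exact ha h4.symm

open Classical in
/-- letters whose coordinate is in the support of `Δ` -/
noncomputable def SL (Δ : V d) : Finset (Dir d) := Finset.univ.filter fun l => Δ l.1 ≠ 0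

lemma mem_SL {Δ : V d} {l : Dir d} : l ∈ SL Δ ↔ Δ l.1 ≠ 0 := by
  classical
  unfold SL
  simp

lemma card_SL (Δ : V d) : (SL Δ).card ≤ 2 * nrm Δ := by
  classical
  have h1 : SL Δ ⊆ (Finset.univ.filter fun a : Fin d => Δ a ≠ 0) ×ˢ (Finset.univ : Finset Bool) := by
    intro l hl
    rw [mem_SL] at hl
    simp [hl]
  have h2 : (Finset.univ.filter fun a : Fin d => Δ a ≠ 0).card ≤ nrm Δ := by
    show _ ≤ dist1 Δ 0
    unfold dist1
    rw [Finset.card_filter]
    refine Finset.sum_le_sum fun a _ => ?_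
    split_ifs with h
    · have : (Δ a - (0 : V d) a).natAbs ≠ 0 := by
        rw [Pi.zero_apply, sub_zero]
        exact Int.natAbs_ne_zero.2 h
      omega
    · exact Nat.zero_le _
  calc (SL Δ).card ≤ _ := Finset.card_le_card h1
    _ = (Finset.univ.filter fun a : Fin d => Δ a ≠ 0).card * 2 := by
        rw [Finset.card_product]
        simp
    _ ≤ 2 * nrm Δ := by omega

/-- the general counting lemma -/
lemma bw_cnt (ha : Adm h T c0 d g) (S : Finset (Fin (2 * h + T)))
    (A : Fin (2 * h + T) → Finset (Dir d)) :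
    g ^ S.card * ((BW d g h T).filter fun v => ∀ i ∈ S, v i ∈ A i).card
      ≤ (∏ i ∈ S, (A i).card) * (BW d g h T).card := by
  classical
  have hd : 0 < d := by
    obtain ⟨h1, h2, _⟩ := ha
    omega
  set l0 : Dir d := (⟨0, hd⟩, true) with hl0
  set I : Finset (Fin (2 * h + T) → Dir d) :=
    Fintype.piFinset fun i => if i ∈ S then A i else {l0} with hI
  have hcard : I.card = ∏ i ∈ S, (A i).card := by
    rw [hI, Fintype.card_piFinset]
    have h1 : ∀ i, (if i ∈ S then A i else {l0}).card = if i ∈ S then (A i).card else 1 := by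
      intro i
      split_ifs <;> simp
    simp only [h1]
    rw [Finset.prod_ite_mem, Finset.univ_inter]
  have hsub : ((BW d g h T).filter fun v => ∀ i ∈ S, v i ∈ A i)
      ⊆ I.biUnion fun l => (BW d g h T).filter fun v => ∀ i ∈ S, v i = l i := by
    intro v hv
    rw [Finset.mem_filter] at hv
    rw [Finset.mem_biUnion]
    refine ⟨fun i => if i ∈ S then v i else l0, ?_, ?_⟩
    · rw [hI, Fintype.mem_piFinset]
      intro i
      by_cases hi : i ∈ S
      · simp only [hi, if_true]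
        exact hv.2 i hi
      · simp [hi]
    · rw [Finset.mem_filter]
      refine ⟨hv.1, fun i hi => ?_⟩
      simp [hi]
  calc g ^ S.card * ((BW d g h T).filter fun v => ∀ i ∈ S, v i ∈ A i).card
      ≤ g ^ S.card * ∑ l ∈ I, ((BW d g h T).filter fun v => ∀ i ∈ S, v i = l i).card :=
        Nat.mul_le_mul_left _ ((Finset.card_le_card hsub).trans Finset.card_biUnion_le)
    _ = ∑ l ∈ I, g ^ S.card * ((BW d g h T).filter fun v => ∀ i ∈ S, v i = l i).card := by
        rw [Finset.mul_sum]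
    _ ≤ ∑ l ∈ I, (BW d g h T).card := Finset.sum_le_sum fun l _ => card_fix' ha S l
    _ = _ := by rw [Finset.sum_const, smul_eq_mul, hcard]

open Classical in
lemma bw_cnt_real (ha : Adm h T c0 d g) (S : Finset (Fin (2 * h + T)))
    (A : Fin (2 * h + T) → Finset (Dir d)) {K : ℝ} (hK : ∏ i ∈ S, ((A i).card : ℝ) ≤ K) :
    (((BW d g h T).filter fun v => ∀ i ∈ S, v i ∈ A i).card : ℝ)
      ≤ K / (g : ℝ) ^ S.card * (BW d g h T).card := by
  have hg : (0 : ℝ) < g := Nat.cast_pos.2 ha.1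
  have h1 := bw_cnt ha S A
  have h2 : (g : ℝ) ^ S.card * (((BW d g h T).filter fun v => ∀ i ∈ S, v i ∈ A i).card : ℝ)
      ≤ (∏ i ∈ S, ((A i).card : ℝ)) * (BW d g h T).card := by exact_mod_cast h1
  rw [div_mul_eq_mul_div, le_div_iff₀ (by positivity), mul_comm]
  exact h2.trans (by gcongr)

lemma prod_const_le {ι : Type*} (S : Finset ι) (f : ι → ℕ) {m : ℝ} (hf : ∀ i ∈ S, (f i : ℝ) ≤ m) :
    ∏ i ∈ S, (f i : ℝ) ≤ m ^ S.card := by
  rw [← Finset.prod_const]
  exact Finset.prod_le_prod (fun i _ => Nat.cast_nonneg _) hf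

open Classical in
lemma av_Pv' (ha : Adm h T c0 d g) (Δ : V d) (P : Finset (Fin (2 * h + T))) (A : Finset (Dir d))
    (j : Fin (2 * h + T)) :
    avg (BW d g h T) (fun v v' => if (∀ i ∈ P, Shr Δ v v' i) ∧ v' j ∈ A then 1 else 0)
      ≤ A.card / g * (2 * ((2 * h + T : ℕ) : ℝ) / g) ^ P.card := by
  have hg : (0 : ℝ) < g := Nat.cast_pos.2 ha.1
  refine avg_le' (k := fun v' => if v' j ∈ A then (2 * ((2 * h + T : ℕ) : ℝ) / g) ^ P.card else 0)
    (by positivity) (fun v' hv' => ?_) ?_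
  · by_cases hj : v' j ∈ A
    · simp only [hj, and_true, if_true]
      rw [Finset.sum_boole]
      calc (((BW d g h T).filter fun v => ∀ i ∈ P, Shr Δ v v' i).card : ℝ)
          ≤ (((BW d g h T).filter fun v => ∀ i ∈ P, v i ∈ Ls v').card : ℝ) := by
            refine Nat.cast_le.2 (Finset.card_le_card ?_)
            intro v hv
            rw [Finset.mem_filter] at hv ⊢
            exact ⟨hv.1, fun i hi => shr_mem (hv.2 i hi)⟩
        _ ≤ (2 * ((2 * h + T : ℕ) : ℝ)) ^ P.card / (g : ℝ) ^ P.card * (BW d g h T).card := by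
            refine bw_cnt_real ha P (fun _ => Ls v') (prod_const_le P _ fun i _ => ?_)
            exact_mod_cast card_Ls v'
        _ = _ := by rw [div_pow]
    · simp [hj]
  · rw [← Finset.sum_filter, Finset.sum_const, nsmul_eq_mul]
    have h1 := bw_cnt_real ha {j} (fun _ => A) (K := A.card) (by simp)
    simp only [Finset.mem_singleton, forall_eq, Finset.card_singleton, pow_one] at h1
    calc (((BW d g h T).filter fun v' => v' j ∈ A).card : ℝ) * (2 * ((2 * h + T : ℕ) : ℝ) / g) ^ P.card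
        ≤ ((A.card : ℝ) / g * (BW d g h T).card) * (2 * ((2 * h + T : ℕ) : ℝ) / g) ^ P.card := by
          gcongr
      _ = _ := by ring

open Classical in
lemma av_Pv (ha : Adm h T c0 d g) (Δ : V d) (P : Finset (Fin (2 * h + T))) (A : Finset (Dir d))
    {l : Fin (2 * h + T)} (hl : l ∉ P) :
    avg (BW d g h T) (fun v v' => if (∀ i ∈ P, Shr Δ v v' i) ∧ v l ∈ A then 1 else 0)
      ≤ A.card / g * (2 * ((2 * h + T : ℕ) : ℝ) / g) ^ P.card := by
  have hg : (0 : ℝ) < g := Nat.cast_pos.2 ha.1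
  refine avg_le' (k := fun _ => A.card / g * (2 * ((2 * h + T : ℕ) : ℝ) / g) ^ P.card)
    (by positivity) (fun v' hv' => ?_) ?_
  · rw [Finset.sum_boole]
    set A' : Fin (2 * h + T) → Finset (Dir d) := fun i => if i = l then A else Ls v' with hA'
    calc (((BW d g h T).filter fun v => (∀ i ∈ P, Shr Δ v v' i) ∧ v l ∈ A).card : ℝ)
        ≤ (((BW d g h T).filter fun v => ∀ i ∈ insert l P, v i ∈ A' i).card : ℝ) := by
          refine Nat.cast_le.2 (Finset.card_le_card ?_)
          intro v hv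
          rw [Finset.mem_filter] at hv ⊢
          refine ⟨hv.1, fun i hi => ?_⟩
          rcases Finset.mem_insert.1 hi with rfl | hi
          · simp only [hA', if_true]
            exact hv.2.2
          · have hil : i ≠ l := fun h => hl (h ▸ hi)
            simp only [hA', hil, if_false]
            exact shr_mem (hv.2.1 i hi)
      _ ≤ (A.card * (2 * ((2 * h + T : ℕ) : ℝ)) ^ P.card) / (g : ℝ) ^ (insert l P).card
            * (BW d g h T).card := by
          refine bw_cnt_real ha (insert l P) A' ?_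
          rw [Finset.prod_insert hl]
          have h1 : A' l = A := by simp [hA']
          rw [h1]
          refine mul_le_mul_of_nonneg_left (prod_const_le P _ fun i hi => ?_) (Nat.cast_nonneg _)
          have hil : i ≠ l := fun h => hl (h ▸ hi)
          simp only [hA', hil, if_false]
          exact_mod_cast card_Ls v'
      _ = _ := by
          rw [Finset.card_insert_of_notMem hl, div_pow, pow_succ]
          field_simp
  · rw [Finset.sum_const, nsmul_eq_mul, mul_comm]

open Classical in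
lemma av_P (ha : Adm h T c0 d g) (Δ : V d) (P : Finset (Fin (2 * h + T))) :
    avg (BW d g h T) (fun v v' => if ∀ i ∈ P, Shr Δ v v' i then 1 else 0)
      ≤ (2 * ((2 * h + T : ℕ) : ℝ) / g) ^ P.card := by
  have hg : (0 : ℝ) < g := Nat.cast_pos.2 ha.1
  refine avg_le' (k := fun _ => (2 * ((2 * h + T : ℕ) : ℝ) / g) ^ P.card)
    (by positivity) (fun v' hv' => ?_) ?_
  · rw [Finset.sum_boole]
    calc (((BW d g h T).filter fun v => ∀ i ∈ P, Shr Δ v v' i).card : ℝ)
          ≤ (((BW d g h T).filter fun v => ∀ i ∈ P, v i ∈ Ls v').card : ℝ) := by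
            refine Nat.cast_le.2 (Finset.card_le_card ?_)
            intro v hv
            rw [Finset.mem_filter] at hv ⊢
            exact ⟨hv.1, fun i hi => shr_mem (hv.2 i hi)⟩
        _ ≤ (2 * ((2 * h + T : ℕ) : ℝ)) ^ P.card / (g : ℝ) ^ P.card * (BW d g h T).card := by
            refine bw_cnt_real ha P (fun _ => Ls v') (prod_const_le P _ fun i _ => ?_)
            exact_mod_cast card_Ls v'
        _ = _ := by rw [div_pow]
  · rw [Finset.sum_const, nsmul_eq_mul, mul_comm]

open Classical in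
lemma av_c (ha : Adm h T c0 d g) (i j : Fin (2 * h + T)) :
    avg (BW d g h T) (fun v v' => if (v i).1 = (v' j).1 then 1 else 0) ≤ 2 / g := by
  have hg : (0 : ℝ) < g := Nat.cast_pos.2 ha.1
  refine avg_le' (k := fun _ => 2 / g) (by positivity) (fun v' hv' => ?_) ?_
  · rw [Finset.sum_boole]
    set A : Finset (Dir d) := {((v' j).1, true), ((v' j).1, false)} with hA
    have hAc : A.card ≤ 2 := Finset.card_le_two
    have h1 := bw_cnt_real ha {i} (fun _ => A) (K := 2) (by
      simp only [Finset.prod_singleton]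
      exact_mod_cast hAc)
    simp only [Finset.mem_singleton, forall_eq, Finset.card_singleton, pow_one] at h1
    refine le_trans (Nat.cast_le.2 (Finset.card_le_card ?_)) h1
    intro v hv
    rw [Finset.mem_filter] at hv ⊢
    refine ⟨hv.1, ?_⟩
    rw [hA, Finset.mem_insert, Finset.mem_singleton]
    rcases hb : (v i).2 with _ | _
    · right; exact Prod.ext hv.2 hb
    · left; exact Prod.ext hv.2 hb
  · rw [Finset.sum_const, nsmul_eq_mul, mul_comm]

/-- some letter is hit -/
def Hit {n : ℕ} (Δ : V d) (v v' : Fin n → Dir d) : Prop := ¬ NoHit Δ v v'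

open Classical in
lemma av_hit (ha : Adm h T c0 d g) (Δ : V d) :
    avg (BW d g h T) (fun v v' => if Hit Δ v v' then 1 else 0)
      ≤ (4 * ((2 * h + T : ℕ) : ℝ) * nrm Δ + 2 * ((2 * h + T : ℕ) : ℝ) ^ 2) / g := by
  have hg : (0 : ℝ) < g := Nat.cast_pos.2 ha.1
  have h1 : avg (BW d g h T) (fun v v' => if Hit Δ v v' then 1 else 0)
      ≤ avg (BW d g h T) (fun v v' =>
        (∑ i : Fin (2 * h + T), if (∀ i ∈ (∅ : Finset (Fin (2 * h + T))), Shr Δ v v' i) ∧ v i ∈ SL Δ
          then 1 else 0)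
        + ((∑ i : Fin (2 * h + T), if (∀ i ∈ (∅ : Finset (Fin (2 * h + T))), Shr Δ v v' i) ∧
          v' i ∈ SL Δ then 1 else 0)
        + ∑ p : Fin (2 * h + T) × Fin (2 * h + T), if (v p.1).1 = (v' p.2).1 then 1 else 0)) := by
    refine avg_mono fun v _ v' _ => ?_
    split_ifs with hh
    · have hn : ∀ (P : Prop) [Decidable P], (0 : ℝ) ≤ if P then 1 else 0 := by
        intro P _
        split_ifs <;> norm_num
      have hs1 : (0 : ℝ) ≤ ∑ i : Fin (2 * h + T),
          if (∀ i ∈ (∅ : Finset (Fin (2 * h + T))), Shr Δ v v' i) ∧ v i ∈ SL Δ then 1 else 0 :=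
        Finset.sum_nonneg fun i _ => hn _
      have hs2 : (0 : ℝ) ≤ ∑ i : Fin (2 * h + T),
          if (∀ i ∈ (∅ : Finset (Fin (2 * h + T))), Shr Δ v v' i) ∧ v' i ∈ SL Δ then 1 else 0 :=
        Finset.sum_nonneg fun i _ => hn _
      have hs3 : (0 : ℝ) ≤ ∑ p : Fin (2 * h + T) × Fin (2 * h + T),
          if (v p.1).1 = (v' p.2).1 then 1 else 0 :=
        Finset.sum_nonneg fun i _ => hn _
      unfold Hit NoHit at hh
      rw [not_and_or, not_and_or] at hh
      rcases hh with hh | hh | hh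
      · push Not at hh
        obtain ⟨i, hi⟩ := hh
        have h2 : (1 : ℝ) ≤ ∑ i : Fin (2 * h + T),
            if (∀ i ∈ (∅ : Finset (Fin (2 * h + T))), Shr Δ v v' i) ∧ v i ∈ SL Δ then 1 else 0 := by
          refine le_trans (le_of_eq ?_) (Finset.single_le_sum (f := fun i : Fin (2 * h + T) =>
            if (∀ i ∈ (∅ : Finset (Fin (2 * h + T))), Shr Δ v v' i) ∧ v i ∈ SL Δ then (1 : ℝ) else 0)
            (fun i _ => hn _) (Finset.mem_univ i))
          rw [if_pos ⟨by simp, mem_SL.2 hi⟩]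
        linarith
      · push Not at hh
        obtain ⟨i, hi⟩ := hh
        have h2 : (1 : ℝ) ≤ ∑ i : Fin (2 * h + T),
            if (∀ i ∈ (∅ : Finset (Fin (2 * h + T))), Shr Δ v v' i) ∧ v' i ∈ SL Δ then 1 else 0 := by
          refine le_trans (le_of_eq ?_) (Finset.single_le_sum (f := fun i : Fin (2 * h + T) =>
            if (∀ i ∈ (∅ : Finset (Fin (2 * h + T))), Shr Δ v v' i) ∧ v' i ∈ SL Δ then (1 : ℝ) else 0)
            (fun i _ => hn _) (Finset.mem_univ i))
          rw [if_pos ⟨by simp, mem_SL.2 hi⟩]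
        linarith
      · push Not at hh
        obtain ⟨i, j, hij⟩ := hh
        have h2 : (1 : ℝ) ≤ ∑ p : Fin (2 * h + T) × Fin (2 * h + T),
          if (v p.1).1 = (v' p.2).1 then 1 else 0 := by
          refine le_trans (le_of_eq ?_) (Finset.single_le_sum
            (f := fun p : Fin (2 * h + T) × Fin (2 * h + T) =>
              if (v p.1).1 = (v' p.2).1 then (1 : ℝ) else 0)
            (fun i _ => hn _) (Finset.mem_univ (i, j)))
          rw [if_pos hij]
        linarith
    · have hn : ∀ (P : Prop) [Decidable P], (0 : ℝ) ≤ if P then 1 else 0 := by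
        intro P _
        split_ifs <;> norm_num
      exact add_nonneg (Finset.sum_nonneg fun i _ => hn _) (add_nonneg
        (Finset.sum_nonneg fun i _ => hn _) (Finset.sum_nonneg fun i _ => hn _))
  refine h1.trans ?_
  rw [avg_add', avg_add', avg_sum', avg_sum', avg_sum']
  have hSL : ((SL Δ).card : ℝ) ≤ 2 * nrm Δ := by exact_mod_cast card_SL Δ
  have h2 : ∀ i : Fin (2 * h + T), avg (BW d g h T) (fun v v' =>
      if (∀ i ∈ (∅ : Finset (Fin (2 * h + T))), Shr Δ v v' i) ∧ v i ∈ SL Δ then 1 else 0)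
      ≤ 2 * nrm Δ / g := by
    intro i
    refine (av_Pv ha Δ ∅ (SL Δ) (Finset.notMem_empty i)).trans ?_
    rw [Finset.card_empty, pow_zero, mul_one]
    gcongr
  have h3 : ∀ i : Fin (2 * h + T), avg (BW d g h T) (fun v v' =>
      if (∀ i ∈ (∅ : Finset (Fin (2 * h + T))), Shr Δ v v' i) ∧ v' i ∈ SL Δ then 1 else 0)
      ≤ 2 * nrm Δ / g := by
    intro i
    refine (av_Pv' ha Δ ∅ (SL Δ) i).trans ?_
    rw [Finset.card_empty, pow_zero, mul_one]
    gcongr
  calc _ ≤ ∑ _i : Fin (2 * h + T), 2 * (nrm Δ : ℝ) / g + (∑ _i : Fin (2 * h + T), 2 * (nrm Δ : ℝ) / g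
        + ∑ _p : Fin (2 * h + T) × Fin (2 * h + T), (2 : ℝ) / g) :=
        add_le_add (Finset.sum_le_sum fun i _ => h2 i) (add_le_add
          (Finset.sum_le_sum fun i _ => h3 i) (Finset.sum_le_sum fun p _ => av_c ha p.1 p.2))
    _ = _ := by
        simp only [Finset.sum_const, Finset.card_univ, Fintype.card_fin, Fintype.card_prod,
          nsmul_eq_mul]
        push_cast
        ring

/-- the weight is at most the sum over the sets of positions -/
lemma pow_sh_le {n : ℕ} (Δ : V d) (v v' : Fin n → Dir d) {r : ℝ} (hr : 1 ≤ r) :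
    ∃ P : Finset (Fin n), (∀ i, i ∈ P ↔ Shr Δ v v' i) ∧ r ^ sh Δ v v' ≤ r ^ P.card := by
  classical
  refine ⟨Finset.univ.filter fun i => Shr Δ v v' i, fun i => by simp, ?_⟩
  refine pow_le_pow_right₀ hr ?_
  unfold sh
  calc (bedges Δ v ∩ bedges 0 v').card
      ≤ ((Finset.univ.filter fun i => Shr Δ v v' i).image (bedge Δ v)).card := by
        refine Finset.card_le_card ?_
        intro e he
        rw [Finset.mem_inter] at he
        obtain ⟨h1, h2⟩ := he
        unfold bedges at h1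
        rw [Finset.mem_image] at h1
        obtain ⟨i, _, hi⟩ := h1
        rw [Finset.mem_image]
        refine ⟨i, ?_, hi⟩
        rw [Finset.mem_filter]
        refine ⟨Finset.mem_univ _, ?_⟩
        unfold Shr
        rw [hi]
        exact h2
    _ ≤ _ := Finset.card_image_le

/-- bound of the ratio -/
lemma ratio_le (ha : Adm h T c0 d g) {s : ℝ} (hs : 0 < s) (m : ℝ) (hm : 0 ≤ m) :
    1 / (s / (2 * d)) * (2 * m / g) ≤ max 1 (4 * m * c0 / s) := by
  have hg : (0 : ℝ) < g := Nat.cast_pos.2 ha.1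
  have h1 : 1 / (s / (2 * d)) * (2 * m / g) = 4 * m / s * (d / g) := by
    field_simp
    ring
  have h2 : (d : ℝ) / g ≤ c0 := by
    rw [div_le_iff₀ hg]
    exact ha.2.2
  rw [h1]
  refine le_max_of_le_right ?_
  calc 4 * m / s * ((d : ℝ) / g) ≤ 4 * m / s * c0 := by gcongr
    _ = _ := by ring

lemma pow_le_M {M x : ℝ} (hx0 : 0 ≤ x) (hx : x ≤ M) (hM : 1 ≤ M) {k n : ℕ} (hk : k ≤ n) :
    x ^ k ≤ M ^ n :=
  (pow_le_pow_left₀ hx0 hx k).trans (pow_le_pow_right₀ hM hk)

end H42.CD.BM
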