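import Pool.Agent.H42.CD.BAdm
import Pool.Agent.H42.CD.BGeo
import Pool.Agent.H42.CD.BMassAux

/-!
# Module BMASSA: expected weights, first bounds

`τ = 2h+T`; the constants may depend on `h, T, s, c0` but not on `d, g`. `t = s / (2d)`. By `card_fix'`: for
a set `S` of positions and letters `l i`, the fraction of the block words `v` with `v i = l i` for `i ∈ S` is at
most `g^(-#S)`.

Write `σ = sh Δ v v'` and call position `i` shared if `bedge Δ v i ∈ bedges 0 v'`; `σ` is at most the number of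
shared positions. `(1/t)^σ ≤ Σ_{P ⊆ positions} (1/t)^#P 1[all i ∈ P are shared]` if `t ≤ 1` (the summand for
`P` = the set of shared positions; if `t > 1` i.e. `2d < s` use `(1/t)^σ ≤ 1`, which is the summand
`P = ∅`). If `i` is shared with the edge `φ i` of the second path then `v i = v' (φ i)` or
`v i = rev (v' (φ i))` (`ed_eq_iff`). So for given `v'` and `P` the number of `v` with all `i ∈ P` shared is at most
`(2 τ)^#P g^(-#P) #BW` (sum over `φ : P → positions` and orientations).
* `mass_near`: `avg ≤ Σ_P (1/t)^#P (2τ/g)^#P = (1 + 2τ/(t g))^τ ≤ (1 + 4 τ c0 / s)^τ` as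
  `1/(t g) = 2 d/(s g) ≤ 2 c0/s` (`Finset.sum_pow_mul_eq_add_pow` or `Finset.prod_add`).
* `mass_plain`: if `NoHit Δ v v'` the norm grows by `2 τ` (`grow`), so the average is at most the fraction of
  pairs with a hit: for each position `i` the fraction of `v` with `Δ (v i).1 ≠ 0` is at most
  `2 nrm Δ / g` (at most `nrm Δ` coordinates in the support, two letters each), same for `v'`; for each
  `i, j` the fraction of pairs with `(v i).1 = (v' j).1` is at most `2 / g`. Total `≤ (4 τ nrm Δ + 2 τ²)/g`.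
-/

open MeasureTheory Set Filter
open scoped ENNReal Topology

namespace H42.CD

open BM

theorem mass_near (h T : ℕ) {s c0 : ℝ} (hs : 0 < s) (hc : 0 < c0) :
    ∃ Q : ℝ, 0 < Q ∧ ∀ d g, Adm h T c0 d g → ∀ Δ : V d,
      avg (BW d g h T) (fun v v' => (1 / (s / (2 * d))) ^ sh Δ v v') ≤ Q := by
  classical
  set M : ℝ := max 1 (4 * ((2 * h + T : ℕ) : ℝ) * c0 / s) with hM
  have hM1 : 1 ≤ M := le_max_left _ _
  refine ⟨2 ^ (2 * h + T) * M ^ (2 * h + T), by positivity, fun d g ha Δ => ?_⟩
  have hg : (0 : ℝ) < g := Nat.cast_pos.2 ha.1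
  set r : ℝ := 1 / (s / (2 * d)) with hr
  have hr0 : 0 ≤ r := by positivity
  rcases le_total r 1 with hr1 | hr1
  · have h1 : avg (BW d g h T) (fun v v' => r ^ sh Δ v v') ≤ avg (BW d g h T) (fun _ _ => 1) :=
      avg_mono fun v _ v' _ => pow_le_one₀ hr0 hr1
    refine h1.trans ((avg_const_le zero_le_one).trans ?_)
    have h2 : (1 : ℝ) ≤ 2 ^ (2 * h + T) := one_le_pow₀ (by norm_num)
    have h3 : 1 ≤ M ^ (2 * h + T) := one_le_pow₀ hM1
    nlinarith
  · have h1 : avg (BW d g h T) (fun v v' => r ^ sh Δ v v')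
        ≤ avg (BW d g h T) (fun v v' => ∑ P : Finset (Fin (2 * h + T)),
            r ^ P.card * (if ∀ i ∈ P, Shr Δ v v' i then 1 else 0)) := by
      refine avg_mono fun v _ v' _ => ?_
      obtain ⟨P, hP, hle⟩ := pow_sh_le Δ v v' hr1
      refine hle.trans (le_trans (le_of_eq ?_) (Finset.single_le_sum
        (f := fun P : Finset (Fin (2 * h + T)) =>
          r ^ P.card * (if ∀ i ∈ P, Shr Δ v v' i then (1 : ℝ) else 0))
        (fun P _ => ?_) (Finset.mem_univ P)))
      · rw [if_pos fun i hi => (hP i).1 hi, mul_one]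
      · refine mul_nonneg (pow_nonneg hr0 _) ?_
        split_ifs <;> norm_num
    refine h1.trans ?_
    rw [avg_sum']
    calc ∑ P : Finset (Fin (2 * h + T)), avg (BW d g h T) (fun v v' =>
            r ^ P.card * (if ∀ i ∈ P, Shr Δ v v' i then 1 else 0))
        ≤ ∑ _P : Finset (Fin (2 * h + T)), M ^ (2 * h + T) := by
          refine Finset.sum_le_sum fun P _ => ?_
          rw [avg_mul']
          calc r ^ P.card * avg (BW d g h T) (fun v v' => if ∀ i ∈ P, Shr Δ v v' i then 1 else 0)
              ≤ r ^ P.card * (2 * ((2 * h + T : ℕ) : ℝ) / g) ^ P.card := by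
                gcongr
                exact av_P ha Δ P
            _ = (r * (2 * ((2 * h + T : ℕ) : ℝ) / g)) ^ P.card := by rw [mul_pow]
            _ ≤ M ^ (2 * h + T) := by
                refine pow_le_M (by positivity) (ratio_le ha hs _ (Nat.cast_nonneg _)) hM1 ?_
                simpa using Finset.card_le_univ P
      _ = _ := by
          rw [Finset.sum_const, Finset.card_univ, Fintype.card_finset, Fintype.card_fin,
            nsmul_eq_mul]
          push_cast
          ring

theorem mass_plain (h T : ℕ) {c0 : ℝ} (hc : 0 < c0) :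
    ∃ C : ℝ, 0 < C ∧ ∀ d g, Adm h T c0 d g → ∀ Δ : V d,
      avg (BW d g h T) (fun v v' =>
        if nrm (Δ + disp v - disp v') < nrm Δ + 2 * (2 * h + T) then 1 else 0)
        ≤ C * (nrm Δ + 1) / d := by
  classical
  refine ⟨(4 * ((2 * h + T : ℕ) : ℝ) + 2 * ((2 * h + T : ℕ) : ℝ) ^ 2 + 1) * c0, by positivity,
    fun d g ha Δ => ?_⟩
  have hg : (0 : ℝ) < g := Nat.cast_pos.2 ha.1
  have hd : (0 : ℝ) < d := by
    obtain ⟨h1, h2, _⟩ := ha
    exact Nat.cast_pos.2 (by omega)
  have h1 : avg (BW d g h T) (fun v v' =>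
        if nrm (Δ + disp v - disp v') < nrm Δ + 2 * (2 * h + T) then 1 else 0)
      ≤ avg (BW d g h T) (fun v v' => if Hit Δ v v' then 1 else 0) := by
    refine avg_mono fun v hv v' hv' => ?_
    split_ifs with h1 h2
    · exact le_rfl
    · exfalso
      unfold Hit at h2
      rw [not_not] at h2
      have := grow hv hv' h2
      omega
    · exact zero_le_one
    · exact le_rfl
  refine h1.trans ((av_hit ha Δ).trans ?_)
  rw [div_le_div_iff₀ hg hd]
  have hn : (0 : ℝ) ≤ (nrm Δ : ℝ) := Nat.cast_nonneg _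
  have hm : (0 : ℝ) ≤ ((2 * h + T : ℕ) : ℝ) := Nat.cast_nonneg _
  generalize ((2 * h + T : ℕ) : ℝ) = m at *
  generalize (nrm Δ : ℝ) = N at *
  calc (4 * m * N + 2 * m ^ 2) * d ≤ ((4 * m + 2 * m ^ 2 + 1) * (N + 1)) * (c0 * g) := by
        have h5 : 4 * m * N + 2 * m ^ 2 ≤ (4 * m + 2 * m ^ 2 + 1) * (N + 1) := by
          have e1 : 0 ≤ m ^ 2 * N := by positivity
          nlinarith
        have h6 := ha.2.2
        have h7 : (0 : ℝ) ≤ 4 * m * N + 2 * m ^ 2 := by positivity
        exact mul_le_mul h5 h6 hd.le (h7.trans h5)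
    _ = _ := by ring

end H42.CD
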