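import Pool.Agent.H42.CD.BAdm
import Pool.Agent.H42.CD.BGeo
import Pool.Agent.H42.CD.BMassAux

/-!
# Module BMASSB: expected weights when the norm does not grow

Notation and method as in `BMassA` (read its header). `Δ ≠ 0`, `nrm Δ ≤ 6τ`, `t = s/(2d)`. If
`nrm (Δ + disp v - disp v') < nrm Δ + 2τ` then not `NoHit Δ v v'` (`grow`). So, for `t ≤ 1`,
`1[no growth] (1/t)^σ ≤ 1[hit] + Σ_{P ≠ ∅} (1/t)^#P 1[all i ∈ P shared]`. (If `2 d < s` then `(1/t)^σ ≤ 1`, only the
first term.) The average of the first term is `≤ C/d` as in `mass_plain`.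
Let `P ≠ ∅` and let all `i ∈ P` be shared. Then the two paths have a common vertex
`Δ + bpos v i = bpos v' j`, hence `Δ = bpos v' j - bpos v i`, so, as `Δ ≠ 0`, some coordinate of the support of `Δ` is
the coordinate of a letter of `v` or of `v'`. So it suffices to bound, for `P ≠ ∅`,
`(1/t)^#P * fraction{all i ∈ P shared, and a letter of v or of v' has its coordinate in supp Δ}` by `C/d`.
* A letter of `v'` in `supp Δ`: the fraction of such `v'` is `≤ 2 τ nrm Δ / g`; for each of them the fraction of `v`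
  with all `i ∈ P` shared is `≤ (2τ/g)^#P`.
* A letter `v l` in `supp Δ`, `l ∉ P`: for given `v'`, `φ`, orientations and the letter `v l` (at most
  `2 nrm Δ` choices) `card_fix'` with `P ∪ {l}` gives `g^(-#P-1)`.
* A letter `v l` in `supp Δ`, `l ∈ P`: `v l ∈ {v' (φ l), rev (v' (φ l))}`, so a letter of `v'` has its coordinate in
  `supp Δ`: first case.
In all cases the bound is `C g^(-#P-1)`, and `(1/t)^#P g^(-#P) ≤ (2 c0/s)^#P`, `1/g ≤ c0/d`.
-/

open MeasureTheory Set Filter
open scoped ENNReal Topology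

namespace H42.CD

open BM

open Classical in
/-- pointwise bound for `mass_grow` -/
lemma grow_pt {h T d g : ℕ} {Δ : V d} (hΔ : Δ ≠ 0) {v v' : Fin (2 * h + T) → Dir d}
    (hv : v ∈ BW d g h T) (hv' : v' ∈ BW d g h T) {r : ℝ} (hr : 1 ≤ r)
    (hn : nrm (Δ + disp v - disp v') < nrm Δ + 2 * (2 * h + T)) :
    r ^ sh Δ v v' ≤ (if Hit Δ v v' then 1 else 0) + ∑ P : Finset (Fin (2 * h + T)), r ^ P.card *
      ((∑ j : Fin (2 * h + T), if (∀ i ∈ P, Shr Δ v v' i) ∧ v' j ∈ SL Δ then 1 else 0)
        + ∑ l ∈ Finset.univ \ P, if (∀ i ∈ P, Shr Δ v v' i) ∧ v l ∈ SL Δ then 1 else 0) := by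
  have hr0 : 0 ≤ r := zero_le_one.trans hr
  have hi : ∀ (P : Prop) [Decidable P], (0 : ℝ) ≤ if P then 1 else 0 := by
    intro P _
    split_ifs <;> norm_num
  have hnn : ∀ P : Finset (Fin (2 * h + T)), 0 ≤ r ^ P.card *
      ((∑ j : Fin (2 * h + T), if (∀ i ∈ P, Shr Δ v v' i) ∧ v' j ∈ SL Δ then (1 : ℝ) else 0)
        + ∑ l ∈ Finset.univ \ P, if (∀ i ∈ P, Shr Δ v v' i) ∧ v l ∈ SL Δ then 1 else 0) := fun P =>
    mul_nonneg (pow_nonneg hr0 _) (add_nonneg (Finset.sum_nonneg fun i _ => hi _)
      (Finset.sum_nonneg fun i _ => hi _))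
  have hhit : Hit Δ v v' := by
    unfold Hit
    intro hno
    have := grow hv hv' hno
    omega
  rw [if_pos hhit]
  obtain ⟨P, hP, hle⟩ := pow_sh_le Δ v v' hr
  refine hle.trans ?_
  rcases P.eq_empty_or_nonempty with rfl | ⟨i₀, hi₀⟩
  · rw [Finset.card_empty, pow_zero]
    exact le_add_of_nonneg_right (Finset.sum_nonneg fun P _ => hnn P)
  · refine le_add_of_nonneg_of_le zero_le_one (le_trans ?_ (Finset.single_le_sum
      (fun P _ => hnn P) (Finset.mem_univ P)))
    have hall : ∀ i ∈ P, Shr Δ v v' i := fun i hi => (hP i).1 hi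
    have key : (1 : ℝ) ≤
      ((∑ j : Fin (2 * h + T), if (∀ i ∈ P, Shr Δ v v' i) ∧ v' j ∈ SL Δ then 1 else 0)
        + ∑ l ∈ Finset.univ \ P, if (∀ i ∈ P, Shr Δ v v' i) ∧ v l ∈ SL Δ then 1 else 0) := by
      have hB : (∃ j, Δ (v' j).1 ≠ 0) → (1 : ℝ) ≤
          ((∑ j : Fin (2 * h + T), if (∀ i ∈ P, Shr Δ v v' i) ∧ v' j ∈ SL Δ then 1 else 0)
        + ∑ l ∈ Finset.univ \ P, if (∀ i ∈ P, Shr Δ v v' i) ∧ v l ∈ SL Δ then 1 else 0) := by
        rintro ⟨j, hj⟩
        refine le_add_of_le_of_nonneg ?_ (Finset.sum_nonneg fun i _ => hi _)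
        refine le_trans (le_of_eq ?_) (Finset.single_le_sum
          (f := fun j : Fin (2 * h + T) =>
            if (∀ i ∈ P, Shr Δ v v' i) ∧ v' j ∈ SL Δ then (1 : ℝ) else 0)
          (fun i _ => hi _) (Finset.mem_univ j))
        rw [if_pos ⟨hall, mem_SL.2 hj⟩]
      rcases shr_supp hΔ (hall i₀ hi₀) with ⟨l, hl⟩ | hj
      · by_cases hlP : l ∈ P
        · obtain ⟨j, hj⟩ := shr_crd (hall l hlP)
          exact hB ⟨j, by rw [hj]; exact hl⟩
        · refine le_add_of_nonneg_of_le (Finset.sum_nonneg fun i _ => hi _) ?_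
          refine le_trans (le_of_eq ?_) (Finset.single_le_sum
            (f := fun l : Fin (2 * h + T) =>
              if (∀ i ∈ P, Shr Δ v v' i) ∧ v l ∈ SL Δ then (1 : ℝ) else 0)
            (fun i _ => hi _) (Finset.mem_sdiff.2 ⟨Finset.mem_univ l, hlP⟩))
          rw [if_pos ⟨hall, mem_SL.2 hl⟩]
      · exact hB hj
    exact le_mul_of_one_le_right (pow_nonneg hr0 _) key

theorem mass_grow (h T : ℕ) {s c0 : ℝ} (hs : 0 < s) (hc : 0 < c0) :
    ∃ C : ℝ, 0 < C ∧ ∀ d g, Adm h T c0 d g → ∀ Δ : V d, Δ ≠ 0 →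
      nrm Δ ≤ 6 * (2 * h + T) →
      avg (BW d g h T) (fun v v' =>
        if nrm (Δ + disp v - disp v') < nrm Δ + 2 * (2 * h + T) then
          (1 / (s / (2 * d))) ^ sh Δ v v' else 0) ≤ C / d := by
  classical
  set M : ℝ := max 1 (4 * ((2 * h + T : ℕ) : ℝ) * c0 / s) with hM
  have hM1 : 1 ≤ M := le_max_left _ _
  set m : ℝ := ((2 * h + T : ℕ) : ℝ) with hm
  have hm0 : 0 ≤ m := Nat.cast_nonneg _
  refine ⟨(26 * m ^ 2 + 2 ^ (2 * h + T) * (M ^ (2 * h + T) * (24 * m ^ 2)) + 1) * c0, by positivity,
    fun d g ha Δ hΔ hN => ?_⟩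
  have hg : (0 : ℝ) < g := Nat.cast_pos.2 ha.1
  have hd : (0 : ℝ) < d := by
    obtain ⟨h1, h2, _⟩ := ha
    exact Nat.cast_pos.2 (by omega)
  have hNm : (nrm Δ : ℝ) ≤ 6 * m := by
    rw [hm]
    exact_mod_cast hN
  have hfin : ∀ x : ℝ, 0 ≤ x → x / g ≤ (x + 1) * c0 / d := by
    intro x hx
    rw [div_le_div_iff₀ hg hd]
    calc x * d ≤ (x + 1) * (c0 * g) :=
          mul_le_mul (by linarith) ha.2.2 hd.le (by linarith)
      _ = _ := by ring
  set r : ℝ := 1 / (s / (2 * d)) with hr
  have hr0 : 0 ≤ r := by positivity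
  have hhit : avg (BW d g h T) (fun v v' => if Hit Δ v v' then 1 else 0) ≤ 26 * m ^ 2 / g := by
    refine (av_hit ha Δ).trans ?_
    gcongr
    rw [← hm]
    nlinarith
  have hmain : avg (BW d g h T) (fun v v' =>
        if nrm (Δ + disp v - disp v') < nrm Δ + 2 * (2 * h + T) then r ^ sh Δ v v' else 0)
      ≤ (26 * m ^ 2 + 2 ^ (2 * h + T) * (M ^ (2 * h + T) * (24 * m ^ 2))) / g := by
    rcases le_total r 1 with hr1 | hr1
    · refine le_trans (avg_mono (f' := fun v v' => if Hit Δ v v' then 1 else 0)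
        fun v hv v' hv' => ?_) (hhit.trans ?_)
      · split_ifs with h1 h2
        · exact pow_le_one₀ hr0 hr1
        · exfalso
          unfold Hit at h2
          rw [not_not] at h2
          have := grow hv hv' h2
          omega
        · exact zero_le_one
        · exact le_rfl
      · gcongr
        have : 0 ≤ 2 ^ (2 * h + T) * (M ^ (2 * h + T) * (24 * m ^ 2)) := by positivity
        linarith
    · have hi : ∀ (P : Prop) [Decidable P], (0 : ℝ) ≤ if P then 1 else 0 := by
        intro P _
        split_ifs <;> norm_num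
      refine le_trans (avg_mono (f' := fun v v' => (if Hit Δ v v' then 1 else 0) +
        ∑ P : Finset (Fin (2 * h + T)), r ^ P.card *
      ((∑ j : Fin (2 * h + T), if (∀ i ∈ P, Shr Δ v v' i) ∧ v' j ∈ SL Δ then 1 else 0)
        + ∑ l ∈ Finset.univ \ P, if (∀ i ∈ P, Shr Δ v v' i) ∧ v l ∈ SL Δ then 1 else 0))
        fun v hv v' hv' => ?_) ?_
      · split_ifs with h1 h2
        · have := grow_pt hΔ hv hv' hr1 h1
          rw [if_pos h2] at this
          exact this
        · have := grow_pt hΔ hv hv' hr1 h1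
          rw [if_neg h2] at this
          exact this
        · refine add_nonneg zero_le_one (Finset.sum_nonneg fun P _ => mul_nonneg (pow_nonneg hr0 _)
            (add_nonneg (Finset.sum_nonneg fun i _ => hi _) (Finset.sum_nonneg fun i _ => hi _)))
        · refine add_nonneg le_rfl (Finset.sum_nonneg fun P _ => mul_nonneg (pow_nonneg hr0 _)
            (add_nonneg (Finset.sum_nonneg fun i _ => hi _) (Finset.sum_nonneg fun i _ => hi _)))
      · rw [avg_add', avg_sum', add_div]
        refine add_le_add hhit ?_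
        have hSL : ((SL Δ).card : ℝ) ≤ 2 * (6 * m) := by
          have h1 : ((SL Δ).card : ℝ) ≤ 2 * nrm Δ := by exact_mod_cast card_SL Δ
          linarith
        calc ∑ P : Finset (Fin (2 * h + T)), avg (BW d g h T) (fun v v' => r ^ P.card *
              ((∑ j : Fin (2 * h + T), if (∀ i ∈ P, Shr Δ v v' i) ∧ v' j ∈ SL Δ then 1 else 0)
                + ∑ l ∈ Finset.univ \ P, if (∀ i ∈ P, Shr Δ v v' i) ∧ v l ∈ SL Δ then 1 else 0))
            ≤ ∑ _P : Finset (Fin (2 * h + T)), M ^ (2 * h + T) * (24 * m ^ 2) / g := by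
              refine Finset.sum_le_sum fun P _ => ?_
              rw [avg_mul', avg_add', avg_sum', avg_sum']
              have e1 : ∑ j : Fin (2 * h + T), avg (BW d g h T) (fun v v' =>
                  if (∀ i ∈ P, Shr Δ v v' i) ∧ v' j ∈ SL Δ then 1 else 0)
                  ≤ m * (2 * (6 * m) / g * (2 * m / g) ^ P.card) := by
                calc _ ≤ ∑ _j : Fin (2 * h + T), (2 * (6 * m) / g * (2 * m / g) ^ P.card) := by
                      refine Finset.sum_le_sum fun j _ => (av_Pv' ha Δ P (SL Δ) j).trans ?_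
                      rw [← hm]
                      gcongr
                  _ = _ := by
                      rw [Finset.sum_const, Finset.card_univ, Fintype.card_fin, nsmul_eq_mul]
              have e2 : ∑ l ∈ Finset.univ \ P, avg (BW d g h T) (fun v v' =>
                  if (∀ i ∈ P, Shr Δ v v' i) ∧ v l ∈ SL Δ then 1 else 0)
                  ≤ m * (2 * (6 * m) / g * (2 * m / g) ^ P.card) := by
                calc _ ≤ ∑ _l ∈ Finset.univ \ P, (2 * (6 * m) / g * (2 * m / g) ^ P.card) := by
                      refine Finset.sum_le_sum fun l hl =>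
                        (av_Pv ha Δ P (SL Δ) (Finset.mem_sdiff.1 hl).2).trans ?_
                      rw [← hm]
                      gcongr
                  _ ≤ _ := by
                      rw [Finset.sum_const, nsmul_eq_mul]
                      gcongr
                      rw [hm]
                      refine Nat.cast_le.2 ((Finset.card_le_univ _).trans ?_)
                      simp
              calc r ^ P.card * _
                  ≤ r ^ P.card * (m * (2 * (6 * m) / g * (2 * m / g) ^ P.card)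
                    + m * (2 * (6 * m) / g * (2 * m / g) ^ P.card)) := by
                    gcongr
                _ = (r * (2 * m / g)) ^ P.card * (24 * m ^ 2 / g) := by
                    rw [mul_pow]
                    ring
                _ ≤ M ^ (2 * h + T) * (24 * m ^ 2 / g) := by
                    gcongr
                    refine pow_le_M (by positivity) (ratio_le ha hs m hm0) hM1 ?_
                    simpa using Finset.card_le_univ P
                _ = _ := by ring
          _ = _ := by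
              rw [Finset.sum_const, Finset.card_univ, Fintype.card_finset, Fintype.card_fin,
                nsmul_eq_mul]
              push_cast
              ring
  exact hmain.trans (hfin _ (by positivity))

end H42.CD
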