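import Pool.Agent.H42.CD.BAdm
import Pool.Agent.H42.CD.BGeo

/-!
# Module BMASSC: expected weight of different blocks with equal start and equal end

`Δ = 0`, `v ≠ v'`, `disp v = disp v'`, `v, v' ∈ BW`, `τ = 2h + T`. The letters of `v` have distinct coordinates, so the
value of `disp v` at a coordinate `a` is `±1` if `a` is the coordinate of a letter (the sign is the sign of the
letter) and `0` otherwise: `disp v` determines the set of letters `image v univ`. So `v' = v ∘ π` for a permutation
`π` of the positions (both are injective with the same image): for each `v` at most `τ!` words `v'`; at most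
`τ! #BW` pairs.
`sh 0 v v' ≤ τ - 1`: otherwise `bedges 0 v ⊆ bedges 0 v'` (both have `τ` elements). Then `v i = v' i` for all `i` by
strong induction: if `v j = v' j` for `j < i` then `z = bpos v i = bpos v' i`, and the edge `bedge 0 v i`, with
endpoints `z` and `z + stp (v i)`, is an edge `bedge 0 v' j`. By `dist_bpos` (positions of `v'` are distinct)
`z = bpos v' i` is an endpoint only of the edges `j = i - 1` and `j = i` of `v'`; `j = i - 1` is
excluded because `bedge 0 v' (i-1) = bedge 0 v (i-1) ≠ bedge 0 v i` (`v` has distinct coordinates). So `j = i`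
and `v i = v' i`: contradiction to `v ≠ v'`.
So, if `t = s/(2d) ≤ 1`, the average is at most `τ! #BW (1/t)^(τ-1) / #BW^2 ≤ τ! (2d/s)^(τ-1) g^(-τ)` (`bw_card_ge`)
`≤ C/d`, `C = τ! (2/s)^(τ-1) c0^τ`. If `t > 1` bound `(1/t)^sh` by `1`: the average is `≤ τ! g^(-τ) ≤ τ! / g ≤ τ! c0 / d`
(if `τ = 0` there is only one word and the average is `0`).
-/

open MeasureTheory Set Filter
open scoped ENNReal Topology

namespace H42.CD

variable {d g h T : ℕ} {c0 : ℝ}

theorem disp_apply_letter {v : Fin (2 * h + T) → Dir d} (hv : v ∈ BW d g h T)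
    (i : Fin (2 * h + T)) : disp v (v i).1 = if (v i).2 then 1 else -1 := by
  have hinj := (mem_bw.1 hv).2
  unfold disp
  rw [Finset.sum_apply, Finset.sum_eq_single i]
  · rw [stp_apply, if_pos rfl]
  · intro j _ hj
    rw [stp_apply, if_neg]
    intro h1
    exact hj (hinj _ _ h1).symm
  · intro h1
    exact absurd (Finset.mem_univ _) h1

theorem letter_of_disp {v : Fin (2 * h + T) → Dir d} (hv : v ∈ BW d g h T) {a : Fin d}
    (ha : disp v a ≠ 0) : ∃ i, (v i).1 = a := by
  by_contra hcon
  push Not at hcon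
  refine ha ?_
  unfold disp
  rw [Finset.sum_apply]
  refine Finset.sum_eq_zero fun j _ => ?_
  rw [stp_apply, if_neg]
  exact fun h1 => hcon j h1.symm

theorem exists_perm {v v' : Fin (2 * h + T) → Dir d} (hv : v ∈ BW d g h T)
    (hv' : v' ∈ BW d g h T) (hd : disp v = disp v') :
    ∃ π : Equiv.Perm (Fin (2 * h + T)), (fun i => v (π i)) = v' := by
  have h1 : ∀ j, ∃ i, v i = v' j := by
    intro j
    have h2 := disp_apply_letter hv' j
    have h3 : disp v (v' j).1 ≠ 0 := by
      rw [hd, h2]; split_ifs <;> simp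
    obtain ⟨i, hi⟩ := letter_of_disp hv h3
    refine ⟨i, Prod.ext hi ?_⟩
    have h4 := disp_apply_letter hv i
    rw [hi, hd, h2] at h4
    cases h5 : (v i).2 <;> cases h6 : (v' j).2 <;> simp_all
  choose f hf using h1
  have hfi : Function.Injective f := by
    intro a b hab
    have : v' a = v' b := by rw [← hf a, ← hf b, hab]
    exact (mem_bw.1 hv').2 _ _ (by rw [this])
  exact ⟨Equiv.ofBijective f (Finite.injective_iff_bijective.1 hfi), funext hf⟩

open Classical in
theorem card_same_disp {v : Fin (2 * h + T) → Dir d} (hv : v ∈ BW d g h T) :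
    ((BW d g h T).filter fun v' => disp v = disp v').card ≤ (2 * h + T).factorial := by
  have h1 : ((BW d g h T).filter fun v' => disp v = disp v')
      ⊆ (Finset.univ : Finset (Equiv.Perm (Fin (2 * h + T)))).image fun π => fun i => v (π i) := by
    intro v' hv'
    rw [Finset.mem_filter] at hv'
    obtain ⟨π, hπ⟩ := exists_perm hv hv'.1 hv'.2
    rw [Finset.mem_image]
    exact ⟨π, Finset.mem_univ _, hπ⟩
  refine (Finset.card_le_card h1).trans (Finset.card_image_le.trans ?_)
  rw [Finset.card_univ, Fintype.card_perm, Fintype.card_fin]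

theorem bpos_inj {v : Fin (2 * h + T) → Dir d} (hv : v ∈ BW d g h T) {i j : ℕ}
    (hi : i ≤ 2 * h + T) (hj : j ≤ 2 * h + T) (hij : bpos v i = bpos v j) : i = j := by
  rcases le_total i j with h1 | h1
  · have := dist_bpos hv h1 hj
    rw [hij, dist1_self] at this
    omega
  · have := dist_bpos hv h1 hi
    rw [hij, dist1_self] at this
    omega

theorem eq_of_bedges {v v' : Fin (2 * h + T) → Dir d} (hv : v ∈ BW d g h T)
    (hv' : v' ∈ BW d g h T) (hsub : bedges 0 v ⊆ bedges 0 v') : v = v' := by
  have key : ∀ n : ℕ, ∀ hn : n < 2 * h + T, v ⟨n, hn⟩ = v' ⟨n, hn⟩ := by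
    intro n
    induction n using Nat.strong_induction_on with
    | _ n ih =>
      intro hn
      have hz : bpos v n = bpos v' n := by
        unfold bpos
        refine Finset.sum_congr rfl fun j _ => ?_
        split_ifs with hj
        · rw [ih j.val hj j.isLt]
        · rfl
      have hmem : bedge 0 v ⟨n, hn⟩ ∈ bedges 0 v' := by
        apply hsub
        unfold bedges
        exact Finset.mem_image.2 ⟨_, Finset.mem_univ _, rfl⟩
      unfold bedges at hmem
      rw [Finset.mem_image] at hmem
      obtain ⟨j, _, hj⟩ := hmem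
      unfold bedge at hj
      rw [zero_add, zero_add, ed_eq_iff] at hj
      rcases hj with ⟨h1, h2⟩ | ⟨h1, h2⟩
      · change bpos v' j.val = bpos v n at h1
        rw [hz] at h1
        have h3 := bpos_inj hv' j.isLt.le hn.le h1
        have h4 : j = ⟨n, hn⟩ := Fin.ext h3
        rw [h4] at h2
        exact h2.symm
      · -- the edge is traversed backwards
        change bpos v n = bpos v' j.val + stp (v' j) at h1
        rw [← bpos_succ, hz] at h1
        have h3 := bpos_inj hv' hn.le j.isLt h1
        have h4 := ih j.val (by omega) j.isLt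
        have h5 : (v ⟨n, hn⟩).1 = (v ⟨j.val, j.isLt⟩).1 := by
          rw [h4, h2]; rfl
        have h6 := (mem_bw.1 hv).2 _ _ h5
        have h7 := congrArg Fin.val h6
        simp only at h7
        omega
  funext i
  exact key i.val i.isLt

theorem sh_lt {v v' : Fin (2 * h + T) → Dir d} (hv : v ∈ BW d g h T)
    (hv' : v' ∈ BW d g h T) (hne : v ≠ v') : sh 0 v v' ≤ 2 * h + T - 1 := by
  by_contra hcon
  push Not at hcon
  apply hne
  apply eq_of_bedges hv hv'
  have h1 : (bedges (0 : V d) v).card ≤ 2 * h + T := by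
    unfold bedges
    refine Finset.card_image_le.trans ?_
    rw [Finset.card_univ, Fintype.card_fin]
  have h2 : bedges 0 v ∩ bedges 0 v' = bedges 0 v := by
    refine Finset.eq_of_subset_of_card_le Finset.inter_subset_left ?_
    have h3 : (bedges 0 v ∩ bedges 0 v').card = sh 0 v v' := rfl
    rw [h3]
    omega
  exact Finset.inter_eq_left.1 h2

theorem pow_le_one_add {x : ℝ} (hx : 0 ≤ x) {k m : ℕ} (hkm : k ≤ m) : x ^ k ≤ 1 + x ^ m := by
  rcases le_total x 1 with h1 | h1
  · have := pow_le_one₀ (n := k) hx h1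
    have h2 := pow_nonneg hx m
    linarith
  · have := pow_le_pow_right₀ h1 hkm
    linarith

theorem mass_back (h T : ℕ) {s c0 : ℝ} (hs : 0 < s) (hc : 0 < c0) :
    ∃ C : ℝ, 0 < C ∧ ∀ d g, Adm h T c0 d g →
      avg (BW d g h T) (fun v v' => open Classical in
        if v ≠ v' ∧ disp v = disp v' then (1 / (s / (2 * d))) ^ sh 0 v v' else 0) ≤ C / d := by
  classical
  obtain ⟨τ, hτ⟩ : ∃ τ, τ = 2 * h + T := ⟨_, rfl⟩
  refine ⟨τ.factorial * (c0 ^ τ * (1 + (2 / s) ^ (τ - 1))), by positivity, fun d g ha => ?_⟩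
  have hg : 0 < g := ha.1
  have hdg : g ≤ d := by have := ha.2.1; omega
  have hd : 0 < d := by omega
  have hd' : (0:ℝ) < d := by exact_mod_cast hd
  have hg' : (0:ℝ) < g := by exact_mod_cast hg
  have hB : 0 < (BW d g h T).card := Finset.card_pos.2 (bw_nonempty ha)
  have hB' : (0:ℝ) < ((BW d g h T).card : ℝ) := by exact_mod_cast hB
  rcases Nat.eq_zero_or_pos τ with h0 | h0
  · -- only one word
    have hall : ∀ v v' : Fin (2 * h + T) → Dir d, v = v' := by
      intro v v'
      funext i
      exact absurd i.isLt (by omega)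
    have hz : avg (BW d g h T) (fun v v' =>
        if v ≠ v' ∧ disp v = disp v' then (1 / (s / (2 * d))) ^ sh 0 v v' else 0) = 0 := by
      unfold avg
      rw [Finset.sum_eq_zero, zero_div]
      intro v _
      refine Finset.sum_eq_zero fun v' _ => ?_
      exact if_neg (fun h1 => h1.1 (hall v v'))
    refine le_of_eq_of_le ?_ (show (0:ℝ) ≤ _ by positivity)
    convert hz
  obtain ⟨x, hx⟩ : ∃ x : ℝ, x = 1 / (s / (2 * d)) := ⟨_, rfl⟩
  have hx0 : 0 ≤ x := by rw [hx]; positivity
  have hsum : ∀ v ∈ BW d g h T, ∑ v' ∈ BW d g h T,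
      (if v ≠ v' ∧ disp v = disp v' then x ^ sh 0 v v' else 0)
      ≤ τ.factorial * (1 + x ^ (τ - 1)) := by
    intro v hv
    calc ∑ v' ∈ BW d g h T, (if v ≠ v' ∧ disp v = disp v' then x ^ sh 0 v v' else 0)
        ≤ ∑ v' ∈ BW d g h T, (if disp v = disp v' then (1 + x ^ (τ - 1)) else 0) := by
          refine Finset.sum_le_sum fun v' hv' => ?_
          by_cases h1 : disp v = disp v'
          · by_cases h2 : v = v'
            · rw [if_neg (fun h3 => h3.1 h2), if_pos h1]; positivity
            · rw [if_pos ⟨h2, h1⟩, if_pos h1]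
              refine pow_le_one_add hx0 ?_
              rw [hτ]
              exact sh_lt hv hv' h2
          · rw [if_neg (fun h3 => h1 h3.2), if_neg h1]
      _ = ((BW d g h T).filter fun v' => disp v = disp v').card * (1 + x ^ (τ - 1)) := by
          rw [← Finset.sum_filter, Finset.sum_const, nsmul_eq_mul]
      _ ≤ τ.factorial * (1 + x ^ (τ - 1)) := by
          refine mul_le_mul_of_nonneg_right ?_ (by positivity)
          rw [hτ]
          exact_mod_cast card_same_disp hv
  have hmain : avg (BW d g h T) (fun v v' =>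
      if v ≠ v' ∧ disp v = disp v' then x ^ sh 0 v v' else 0)
      ≤ τ.factorial * (1 + x ^ (τ - 1)) / (BW d g h T).card := by
    unfold avg
    rw [div_le_div_iff₀ (by positivity) hB']
    calc (∑ v ∈ BW d g h T, ∑ v' ∈ BW d g h T,
          (if v ≠ v' ∧ disp v = disp v' then x ^ sh 0 v v' else 0)) * (BW d g h T).card
        ≤ (∑ v ∈ BW d g h T, (τ.factorial * (1 + x ^ (τ - 1)) : ℝ)) * (BW d g h T).card :=
          mul_le_mul_of_nonneg_right (Finset.sum_le_sum hsum) hB'.le
      _ = _ := by rw [Finset.sum_const, nsmul_eq_mul]; ring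
  have hfin : τ.factorial * (1 + x ^ (τ - 1)) / (BW d g h T).card
      ≤ τ.factorial * (c0 ^ τ * (1 + (2 / s) ^ (τ - 1))) / d := by
    have hcard : (g:ℝ) ^ τ ≤ ((BW d g h T).card : ℝ) := by
      rw [hτ]; exact_mod_cast bw_card_ge ha
    have h1 : τ.factorial * (1 + x ^ (τ - 1)) / (BW d g h T).card
        ≤ τ.factorial * (1 + x ^ (τ - 1)) / (g:ℝ) ^ τ :=
      div_le_div_of_nonneg_left (by positivity) (by positivity) hcard
    refine h1.trans ?_
    rw [div_le_div_iff₀ (by positivity) hd']
    have h2 : (d:ℝ) ≤ c0 * g := ha.2.2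
    have h3 : (d:ℝ) ^ τ ≤ c0 ^ τ * (g:ℝ) ^ τ := by
      rw [← mul_pow]; exact pow_le_pow_left₀ hd'.le h2 τ
    have h4 : (1 + x ^ (τ - 1)) * d ≤ (1 + (2 / s) ^ (τ - 1)) * (d:ℝ) ^ τ := by
      have h5 : (d:ℝ) ^ τ = d ^ (τ - 1) * d := by rw [← pow_succ, Nat.sub_add_cancel h0]
      have h6 : x = (2 / s) * d := by
        rw [hx]; field_simp
      have h7 : (1:ℝ) ≤ (d:ℝ) ^ (τ - 1) := one_le_pow₀ (by exact_mod_cast hd)
      rw [h5, h6, mul_pow, ← mul_assoc]
      refine mul_le_mul_of_nonneg_right ?_ hd'.le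
      nlinarith
    calc τ.factorial * (1 + x ^ (τ - 1)) * d
        = τ.factorial * ((1 + x ^ (τ - 1)) * d) := by ring
      _ ≤ τ.factorial * ((1 + (2 / s) ^ (τ - 1)) * (d:ℝ) ^ τ) := by gcongr
      _ ≤ τ.factorial * ((1 + (2 / s) ^ (τ - 1)) * (c0 ^ τ * (g:ℝ) ^ τ)) := by gcongr
      _ = _ := by ring
  refine le_trans ?_ hfin
  refine le_trans (le_of_eq ?_) hmain
  rw [hx]

end H42.CD
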