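import Pool.Agent.H42.CD.SubSup
import Pool.Agent.H42.CD.BCard
import Pool.Agent.H42.CD.BAdm

/-!
# Module BNUM: choice of the parameters

Given `κ ≥ 3`, `s > sc κ`. `sup_growth` gives `K, c, r` with `mL (FF κ true K) s L ≥ c r^L`, `r > 1`. Let `h = K + 4`.
Choose `η > 0` with `(1 - 5 h η) r > 1`... precisely with `θ := (1 - 4 h η) r > 1` and `(4 h + 2) η < 1`; for
given `d` let `g = ⌊η d⌋`, `c0 = 2/η`; for `d` large `Adm h T c0 d g`. Let
`ψ = (1/2) exp(-s (2h+1)) (1/s)^T mL (FF κ true K) s (T-1)`. By `bw_card`, with `t = s/(2d)`, as `d → ∞`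
`#BW ψ t^(2h+T) = ((2g) t)^(2h) (2^T (d - 4hg).descFactorial T) t^T ψ
   → (η s)^(2h) ((1 - 4 h η) s)^T ψ = (1/2) (η s)^(2h) exp(-s(2h+1)) (1 - 4hη)^T mL (FF κ true K) s (T-1)
   ≥ (1/2) (η s)^(2h) exp(-s(2h+1)) (c/r) θ^T`,
which tends to infinity with `T`. Choose `T ≥ 1` such that this is `≥ 3`, and then `d0`.
`0 < ψ`: `mL_pos` (`FF_lower`). `ψ ≤ 1`: `mL_le_pow` gives `(1/s)^T mL ≤ 1`.
-/

open MeasureTheory Set Filter
open scoped ENNReal Topology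

namespace H42.CD

theorem params {κ : ℕ} (hκ : 3 ≤ κ) {s : ℝ} (h : sc κ < s) :
    ∃ (K T : ℕ) (c0 ψ : ℝ), 1 ≤ T ∧ 0 < c0 ∧ 0 < ψ ∧ ψ ≤ 1 ∧
      ψ < Real.exp (-s * (2 * ((K + 4 : ℕ) : ℝ) + 1)) *
        ((1 / s) ^ T * mL (FF κ true K) s (T - 1)) ∧
      ∃ d0 : ℕ, ∀ d, d0 ≤ d → ∃ g : ℕ, Adm (K + 4) T c0 d g ∧
        2 ≤ ((BW d g (K + 4) T).card : ℝ) * (ψ * (s / (2 * d)) ^ (2 * (K + 4) + T)) := by
  have hsc := one_le_sc hκ
  have hs : 0 < s := by linarith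
  obtain ⟨K, c, r, hc, hr, hgr⟩ := sup_growth hκ h
  obtain ⟨H, hH⟩ : ∃ H : ℕ, H = K + 4 := ⟨_, rfl⟩
  have hr0 : 0 < r := by linarith
  have hri : 0 < 1 - 1 / r := by
    have : 1 / r < 1 := by rw [div_lt_one hr0]; exact hr
    linarith
  have hri1 : 1 - 1 / r < 1 := by
    have : 0 < 1 / r := by positivity
    linarith
  obtain ⟨η, hη⟩ : ∃ η : ℝ, η = (1 - 1 / r) / (4 * H + 2) / 2 := ⟨_, rfl⟩
  have hη0 : 0 < η := by rw [hη]; positivity
  have hη1 : (4 * H + 2) * η = (1 - 1 / r) / 2 := by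
    rw [hη]
    have : (4 * (H:ℝ) + 2) ≠ 0 := by positivity
    field_simp
  have hHη : 0 ≤ (H:ℝ) * η := by positivity
  have hθ : 1 < (1 - 4 * H * η) * r := by
    have h1 : 1 / r < 1 - 4 * H * η := by nlinarith
    rwa [div_lt_iff₀ hr0] at h1
  have ha0 : 0 < 1 - 4 * H * η := by nlinarith
  have hFF : ∀ x, 0 ≤ x → 0 < FF κ true K x := fun x hx => FF_pos (by omega) true K hx
  -- choice of `T`
  obtain ⟨E, hE⟩ : ∃ E : ℝ, E = Real.exp (-s * (2 * (H : ℝ) + 1)) := ⟨_, rfl⟩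
  have hE0 : 0 < E := by rw [hE]; exact Real.exp_pos _
  have hE1 : E ≤ 1 := by
    rw [hE, Real.exp_le_one_iff]
    have : 0 ≤ s * (2 * (H : ℝ) + 1) := by positivity
    linarith
  obtain ⟨A, hA⟩ : ∃ A : ℝ, A = (1 / 2) * (η * s) ^ (2 * H) * E * (c / r) := ⟨_, rfl⟩
  have hA0 : 0 < A := by rw [hA]; positivity
  obtain ⟨T0, hT0⟩ := pow_unbounded_of_one_lt (2 / A) hθ
  obtain ⟨T, hT⟩ : ∃ T : ℕ, T = T0 + 1 := ⟨_, rfl⟩
  have hT1 : 1 ≤ T := by omega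
  have hTbig : 2 < A * ((1 - 4 * H * η) * r) ^ T := by
    have h1 : ((1 - 4 * H * η) * r) ^ T0 ≤ ((1 - 4 * H * η) * r) ^ T :=
      pow_le_pow_right₀ hθ.le (by omega)
    have h2 : 2 / A < ((1 - 4 * H * η) * r) ^ T := hT0.trans_le h1
    rwa [div_lt_iff₀ hA0, mul_comm] at h2
  obtain ⟨m, hm⟩ : ∃ m, m = mL (FF κ true K) s (T - 1) := ⟨_, rfl⟩
  have hm0 : 0 < m := by
    rw [hm]; exact mL_pos (FF_cont κ true K) hs (fun x hx _ => hFF x hx) (T - 1)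
  have hm1 : (1 / s) ^ T * m ≤ 1 := by
    have h1 := mL_le_pow (FF_cont κ true K) hs.le (fun x hx _ => (hFF x hx).le)
      (fun x hx _ => FF_le_one κ true K hx) (T - 1)
    rw [← hm, Nat.sub_add_cancel hT1] at h1
    calc (1 / s) ^ T * m ≤ (1 / s) ^ T * s ^ T :=
          mul_le_mul_of_nonneg_left h1 (by positivity)
      _ = 1 := by rw [← mul_pow]; rw [one_div, inv_mul_cancel₀ hs.ne', one_pow]
  have hm2 : c * r ^ (T - 1) ≤ m := by rw [hm]; exact hgr (T - 1)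
  obtain ⟨ψ, hψ⟩ : ∃ ψ : ℝ, ψ = (1 / 2) * (E * ((1 / s) ^ T * m)) := ⟨_, rfl⟩
  have hψ0 : 0 < ψ := by rw [hψ]; positivity
  have hq0 : 0 < (1 / s) ^ T * m := by positivity
  have hEq : E * ((1 / s) ^ T * m) ≤ 1 := mul_le_one₀ hE1 hq0.le hm1
  refine ⟨K, T, 2 / η, ψ, hT1, by positivity, hψ0, by rw [hψ]; linarith, ?_, ?_⟩
  · rw [← hH, ← hE, ← hm, hψ]
    have : 0 < E * ((1 / s) ^ T * m) := by positivity
    linarith
  rw [← hH]
  -- the limit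
  have hF : Continuous fun x : ℝ =>
      ((η - x) * s) ^ (2 * H) * (((1 - 4 * H * η) - T * x) * s) ^ T * ψ := by fun_prop
  have hF0 : 2 < ((η - 0) * s) ^ (2 * H) * (((1 - 4 * H * η) - T * 0) * s) ^ T * ψ := by
    refine hTbig.trans_le ?_
    have h1 : (((1 - 4 * H * η) - T * 0) * s) ^ T * ψ
        = (1 / 2) * E * ((1 - 4 * H * η) ^ T * m) := by
      rw [hψ]
      have h2 : s ^ T * (1 / s) ^ T = 1 := by
        rw [← mul_pow, one_div, mul_inv_cancel₀ hs.ne', one_pow]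
      calc (((1 - 4 * H * η) - T * 0) * s) ^ T * ((1 / 2) * (E * ((1 / s) ^ T * m)))
          = (1 / 2) * E * ((1 - 4 * H * η) ^ T * m) * (s ^ T * (1 / s) ^ T) := by
            rw [mul_zero, sub_zero, mul_pow]; ring
        _ = _ := by rw [h2, mul_one]
    rw [sub_zero, mul_assoc _ ((_ : ℝ) ^ T) ψ, h1]
    have h3 : r ^ T = r ^ (T - 1) * r := by rw [← pow_succ, Nat.sub_add_cancel hT1]
    have h4 : A * ((1 - 4 * H * η) * r) ^ T
        = (η * s) ^ (2 * H) * (1 / 2 * E * ((1 - 4 * H * η) ^ T * (c * r ^ (T - 1)))) := by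
      rw [hA, mul_pow (1 - 4 * H * η) r T, h3]
      field_simp
    rw [h4]
    gcongr
  have hlim : Tendsto (fun d : ℕ => (d:ℝ)⁻¹) atTop (𝓝 0) := tendsto_inv_atTop_nhds_zero_nat
  have hev := ((hF.tendsto 0).comp hlim).eventually (lt_mem_nhds hF0)
  have hev1 : ∀ᶠ d : ℕ in atTop, (d:ℝ)⁻¹ < η / 2 :=
    hlim.eventually (gt_mem_nhds (by positivity))
  have hev2 : ∀ᶠ d : ℕ in atTop, (T + 1) * (d:ℝ)⁻¹ < η := by
    have h1 : Tendsto (fun d : ℕ => (T + 1) * (d:ℝ)⁻¹) atTop (𝓝 ((T + 1) * 0)) :=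
      tendsto_const_nhds.mul hlim
    rw [mul_zero] at h1
    exact h1.eventually (gt_mem_nhds hη0)
  obtain ⟨d0, hd0⟩ := Filter.eventually_atTop.1
    (hev.and (hev1.and (hev2.and (Filter.eventually_ge_atTop 1))))
  refine ⟨d0, fun d hd => ?_⟩
  obtain ⟨e1, e2, e3, e4⟩ := hd0 d hd
  simp only [Function.comp_def] at e1
  have hd1 : (0:ℝ) < d := by exact_mod_cast e4
  have hηd : 0 ≤ η * d := by positivity
  obtain ⟨g, hg⟩ : ∃ g : ℕ, g = ⌊η * d⌋₊ := ⟨_, rfl⟩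
  have hg1 : (g:ℝ) ≤ η * d := by rw [hg]; exact Nat.floor_le hηd
  have hg2 : η * d < g + 1 := by rw [hg]; exact Nat.lt_floor_add_one _
  have e2' : 2 < η * d := by
    have h1 := mul_lt_mul_of_pos_right e2 hd1
    rw [inv_mul_cancel₀ hd1.ne'] at h1
    linarith
  have e3' : (T:ℝ) + 1 < η * d := by
    have h1 := mul_lt_mul_of_pos_right e3 hd1
    rw [mul_assoc, inv_mul_cancel₀ hd1.ne', mul_one] at h1
    exact h1
  have hg0 : 0 < g := by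
    have : (1:ℝ) < g := by linarith
    have : 1 < g := by exact_mod_cast this
    omega
  have hadmR : 4 * (H:ℝ) * g + T + g ≤ d := by
    have h1 : 4 * (H:ℝ) * g ≤ 4 * H * (η * d) := by gcongr
    have h2 : (4 * H + 2) * η * d ≤ d := by
      rw [hη1]
      nlinarith
    nlinarith
  have hadm : 4 * H * g + T + g ≤ d := by exact_mod_cast hadmR
  refine ⟨g, ⟨hg0, hadm, ?_⟩, ?_⟩
  · rw [div_mul_eq_mul_div, le_div_iff₀ hη0]
    nlinarith
  rw [bw_card hg0 (by omega)]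
  have hmain : ((η - (d:ℝ)⁻¹) * s) ^ (2 * H) * (((1 - 4 * H * η) - T * (d:ℝ)⁻¹) * s) ^ T * ψ
      ≤ (((2 * g) ^ (2 * H) * (2 ^ T * (d - 4 * H * g).descFactorial T) : ℕ) : ℝ)
        * (ψ * (s / (2 * d)) ^ (2 * H + T)) := by
    have h1 : (((d - 4 * H * g) + 1 - T) ^ T : ℕ) ≤ (d - 4 * H * g).descFactorial T :=
      Nat.pow_sub_le_descFactorial _ _
    have h1' : ((((d - 4 * H * g) + 1 - T : ℕ) : ℝ)) ^ T
        ≤ ((d - 4 * H * g).descFactorial T : ℝ) := by exact_mod_cast h1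
    have h2 : (((d - 4 * H * g) + 1 - T : ℕ) : ℝ) = d - 4 * H * g + 1 - T := by
      rw [Nat.cast_sub (by omega), Nat.cast_add, Nat.cast_sub (by omega)]
      push_cast; ring
    rw [h2] at h1'
    push_cast
    have h3 : (2 * (g:ℝ)) ^ (2 * H) * (2 ^ T * ((d - 4 * H * g).descFactorial T : ℝ))
        * (ψ * (s / (2 * d)) ^ (2 * H + T))
        = (2 * (g:ℝ) * (s / (2 * d))) ^ (2 * H)
          * ((2 * (s / (2 * d))) ^ T * ((d - 4 * H * g).descFactorial T : ℝ)) * ψ := by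
      rw [pow_add, mul_pow (2 * (g:ℝ)) (s / (2 * d)), mul_pow 2 (s / (2 * d)) T]; ring
    rw [h3]
    have hdi : (d:ℝ) * (d:ℝ)⁻¹ = 1 := mul_inv_cancel₀ hd1.ne'
    have h4 : (η - (d:ℝ)⁻¹) * s ≤ 2 * (g:ℝ) * (s / (2 * d)) := by
      have : 2 * (g:ℝ) * (s / (2 * d)) = (g * (d:ℝ)⁻¹) * s := by field_simp
      rw [this]
      refine mul_le_mul_of_nonneg_right ?_ hs.le
      have h5 : (η * d - 1) * (d:ℝ)⁻¹ ≤ g * (d:ℝ)⁻¹ :=
        mul_le_mul_of_nonneg_right (by linarith) (by positivity)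
      calc η - (d:ℝ)⁻¹ = (η * d - 1) * (d:ℝ)⁻¹ := by rw [sub_mul, mul_assoc, hdi]; ring
        _ ≤ _ := h5
    have h6 : 0 ≤ (η - (d:ℝ)⁻¹) * s := mul_nonneg (by linarith) hs.le
    have h7 : 0 ≤ ((1 - 4 * H * η) - T * (d:ℝ)⁻¹) * s := by
      refine mul_nonneg ?_ hs.le
      have h8 : (T:ℝ) * (d:ℝ)⁻¹ ≤ η := by
        have : (0:ℝ) ≤ (d:ℝ)⁻¹ := by positivity
        nlinarith
      nlinarith
    have h8 : (((1 - 4 * H * η) - T * (d:ℝ)⁻¹) * s) ^ T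
        ≤ (2 * (s / (2 * d))) ^ T * ((d - 4 * H * g).descFactorial T : ℝ) := by
      have h9 : ((1 - 4 * H * η) - T * (d:ℝ)⁻¹) * s
          ≤ (2 * (s / (2 * d))) * (d - 4 * H * g + 1 - T) := by
        have h10 : (2 * (s / (2 * d))) * ((d:ℝ) - 4 * H * g + 1 - T)
            = ((d - 4 * H * g + 1 - T) * (d:ℝ)⁻¹) * s := by field_simp
        rw [h10]
        refine mul_le_mul_of_nonneg_right ?_ hs.le
        have h11 : (d - 4 * H * (η * d) - T) * (d:ℝ)⁻¹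
            ≤ (d - 4 * H * g + 1 - T) * (d:ℝ)⁻¹ := by
          refine mul_le_mul_of_nonneg_right ?_ (by positivity)
          have : 4 * (H:ℝ) * g ≤ 4 * H * (η * d) := by gcongr
          linarith
        calc (1 - 4 * H * η) - T * (d:ℝ)⁻¹
            = (1 - 4 * H * η) * (d * (d:ℝ)⁻¹) - T * (d:ℝ)⁻¹ := by rw [hdi, mul_one]
          _ = (d - 4 * H * (η * d) - T) * (d:ℝ)⁻¹ := by ring
          _ ≤ _ := h11
      calc (((1 - 4 * H * η) - T * (d:ℝ)⁻¹) * s) ^ T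
          ≤ ((2 * (s / (2 * d))) * (d - 4 * H * g + 1 - T)) ^ T := pow_le_pow_left₀ h7 h9 T
        _ = (2 * (s / (2 * d))) ^ T * (d - 4 * H * g + 1 - T) ^ T := by rw [mul_pow]
        _ ≤ _ := mul_le_mul_of_nonneg_left h1' (by positivity)
    refine mul_le_mul_of_nonneg_right ?_ hψ0.le
    exact mul_le_mul (pow_le_pow_left₀ h6 h4 _) h8 (pow_nonneg h7 _) (by positivity)
  exact e1.le.trans hmain

end H42.CD
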