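import Pool.Agent.H42.CD.Det
import Pool.Agent.H42.CD.BGeo

/-!
# Module BOPEN: certified paths are open

Let `U ∈ PathEv κ K h T t p β`, `O` stable, `U ≤ 1`. Vertex `(b, i)`, `i < n = 2h+T`, is
`z = start β b + bpos (β b) i`; it is entered through the edge `ed z (rev (inl (prv p β b) (β b) i))` and left
through `bedge (start β b) (β b) i = ed z (β b i)`. The next vertex of `(b, i)` is `(b, i+1)` if `i + 1 < n` and
`(b+1, 0)` if `i + 1 = n`; the edge through which it is entered is the edge through which `(b, i)` is left
(`ed_rev`, `bpos_succ`, `start_succ`, `bpos_last`, definitions of `inl` and `prv`). All edges of the path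
(except perhaps the one through which `(0,0)` is entered) have time `≤ t`.
At every vertex `(b, i)` with `b < N`, for `v` = the time of the edge through which it is left, or `v` = the time
of the edge through which it is entered, provided `v ≤ t`: `nOpen U O z v < κ`. For core vertices this is
`nOpen_lt_of_side`, for the others `nOpen_lt_of_clean` (`2 ≤ κ`).
So by stability every edge of the path both of whose endpoints are vertices `(b, i)` with `b < N` is in `O`, and
its endpoints are `Linked`. These are all the edges up to the vertex `(N-1, n-1)`. By induction all vertices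
`(b, i)`, `b < N`, are in the cluster of `(0, 0) = 0`.
-/

open MeasureTheory Set Filter
open scoped ENNReal Topology

namespace H42.CD

section

variable {d κ K h T N : ℕ} {t : ℝ} {U : Edge d → ℝ} {O : Set (Edge d)} {p : Dir d}
  {β : Fin N → Fin (2 * h + T) → Dir d}

/-- at a vertex of the path less than `κ` edges are open before the edge through which it is left -/
theorem open_out (hκ : 2 ≤ κ) (hU : ∀ e, U e ≤ 1) (hS : Stable κ U O)
    (hP : U ∈ PathEv κ K h T t p β) (b : Fin N) (i : Fin (2 * h + T)) :
    nOpen U O (start β b + bpos (β b) i) (U (ed (start β b + bpos (β b) i) (β b i))) < κ := by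
  obtain ⟨h1, h2, h3⟩ := mem_iInter.1 hP b
  by_cases hc : IsCore h T i.val
  · exact nOpen_lt_of_side hU hS K _ (h2 i hc) (le_max_right _ _) (Or.inr rfl)
  · exact nOpen_lt_of_clean hκ _ (h3 i hc) (h1 i) (Or.inr rfl)

/-- at a vertex of the path less than `κ` edges are open before the edge through which it is
entered -/
theorem open_in (hκ : 2 ≤ κ) (hU : ∀ e, U e ≤ 1) (hS : Stable κ U O)
    (hP : U ∈ PathEv κ K h T t p β) (b : Fin N) (i : Fin (2 * h + T))
    (ht : U (ed (start β b + bpos (β b) i) (rev (inl (prv p β b) (β b) i))) ≤ t) :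
    nOpen U O (start β b + bpos (β b) i)
      (U (ed (start β b + bpos (β b) i) (rev (inl (prv p β b) (β b) i)))) < κ := by
  obtain ⟨h1, h2, h3⟩ := mem_iInter.1 hP b
  by_cases hc : IsCore h T i.val
  · exact nOpen_lt_of_side hU hS K _ (h2 i hc) (le_max_left _ _) (Or.inl rfl)
  · exact nOpen_lt_of_clean hκ _ (h3 i hc) ht (Or.inl rfl)

theorem open_step (hκ : 2 ≤ κ) (hU : ∀ e, U e ≤ 1) (hS : Stable κ U O)
    (hP : U ∈ PathEv κ K h T t p β) (b b' : Fin N) (i i' : Fin (2 * h + T))
    (hz : start β b' + bpos (β b') i' = start β b + bpos (β b) i + stp (β b i))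
    (hl : inl (prv p β b') (β b') i' = β b i) :
    Linked U O t (start β b + bpos (β b) i) (start β b' + bpos (β b') i') := by
  have h1 : U (ed (start β b + bpos (β b) i) (β b i)) ≤ t := (mem_iInter.1 hP b).1 i
  have h2 := open_in hκ hU hS hP b' i'
  rw [hl, hz, ed_rev] at h2
  exact ⟨β b i, hz, (hS _ _).2 ⟨open_out hκ hU hS hP b i, h2 h1⟩, h1⟩

end

theorem path_open {d κ K h T N : ℕ} (hκ : 2 ≤ κ) {t : ℝ} {U : Edge d → ℝ} {O : Set (Edge d)}
    (hU : ∀ e, U e ≤ 1) (hS : Stable κ U O) {p : Dir d}
    {β : Fin N → Fin (2 * h + T) → Dir d} (h0 : 0 < 2 * h + T)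
    (hP : U ∈ PathEv κ K h T t p β) (b : Fin N) : start β b ∈ cluster U O t 0 := by
  have key : ∀ m : ℕ, ∀ hm : m < N, start β m ∈ cluster U O t 0 := by
    intro m
    induction m with
    | zero =>
      intro hm
      rw [start_zero]
      exact Relation.ReflTransGen.refl
    | succ m ih =>
      intro hm
      have hm' : m < N := by omega
      have h1 : ∀ i : ℕ, ∀ hi : i < 2 * h + T,
          start β m + bpos (β ⟨m, hm'⟩) i ∈ cluster U O t 0 := by
        intro i
        induction i with
        | zero =>
          intro _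
          rw [bpos_zero, add_zero]
          exact ih hm'
        | succ i ihi =>
          intro hi
          have h2 := ihi (by omega)
          have h3 := open_step hκ hU hS hP ⟨m, hm'⟩ ⟨m, hm'⟩ ⟨i, by omega⟩ ⟨i + 1, hi⟩
            (by
              have := bpos_succ (β ⟨m, hm'⟩) ⟨i, by omega⟩
              simp only at this ⊢
              rw [this, add_assoc])
            (by simp [inl])
          exact Relation.ReflTransGen.tail h2 h3
      have h2 := h1 (2 * h + T - 1) (by omega)
      have h3 := open_step hκ hU hS hP ⟨m, hm'⟩ ⟨m + 1, hm⟩ ⟨2 * h + T - 1, by omega⟩ ⟨0, h0⟩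
        (by
          have e1 := start_succ β ⟨m, hm'⟩
          have e2 := bpos_succ (β ⟨m, hm'⟩) ⟨2 * h + T - 1, by omega⟩
          have e3 : 2 * h + T - 1 + 1 = 2 * h + T := by omega
          simp only [e3] at e1 e2 ⊢
          rw [bpos_zero, add_zero, e1, ← bpos_last, e2, add_assoc])
        (by
          unfold inl prv
          simp only [if_true]
          rw [dif_pos ⟨Nat.succ_pos m, h0⟩]
          rfl)
      have h4 := Relation.ReflTransGen.tail h2 h3
      simp only [bpos_zero, add_zero] at h4
      exact h4
  exact key b b.isLt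

end H42.CD
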