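import Pool.Agent.H42.CD.BSupp

/-!
# Module BSAME: disjointness of the supports, same path and distant paths

Read the header of `BSupp` first (levels of base points, (a)-(c)).
`same_path` (`b ≠ b'`, same path): by `far_blocks` let `b' = b + 1`. A common edge has a base point of level
`2h(b+1)-1`; in block `b+1` it is an edge `{y, y - e_a}` going down from the starting point
`y = start β (b+1)` in a drift coordinate `a`, by a direction `≠ rev (prv)`. In block `b` it is (see (a)-(c)) an
edge at the vertex `z` with `i = τ - 1`, the only one of this level (`K+4 ≤ h`, `T ≥ 1` or not); one endpoint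
of the edge is `z`, and `z` has level `2h(b+1)-1`, so `z = y - e_a`. But `y = z + stp (last letter of block b)`
(`start_succ`, `bpos_last`), so `stp (last letter) = e_a` and the direction is `rev` of the last letter
`= rev (prv p β (b+1))`: contradiction.
`distance`: if `nrm (start β b - start β' b) > 6 τ` and `b' ≤ b + 1`, `b ≤ b' + 1`: base points of `bsupp` of
block `b` are within `(τ - 1) + (K + 2)` of `start β b`, those of block `b'` of `β'` within
`(τ - 1) + (K+2) + τ` of `start β' b` (if `b' = b + 1` or `b' = b - 1`, `start β' b'` is within `τ` of `start β' b`), and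
`(τ-1) + (K+2) + (τ-1) + (K+2) + τ ≤ 6 τ`.
-/

open MeasureTheory Set Filter
open scoped ENNReal Topology

namespace H42.CD

variable {d g h T K N : ℕ} {p : Dir d} {β β' : Fin N → Fin (2 * h + T) → Dir d}

/-- edges of the support of block `b` of the highest level are edges at the last vertex -/
theorem su_top (hg : 0 < g) (hh : K + 4 ≤ h) (hβ : ∀ b, β b ∈ BW d g h T) {b : Fin N}
    {e : Edge d} (he : e ∈ su K h T p β b) (hl : lev g h e.1 = 2 * h * b + 2 * h - 1) :
    ∃ l, e = ed (start β b + bpos (β b) (2 * h + T - 1)) l := by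
  have hlast : ∀ i : Fin (2 * h + T), 2 * h - 1 ≤ min i.val h + (i.val - (h + T)) →
      i.val = 2 * h + T - 1 := by
    intro i hi
    have := i.isLt
    omega
  rcases he with ⟨i, rfl⟩ | ⟨i, hi, he⟩ | ⟨i, _, l, _, rfl⟩
  · rw [bedge_lev hg hβ b i] at hl
    have h1 := hlast i (by omega)
    exact ⟨β b i, by rw [bedge, h1]⟩
  · have := (near_lev hg hh hβ hi he).2
    omega
  · have h1 := vert_lev hg hβ b i
    have h2 := levp_le (T := T) (by omega : 1 ≤ h) i.isLt
    have h4 : i.val = 2 * h + T - 1 := by
      apply hlast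
      rcases base_lev (g := g) (h := h) (start β b + bpos (β b) i) l with h3 | ⟨h3, _⟩
      · rw [h3, h1] at hl; omega
      · rw [h3, h1] at hl; omega
    exact ⟨l, by rw [h4]⟩

/-- edges of the support of block `b` of the lowest level are edges at the first vertex -/
theorem su_bot (hg : 0 < g) (hh : K + 4 ≤ h) (hβ : ∀ b, β b ∈ BW d g h T) {b : Fin N}
    {e : Edge d} (he : e ∈ su K h T p β b) (hl : lev g h e.1 = 2 * h * b - 1) :
    ∃ l, l ≠ rev (prv p β b) ∧ e = ed (start β b) l := by
  rcases he with ⟨i, rfl⟩ | ⟨i, hi, he⟩ | ⟨i, _, l, hne, rfl⟩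
  · rw [bedge_lev hg hβ b i] at hl
    omega
  · have := (near_lev hg hh hβ hi he).1
    omega
  · have h1 := vert_lev hg hβ b i
    have h4 : i.val = 0 := by
      rcases base_lev (g := g) (h := h) (start β b + bpos (β b) i) l with h3 | ⟨h3, _⟩
      · rw [h3, h1] at hl; omega
      · rw [h3, h1] at hl; omega
    refine ⟨l, ?_, ?_⟩
    · unfold inl at hne
      rwa [if_pos h4] at hne
    · rw [h4, bpos_zero, add_zero]

theorem same_path_succ (hg : 0 < g) (hh : K + 4 ≤ h)
    (hβ : ∀ b, β b ∈ BW d g h T) {b b' : Fin N} (hb : b'.val = b.val + 1) :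
    Disjoint (su K h T p β b) (su K h T p β b') := by
  rw [Set.disjoint_left]
  intro e he he'
  have h1 := (su_lev hg hh hβ he).2
  have h2 := (su_lev hg hh hβ he').1
  have h3 : ((b'.val : ℕ) : ℤ) = b.val + 1 := by exact_mod_cast hb
  have h4 : (2 * h * (b'.val : ℤ)) = 2 * h * b.val + 2 * h := by rw [h3]; ring
  have hl : lev g h e.1 = 2 * h * b + 2 * h - 1 := by linarith
  have hl' : lev g h e.1 = 2 * h * b' - 1 := by linarith
  obtain ⟨l, hl1⟩ := su_top hg hh hβ he hl
  obtain ⟨l', hne, hl2⟩ := su_bot hg hh hβ he' hl'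
  set z := start β b + bpos (β b) (2 * h + T - 1) with hz
  set i0 : Fin (2 * h + T) := ⟨2 * h + T - 1, by omega⟩ with hi0
  have hy : start β b' = z + stp (β b i0) := by
    have h5 : start β b' = start β b + disp (β b) := by
      have := start_succ β b
      rw [← this, hb]
    have h6 : disp (β b) = bpos (β b) (2 * h + T - 1) + stp (β b i0) := by
      rw [← bpos_last]
      have := bpos_succ (β b) i0
      rw [← this]
      congr 1
      simp only [hi0]
      omega
    rw [h5, h6, hz, add_assoc]
  have hprv : prv p β b' = β b i0 := by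
    unfold prv
    rw [dif_pos ⟨by omega, by omega⟩]
    congr 2
    omega
  rw [hl1, ed_eq_iff] at hl2
  rcases hl2 with ⟨h5, _⟩ | ⟨h5, h6⟩
  · rw [hy] at h5
    have : stp (β b i0) = 0 := by
      have h7 : z + stp (β b i0) = z + 0 := by rw [← h5, add_zero]
      exact add_left_cancel h7
    exact stp_ne_zero _ this
  · rw [hy] at h5
    have h7 : β b i0 = l := stp_inj (add_left_cancel h5)
    rw [hprv, h7] at hne
    exact hne h6

theorem same_path (hg : 0 < g) (hh : K + 4 ≤ h) (hp : Allow g h T (2 * h + T - 1) p)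
    (hβ : ∀ b, β b ∈ BW d g h T) {b b' : Fin N} (hb : b ≠ b') :
    Disjoint (su K h T p β b) (su K h T p β b') := by
  rcases lt_or_gt_of_ne hb with hlt | hlt
  · by_cases h2 : b.val + 2 ≤ b'.val
    · exact far_blocks hg hh hp hβ hβ h2
    · exact same_path_succ hg hh hβ (by have : b.val < b'.val := hlt; omega)
  · by_cases h2 : b'.val + 2 ≤ b.val
    · exact (far_blocks hg hh hp hβ hβ h2).symm
    · exact (same_path_succ hg hh hβ (by have : b'.val < b.val := hlt; omega)).symm

theorem su_dist (hh : K + 4 ≤ h) (hβ : ∀ b, β b ∈ BW d g h T) {b : Fin N}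
    {e : Edge d} (he : e ∈ su K h T p β b) :
    dist1 e.1 (start β b) ≤ 2 * h + T + K + 1 := by
  have hv : ∀ i : Fin (2 * h + T), dist1 (start β b + bpos (β b) i) (start β b)
      ≤ 2 * h + T - 1 := by
    intro i
    have h1 := dist_bpos (hβ b) (Nat.zero_le i.val) i.isLt.le
    rw [bpos_zero] at h1
    rw [dist1_sub_left, add_sub_cancel_left, dist1_comm, h1]
    have := i.isLt
    omega
  have hn : ∀ (i : Fin (2 * h + T)) (l : Dir d),
      dist1 (ed (start β b + bpos (β b) i) l).1 (start β b) ≤ 2 * h + T := by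
    intro i l
    have h1 := dist1_tri (ed (start β b + bpos (β b) i) l).1 (start β b + bpos (β b) i) (start β b)
    have h2 := ed_base (start β b + bpos (β b) i) l
    have h3 := hv i
    have := i.isLt
    omega
  rcases he with ⟨i, rfl⟩ | ⟨i, hi, he⟩ | ⟨i, _, l, _, rfl⟩
  · have := hn i (β b i)
    unfold bedge
    omega
  · have h1 := dist1_tri e.1 (start β b + bpos (β b) i) (start β b)
    have h2 : dist1 e.1 (start β b + bpos (β b) i) ≤ K + 2 := he
    have h3 := hv i
    have := i.isLt
    omega
  · have := hn i l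
    omega

theorem start_dist (hβ : ∀ b, β b ∈ BW d g h T) {b b' : Fin N}
    (hb : b'.val ≤ b.val + 1) (hb' : b.val ≤ b'.val + 1) :
    dist1 (start β b) (start β b') ≤ 2 * h + T := by
  have key : ∀ c : Fin N, dist1 (start β (c.val + 1)) (start β c) ≤ 2 * h + T := by
    intro c
    rw [start_succ, dist1_sub_left, add_sub_cancel_left, ← bpos_last, dist1_comm]
    have h1 := dist_bpos (hβ c) (Nat.zero_le (2 * h + T)) le_rfl
    rw [bpos_zero] at h1
    rw [h1]
    omega
  rcases Nat.lt_trichotomy b.val b'.val with hlt | heq | hlt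
  · have h1 : b'.val = b.val + 1 := by omega
    rw [h1, dist1_comm]
    exact key b
  · rw [heq, dist1_self]
    omega
  · have h1 : b.val = b'.val + 1 := by omega
    rw [h1]
    exact key b'

theorem distance (_hg : 0 < g) (hh : K + 4 ≤ h) (_hp : Allow g h T (2 * h + T - 1) p)
    (hβ : ∀ b, β b ∈ BW d g h T) (hβ' : ∀ b, β' b ∈ BW d g h T) {b b' : Fin N}
    (hb : b'.val ≤ b.val + 1) (hb' : b.val ≤ b'.val + 1)
    (hd : 6 * (2 * h + T) < nrm (start β b - start β' b)) :
    Disjoint (su K h T p β b) (su K h T p β' b') := by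
  rw [Set.disjoint_left]
  intro e he he'
  have h1 := su_dist hh hβ he
  have h2 := su_dist hh hβ' he'
  have h3 := start_dist hβ' (b := b) (b' := b') hb hb'
  have h4 : nrm (start β b - start β' b) = dist1 (start β b) (start β' b) :=
    (dist1_sub_left _ _).symm
  have h5 := dist1_tri (start β b) e.1 (start β' b)
  have h6 := dist1_tri e.1 (start β' b') (start β' b)
  rw [dist1_comm (start β b) e.1] at h5
  rw [dist1_comm (start β' b') (start β' b)] at h6
  omega

end H42.CD
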