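import Pool.Agent.H42.CD.Ind
import Pool.Agent.H42.CD.Meas
import Pool.Agent.H42.CD.Supp
import Pool.Agent.H42.CD.BSame

/-!
# Module BPAIR: probability that two paths are certified

Write `A b = BlkEv κ K h T t (start β b) (prv p β b) (β b)` (depends on `su β b`, `dep_blkEv`), `A' b` the same
for `β'`, `q b = P(A b)`, `q' b = P(A' b)`, `Δ b = start β b - start β' b`.

`path_prob`: `P(PathEv β) = ∏ q b`, by `indep_prod` and `same_path`.

`pair_prob`: `P(PathEv β ∩ PathEv β') ≤ ∏ kb b`, where
* `Far b` (`6τ < nrm (Δ b)`): `kb b = q b * q' b`;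
* `Kept b` (`Δ b = 0`, `β b = β' b`, and `b = 0` or the same holds for `b - 1`): `kb b = q b`;
* otherwise `kb b = t ^ (2 τ - sh (Δ b) (β b) (β' b))`.
Proof: `PathEv β ∩ PathEv β' ⊆ ⋂ F b` with `F b = A b ∩ A' b`, `F b = A b`, `F b = {U ≤ t on es β b ∪ es β' b}`
respectively; `F b` depends on `S b = su β b ∪ su β' b`, `su β b`, `es β b ∪ es β' b`. `P(F b)`: in the first case
`q b q' b` by `indep_prod` and `distance` (with `b' = b`); in the third case `t ^ #(es β b ∪ es β' b)` (`prob_le`) and
`#(∪) = 2 τ - sh` (`bedge_inj`; `sh` is translation invariant: `es β b`, `es β' b` are translates by `start β' b` of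
`bedges (Δ b) (β b)`, `bedges 0 (β' b)`). The `S b` are pairwise disjoint: let `b < b'`.
 - `b' ≥ b + 2`: `far_blocks` (all four combinations, `es ⊆ su`).
 - `b' = b + 1`. Same path: `same_path`. Different paths: if `Far b` or `Far b'`: `distance` (the bound on
   `nrm` is symmetric in the two paths). If neither is far: `S b ⊆ su β b ∪ es β b ∪ es β' b` and `su β b` (for `b`
   kept) against `es β' b'`: `supp_edges`; `S b'` contains `su β b'` only if `b' = b+1` is kept, and then
   `Δ b = 0`, `β b = β' b`, so `es β' b = es β b` and `same_path` applies; `es` against `es`: `edges_edges`; `su β b`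
   against `su β b'`: `same_path`.
-/

open MeasureTheory Set Filter
open scoped ENNReal Topology

namespace H42.CD

variable {d κ g h T K N : ℕ} {p : Dir d} {β β' : Fin N → Fin (2 * h + T) → Dir d}

/-- blocks `b` of the two paths coincide -/
def Eqb (β β' : Fin N → Fin (2 * h + T) → Dir d) (b : Fin N) : Prop :=
  start β b - start β' b = 0 ∧ β b = β' b

/-- block `b` and the previous one coincide -/
def Kept (β β' : Fin N → Fin (2 * h + T) → Dir d) (b : Fin N) : Prop :=
  Eqb β β' b ∧ ∀ b' : Fin N, b'.val + 1 = b.val → Eqb β β' b'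

/-- probability of block `b` -/
noncomputable def qb (κ K : ℕ) (t : ℝ) (p : Dir d) (β : Fin N → Fin (2 * h + T) → Dir d)
    (b : Fin N) : ℝ :=
  (lawU d).real (BlkEv κ K h T t (start β b) (prv p β b) (β b))

open Classical in
/-- bound for the pair of blocks `b` -/
noncomputable def kb (κ K : ℕ) (t : ℝ) (p : Dir d) (β β' : Fin N → Fin (2 * h + T) → Dir d)
    (b : Fin N) : ℝ :=
  if 6 * (2 * h + T) < nrm (start β b - start β' b) then qb κ K t p β b * qb κ K t p β' b
  else if Kept β β' b then qb κ K t p β b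
  else t ^ (2 * (2 * h + T) - sh (start β b - start β' b) (β b) (β' b))

theorem indep_two {I : Type} (μ : Measure ℝ) [IsProbabilityMeasure μ] {S S' : Set I}
    {A A' : Set (I → ℝ)} (hA : MeasurableSet A) (hA' : MeasurableSet A') (hd : Dep A S)
    (hd' : Dep A' S') (hS : Disjoint S S') :
    (Measure.infinitePi fun _ : I => μ) (A ∩ A')
      = (Measure.infinitePi fun _ : I => μ) A * (Measure.infinitePi fun _ : I => μ) A' := by
  have h := indep_prod (ι := Bool) μ Finset.univ (fun b => if b then S else S')
    (fun b => if b then A else A') (fun b _ => by cases b <;> simpa)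
    (fun b _ => by cases b <;> simpa)
    (by
      intro a _ b _ hab
      cases a <;> cases b
      · exact absurd rfl hab
      · simpa [Function.onFun] using hS.symm
      · simpa [Function.onFun] using hS
      · exact absurd rfl hab)
  have e1 : (⋂ b ∈ (Finset.univ : Finset Bool), (if b then A else A')) = A ∩ A' := by
    ext U
    simp only [Finset.mem_univ, iInter_true, mem_iInter, mem_inter_iff]
    constructor
    · intro h
      exact ⟨by simpa using h true, by simpa using h false⟩
    · rintro ⟨h1, h2⟩ b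
      cases b <;> simpa
  rw [e1] at h
  rw [h]
  simp

theorem es_card {v : Fin (2 * h + T) → Dir d} (hv : v ∈ BW d g h T) (y : V d) :
    (bedges y v).card = 2 * h + T := by
  unfold bedges
  rw [Finset.card_image_of_injective _ (bedge_inj hv y), Finset.card_univ, Fintype.card_fin]

/-- translation of an edge -/
def shf (z : V d) (e : Edge d) : Edge d := (e.1 + z, e.2)

theorem shf_inj (z : V d) : Function.Injective (shf z) := by
  intro e e' he
  unfold shf at he
  rw [Prod.mk.injEq] at he
  exact Prod.ext (add_right_cancel he.1) he.2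

theorem ed_shf (x z : V d) (i : Dir d) : ed (x + z) i = shf z (ed x i) := by
  unfold ed shf
  split_ifs
  · rfl
  · refine Prod.ext ?_ rfl
    simp only
    abel

theorem bedges_shf {n : ℕ} (y z : V d) (v : Fin n → Dir d) :
    bedges (y + z) v = (bedges y v).image (shf z) := by
  unfold bedges
  rw [Finset.image_image]
  congr 1
  funext j
  unfold bedge
  simp only [Function.comp]
  rw [← ed_shf]
  congr 1
  abel

theorem sh_eq (β β' : Fin N → Fin (2 * h + T) → Dir d) (b : Fin N) :
    (es β b ∩ es β' b).card = sh (start β b - start β' b) (β b) (β' b) := by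
  unfold es sh
  have h1 : bedges (start β b) (β b)
      = (bedges (start β b - start β' b) (β b)).image (shf (start β' b)) := by
    rw [← bedges_shf]; congr 1; abel
  have h2 : bedges (start β' b) (β' b) = (bedges 0 (β' b)).image (shf (start β' b)) := by
    rw [← bedges_shf]; congr 1; abel
  rw [h1, h2, ← Finset.image_inter _ _ (shf_inj _), Finset.card_image_of_injective _ (shf_inj _)]

theorem blk_sub (κ K h T : ℕ) (t : ℝ) (β : Fin N → Fin (2 * h + T) → Dir d) (b : Fin N)
    (q : Dir d) : BlkEv κ K h T t (start β b) q (β b) ⊆ {U | ∀ e ∈ es β b, U e ≤ t} := by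
  intro U hU e he
  unfold es bedges at he
  rw [Finset.mem_image] at he
  obtain ⟨i, _, rfl⟩ := he
  exact hU.1 i

theorem path_prob (hg : 0 < g) (hh : K + 4 ≤ h) (hp : Allow g h T (2 * h + T - 1) p)
    (hβ : ∀ b, β b ∈ BW d g h T) (t : ℝ) :
    (lawU d).real (PathEv κ K h T t p β) = ∏ b, qb κ K t p β b := by
  have h1 := indep_prod (ι := Fin N) unif Finset.univ (fun b => su K h T p β b)
    (fun b => BlkEv κ K h T t (start β b) (prv p β b) (β b))
    (fun b _ => meas_blkEv κ K h T t _ _ _) (fun b _ => dep_blkEv κ K h T t _ _ _)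
    (fun a _ b _ hab => same_path hg hh hp hβ hab)
  have e1 : (⋂ b ∈ (Finset.univ : Finset (Fin N)),
      BlkEv κ K h T t (start β b) (prv p β b) (β b)) = PathEv κ K h T t p β := by
    unfold PathEv
    simp
  rw [e1] at h1
  unfold Measure.real qb Measure.real
  unfold lawU
  rw [h1, ENNReal.toReal_prod]

open Classical in
/-- event kept for block `b` -/
noncomputable def Fv (κ K : ℕ) (t : ℝ) (p : Dir d) (β β' : Fin N → Fin (2 * h + T) → Dir d)
    (b : Fin N) : Set (Edge d → ℝ) :=
  if 6 * (2 * h + T) < nrm (start β b - start β' b) then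
    BlkEv κ K h T t (start β b) (prv p β b) (β b) ∩
      BlkEv κ K h T t (start β' b) (prv p β' b) (β' b)
  else if Kept β β' b then BlkEv κ K h T t (start β b) (prv p β b) (β b)
  else {U | ∀ e ∈ es β b ∪ es β' b, U e ≤ t}

open Classical in
/-- its support -/
noncomputable def Sv (K : ℕ) (p : Dir d) (β β' : Fin N → Fin (2 * h + T) → Dir d)
    (b : Fin N) : Set (Edge d) :=
  if 6 * (2 * h + T) < nrm (start β b - start β' b) then su K h T p β b ∪ su K h T p β' b
  else if Kept β β' b then su K h T p β b
  else ((es β b ∪ es β' b : Finset (Edge d)) : Set (Edge d))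

theorem nrm_neg (x : V d) : nrm (-x) = nrm x := by
  unfold nrm dist1
  refine Finset.sum_congr rfl fun a _ => ?_
  simp

theorem nrm_symm (x y : V d) : nrm (x - y) = nrm (y - x) := by
  rw [← nrm_neg (x - y)]; congr 1; abel

theorem Sv_sub (b : Fin N) : Sv K p β β' b ⊆ su K h T p β b ∪ su K h T p β' b := by
  unfold Sv
  split_ifs
  · exact subset_rfl
  · exact subset_union_left
  · rw [Finset.coe_union]
    exact union_subset_union (es_sub_su b) (es_sub_su b)

theorem Sv_disj (hg : 0 < g) (hh : K + 4 ≤ h) (hp : Allow g h T (2 * h + T - 1) p)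
    (hβ : ∀ b, β b ∈ BW d g h T) (hβ' : ∀ b, β' b ∈ BW d g h T) {b b' : Fin N}
    (hb : b < b') : Disjoint (Sv K p β β' b) (Sv K p β β' b') := by
  have h11 := same_path hg hh hp hβ hb.ne
  have h22 := same_path hg hh hp hβ' hb.ne
  -- it suffices to have the cross terms
  have hcross : Disjoint (su K h T p β b) (su K h T p β' b') →
      Disjoint (su K h T p β' b) (su K h T p β b') →
      Disjoint (Sv K p β β' b) (Sv K p β β' b') := by
    intro h12 h21
    refine Disjoint.mono (Sv_sub b) (Sv_sub b') ?_
    rw [disjoint_union_left, disjoint_union_right, disjoint_union_right]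
    exact ⟨⟨h11, h12⟩, ⟨h21, h22⟩⟩
  by_cases h2 : b.val + 2 ≤ b'.val
  · exact hcross (far_blocks hg hh hp hβ hβ' h2) (far_blocks hg hh hp hβ' hβ h2)
  have hb1 : b'.val = b.val + 1 := by
    have : b.val < b'.val := hb
    omega
  by_cases hf : 6 * (2 * h + T) < nrm (start β b - start β' b)
  · exact hcross (distance hg hh hp hβ hβ' (by omega) (by omega) hf)
      (distance hg hh hp hβ' hβ (by omega) (by omega) (by rw [nrm_symm]; exact hf))
  by_cases hf' : 6 * (2 * h + T) < nrm (start β b' - start β' b')
  · exact hcross (distance hg hh hp hβ' hβ (b := b') (b' := b) (by omega) (by omega)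
        (by rw [nrm_symm]; exact hf')).symm
      (distance hg hh hp hβ hβ' (b := b') (b' := b) (by omega) (by omega) hf').symm
  have hSb : Sv K p β β' b ⊆ su K h T p β b ∪ (es β' b : Set (Edge d)) := by
    unfold Sv
    rw [if_neg hf]
    split_ifs
    · exact subset_union_left
    · rw [Finset.coe_union]
      exact union_subset_union (es_sub_su b) subset_rfl
  by_cases hk : Kept β β' b'
  · have he : Eqb β β' b := hk.2 b hb1.symm
    have hes : es β' b = es β b := by
      unfold es
      rw [he.2, sub_eq_zero.1 he.1]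
    have hS' : Sv K p β β' b' = su K h T p β b' := by
      unfold Sv
      rw [if_neg hf', if_pos hk]
    rw [hS']
    refine Disjoint.mono_left (hSb.trans ?_) h11
    rw [hes]
    exact union_subset subset_rfl (es_sub_su b)
  · have hS' : Sv K p β β' b' = (es β b' : Set (Edge d)) ∪ (es β' b' : Set (Edge d)) := by
      unfold Sv
      rw [if_neg hf', if_neg hk, Finset.coe_union]
    rw [hS']
    refine Disjoint.mono_left hSb ?_
    rw [disjoint_union_left, disjoint_union_right, disjoint_union_right]
    exact ⟨⟨h11.mono_right (es_sub_su b'), supp_edges hg hh hp hβ hβ' hb⟩,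
      ⟨edges_edges hg hh hβ' hβ hb.ne, edges_edges hg hh hβ' hβ' hb.ne⟩⟩

theorem Fv_dep {t : ℝ} (b : Fin N) : Dep (Fv κ K t p β β' b) (Sv K p β β' b) := by
  unfold Fv Sv
  split_ifs
  · intro U U' hU hUA
    exact ⟨dep_blkEv κ K h T t _ _ _ U U' (fun e he => hU e (Or.inl he)) hUA.1,
      dep_blkEv κ K h T t _ _ _ U U' (fun e he => hU e (Or.inr he)) hUA.2⟩
  · exact dep_blkEv κ K h T t _ _ _
  · intro U U' hU hUA e he
    rw [← hU e he]
    exact hUA e he

theorem meas_le (E : Finset (Edge d)) (t : ℝ) : MeasurableSet {U : Edge d → ℝ | ∀ e ∈ E, U e ≤ t} := by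
  have : {U : Edge d → ℝ | ∀ e ∈ E, U e ≤ t} = ⋂ e ∈ E, {U | U e ≤ t} := by
    ext U; simp
  rw [this]
  exact Finset.measurableSet_biInter _ fun e _ =>
    measurableSet_le (measurable_pi_apply e) measurable_const

theorem Fv_meas {t : ℝ} (b : Fin N) : MeasurableSet (Fv κ K t p β β' b) := by
  unfold Fv
  split_ifs
  · exact (meas_blkEv κ K h T t _ _ _).inter (meas_blkEv κ K h T t _ _ _)
  · exact meas_blkEv κ K h T t _ _ _
  · exact meas_le _ _

theorem Fv_prob (hg : 0 < g) (hh : K + 4 ≤ h) (hp : Allow g h T (2 * h + T - 1) p)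
    (hβ : ∀ b, β b ∈ BW d g h T) (hβ' : ∀ b, β' b ∈ BW d g h T) {t : ℝ} (h0 : 0 ≤ t)
    (h1 : t ≤ 1) (b : Fin N) : (lawU d).real (Fv κ K t p β β' b) = kb κ K t p β β' b := by
  unfold Fv kb
  split_ifs with hf hk
  · unfold Measure.real qb Measure.real
    unfold lawU
    rw [indep_two unif (meas_blkEv κ K h T t _ _ _) (meas_blkEv κ K h T t _ _ _)
      (dep_blkEv κ K h T t _ _ _) (dep_blkEv κ K h T t _ _ _)
      (distance hg hh hp hβ hβ' (by omega) (by omega) hf), ENNReal.toReal_mul]
  · rfl
  · unfold Measure.real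
    rw [prob_le _ h0 h1, ENNReal.toReal_ofReal (by positivity)]
    congr 1
    rw [Finset.card_union, sh_eq]
    unfold es
    rw [es_card (hβ b), es_card (hβ' b)]
    omega

theorem pair_prob (hg : 0 < g) (hh : K + 4 ≤ h) (hp : Allow g h T (2 * h + T - 1) p)
    (hβ : ∀ b, β b ∈ BW d g h T) (hβ' : ∀ b, β' b ∈ BW d g h T) {t : ℝ} (h0 : 0 ≤ t)
    (h1 : t ≤ 1) :
    (lawU d).real (PathEv κ K h T t p β ∩ PathEv κ K h T t p β') ≤ ∏ b, kb κ K t p β β' b := by
  have h2 := indep_prod (ι := Fin N) unif Finset.univ (fun b => Sv K p β β' b)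
    (fun b => Fv κ K t p β β' b) (fun b _ => Fv_meas b) (fun b _ => Fv_dep b)
    (fun a _ b _ hab => by
      rcases lt_or_gt_of_ne hab with h | h
      · exact Sv_disj hg hh hp hβ hβ' h
      · exact (Sv_disj hg hh hp hβ hβ' h).symm)
  have hsub : PathEv κ K h T t p β ∩ PathEv κ K h T t p β' ⊆
      ⋂ b ∈ (Finset.univ : Finset (Fin N)), Fv κ K t p β β' b := by
    rintro U ⟨hU, hU'⟩
    unfold PathEv at hU hU'
    rw [mem_iInter] at hU hU'
    simp only [Finset.mem_univ, iInter_true, mem_iInter]
    intro b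
    unfold Fv
    split_ifs
    · exact ⟨hU b, hU' b⟩
    · exact hU b
    · intro e he
      rcases Finset.mem_union.1 he with he | he
      · exact blk_sub κ K h T t β b _ (hU b) e he
      · exact blk_sub κ K h T t β' b _ (hU' b) e he
  refine (measureReal_mono hsub).trans (le_of_eq ?_)
  rw [← Finset.prod_congr rfl fun b _ => Fv_prob hg hh hp hβ hβ' h0 h1 b]
  unfold Measure.real
  unfold lawU
  rw [h2, ENNReal.toReal_prod]

end H42.CD
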