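import Pool.Agent.H42.CD.BPair

/-!
# Module BRATIO: from pairs of blocks to weights

`τ = 2h+T`. Let `ψ t^τ ≤ qb b` for all blocks of both paths, `0 < ψ ≤ 1`, `0 < t ≤ 1`, and
`ω b = om (1/(ψ t^τ)) (1/ψ^3) t (Δ b) (β b) (β' b)`, `Δ b = start β b - start β' b`. Claim:
`∏ kb b ≤ (∏ qb β b) (∏ qb β' b) ∏ ω b`.
Let `r b = kb b / (qb β b * qb β' b)`.
* `6τ < nrm (Δ b)`: `r b = 1 = ω b` (here `Δ b ≠ 0`).
* `Kept b`: then also `prv p β b = prv p β' b` and `start β b = start β' b`, so `qb β b = qb β' b`,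
  `r b = 1/qb β b ≤ 1/(ψ t^τ) = ω b`.
* `Eqb b`, not kept: `sh = τ` (`bedge_inj`, the two sets of edges are equal), `r b = t^τ/(qb qb') ≤ ω b / ψ`.
  Then `b ≥ 1`, block `b - 1` is not `Eqb`, and it is not far, since `Δ b = 0` and `nrm (Δ (b-1)) ≤ 2 τ` (`start_succ`,
  `nrm (disp v) ≤ τ`). Call it the partner of `b`.
* otherwise (`nrm (Δ b) ≤ 6τ`, not `Eqb`): `r b ≤ t^(2τ - sh)/(ψ t^τ)^2 = ψ^(-2) (1/t)^sh = ψ ω b` (`sh ≤ τ`).
So `∏ r b ≤ ∏ ω b * (1/ψ)^(#not kept Eqb) ψ^(#others near) ≤ ∏ ω b`, since the partner map `b ↦ b - 1` is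
injective from the third class to the fourth.
-/

open MeasureTheory Set Filter
open scoped ENNReal Topology

namespace H42.CD

variable {d κ g h T K N : ℕ} {p : Dir d} {β β' : Fin N → Fin (2 * h + T) → Dir d}

/-- third class -/
def br_X (β β' : Fin N → Fin (2 * h + T) → Dir d) (b : Fin N) : Prop :=
  Eqb β β' b ∧ ¬ Kept β β' b

/-- fourth class -/
def br_Y (β β' : Fin N → Fin (2 * h + T) → Dir d) (b : Fin N) : Prop :=
  ¬ Eqb β β' b ∧ nrm (start β b - start β' b) ≤ 6 * (2 * h + T)

theorem br_not_far {b : Fin N} (he : Eqb β β' b) :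
    ¬ 6 * (2 * h + T) < nrm (start β b - start β' b) := by
  rw [he.1]
  show ¬ 6 * (2 * h + T) < dist1 0 0
  rw [dist1_self]
  omega

theorem br_partner (hβ : ∀ b, β b ∈ BW d g h T) (hβ' : ∀ b, β' b ∈ BW d g h T)
    {b : Fin N} (hX : br_X β β' b) : ∃ b' : Fin N, b'.val + 1 = b.val ∧ br_Y β β' b' := by
  obtain ⟨he, hk⟩ := hX
  have h1 : ∃ b' : Fin N, b'.val + 1 = b.val ∧ ¬ Eqb β β' b' := by
    by_contra hcon
    apply hk
    refine ⟨he, ?_⟩
    intro b' hb'
    by_contra hn
    exact hcon ⟨b', hb', hn⟩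
  obtain ⟨b', hb', hne⟩ := h1
  refine ⟨b', hb', hne, ?_⟩
  have e1 : nrm (start β b' - start β' b') = dist1 (start β b') (start β' b') :=
    (dist1_sub_left _ _).symm
  have e2 := dist1_tri (start β b') (start β b) (start β' b')
  have e3 := dist1_tri (start β b) (start β' b) (start β' b')
  have e4 : dist1 (start β b) (start β' b) = 0 := by
    rw [dist1_eq_zero]
    exact sub_eq_zero.1 he.1
  have e5 := start_dist hβ (b := b') (b' := b) (by omega) (by omega)
  have e6 := start_dist hβ' (b := b) (b' := b') (by omega) (by omega)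
  rw [e1]
  omega

theorem br_card (hβ : ∀ b, β b ∈ BW d g h T) (hβ' : ∀ b, β' b ∈ BW d g h T)
    [DecidablePred (br_X β β')] [DecidablePred (br_Y β β')] :
    (Finset.univ.filter (br_X β β')).card ≤ (Finset.univ.filter (br_Y β β')).card := by
  classical
  refine Finset.card_le_card_of_injOn
    (fun b : Fin N => (⟨b.val - 1, by omega⟩ : Fin N)) ?_ ?_
  · intro b hb
    rw [Finset.mem_coe, Finset.mem_filter] at hb
    obtain ⟨b', hb', hY⟩ := br_partner hβ hβ' hb.2
    rw [Finset.mem_coe, Finset.mem_filter]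
    refine ⟨Finset.mem_univ _, ?_⟩
    have : (⟨b.val - 1, by omega⟩ : Fin N) = b' := Fin.ext (by simp only; omega)
    show br_Y β β' (⟨b.val - 1, by omega⟩ : Fin N)
    rw [this]
    exact hY
  · intro b hb c hc hbc
    rw [Finset.mem_coe, Finset.mem_filter] at hb hc
    obtain ⟨b', hb', _⟩ := br_partner hβ hβ' hb.2
    obtain ⟨c', hc', _⟩ := br_partner hβ hβ' hc.2
    simp only [Fin.mk.injEq] at hbc
    exact Fin.ext (by omega)

theorem br_prv {b : Fin N} (hk : Kept β β' b) : prv p β b = prv p β' b := by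
  unfold prv
  by_cases hb : 0 < b.val ∧ 0 < 2 * h + T
  · rw [dif_pos hb, dif_pos hb]
    have h1 := (hk.2 ⟨b.val - 1, by omega⟩ (by simp only; omega)).2
    rw [h1]
  · rw [dif_neg hb, dif_neg hb]

theorem br_sh_le (hβ' : ∀ b, β' b ∈ BW d g h T) (b : Fin N) (Δ : V d) :
    sh Δ (β b) (β' b) ≤ 2 * h + T := by
  unfold sh
  refine (Finset.card_le_card Finset.inter_subset_right).trans ?_
  rw [es_card (hβ' b)]

theorem br_term (hβ : ∀ b, β b ∈ BW d g h T) (hβ' : ∀ b, β' b ∈ BW d g h T)
    {t ψ : ℝ} (h0 : 0 < t) (hψ : 0 < ψ)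
    (hq : ∀ b, ψ * t ^ (2 * h + T) ≤ qb κ K t p β b)
    (hq' : ∀ b, ψ * t ^ (2 * h + T) ≤ qb κ K t p β' b)
    [DecidablePred (br_X β β')] [DecidablePred (br_Y β β')] (b : Fin N) :
    kb κ K t p β β' b ≤ (qb κ K t p β b * qb κ K t p β' b *
      om (1 / (ψ * t ^ (2 * h + T))) (1 / ψ ^ 3) t (start β b - start β' b) (β b) (β' b)) *
      ((if br_X β β' b then 1 / ψ else 1) * (if br_Y β β' b then ψ else 1)) := by
  have hpt : 0 < ψ * t ^ (2 * h + T) := by positivity
  have hqb : 0 < qb κ K t p β b := hpt.trans_le (hq b)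
  have hqb' : 0 < qb κ K t p β' b := hpt.trans_le (hq' b)
  unfold kb
  by_cases hf : 6 * (2 * h + T) < nrm (start β b - start β' b)
  · rw [if_pos hf]
    have hne : ¬ Eqb β β' b := fun he => br_not_far he hf
    have hX : ¬ br_X β β' b := fun hX => hne hX.1
    have hY : ¬ br_Y β β' b := fun hY => by
      have := hY.2
      omega
    rw [if_neg hX, if_neg hY]
    unfold om
    have hne' : ¬ (start β b - start β' b = 0 ∧ β b = β' b) := hne
    rw [if_neg hne', if_neg (not_le.2 hf)]
    simp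
  · rw [if_neg hf]
    by_cases hk : Kept β β' b
    · rw [if_pos hk]
      have he : Eqb β β' b := hk.1
      have hX : ¬ br_X β β' b := fun hX => hX.2 hk
      have hY : ¬ br_Y β β' b := fun hY => hY.1 he
      rw [if_neg hX, if_neg hY]
      unfold om
      have he' : start β b - start β' b = 0 ∧ β b = β' b := he
      rw [if_pos he', mul_one, mul_one]
      have e1 : 1 ≤ qb κ K t p β' b * (1 / (ψ * t ^ (2 * h + T))) := by
        rw [mul_one_div, le_div_iff₀ hpt, one_mul]
        exact hq' b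
      calc qb κ K t p β b = qb κ K t p β b * 1 := (mul_one _).symm
        _ ≤ qb κ K t p β b * (qb κ K t p β' b * (1 / (ψ * t ^ (2 * h + T)))) :=
          mul_le_mul_of_nonneg_left e1 hqb.le
        _ = _ := by ring
    · rw [if_neg hk]
      by_cases he : Eqb β β' b
      · have hX : br_X β β' b := ⟨he, hk⟩
        have hY : ¬ br_Y β β' b := fun hY => hY.1 he
        rw [if_pos hX, if_neg hY]
        unfold om
        have he' : start β b - start β' b = 0 ∧ β b = β' b := he
        rw [if_pos he']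
        have hsh : sh (start β b - start β' b) (β b) (β' b) = 2 * h + T := by
          rw [he.1, he.2]
          unfold sh
          rw [Finset.inter_self, es_card (hβ' b)]
        rw [hsh]
        have e0 : 2 * (2 * h + T) - (2 * h + T) = 2 * h + T := by omega
        rw [e0, mul_one]
        have e1 : ψ * t ^ (2 * h + T) * (ψ * t ^ (2 * h + T)) ≤
            qb κ K t p β b * qb κ K t p β' b :=
          mul_le_mul (hq b) (hq' b) hpt.le hqb.le
        calc t ^ (2 * h + T) = ψ * t ^ (2 * h + T) * (ψ * t ^ (2 * h + T)) *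
              (1 / (ψ * t ^ (2 * h + T))) * (1 / ψ) := by
              field_simp
          _ ≤ qb κ K t p β b * qb κ K t p β' b * (1 / (ψ * t ^ (2 * h + T))) * (1 / ψ) := by
            refine mul_le_mul_of_nonneg_right (mul_le_mul_of_nonneg_right e1 ?_) ?_
            · positivity
            · positivity
      · have hX : ¬ br_X β β' b := fun hX => he hX.1
        have hY : br_Y β β' b := ⟨he, not_lt.1 hf⟩
        rw [if_neg hX, if_pos hY]
        unfold om
        have he' : ¬ (start β b - start β' b = 0 ∧ β b = β' b) := he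
        rw [if_neg he', if_pos (not_lt.1 hf), one_mul]
        set m := sh (start β b - start β' b) (β b) (β' b) with hm
        have hml : m ≤ 2 * h + T := br_sh_le hβ' b _
        have e1 : ψ * t ^ (2 * h + T) * (ψ * t ^ (2 * h + T)) ≤
            qb κ K t p β b * qb κ K t p β' b :=
          mul_le_mul (hq b) (hq' b) hpt.le hqb.le
        have e2 : t ^ (2 * h + T) * t ^ (2 * h + T) = t ^ (2 * (2 * h + T) - m) * t ^ m := by
          rw [← pow_add, ← pow_add]
          congr 1
          omega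
        have htm : t ^ m ≠ 0 := by positivity
        have e3 : t ^ (2 * (2 * h + T) - m) = ψ * t ^ (2 * h + T) * (ψ * t ^ (2 * h + T)) *
              (1 / ψ ^ 3 * (1 / t) ^ m) * ψ := by
          rw [one_div_pow]
          have e4 : ψ * t ^ (2 * h + T) * (ψ * t ^ (2 * h + T)) =
              ψ ^ 2 * (t ^ (2 * (2 * h + T) - m) * t ^ m) := by
            rw [← e2]; ring
          rw [e4]
          field_simp
        calc t ^ (2 * (2 * h + T) - m) = ψ * t ^ (2 * h + T) * (ψ * t ^ (2 * h + T)) *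
              (1 / ψ ^ 3 * (1 / t) ^ m) * ψ := e3
          _ ≤ qb κ K t p β b * qb κ K t p β' b * (1 / ψ ^ 3 * (1 / t) ^ m) * ψ := by
            refine mul_le_mul_of_nonneg_right (mul_le_mul_of_nonneg_right e1 ?_) hψ.le
            positivity

theorem ratio_bound (hg : 0 < g) (hh : K + 4 ≤ h) (hp : Allow g h T (2 * h + T - 1) p)
    (hβ : ∀ b, β b ∈ BW d g h T) (hβ' : ∀ b, β' b ∈ BW d g h T) {t ψ : ℝ} (h0 : 0 < t)
    (h1 : t ≤ 1) (hψ : 0 < ψ) (hψ1 : ψ ≤ 1)
    (hq : ∀ b, ψ * t ^ (2 * h + T) ≤ qb κ K t p β b)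
    (hq' : ∀ b, ψ * t ^ (2 * h + T) ≤ qb κ K t p β' b) :
    ∏ b, kb κ K t p β β' b ≤ (∏ b, qb κ K t p β b) * (∏ b, qb κ K t p β' b) *
      ∏ b : Fin N, om (1 / (ψ * t ^ (2 * h + T))) (1 / ψ ^ 3) t
        (start β b - start β' b) (β b) (β' b) := by
  classical
  have hpt : 0 < ψ * t ^ (2 * h + T) := by positivity
  have hqb : ∀ b, 0 < qb κ K t p β b := fun b => hpt.trans_le (hq b)
  have hqb' : ∀ b, 0 < qb κ K t p β' b := fun b => hpt.trans_le (hq' b)
  have hkb : ∀ b, 0 ≤ kb κ K t p β β' b := by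
    intro b
    unfold kb
    split_ifs
    · exact (mul_pos (hqb b) (hqb' b)).le
    · exact (hqb b).le
    · positivity
  have hom : ∀ b : Fin N, 0 ≤ om (1 / (ψ * t ^ (2 * h + T))) (1 / ψ ^ 3) t
        (start β b - start β' b) (β b) (β' b) := by
    intro b
    unfold om
    split_ifs
    · positivity
    · positivity
    · exact zero_le_one
  have hstep := Finset.prod_le_prod (s := (Finset.univ : Finset (Fin N)))
    (fun b _ => hkb b) (fun b _ => br_term (κ := κ) (K := K) (p := p) hβ hβ' h0 hψ hq hq' b)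
  refine hstep.trans ?_
  rw [Finset.prod_mul_distrib, Finset.prod_mul_distrib, Finset.prod_mul_distrib,
    Finset.prod_mul_distrib]
  have hc : (∏ b : Fin N, (if br_X β β' b then 1 / ψ else 1)) *
      (∏ b : Fin N, (if br_Y β β' b then ψ else 1)) ≤ 1 := by
    rw [Finset.prod_ite, Finset.prod_ite, Finset.prod_const, Finset.prod_const_one,
      Finset.prod_const, Finset.prod_const_one, mul_one, mul_one, one_div_pow,
      one_div_mul_eq_div, div_le_one (by positivity)]
    exact pow_le_pow_of_le_one hψ.le hψ1 (br_card hβ hβ')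
  refine mul_le_of_le_one_right ?_ hc
  refine mul_nonneg (mul_nonneg (Finset.prod_nonneg fun b _ => (hqb b).le)
    (Finset.prod_nonneg fun b _ => (hqb' b).le)) (Finset.prod_nonneg fun b _ => hom b)

end H42.CD
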