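import Pool.Agent.H42.CD.Defs2

/-!
# Module BREC: the recursion for the second moment

`m = nrm`. Let `a = aQ Q`, `B₃ = 2Q+1`, `B₂ = Q B₃ + 1`, `B₁ = Q B₂ + 1`, `a = 2 + 2 Q B₁` (`Q ≥ 1`, so
`2 ≤ B₃ ≤ B₂ ≤ B₁ ≤ a`), and `ε a ≤ 1`. Claim, by induction on `N`, for all `Δ`:
 (far) `6n < m Δ`: `WW N Δ ≤ 1 + a Σ_{b=1}^N ret b Δ` (so `≤ 1 + a ε ≤ 2`);
 (3) `4n < m Δ ≤ 6n`: `WW N Δ ≤ B₃`; (2) `2n < m Δ ≤ 4n`: `≤ B₂`; (1) `0 < m Δ ≤ 2n`: `≤ B₁`;
 (0) `Δ = 0`: `≤ a`.
In particular `0 ≤ WW N Δ ≤ a` always. All weights are nonnegative, `avg` is monotone and linear.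
`|m (Δ + disp v - disp v') - m Δ| ≤ 2n` since `nrm (disp v) ≤ n`.
Step `N → N+1`, `Δ' = Δ + disp v - disp v'`:
 (far): `om = 1`; `WW N Δ' ≤ a 1[m Δ' ≤ 6n] + 1 + a Σ_{b=1}^N ret b Δ'` (in all cases, `ret ≥ 0`); average:
   `avg 1[m Δ' ≤ 6n] = ret 1 Δ`, `avg (ret b Δ') = ret (b+1) Δ`.
 (3): `om = C (1/t)^sh` (`Δ ≠ 0`). If `m Δ' ≥ m Δ + 2n` then `m Δ' > 6n` and `WW N Δ' ≤ 2`; otherwise
   `WW N Δ' ≤ a`. So the average is `≤ 2 Q + a ε ≤ B₃` (`hnear`, `hgrow`).
 (2): if `m Δ' ≥ m Δ + 2n` then `4n < m Δ'`, so `WW N Δ' ≤ B₃` (`≥ 2`): `≤ Q B₃ + a ε ≤ B₂`. (1): `≤ Q B₂ + a ε ≤ B₁`.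
 (0): the pairs `v = v'` contribute `P WW N 0 / #B ≤ a/2`; the pairs `v ≠ v'` with `disp v = disp v'` contribute
   `≤ ε a ≤ 1` (`hback`); the others have `0 < m Δ' ≤ 2n` and contribute `≤ Q B₁`. Sum
   `≤ a/2 + 1 + Q B₁ = a`.
-/

open MeasureTheory Set Filter
open scoped ENNReal Topology

namespace H42.CD

/-- the bound -/
noncomputable def aQ (Q : ℝ) : ℝ := 2 + 2 * Q * (Q * (Q * (2 * Q + 1) + 1) + 1)

theorem brH_nrm_disp {d n : ℕ} (v : Fin n → Dir d) : nrm (disp v) ≤ n := by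
  have key : ∀ s : Finset (Fin n), nrm (∑ j ∈ s, stp (v j)) ≤ s.card := by
    intro s
    classical
    induction s using Finset.induction_on with
    | empty => simp [nrm]
    | insert a s ha ih =>
      rw [Finset.sum_insert ha, Finset.card_insert_of_notMem ha]
      have h1 := dist1_tri (stp (v a) + ∑ j ∈ s, stp (v j)) (∑ j ∈ s, stp (v j)) 0
      have h2 : dist1 (stp (v a) + ∑ j ∈ s, stp (v j)) (∑ j ∈ s, stp (v j)) = 1 := by
        rw [dist1_sub_left, add_sub_cancel_right, dist1_stp_zero]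
      unfold nrm at ih ⊢
      omega
  have h := key Finset.univ
  rw [Finset.card_univ, Fintype.card_fin] at h
  exact h

theorem brH_nrm_sub {d n : ℕ} (v v' : Fin n → Dir d) : nrm (disp v - disp v') ≤ 2 * n := by
  have h1 := brH_nrm_disp v
  have h2 := brH_nrm_disp v'
  have h3 := dist1_tri (disp v) 0 (disp v')
  rw [dist1_comm 0 (disp v')] at h3
  unfold nrm at *
  rw [← dist1_sub_left]
  omega

theorem brH_avg_mono {d n : ℕ} (B : Finset (Fin n → Dir d))
    {f g : (Fin n → Dir d) → (Fin n → Dir d) → ℝ} (h : ∀ v v', f v v' ≤ g v v') :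
    avg B f ≤ avg B g := by
  unfold avg
  exact div_le_div_of_nonneg_right
    (Finset.sum_le_sum fun v _ => Finset.sum_le_sum fun v' _ => h v v') (sq_nonneg _)

theorem brH_avg_add {d n : ℕ} (B : Finset (Fin n → Dir d))
    (f g : (Fin n → Dir d) → (Fin n → Dir d) → ℝ) :
    avg B (fun v v' => f v v' + g v v') = avg B f + avg B g := by
  unfold avg
  rw [← add_div]
  congr 1
  rw [← Finset.sum_add_distrib]
  refine Finset.sum_congr rfl fun v _ => ?_
  rw [← Finset.sum_add_distrib]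

theorem brH_avg_mul {d n : ℕ} (B : Finset (Fin n → Dir d)) (c : ℝ)
    (f : (Fin n → Dir d) → (Fin n → Dir d) → ℝ) :
    avg B (fun v v' => c * f v v') = c * avg B f := by
  unfold avg
  rw [← mul_div_assoc]
  congr 1
  rw [Finset.mul_sum]
  refine Finset.sum_congr rfl fun v _ => ?_
  rw [Finset.mul_sum]

theorem brH_avg_const {d n : ℕ} {B : Finset (Fin n → Dir d)} (hB : B.Nonempty) (c : ℝ) :
    avg B (fun _ _ => c) = c := by
  have hn : (B.card : ℝ) ≠ 0 := by exact_mod_cast hB.card_pos.ne'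
  unfold avg
  simp only [Finset.sum_const, nsmul_eq_mul]
  field_simp

theorem brH_avg_sum {d n : ℕ} (B : Finset (Fin n → Dir d)) (s : Finset ℕ)
    (f : ℕ → (Fin n → Dir d) → (Fin n → Dir d) → ℝ) :
    avg B (fun v v' => ∑ b ∈ s, f b v v') = ∑ b ∈ s, avg B (f b) := by
  classical
  induction s using Finset.induction_on with
  | empty =>
    simp [avg]
  | insert a s ha ih =>
    rw [Finset.sum_insert ha, ← ih, ← brH_avg_add]
    congr 1
    funext v v'
    rw [Finset.sum_insert ha]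

theorem brH_avg_nonneg {d n : ℕ} (B : Finset (Fin n → Dir d))
    {f : (Fin n → Dir d) → (Fin n → Dir d) → ℝ} (h : ∀ v v', 0 ≤ f v v') : 0 ≤ avg B f := by
  unfold avg
  exact div_nonneg (Finset.sum_nonneg fun v _ => Finset.sum_nonneg fun v' _ => h v v')
    (sq_nonneg _)

open Classical in
theorem brH_avg_diag {d n : ℕ} {B : Finset (Fin n → Dir d)} (hB : B.Nonempty) (c : ℝ) :
    avg B (fun v v' => if v = v' then c else 0) = c / B.card := by
  have hn : (B.card : ℝ) ≠ 0 := by exact_mod_cast hB.card_pos.ne'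
  unfold avg
  have h1 : ∑ v ∈ B, ∑ v' ∈ B, (if v = v' then c else 0) = B.card * c := by
    rw [Finset.sum_congr rfl fun v hv => ?_, Finset.sum_const, nsmul_eq_mul]
    rw [Finset.sum_ite_eq, if_pos hv]
  rw [h1, sq, mul_div_mul_left _ _ hn]

theorem brH_ret_nonneg {d n : ℕ} (B : Finset (Fin n → Dir d)) (b : ℕ) (Δ : V d) :
    0 ≤ ret B b Δ := by
  induction b generalizing Δ with
  | zero =>
    unfold ret
    split_ifs
    · exact zero_le_one
    · exact le_rfl
  | succ b ih =>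
    unfold ret
    exact brH_avg_nonneg B fun v v' => ih _

theorem brH_om_nonneg {d n : ℕ} {P C t : ℝ} (hP0 : 0 ≤ P) (hC : 0 ≤ C) (ht : 0 < t) (Δ : V d)
    (v v' : Fin n → Dir d) : 0 ≤ om P C t Δ v v' := by
  unfold om
  split_ifs
  · exact hP0
  · positivity
  · exact zero_le_one

/-- the case of different starting points at small distance -/
theorem brH_step {d n : ℕ} (B : Finset (Fin n → Dir d)) {P C t Q ε a β : ℝ}
    (hC : 0 ≤ C) (ht : 0 < t) (ha0 : 0 ≤ a) (haε : ε * a ≤ 1) (hβ : 0 ≤ β)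
    (hnear : ∀ Δ : V d, nrm Δ ≤ 6 * n → avg B (fun v v' => C * (1 / t) ^ sh Δ v v') ≤ Q)
    (hgrow : ∀ Δ : V d, Δ ≠ 0 → nrm Δ ≤ 6 * n →
      avg B (fun v v' => if nrm (Δ + disp v - disp v') < nrm Δ + 2 * n then
        C * (1 / t) ^ sh Δ v v' else 0) ≤ ε)
    {N : ℕ} (hall : ∀ Δ, WW B P C t N Δ ≤ a) {Δ : V d} (h0 : Δ ≠ 0) (h6 : nrm Δ ≤ 6 * n)
    (hfar : ∀ Δ', nrm Δ + 2 * n ≤ nrm Δ' → WW B P C t N Δ' ≤ β) :
    WW B P C t (N + 1) Δ ≤ Q * β + 1 := by
  have h1 : WW B P C t (N + 1) Δ ≤ avg B (fun v v' => β * (C * (1 / t) ^ sh Δ v v') +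
      a * (if nrm (Δ + disp v - disp v') < nrm Δ + 2 * n then
        C * (1 / t) ^ sh Δ v v' else 0)) := by
    rw [WW]
    refine brH_avg_mono B fun v v' => ?_
    have hom : om P C t Δ v v' = C * (1 / t) ^ sh Δ v v' := by
      unfold om
      rw [if_neg (fun h => h0 h.1), if_pos h6]
    have hc : 0 ≤ C * (1 / t) ^ sh Δ v v' := by positivity
    rw [hom]
    by_cases hlt : nrm (Δ + disp v - disp v') < nrm Δ + 2 * n
    · rw [if_pos hlt]
      have h2 := mul_le_mul_of_nonneg_left (hall (Δ + disp v - disp v')) hc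
      have h3 : 0 ≤ β * (C * (1 / t) ^ sh Δ v v') := mul_nonneg hβ hc
      linarith
    · rw [if_neg hlt, mul_zero, add_zero, mul_comm β]
      exact mul_le_mul_of_nonneg_left (hfar _ (not_lt.1 hlt)) hc
  rw [brH_avg_add, brH_avg_mul B β (fun v v' => C * (1 / t) ^ sh Δ v v'),
    brH_avg_mul B a (fun v v' => if nrm (Δ + disp v - disp v') < nrm Δ + 2 * n then
        C * (1 / t) ^ sh Δ v v' else 0)] at h1
  have h2 := mul_le_mul_of_nonneg_left (hnear Δ h6) hβ
  have h3 := mul_le_mul_of_nonneg_left (hgrow Δ h0 h6) ha0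
  linarith

open Classical in
/-- the case of equal starting points -/
theorem brH_zero {d n : ℕ} (B : Finset (Fin n → Dir d)) (hB : B.Nonempty) {P C t Q ε a β : ℝ}
    (hP0 : 0 ≤ P) (hC : 0 ≤ C) (ht : 0 < t) (ha0 : 0 ≤ a) (haε : ε * a ≤ 1) (hβ : 0 ≤ β)
    (hP : P / B.card ≤ 1 / 2)
    (hnear : ∀ Δ : V d, nrm Δ ≤ 6 * n → avg B (fun v v' => C * (1 / t) ^ sh Δ v v') ≤ Q)
    (hback : avg B (fun v v' => if v ≠ v' ∧ disp v = disp v' then
      C * (1 / t) ^ sh 0 v v' else 0) ≤ ε)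
    {N : ℕ} (hall : ∀ Δ, WW B P C t N Δ ≤ a)
    (h1' : ∀ Δ, 0 < nrm Δ → WW B P C t N Δ ≤ β) :
    WW B P C t (N + 1) 0 ≤ a / 2 + 1 + Q * β := by
  have h1 : WW B P C t (N + 1) 0 ≤ avg B (fun v v' => (if v = v' then P * a else 0) +
      (a * (if v ≠ v' ∧ disp v = disp v' then C * (1 / t) ^ sh 0 v v' else 0) +
        β * (C * (1 / t) ^ sh 0 v v'))) := by
    rw [WW]
    refine brH_avg_mono B fun v v' => ?_
    have hc : 0 ≤ C * (1 / t) ^ sh (0 : V d) v v' := by positivity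
    by_cases hv : v = v'
    · have hom : om P C t (0 : V d) v v' = P := by
        unfold om
        rw [if_pos ⟨rfl, hv⟩]
      rw [hom, if_pos hv]
      have h2 := mul_le_mul_of_nonneg_left (hall (0 + disp v - disp v')) hP0
      have h3 : 0 ≤ a * (if v ≠ v' ∧ disp v = disp v' then C * (1 / t) ^ sh 0 v v' else 0) := by
        refine mul_nonneg ha0 ?_
        split_ifs
        · exact hc
        · exact le_rfl
      have h4 : 0 ≤ β * (C * (1 / t) ^ sh (0 : V d) v v') := mul_nonneg hβ hc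
      linarith
    · have h00 : nrm (0 : V d) ≤ 6 * n := by simp [nrm]
      have hom : om P C t (0 : V d) v v' = C * (1 / t) ^ sh 0 v v' := by
        unfold om
        rw [if_neg (fun h => hv h.2), if_pos h00]
      rw [hom, if_neg hv]
      by_cases hd : disp v = disp v'
      · rw [if_pos ⟨hv, hd⟩]
        have h2 := mul_le_mul_of_nonneg_left (hall (0 + disp v - disp v')) hc
        have h4 : 0 ≤ β * (C * (1 / t) ^ sh (0 : V d) v v') := mul_nonneg hβ hc
        linarith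
      · rw [if_neg (fun h => hd h.2), mul_zero]
        have h7 := mul_le_mul_of_nonneg_left (h1' (0 + disp v - disp v') (by
          rw [Nat.pos_iff_ne_zero]
          intro h5
          have h6 : (0 : V d) + disp v - disp v' = 0 := dist1_eq_zero.1 h5
          apply hd
          rw [zero_add, sub_eq_zero] at h6
          exact h6)) hc
        linarith
  rw [brH_avg_add, brH_avg_add,
    brH_avg_mul B a (fun v v' => if v ≠ v' ∧ disp v = disp v' then
      C * (1 / t) ^ sh 0 v v' else 0),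
    brH_avg_mul B β (fun v v' => C * (1 / t) ^ sh 0 v v'), brH_avg_diag hB] at h1
  have h2 := mul_le_mul_of_nonneg_left (hnear (0 : V d) (by simp [nrm])) hβ
  have h3 := mul_le_mul_of_nonneg_left hback ha0
  have h4 : P * a / B.card ≤ a / 2 := by
    have := mul_le_mul_of_nonneg_right hP ha0
    calc P * a / B.card = P / B.card * a := by ring
      _ ≤ 1 / 2 * a := this
      _ = a / 2 := by ring
  linarith

theorem ww_bounded {d n : ℕ} (B : Finset (Fin n → Dir d)) (hB : B.Nonempty) {P C t Q ε : ℝ}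
    (hP0 : 0 ≤ P) (hC : 0 ≤ C) (ht : 0 < t) (hQ : 1 ≤ Q) (hε : ε * aQ Q ≤ 1)
    (hP : P / B.card ≤ 1 / 2)
    (hnear : ∀ Δ : V d, nrm Δ ≤ 6 * n → avg B (fun v v' => C * (1 / t) ^ sh Δ v v') ≤ Q)
    (hgrow : ∀ Δ : V d, Δ ≠ 0 → nrm Δ ≤ 6 * n →
      avg B (fun v v' => if nrm (Δ + disp v - disp v') < nrm Δ + 2 * n then
        C * (1 / t) ^ sh Δ v v' else 0) ≤ ε)
    (hback : avg B (fun v v' => open Classical in
      if v ≠ v' ∧ disp v = disp v' then C * (1 / t) ^ sh 0 v v' else 0) ≤ ε)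
    (hret : ∀ Δ : V d, 6 * n < nrm Δ → ∀ N, ∑ b ∈ Finset.Icc 1 N, ret B b Δ ≤ ε)
    (N : ℕ) : WW B P C t N 0 ≤ aQ Q := by
  set a : ℝ := aQ Q with ha
  have hQ0 : 0 ≤ Q := by linarith
  obtain ⟨B3, hB3⟩ : ∃ B3 : ℝ, B3 = 2 * Q + 1 := ⟨_, rfl⟩
  obtain ⟨B2, hB2⟩ : ∃ B2 : ℝ, B2 = Q * B3 + 1 := ⟨_, rfl⟩
  obtain ⟨B1, hB1⟩ : ∃ B1 : ℝ, B1 = Q * B2 + 1 := ⟨_, rfl⟩
  have haB : a = 2 + 2 * Q * B1 := by
    rw [ha, aQ, hB1, hB2, hB3]
  have h32 : 2 ≤ B3 := by linarith
  have h23 : B3 ≤ B2 := by nlinarith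
  have h12 : B2 ≤ B1 := by nlinarith
  have ha1 : B1 ≤ a := by nlinarith
  have ha0 : 0 ≤ a := by linarith
  have hIcc : ∀ (Δ : V d) (M : ℕ), ∑ b ∈ Finset.Icc 1 M, ret B b Δ =
      ∑ b ∈ Finset.range M, ret B (b + 1) Δ := by
    intro Δ M
    induction M with
    | zero => simp
    | succ M ih => rw [Finset.sum_Icc_succ_top (by omega), ih, Finset.sum_range_succ]
  have key : ∀ N : ℕ, (∀ Δ : V d, 0 ≤ WW B P C t N Δ) ∧
      (∀ Δ : V d, 6 * n < nrm Δ →
        WW B P C t N Δ ≤ 1 + a * ∑ b ∈ Finset.range N, ret B (b + 1) Δ) ∧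
      (∀ Δ : V d, 4 * n < nrm Δ → WW B P C t N Δ ≤ B3) ∧
      (∀ Δ : V d, 2 * n < nrm Δ → WW B P C t N Δ ≤ B2) ∧
      (∀ Δ : V d, 0 < nrm Δ → WW B P C t N Δ ≤ B1) ∧
      (∀ Δ : V d, WW B P C t N Δ ≤ a) := by
    intro N
    induction N with
    | zero =>
      simp only [WW]
      refine ⟨fun Δ => zero_le_one, fun Δ _ => ?_, fun Δ _ => by linarith, fun Δ _ => by linarith,
        fun Δ _ => by linarith, fun Δ => by linarith⟩
      simp
    | succ N ih =>
      obtain ⟨i0, i6, i4, i2, i1, ia⟩ := ih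
      have far2 : ∀ Δ : V d, 6 * n < nrm Δ → WW B P C t N Δ ≤ 2 := by
        intro Δ hΔ
        have h1 := i6 Δ hΔ
        have h2 := hret Δ hΔ N
        rw [hIcc] at h2
        have h3 := mul_le_mul_of_nonneg_left h2 ha0
        linarith
      have n0 : ∀ Δ : V d, 0 ≤ WW B P C t (N + 1) Δ := by
        intro Δ
        rw [WW]
        exact brH_avg_nonneg B fun v v' => mul_nonneg (brH_om_nonneg hP0 hC ht Δ v v') (i0 _)
      have n6 : ∀ Δ : V d, 6 * n < nrm Δ →
          WW B P C t (N + 1) Δ ≤ 1 + a * ∑ b ∈ Finset.range (N + 1), ret B (b + 1) Δ := by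
        intro Δ hΔ
        have hΔ0 : Δ ≠ 0 := by
          rintro rfl
          simp [nrm] at hΔ
        have hall' : ∀ Δ' : V d, WW B P C t N Δ' ≤
            1 + a * ∑ b ∈ Finset.range (N + 1), ret B b Δ' := by
          intro Δ'
          rw [Finset.sum_range_succ']
          have hs : 0 ≤ ∑ b ∈ Finset.range N, ret B (b + 1) Δ' :=
            Finset.sum_nonneg fun b _ => brH_ret_nonneg B _ _
          by_cases h6 : nrm Δ' ≤ 6 * n
          · have h7 : ret B 0 Δ' = 1 := by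
              unfold ret
              rw [if_pos h6]
            rw [h7]
            have h8 := ia Δ'
            have h9 : 0 ≤ a * ∑ b ∈ Finset.range N, ret B (b + 1) Δ' := mul_nonneg ha0 hs
            nlinarith
          · have h7 : ret B 0 Δ' = 0 := by
              unfold ret
              rw [if_neg h6]
            rw [h7, add_zero]
            exact i6 Δ' (not_le.1 h6)
        have h1 : WW B P C t (N + 1) Δ ≤ avg B (fun v v' => 1 + a * ∑ b ∈ Finset.range (N + 1),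
            ret B b (Δ + disp v - disp v')) := by
          rw [WW]
          refine brH_avg_mono B fun v v' => ?_
          have hom : om P C t Δ v v' = 1 := by
            unfold om
            rw [if_neg (fun h => hΔ0 h.1), if_neg (not_le.2 hΔ)]
          rw [hom, one_mul]
          exact hall' _
        rw [brH_avg_add B (fun _ _ => (1 : ℝ)) (fun v v' => a * ∑ b ∈ Finset.range (N + 1),
            ret B b (Δ + disp v - disp v')), brH_avg_const hB, brH_avg_mul,
          brH_avg_sum B _ (fun b v v' => ret B b (Δ + disp v - disp v'))] at h1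
        have h2 : ∑ b ∈ Finset.range (N + 1), avg B (fun v v' => ret B b (Δ + disp v - disp v')) =
            ∑ b ∈ Finset.range (N + 1), ret B (b + 1) Δ := by
          refine Finset.sum_congr rfl fun b _ => ?_
          rw [ret]
        rw [h2] at h1
        exact h1
      have n62 : ∀ Δ : V d, 6 * n < nrm Δ → WW B P C t (N + 1) Δ ≤ 2 := by
        intro Δ hΔ
        have h1 := n6 Δ hΔ
        have h2 := hret Δ hΔ (N + 1)
        rw [hIcc] at h2
        have h3 := mul_le_mul_of_nonneg_left h2 ha0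
        linarith
      have nz : ∀ Δ : V d, 0 < nrm Δ → Δ ≠ 0 := by
        rintro Δ hΔ rfl
        simp [nrm] at hΔ
      have n4 : ∀ Δ : V d, 4 * n < nrm Δ → WW B P C t (N + 1) Δ ≤ B3 := by
        intro Δ hΔ
        by_cases h6 : nrm Δ ≤ 6 * n
        · have h1 := brH_step B (P := P) hC ht ha0 hε (β := 2) (by norm_num) hnear hgrow ia
            (nz Δ (by omega)) h6 (fun Δ' h' => far2 Δ' (by omega))
          linarith
        · exact (n62 Δ (not_le.1 h6)).trans h32
      have n2 : ∀ Δ : V d, 2 * n < nrm Δ → WW B P C t (N + 1) Δ ≤ B2 := by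
        intro Δ hΔ
        by_cases h6 : nrm Δ ≤ 4 * n
        · have h1 := brH_step B (P := P) hC ht ha0 hε (β := B3) (by linarith) hnear hgrow ia
            (nz Δ (by omega)) (by omega) (fun Δ' h' => i4 Δ' (by omega))
          linarith
        · exact (n4 Δ (not_le.1 h6)).trans h23
      have n1 : ∀ Δ : V d, 0 < nrm Δ → WW B P C t (N + 1) Δ ≤ B1 := by
        intro Δ hΔ
        by_cases h6 : nrm Δ ≤ 2 * n
        · have h1 := brH_step B (P := P) hC ht ha0 hε (β := B2) (by linarith) hnear hgrow ia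
            (nz Δ hΔ) (by omega) (fun Δ' h' => i2 Δ' (by omega))
          linarith
        · exact (n2 Δ (not_le.1 h6)).trans h12
      refine ⟨n0, n6, n4, n2, n1, fun Δ => ?_⟩
      by_cases h0 : Δ = 0
      · subst h0
        have h1 := brH_zero B hB (P := P) hP0 hC ht ha0 hε (β := B1) (by linarith) hP hnear hback
          ia i1
        linarith
      · refine (n1 Δ ?_).trans ha1
        rw [Nat.pos_iff_ne_zero]
        exact fun h => h0 (dist1_eq_zero.1 h)
  exact (key N).2.2.2.2.2 0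

end H42.CD
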