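import Pool.Agent.H42.CD.BWalk
import Pool.Agent.H42.CD.BMassA

/-!
# Module BRET: two paths which are far from each other rarely come close again

`τ = 2h + T`, `B = BW d g h T`.
Small `b`: for every `b0` there is `C` such that for all admissible `d, g`, all `Δ` with `6τ < nrm Δ` and all
`b ≤ b0`: `ret B b Δ ≤ C b / d`. Induction on `b`. `b = 0`: `ret B 0 Δ = 0`. Step: if `nrm Δ > 6τ + 2τ b0` then
`ret B (b+1) Δ = 0` (every block moves the difference by at most `2τ`, `nrm (disp v) ≤ τ`; a separate easy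
induction: `nrm Δ > 6τ + 2τ b → ret B b Δ = 0`). Otherwise
`ret B (b+1) Δ ≤ avg 1[nrm (Δ + disp v - disp v') < nrm Δ + 2τ] + sup_{far} ret B b`
`≤ C' (6τ + 2τ b0 + 1) / d + C b / d` by `mass_plain` (if the norm has grown by `2τ` the new difference is far;
`0 ≤ ret ≤ 1`).
Large `b`: `ret_walk`; `Σ_{b > b0} (12τ+1)^4/(2b+1)^2 ≤ (12τ+1)^4 / (2 b0)`... choose `b0` such that this is `≤ ε/2`
(for instance `1/(2b+1)^2 ≤ 1/(4 b (b+1)) = (1/b - 1/(b+1))/4`), then `d0` with `Σ_{b ≤ b0} C b/d ≤ ε/2`.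
-/

open MeasureTheory Set Filter
open scoped ENNReal Topology

namespace H42.CD

section avg

variable {d n : ℕ} {B : Finset (Fin n → Dir d)}

theorem bret_avg_mono {f g : (Fin n → Dir d) → (Fin n → Dir d) → ℝ}
    (hfg : ∀ v ∈ B, ∀ v' ∈ B, f v v' ≤ g v v') : avg B f ≤ avg B g := by
  unfold avg
  refine div_le_div_of_nonneg_right ?_ (by positivity)
  exact Finset.sum_le_sum fun v hv => Finset.sum_le_sum fun v' hv' => hfg v hv v' hv'

theorem bret_avg_nonneg {f : (Fin n → Dir d) → (Fin n → Dir d) → ℝ}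
    (hf : ∀ v v', 0 ≤ f v v') : 0 ≤ avg B f := by
  unfold avg
  exact div_nonneg (Finset.sum_nonneg fun v _ => Finset.sum_nonneg fun v' _ => hf v v')
    (by positivity)

theorem bret_avg_add {f g : (Fin n → Dir d) → (Fin n → Dir d) → ℝ} :
    avg B (fun v v' => f v v' + g v v') = avg B f + avg B g := by
  unfold avg
  rw [← add_div, ← Finset.sum_add_distrib]
  congr 1
  refine Finset.sum_congr rfl fun v _ => ?_
  rw [Finset.sum_add_distrib]

theorem bret_avg_const {c : ℝ} (hc : 0 ≤ c) : avg B (fun _ _ => c) ≤ c := by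
  unfold avg
  by_cases h : B.card = 0
  · rw [h]; simpa using hc
  · have hpos : (0 : ℝ) < (B.card : ℝ) ^ 2 := by
      have : 0 < B.card := Nat.pos_of_ne_zero h
      positivity
    rw [div_le_iff₀ hpos, Finset.sum_const, Finset.sum_const, nsmul_eq_mul, nsmul_eq_mul]
    refine le_of_eq ?_
    ring

theorem ret_nonneg (b : ℕ) (Δ : V d) : 0 ≤ ret B b Δ := by
  induction b generalizing Δ with
  | zero => unfold ret; split_ifs <;> norm_num
  | succ b ih => unfold ret; exact bret_avg_nonneg fun v v' => ih _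

theorem ret_le_one (b : ℕ) (Δ : V d) : ret B b Δ ≤ 1 := by
  induction b generalizing Δ with
  | zero => unfold ret; split_ifs <;> norm_num
  | succ b ih =>
    unfold ret
    exact (bret_avg_mono (g := fun _ _ => 1) fun v _ v' _ => ih _).trans
      (bret_avg_const zero_le_one)

theorem nrm_move (Δ : V d) (v v' : Fin n → Dir d) :
    nrm Δ ≤ nrm (Δ + disp v - disp v') + 2 * n := by
  have h1 : dist1 Δ 0 ≤ dist1 Δ (Δ + disp v - disp v') + dist1 (Δ + disp v - disp v') 0 :=
    dist1_tri _ _ _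
  have h2 : dist1 Δ (Δ + disp v - disp v') ≤ dist1 Δ (Δ + disp v)
      + dist1 (Δ + disp v) (Δ + disp v - disp v') := dist1_tri _ _ _
  have h3 : dist1 Δ (Δ + disp v) = nrm (disp v) := by
    rw [dist1_comm, dist1_sub_left, add_sub_cancel_left]
  have h4 : dist1 (Δ + disp v) (Δ + disp v - disp v') = nrm (disp v') := by
    rw [dist1_sub_left]
    congr 1
    abel
  have h5 := nrm_disp v
  have h6 := nrm_disp v'
  have h7 : nrm Δ = dist1 Δ 0 := rfl
  have h8 : nrm (Δ + disp v - disp v') = dist1 (Δ + disp v - disp v') 0 := rfl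
  omega

theorem ret_far (b : ℕ) (Δ : V d) (hΔ : 6 * n + 2 * n * b < nrm Δ) : ret B b Δ = 0 := by
  induction b generalizing Δ with
  | zero =>
    unfold ret
    rw [if_neg (by omega)]
  | succ b ih =>
    unfold ret avg
    have : ∀ v ∈ B, ∀ v' ∈ B, ret B b (Δ + disp v - disp v') = 0 := by
      intro v _ v' _
      apply ih
      have h1 := nrm_move Δ v v'
      have h2 : 2 * n * (b + 1) = 2 * n * b + 2 * n := by ring
      rw [h2] at hΔ
      omega
    rw [Finset.sum_eq_zero, zero_div]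
    intro v hv
    exact Finset.sum_eq_zero fun v' hv' => this v hv v' hv'

end avg

theorem ret_small {h T : ℕ} {c0 : ℝ} (hc : 0 < c0) (b0 : ℕ) :
    ∃ C : ℝ, 0 < C ∧ ∀ d g, Adm h T c0 d g → ∀ b, b ≤ b0 → ∀ Δ : V d,
      6 * (2 * h + T) < nrm Δ → ret (BW d g h T) b Δ ≤ C * b / d := by
  obtain ⟨C', hC', hmass⟩ := mass_plain h T hc
  refine ⟨C' * (6 * (2 * h + T) + 2 * (2 * h + T) * b0 + 1), by positivity, ?_⟩
  intro d g ha b
  obtain ⟨C, hC⟩ : ∃ C : ℝ, C = C' * (6 * (2 * h + T) + 2 * (2 * h + T) * b0 + 1) := ⟨_, rfl⟩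
  rw [← hC]
  have hCpos : 0 < C := by rw [hC]; positivity
  induction b with
  | zero =>
    intro _ Δ hΔ
    unfold ret
    rw [if_neg (by omega)]
    simp
  | succ b ih =>
    intro hb Δ hΔ
    have ih := ih (by omega)
    have hd : (0 : ℝ) ≤ d := Nat.cast_nonneg d
    by_cases hfar : 6 * (2 * h + T) + 2 * (2 * h + T) * b0 < nrm Δ
    · rw [ret_far]
      · positivity
      · refine lt_of_le_of_lt ?_ hfar
        exact Nat.add_le_add_left (Nat.mul_le_mul_left _ hb) _
    · have h1 : ret (BW d g h T) (b + 1) Δ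
          ≤ avg (BW d g h T) (fun v v' =>
            (if nrm (Δ + disp v - disp v') < nrm Δ + 2 * (2 * h + T) then (1 : ℝ) else 0)
              + C * b / d) := by
        conv_lhs => unfold ret
        refine bret_avg_mono fun v _ v' _ => ?_
        by_cases hv : nrm (Δ + disp v - disp v') < nrm Δ + 2 * (2 * h + T)
        · rw [if_pos hv]
          have := ret_le_one (B := BW d g h T) b (Δ + disp v - disp v')
          have h2 : 0 ≤ C * b / d := by positivity
          linarith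
        · rw [if_neg hv, zero_add]
          exact ih _ (by omega)
      refine h1.trans ?_
      rw [bret_avg_add]
      have h3 := hmass d g ha Δ
      have h4 : avg (BW d g h T) (fun _ _ => C * b / d) ≤ C * b / d :=
        bret_avg_const (by positivity)
      have h5 : C' * ((nrm Δ : ℝ) + 1) / d ≤ C / d := by
        refine div_le_div_of_nonneg_right ?_ hd
        rw [hC]
        refine mul_le_mul_of_nonneg_left ?_ hC'.le
        have : (nrm Δ : ℝ) ≤ 6 * (2 * h + T) + 2 * (2 * h + T) * b0 := by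
          have h6 : nrm Δ ≤ 6 * (2 * h + T) + 2 * (2 * h + T) * b0 := by omega
          exact_mod_cast h6
        linarith
      have h6 : C * ((b + 1 : ℕ) : ℝ) / d = C / d + C * b / d := by
        push_cast; ring
      rw [h6]
      linarith

theorem ret_sum {h T : ℕ} (hh : 2 ≤ h) {c0 : ℝ} (hc : 0 < c0) {ε : ℝ} (hε : 0 < ε) :
    ∃ d0 : ℕ, ∀ d g, d0 ≤ d → Adm h T c0 d g → ∀ Δ : V d, 6 * (2 * h + T) < nrm Δ →
      ∀ N : ℕ, ∑ b ∈ Finset.Icc 1 N, ret (BW d g h T) b Δ ≤ ε := by
  obtain ⟨K, hK⟩ : ∃ K : ℝ, K = (12 * (2 * h + T) + 1 : ℝ) ^ 4 := ⟨_, rfl⟩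
  have hKpos : 0 < K := by rw [hK]; positivity
  obtain ⟨b0, hb0⟩ := exists_nat_gt (K / ε)
  obtain ⟨C, hC, hsmall⟩ := ret_small (h := h) (T := T) hc b0
  obtain ⟨d0, hd0⟩ := exists_nat_gt (2 * ((b0 + 1) * (C * b0)) / ε)
  refine ⟨d0 + 1, fun d g hd ha Δ hΔ N => ?_⟩
  have hdpos : (0 : ℝ) < d := by
    have : 0 < d := by omega
    exact_mod_cast this
  -- split the sum
  have h1 : ∑ b ∈ Finset.Icc 1 N, ret (BW d g h T) b Δ
      ≤ ∑ b ∈ Finset.range (b0 + 1 + N), ret (BW d g h T) b Δ := by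
    refine Finset.sum_le_sum_of_subset_of_nonneg ?_ (fun b _ _ => ret_nonneg b Δ)
    intro b hb
    rw [Finset.mem_Icc] at hb
    rw [Finset.mem_range]
    omega
  refine h1.trans ?_
  rw [Finset.sum_range_add]
  have h2 : ∑ b ∈ Finset.range (b0 + 1), ret (BW d g h T) b Δ ≤ ε / 2 := by
    have h3 : ∑ b ∈ Finset.range (b0 + 1), ret (BW d g h T) b Δ
        ≤ ∑ _b ∈ Finset.range (b0 + 1), C * b0 / d := by
      refine Finset.sum_le_sum fun b hb => ?_
      have hb' : b ≤ b0 := by rw [Finset.mem_range] at hb; omega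
      refine (hsmall d g ha b hb' Δ hΔ).trans ?_
      refine div_le_div_of_nonneg_right ?_ hdpos.le
      refine mul_le_mul_of_nonneg_left ?_ hC.le
      exact_mod_cast hb'
    refine h3.trans ?_
    rw [Finset.sum_const, Finset.card_range, nsmul_eq_mul]
    have h4 : 2 * ((b0 + 1) * (C * b0)) / ε < d := by
      refine hd0.trans ?_
      have : d0 < d := by omega
      exact_mod_cast this
    rw [div_lt_iff₀ hε] at h4
    rw [← mul_div_assoc, div_le_div_iff₀ hdpos (by norm_num)]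
    push_cast
    nlinarith
  have h5 : ∀ M : ℕ, ∑ j ∈ Finset.range M, ret (BW d g h T) (b0 + 1 + j) Δ
      ≤ K / 4 * (1 / (b0 + 1 : ℝ) - 1 / (b0 + 1 + M : ℝ)) := by
    intro M
    induction M with
    | zero => simp
    | succ M ih =>
      rw [Finset.sum_range_succ]
      have h6 := ret_walk hh ha (b0 + 1 + M) Δ
      rw [← hK] at h6
      have h7 : K / (2 * ((b0 + 1 + M : ℕ) : ℝ) + 1) ^ 2
          ≤ K / 4 * (1 / (b0 + 1 + M : ℝ) - 1 / (b0 + 1 + (M + 1 : ℕ) : ℝ)) := by
        have hx : (0 : ℝ) < b0 + 1 + M := by positivity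
        have hx2 : (0 : ℝ) < b0 + 1 + (M + 1 : ℕ) := by positivity
        have e : 1 / (b0 + 1 + M : ℝ) - 1 / (b0 + 1 + (M + 1 : ℕ) : ℝ)
            = 1 / ((b0 + 1 + M : ℝ) * (b0 + 1 + (M + 1 : ℕ) : ℝ)) := by
          rw [div_sub_div _ _ hx.ne' hx2.ne']
          congr 1
          push_cast
          ring
        rw [e, div_mul_div_comm, mul_one]
        refine div_le_div_of_nonneg_left hKpos.le (by positivity) ?_
        push_cast
        nlinarith
      linarith
  have h8 := h5 N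
  have h9 : K / 4 * (1 / (b0 + 1 : ℝ) - 1 / (b0 + 1 + N : ℝ)) ≤ ε / 2 := by
    have h10 : (0 : ℝ) ≤ 1 / (b0 + 1 + N : ℝ) := by positivity
    have h11 : K / 4 * (1 / (b0 + 1 : ℝ)) ≤ ε / 2 := by
      rw [div_lt_iff₀ hε] at hb0
      rw [mul_one_div, div_div, div_le_div_iff₀ (by positivity) (by norm_num)]
      have : (0 : ℝ) ≤ b0 := Nat.cast_nonneg _
      nlinarith
    have h12 : 0 ≤ K / 4 * (1 / (b0 + 1 + N : ℝ)) := by positivity
    rw [mul_sub]
    linarith
  linarith

end H42.CD
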