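import Pool.Agent.H42.CD.Defs2

/-!
# Module BSUM: the sum over pairs of paths is the iterated average

Induction on `N`, generalising the difference `Δ` of the starting points:
`∑_{β, β' ∈ B^N} ∏_b om P C t (Δ + start β b - start β' b) (β b) (β' b) = #B^(2N) WW B P C t N Δ`.
Step: `Fin (N+1) → B` is `B × (Fin N → B)` (`Fin.consEquiv`, `Finset.sum` over `Fintype.piFinset` with
`Fin.cons`), `start (Fin.cons v β) 0 = 0`, `start (Fin.cons v β) (b + 1) = disp v + start β b`,
`Fin.prod_univ_succ`. (`#B ≠ 0`.)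
-/

open MeasureTheory Set Filter
open scoped ENNReal Topology

namespace H42.CD

theorem sum_cons {d n N : ℕ} (B : Finset (Fin n → Dir d))
    (F : (Fin (N + 1) → Fin n → Dir d) → ℝ) :
    ∑ β ∈ Fintype.piFinset (fun _ : Fin (N + 1) => B), F β
      = ∑ v ∈ B, ∑ γ ∈ Fintype.piFinset (fun _ : Fin N => B), F (Fin.cons v γ) := by
  rw [← Finset.sum_product']
  refine Finset.sum_nbij' (fun β => (β 0, Fin.tail β)) (fun q => Fin.cons q.1 q.2) ?_ ?_ ?_ ?_ ?_
  · intro β hβ
    rw [Fintype.mem_piFinset] at hβ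
    rw [Finset.mem_product, Fintype.mem_piFinset]
    exact ⟨hβ 0, fun b => hβ b.succ⟩
  · intro q hq
    rw [Finset.mem_product, Fintype.mem_piFinset] at hq
    rw [Fintype.mem_piFinset]
    intro b
    refine Fin.cases ?_ (fun b => ?_) b
    · simpa using hq.1
    · simpa using hq.2 b
  · intro β _
    exact Fin.cons_self_tail β
  · intro q _
    simp
  · intro β _
    rw [Fin.cons_self_tail]

theorem start_cons_zero {d n N : ℕ} (β : Fin N → Fin n → Dir d) : start β 0 = 0 := by
  unfold start
  simp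

theorem start_cons_succ {d n N : ℕ} (v : Fin n → Dir d) (γ : Fin N → Fin n → Dir d) (b : ℕ) :
    start (Fin.cons v γ : Fin (N + 1) → Fin n → Dir d) (b + 1) = disp v + start γ b := by
  unfold start
  rw [Fin.sum_univ_succ]
  simp

theorem sum_pairs {d n : ℕ} (B : Finset (Fin n → Dir d)) (hB : B.Nonempty) (P C t : ℝ)
    (N : ℕ) (Δ : V d) :
    ∑ β ∈ Fintype.piFinset (fun _ : Fin N => B), ∑ β' ∈ Fintype.piFinset (fun _ : Fin N => B),
      ∏ b : Fin N, om P C t (Δ + start β b - start β' b) (β b) (β' b)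
      = (B.card : ℝ) ^ (2 * N) * WW B P C t N Δ := by
  have hc : (B.card : ℝ) ≠ 0 := by
    have := hB.card_pos
    positivity
  induction N generalizing Δ with
  | zero => simp [WW]
  | succ N ih =>
    rw [sum_cons]
    have h1 : ∀ v ∈ B, ∀ γ ∈ Fintype.piFinset (fun _ : Fin N => B),
        ∑ β' ∈ Fintype.piFinset (fun _ : Fin (N + 1) => B),
          ∏ b : Fin (N + 1), om P C t (Δ + start (Fin.cons v γ : Fin (N + 1) → _) b
            - start β' b) ((Fin.cons v γ : Fin (N + 1) → _) b) (β' b)
        = ∑ v' ∈ B, ∑ γ' ∈ Fintype.piFinset (fun _ : Fin N => B),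
          om P C t Δ v v' * ∏ b : Fin N, om P C t (Δ + disp v - disp v' + start γ b - start γ' b)
            (γ b) (γ' b) := by
      intro v _ γ _
      rw [sum_cons]
      refine Finset.sum_congr rfl fun v' _ => Finset.sum_congr rfl fun γ' _ => ?_
      rw [Fin.prod_univ_succ]
      congr 1
      · simp only [Fin.val_zero, Fin.cons_zero, start_cons_zero, add_zero, sub_zero]
      · refine Finset.prod_congr rfl fun b _ => ?_
        simp only [Fin.val_succ, Fin.cons_succ, start_cons_succ]
        congr 1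
        abel
    rw [Finset.sum_congr rfl fun v hv => Finset.sum_congr rfl fun γ hγ => h1 v hv γ hγ]
    have h2 : ∀ v ∈ B, ∑ γ ∈ Fintype.piFinset (fun _ : Fin N => B), ∑ v' ∈ B,
        ∑ γ' ∈ Fintype.piFinset (fun _ : Fin N => B),
          om P C t Δ v v' * ∏ b : Fin N, om P C t (Δ + disp v - disp v' + start γ b - start γ' b)
            (γ b) (γ' b)
        = ∑ v' ∈ B, om P C t Δ v v' *
          ((B.card : ℝ) ^ (2 * N) * WW B P C t N (Δ + disp v - disp v')) := by
      intro v _
      rw [Finset.sum_comm]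
      refine Finset.sum_congr rfl fun v' _ => ?_
      rw [← ih, Finset.mul_sum]
      refine Finset.sum_congr rfl fun γ _ => ?_
      rw [Finset.mul_sum]
    rw [Finset.sum_congr rfl h2]
    rw [WW, avg]
    have h3 : (B.card : ℝ) ^ (2 * (N + 1)) = (B.card : ℝ) ^ (2 * N) * (B.card : ℝ) ^ 2 := by
      rw [← pow_add]; congr 1
    rw [h3, mul_assoc, mul_div_cancel₀ _ (by positivity), Finset.mul_sum]
    refine Finset.sum_congr rfl fun v _ => ?_
    rw [Finset.mul_sum]
    refine Finset.sum_congr rfl fun v' _ => ?_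
    ring

end H42.CD
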