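import Pool.Agent.H42.CD.BGeo

/-!
# Module BSUPP: disjointness of the supports, by levels

`τ = 2h+T`, `K + 4 ≤ h`, all block words in `BW d g h T`, `p` allowed at the last position. For an edge `e` look
at its base point `e.1`. Vertex `i < τ` of block `b` has level `2 h b + min i h + (i - (h+T))`, between `2 h b` and
`2 h b + 2 h - 1`.
Levels of base points:
 (a) path edges of block `b`: in `[2hb, 2hb+2h-1]` (a drift edge goes up from its base point, a core edge is
     neutral);
 (b) edges of `bsupp` of block `b` in `Near (K+2)` of a core vertex (level `2hb+h`): in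
     `[2hb+h-K-2, 2hb+h+K+2] ⊆ [2hb+2, 2hb+2h-2]` (`|lev x - lev y| ≤ dist1 x y`);
 (c) edges of `bsupp` at a clean vertex: in `[2hb-1, 2hb+2h-1]`; the value `2hb-1` only occurs for edges going
     down from vertex `0` (the starting point) in a drift coordinate.
`far_blocks` (`b + 2 ≤ b'`): base points of `bsupp` of block `b` have level `≤ 2hb+2h-1`, those of block `b'` at
least `2hb'-1 ≥ 2hb+4h-1`.
`supp_edges`: `bsupp` of block `b` against path edges of block `b' > b` (of any path): `≤ 2hb+2h-1 < 2hb'`.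
`edges_edges`: path edges of different blocks: (a).
-/

open MeasureTheory Set Filter
open scoped ENNReal Topology

namespace H42.CD

variable {d g h T K N : ℕ} {p : Dir d} {β β' : Fin N → Fin (2 * h + T) → Dir d}

/-- support of block `b` of the path `β` -/
def su (K h T : ℕ) (p : Dir d) (β : Fin N → Fin (2 * h + T) → Dir d) (b : Fin N) :
    Set (Edge d) := bsupp K h T (start β b) (prv p β b) (β b)

/-- edges of block `b` of the path `β` -/
def es (β : Fin N → Fin (2 * h + T) → Dir d) (b : Fin N) : Finset (Edge d) :=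
  bedges (start β b) (β b)

theorem es_sub_su (b : Fin N) : (es β b : Set (Edge d)) ⊆ su K h T p β b := by
  intro e he
  unfold es bedges at he
  rw [Finset.mem_coe, Finset.mem_image] at he
  obtain ⟨i, _, rfl⟩ := he
  exact Or.inl ⟨i, rfl⟩

theorem ed_snd (x : V d) (i : Dir d) : (ed x i).2 = i.1 := by
  unfold ed; split_ifs <;> rfl

theorem bedge_inj {v : Fin (2 * h + T) → Dir d} (hv : v ∈ BW d g h T) (y : V d) :
    Function.Injective (bedge y v) := by
  intro i j hij
  have := congrArg Prod.snd hij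
  unfold bedge at this
  rw [ed_snd, ed_snd] at this
  exact (mem_bw.1 hv).2 i j this

/-! ### Levels -/

theorem lev_neg (x : V d) : lev g h (-x) = - lev g h x := by
  unfold lev
  rw [← Finset.sum_neg_distrib]
  refine Finset.sum_congr rfl fun a _ => ?_
  split_ifs <;> simp

theorem lev_dist (x y : V d) : |lev g h x - lev g h y| ≤ dist1 x y := by
  unfold lev dist1
  rw [← Finset.sum_sub_distrib]
  refine (Finset.abs_sum_le_sum_abs _ _).trans ?_
  push_cast
  refine Finset.sum_le_sum fun a _ => ?_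
  split_ifs
  · exact le_rfl
  · simp

/-- base point of an edge -/
theorem base_eq (z : V d) (l : Dir d) : (ed z l).1 = z ∧ l.2 = true ∨
    (ed z l).1 = z + stp l ∧ l.2 = false := by
  rcases l with ⟨c, b⟩
  cases b
  · right
    refine ⟨?_, rfl⟩
    simp [ed, stp, sub_eq_add_neg, ← Pi.single_neg]
  · left
    exact ⟨by simp [ed], rfl⟩

theorem base_lev (z : V d) (l : Dir d) : lev g h (ed z l).1 = lev g h z ∨
    (lev g h (ed z l).1 = lev g h z - 1 ∧ (ed z l).1 = z + stp l) := by
  rcases base_eq z l with ⟨h1, h2⟩ | ⟨h1, h2⟩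
  · left; rw [h1]
  · rw [h1, lev_add, bgeo_lev_stp, h2]
    by_cases hc : l.1.val < 4 * h * g
    · right
      rw [if_pos hc]
      exact ⟨by simp [sub_eq_add_neg], rfl⟩
    · left
      rw [if_neg hc, add_zero]

/-- level of vertex `i` of a block -/
theorem vert_lev (hg : 0 < g) (hβ : ∀ b, β b ∈ BW d g h T) (b : Fin N)
    (i : Fin (2 * h + T)) :
    lev g h (start β b + bpos (β b) i) = 2 * h * b + (min i.val h + (i.val - (h + T)) : ℕ) := by
  rw [lev_add, lev_start hg hβ b.isLt.le, lev_bpos hg (hβ b) i.isLt.le]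
  push_cast
  ring

theorem bedge_lev (hg : 0 < g) (hβ : ∀ b, β b ∈ BW d g h T) (b : Fin N)
    (i : Fin (2 * h + T)) :
    lev g h (bedge (start β b) (β b) i).1
      = 2 * h * b + (min i.val h + (i.val - (h + T)) : ℕ) := by
  rw [← vert_lev hg hβ b i]
  unfold bedge
  have ha := (mem_bw.1 (hβ b)).1 i
  rcases base_eq (start β b + bpos (β b) i) (β b i) with ⟨h1, h2⟩ | ⟨h1, h2⟩
  · rw [h1]
  · rw [h1, lev_add, bgeo_lev_stp]
    by_cases h3 : i.val < h
    · have := (bgeo_allow_drift ha (bgeo_gr_low h3)).1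
      rw [h2] at this
      simp at this
    · by_cases h4 : i.val < h + T
      · have := bgeo_allow_core ha (bgeo_gr_core h3 h4)
        rw [if_neg (by omega), add_zero]
      · have := (bgeo_allow_drift ha (bgeo_gr_high h4)).1
        rw [h2] at this
        simp at this

theorem levp_le (hh : 1 ≤ h) {i : ℕ} (hi : i < 2 * h + T) :
    min i h + (i - (h + T)) ≤ 2 * h - 1 := by
  omega

theorem es_lev (hg : 0 < g) (hh : 1 ≤ h) (hβ : ∀ b, β b ∈ BW d g h T) {b : Fin N}
    {e : Edge d} (he : e ∈ es β b) :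
    (2 * h * b : ℤ) ≤ lev g h e.1 ∧ lev g h e.1 ≤ 2 * h * b + 2 * h - 1 := by
  unfold es bedges at he
  rw [Finset.mem_image] at he
  obtain ⟨i, _, rfl⟩ := he
  rw [bedge_lev hg hβ b i]
  have := levp_le (T := T) hh i.isLt
  constructor
  · omega
  · omega

/-- core vertices: level -/
theorem near_lev (hg : 0 < g) (hh : K + 4 ≤ h) (hβ : ∀ b, β b ∈ BW d g h T) {b : Fin N}
    {i : Fin (2 * h + T)} (hi : IsCore h T i.val) {e : Edge d}
    (he : e ∈ Near (K + 2) (start β b + bpos (β b) i)) :
    (2 * h * b + 2 : ℤ) ≤ lev g h e.1 ∧ lev g h e.1 ≤ 2 * h * b + 2 * h - 2 := by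
  have h1 := lev_dist (g := g) (h := h) e.1 (start β b + bpos (β b) i)
  have h2 : dist1 e.1 (start β b + bpos (β b) i) ≤ K + 2 := he
  rw [vert_lev hg hβ b i, abs_le] at h1
  unfold IsCore at hi
  have h3 : min i.val h + (i.val - (h + T)) = h := by omega
  rw [h3] at h1
  constructor
  · omega
  · omega

theorem su_lev (hg : 0 < g) (hh : K + 4 ≤ h) (hβ : ∀ b, β b ∈ BW d g h T) {b : Fin N}
    {e : Edge d} (he : e ∈ su K h T p β b) :
    (2 * h * b - 1 : ℤ) ≤ lev g h e.1 ∧ lev g h e.1 ≤ 2 * h * b + 2 * h - 1 := by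
  rcases he with ⟨i, rfl⟩ | ⟨i, hi, he⟩ | ⟨i, _, l, _, rfl⟩
  · have := es_lev (b := b) hg (by omega) hβ (e := bedge (start β b) (β b) i)
      (Finset.mem_image_of_mem _ (Finset.mem_univ _))
    exact ⟨by omega, this.2⟩
  · have := near_lev hg hh hβ hi he
    exact ⟨by omega, by omega⟩
  · have h1 := vert_lev hg hβ b i
    have h2 := levp_le (T := T) (by omega : 1 ≤ h) i.isLt
    rcases base_lev (g := g) (h := h) (start β b + bpos (β b) i) l with h3 | ⟨h3, _⟩
    · rw [h3, h1]; constructor <;> omega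
    · rw [h3, h1]; constructor <;> omega

theorem mul_step {h : ℕ} {b b' k : ℕ} (hb : b + k ≤ b') :
    (2 * h * b + 2 * h * k : ℤ) ≤ 2 * h * b' := by
  have : 2 * h * (b + k) ≤ 2 * h * b' := Nat.mul_le_mul_left _ hb
  have h2 : ((2 * h * (b + k) : ℕ) : ℤ) ≤ ((2 * h * b' : ℕ) : ℤ) := by exact_mod_cast this
  push_cast at h2
  linarith

theorem far_blocks (hg : 0 < g) (hh : K + 4 ≤ h) (_hp : Allow g h T (2 * h + T - 1) p)
    (hβ : ∀ b, β b ∈ BW d g h T) (hβ' : ∀ b, β' b ∈ BW d g h T) {b b' : Fin N}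
    (hb : b.val + 2 ≤ b'.val) : Disjoint (su K h T p β b) (su K h T p β' b') := by
  rw [Set.disjoint_left]
  intro e he he'
  have h1 := (su_lev hg hh hβ he).2
  have h2 := (su_lev hg hh hβ' he').1
  have h3 := mul_step (h := h) hb
  have h4 : (4 : ℤ) ≤ h := by omega
  push_cast at h3
  linarith

theorem supp_edges (hg : 0 < g) (hh : K + 4 ≤ h) (_hp : Allow g h T (2 * h + T - 1) p)
    (hβ : ∀ b, β b ∈ BW d g h T) (hβ' : ∀ b, β' b ∈ BW d g h T) {b b' : Fin N}
    (hb : b < b') : Disjoint (su K h T p β b) (es β' b' : Set (Edge d)) := by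
  rw [Set.disjoint_left]
  intro e he he'
  have h1 := (su_lev hg hh hβ he).2
  have h2 := (es_lev hg (by omega) hβ' he').1
  have h3 := mul_step (h := h) (b := b.val) (b' := b'.val) (k := 1) hb
  push_cast at h3
  linarith

theorem edges_edges (hg : 0 < g) (hh : K + 4 ≤ h)
    (hβ : ∀ b, β b ∈ BW d g h T) (hβ' : ∀ b, β' b ∈ BW d g h T) {b b' : Fin N}
    (hb : b ≠ b') : Disjoint (es β b : Set (Edge d)) (es β' b' : Set (Edge d)) := by
  rw [Set.disjoint_left]
  intro e he he'
  have h1 := es_lev hg (by omega) hβ he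
  have h2 := es_lev hg (by omega) hβ' he'
  rcases lt_or_gt_of_ne hb with hlt | hlt
  · have h3 := mul_step (h := h) (b := b.val) (b' := b'.val) (k := 1) hlt
    push_cast at h3
    linarith
  · have h3 := mul_step (h := h) (b := b'.val) (b' := b.val) (k := 1) hlt
    push_cast at h3
    linarith

end H42.CD
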