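import Pool.Agent.H42.CD.BAdm

/-!
# Module BWALK: return probabilities for long times

`τ = 2h+T`, `R = 6τ`, `h ≥ 2`, so there are at least four drift groups `c = 0, 1, 2, 3`. For `x ∈ ℤ^d` and a group
`c` let `π_c x = Σ x a` over the coordinates `a` in the second half of group `c`
(`a / (2g) = c` and `g ≤ a % (2g)`). `|π_c x| ≤ nrm x`. For a block word `v`, `π_c (disp v)` is `1` if the letter of
position(s) of group `c` is in the second half and `0` otherwise; each group `c < 2h` belongs to exactly one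
position.
Let `r : ℕ → ℤ → ℝ`, `r 0 z = 1[|z| ≤ R]`, `r (b+1) z = (1/4) r b (z-1) + (1/2) r b z + (1/4) r b (z+1)`.
Claim: `ret (BW d g h T) b Δ ≤ ∏_{c < 4} r b (π_c Δ)`, by induction on `b`:
`avg (fun v v' => ∏_c r b (π_c Δ + π_c (disp v) - π_c (disp v'))) = ∏_c r (b+1) (π_c Δ)`: for each choice of the
bits (in which half is the letter of group `c`, for `v` and `v'`, `c < 4`) the number of words is the same:
the words with given bits are in bijection (replace a coordinate `a` of group `c` by the corresponding one in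
the other half, `a ± g`), so the bits `(ε_c)_{c<4}` are uniform on `{0,1}^4` for `v`, and independently for `v'`.
And `r b z ≤ (2R+1) C(2b, b) / 4^b`: `r b z = Σ_{|y| ≤ R} C(2b, b + y - z)/4^b` (`Nat.choose_le_centralBinom` or
`Nat.choose_le_middle`); or by a direct induction on this formula, or through
`r b z = Σ_y c_b(y) 1[|z + y| ≤ R]`, `c_b` the coefficients of `((1 + X)^2)^b`.
Finally `(C(2b,b)/4^b)^2 ≤ 1/(2b+1)`: induction (`C(2b+2,b+1)/4^(b+1) = C(2b,b)/4^b (2b+1)/(2b+2)`).
-/

open MeasureTheory Set Filter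
open scoped ENNReal Topology

namespace H42.CD

/-! ### The one dimensional lazy walk -/

/-- hitting probabilities of the lazy walk -/
noncomputable def rw1 (R : ℕ) : ℕ → ℤ → ℝ
  | 0, z => if z.natAbs ≤ R then 1 else 0
  | b + 1, z => (rw1 R b (z - 1) + 2 * rw1 R b z + rw1 R b (z + 1)) / 4

/-- binomial coefficient `C(2b, b+z)` with integer argument -/
def kc (b : ℕ) (z : ℤ) : ℕ := if z + b < 0 then 0 else (2 * b).choose (z + b).toNat

theorem kc_succ (b : ℕ) (z : ℤ) :
    kc (b + 1) z = kc b (z - 1) + 2 * kc b z + kc b (z + 1) := by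
  obtain ⟨w, hw⟩ : ∃ w : ℤ, w = z + b + 1 := ⟨_, rfl⟩
  have hz : z = w - b - 1 := by omega
  subst hz
  unfold kc
  have e1 : w - (b : ℤ) - 1 + ((b + 1 : ℕ) : ℤ) = w := by push_cast; ring
  have e2 : w - (b : ℤ) - 1 - 1 + (b : ℤ) = w - 2 := by ring
  have e3 : w - (b : ℤ) - 1 + (b : ℤ) = w - 1 := by ring
  have e4 : w - (b : ℤ) - 1 + 1 + (b : ℤ) = w := by ring
  rw [e1, e2, e3, e4]
  rcases lt_or_ge w 0 with h0 | h0
  · rw [if_pos h0, if_pos (by omega), if_pos (by omega), if_pos h0]
  · obtain ⟨m, rfl⟩ := Int.eq_ofNat_of_zero_le h0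
    match m with
    | 0 => simp
    | 1 =>
      have : ((1 : ℕ) : ℤ) - 2 < 0 := by norm_num
      rw [if_neg (by norm_num), if_pos this, if_neg (by norm_num), if_neg (by norm_num)]
      simp
      ring
    | m + 2 =>
      rw [if_neg (by omega), if_neg (by omega), if_neg (by omega), if_neg (by omega)]
      have t1 : ((m + 2 : ℕ) : ℤ).toNat = m + 2 := by omega
      have t2 : (((m + 2 : ℕ) : ℤ) - 2).toNat = m := by omega
      have t3 : (((m + 2 : ℕ) : ℤ) - 1).toNat = m + 1 := by omega
      rw [t1, t2, t3]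
      have : 2 * (b + 1) = 2 * b + 1 + 1 := by ring
      rw [this, Nat.choose_succ_succ' (2 * b + 1) (m + 1), Nat.choose_succ_succ' (2 * b) m,
        Nat.choose_succ_succ' (2 * b) (m + 1)]
      ring

theorem kc_le (b : ℕ) (z : ℤ) : kc b z ≤ Nat.centralBinom b := by
  unfold kc
  split_ifs
  · exact Nat.zero_le _
  · exact Nat.choose_le_centralBinom _ _

theorem rw1_eq (R b : ℕ) (z : ℤ) :
    rw1 R b z = (∑ y ∈ Finset.Icc (-(R : ℤ)) R, (kc b (z - y) : ℝ)) / 4 ^ b := by
  induction b generalizing z with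
  | zero =>
    have h1 : ∀ y : ℤ, (kc 0 (z - y) : ℝ) = if z = y then 1 else 0 := by
      intro y
      unfold kc
      by_cases h : z = y
      · subst h; simp
      · rw [if_neg h]
        by_cases h2 : z - y + ((0 : ℕ) : ℤ) < 0
        · rw [if_pos h2]; simp
        · rw [if_neg h2]
          have : 0 < (z - y + ((0 : ℕ) : ℤ)).toNat := by omega
          rw [Nat.choose_eq_zero_of_lt (by omega)]
          simp
    simp only [h1, rw1, pow_zero, div_one]
    rw [Finset.sum_ite_eq]
    refine if_congr ?_ rfl rfl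
    rw [Finset.mem_Icc]
    omega
  | succ b ih =>
    rw [rw1, ih, ih, ih]
    have : ∀ y : ℤ, (kc (b + 1) (z - y) : ℝ)
        = kc b (z - 1 - y) + 2 * kc b (z - y) + kc b (z + 1 - y) := by
      intro y
      rw [kc_succ]
      push_cast
      have a1 : z - y - 1 = z - 1 - y := by ring
      have a2 : z - y + 1 = z + 1 - y := by ring
      rw [a1, a2]
    simp only [this]
    rw [Finset.sum_add_distrib, Finset.sum_add_distrib, ← Finset.mul_sum]
    rw [pow_succ]
    ring

theorem rw1_le (R b : ℕ) (z : ℤ) :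
    rw1 R b z ≤ (2 * R + 1) * ((Nat.centralBinom b : ℝ) / 4 ^ b) := by
  rw [rw1_eq, ← mul_div_assoc]
  refine div_le_div_of_nonneg_right ?_ (by positivity)
  refine (Finset.sum_le_sum (g := fun _ => (Nat.centralBinom b : ℝ)) ?_).trans ?_
  · intro y _
    exact_mod_cast kc_le b (z - y)
  · rw [Finset.sum_const, nsmul_eq_mul, Int.card_Icc]
    refine le_of_eq ?_
    congr 1
    have : ((R : ℤ) + 1 - -(R : ℤ)).toNat = 2 * R + 1 := by omega
    rw [this]
    push_cast
    ring

theorem rw1_nonneg (R b : ℕ) (z : ℤ) : 0 ≤ rw1 R b z := by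
  rw [rw1_eq]
  positivity

theorem cb_sq (b : ℕ) : ((Nat.centralBinom b : ℝ) / 4 ^ b) ^ 2 ≤ 1 / (2 * b + 1) := by
  induction b with
  | zero => simp
  | succ b ih =>
    have h1 : ((b : ℝ) + 1) * Nat.centralBinom (b + 1)
        = 2 * (2 * b + 1) * Nat.centralBinom b := by
      exact_mod_cast Nat.succ_mul_centralBinom_succ b
    have hb : (0 : ℝ) < b + 1 := by positivity
    have h2 : (Nat.centralBinom (b + 1) : ℝ) = 2 * (2 * b + 1) * Nat.centralBinom b / (b + 1) := by
      rw [eq_div_iff hb.ne', mul_comm, h1]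
    have h3 : (Nat.centralBinom (b + 1) : ℝ) / 4 ^ (b + 1)
        = (Nat.centralBinom b / 4 ^ b) * ((2 * b + 1) / (2 * b + 2)) := by
      rw [h2, pow_succ]
      field_simp
      ring
    rw [h3, mul_pow]
    have h4 : ((2 * (b : ℝ) + 1) / (2 * b + 2)) ^ 2 * (1 / (2 * b + 1))
        ≤ 1 / (2 * ((b + 1 : ℕ) : ℝ) + 1) := by
      push_cast
      rw [div_pow, div_mul_div_comm, div_le_div_iff₀ (by positivity) (by positivity)]
      nlinarith [sq_nonneg (b : ℝ), (Nat.cast_nonneg b : (0 : ℝ) ≤ b)]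
    calc ((Nat.centralBinom b : ℝ) / 4 ^ b) ^ 2 * ((2 * b + 1) / (2 * b + 2)) ^ 2
        ≤ 1 / (2 * b + 1) * ((2 * b + 1) / (2 * b + 2)) ^ 2 :=
          mul_le_mul_of_nonneg_right ih (by positivity)
      _ = ((2 * (b : ℝ) + 1) / (2 * b + 2)) ^ 2 * (1 / (2 * b + 1)) := mul_comm _ _
      _ ≤ _ := h4

/-! ### Projections -/

/-- the sum of the coordinates in the second half of group `c` -/
def prj {d : ℕ} (g c : ℕ) (x : V d) : ℤ :=
  ∑ a : Fin d, if a.val / (2 * g) = c ∧ g ≤ a.val % (2 * g) then x a else 0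

variable {d g h T : ℕ}

theorem prj_add (c : ℕ) (x y : V d) : prj g c (x + y) = prj g c x + prj g c y := by
  unfold prj
  rw [← Finset.sum_add_distrib]
  refine Finset.sum_congr rfl fun a _ => ?_
  split_ifs <;> simp

theorem prj_sub (c : ℕ) (x y : V d) : prj g c (x - y) = prj g c x - prj g c y := by
  unfold prj
  rw [← Finset.sum_sub_distrib]
  refine Finset.sum_congr rfl fun a _ => ?_
  split_ifs <;> simp

theorem prj_sum {ι : Type} (c : ℕ) (s : Finset ι) (f : ι → V d) :
    prj g c (∑ i ∈ s, f i) = ∑ i ∈ s, prj g c (f i) := by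
  classical
  induction s using Finset.induction_on with
  | empty => simp [prj]
  | insert i s hi ih => rw [Finset.sum_insert hi, Finset.sum_insert hi, prj_add, ih]

theorem prj_natAbs_le (c : ℕ) (x : V d) : (prj g c x).natAbs ≤ nrm x := by
  unfold prj nrm dist1
  refine (Int.natAbs_sum_le _ _).trans (Finset.sum_le_sum fun a _ => ?_)
  split_ifs <;> simp

theorem prj_stp (c : ℕ) (i : Dir d) :
    prj g c (stp i) = if i.1.val / (2 * g) = c ∧ g ≤ i.1.val % (2 * g)
      then (if i.2 then 1 else -1) else 0 := by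
  unfold prj
  rw [Finset.sum_eq_single i.1]
  · rw [stp_apply, if_pos rfl]
  · intro b _ hb
    rw [stp_apply, if_neg hb]
    split_ifs <;> rfl
  · intro hh; exact absurd (Finset.mem_univ _) hh

theorem disp_update {n : ℕ} (v : Fin n → Dir d) (j : Fin n) (l : Dir d) :
    disp (Function.update v j l) = disp v - stp (v j) + stp l := by
  unfold disp
  rw [← Finset.add_sum_erase _ _ (Finset.mem_univ j),
    ← Finset.add_sum_erase (Finset.univ) (fun j => stp (v j)) (Finset.mem_univ j)]
  have : ∑ x ∈ Finset.univ.erase j, stp (Function.update v j l x)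
      = ∑ x ∈ Finset.univ.erase j, stp (v x) := by
    refine Finset.sum_congr rfl fun x hx => ?_
    rw [Function.update_of_ne (Finset.ne_of_mem_erase hx)]
  rw [this, Function.update_self]
  abel

/-- the position of group `c` -/
def jj (h T : ℕ) {c : ℕ} (hc : c < 2 * h) : Fin (2 * h + T) :=
  ⟨if c < h then c else c + T, by split_ifs <;> omega⟩

theorem gr_jj {c : ℕ} (hc : c < 2 * h) : gr h T (jj h T hc).val = some c := by
  unfold gr jj
  by_cases h1 : c < h
  · simp [h1]
  · simp only [if_neg h1]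
    rw [if_neg (by omega), if_neg (by omega)]
    simp

theorem gr_uniq {c : ℕ} (hc : c < 2 * h) (i : Fin (2 * h + T)) (hi : gr h T i.val = some c) :
    i = jj h T hc := by
  apply Fin.ext
  unfold gr at hi
  unfold jj
  have := i.isLt
  split_ifs at hi with h1 h2
  · simp only [Option.some.injEq] at hi
    simp only
    rw [if_pos (by omega)]; exact hi
  · simp only [Option.some.injEq] at hi
    simp only
    rw [if_neg (by omega)]; omega

theorem allow_some {i c : ℕ} {l : Dir d} (hi : gr h T i = some c) :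
    Allow g h T i l ↔ l.2 = true ∧ l.1.val / (2 * g) = c := by
  unfold Allow; rw [hi]

theorem grp_ne {v : Fin (2 * h + T) → Dir d} (hg : 0 < g) (hv : v ∈ BW d g h T) {c : ℕ}
    (hc : c < 2 * h) (i : Fin (2 * h + T)) (hi : i ≠ jj h T hc) :
    (v i).1.val / (2 * g) ≠ c := by
  classical
  have hA := (Finset.mem_filter.1 hv).2.1 i
  cases hgr : gr h T i.val with
  | none =>
    unfold Allow at hA
    rw [hgr] at hA
    have hA' : 4 * h * g ≤ (v i).1.val := hA
    have : 2 * h ≤ (v i).1.val / (2 * g) := by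
      rw [Nat.le_div_iff_mul_le (by omega)]
      calc 2 * h * (2 * g) = 4 * h * g := by ring
        _ ≤ _ := hA'
    omega
  | some c' =>
    rw [allow_some hgr] at hA
    intro hcc
    apply hi
    apply gr_uniq hc
    rw [hgr, ← hA.2, hcc]

theorem prj_disp {v : Fin (2 * h + T) → Dir d} (hg : 0 < g) (hv : v ∈ BW d g h T) {c : ℕ}
    (hc : c < 2 * h) :
    prj g c (disp v) = if g ≤ (v (jj h T hc)).1.val % (2 * g) then 1 else 0 := by
  classical
  have hA := (Finset.mem_filter.1 hv).2.1 (jj h T hc)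
  rw [allow_some (gr_jj hc)] at hA
  unfold disp
  rw [prj_sum, Finset.sum_eq_single (jj h T hc)]
  · rw [prj_stp, hA.1, hA.2]
    simp
  · intro i _ hi
    rw [prj_stp, if_neg]
    rintro ⟨h1, _⟩
    exact grp_ne hg hv hc i hi h1
  · intro hh; exact absurd (Finset.mem_univ _) hh

/-- move a coordinate to the other half of its group -/
def flp (g : ℕ) (l : Dir d) : Dir d :=
  (if hh : (if g ≤ l.1.val % (2 * g) then l.1.val - g else l.1.val + g) < d
    then ⟨_, hh⟩ else l.1, l.2)

theorem flp_val {l : Dir d} (hg : 0 < g) (hd : 4 * h * g ≤ d) {c : ℕ} (hc : c < 2 * h)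
    (hl : l.1.val / (2 * g) = c) :
    (flp g l).1.val = if g ≤ l.1.val % (2 * g) then l.1.val - g else l.1.val + g := by
  have hmod := Nat.mod_lt l.1.val (show 0 < 2 * g by omega)
  have hdm := Nat.div_add_mod l.1.val (2 * g)
  rw [hl] at hdm
  have hcc : 2 * g * c + 2 * g ≤ 4 * h * g := by
    have : c + 1 ≤ 2 * h := hc
    calc 2 * g * c + 2 * g = 2 * g * (c + 1) := by ring
      _ ≤ 2 * g * (2 * h) := Nat.mul_le_mul_left _ this
      _ = 4 * h * g := by ring
  have hlt : (if g ≤ l.1.val % (2 * g) then l.1.val - g else l.1.val + g) < d := by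
    split_ifs <;> omega
  unfold flp
  simp only [dif_pos hlt]

theorem flp_grp {l : Dir d} (hg : 0 < g) (hd : 4 * h * g ≤ d) {c : ℕ} (hc : c < 2 * h)
    (hl : l.1.val / (2 * g) = c) : (flp g l).1.val / (2 * g) = c := by
  rw [flp_val hg hd hc hl]
  have hmod := Nat.mod_lt l.1.val (show 0 < 2 * g by omega)
  have hdm := Nat.div_add_mod l.1.val (2 * g)
  rw [hl] at hdm
  rw [Nat.div_eq_iff (by omega)]
  have e1 : c * (2 * g) = 2 * g * c := by ring
  rw [e1]
  split_ifs <;> omega

theorem flp_mod {l : Dir d} (hg : 0 < g) (hd : 4 * h * g ≤ d) {c : ℕ} (hc : c < 2 * h)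
    (hl : l.1.val / (2 * g) = c) :
    (g ≤ (flp g l).1.val % (2 * g)) ↔ ¬ g ≤ l.1.val % (2 * g) := by
  have h1 := flp_grp hg hd hc hl
  have hv := flp_val hg hd hc hl
  have hmod := Nat.mod_lt l.1.val (show 0 < 2 * g by omega)
  have hmod' := Nat.mod_lt (flp g l).1.val (show 0 < 2 * g by omega)
  have hdm := Nat.div_add_mod l.1.val (2 * g)
  have hdm' := Nat.div_add_mod (flp g l).1.val (2 * g)
  rw [hl] at hdm
  rw [h1] at hdm'
  split_ifs at hv with hq
  · constructor
    · intro h3; omega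
    · intro h3; exact absurd hq h3
  · constructor
    · intro _; exact hq
    · intro _; omega

theorem flp_flp {l : Dir d} (hg : 0 < g) (hd : 4 * h * g ≤ d) {c : ℕ} (hc : c < 2 * h)
    (hl : l.1.val / (2 * g) = c) : flp g (flp g l) = l := by
  have h1 := flp_grp hg hd hc hl
  have hv := flp_val hg hd hc hl
  have hv' := flp_val hg hd hc h1
  have hm := flp_mod hg hd hc hl
  refine Prod.ext (Fin.ext ?_) rfl
  have hle : l.1.val % (2 * g) ≤ l.1.val := Nat.mod_le _ _
  by_cases hq : g ≤ l.1.val % (2 * g)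
  · rw [if_pos hq] at hv
    rw [if_neg (fun hx => (hm.1 hx) hq)] at hv'
    omega
  · rw [if_neg hq] at hv
    rw [if_pos (hm.2 hq)] at hv'
    omega

/-- the involution of the block words which changes the half of group `c` -/
theorem exists_flip (hg : 0 < g) (hd : 4 * h * g ≤ d) {c : ℕ} (hc : c < 2 * h) :
    ∃ F : (Fin (2 * h + T) → Dir d) → (Fin (2 * h + T) → Dir d),
      (∀ v ∈ BW d g h T, F v ∈ BW d g h T) ∧ (∀ v ∈ BW d g h T, F (F v) = v) ∧
      (∀ v ∈ BW d g h T, prj g c (disp (F v)) = 1 - prj g c (disp v)) ∧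
      ∀ v ∈ BW d g h T, ∀ c', c' ≠ c → prj g c' (disp (F v)) = prj g c' (disp v) := by
  classical
  have hgrp : ∀ v ∈ BW d g h T, (v (jj h T hc)).1.val / (2 * g) = c := by
    intro v hv
    have hA := (Finset.mem_filter.1 hv).2.1 (jj h T hc)
    rw [allow_some (gr_jj hc)] at hA
    exact hA.2
  refine ⟨fun v => Function.update v (jj h T hc) (flp g (v (jj h T hc))), ?_, ?_, ?_, ?_⟩
  · intro v hv
    have hv2 := (Finset.mem_filter.1 hv).2
    have h1 := flp_grp hg hd hc (hgrp v hv)
    refine Finset.mem_filter.2 ⟨Finset.mem_univ _, ?_, ?_⟩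
    · intro i
      show Allow g h T i.val
        (Function.update v (jj h T hc) (flp g (v (jj h T hc))) i)
      by_cases hi : i = jj h T hc
      · subst hi
        rw [Function.update_self, allow_some (gr_jj hc)]
        have hA := hv2.1 (jj h T hc)
        rw [allow_some (gr_jj hc)] at hA
        exact ⟨hA.1, h1⟩
      · rw [Function.update_of_ne hi]
        exact hv2.1 i
    · intro i j hij
      simp only at hij
      by_cases hi : i = jj h T hc
      · by_cases hj : j = jj h T hc
        · rw [hi, hj]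
        · exfalso
          subst hi
          rw [Function.update_self, Function.update_of_ne hj] at hij
          apply grp_ne hg hv hc j hj
          rw [← hij, h1]
      · by_cases hj : j = jj h T hc
        · exfalso
          subst hj
          rw [Function.update_self, Function.update_of_ne hi] at hij
          apply grp_ne hg hv hc i hi
          rw [hij, h1]
        · rw [Function.update_of_ne hi, Function.update_of_ne hj] at hij
          exact hv2.2 hij
  · intro v hv
    simp only [Function.update_self, Function.update_idem]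
    rw [flp_flp hg hd hc (hgrp v hv), Function.update_eq_self]
  · intro v hv
    have hA := (Finset.mem_filter.1 hv).2.1 (jj h T hc)
    rw [allow_some (gr_jj hc)] at hA
    have h1 := flp_grp hg hd hc (hgrp v hv)
    have h2 := flp_mod hg hd hc (hgrp v hv)
    rw [disp_update, prj_add, prj_sub, prj_disp hg hv hc, prj_stp, prj_stp, h1, hA.2, hA.1]
    have h3 : (flp g (v (jj h T hc))).2 = true := hA.1
    rw [h3]
    by_cases hq : g ≤ (v (jj h T hc)).1.val % (2 * g)
    · have : ¬ g ≤ (flp g (v (jj h T hc))).1.val % (2 * g) := by rw [h2]; simpa using hq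
      simp [hq, this]
    · have : g ≤ (flp g (v (jj h T hc))).1.val % (2 * g) := h2.2 hq
      simp [hq, this]
  · intro v hv c' hc'
    have h1 := flp_grp hg hd hc (hgrp v hv)
    have h0 := hgrp v hv
    rw [disp_update, prj_add, prj_sub, prj_stp, prj_stp, h1, h0, if_neg, if_neg]
    · simp
    · rintro ⟨h, _⟩; exact hc' h.symm
    · rintro ⟨h, _⟩; exact hc' h.symm

theorem prj_bit {v : Fin (2 * h + T) → Dir d} (hg : 0 < g) (hv : v ∈ BW d g h T) {c : ℕ}
    (hc : c < 2 * h) : prj g c (disp v) = 0 ∨ prj g c (disp v) = 1 := by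
  rw [prj_disp hg hv hc]
  split_ifs <;> simp

theorem sum_half (hg : 0 < g) (hd : 4 * h * g ≤ d) (S : Finset ℕ) (hS : ∀ c ∈ S, c < 2 * h)
    (φ : ℕ → ℤ → ℝ) :
    ∑ v ∈ BW d g h T, ∏ c ∈ S, φ c (prj g c (disp v))
      = (∏ c ∈ S, (φ c 0 + φ c 1) / 2) * (BW d g h T).card := by
  classical
  induction S using Finset.induction_on with
  | empty => simp
  | insert c S hcS ih =>
    have hc : c < 2 * h := hS c (Finset.mem_insert_self _ _)
    have ih := ih (fun c' hc' => hS c' (Finset.mem_insert_of_mem hc'))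
    obtain ⟨F, hF1, hF2, hF3, hF4⟩ := exists_flip (T := T) hg hd hc
    have hinv : ∑ v ∈ BW d g h T, ∏ c ∈ insert c S, φ c (prj g c (disp v))
        = ∑ v ∈ BW d g h T, ∏ c ∈ insert c S, φ c (prj g c (disp (F v))) := by
      refine Finset.sum_nbij' F F hF1 hF1 hF2 hF2 ?_
      intro v hv
      rw [hF2 v hv]
    have h2 : (∑ v ∈ BW d g h T, ∏ c ∈ insert c S, φ c (prj g c (disp v)))
        + (∑ v ∈ BW d g h T, ∏ c ∈ insert c S, φ c (prj g c (disp v)))
        = (φ c 0 + φ c 1) * ∑ v ∈ BW d g h T, ∏ c ∈ S, φ c (prj g c (disp v)) := by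
      conv_lhs => rw [hinv]
      nth_rewrite 2 [← hinv]
      rw [← Finset.sum_add_distrib, Finset.mul_sum]
      refine Finset.sum_congr rfl fun v hv => ?_
      rw [Finset.prod_insert hcS, Finset.prod_insert hcS]
      have h3 : ∏ x ∈ S, φ x (prj g x (disp (F v))) = ∏ x ∈ S, φ x (prj g x (disp v)) := by
        refine Finset.prod_congr rfl fun x hx => ?_
        rw [hF4 v hv x]
        rintro rfl
        exact hcS hx
      rw [h3, hF3 v hv]
      rcases prj_bit hg hv hc with h0 | h0 <;> rw [h0] <;> norm_num <;> ring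
    rw [ih] at h2
    rw [Finset.prod_insert hcS]
    linarith

theorem sum_quarter (hg : 0 < g) (hd : 4 * h * g ≤ d) (S : Finset ℕ) (hS : ∀ c ∈ S, c < 2 * h)
    (φ : ℕ → ℤ → ℤ → ℝ) :
    ∑ v ∈ BW d g h T, ∑ v' ∈ BW d g h T,
        ∏ c ∈ S, φ c (prj g c (disp v)) (prj g c (disp v'))
      = (∏ c ∈ S, (φ c 0 0 + φ c 0 1 + φ c 1 0 + φ c 1 1) / 4) * ((BW d g h T).card : ℝ) ^ 2 := by
  have h1 : ∀ v ∈ BW d g h T, ∑ v' ∈ BW d g h T,
        ∏ c ∈ S, φ c (prj g c (disp v)) (prj g c (disp v'))
        = (∏ c ∈ S, (φ c (prj g c (disp v)) 0 + φ c (prj g c (disp v)) 1) / 2)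
          * (BW d g h T).card := fun v _ =>
    sum_half hg hd S hS (fun c => φ c (prj g c (disp v)))
  rw [Finset.sum_congr rfl h1, ← Finset.sum_mul]
  have h2 := sum_half (T := T) hg hd S hS (fun c e => (φ c e 0 + φ c e 1) / 2)
  rw [h2, sq, ← mul_assoc]
  congr 2
  refine Finset.prod_congr rfl fun c _ => ?_
  ring

theorem ret_le_prod (hg : 0 < g) (hd : 4 * h * g ≤ d) (S : Finset ℕ) (hS : ∀ c ∈ S, c < 2 * h)
    (b : ℕ) (Δ : V d) :
    ret (BW d g h T) b Δ ≤ ∏ c ∈ S, rw1 (6 * (2 * h + T)) b (prj g c Δ) := by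
  induction b generalizing Δ with
  | zero =>
    unfold ret rw1
    by_cases hn : nrm Δ ≤ 6 * (2 * h + T)
    · rw [if_pos hn]
      refine le_of_eq ?_
      symm
      refine Finset.prod_eq_one fun c _ => ?_
      rw [if_pos]
      exact (prj_natAbs_le c Δ).trans hn
    · rw [if_neg hn]
      refine Finset.prod_nonneg fun c _ => ?_
      split_ifs <;> norm_num
  | succ b ih =>
    have hnn : 0 ≤ ∏ c ∈ S, rw1 (6 * (2 * h + T)) (b + 1) (prj g c Δ) :=
      Finset.prod_nonneg fun c _ => rw1_nonneg _ _ _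
    unfold ret avg
    by_cases hcard : (BW d g h T).card = 0
    · rw [hcard]
      simpa using hnn
    · have hpos : (0 : ℝ) < ((BW d g h T).card : ℝ) ^ 2 := by
        have : 0 < (BW d g h T).card := Nat.pos_of_ne_zero hcard
        positivity
      rw [div_le_iff₀ hpos]
      calc ∑ v ∈ BW d g h T, ∑ v' ∈ BW d g h T, ret (BW d g h T) b (Δ + disp v - disp v')
          ≤ ∑ v ∈ BW d g h T, ∑ v' ∈ BW d g h T,
              ∏ c ∈ S, rw1 (6 * (2 * h + T)) b
                (prj g c Δ + prj g c (disp v) - prj g c (disp v')) := by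
            refine Finset.sum_le_sum fun v _ => Finset.sum_le_sum fun v' _ => ?_
            refine (ih _).trans (le_of_eq ?_)
            refine Finset.prod_congr rfl fun c _ => ?_
            rw [prj_sub, prj_add]
        _ = (∏ c ∈ S, (rw1 (6 * (2 * h + T)) b (prj g c Δ + 0 - 0)
              + rw1 (6 * (2 * h + T)) b (prj g c Δ + 0 - 1)
              + rw1 (6 * (2 * h + T)) b (prj g c Δ + 1 - 0)
              + rw1 (6 * (2 * h + T)) b (prj g c Δ + 1 - 1)) / 4)
              * ((BW d g h T).card : ℝ) ^ 2 :=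
            sum_quarter hg hd S hS
              (fun c e e' => rw1 (6 * (2 * h + T)) b (prj g c Δ + e - e'))
        _ = _ := by
            congr 1
            refine Finset.prod_congr rfl fun c _ => ?_
            rw [rw1]
            simp only [add_zero, sub_zero, add_sub_cancel_right]
            ring

theorem ret_walk {h T d g : ℕ} {c0 : ℝ} (hh : 2 ≤ h) (ha : Adm h T c0 d g) (b : ℕ) (Δ : V d) :
    ret (BW d g h T) b Δ ≤ (12 * (2 * h + T) + 1 : ℝ) ^ 4 / (2 * b + 1 : ℝ) ^ 2 := by
  have hg : 0 < g := ha.1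
  have hd : 4 * h * g ≤ d := by have := ha.2.1; omega
  refine (ret_le_prod hg hd (Finset.range 4)
    (fun c hc => by have := Finset.mem_range.1 hc; omega) b Δ).trans ?_
  have h1 : ∏ c ∈ Finset.range 4, rw1 (6 * (2 * h + T)) b (prj g c Δ)
      ≤ ∏ _c ∈ Finset.range 4,
        ((2 * ((6 * (2 * h + T) : ℕ) : ℝ) + 1) * ((Nat.centralBinom b : ℝ) / 4 ^ b)) :=
    Finset.prod_le_prod (fun c _ => rw1_nonneg _ _ _) (fun c _ => rw1_le _ _ _)
  refine h1.trans ?_
  rw [Finset.prod_const, Finset.card_range, mul_pow]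
  have h2 := cb_sq b
  have h3 : ((Nat.centralBinom b : ℝ) / 4 ^ b) ^ 4 ≤ 1 / (2 * b + 1 : ℝ) ^ 2 := by
    have : ((Nat.centralBinom b : ℝ) / 4 ^ b) ^ 4 = (((Nat.centralBinom b : ℝ) / 4 ^ b) ^ 2) ^ 2 := by
      rw [← pow_mul]
    rw [this]
    calc (((Nat.centralBinom b : ℝ) / 4 ^ b) ^ 2) ^ 2 ≤ (1 / (2 * b + 1 : ℝ)) ^ 2 :=
          pow_le_pow_left₀ (by positivity) h2 2
      _ = _ := by rw [div_pow, one_pow]
  have h4 : (2 * ((6 * (2 * h + T) : ℕ) : ℝ) + 1) = 12 * (2 * h + T) + 1 := by
    push_cast; ring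
  rw [h4]
  calc (12 * (2 * h + T) + 1 : ℝ) ^ 4 * ((Nat.centralBinom b : ℝ) / 4 ^ b) ^ 4
      ≤ (12 * (2 * h + T) + 1 : ℝ) ^ 4 * (1 / (2 * b + 1 : ℝ) ^ 2) :=
        mul_le_mul_of_nonneg_left h3 (by positivity)
    _ = _ := by rw [mul_one_div]

end H42.CD
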