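import Pool.Agent.H42.CD.Defs

/-!
# Elementary facts about directions, edges, distances, positions (proved)
-/

open MeasureTheory Set Filter
open scoped ENNReal Topology

namespace H42.CD

variable {d : ℕ}

@[simp] theorem rev_rev (i : Dir d) : rev (rev i) = i := by
  simp [rev]

theorem rev_ne (i : Dir d) : rev i ≠ i := by
  intro h
  have := congrArg Prod.snd h
  simp [rev] at this

theorem rev_inj {i j : Dir d} (h : rev i = rev j) : i = j := by
  rw [← rev_rev i, h, rev_rev]

@[simp] theorem rev_fst (i : Dir d) : (rev i).1 = i.1 := rfl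

theorem stp_apply (i : Dir d) (a : Fin d) :
    stp i a = if a = i.1 then (if i.2 then 1 else -1) else 0 := by
  unfold stp
  by_cases h : a = i.1
  · subst h; simp
  · simp [h]

theorem stp_rev (i : Dir d) : stp (rev i) = - stp i := by
  funext a
  rw [Pi.neg_apply, stp_apply, stp_apply]
  rcases i with ⟨c, b⟩
  cases b <;> simp [rev] <;> split_ifs <;> simp

theorem stp_ne_zero (i : Dir d) : stp i ≠ 0 := by
  intro h
  have := congrFun h i.1
  rw [stp_apply] at this
  rcases i with ⟨c, b⟩
  cases b <;> simp at this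

theorem stp_inj {i j : Dir d} (h : stp i = stp j) : i = j := by
  rcases i with ⟨a, s⟩
  rcases j with ⟨b, u⟩
  have h1 := congrFun h a
  rw [stp_apply, stp_apply] at h1
  by_cases hab : a = b
  · subst hab
    cases s <;> cases u <;> simp_all
  · cases s <;> cases u <;> simp [hab] at h1

theorem add_stp_rev (x : V d) (i : Dir d) : x + stp i + stp (rev i) = x := by
  rw [stp_rev]; simp

/-- an edge seen from its other endpoint -/
theorem ed_rev (x : V d) (i : Dir d) : ed (x + stp i) (rev i) = ed x i := by
  rcases i with ⟨c, b⟩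
  cases b
  · simp [ed, rev, stp, sub_eq_add_neg, ← Pi.single_neg]
  · simp [ed, rev, stp]

theorem ed_inj {x : V d} {i j : Dir d} (h : ed x i = ed x j) : i = j := by
  rcases i with ⟨a, s⟩
  rcases j with ⟨b, u⟩
  have h0 : ∀ (y : V d) (c : Fin d), y ≠ y - Pi.single c 1 := by
    intro y c hy
    have := congrFun hy c
    simp at this
    omega
  unfold ed at h
  cases s <;> cases u <;> simp only [Bool.false_eq_true, if_false, if_true, Prod.mk.injEq] at h
  · rw [h.2]
  · exact absurd h.1.symm (h0 _ _)
  · exact absurd h.1 (h0 _ _)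
  · rw [h.2]

/-- the two endpoints of an edge determine it -/
theorem ed_eq_iff {x y : V d} {i j : Dir d} :
    ed x i = ed y j ↔ (x = y ∧ i = j) ∨ (y = x + stp i ∧ j = rev i) := by
  constructor
  · intro h
    rcases i with ⟨a, s⟩
    rcases j with ⟨b, u⟩
    unfold ed at h
    cases s <;> cases u <;> simp only [Bool.false_eq_true, if_false, if_true, Prod.mk.injEq] at h
    · left
      obtain ⟨h1, h2⟩ := h
      subst h2
      exact ⟨sub_left_injective h1, rfl⟩
    · right
      obtain ⟨h1, h2⟩ := h
      subst h2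
      refine ⟨?_, rfl⟩
      rw [← h1]
      simp [stp, sub_eq_add_neg, ← Pi.single_neg]
    · right
      obtain ⟨h1, h2⟩ := h
      subst h2
      refine ⟨?_, rfl⟩
      rw [h1]
      simp [stp]
    · left
      obtain ⟨h1, h2⟩ := h
      subst h2
      exact ⟨h1, rfl⟩
  · rintro (⟨rfl, rfl⟩ | ⟨rfl, rfl⟩)
    · rfl
    · exact (ed_rev x i).symm

/-! ### Distances -/

@[simp] theorem dist1_self (x : V d) : dist1 x x = 0 := by simp [dist1]

theorem dist1_comm (x y : V d) : dist1 x y = dist1 y x := by
  unfold dist1
  refine Finset.sum_congr rfl fun a _ => ?_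
  rw [← Int.natAbs_neg]; congr 1; ring

theorem dist1_tri (x y z : V d) : dist1 x z ≤ dist1 x y + dist1 y z := by
  unfold dist1
  rw [← Finset.sum_add_distrib]
  refine Finset.sum_le_sum fun a _ => ?_
  have : x a - z a = (x a - y a) + (y a - z a) := by ring
  rw [this]
  exact Int.natAbs_add_le _ _

theorem dist1_eq_zero {x y : V d} : dist1 x y = 0 ↔ x = y := by
  unfold dist1
  rw [Finset.sum_eq_zero_iff]
  constructor
  · intro h
    funext a
    have := h a (Finset.mem_univ a)
    omega
  · rintro rfl
    simp

theorem dist1_add_right (x y z : V d) : dist1 (x + z) (y + z) = dist1 x y := by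
  unfold dist1
  refine Finset.sum_congr rfl fun a _ => ?_
  simp

theorem dist1_sub_left (x y : V d) : dist1 x y = dist1 (x - y) 0 := by
  unfold dist1
  refine Finset.sum_congr rfl fun a _ => ?_
  simp

theorem dist1_stp_zero (i : Dir d) : dist1 (stp i) 0 = 1 := by
  unfold dist1
  rw [Finset.sum_eq_single i.1]
  · rw [stp_apply]
    rcases i with ⟨c, b⟩
    cases b <;> simp
  · intro b _ hb
    rw [stp_apply, if_neg hb]
    simp
  · intro h; exact absurd (Finset.mem_univ _) h

theorem dist1_stp (x : V d) (i : Dir d) : dist1 (x + stp i) x = 1 := by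
  rw [dist1_sub_left, add_sub_cancel_left, dist1_stp_zero]

theorem ed_base (x : V d) (i : Dir d) : dist1 (ed x i).1 x ≤ 1 := by
  rcases i with ⟨c, b⟩
  cases b
  · have h : (ed x (c, false)).1 = x + stp (c, false) := by
      simp [ed, stp, sub_eq_add_neg, ← Pi.single_neg]
    rw [h, dist1_stp]
  · simp [ed]

/-! ### Positions -/

@[simp] theorem pos_zero (x : V d) (w : ℕ → Dir d) : pos x w 0 = x := by simp [pos]

theorem pos_succ (x : V d) (w : ℕ → Dir d) (i : ℕ) :
    pos x w (i + 1) = pos x w i + stp (w i) := by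
  unfold pos
  rw [Finset.sum_range_succ, add_assoc]

theorem pos_add (x : V d) (w : ℕ → Dir d) (a i : ℕ) :
    pos x w (a + i) = pos (pos x w a) (fun j => w (a + j)) i := by
  unfold pos
  rw [Finset.sum_range_add, add_assoc]

theorem pos_translate (x y : V d) (w : ℕ → Dir d) (i : ℕ) : pos (x + y) w i = x + pos y w i := by
  unfold pos; rw [add_assoc]

theorem pe_add (x : V d) (w : ℕ → Dir d) (a j : ℕ) :
    pe x w (a + j) = pe (pos x w a) (fun j => w (a + j)) j := by
  unfold pe; rw [pos_add]

theorem dist1_pos_le (x : V d) (w : ℕ → Dir d) (i j : ℕ) (h : i ≤ j) :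
    dist1 (pos x w i) (pos x w j) ≤ j - i := by
  induction j, h using Nat.le_induction with
  | base => simp
  | succ j hj ih =>
    have := dist1_tri (pos x w i) (pos x w j) (pos x w (j + 1))
    rw [pos_succ] at this
    rw [dist1_comm (pos x w j), dist1_stp] at this
    rw [pos_succ]
    omega

/-! ### Trees -/

theorem avail_congr {D : Type} [Fintype D] {κ : ℕ} (b : Bool) (k : ℕ) {W W' : TC D} (v : ℝ)
    (h : ∀ w, w ≠ [] → W w = W' w) : avail κ b k W v ↔ avail κ b k W' v := by
  cases k with
  | zero => simp [avail]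
  | succ k =>
    have h1 : ∀ i, W [i] = W' [i] := fun i => h [i] (by simp)
    have h2 : ∀ i, sub W i = sub W' i := by
      intro i; funext w; exact h (i :: w) (by simp)
    unfold avail
    classical
    have h3 : (Finset.univ.filter fun i : D => W [i] < v ∧ avail κ (!b) k (sub W i) (W [i]))
        = (Finset.univ.filter fun i : D => W' [i] < v ∧ avail κ (!b) k (sub W' i) (W' [i])) := by
      refine Finset.filter_congr ?_
      intro i _
      rw [h1 i, h2 i]
    have h4 := congrArg (fun s => Finset.card s < κ) h3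
    simp only [eq_iff_iff] at h4
    convert h4

theorem sub_pull (U : Edge d → ℝ) (x : V d) (G : Finset (Dir d)) (i : Dir d)
    (w : List (Dir d)) (hw : w ≠ []) :
    sub (pull U x G) i w = pull U (x + stp i) {rev i} w := by
  cases w with
  | nil => exact absurd rfl hw
  | cons j w => simp [sub, pull]

theorem pull_single (U : Edge d → ℝ) (x : V d) (G : Finset (Dir d)) (i : Dir d) :
    pull U x G [i] = if i ∈ G then 2 else U (ed x i) := by
  simp [pull]

theorem avail_sub_pull {κ : ℕ} (b : Bool) (k : ℕ) (U : Edge d → ℝ) (x : V d)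
    (G : Finset (Dir d)) (i : Dir d) (v : ℝ) :
    avail κ b k (sub (pull U x G) i) v ↔ avail κ b k (pull U (x + stp i) {rev i}) v :=
  avail_congr b k v fun w hw => sub_pull U x G i w hw

theorem side_eq_rcnt {κ : ℕ} (b : Bool) (k : ℕ) (U : Edge d → ℝ) (x : V d) (g h : Dir d)
    {m : ℝ} (hm : m ≤ 2) : rcnt κ b k (pull U x {g, h}) m = side κ b k U x g h m := by
  unfold rcnt side
  congr 1
  ext l
  simp only [Finset.mem_filter, Finset.mem_univ, true_and]
  rw [pull_single]
  by_cases hl : l ∈ ({g, h} : Finset (Dir d))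
  · rw [if_pos hl]
    simp only [Finset.mem_insert, Finset.mem_singleton] at hl
    constructor
    · rintro ⟨h1, _⟩; exact absurd h1 (not_lt.2 hm)
    · rintro ⟨h1, h2, _⟩; exact absurd hl (by tauto)
  · rw [if_neg hl]
    simp only [Finset.mem_insert, Finset.mem_singleton, not_or] at hl
    rw [avail_sub_pull]
    tauto

end H42.CD
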