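import Pool.Agent.H42.CD.Basic

/-!
# MP_0b7287_pr: blocks of the second moment argument

Parameters `g h T`: the coordinates `< 4*h*g` are drift coordinates, divided into `2*h` groups of
`2*g` coordinates (each divided into two halves); the other coordinates are neutral.
A block word has `2*h+T` letters: `h` drift letters, `T` core letters, `h` drift letters.
The drift letters are positive, each in its own group; the core letters are neutral with distinct
coordinates.
-/

open MeasureTheory Set Filter
open scoped ENNReal Topology

namespace H42.CD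

/-- group number of position `i` of a block; `none` for core positions -/
def gr (h T i : ℕ) : Option ℕ := if i < h then some i else if i < h + T then none else some (i - T)

/-- letters allowed at position `i` -/
def Allow {d : ℕ} (g h T : ℕ) (i : ℕ) (l : Dir d) : Prop :=
  match gr h T i with
  | some c => l.2 = true ∧ l.1.val / (2 * g) = c
  | none => 4 * h * g ≤ l.1.val

open Classical in
/-- block words -/
noncomputable def BW (d g h T : ℕ) : Finset (Fin (2 * h + T) → Dir d) :=
  Finset.univ.filter fun v => (∀ i, Allow g h T i.val (v i)) ∧ Function.Injective fun i => (v i).1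

/-- position after `i` letters of `v` -/
def bpos {d n : ℕ} (v : Fin n → Dir d) (i : ℕ) : V d :=
  ∑ j : Fin n, if j.val < i then stp (v j) else 0

/-- displacement of a block -/
def disp {d n : ℕ} (v : Fin n → Dir d) : V d := ∑ j : Fin n, stp (v j)

/-- edges of the block path starting at `y` -/
def bedge {d n : ℕ} (y : V d) (v : Fin n → Dir d) (j : Fin n) : Edge d := ed (y + bpos v j) (v j)

/-- the set of edges of the block path -/
def bedges {d n : ℕ} (y : V d) (v : Fin n → Dir d) : Finset (Edge d) :=
  Finset.univ.image (bedge y v)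

/-- number of common edges of two block paths with starting points `Δ` and `0` -/
def sh {d n : ℕ} (Δ : V d) (v v' : Fin n → Dir d) : ℕ := (bedges Δ v ∩ bedges 0 v').card

/-- letter before position `i` (`p` for the first position) -/
def inl {d n : ℕ} (p : Dir d) (v : Fin n → Dir d) (i : Fin n) : Dir d :=
  if i.val = 0 then p else v ⟨i.val - 1, by omega⟩

/-- `i` is a core vertex -/
def IsCore (h T i : ℕ) : Prop := h < i ∧ i < h + T

/-- the block with word `v` starting at `y` (previous letter `p`) is certified at time `t`:
all edges have time `≤ t`, at the core vertices at most `κ - 2` side edges may be open before the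
later one of the two path edges, at the other vertices all side edges have time `> t`.
Nothing is said about the time of the edge through which `y` is entered. -/
def BlkEv {d : ℕ} (κ K h T : ℕ) (t : ℝ) (y : V d) (p : Dir d) (v : Fin (2 * h + T) → Dir d) :
    Set (Edge d → ℝ) :=
  {U | (∀ i, U (bedge y v i) ≤ t) ∧
    (∀ i : Fin (2 * h + T), IsCore h T i.val →
      side κ true K U (y + bpos v i) (rev (inl p v i)) (v i)
        (max (U (ed (y + bpos v i) (rev (inl p v i)))) (U (bedge y v i))) + 1 < κ) ∧
    (∀ i : Fin (2 * h + T), ¬ IsCore h T i.val →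
      ∀ l, l ≠ rev (inl p v i) → l ≠ v i → t < U (ed (y + bpos v i) l))}

/-- edges on which `BlkEv` depends -/
def bsupp {d : ℕ} (K h T : ℕ) (y : V d) (p : Dir d) (v : Fin (2 * h + T) → Dir d) :
    Set (Edge d) :=
  {e | (∃ i, e = bedge y v i) ∨ (∃ i : Fin (2 * h + T), IsCore h T i.val ∧
      e ∈ Near (K + 2) (y + bpos v i)) ∨
    ∃ i : Fin (2 * h + T), ¬ IsCore h T i.val ∧ ∃ l, l ≠ rev (inl p v i) ∧
      e = ed (y + bpos v i) l}

/-- starting point of block `b` of the path with block words `β` starting at `0` -/
def start {d n N : ℕ} (β : Fin N → Fin n → Dir d) (b : ℕ) : V d :=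
  ∑ b' : Fin N, if b'.val < b then disp (β b') else 0

/-- last letter of the previous block -/
def prv {d n N : ℕ} (p : Dir d) (β : Fin N → Fin n → Dir d) (b : Fin N) : Dir d :=
  if hb : 0 < b.val ∧ 0 < n then β ⟨b.val - 1, by omega⟩ ⟨n - 1, by omega⟩ else p

/-- the whole path is certified -/
def PathEv {d N : ℕ} (κ K h T : ℕ) (t : ℝ) (p : Dir d) (β : Fin N → Fin (2 * h + T) → Dir d) :
    Set (Edge d → ℝ) :=
  ⋂ b : Fin N, BlkEv κ K h T t (start β b) (prv p β b) (β b)

/-- sum of the drift coordinates -/
def lev {d : ℕ} (g h : ℕ) (x : V d) : ℤ := ∑ a : Fin d, if a.val < 4 * h * g then x a else 0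

/-- norm -/
abbrev nrm {d : ℕ} (x : V d) : ℕ := dist1 x 0

/-- average over pairs of block words -/
noncomputable def avg {d n : ℕ} (B : Finset (Fin n → Dir d))
    (f : (Fin n → Dir d) → (Fin n → Dir d) → ℝ) : ℝ :=
  (∑ v ∈ B, ∑ v' ∈ B, f v v') / (B.card : ℝ) ^ 2

open Classical in
/-- weight of a pair of blocks whose starting points differ by `Δ` -/
noncomputable def om {d n : ℕ} (P C t : ℝ) (Δ : V d) (v v' : Fin n → Dir d) : ℝ :=
  if Δ = 0 ∧ v = v' then P else if nrm Δ ≤ 6 * n then C * (1 / t) ^ sh Δ v v' else 1

/-- expected weight of pairs of paths with `N` blocks -/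
noncomputable def WW {d n : ℕ} (B : Finset (Fin n → Dir d)) (P C t : ℝ) : ℕ → V d → ℝ
  | 0, _ => 1
  | N + 1, Δ => avg B fun v v' => om P C t Δ v v' * WW B P C t N (Δ + disp v - disp v')

/-- probability that two independent paths whose starting points differ by `Δ` are close
after `b` blocks -/
noncomputable def ret {d n : ℕ} (B : Finset (Fin n → Dir d)) : ℕ → V d → ℝ
  | 0, Δ => if nrm Δ ≤ 6 * n then 1 else 0
  | b + 1, Δ => avg B fun v v' => ret B b (Δ + disp v - disp v')

end H42.CD
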