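import Pool.Agent.H42.CD.Basic

/-!
# Module FFACTS: the kernel functions

`pcdf m x = P(Poi(x) < m)`. For `x ≥ 0`: `pcdf m x ∈ [0, 1]` (the full series sums to `exp x`), and
`pcdf (m+1)' (x) = - exp(-x) x^m / m!` which is in `[-1, 0]` for `x ≥ 0` (a Poisson probability); `pcdf 0 = 0`.
So `pcdf m` is antitone and 1-Lipschitz on `[0, ∞)`.
`qq κ b k`: by induction on `k` continuous, in `[0, 1]` on `[0, ∞)`, `qq κ false k x ≤ qq κ true k x` and
`qq κ true k x - qq κ false k x ≤ x^k / k!` for `x ≥ 0` (Lipschitz bound and integration).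
`FF κ b k x = pcdf (κ - 1) (∫_0^x qq κ b k)`, `∫_0^x qq κ b k ∈ [0, x]` monotone in `x`. For `κ ≥ 2`,
`pcdf (κ - 1) y ≥ exp (-y) ≥ exp (-x)` for `0 ≤ y ≤ x`.
-/

open MeasureTheory Set Filter
open scoped ENNReal Topology

namespace H42.CD

theorem pcdf_cont (m : ℕ) : Continuous (pcdf m) := by
  unfold pcdf
  fun_prop

private theorem pcdf_succ (m : ℕ) (x : ℝ) :
    pcdf (m + 1) x = pcdf m x + Real.exp (-x) * (x ^ m / (m.factorial : ℝ)) := by
  unfold pcdf
  rw [Finset.sum_range_succ, mul_add]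

theorem pcdf_mem (m : ℕ) {x : ℝ} (hx : 0 ≤ x) : pcdf m x ∈ Icc (0:ℝ) 1 := by
  constructor
  · unfold pcdf
    refine mul_nonneg (Real.exp_pos _).le (Finset.sum_nonneg fun j _ => by positivity)
  · unfold pcdf
    have h1 := Real.sum_le_exp_of_nonneg hx m
    calc Real.exp (-x) * ∑ j ∈ Finset.range m, x ^ j / (j.factorial : ℝ)
        ≤ Real.exp (-x) * Real.exp x := mul_le_mul_of_nonneg_left h1 (Real.exp_pos _).le
      _ = 1 := by rw [← Real.exp_add]; simp

theorem pcdf_deriv (m : ℕ) (x : ℝ) :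
    HasDerivAt (pcdf (m + 1)) (-(Real.exp (-x) * x ^ m / (m.factorial : ℝ))) x := by
  have hexp : HasDerivAt (fun x : ℝ => Real.exp (-x)) (-Real.exp (-x)) x := by
    have := (hasDerivAt_neg x).exp
    exact this.congr_deriv (by ring)
  induction m with
  | zero =>
    have h : pcdf (0 + 1) = fun x : ℝ => Real.exp (-x) := by
      funext y
      simp [pcdf]
    rw [h]
    simpa using hexp
  | succ m ih =>
    have h : pcdf (m + 1 + 1) = fun y => pcdf (m + 1) y
        + Real.exp (-y) * (y ^ (m + 1) / ((m + 1).factorial : ℝ)) := by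
      funext y
      exact pcdf_succ (m + 1) y
    rw [h]
    have hp : HasDerivAt (fun y : ℝ => y ^ (m + 1) / ((m + 1).factorial : ℝ))
        (((m + 1 : ℕ) : ℝ) * x ^ m / ((m + 1).factorial : ℝ)) x := by
      have := (hasDerivAt_pow (m + 1) x).div_const ((m + 1).factorial : ℝ)
      simpa using this
    have h2 := ih.add (hexp.mul hp)
    refine h2.congr_deriv ?_
    have hf : ((m + 1).factorial : ℝ) = ((m + 1 : ℕ) : ℝ) * (m.factorial : ℝ) := by
      rw [Nat.factorial_succ]
      push_cast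
      ring
    have hm : (m.factorial : ℝ) ≠ 0 := by positivity
    have hm1 : ((m + 1 : ℕ) : ℝ) ≠ 0 := by positivity
    rw [hf]
    field_simp
    ring

private theorem pow_div_le {x : ℝ} (hx : 0 ≤ x) (m : ℕ) :
    Real.exp (-x) * x ^ m / (m.factorial : ℝ) ≤ 1 := by
  have h1 : x ^ m / (m.factorial : ℝ) ≤ Real.exp x := by
    refine le_trans ?_ (Real.sum_le_exp_of_nonneg hx (m + 1))
    rw [Finset.sum_range_succ]
    have : 0 ≤ ∑ j ∈ Finset.range m, x ^ j / (j.factorial : ℝ) :=
      Finset.sum_nonneg fun j _ => by positivity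
    linarith
  calc Real.exp (-x) * x ^ m / (m.factorial : ℝ) = Real.exp (-x) * (x ^ m / (m.factorial : ℝ)) := by
        ring
    _ ≤ Real.exp (-x) * Real.exp x := mul_le_mul_of_nonneg_left h1 (Real.exp_pos _).le
    _ = 1 := by rw [← Real.exp_add]; simp

theorem pcdf_anti (m : ℕ) {x y : ℝ} (hx : 0 ≤ x) (hxy : x ≤ y) : pcdf m y ≤ pcdf m x := by
  cases m with
  | zero => simp [pcdf]
  | succ m =>
    have h : AntitoneOn (pcdf (m + 1)) (Ici 0) := by
      refine antitoneOn_of_deriv_nonpos (convex_Ici 0) (pcdf_cont _).continuousOn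
        (fun z _ => (pcdf_deriv m z).differentiableAt.differentiableWithinAt) ?_
      intro z hz
      rw [interior_Ici] at hz
      rw [(pcdf_deriv m z).deriv]
      have hz' : (0:ℝ) < z := hz
      have : 0 ≤ Real.exp (-z) * z ^ m / (m.factorial : ℝ) := by positivity
      linarith
    exact h hx (hx.trans hxy) hxy

theorem pcdf_lip (m : ℕ) {x y : ℝ} (hx : 0 ≤ x) (hxy : x ≤ y) : pcdf m x - pcdf m y ≤ y - x := by
  cases m with
  | zero => simp [pcdf]; exact hxy
  | succ m =>
    have hd : ∀ z : ℝ, HasDerivAt (fun z => pcdf (m + 1) z + z)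
        (-(Real.exp (-z) * z ^ m / (m.factorial : ℝ)) + 1) z :=
      fun z => (pcdf_deriv m z).add (hasDerivAt_id z)
    have h : MonotoneOn (fun z => pcdf (m + 1) z + z) (Ici 0) := by
      refine monotoneOn_of_deriv_nonneg (convex_Ici 0)
        ((pcdf_cont _).add continuous_id).continuousOn
        (fun z _ => (hd z).differentiableAt.differentiableWithinAt) ?_
      intro z hz
      rw [interior_Ici] at hz
      rw [(hd z).deriv]
      have hz' : (0:ℝ) < z := hz
      have := pow_div_le hz'.le m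
      linarith
    have := h hx (hx.trans hxy) hxy
    simp only at this
    linarith

theorem qq_cont (κ : ℕ) (b : Bool) (k : ℕ) : Continuous (qq κ b k) := by
  induction k generalizing b with
  | zero =>
    have : qq κ b 0 = fun _ => if b then 1 else 0 := by funext x; rfl
    rw [this]
    exact continuous_const
  | succ k ih =>
    have : qq κ b (k + 1) = fun x => pcdf κ (∫ y in (0:ℝ)..x, qq κ (!b) k y) := by funext x; rfl
    rw [this]
    refine (pcdf_cont κ).comp ?_
    exact intervalIntegral.continuous_primitive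
      (fun a c => (ih (!b)).intervalIntegrable a c) 0

private theorem qq_int (κ : ℕ) (b : Bool) (k : ℕ) (x y : ℝ) :
    IntervalIntegrable (qq κ b k) volume x y := (qq_cont κ b k).intervalIntegrable x y

theorem qq_mem (κ : ℕ) (b : Bool) (k : ℕ) {x : ℝ} (hx : 0 ≤ x) : qq κ b k x ∈ Icc (0:ℝ) 1 := by
  induction k generalizing b x with
  | zero =>
    cases b <;> simp [qq]
  | succ k ih =>
    have : qq κ b (k + 1) x = pcdf κ (∫ y in (0:ℝ)..x, qq κ (!b) k y) := rfl
    rw [this]
    refine pcdf_mem κ ?_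
    exact intervalIntegral.integral_nonneg hx fun y hy => (ih (!b) hy.1).1

private theorem int_nonneg (κ : ℕ) (b : Bool) (k : ℕ) {x : ℝ} (hx : 0 ≤ x) :
    0 ≤ ∫ y in (0:ℝ)..x, qq κ b k y :=
  intervalIntegral.integral_nonneg hx fun _ hy => (qq_mem κ b k hy.1).1

private theorem int_mono (κ : ℕ) (b : Bool) (k : ℕ) {x y : ℝ} (hx : 0 ≤ x) (hxy : x ≤ y) :
    ∫ z in (0:ℝ)..x, qq κ b k z ≤ ∫ z in (0:ℝ)..y, qq κ b k z := by
  rw [← intervalIntegral.integral_add_adjacent_intervals (qq_int κ b k 0 x) (qq_int κ b k x y)]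
  have : 0 ≤ ∫ z in x..y, qq κ b k z :=
    intervalIntegral.integral_nonneg hxy fun _ hz => (qq_mem κ b k (hx.trans hz.1)).1
  linarith

private theorem int_le (κ : ℕ) (b : Bool) (k : ℕ) {x : ℝ} (hx : 0 ≤ x) :
    ∫ y in (0:ℝ)..x, qq κ b k y ≤ x := by
  calc ∫ y in (0:ℝ)..x, qq κ b k y ≤ ∫ _y in (0:ℝ)..x, (1:ℝ) :=
        intervalIntegral.integral_mono_on hx (qq_int κ b k 0 x)
          (continuous_const.intervalIntegrable _ _) fun y hy => (qq_mem κ b k hy.1).2
    _ = x := by simp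

theorem qq_false_le_true (κ k : ℕ) {x : ℝ} (hx : 0 ≤ x) : qq κ false k x ≤ qq κ true k x := by
  induction k generalizing x with
  | zero => simp [qq]
  | succ k ih =>
    have h1 : qq κ false (k + 1) x = pcdf κ (∫ y in (0:ℝ)..x, qq κ true k y) := rfl
    have h2 : qq κ true (k + 1) x = pcdf κ (∫ y in (0:ℝ)..x, qq κ false k y) := rfl
    rw [h1, h2]
    refine pcdf_anti κ (int_nonneg κ false k hx) ?_
    exact intervalIntegral.integral_mono_on hx (qq_int κ false k 0 x) (qq_int κ true k 0 x)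
      fun y hy => ih hy.1

private theorem int_false_le_true (κ k : ℕ) {x : ℝ} (hx : 0 ≤ x) :
    ∫ y in (0:ℝ)..x, qq κ false k y ≤ ∫ y in (0:ℝ)..x, qq κ true k y :=
  intervalIntegral.integral_mono_on hx (qq_int κ false k 0 x) (qq_int κ true k 0 x)
    fun _ hy => qq_false_le_true κ k hy.1

private theorem qq_diff_all (κ k : ℕ) {x : ℝ} (hx : 0 ≤ x) :
    qq κ true k x - qq κ false k x ≤ x ^ k / (k.factorial : ℝ) ∧
    (∫ y in (0:ℝ)..x, qq κ true k y) - (∫ y in (0:ℝ)..x, qq κ false k y)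
      ≤ x ^ (k + 1) / ((k + 1).factorial : ℝ) := by
  have key : ∀ k : ℕ, (∀ y : ℝ, 0 ≤ y → qq κ true k y - qq κ false k y
      ≤ y ^ k / (k.factorial : ℝ)) → ∀ x : ℝ, 0 ≤ x →
      (∫ y in (0:ℝ)..x, qq κ true k y) - (∫ y in (0:ℝ)..x, qq κ false k y)
        ≤ x ^ (k + 1) / ((k + 1).factorial : ℝ) := by
    intro k h x hx
    rw [← intervalIntegral.integral_sub (qq_int κ true k 0 x) (qq_int κ false k 0 x)]
    calc ∫ y in (0:ℝ)..x, (qq κ true k y - qq κ false k y)
        ≤ ∫ y in (0:ℝ)..x, y ^ k / (k.factorial : ℝ) := by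
          refine intervalIntegral.integral_mono_on hx
            ((qq_int κ true k 0 x).sub (qq_int κ false k 0 x)) ?_ fun y hy => h y hy.1
          exact Continuous.intervalIntegrable (by fun_prop) _ _
      _ = x ^ (k + 1) / ((k + 1).factorial : ℝ) := by
          rw [intervalIntegral.integral_div, integral_pow, Nat.factorial_succ]
          push_cast
          rw [zero_pow (by omega), sub_zero, div_div, mul_comm ((k : ℝ) + 1)]
  have main : ∀ k : ℕ, ∀ y : ℝ, 0 ≤ y → qq κ true k y - qq κ false k y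
      ≤ y ^ k / (k.factorial : ℝ) := by
    intro k
    induction k with
    | zero => intro y _; simp [qq]
    | succ k ih =>
      intro y hy
      have h1 : qq κ false (k + 1) y = pcdf κ (∫ y in (0:ℝ)..y, qq κ true k y) := rfl
      have h2 : qq κ true (k + 1) y = pcdf κ (∫ y in (0:ℝ)..y, qq κ false k y) := rfl
      rw [h1, h2]
      exact (pcdf_lip κ (int_nonneg κ false k hy) (int_false_le_true κ k hy)).trans
        (key k ih y hy)
  exact ⟨main k x hx, key k (main k) x hx⟩

theorem qq_diff (κ k : ℕ) {x : ℝ} (hx : 0 ≤ x) :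
    qq κ true k x - qq κ false k x ≤ x ^ k / (k.factorial : ℝ) := (qq_diff_all κ k hx).1

theorem FF_cont (κ : ℕ) (b : Bool) (k : ℕ) : Continuous (FF κ b k) := by
  have : FF κ b k = fun x => pcdf (κ - 1) (∫ y in (0:ℝ)..x, qq κ b k y) := by funext x; rfl
  rw [this]
  exact (pcdf_cont _).comp (intervalIntegral.continuous_primitive
      (fun a c => (qq_cont κ b k).intervalIntegrable a c) 0)

theorem FF_le_one (κ : ℕ) (b : Bool) (k : ℕ) {x : ℝ} (hx : 0 ≤ x) : FF κ b k x ≤ 1 :=
  (pcdf_mem _ (int_nonneg κ b k hx)).2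

theorem FF_lower {κ : ℕ} (hκ : 2 ≤ κ) (b : Bool) (k : ℕ) {x : ℝ} (hx : 0 ≤ x) :
    Real.exp (-x) ≤ FF κ b k x := by
  unfold FF
  set y := ∫ y in (0:ℝ)..x, qq κ b k y with hy
  have hy0 : 0 ≤ y := int_nonneg κ b k hx
  have hyx : y ≤ x := int_le κ b k hx
  have h1 : 1 ≤ ∑ j ∈ Finset.range (κ - 1), y ^ j / (j.factorial : ℝ) := by
    have h0 : 0 ∈ Finset.range (κ - 1) := Finset.mem_range.2 (by omega)
    have := Finset.single_le_sum (f := fun j => y ^ j / (j.factorial : ℝ))
      (fun j _ => by positivity) h0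
    simpa using this
  unfold pcdf
  calc Real.exp (-x) ≤ Real.exp (-y) := Real.exp_le_exp.2 (by linarith)
    _ = Real.exp (-y) * 1 := (mul_one _).symm
    _ ≤ _ := mul_le_mul_of_nonneg_left h1 (Real.exp_pos _).le

theorem FF_anti (κ : ℕ) (b : Bool) (k : ℕ) {x y : ℝ} (hx : 0 ≤ x) (hxy : x ≤ y) :
    FF κ b k y ≤ FF κ b k x :=
  pcdf_anti _ (int_nonneg κ b k hx) (int_mono κ b k hx hxy)

theorem FF_true_le_false (κ k : ℕ) {x : ℝ} (hx : 0 ≤ x) : FF κ true k x ≤ FF κ false k x :=
  pcdf_anti _ (int_nonneg κ false k hx) (int_false_le_true κ k hx)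

theorem FF_diff (κ k : ℕ) {x : ℝ} (hx : 0 ≤ x) :
    FF κ false k x - FF κ true k x ≤ x ^ (k + 1) / ((k + 1).factorial : ℝ) :=
  (pcdf_lip _ (int_nonneg κ false k hx) (int_false_le_true κ k hx)).trans
    (qq_diff_all κ k hx).2

end H42.CD
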