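import Pool.Agent.H42.CD.Basic

/-!
# Module TREE1: the law of the tree, first part

`n = card D`. Under `lawT D` the values at all words are iid uniform.
* `map_subs`: the subtrees at the children of the root are iid with law `lawT D`. Proof: the map
  `W ↦ (fun i w => W (i :: w))` reads the coordinates of `W` along the injection `(i, w) ↦ i :: w`
  (so its law, seen on `D × List D → ℝ`, is a product measure), and currying
  (`Measure.infinitePi_map_curry` or `Measure.pi_eq` + `Measure.infinitePi_pi` +
  `Measure.eq_infinitePi`).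
* `prob_count`: `lawT D {W | #{i | sub W i ∈ B} < m} = bcdf n m p` with `p = lawT D B`: by `map_subs` it is
  `Σ_{S, #S < m} P(sub W i ∈ B exactly for i ∈ S) = Σ_{S, #S < m} p^#S (1-p)^(n-#S)` (`Measure.pi_pi`),
  and `Finset.sum_powersetCard`/`card_powersetCard` gives `bcdf`. (`#{...}` is a filter with a classical
  decidability instance.)
* `bcdf_mem`: a partial sum of `(p + (1-p))^n = 1` (if `m > n + 1` the extra terms vanish: `n.choose j = 0`).
* `prob_clean`: `map_inj`-like: the times `W [i]` are iid, or `map_subs` + `pi_pi` (`sub W i [] = W [i]`).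
-/

open MeasureTheory Set Filter
open scoped ENNReal Topology

namespace H42.CD

variable {D : Type} [Fintype D]

/-- coordinates read along an injection: again a product measure -/
theorem t1_map_inj {I J : Type} (μ : Measure ℝ) [IsProbabilityMeasure μ] (ι : J → I)
    (hι : Function.Injective ι) :
    (Measure.infinitePi fun _ : I => μ).map (fun U j => U (ι j))
      = Measure.infinitePi fun _ : J => μ := by
  classical
  refine Measure.eq_infinitePi _ fun s t ht => ?_
  have hmeas : Measurable (fun (U : I → ℝ) (j : J) => U (ι j)) :=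
    measurable_pi_iff.2 fun j => measurable_pi_apply _
  rw [Measure.map_apply hmeas (MeasurableSet.pi s.countable_toSet fun i _ => ht i)]
  have h1 : (fun (U : I → ℝ) (j : J) => U (ι j)) ⁻¹' (Set.pi (s : Set J) t) =
      Set.pi ((s.map ⟨ι, hι⟩ : Finset I) : Set I) (Function.extend ι t (fun _ => Set.univ)) := by
    ext U
    simp only [Set.mem_preimage, Set.mem_pi, Finset.coe_map, Function.Embedding.coeFn_mk,
      Set.forall_mem_image]
    refine forall_congr' fun j => ?_
    rw [hι.extend_apply]
  rw [h1, Measure.infinitePi_pi]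
  · rw [Finset.prod_map]
    refine Finset.prod_congr rfl fun j _ => ?_
    show μ (Function.extend ι t (fun _ => Set.univ) (ι j)) = μ (t j)
    rw [hι.extend_apply]
  · intro i hi
    obtain ⟨j, -, rfl⟩ := Finset.mem_map.1 hi
    show MeasurableSet (Function.extend ι t (fun _ => Set.univ) (ι j))
    rw [hι.extend_apply]
    exact ht j

omit [Fintype D] in
theorem meas_sub : Measurable fun (W : TC D) (i : D) => sub W i := by
  refine measurable_pi_iff.2 fun i => measurable_pi_iff.2 fun w => ?_
  exact measurable_pi_apply _

theorem map_subs : (lawT D).map (fun W i => sub W i) = Measure.pi fun _ : D => lawT D := by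
  have hinj : Function.Injective (fun p : D × List D => p.1 :: p.2) := by
    rintro ⟨a, b⟩ ⟨c, e⟩ h
    simp only [List.cons.injEq] at h
    exact Prod.ext h.1 h.2
  have h1 := t1_map_inj unif (fun p : D × List D => p.1 :: p.2) hinj
  have h2 := Measure.infinitePi_map_curry (ι := D) (κ := List D) (X := ℝ)
    (fun _ _ => unif)
  have h3 : (fun (W : TC D) (i : D) => sub W i)
      = (MeasurableEquiv.curry D (List D) ℝ) ∘
        (fun (W : TC D) (p : D × List D) => W (p.1 :: p.2)) := by
    funext W i w
    rfl
  have hm : Measurable (fun (W : TC D) (p : D × List D) => W (p.1 :: p.2)) :=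
    measurable_pi_iff.2 fun p => measurable_pi_apply _
  rw [h3, ← Measure.map_map (MeasurableEquiv.measurable _) hm]
  unfold lawT
  rw [h1, h2, Measure.infinitePi_eq_pi]

theorem bcdf_mem (n m : ℕ) {p : ℝ} (h0 : 0 ≤ p) (h1 : p ≤ 1) : bcdf n m p ∈ Icc (0:ℝ) 1 := by
  have hnn : ∀ j, 0 ≤ (n.choose j : ℝ) * p ^ j * (1 - p) ^ (n - j) := fun j => by
    have : (0:ℝ) ≤ 1 - p := by linarith
    positivity
  constructor
  · exact Finset.sum_nonneg fun j _ => hnn j
  · have h2 : ∑ j ∈ Finset.range (n + 1), (n.choose j : ℝ) * p ^ j * (1 - p) ^ (n - j) = 1 := by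
      have h3 := add_pow p (1 - p) n
      rw [add_sub_cancel, one_pow] at h3
      refine (Finset.sum_congr rfl fun j _ => ?_).trans h3.symm
      ring
    unfold bcdf
    refine le_trans ?_ h2.le
    have h4 : ∑ j ∈ Finset.range m, (n.choose j : ℝ) * p ^ j * (1 - p) ^ (n - j)
        ≤ ∑ j ∈ Finset.range (max m (n + 1)), (n.choose j : ℝ) * p ^ j * (1 - p) ^ (n - j) := by
      refine Finset.sum_le_sum_of_subset_of_nonneg ?_ fun j _ _ => hnn j
      intro j hj
      rw [Finset.mem_range] at hj ⊢
      exact lt_of_lt_of_le hj (le_max_left _ _)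
    refine h4.trans (le_of_eq ?_)
    symm
    refine Finset.sum_subset ?_ ?_
    · intro j hj
      rw [Finset.mem_range] at hj ⊢
      exact lt_of_lt_of_le hj (le_max_right _ _)
    · intro j _ hj
      rw [Finset.mem_range, not_lt] at hj
      rw [Nat.choose_eq_zero_of_lt (by omega)]
      simp

open Classical in
theorem prob_count (B : Set (TC D)) (hB : MeasurableSet B) (m : ℕ) :
    lawT D {W | (Finset.univ.filter fun i : D => sub W i ∈ B).card < m}
      = ENNReal.ofReal (bcdf (Fintype.card D) m ((lawT D).real B)) := by
  set p := (lawT D).real B with hp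
  have hp0 : 0 ≤ p := measureReal_nonneg
  have hp1 : p ≤ 1 := measureReal_le_one
  have hpB : lawT D B = ENNReal.ofReal p := by
    rw [hp, ofReal_measureReal]
  have hpBc : lawT D Bᶜ = ENNReal.ofReal (1 - p) := by
    rw [prob_compl_eq_one_sub hB, hpB, ENNReal.ofReal_sub _ hp0, ENNReal.ofReal_one]
  have hset : {W : TC D | (Finset.univ.filter fun i : D => sub W i ∈ B).card < m}
      = ⋃ S ∈ (Finset.univ : Finset (Finset D)).filter (fun S => S.card < m),
        {W : TC D | (Finset.univ.filter fun i : D => sub W i ∈ B) = S} := by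
    ext W
    simp only [Set.mem_ofPred_eq, Set.mem_iUnion, Finset.mem_filter, Finset.mem_univ, true_and,
      exists_prop, exists_eq_right']
  have hpre : ∀ S : Finset D, {W : TC D | (Finset.univ.filter fun i : D => sub W i ∈ B) = S}
      = (fun (W : TC D) (i : D) => sub W i) ⁻¹'
        (Set.pi Set.univ (fun i : D => if i ∈ S then B else Bᶜ)) := by
    intro S
    ext W
    simp only [Set.mem_ofPred_eq, Set.mem_preimage, Set.mem_pi, Set.mem_univ, true_implies]
    rw [Finset.ext_iff]
    refine forall_congr' fun i => ?_
    simp only [Finset.mem_filter, Finset.mem_univ, true_and]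
    by_cases h : i ∈ S
    · simp [h]
    · simp [h]
  have hms : ∀ S : Finset D, MeasurableSet (Set.pi Set.univ (fun i : D => if i ∈ S then B else Bᶜ)) := by
    intro S
    refine MeasurableSet.univ_pi fun i => ?_
    by_cases h : i ∈ S
    · simp only [h, if_true]; exact hB
    · simp only [h, if_false]; exact hB.compl
  have hval : ∀ S : Finset D,
      lawT D {W : TC D | (Finset.univ.filter fun i : D => sub W i ∈ B) = S}
        = ENNReal.ofReal (p ^ S.card * (1 - p) ^ (Fintype.card D - S.card)) := by
    intro S
    rw [hpre S, ← Measure.map_apply meas_sub (hms S), map_subs, Measure.pi_pi]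
    have h1 : ∀ i : D, lawT D (if i ∈ S then B else Bᶜ)
        = if i ∈ S then ENNReal.ofReal p else ENNReal.ofReal (1 - p) := by
      intro i
      by_cases h : i ∈ S
      · simp [h, hpB]
      · simp [h, hpBc]
    rw [Finset.prod_congr rfl fun i _ => h1 i, Finset.prod_ite, Finset.prod_const,
      Finset.prod_const, ENNReal.ofReal_mul (by positivity), ENNReal.ofReal_pow hp0,
      ENNReal.ofReal_pow (by linarith)]
    congr 2
    · simp
    · rw [Finset.filter_not, Finset.card_sdiff]
      simp [Finset.card_univ]
  rw [hset, measure_biUnion_finset]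
  · rw [Finset.sum_congr rfl fun S _ => hval S, ← ENNReal.ofReal_sum_of_nonneg]
    · congr 1
      unfold bcdf
      rw [← Finset.sum_fiberwise_of_maps_to (s := (Finset.univ : Finset (Finset D)).filter
        (fun S => S.card < m)) (t := Finset.range m) (g := Finset.card)]
      · refine Finset.sum_congr rfl fun j hj => ?_
        have h2 : ((Finset.univ : Finset (Finset D)).filter (fun S => S.card < m)).filter
            (fun S => S.card = j) = Finset.powersetCard j Finset.univ := by
          ext S
          simp only [Finset.mem_filter, Finset.mem_univ, true_and, Finset.mem_powersetCard,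
            Finset.subset_univ]
          rw [Finset.mem_range] at hj
          constructor
          · exact fun h => h.2
          · exact fun h => ⟨h ▸ hj, h⟩
        rw [h2]
        rw [Finset.sum_congr rfl (g := fun _ => p ^ j * (1 - p) ^ (Fintype.card D - j))]
        · rw [Finset.sum_const, Finset.card_powersetCard, Finset.card_univ, nsmul_eq_mul, mul_assoc]
        · intro S hS
          rw [(Finset.mem_powersetCard.1 hS).2]
      · intro S hS
        exact Finset.mem_range.2 (Finset.mem_filter.1 hS).2
    · intro S _
      have : (0:ℝ) ≤ 1 - p := by linarith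
      positivity
  · intro S _ S' _ hne
    rw [Function.onFun, Set.disjoint_left]
    intro W h1 h2
    exact hne (h1.symm.trans h2)
  · intro S _
    rw [hpre S]
    exact meas_sub (hms S)

theorem t1_unif_Ioi {t : ℝ} (h0 : 0 ≤ t) (h1 : t ≤ 1) : unif (Ioi t) = ENNReal.ofReal (1 - t) := by
  unfold unif
  rw [Measure.restrict_apply measurableSet_Ioi]
  have : Ioi t ∩ Icc 0 1 = Ioc t 1 := by
    ext x
    simp only [Set.mem_inter_iff, Set.mem_Ioi, Set.mem_Icc, Set.mem_Ioc]
    constructor
    · rintro ⟨a, b, c⟩
      exact ⟨a, c⟩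
    · rintro ⟨a, b⟩
      exact ⟨a, h0.trans a.le, b⟩
  rw [this, Real.volume_Ioc]

theorem prob_clean {t : ℝ} (h0 : 0 ≤ t) (h1 : t ≤ 1) :
    lawT D {W | ∀ i : D, t < W [i]} = ENNReal.ofReal ((1 - t) ^ Fintype.card D) := by
  classical
  have hinj : Function.Injective (fun i : D => [i]) := fun a b h => by simpa using h
  have hm : Measurable (fun (W : TC D) (i : D) => W [i]) :=
    measurable_pi_iff.2 fun p => measurable_pi_apply _
  have h3 : {W : TC D | ∀ i : D, t < W [i]} = (fun (W : TC D) (i : D) => W [i]) ⁻¹'
      (Set.pi Set.univ (fun _ : D => Ioi t)) := by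
    ext W
    simp [Set.mem_pi]
  rw [h3, ← Measure.map_apply hm (MeasurableSet.univ_pi fun _ => measurableSet_Ioi)]
  have h4 : (lawT D).map (fun (W : TC D) (i : D) => W [i]) = Measure.pi fun _ : D => unif := by
    rw [← Measure.infinitePi_eq_pi]
    exact t1_map_inj unif (fun i : D => [i]) hinj
  rw [h4, Measure.pi_pi, Finset.prod_const, t1_unif_Ioi h0 h1, Finset.card_univ,
    ENNReal.ofReal_pow (by linarith)]

end H42.CD
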