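import Pool.Agent.H42.CD.Meas
import Pool.Agent.H42.CD.Tree1

/-!
# Module TREE2: probability of availability

`n = card D`.
* `qn_cont`: `bcdf n κ` is a polynomial and `v ↦ ∫_0^v f` is continuous for continuous `f`; induction on `k`.
* `qn_mem`: induction: `∫_0^v qn ∈ [0, v] ⊆ [0, 1]` and `bcdf_mem`.
* `prob_rcnt`, `prob_avail`: prove both together by induction on `k` (`prob_rcnt` at `k` uses `prob_avail`
  at `k`, `prob_avail` at `k+1` uses `prob_rcnt` at `k`: `avail κ b (k+1) W v ↔ rcnt κ (!b) k W v < κ` by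
  definition). `rcnt κ b k W v = #{i | sub W i ∈ B}` with `B = {Z | Z [] < v ∧ avail κ b k Z (Z [])}`
  (`sub W i [] = W [i]`), measurable by `meas_avail`. By `prob_count` it remains to see
  `lawT D B = ∫_0^v qn n κ b k`: `avail κ b k Z x` does not depend on `Z []` (`avail_congr`), and under `lawT D`
  the coordinate `Z []` is uniform and independent of the other coordinates; so by Fubini
  `lawT D B = ∫ 1[x < v] lawT D {Z | avail κ b k Z x} d unif(x)`. (For the independence: the law of
  `Z` is the image of `unif.prod (lawT D)` under `(x, Z) ↦ Function.update Z [] x`, check on cylinders: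
  `Measure.eq_infinitePi`.)
-/

open MeasureTheory Set Filter
open scoped ENNReal Topology

namespace H42.CD

variable {D : Type} [Fintype D]

theorem qn_cont (n κ : ℕ) (b : Bool) (k : ℕ) : Continuous (qn n κ b k) := by
  induction k generalizing b with
  | zero => exact continuous_const
  | succ k ih =>
    have h1 : Continuous fun v : ℝ => ∫ x in (0:ℝ)..v, qn n κ (!b) k x :=
      intervalIntegral.continuous_primitive (fun a c => (ih (!b)).intervalIntegrable a c) 0
    have h2 : Continuous (bcdf n κ) := by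
      unfold bcdf
      fun_prop
    exact h2.comp h1

theorem qn_mem (n κ : ℕ) (b : Bool) (k : ℕ) {v : ℝ} (h0 : 0 ≤ v) (h1 : v ≤ 1) :
    qn n κ b k v ∈ Icc (0:ℝ) 1 := by
  induction k generalizing b v with
  | zero =>
    show (if b then (1:ℝ) else 0) ∈ Icc (0:ℝ) 1
    cases b <;> simp
  | succ k ih =>
    have hi : (∫ x in (0:ℝ)..v, qn n κ (!b) k x) ∈ Icc (0:ℝ) 1 := by
      constructor
      · exact intervalIntegral.integral_nonneg h0 fun x hx => (ih (!b) hx.1 (hx.2.trans h1)).1
      · have h2 : (∫ x in (0:ℝ)..v, qn n κ (!b) k x) ≤ ∫ x in (0:ℝ)..v, (1:ℝ) :=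
          intervalIntegral.integral_mono_on h0 ((qn_cont n κ (!b) k).intervalIntegrable 0 v)
            (continuous_const.intervalIntegrable 0 v)
            fun x hx => (ih (!b) hx.1 (hx.2.trans h1)).2
        refine h2.trans ?_
        simpa using h1
    exact bcdf_mem n κ hi.1 hi.2

/-- the law of the tree, seen with its root value resampled -/
theorem t2_update (D : Type) :
    (unif.prod (lawT D)).map (fun p : ℝ × TC D => (fun w => if w = [] then p.1 else p.2 w : TC D))
      = lawT D := by
  classical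
  have hmeas : Measurable
      (fun p : ℝ × TC D => (fun w => if w = [] then p.1 else p.2 w : TC D)) := by
    refine measurable_pi_iff.2 fun w => ?_
    by_cases h : w = []
    · simp only [h, if_true]; exact measurable_fst
    · simp only [h, if_false]; exact (measurable_pi_apply w).comp measurable_snd
  refine Measure.eq_infinitePi _ fun s t ht => ?_
  rw [Measure.map_apply hmeas (MeasurableSet.pi s.countable_toSet fun i _ => ht i)]
  have h1 : (fun p : ℝ × TC D => (fun w => if w = [] then p.1 else p.2 w : TC D)) ⁻¹'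
      (Set.pi (s : Set (List D)) t)
      = (if [] ∈ s then t [] else Set.univ) ×ˢ (Set.pi ((s.erase [] : Finset _) : Set (List D)) t) := by
    ext ⟨x, W⟩
    simp only [Set.mem_preimage, Set.mem_pi, Set.mem_prod, Finset.coe_erase, Set.mem_sdiff,
      Finset.mem_coe, Set.mem_singleton_iff]
    constructor
    · intro h
      refine ⟨?_, ?_⟩
      · by_cases hs : ([] : List D) ∈ s
        · rw [if_pos hs]
          simpa using h [] hs
        · rw [if_neg hs]; trivial
      · rintro w ⟨hw, hw2⟩
        have := h w hw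
        rwa [if_neg hw2] at this
    · rintro ⟨ha, hb⟩ w hw
      by_cases h : w = []
      · subst h
        rw [if_pos rfl]
        rwa [if_pos hw] at ha
      · rw [if_neg h]
        exact hb w ⟨hw, h⟩
  rw [h1, Measure.prod_prod]
  unfold lawT
  rw [Measure.infinitePi_pi _ (fun i _ => ht i)]
  by_cases hs : ([] : List D) ∈ s
  · rw [if_pos hs, Finset.mul_prod_erase s (fun i => unif (t i)) hs]
  · rw [if_neg hs, Finset.erase_eq_of_notMem hs]
    simp

/-- the good set of subtrees -/
def t2_B (D : Type) [Fintype D] (κ : ℕ) (b : Bool) (k : ℕ) (v : ℝ) : Set (TC D) :=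
  {Z | Z [] < v ∧ avail κ b k Z (Z [])}

theorem t2_B_meas (κ : ℕ) (b : Bool) (k : ℕ) (v : ℝ) : MeasurableSet (t2_B D κ b k v) := by
  have h1 : MeasurableSet {Z : TC D | Z [] < v} :=
    measurableSet_lt (measurable_pi_apply _) measurable_const
  have h2 : MeasurableSet ((fun Z : TC D => (Z, Z [])) ⁻¹' {p : TC D × ℝ | avail κ b k p.1 p.2}) :=
    (meas_avail κ b k).preimage (measurable_id.prodMk (measurable_pi_apply _))
  exact h1.inter h2

theorem t2_B_prob (κ : ℕ) (b : Bool) (k : ℕ) {v : ℝ} (h0 : 0 ≤ v) (h1 : v ≤ 1)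
    (ih : ∀ {x : ℝ}, 0 ≤ x → x ≤ 1 →
      lawT D {W | avail κ b k W x} = ENNReal.ofReal (qn (Fintype.card D) κ b k x)) :
    (lawT D).real (t2_B D κ b k v) = ∫ x in (0:ℝ)..v, qn (Fintype.card D) κ b k x := by
  classical
  have hmeas : Measurable
      (fun p : ℝ × TC D => (fun w => if w = [] then p.1 else p.2 w : TC D)) := by
    refine measurable_pi_iff.2 fun w => ?_
    by_cases h : w = []
    · simp only [h, if_true]; exact measurable_fst
    · simp only [h, if_false]; exact (measurable_pi_apply w).comp measurable_snd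
  have hB := t2_B_meas (D := D) κ b k v
  have e1 : lawT D (t2_B D κ b k v)
      = (unif.prod (lawT D)) ((fun p : ℝ × TC D =>
        (fun w => if w = [] then p.1 else p.2 w : TC D)) ⁻¹' (t2_B D κ b k v)) := by
    rw [← Measure.map_apply hmeas hB, t2_update]
  have e2 : ∀ x : ℝ, lawT D (Prod.mk x ⁻¹' ((fun p : ℝ × TC D =>
        (fun w => if w = [] then p.1 else p.2 w : TC D)) ⁻¹' (t2_B D κ b k v)))
      = (Set.Iio v).indicator (fun x => lawT D {W | avail κ b k W x}) x := by
    intro x
    by_cases hx : x < v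
    · rw [Set.indicator_of_mem (Set.mem_Iio.2 hx)]
      congr 1
      ext W
      show ((if ([] : List D) = [] then x else W []) < v ∧
        avail κ b k (fun w => if w = [] then x else W w) (if ([] : List D) = [] then x else W []))
          ↔ avail κ b k W x
      rw [if_pos rfl]
      rw [avail_congr b k x (W := fun w => if w = [] then x else W w) (W' := W)
        (fun w hw => by simp [hw])]
      exact ⟨fun h => h.2, fun h => ⟨hx, h⟩⟩
    · rw [Set.indicator_of_notMem (by simpa using hx)]
      have : (Prod.mk x ⁻¹' ((fun p : ℝ × TC D =>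
        (fun w => if w = [] then p.1 else p.2 w : TC D)) ⁻¹' (t2_B D κ b k v))) = ∅ := by
        rw [Set.eq_empty_iff_forall_notMem]
        intro W hW
        have h3 : (if ([] : List D) = [] then x else W []) < v := hW.1
        rw [if_pos rfl] at h3
        exact hx h3
      rw [this, measure_empty]
  have hm : MeasurableSet ((fun p : ℝ × TC D =>
        (fun w => if w = [] then p.1 else p.2 w : TC D)) ⁻¹' (t2_B D κ b k v)) := hmeas hB
  rw [Measure.prod_apply hm, lintegral_congr e2] at e1
  have e3 : ∫⁻ x, (Set.Iio v).indicator (fun x => lawT D {W | avail κ b k W x}) x ∂unif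
      = ∫⁻ x in Icc 0 v, ENNReal.ofReal (qn (Fintype.card D) κ b k x) := by
    rw [lintegral_indicator measurableSet_Iio]
    unfold unif
    rw [Measure.restrict_restrict measurableSet_Iio]
    have h4 : Iio v ∩ Icc 0 1 = Ico 0 v := by
      ext x
      simp only [Set.mem_inter_iff, Set.mem_Iio, Set.mem_Icc, Set.mem_Ico]
      constructor
      · rintro ⟨a, b, c⟩; exact ⟨b, a⟩
      · rintro ⟨a, b⟩; exact ⟨b, a, b.le.trans h1⟩
    rw [h4, ← restrict_Ico_eq_restrict_Icc]
    refine setLIntegral_congr_fun measurableSet_Ico ?_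
    intro x hx
    exact ih hx.1 (hx.2.le.trans h1)
  rw [e3] at e1
  unfold Measure.real
  rw [e1, intervalIntegral.integral_of_le h0, ← integral_Icc_eq_integral_Ioc,
    integral_eq_lintegral_of_nonneg_ae]
  · refine (ae_restrict_iff' measurableSet_Icc).2 (Eventually.of_forall fun x hx => ?_)
    exact (qn_mem _ κ b k hx.1 (hx.2.trans h1)).1
  · exact (qn_cont _ κ b k).aestronglyMeasurable

open Classical in
theorem t2_rcnt_eq (κ : ℕ) (b : Bool) (k : ℕ) (v : ℝ) (W : TC D) :
    rcnt κ b k W v = (Finset.univ.filter fun i : D => sub W i ∈ t2_B D κ b k v).card := by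
  unfold rcnt
  congr 1
  ext i
  simp only [Finset.mem_filter, Finset.mem_univ, true_and]
  rfl

theorem t2_rcnt (κ : ℕ) (b : Bool) (k m : ℕ) {v : ℝ} (h0 : 0 ≤ v) (h1 : v ≤ 1)
    (ih : ∀ {x : ℝ}, 0 ≤ x → x ≤ 1 →
      lawT D {W | avail κ b k W x} = ENNReal.ofReal (qn (Fintype.card D) κ b k x)) :
    lawT D {W | rcnt κ b k W v < m}
      = ENNReal.ofReal (bcdf (Fintype.card D) m (∫ x in (0:ℝ)..v, qn (Fintype.card D) κ b k x)) := by
  rw [← t2_B_prob κ b k h0 h1 ih, ← prob_count (t2_B D κ b k v) (t2_B_meas κ b k v) m]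
  simp only [t2_rcnt_eq]

theorem prob_avail (κ : ℕ) (b : Bool) (k : ℕ) {v : ℝ} (h0 : 0 ≤ v) (h1 : v ≤ 1) :
    lawT D {W | avail κ b k W v} = ENNReal.ofReal (qn (Fintype.card D) κ b k v) := by
  induction k generalizing b v with
  | zero =>
    cases b
    · have : {W : TC D | avail κ false 0 W v} = ∅ := by
        ext W
        simp [avail]
      rw [this]
      simp [qn]
    · have : {W : TC D | avail κ true 0 W v} = Set.univ := by
        ext W
        simp [avail]
      rw [this]
      simp [qn]
  | succ k ih =>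
    have h2 := t2_rcnt (D := D) κ (!b) k κ h0 h1 (fun hx0 hx1 => ih (!b) hx0 hx1)
    exact h2

theorem prob_rcnt (κ : ℕ) (b : Bool) (k m : ℕ) {v : ℝ} (h0 : 0 ≤ v) (h1 : v ≤ 1) :
    lawT D {W | rcnt κ b k W v < m}
      = ENNReal.ofReal (bcdf (Fintype.card D) m (∫ x in (0:ℝ)..v, qn (Fintype.card D) κ b k x)) :=
  t2_rcnt κ b k m h0 h1 fun hx0 hx1 => prob_avail κ b k hx0 hx1

end H42.CD
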