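import Pool.Agent.H42.CD.MLBasic
import Pool.Agent.H42.CD.FFacts
import Pool.Agent.H42.CD.Tree

/-!
# Module LIM: Poisson limit

For `0 ≤ x` fixed, `bcdf n m (y_n / n) → pcdf m y` if `y_n → y` (each term:
`C(n,j) (y_n/n)^j (1 - y_n/n)^(n-j) → y^j/j! exp(-y)`; `(1 - y_n/n)^n → exp(-y)`:
`Real.tendsto_one_add_div_pow_exp_of_tendsto` or similar). Since for `0 ≤ x ≤ n`
`n ∫_0^{x/n} qn n κ b k y dy = ∫_0^x qn n κ b k (y/n) dy`, induction on `k` gives
`qn n κ b k (x/n) → qq κ b k x` for `x ≥ 0` (dominated convergence, everything is in `[0,1]` for `x ≤ n`), and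
`Fn n κ b k x → FF κ b k x`.
Then `kit (Fn n κ b k) s L u → kit (FF κ b k) s L u` for `u ∈ [0, s]` by induction on `L` and dominated
convergence (bounds: `0 ≤ Fn ≤ 1` on `[0, s]` for `n ≥ s`, so `0 ≤ kit ≤ s^L`), and finally `mL`.
-/

open MeasureTheory Set Filter
open scoped ENNReal Topology

namespace H42.CD

private theorem bcdf_lim (m : ℕ) {p : ℕ → ℝ} {y : ℝ}
    (h : Tendsto (fun n : ℕ => (n : ℝ) * p n) atTop (𝓝 y)) :
    Tendsto (fun n : ℕ => bcdf n m (p n)) atTop (𝓝 (pcdf m y)) := by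
  have h1 : pcdf m y = ∑ j ∈ Finset.range m, Real.exp (-y) * y ^ j / (j.factorial : ℝ) := by
    unfold pcdf
    rw [Finset.mul_sum]
    exact Finset.sum_congr rfl fun j _ => by ring
  rw [h1]
  unfold bcdf
  exact tendsto_finset_sum _ fun j _ =>
    ProbabilityTheory.tendsto_choose_mul_pow_of_tendsto_mul_atTop j h

private theorem bcdf_cont (n m : ℕ) : Continuous (bcdf n m) := by
  unfold bcdf
  fun_prop

private theorem ev_big (s : ℝ) : ∀ᶠ n : ℕ in atTop, 0 < n ∧ s ≤ (n : ℝ) :=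
  (eventually_gt_atTop 0).and (tendsto_natCast_atTop_atTop.eventually (eventually_ge_atTop s))

private theorem int_lim (κ : ℕ) (b : Bool) (k : ℕ)
    (h : ∀ x : ℝ, 0 ≤ x → Tendsto (fun n : ℕ => qn n κ b k (x / n)) atTop (𝓝 (qq κ b k x)))
    {x : ℝ} (hx : 0 ≤ x) :
    Tendsto (fun n : ℕ => (n : ℝ) * ∫ y in (0:ℝ)..(x / n), qn n κ b k y) atTop
      (𝓝 (∫ y in (0:ℝ)..x, qq κ b k y)) := by
  have h1 : Tendsto (fun n : ℕ => ∫ y in (0:ℝ)..x, qn n κ b k (y / n)) atTop
      (𝓝 (∫ y in (0:ℝ)..x, qq κ b k y)) := by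
    refine intervalIntegral.tendsto_integral_filter_of_dominated_convergence (fun _ => (1:ℝ))
      ?_ ?_ (continuous_const.intervalIntegrable _ _) ?_
    · refine Eventually.of_forall fun n => ?_
      exact ((qn_cont n κ b k).comp (continuous_id.div_const _)).aestronglyMeasurable
    · filter_upwards [ev_big x] with n hn
      refine Eventually.of_forall fun y hy => ?_
      rw [uIoc_of_le hx] at hy
      have hn0 : (0:ℝ) < n := by exact_mod_cast hn.1
      have h2 := qn_mem n κ b k (v := y / n) (div_nonneg hy.1.le hn0.le)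
        ((div_le_one hn0).2 (hy.2.trans hn.2))
      rw [Real.norm_eq_abs, abs_of_nonneg h2.1]
      exact h2.2
    · refine Eventually.of_forall fun y hy => ?_
      rw [uIoc_of_le hx] at hy
      exact h y hy.1.le
  refine h1.congr' ?_
  filter_upwards [ev_big x] with n hn
  have hn0 : (n:ℝ) ≠ 0 := by exact_mod_cast hn.1.ne'
  rw [intervalIntegral.integral_comp_div (fun y => qn n κ b k y) hn0, zero_div, smul_eq_mul]

private theorem qn_lim (κ : ℕ) (b : Bool) (k : ℕ) : ∀ x : ℝ, 0 ≤ x →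
    Tendsto (fun n : ℕ => qn n κ b k (x / n)) atTop (𝓝 (qq κ b k x)) := by
  induction k generalizing b with
  | zero =>
    intro x _
    exact tendsto_const_nhds
  | succ k ih =>
    intro x hx
    show Tendsto (fun n : ℕ => bcdf n κ (∫ y in (0:ℝ)..(x / n), qn n κ (!b) k y)) atTop
      (𝓝 (pcdf κ (∫ y in (0:ℝ)..x, qq κ (!b) k y)))
    exact bcdf_lim κ (int_lim κ (!b) k (ih (!b)) hx)

private theorem Fn_lim (κ : ℕ) (b : Bool) (k : ℕ) {x : ℝ} (hx : 0 ≤ x) :
    Tendsto (fun n : ℕ => Fn n κ b k x) atTop (𝓝 (FF κ b k x)) :=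
  bcdf_lim (κ - 1) (int_lim κ b k (qn_lim κ b k) hx)

private theorem Fn_cont (n κ : ℕ) (b : Bool) (k : ℕ) : Continuous (Fn n κ b k) := by
  have h : Fn n κ b k = fun x : ℝ => bcdf n (κ - 1) (∫ y in (0:ℝ)..(x / n), qn n κ b k y) := by
    funext x; rfl
  rw [h]
  have h1 : Continuous fun x : ℝ => ∫ y in (0:ℝ)..x, qn n κ b k y :=
    intervalIntegral.continuous_primitive
      (fun a c => (qn_cont n κ b k).intervalIntegrable a c) 0
  exact (bcdf_cont n (κ - 1)).comp (h1.comp (continuous_id.div_const _))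

private theorem Fn_mem {n : ℕ} (κ : ℕ) (b : Bool) (k : ℕ) {s : ℝ} (hn : 0 < n) (hs : s ≤ (n : ℝ))
    {x : ℝ} (h0 : 0 ≤ x) (h1 : x ≤ s) : Fn n κ b k x ∈ Icc (0:ℝ) 1 := by
  have hn0 : (0:ℝ) < n := by exact_mod_cast hn
  have hx0 : 0 ≤ x / n := div_nonneg h0 hn0.le
  have hx1 : x / n ≤ 1 := (div_le_one hn0).2 (h1.trans hs)
  unfold Fn
  refine bcdf_mem n (κ - 1) ?_ ?_
  · exact intervalIntegral.integral_nonneg hx0 fun y hy =>
      (qn_mem n κ b k hy.1 (hy.2.trans hx1)).1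
  · calc ∫ y in (0:ℝ)..(x / n), qn n κ b k y ≤ ∫ _y in (0:ℝ)..(x / n), (1:ℝ) :=
          intervalIntegral.integral_mono_on hx0 ((qn_cont n κ b k).intervalIntegrable _ _)
            (continuous_const.intervalIntegrable _ _) fun y hy =>
              (qn_mem n κ b k hy.1 (hy.2.trans hx1)).2
      _ = x / n := by simp
      _ ≤ 1 := hx1

private theorem kit_Fn_mem {n : ℕ} (κ : ℕ) (b : Bool) (k L : ℕ) {s : ℝ} (hs0 : 0 ≤ s) (hn : 0 < n)
    (hs : s ≤ (n : ℝ)) {u : ℝ} (h0 : 0 ≤ u) (h1 : u ≤ s) :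
    kit (Fn n κ b k) s L u ∈ Icc (0:ℝ) (s ^ L) := by
  constructor
  · exact kit_nonneg hs0 (fun x hx hxs => (Fn_mem κ b k hn hs hx hxs).1) L h0 h1
  · rw [← kit_one s L u]
    exact kit_mono (Fn_cont n κ b k) continuous_const hs0
      (fun x hx hxs => (Fn_mem κ b k hn hs hx hxs).1)
      (fun x hx hxs => (Fn_mem κ b k hn hs hx hxs).2) L h0 h1

private theorem kit_lim (κ : ℕ) (b : Bool) (k L : ℕ) {s : ℝ} (hs : 0 < s) : ∀ u : ℝ, 0 ≤ u → u ≤ s →
    Tendsto (fun n : ℕ => kit (Fn n κ b k) s L u) atTop (𝓝 (kit (FF κ b k) s L u)) := by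
  induction L with
  | zero => intro u _ _; exact tendsto_const_nhds
  | succ L ih =>
    intro u hu hus
    show Tendsto (fun n : ℕ => ∫ v in (0:ℝ)..s, Fn n κ b k (max u v) * kit (Fn n κ b k) s L v) atTop
      (𝓝 (∫ v in (0:ℝ)..s, FF κ b k (max u v) * kit (FF κ b k) s L v))
    refine intervalIntegral.tendsto_integral_filter_of_dominated_convergence (fun _ => s ^ L)
      ?_ ?_ (continuous_const.intervalIntegrable _ _) ?_
    · refine Eventually.of_forall fun n => ?_
      exact (((Fn_cont n κ b k).comp (continuous_const.max continuous_id)).mul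
        (kit_cont (Fn_cont n κ b k) s L)).aestronglyMeasurable
    · filter_upwards [ev_big s] with n hn
      refine Eventually.of_forall fun v hv => ?_
      rw [uIoc_of_le hs.le] at hv
      have h1 := Fn_mem κ b k hn.1 hn.2 (le_max_of_le_left hu : 0 ≤ max u v) (max_le hus hv.2)
      have h2 := kit_Fn_mem κ b k L hs.le hn.1 hn.2 hv.1.le hv.2
      rw [Real.norm_eq_abs, abs_of_nonneg (mul_nonneg h1.1 h2.1)]
      calc Fn n κ b k (max u v) * kit (Fn n κ b k) s L v ≤ 1 * s ^ L :=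
            mul_le_mul h1.2 h2.2 h2.1 zero_le_one
        _ = s ^ L := one_mul _
    · refine Eventually.of_forall fun v hv => ?_
      rw [uIoc_of_le hs.le] at hv
      exact (Fn_lim κ b k (le_max_of_le_left hu)).mul (ih v hv.1.le hv.2)

theorem mL_lim (κ : ℕ) (b : Bool) (k L : ℕ) {s : ℝ} (hs : 0 < s) :
    Tendsto (fun n : ℕ => mL (Fn n κ b k) s L) atTop (𝓝 (mL (FF κ b k) s L)) := by
  show Tendsto (fun n : ℕ => ∫ u in (0:ℝ)..s, kit (Fn n κ b k) s L u) atTop
    (𝓝 (∫ u in (0:ℝ)..s, kit (FF κ b k) s L u))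
  refine intervalIntegral.tendsto_integral_filter_of_dominated_convergence (fun _ => s ^ L)
    ?_ ?_ (continuous_const.intervalIntegrable _ _) ?_
  · refine Eventually.of_forall fun n => ?_
    exact (kit_cont (Fn_cont n κ b k) s L).aestronglyMeasurable
  · filter_upwards [ev_big s] with n hn
    refine Eventually.of_forall fun v hv => ?_
    rw [uIoc_of_le hs.le] at hv
    have h2 := kit_Fn_mem κ b k L hs.le hn.1 hn.2 hv.1.le hv.2
    rw [Real.norm_eq_abs, abs_of_nonneg h2.1]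
    exact h2.2
  · refine Eventually.of_forall fun v hv => ?_
    rw [uIoc_of_le hs.le] at hv
    exact kit_lim κ b k L hs v hv.1.le hv.2

end H42.CD
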