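import Pool.Agent.H42.CD.Basic

/-!
# Module NOTGOOD: most forests are good

`t = s / (2 d)`, the tree has `n = 2 d` letters. First moment bounds: for a finite set `E` of pairs
(root, nonempty word), `P(all times of E are ≤ t) = t ^ #E`.
* A revealed word `w ++ [i]` of length `ℓ ≤ k` with `i.1 ∈ D0`: at most `m * n^(ℓ-1) * 2 * D` words, each
  revealed with probability `t ^ ℓ`: in total `≤ 2 m D t Σ_{ℓ ≤ k} s^(ℓ-1) ≤ C / d`.
* Two different pairs `(j, w ++ [i])`, `(j', w' ++ [i'])`, both revealed, with `i.1 = i'.1`. Both are revealed iff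
  all their nonempty prefixes have time `≤ t`. By symmetry assume `(j', w' ++ [i'])` is not a prefix of
  `(j, w ++ [i])`, or it is a proper prefix. In the first case let `r` be the number of common nonempty
  prefixes (`0` if `j ≠ j'`): the union of the two sets of prefixes has `ℓ + ℓ' - r` elements and the
  number of such pairs with given `ℓ, ℓ', r` is at most `m^2 * n^(ℓ + ℓ' - r - 1) * 2` (the last letter `i'` is
  determined by `i` up to sign, the common prefix is chosen once); in the second case at most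
  `m * n^(ℓ - 1) * 2` with probability `t ^ ℓ`. In all cases the expected number is
  `≤ C t = C' / d`, using `n t = s`.
(If `2 * d < s` the statement is trivial for `C ≥ s`, but we assume `s ≤ 2 * d`.)
A convenient way to organise this: bound the probability that a given pair of positions is revealed by
independence (`lawT` is `Measure.infinitePi`, so use `Measure.infinitePi_pi` and `Measure.pi_pi`), then sum.
-/

open MeasureTheory Set Filter
open scoped ENNReal Topology

namespace H42.CD

/-! ### Probabilities of boxes -/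

theorem lawT_box {D : Type} (E : Finset (List D)) (t : ℝ) :
    lawT D {W | ∀ w ∈ E, W w ≤ t} ≤ (ENNReal.ofReal t) ^ E.card := by
  have h : {W : TC D | ∀ w ∈ E, W w ≤ t} = Set.pi (E : Set (List D)) fun _ => Iic t := by
    ext W
    simp [Set.mem_pi]
  rw [h, lawT, Measure.infinitePi_pi (fun _ : List D => unif) fun _ _ => measurableSet_Iic,
    Finset.prod_const]
  gcongr
  unfold unif
  rw [Measure.restrict_apply measurableSet_Iic]
  calc volume (Iic t ∩ Icc 0 1) ≤ volume (Icc 0 t) := by
        refine measure_mono fun x hx => ?_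
        exact ⟨hx.2.1, hx.1⟩
    _ = ENNReal.ofReal t := by rw [Real.volume_Icc, sub_zero]

theorem pi_one {m : ℕ} {D : Type} (j : Fin m) (S : Set (TC D)) :
    (Measure.pi fun _ : Fin m => lawT D) {W | W j ∈ S} ≤ lawT D S := by
  classical
  have h : {W : Fin m → TC D | W j ∈ S}
      = Set.pi univ fun l => if l = j then S else univ := by
    ext W
    simp only [mem_ofPred_eq, Set.mem_pi, mem_univ, true_implies]
    constructor
    · intro hW l
      split_ifs with hl
      · rw [hl]; exact hW
      · exact mem_univ _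
    · intro hW
      have := hW j
      rwa [if_pos rfl] at this
  rw [h, Measure.pi_pi, Finset.prod_eq_single j]
  · rw [if_pos rfl]
  · intro l _ hl
    rw [if_neg hl, measure_univ]
  · intro hj
    exact absurd (Finset.mem_univ j) hj

theorem pi_two {m : ℕ} {D : Type} {j j' : Fin m} (hne : j ≠ j') (S S' : Set (TC D)) :
    (Measure.pi fun _ : Fin m => lawT D) {W | W j ∈ S ∧ W j' ∈ S'} ≤ lawT D S * lawT D S' := by
  classical
  have h : {W : Fin m → TC D | W j ∈ S ∧ W j' ∈ S'}
      = Set.pi univ fun l => if l = j then S else if l = j' then S' else univ := by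
    ext W
    simp only [mem_ofPred_eq, Set.mem_pi, mem_univ, true_implies]
    constructor
    · rintro ⟨h1, h2⟩ l
      split_ifs with hl hl'
      · rw [hl]; exact h1
      · rw [hl']; exact h2
      · exact mem_univ _
    · intro hW
      have h1 := hW j
      have h2 := hW j'
      rw [if_pos rfl] at h1
      rw [if_neg hne.symm, if_pos rfl] at h2
      exact ⟨h1, h2⟩
  rw [h, Measure.pi_pi, Finset.prod_eq_mul j j' hne]
  · rw [if_pos rfl, if_neg hne.symm, if_pos rfl]
  · intro l _ hl
    rw [if_neg hl.1, if_neg hl.2, measure_univ]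
  · intro hj
    exact absurd (Finset.mem_univ j) hj
  · intro hj
    exact absurd (Finset.mem_univ j') hj

/-! ### Prefixes -/

open Classical in
/-- nonempty prefixes -/
noncomputable def prf {D : Type} (u : List D) : Finset (List D) :=
  (Finset.range u.length).image fun i => u.take (i + 1)

theorem card_prf {D : Type} (u : List D) : (prf u).card = u.length := by
  classical
  unfold prf
  rw [Finset.card_image_of_injOn, Finset.card_range]
  intro i hi j hj hij
  have h1 : i < u.length := Finset.mem_range.1 hi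
  have h2 : j < u.length := Finset.mem_range.1 hj
  have := congrArg List.length hij
  simp only [List.length_take] at this
  omega

theorem Rvl.prf {D : Type} {t : ℝ} {k : ℕ} {W : TC D} {u : List D} (h : Rvl t k W u) :
    ∀ w ∈ prf u, W w ≤ t := by
  classical
  intro w hw
  unfold H42.CD.prf at hw
  rw [Finset.mem_image] at hw
  obtain ⟨i, hi, rfl⟩ := hw
  refine h.2.2 _ ?_ (List.take_prefix _ _)
  intro h0
  have h1 := congrArg List.length h0
  have h2 := Finset.mem_range.1 hi
  simp only [List.length_take, List.length_nil] at h1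
  omega

/-- one revealed word -/
theorem prob_rvl {m : ℕ} {D : Type} (t : ℝ) (k : ℕ) (j : Fin m) (u : List D) :
    (Measure.pi fun _ : Fin m => lawT D) {W | Rvl t k (W j) u} ≤ (ENNReal.ofReal t) ^ u.length := by
  calc (Measure.pi fun _ : Fin m => lawT D) {W | Rvl t k (W j) u}
      ≤ (Measure.pi fun _ : Fin m => lawT D) {W | W j ∈ {V : TC D | ∀ w ∈ prf u, V w ≤ t}} :=
        measure_mono fun W hW => Rvl.prf hW
    _ ≤ lawT D {V : TC D | ∀ w ∈ prf u, V w ≤ t} := pi_one j _
    _ ≤ (ENNReal.ofReal t) ^ (prf u).card := lawT_box _ t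
    _ = _ := by rw [card_prf]

/-- two revealed words in different trees -/
theorem prob_rvl_two {m : ℕ} {D : Type} (t : ℝ) (k : ℕ) {j j' : Fin m} (hne : j ≠ j')
    (u u' : List D) :
    (Measure.pi fun _ : Fin m => lawT D) {W | Rvl t k (W j) u ∧ Rvl t k (W j') u'}
      ≤ (ENNReal.ofReal t) ^ (u.length + u'.length) := by
  calc (Measure.pi fun _ : Fin m => lawT D) {W | Rvl t k (W j) u ∧ Rvl t k (W j') u'}
      ≤ (Measure.pi fun _ : Fin m => lawT D) {W | W j ∈ {V : TC D | ∀ w ∈ prf u, V w ≤ t} ∧
          W j' ∈ {V : TC D | ∀ w ∈ prf u', V w ≤ t}} :=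
        measure_mono fun W hW => ⟨Rvl.prf hW.1, Rvl.prf hW.2⟩
    _ ≤ lawT D {V : TC D | ∀ w ∈ prf u, V w ≤ t} * lawT D {V : TC D | ∀ w ∈ prf u', V w ≤ t} :=
        pi_two hne _ _
    _ ≤ (ENNReal.ofReal t) ^ (prf u).card * (ENNReal.ofReal t) ^ (prf u').card := by
        gcongr
        · exact lawT_box _ t
        · exact lawT_box _ t
    _ = _ := by rw [card_prf, card_prf, pow_add]

/-- two revealed words in the same tree -/
theorem prob_rvl_same {m : ℕ} {D : Type} (t : ℝ) (k : ℕ) (j : Fin m)
    (p v v' : List D) (hv : v.head? ≠ v'.head?) :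
    (Measure.pi fun _ : Fin m => lawT D) {W | Rvl t k (W j) (p ++ v) ∧ Rvl t k (W j) (p ++ v')}
      ≤ (ENNReal.ofReal t) ^ (p.length + v.length + v'.length) := by
  classical
  set E : Finset (List D) := prf (p ++ v) ∪ (prf v').image fun x => p ++ x with hE
  have hcard : E.card = p.length + v.length + v'.length := by
    rw [hE, Finset.card_union_of_disjoint, card_prf, Finset.card_image_of_injective, card_prf,
      List.length_append]
    · intro x y hxy
      exact List.append_cancel_left hxy
    · rw [Finset.disjoint_left]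
      intro x hx hx'
      rw [Finset.mem_image] at hx'
      obtain ⟨y, hy, rfl⟩ := hx'
      unfold prf at hx hy
      rw [Finset.mem_image] at hx hy
      obtain ⟨i, hi, hi'⟩ := hx
      obtain ⟨i2, hi2, rfl⟩ := hy
      have h2 := Finset.mem_range.1 hi2
      have h1 := Finset.mem_range.1 hi
      rw [List.length_append] at h1
      have hlen := congrArg List.length hi'
      simp only [List.length_take, List.length_append] at hlen
      obtain ⟨r, hr⟩ : ∃ r, i + 1 = p.length + (r + 1) := ⟨i - p.length, by omega⟩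
      rw [hr, List.take_length_add_append] at hi'
      have h3 := List.append_cancel_left hi'
      refine hv ?_
      have e1 : (v.take (r + 1)).head? = v.head? := by
        cases v <;> simp
      have e2 : (v'.take (i2 + 1)).head? = v'.head? := by
        cases v' <;> simp
      rw [← e1, h3, e2]
  calc (Measure.pi fun _ : Fin m => lawT D) {W | Rvl t k (W j) (p ++ v) ∧ Rvl t k (W j) (p ++ v')}
      ≤ (Measure.pi fun _ : Fin m => lawT D) {W | W j ∈ {V : TC D | ∀ w ∈ E, V w ≤ t}} := by
        refine measure_mono fun W hW w hw => ?_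
        rw [hE, Finset.mem_union] at hw
        rcases hw with hw | hw
        · exact Rvl.prf hW.1 w hw
        · rw [Finset.mem_image] at hw
          obtain ⟨x, hx, rfl⟩ := hw
          unfold prf at hx
          rw [Finset.mem_image] at hx
          obtain ⟨i, hi, rfl⟩ := hx
          have h2 := Finset.mem_range.1 hi
          refine hW.2.2.2 _ ?_ ?_
          · intro h0
            have h1 := congrArg List.length h0
            simp only [List.length_append, List.length_take, List.length_nil] at h1
            omega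
          · exact (List.prefix_append_right_inj p).2 (List.take_prefix _ _)
    _ ≤ lawT D {V : TC D | ∀ w ∈ E, V w ≤ t} := pi_one j _
    _ ≤ (ENNReal.ofReal t) ^ E.card := lawT_box _ t
    _ = _ := by rw [hcard]

/-! ### Words of bounded length -/

/-- words of length at most `k` -/
abbrev Wd (D : Type) (k : ℕ) : Type := Σ a : Fin (k + 1), (Fin a.val → D)

/-- the list of a word -/
def toL {D : Type} {k : ℕ} (x : Wd D k) : List D := List.ofFn x.2

theorem toL_surj {D : Type} {k : ℕ} (l : List D) (h : l.length ≤ k) : ∃ x : Wd D k, toL x = l :=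
  ⟨⟨⟨l.length, by omega⟩, fun i => l.get i⟩, List.ofFn_get l⟩

theorem sum_wd {D : Type} [Fintype D] (k : ℕ) (τ : ℝ≥0∞) :
    ∑ x : Wd D k, τ ^ (toL x).length = ∑ a : Fin (k + 1), ((Fintype.card D : ℝ≥0∞) * τ) ^ a.val := by
  rw [Fintype.sum_sigma]
  refine Finset.sum_congr rfl fun a _ => ?_
  simp only [toL, List.length_ofFn, Finset.sum_const, Finset.card_univ, Fintype.card_fun,
    Fintype.card_fin, nsmul_eq_mul]
  rw [mul_pow, Nat.cast_pow]

theorem split_ne {D : Type} (u u' : List D) (h : u ≠ u') :
    ∃ p v v', u = p ++ v ∧ u' = p ++ v' ∧ v.head? ≠ v'.head? := by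
  induction u generalizing u' with
  | nil =>
    refine ⟨[], [], u', rfl, rfl, ?_⟩
    cases u' with
    | nil => exact absurd rfl h
    | cons a l => simp
  | cons a l ih =>
    cases u' with
    | nil => exact ⟨[], a :: l, [], rfl, rfl, by simp⟩
    | cons b l' =>
      by_cases hab : a = b
      · subst hab
        obtain ⟨p, v, v', h1, h2, h3⟩ := ih l' (fun h' => h (by rw [h']))
        exact ⟨a :: p, v, v', by rw [h1]; rfl, by rw [h2]; rfl, h3⟩
      · exact ⟨[], a :: l, b :: l', rfl, rfl, by simpa using hab⟩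

/-! ### The two kinds of failures -/

/-- pair of revealed words with the same last coordinate -/
def PairEv {d m : ℕ} (l0 : Dir d) (t : ℝ) (k : ℕ)
    (x : Fin m × Fin m × Bool × Wd (Dir d) k × Wd (Dir d) k × Wd (Dir d) k) :
    Set (Fin m → TC (Dir d)) :=
  {W | Rvl t k (W x.1) (toL x.2.2.2.1 ++ (toL x.2.2.2.2.1 ++
        [(((toL x.2.2.2.1 ++ toL x.2.2.2.2.2).getLastD l0).1, x.2.2.1)])) ∧
    Rvl t k (W x.2.1) (toL x.2.2.2.1 ++ toL x.2.2.2.2.2) ∧
    ((x.1 = x.2.1 ∧ (toL x.2.2.2.2.1 ++
        [(((toL x.2.2.2.1 ++ toL x.2.2.2.2.2).getLastD l0).1, x.2.2.1)]).head?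
          ≠ (toL x.2.2.2.2.2).head?) ∨ (x.1 ≠ x.2.1 ∧ toL x.2.2.2.1 = []))}

theorem prob_pairEv {d m : ℕ} (l0 : Dir d) (t : ℝ) (k : ℕ)
    (x : Fin m × Fin m × Bool × Wd (Dir d) k × Wd (Dir d) k × Wd (Dir d) k) :
    (Measure.pi fun _ : Fin m => lawT (Dir d)) (PairEv l0 t k x)
      ≤ (ENNReal.ofReal t) ^ (toL x.2.2.2.1).length * ((ENNReal.ofReal t) ^ (toL x.2.2.2.2.1).length *
        ((ENNReal.ofReal t) ^ (toL x.2.2.2.2.2).length * ENNReal.ofReal t)) := by
  obtain ⟨j, j', ε, p, v, v'⟩ := x
  simp only
  have hexp : (ENNReal.ofReal t) ^ (toL p).length * ((ENNReal.ofReal t) ^ (toL v).length *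
        ((ENNReal.ofReal t) ^ (toL v').length * ENNReal.ofReal t))
      = (ENNReal.ofReal t) ^ ((toL p).length + ((toL v).length + 1) + (toL v').length) := by
    ring
  rw [hexp]
  by_cases hj : j = j'
  · subst hj
    by_cases hh : (toL v ++ [(((toL p ++ toL v').getLastD l0).1, ε)]).head? ≠ (toL v').head?
    · refine le_trans (measure_mono ?_) ((prob_rvl_same t k j (toL p) _ (toL v') hh).trans ?_)
      · intro W hW
        exact ⟨hW.1, hW.2.1⟩
      · simp only [List.length_append, List.length_singleton, le_refl]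
    · have : PairEv l0 t k (j, j, ε, p, v, v') = ∅ := by
        refine Set.eq_empty_of_forall_notMem fun W hW => ?_
        rcases hW.2.2 with h | h
        · exact hh h.2
        · exact h.1 rfl
      rw [this, measure_empty]
      exact bot_le
  · by_cases hp : toL p = []
    · refine le_trans (measure_mono ?_) ((prob_rvl_two t k hj
        (toL p ++ (toL v ++ [(((toL p ++ toL v').getLastD l0).1, ε)])) (toL p ++ toL v')).trans ?_)
      · intro W hW
        exact ⟨hW.1, hW.2.1⟩
      · rw [hp]
        simp only [List.nil_append, List.length_append, List.length_singleton, List.length_nil,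
          zero_add, le_refl]
    · have : PairEv l0 t k (j, j', ε, p, v, v') = ∅ := by
        refine Set.eq_empty_of_forall_notMem fun W hW => ?_
        rcases hW.2.2 with h | h
        · exact hj h.1
        · exact hp h.2
      rw [this, measure_empty]
      exact bot_le

theorem mem_pairEv {d m : ℕ} (l0 : Dir d) (t : ℝ) (k : ℕ) {W : Fin m → TC (Dir d)}
    {j j' : Fin m} {w w' : List (Dir d)} {i i' : Dir d} (h : Rvl t k (W j) (w ++ [i]))
    (h' : Rvl t k (W j') (w' ++ [i'])) (hi : i.1 = i'.1) (hne : ¬ (j = j' ∧ w = w' ∧ i = i')) :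
    ∃ x, W ∈ PairEv l0 t k x := by
  have hlast : ∀ (z : List (Dir d)) (c : Dir d), (z ++ [c]).getLastD l0 = c := by
    intro z c
    simp [List.getLastD_eq_getLast?]
  by_cases hj : j = j'
  · subst hj
    -- a lemma for one order
    have key : ∀ {w w' : List (Dir d)} {i i' : Dir d}, Rvl t k (W j) (w ++ [i]) →
        Rvl t k (W j) (w' ++ [i']) → i.1 = i'.1 → ∀ p v v' : List (Dir d),
        w ++ [i] = p ++ v → w' ++ [i'] = p ++ v' → v.head? ≠ v'.head? → v ≠ [] →
        ∃ x, W ∈ PairEv l0 t k x := by
      intro w w' i i' h h' hi p v v' e e' hv hv0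
      obtain ⟨v0, c, rfl⟩ : ∃ v0 c, v = v0 ++ [c] := ⟨v.dropLast, v.getLast hv0,
        (List.dropLast_append_getLast hv0).symm⟩
      have hc : c = i := by
        have h1 := hlast w i
        rw [e, ← List.append_assoc, hlast] at h1
        exact h1
      subst hc
      have hl1 : (p ++ (v0 ++ [c])).length ≤ k := by rw [← e]; exact h.2.1
      have hl2 : (p ++ v').length ≤ k := by rw [← e']; exact h'.2.1
      simp only [List.length_append, List.length_singleton] at hl1 hl2
      obtain ⟨xp, hp⟩ := toL_surj (k := k) p (by omega)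
      obtain ⟨xv, hxv⟩ := toL_surj (k := k) v0 (by omega)
      obtain ⟨xv', hxv'⟩ := toL_surj (k := k) v' (by omega)
      have hi' : (((p ++ v').getLastD l0).1, c.2) = c := by
        rw [← e', hlast, ← hi]
      refine ⟨(j, j, c.2, xp, xv, xv'), ?_⟩
      unfold PairEv
      simp only [mem_ofPred_eq, hp, hxv, hxv', hi']
      refine ⟨?_, ?_, Or.inl ⟨trivial, hv⟩⟩
      · rw [← e]; exact h
      · rw [← e']; exact h'
    have hu : w ++ [i] ≠ w' ++ [i'] := by
      intro he
      have h1 := List.append_inj_left' he rfl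
      have h2 := List.append_inj_right' he rfl
      exact hne ⟨rfl, h1, by simpa using h2⟩
    obtain ⟨p, v, v', e, e', hv⟩ := split_ne _ _ hu
    by_cases hv0 : v = []
    · have hv0' : v' ≠ [] := by
        intro h0
        rw [hv0, h0] at hv
        exact hv rfl
      exact key h' h hi.symm p v' v e' e hv.symm hv0'
    · exact key h h' hi p v v' e e' hv hv0
  · have hl1 : (w ++ [i]).length ≤ k := h.2.1
    have hl2 : (w' ++ [i']).length ≤ k := h'.2.1
    simp only [List.length_append, List.length_singleton] at hl1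
    obtain ⟨xp, hp⟩ := toL_surj (k := k) ([] : List (Dir d)) (by simp)
    obtain ⟨xv, hxv⟩ := toL_surj (k := k) w (by omega)
    obtain ⟨xv', hxv'⟩ := toL_surj (k := k) (w' ++ [i']) hl2
    have hi' : ((([] ++ (w' ++ [i'])).getLastD l0).1, i.2) = i := by
      rw [List.nil_append, hlast, ← hi]
    refine ⟨(j, j', i.2, xp, xv, xv'), ?_⟩
    unfold PairEv
    simp only [mem_ofPred_eq, hp, hxv, hxv', hi']
    exact ⟨h, h', Or.inr ⟨hj, trivial⟩⟩

theorem not_good_le (m k D : ℕ) {s : ℝ} (hs : 0 < s) :
    ∃ C : ℝ, 0 ≤ C ∧ ∀ d : ℕ, 1 ≤ d → s ≤ 2 * d → ∀ D0 : Finset (Fin d), D0.card ≤ D →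
      (Measure.pi fun _ : Fin m => lawT (Dir d)) {W | ¬ Good (s / (2 * d)) k D0 W}
        ≤ ENNReal.ofReal (C / d) := by
  set G : ℝ := ∑ a : Fin (k + 1), s ^ a.val with hG
  have hG0 : 0 ≤ G := Finset.sum_nonneg fun a _ => by positivity
  refine ⟨s * (m * D * G + m ^ 2 * G ^ 3), by positivity, fun d hd hsd D0 hD0 => ?_⟩
  have hdpos : (0 : ℝ) < d := by exact_mod_cast hd
  set l0 : Dir d := (⟨0, by omega⟩, true) with hl0
  set t : ℝ := s / (2 * d) with ht
  set τ : ℝ≥0∞ := ENNReal.ofReal t with hτ
  set μ := (Measure.pi fun _ : Fin m => lawT (Dir d)) with hμ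
  have hcard : ((Fintype.card (Dir d) : ℕ) : ℝ≥0∞) * τ = ENNReal.ofReal s := by
    rw [Fintype.card_prod, Fintype.card_fin, Fintype.card_bool, hτ, ht,
      ← ENNReal.ofReal_natCast, ← ENNReal.ofReal_mul (by positivity)]
    congr 1
    push_cast
    field_simp
  have hS : ∑ x : Wd (Dir d) k, τ ^ (toL x).length = ENNReal.ofReal G := by
    rw [sum_wd, hcard, hG, ENNReal.ofReal_sum_of_nonneg fun a _ => by positivity]
    refine Finset.sum_congr rfl fun a _ => ?_
    rw [ENNReal.ofReal_pow hs.le]
  have hsub : {W : Fin m → TC (Dir d) | ¬ Good t k D0 W} ⊆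
      (⋃ x : Fin m × Wd (Dir d) k, ⋃ i ∈ D0 ×ˢ (Finset.univ : Finset Bool),
        {W : Fin m → TC (Dir d) | Rvl t k (W x.1) (toL x.2 ++ [i])}) ∪
      ⋃ x, PairEv l0 t k x := by
    intro W hW
    by_contra hcon
    rw [Set.mem_union, not_or] at hcon
    refine hW ⟨?_, ?_⟩
    · intro j w i hr hi
      refine hcon.1 ?_
      have hl : (w ++ [i]).length ≤ k := hr.2.1
      simp only [List.length_append, List.length_singleton] at hl
      obtain ⟨x, hx⟩ := toL_surj (k := k) w (by omega)
      refine Set.mem_iUnion.2 ⟨(j, x), Set.mem_iUnion₂.2 ⟨i, ?_, ?_⟩⟩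
      · exact Finset.mem_product.2 ⟨hi, Finset.mem_univ _⟩
      · change Rvl t k (W j) (toL x ++ [i])
        rw [hx]
        exact hr
    · intro j w i j' w' i' hr hr' hi
      by_contra hne
      obtain ⟨x, hx⟩ := mem_pairEv l0 t k hr hr' hi hne
      exact hcon.2 (Set.mem_iUnion.2 ⟨x, hx⟩)
  have hA : μ (⋃ x : Fin m × Wd (Dir d) k, ⋃ i ∈ D0 ×ˢ (Finset.univ : Finset Bool),
        {W : Fin m → TC (Dir d) | Rvl t k (W x.1) (toL x.2 ++ [i])})
      ≤ m * (ENNReal.ofReal G * ((D0.card * 2 : ℕ) * τ)) := by
    calc _ ≤ ∑ x : Fin m × Wd (Dir d) k, μ (⋃ i ∈ D0 ×ˢ (Finset.univ : Finset Bool),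
        {W : Fin m → TC (Dir d) | Rvl t k (W x.1) (toL x.2 ++ [i])}) :=
          measure_iUnion_fintype_le _ _
      _ ≤ ∑ x : Fin m × Wd (Dir d) k, ∑ i ∈ D0 ×ˢ (Finset.univ : Finset Bool),
          μ {W : Fin m → TC (Dir d) | Rvl t k (W x.1) (toL x.2 ++ [i])} :=
          Finset.sum_le_sum fun x _ => measure_biUnion_finset_le _ _
      _ ≤ ∑ x : Fin m × Wd (Dir d) k, ∑ i ∈ D0 ×ˢ (Finset.univ : Finset Bool),
          τ ^ (toL x.2).length * τ := by
          refine Finset.sum_le_sum fun x _ => Finset.sum_le_sum fun i _ => ?_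
          refine (prob_rvl t k x.1 _).trans ?_
          rw [List.length_append, List.length_singleton, pow_succ]
      _ = m * (ENNReal.ofReal G * ((D0.card * 2 : ℕ) * τ)) := by
          simp only [Finset.sum_const, nsmul_eq_mul, Finset.card_product, Finset.card_univ,
            Fintype.card_bool]
          rw [Fintype.sum_prod_type]
          simp only [Finset.sum_const, Finset.card_univ, Fintype.card_fin, nsmul_eq_mul]
          congr 1
          rw [← hS, Finset.sum_mul]
          refine Finset.sum_congr rfl fun x _ => ?_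
          ring
  have hB : μ (⋃ x, PairEv l0 t k x)
      ≤ m * (m * (2 * (ENNReal.ofReal G * (ENNReal.ofReal G * (ENNReal.ofReal G * τ))))) := by
    calc _ ≤ ∑ x : Fin m × Fin m × Bool × Wd (Dir d) k × Wd (Dir d) k × Wd (Dir d) k,
          μ (PairEv l0 t k x) := measure_iUnion_fintype_le _ _
      _ ≤ ∑ x : Fin m × Fin m × Bool × Wd (Dir d) k × Wd (Dir d) k × Wd (Dir d) k,
          τ ^ (toL x.2.2.2.1).length * (τ ^ (toL x.2.2.2.2.1).length *
            (τ ^ (toL x.2.2.2.2.2).length * τ)) :=
          Finset.sum_le_sum fun x _ => prob_pairEv l0 t k x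
      _ = m * (m * (2 * (ENNReal.ofReal G * (ENNReal.ofReal G * (ENNReal.ofReal G * τ))))) := by
          simp only [Fintype.sum_prod_type, Finset.sum_const, Finset.card_univ, Fintype.card_fin,
            Fintype.card_bool, nsmul_eq_mul, ← Finset.mul_sum, ← Finset.sum_mul, hS]
          push_cast
          ring
  have hfin : (m : ℝ≥0∞) * (ENNReal.ofReal G * ((D0.card * 2 : ℕ) * τ)) +
      m * (m * (2 * (ENNReal.ofReal G * (ENNReal.ofReal G * (ENNReal.ofReal G * τ)))))
      = ENNReal.ofReal (m * (G * ((D0.card * 2 : ℕ) * t)) + m * (m * (2 * (G * (G * (G * t)))))) := by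
    have ht0 : 0 ≤ t := by positivity
    rw [ENNReal.ofReal_add (by positivity) (by positivity)]
    simp only [ENNReal.ofReal_mul (Nat.cast_nonneg _), ENNReal.ofReal_mul hG0,
      ENNReal.ofReal_natCast, ENNReal.ofReal_mul (zero_le_two (α := ℝ)), ENNReal.ofReal_ofNat]
    rfl
  calc μ {W | ¬ Good t k D0 W} ≤ μ _ + μ _ := (measure_mono hsub).trans (measure_union_le _ _)
    _ ≤ _ := add_le_add hA hB
    _ = _ := hfin
    _ ≤ ENNReal.ofReal (s * (m * D * G + m ^ 2 * G ^ 3) / d) := by
        refine ENNReal.ofReal_le_ofReal ?_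
        have hc : (D0.card : ℝ) ≤ D := by exact_mod_cast hD0
        have e : s * (m * D * G + m ^ 2 * G ^ 3) / d
            = m * (G * ((D * 2 : ℝ) * t)) + m * (m * (2 * (G * (G * (G * t))))) := by
          rw [ht]
          field_simp
        rw [e]
        push_cast
        have ht0 : 0 ≤ t := by positivity
        gcongr

end H42.CD
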