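import Pool.Agent.H42.CD.Basic

/-!
# Module MLBASIC: elementary facts about `kit` and `mL`

For `0 < s` only the values of `g` on `[0, s]` matter. All by induction on `L`; `kit g s L` is continuous
if `g` is continuous (`continuous_parametric_intervalIntegral_of_continuous` or
`intervalIntegral.continuous_parametric_intervalIntegral_of_continuous'`).
`mL_smul`: `kit (c g) s k u = c^k kit g s k u`, no hypothesis needed (`intervalIntegral.integral_const_mul`).
-/

open MeasureTheory Set Filter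
open scoped ENNReal Topology

namespace H42.CD

theorem kit_cont {g : ℝ → ℝ} (hg : Continuous g) (s : ℝ) (k : ℕ) : Continuous (kit g s k) := by
  induction k with
  | zero => 
    have : kit g s 0 = fun _ => 1 := by funext u; rfl
    rw [this]; exact continuous_const
  | succ k ih =>
    have : kit g s (k + 1) = fun u => ∫ v in (0:ℝ)..s, g (max u v) * kit g s k v := by
      funext u; rfl
    rw [this]
    refine intervalIntegral.continuous_parametric_intervalIntegral_of_continuous' ?_ 0 s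
    have h1 : Continuous fun p : ℝ × ℝ => g (max p.1 p.2) :=
      hg.comp (continuous_fst.max continuous_snd)
    exact h1.mul (ih.comp continuous_snd)

theorem kit_int {g : ℝ → ℝ} (hg : Continuous g) (s : ℝ) (k : ℕ) (u a b : ℝ) :
    IntervalIntegrable (fun v => g (max u v) * kit g s k v) volume a b := by
  refine Continuous.intervalIntegrable ?_ a b
  exact (hg.comp (continuous_const.max continuous_id)).mul (kit_cont hg s k)

theorem kit_nonneg {g : ℝ → ℝ} {s : ℝ} (hs : 0 ≤ s) (h0 : ∀ x, 0 ≤ x → x ≤ s → 0 ≤ g x)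
    (k : ℕ) {u : ℝ} (hu : 0 ≤ u) (hu' : u ≤ s) : 0 ≤ kit g s k u := by
  induction k generalizing u with
  | zero => simp [kit]
  | succ k ih =>
    unfold kit
    refine intervalIntegral.integral_nonneg hs fun v hv => ?_
    exact mul_nonneg (h0 _ (le_max_of_le_left hu) (max_le hu' hv.2)) (ih hv.1 hv.2)

theorem kit_mono {f g : ℝ → ℝ} (hf : Continuous f) (hg : Continuous g) {s : ℝ} (hs : 0 ≤ s)
    (h0 : ∀ x, 0 ≤ x → x ≤ s → 0 ≤ f x) (hfg : ∀ x, 0 ≤ x → x ≤ s → f x ≤ g x) (k : ℕ)
    {u : ℝ} (hu : 0 ≤ u) (hu' : u ≤ s) : kit f s k u ≤ kit g s k u := by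
  induction k generalizing u with
  | zero => simp [kit]
  | succ k ih =>
    unfold kit
    refine intervalIntegral.integral_mono_on hs (kit_int hf s k u 0 s) (kit_int hg s k u 0 s)
      fun v hv => ?_
    have h1 : 0 ≤ max u v := le_max_of_le_left hu
    have h2 : max u v ≤ s := max_le hu' hv.2
    exact mul_le_mul (hfg _ h1 h2) (ih hv.1 hv.2) (kit_nonneg hs h0 k hv.1 hv.2)
      ((h0 _ h1 h2).trans (hfg _ h1 h2))

theorem mL_nonneg {g : ℝ → ℝ} {s : ℝ} (hs : 0 ≤ s) (h0 : ∀ x, 0 ≤ x → x ≤ s → 0 ≤ g x)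
    (L : ℕ) : 0 ≤ mL g s L := by
  unfold mL
  exact intervalIntegral.integral_nonneg hs fun u hu => kit_nonneg hs h0 L hu.1 hu.2

theorem kit_pos {g : ℝ → ℝ} (hg : Continuous g) {s : ℝ} (hs : 0 < s)
    (h0 : ∀ x, 0 ≤ x → x ≤ s → 0 < g x) (k : ℕ) {u : ℝ} (hu : 0 ≤ u) (hu' : u ≤ s) :
    0 < kit g s k u := by
  induction k generalizing u with
  | zero => simp [kit]
  | succ k ih =>
    unfold kit
    refine intervalIntegral.intervalIntegral_pos_of_pos_on (kit_int hg s k u 0 s) ?_ hs
    intro v hv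
    exact mul_pos (h0 _ (le_max_of_le_left hu) (max_le hu' hv.2.le)) (ih hv.1.le hv.2.le)

theorem mL_pos {g : ℝ → ℝ} (hg : Continuous g) {s : ℝ} (hs : 0 < s)
    (h0 : ∀ x, 0 ≤ x → x ≤ s → 0 < g x) (L : ℕ) : 0 < mL g s L := by
  unfold mL
  refine intervalIntegral.intervalIntegral_pos_of_pos_on
    ((kit_cont hg s L).intervalIntegrable 0 s) ?_ hs
  intro v hv
  exact kit_pos hg hs h0 L hv.1.le hv.2.le

theorem mL_mono {f g : ℝ → ℝ} (hf : Continuous f) (hg : Continuous g) {s : ℝ} (hs : 0 ≤ s)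
    (h0 : ∀ x, 0 ≤ x → x ≤ s → 0 ≤ f x) (hfg : ∀ x, 0 ≤ x → x ≤ s → f x ≤ g x) (L : ℕ) :
    mL f s L ≤ mL g s L := by
  unfold mL
  exact intervalIntegral.integral_mono_on hs ((kit_cont hf s L).intervalIntegrable 0 s)
    ((kit_cont hg s L).intervalIntegrable 0 s) fun u hu => kit_mono hf hg hs h0 hfg L hu.1 hu.2

theorem kit_smul (g : ℝ → ℝ) (c s : ℝ) (k : ℕ) (u : ℝ) :
    kit (fun x => c * g x) s k u = c ^ k * kit g s k u := by
  induction k generalizing u with
  | zero => simp [kit]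
  | succ k ih =>
    unfold kit
    rw [← intervalIntegral.integral_const_mul]
    refine intervalIntegral.integral_congr fun v _ => ?_
    simp only [ih]
    ring

theorem mL_smul (g : ℝ → ℝ) (c s : ℝ) (L : ℕ) :
    mL (fun x => c * g x) s L = c ^ L * mL g s L := by
  unfold mL
  rw [← intervalIntegral.integral_const_mul]
  exact intervalIntegral.integral_congr fun v _ => kit_smul g c s L v

theorem kit_one (s : ℝ) (k : ℕ) (u : ℝ) : kit (fun _ => 1) s k u = s ^ k := by
  induction k generalizing u with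
  | zero => simp [kit]
  | succ k ih =>
    unfold kit
    simp only [ih, one_mul, intervalIntegral.integral_const, sub_zero, smul_eq_mul]
    ring

theorem mL_one (s : ℝ) (L : ℕ) : mL (fun _ => 1) s L = s ^ (L + 1) := by
  unfold mL
  simp only [kit_one, intervalIntegral.integral_const, sub_zero, smul_eq_mul]
  ring

theorem mL_le_pow {g : ℝ → ℝ} (hg : Continuous g) {s : ℝ} (hs : 0 ≤ s)
    (h0 : ∀ x, 0 ≤ x → x ≤ s → 0 ≤ g x) (h1 : ∀ x, 0 ≤ x → x ≤ s → g x ≤ 1) (L : ℕ) :
    mL g s L ≤ s ^ (L + 1) := by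
  rw [← mL_one]
  exact mL_mono hg continuous_const hs h0 h1 L

end H42.CD
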