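import Pool.Agent.H42.CD.Meas

/-!
# Module TDET: block events on the forest, measurability and determinism

`rcnt_det`: `rcnt κ b K W m` with `m ≤ t` is determined by the revealed words of length `≤ K + 1`. Proof: by
induction on `k`, `avail κ b k W v ↔ avail κ b k W' v` for `v ≤ t` if `W, W'` are related as in the
statement with depth `k`: if `[i]` is revealed then `W' [i] = W [i]` and `sub W i`, `sub W' i` are related
with depth one less (`Rvl t (k+1) W (i :: w) ↔ W [i] ≤ t ∧ (w = [] ∨ Rvl t k (sub W i) w)`, same for `Seen`);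
if not (and the depth is `≥ 1`), `t < W [i] ≤ W' [i]` and `i` is not counted on either side.
-/

open MeasureTheory Set Filter
open scoped ENNReal Topology

namespace H42.CD

/-- the times with index `≥ j0` are `≤ t` -/
def timesT {len : ℕ} (D : Type) (j0 : ℕ) (t : ℝ) :
    Set ((Fin len → ℝ) × (Fin (len - 1) → TC D)) :=
  {q | ∀ j : Fin len, j0 ≤ j.val → q.1 j ≤ t}

/-- the roots `j ∈ [a, a + L)` satisfy the core condition -/
def coreT {len : ℕ} (D : Type) [Fintype D] (κ : ℕ) (b : Bool) (K a L : ℕ) :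
    Set ((Fin len → ℝ) × (Fin (len - 1) → TC D)) :=
  {q | ∀ j : Fin (len - 1), a ≤ j.val → j.val < a + L →
    rcnt κ b K (q.2 j) (max (q.1 ⟨j.val, by omega⟩) (q.1 ⟨j.val + 1, by omega⟩)) + 1 < κ}

/-- the roots `j ∉ [a, a + L)` have no child edge with time `≤ t` -/
def cleanT {len : ℕ} (D : Type) (t : ℝ) (a L : ℕ) :
    Set ((Fin len → ℝ) × (Fin (len - 1) → TC D)) :=
  {q | ∀ j : Fin (len - 1), ¬ (a ≤ j.val ∧ j.val < a + L) → ∀ l : D, t < q.2 j [l]}

theorem meas_timesT {len : ℕ} (D : Type) (j0 : ℕ) (t : ℝ) :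
    MeasurableSet (timesT (len := len) D j0 t) := by
  have h1 : timesT (len := len) D j0 t = ⋂ j : Fin len, ⋂ _ : j0 ≤ j.val,
      {q : (Fin len → ℝ) × (Fin (len - 1) → TC D) | q.1 j ≤ t} := by
    ext q
    simp only [timesT, Set.mem_iInter]
    rfl
  rw [h1]
  refine MeasurableSet.iInter fun j => MeasurableSet.iInter fun _ => ?_
  exact measurableSet_le ((measurable_pi_apply j).comp measurable_fst) measurable_const

theorem meas_coreT {len : ℕ} (D : Type) [Fintype D] (κ : ℕ) (b : Bool) (K a L : ℕ) :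
    MeasurableSet (coreT (len := len) D κ b K a L) := by
  have h1 : coreT (len := len) D κ b K a L = ⋂ j : Fin (len - 1), ⋂ _ : a ≤ j.val,
      ⋂ _ : j.val < a + L, {q : (Fin len → ℝ) × (Fin (len - 1) → TC D) |
        rcnt κ b K (q.2 j) (max (q.1 ⟨j.val, by omega⟩) (q.1 ⟨j.val + 1, by omega⟩)) + 1 < κ} := by
    ext q
    simp only [coreT, Set.mem_iInter]
    rfl
  rw [h1]
  refine MeasurableSet.iInter fun j => MeasurableSet.iInter fun _ => MeasurableSet.iInter fun _ => ?_
  have hm : Measurable fun q : (Fin len → ℝ) × (Fin (len - 1) → TC D) =>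
      rcnt κ b K (q.2 j) (max (q.1 ⟨j.val, by omega⟩) (q.1 ⟨j.val + 1, by omega⟩)) := by
    refine (meas_rcnt κ b K).comp (Measurable.prodMk ?_ ?_)
    · exact (measurable_pi_apply j).comp measurable_snd
    · exact ((measurable_pi_apply _).comp measurable_fst).max
        ((measurable_pi_apply _).comp measurable_fst)
  exact measurableSet_lt (hm.add_const 1) measurable_const

theorem meas_cleanT {len : ℕ} (D : Type) [Fintype D] (t : ℝ) (a L : ℕ) :
    MeasurableSet (cleanT (len := len) D t a L) := by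
  have h1 : cleanT (len := len) D t a L = ⋂ j : Fin (len - 1),
      ⋂ _ : ¬ (a ≤ j.val ∧ j.val < a + L), ⋂ l : D,
      {q : (Fin len → ℝ) × (Fin (len - 1) → TC D) | t < q.2 j [l]} := by
    ext q
    simp only [cleanT, Set.mem_iInter]
    rfl
  rw [h1]
  refine MeasurableSet.iInter fun j => MeasurableSet.iInter fun _ => MeasurableSet.iInter fun l => ?_
  exact measurableSet_lt measurable_const
    ((measurable_pi_apply _).comp ((measurable_pi_apply j).comp measurable_snd))

/-- revealed words with given first letter -/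
theorem td_rvl_cons {D : Type} {t : ℝ} {k : ℕ} {W : TC D} {i : D} {w : List D}
    (hi : W [i] ≤ t) (hw : w = [] ∨ Rvl t k (sub W i) w) : Rvl t (k + 1) W (i :: w) := by
  refine ⟨by simp, ?_, ?_⟩
  · rcases hw with rfl | hw
    · simp
    · simpa using hw.2.1
  · intro p hp hpw
    cases p with
    | nil => exact absurd rfl hp
    | cons a p =>
      rw [List.cons_prefix_cons] at hpw
      obtain ⟨rfl, hpw⟩ := hpw
      by_cases hp0 : p = []
      · subst hp0; exact hi
      · rcases hw with rfl | hw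
        · exact absurd (List.prefix_nil.1 hpw) hp0
        · exact hw.2.2 p hp0 hpw

theorem td_rvl_of_cons {D : Type} {t : ℝ} {k : ℕ} {W : TC D} {i : D} {w : List D} (hw0 : w ≠ [])
    (h : Rvl t (k + 1) W (i :: w)) : Rvl t k (sub W i) w := by
  refine ⟨hw0, by simpa using h.2.1, ?_⟩
  intro p _ hpw
  exact h.2.2 (i :: p) (by simp) (by rw [List.cons_prefix_cons]; exact ⟨rfl, hpw⟩)

/-- the relation is inherited by subtrees -/
theorem td_sub {D : Type} {t : ℝ} {k : ℕ} {W W' : TC D}
    (h1 : ∀ w, Rvl t (k + 1) W w → W' w = W w)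
    (h2 : ∀ w, Seen t (k + 1) W w → ¬ Rvl t (k + 1) W w → W w ≤ W' w)
    {i : D} (hi : W [i] ≤ t) :
    (∀ w, Rvl t k (sub W i) w → sub W' i w = sub W i w) ∧
    (∀ w, Seen t k (sub W i) w → ¬ Rvl t k (sub W i) w → sub W i w ≤ sub W' i w) := by
  constructor
  · intro w hw
    exact h1 (i :: w) (td_rvl_cons hi (Or.inr hw))
  · intro w hw hnw
    refine h2 (i :: w) ?_ ?_
    · obtain ⟨p, l, rfl, hp⟩ := hw
      refine ⟨i :: p, l, rfl, Or.inr (td_rvl_cons hi hp)⟩
    · intro h
      obtain ⟨p, l, rfl, hp⟩ := hw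
      exact hnw (td_rvl_of_cons (by simp) h)

/-- the children with time `< m ≤ t` -/
theorem td_child {D : Type} {t m : ℝ} {k : ℕ} {W W' : TC D} (hm : m ≤ t)
    (h1 : ∀ w, Rvl t (k + 1) W w → W' w = W w)
    (h2 : ∀ w, Seen t (k + 1) W w → ¬ Rvl t (k + 1) W w → W w ≤ W' w) (i : D) :
    (W [i] ≤ t ∧ W' [i] = W [i]) ∨ (¬ W [i] < m ∧ ¬ W' [i] < m) := by
  by_cases hi : W [i] ≤ t
  · left
    exact ⟨hi, h1 [i] (td_rvl_cons hi (Or.inl rfl))⟩
  · right
    have h3 : W [i] ≤ W' [i] := by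
      refine h2 [i] ⟨[], i, rfl, Or.inl rfl⟩ ?_
      intro h
      exact hi (h.2.2 [i] (by simp) (List.prefix_refl _))
    rw [not_le] at hi
    exact ⟨not_lt.2 (hm.trans hi.le), not_lt.2 (hm.trans (hi.le.trans h3))⟩

theorem td_avail {D : Type} [Fintype D] {κ : ℕ} {t : ℝ} (k : ℕ) :
    ∀ (b : Bool) (v : ℝ) (W W' : TC D), v ≤ t →
    (∀ w, Rvl t k W w → W' w = W w) →
    (∀ w, Seen t k W w → ¬ Rvl t k W w → W w ≤ W' w) →
    (avail κ b k W v ↔ avail κ b k W' v) := by
  induction k with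
  | zero =>
    intro b v W W' _ _ _
    simp [avail]
  | succ k ih =>
    intro b v W W' hv h1 h2
    classical
    have h3 : (Finset.univ.filter fun i : D => W [i] < v ∧ avail κ (!b) k (sub W i) (W [i]))
        = (Finset.univ.filter fun i : D => W' [i] < v ∧ avail κ (!b) k (sub W' i) (W' [i])) := by
      refine Finset.filter_congr ?_
      intro i _
      rcases td_child hv h1 h2 i with ⟨ha, hb⟩ | ⟨ha, hb⟩
      · rw [hb]
        obtain ⟨h4, h5⟩ := td_sub h1 h2 ha
        rw [ih (!b) (W [i]) (sub W i) (sub W' i) ha h4 h5]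
      · exact ⟨fun h => absurd h.1 ha, fun h => absurd h.1 hb⟩
    have h4 := congrArg (fun s => Finset.card s < κ) h3
    simp only [eq_iff_iff] at h4
    unfold avail
    convert h4

theorem rcnt_det {D : Type} [Fintype D] {κ K : ℕ} {b : Bool} {t m : ℝ} (hm : m ≤ t)
    {W W' : TC D} (h1 : ∀ w, Rvl t (K + 1) W w → W' w = W w)
    (h2 : ∀ w, Seen t (K + 1) W w → ¬ Rvl t (K + 1) W w → W w ≤ W' w) :
    rcnt κ b K W m = rcnt κ b K W' m := by
  classical
  unfold rcnt
  congr 1
  ext i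
  simp only [Finset.mem_filter, Finset.mem_univ, true_and]
  rcases td_child hm h1 h2 i with ⟨ha, hb⟩ | ⟨ha, hb⟩
  · rw [hb]
    obtain ⟨h4, h5⟩ := td_sub h1 h2 ha
    rw [td_avail K b (W [i]) (sub W i) (sub W' i) ha h4 h5]
  · exact ⟨fun h => absurd h.1 ha, fun h => absurd h.1 hb⟩

end H42.CD
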