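import Pool.Agent.H42.CD.Tree
import Pool.Agent.H42.CD.TDet
import Pool.Agent.H42.CD.MLBasic

/-!
# Module TBLOCK: probability of the block events on the forest

`tblock`: integrate over `u` first (Fubini). For fixed `u` with `u j ≤ t ≤ 1` for `j ≥ j0` (and `0 ≤ u j`
almost surely) the events of the different roots are independent (`Measure.pi_pi`) and
`P(rcnt κ b K (W j) M + 1 < κ) = bcdf n (κ-1) (∫_0^M qn n κ b K) = Fn n κ b K (n * M)` (`prob_rcnt`;
`rcnt + 1 < κ ↔ rcnt < κ - 1`), `M = max (u j) (u (j+1))`. The variables `u j` with `j < j0` are free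
(probability 1), those with `j0 ≤ j < a` or `a + L < j` give a factor `t` each, and
`∫_{[0,t]^{L+1}} ∏_{a ≤ j < a+L} Fn n κ b K (n * max (u j) (u (j+1))) = n^{-(L+1)} mL (Fn n κ b K) (n t) L`
by the substitution `u = v / n` and by Fubini (unfold `mL`, `kit`: induction on `L`).
A convenient formulation of the last step: with `G' x = G (n x)`, `mL G' t L = n^{-(L+1)} mL G (n t) L` for
every `G` (`intervalIntegral.integral_comp_mul_left`), and, by induction on `L`, the integral over `Fin (L+1) → ℝ` of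
`∏ 1[u j ∈ [0,t]] ∏ G' (max (u j) (u (j+1)))` is `mL G' t L` for continuous `G'`.
(`n = card D ≥ 1`; `Fn` is only used on `[0, n t]`, where its argument is in `[0,1]`.)

`tblock_clean`: the roots which are not in `[a, a + L)` are independent of the rest and give a factor
`(1 - t) ^ n` each (`prob_clean`).
-/

open MeasureTheory Set Filter
open scoped ENNReal Topology

namespace H42.CD

namespace TBlk

/-! ### Iterated integrals along a path -/

/-- transfer recursion with site weights `F` and edge weights `E` -/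
noncomputable def TT (F : ℕ → ℝ → ℝ≥0∞) (E : ℕ → ℝ → ℝ → ℝ≥0∞) : ℕ → ℕ → ℝ → ℝ≥0∞
  | 0, i, x => F i x
  | m + 1, i, x => F i x * ∫⁻ y, E i x y * TT F E m (i + 1) y ∂unif

theorem lint_cons {m : ℕ} (f : (Fin (m + 1) → ℝ) → ℝ≥0∞) (hf : Measurable f) :
    ∫⁻ u, f u ∂(Measure.pi fun _ : Fin (m + 1) => unif)
      = ∫⁻ y, ∫⁻ u', f (Fin.cons y u') ∂(Measure.pi fun _ : Fin m => unif) ∂unif := by
  have h := measurePreserving_piFinSuccAbove (fun _ : Fin (m + 1) => unif) 0
  have hs := h.symm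
  rw [← hs.lintegral_comp hf, lintegral_prod]
  · refine lintegral_congr fun y => lintegral_congr fun u' => ?_
    congr 1
    exact Fin.insertNth_zero' y u'
  · exact (hf.comp hs.measurable).aemeasurable

theorem TT_meas {F : ℕ → ℝ → ℝ≥0∞} {E : ℕ → ℝ → ℝ → ℝ≥0∞} (hF : ∀ i, Measurable (F i))
    (hE : ∀ i, Measurable fun p : ℝ × ℝ => E i p.1 p.2) (m : ℕ) :
    ∀ i, Measurable (TT F E m i) := by
  induction m with
  | zero => intro i; exact hF i
  | succ m ih =>
    intro i
    have h1 : Measurable fun p : ℝ × ℝ => E i p.1 p.2 * TT F E m (i + 1) p.2 :=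
      (hE i).mul ((ih (i + 1)).comp measurable_snd)
    exact (hF i).mul h1.lintegral_prod_right'

theorem meas_cons (x : ℝ) (m : ℕ) :
    Measurable fun u' : Fin m → ℝ => (Fin.cons x u' : Fin (m + 1) → ℝ) := by
  rw [measurable_pi_iff]
  intro j
  refine Fin.cases ?_ (fun j => ?_) j
  · simp only [Fin.cons_zero]; exact measurable_const
  · simp only [Fin.cons_succ]; exact measurable_pi_apply j

/-- the integrand -/
theorem meas_path {F : ℕ → ℝ → ℝ≥0∞} {E : ℕ → ℝ → ℝ → ℝ≥0∞} (hF : ∀ i, Measurable (F i))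
    (hE : ∀ i, Measurable fun p : ℝ × ℝ => E i p.1 p.2) (m i : ℕ) :
    Measurable fun u : Fin (m + 1) → ℝ => (∏ j : Fin (m + 1), F (i + j) (u j)) *
        ∏ j : Fin m, E (i + j) (u j.castSucc) (u j.succ) := by
  refine Measurable.mul ?_ ?_
  · refine Finset.measurable_prod _ fun j _ => ?_
    exact (hF _).comp (measurable_pi_apply j)
  · refine Finset.measurable_prod _ fun j _ => ?_
    exact (hE (i + j)).comp (f := fun u : Fin (m + 1) → ℝ => (u j.castSucc, u j.succ))
      ((measurable_pi_apply _).prodMk (measurable_pi_apply _))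

theorem path_cons {F : ℕ → ℝ → ℝ≥0∞} {E : ℕ → ℝ → ℝ → ℝ≥0∞} (hF : ∀ i, Measurable (F i))
    (hE : ∀ i, Measurable fun p : ℝ × ℝ => E i p.1 p.2) (m : ℕ) :
    ∀ (i : ℕ) (x : ℝ), ∫⁻ u' : Fin m → ℝ,
      (∏ j : Fin (m + 1), F (i + j) ((Fin.cons x u' : Fin (m + 1) → ℝ) j)) *
        ∏ j : Fin m, E (i + j) ((Fin.cons x u' : Fin (m + 1) → ℝ) j.castSucc)
          ((Fin.cons x u' : Fin (m + 1) → ℝ) j.succ) ∂(Measure.pi fun _ : Fin m => unif)
        = TT F E m i x := by
  induction m with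
  | zero =>
    intro i x
    simp [TT]
  | succ m ih =>
    intro i x
    refine (lint_cons (fun u' : Fin (m + 1) → ℝ =>
      (∏ j : Fin (m + 2), F (i + j) ((Fin.cons x u' : Fin (m + 2) → ℝ) j)) *
        ∏ j : Fin (m + 1), E (i + j) ((Fin.cons x u' : Fin (m + 2) → ℝ) j.castSucc)
          ((Fin.cons x u' : Fin (m + 2) → ℝ) j.succ))
      ((meas_path hF hE (m + 1) i).comp (meas_cons x (m + 1)))).trans ?_
    rw [TT]
    have h2 : ∀ y : ℝ, ∫⁻ u' : Fin m → ℝ,
        (∏ j : Fin (m + 2), F (i + j)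
          ((Fin.cons x (Fin.cons y u' : Fin (m + 1) → ℝ) : Fin (m + 2) → ℝ) j)) *
        (∏ j : Fin (m + 1), E (i + j)
          ((Fin.cons x (Fin.cons y u' : Fin (m + 1) → ℝ) : Fin (m + 2) → ℝ) j.castSucc)
          ((Fin.cons x (Fin.cons y u' : Fin (m + 1) → ℝ) : Fin (m + 2) → ℝ) j.succ))
          ∂(Measure.pi fun _ : Fin m => unif)
        = F i x * (E i x y * TT F E m (i + 1) y) := by
      intro y
      rw [← ih (i + 1) y, ← mul_assoc, ← lintegral_const_mul]
      · refine lintegral_congr fun u' => ?_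
        rw [Fin.prod_univ_succ, Fin.prod_univ_succ (n := m) (f := fun j : Fin (m + 1) =>
          E (i + j)
          ((Fin.cons x (Fin.cons y u' : Fin (m + 1) → ℝ) : Fin (m + 2) → ℝ) j.castSucc)
          ((Fin.cons x (Fin.cons y u' : Fin (m + 1) → ℝ) : Fin (m + 2) → ℝ) j.succ))]
        simp only [Fin.cons_zero, Fin.cons_succ, Fin.val_zero, add_zero, Fin.val_succ,
          Fin.castSucc_zero]
        have h3 : ∀ j : Fin m, (Fin.cons x (Fin.cons y u' : Fin (m + 1) → ℝ) :
            Fin (m + 2) → ℝ) (j.succ).castSucc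
            = (Fin.cons y u' : Fin (m + 1) → ℝ) j.castSucc := by
          intro j
          rw [← Fin.succ_castSucc, Fin.cons_succ]
        have h4 : ∀ j : ℕ, i + (j + 1) = i + 1 + j := fun j => by ring
        have h5 : ∏ j : Fin m, E (i + ((j : ℕ) + 1))
            ((Fin.cons x (Fin.cons y u' : Fin (m + 1) → ℝ) :
              Fin (m + 2) → ℝ) (j.succ).castSucc) (u' j)
            = ∏ j : Fin m, E (i + 1 + j) ((Fin.cons y u' : Fin (m + 1) → ℝ) j.castSucc)
              (u' j) :=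
          Finset.prod_congr rfl fun j _ => by rw [h3, h4]
        have h6 : ∏ j : Fin (m + 1), F (i + ((j : ℕ) + 1))
            ((Fin.cons y u' : Fin (m + 1) → ℝ) j)
            = ∏ j : Fin (m + 1), F (i + 1 + j) ((Fin.cons y u' : Fin (m + 1) → ℝ) j) :=
          Finset.prod_congr rfl fun j _ => by rw [h4]
        rw [h5, h6]
        ring
      · exact (meas_path hF hE m (i + 1)).comp (meas_cons y m)
    refine (lintegral_congr h2).trans ?_
    rw [lintegral_const_mul]
    have h1 : Measurable fun p : ℝ × ℝ => E i p.1 p.2 * TT F E m (i + 1) p.2 :=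
      (hE i).mul ((TT_meas hF hE m (i + 1)).comp measurable_snd)
    exact h1.comp measurable_prodMk_left

theorem path_int {F : ℕ → ℝ → ℝ≥0∞} {E : ℕ → ℝ → ℝ → ℝ≥0∞} (hF : ∀ i, Measurable (F i))
    (hE : ∀ i, Measurable fun p : ℝ × ℝ => E i p.1 p.2) (m i : ℕ) :
    ∫⁻ u : Fin (m + 1) → ℝ,
      (∏ j : Fin (m + 1), F (i + j) (u j)) *
        ∏ j : Fin m, E (i + j) (u j.castSucc) (u j.succ) ∂(Measure.pi fun _ : Fin (m + 1) => unif)
        = ∫⁻ x, TT F E m i x ∂unif := by
  rw [lint_cons _ (meas_path hF hE m i)]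
  exact lintegral_congr fun x => path_cons hF hE m i x

/-! ### Evaluation -/

/-- the core integral -/
noncomputable def KE (G : ℝ → ℝ≥0∞) (f : ℝ → ℝ≥0∞) : ℕ → ℝ → ℝ≥0∞
  | 0, _ => 1
  | r + 1, x => ∫⁻ y, G (max x y) * (f y * KE G f r y) ∂unif

theorem KE_meas {G f : ℝ → ℝ≥0∞} (hG : Measurable G) (hf : Measurable f) (r : ℕ) :
    Measurable (KE G f r) := by
  induction r with
  | zero => exact measurable_const
  | succ r ih =>
    have h1 : Measurable fun p : ℝ × ℝ => G (max p.1 p.2) * (f p.2 * KE G f r p.2) :=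
      (hG.comp (measurable_fst.max measurable_snd)).mul
        ((hf.comp measurable_snd).mul (ih.comp measurable_snd))
    exact h1.lintegral_prod_right'

/-- site weights -/
noncomputable def Fw (j0 : ℕ) (f : ℝ → ℝ≥0∞) : ℕ → ℝ → ℝ≥0∞ :=
  fun j y => if j0 ≤ j then f y else 1

/-- edge weights -/
noncomputable def Ew (a L : ℕ) (G : ℝ → ℝ≥0∞) (c : ℝ≥0∞) : ℕ → ℝ → ℝ → ℝ≥0∞ :=
  fun j x y => if a ≤ j ∧ j < a + L then G (max x y) else c

theorem Fw_meas {j0 : ℕ} {f : ℝ → ℝ≥0∞} (hf : Measurable f) (j : ℕ) : Measurable (Fw j0 f j) := by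
  unfold Fw
  by_cases h : j0 ≤ j
  · simp only [h, if_true]; exact hf
  · simp only [h, if_false]; exact measurable_const

theorem Ew_meas {a L : ℕ} {G : ℝ → ℝ≥0∞} {c : ℝ≥0∞} (hG : Measurable G) (j : ℕ) :
    Measurable fun p : ℝ × ℝ => Ew a L G c j p.1 p.2 := by
  by_cases h : a ≤ j ∧ j < a + L
  · simp only [Ew, if_pos h]; exact hG.comp (measurable_fst.max measurable_snd)
  · simp only [Ew, if_neg h]; exact measurable_const

section eval

variable {a L j0 : ℕ} {G f : ℝ → ℝ≥0∞} {c : ℝ≥0∞}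

theorem evalC (hf : Measurable f) (hj : j0 ≤ a) (m : ℕ) :
    ∀ i x, a + L ≤ i → TT (Fw j0 f) (Ew a L G c) m i x
      = Fw j0 f i x * (c * ∫⁻ y, f y ∂unif) ^ m := by
  induction m with
  | zero => intro i x _; simp [TT]
  | succ m ih =>
    intro i x hi
    rw [TT]
    have h1 : ∀ y, Ew a L G c i x y * TT (Fw j0 f) (Ew a L G c) m (i + 1) y
        = (c * (c * ∫⁻ y, f y ∂unif) ^ m) * f y := by
      intro y
      rw [ih (i + 1) y (by omega)]
      simp only [Ew, Fw]
      rw [if_neg (by omega), if_pos (by omega)]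
      ring
    rw [lintegral_congr h1, lintegral_const_mul _ hf]
    ring

theorem evalB (hG : Measurable G) (hf : Measurable f) (hj : j0 ≤ a) (r : ℕ) :
    ∀ m i x, i + r = a + L → r ≤ L → r ≤ m → TT (Fw j0 f) (Ew a L G c) m i x
      = Fw j0 f i x * (KE G f r x * (c * ∫⁻ y, f y ∂unif) ^ (m - r)) := by
  induction r with
  | zero => intro m i x hi _ _; rw [evalC hf hj m i x (by omega)]; simp [KE]
  | succ r ih =>
    intro m i x hi hr hm
    obtain ⟨m, rfl⟩ : ∃ m', m = m' + 1 := ⟨m - 1, by omega⟩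
    rw [TT]
    have h1 : ∀ y, Ew a L G c i x y * TT (Fw j0 f) (Ew a L G c) m (i + 1) y
        = (c * ∫⁻ y, f y ∂unif) ^ (m - r) * (G (max x y) * (f y * KE G f r y)) := by
      intro y
      rw [ih m (i + 1) y (by omega) (by omega) (by omega)]
      simp only [Ew, Fw]
      rw [if_pos (by omega), if_pos (by omega)]
      ring
    rw [lintegral_congr h1, lintegral_const_mul, KE]
    · rw [show m + 1 - (r + 1) = m - r by omega]
      ring
    · have h1 : Measurable fun p : ℝ × ℝ => G (max p.1 p.2) * (f p.2 * KE G f r p.2) :=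
        (hG.comp (measurable_fst.max measurable_snd)).mul
          ((hf.comp measurable_snd).mul ((KE_meas hG hf r).comp measurable_snd))
      exact h1.comp measurable_prodMk_left

theorem evalA (hG : Measurable G) (hf : Measurable f) (hj : j0 ≤ a) (r : ℕ) :
    ∀ m i, i + r = a → r + L ≤ m → ∫⁻ x, TT (Fw j0 f) (Ew a L G c) m i x ∂unif
      = (∫⁻ x, f x * KE G f L x ∂unif) * (c ^ (m - L) *
        (∫⁻ y, f y ∂unif) ^ (i + m + 1 - max i j0 - (L + 1))) := by
  induction r with
  | zero =>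
    intro m i hi hm
    have h1 : ∀ x, TT (Fw j0 f) (Ew a L G c) m i x
        = (c * ∫⁻ y, f y ∂unif) ^ (m - L) * (f x * KE G f L x) := by
      intro x
      rw [evalB hG hf hj L m i x (by omega) le_rfl (by omega)]
      simp only [Fw]
      rw [if_pos (by omega)]
      ring
    rw [lintegral_congr h1, lintegral_const_mul]
    swap
    · exact hf.mul (KE_meas hG hf L)
    rw [show i + m + 1 - max i j0 - (L + 1) = m - L by
      rw [max_eq_left (by omega)]; omega]
    ring
  | succ r ih =>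
    intro m i hi hm
    obtain ⟨m, rfl⟩ : ∃ m', m = m' + 1 := ⟨m - 1, by omega⟩
    have h1 : ∀ x, TT (Fw j0 f) (Ew a L G c) (m + 1) i x
        = Fw j0 f i x * (c * ((∫⁻ x, f x * KE G f L x ∂unif) * (c ^ (m - L) *
        (∫⁻ y, f y ∂unif) ^ (i + 1 + m + 1 - max (i + 1) j0 - (L + 1))))) := by
      intro x
      have h2 : ∀ y, Ew a L G c i x y * TT (Fw j0 f) (Ew a L G c) m (i + 1) y
          = c * TT (Fw j0 f) (Ew a L G c) m (i + 1) y := by
        intro y
        simp only [Ew]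
        rw [if_neg (by omega)]
      rw [TT, ← ih m (i + 1) (by omega) (by omega), lintegral_congr h2, lintegral_const_mul]
      exact TT_meas (Fw_meas hf) (Ew_meas hG) m (i + 1)
    rw [lintegral_congr h1, lintegral_mul_const _ (Fw_meas hf i)]
    by_cases h : j0 ≤ i
    · have h2 : ∫⁻ x, Fw j0 f i x ∂unif = ∫⁻ y, f y ∂unif := by
        refine lintegral_congr fun x => ?_
        simp only [Fw]
        rw [if_pos h]
      rw [h2]
      have h3 : i + (m + 1) + 1 - max i j0 - (L + 1)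
          = (i + 1 + m + 1 - max (i + 1) j0 - (L + 1)) + 1 := by
        rw [max_eq_left h, max_eq_left (by omega)]; omega
      have h4 : m + 1 - L = (m - L) + 1 := by omega
      rw [h3, h4]
      ring
    · have h2 : ∫⁻ x, Fw j0 f i x ∂unif = 1 := by
        have : ∀ x, Fw j0 f i x = 1 := fun x => by simp only [Fw]; rw [if_neg h]
        rw [lintegral_congr this]; simp
      rw [h2]
      have h3 : i + (m + 1) + 1 - max i j0 - (L + 1)
          = (i + 1 + m + 1 - max (i + 1) j0 - (L + 1)) := by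
        rw [max_eq_right (by omega), max_eq_right (by omega)]; omega
      have h4 : m + 1 - L = (m - L) + 1 := by omega
      rw [h3, h4]
      ring

end eval

/-! ### Real integrals -/

/-- the weight of a time -/
noncomputable def fw (t : ℝ) : ℝ → ℝ≥0∞ := (Iic t).indicator 1

theorem fw_meas (t : ℝ) : Measurable (fw t) :=
  measurable_one.indicator measurableSet_Iic

theorem lint_fw {t : ℝ} (h0 : 0 ≤ t) (h1 : t ≤ 1) {h : ℝ → ℝ} (hc : Continuous h)
    (hn : ∀ y, 0 ≤ y → y ≤ t → 0 ≤ h y) {H : ℝ → ℝ≥0∞}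
    (hH : ∀ y, 0 ≤ y → y ≤ t → H y = ENNReal.ofReal (h y)) :
    ∫⁻ y, fw t y * H y ∂unif = ENNReal.ofReal (∫ y in (0:ℝ)..t, h y) := by
  have e1 : ∀ y, fw t y * H y = (Iic t).indicator H y := by
    intro y
    unfold fw
    by_cases hy : y ∈ Iic t
    · rw [indicator_of_mem hy, indicator_of_mem hy]; simp
    · rw [indicator_of_notMem hy, indicator_of_notMem hy]; simp
  rw [lintegral_congr e1, lintegral_indicator measurableSet_Iic]
  unfold unif
  rw [Measure.restrict_restrict measurableSet_Iic]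
  have e2 : Iic t ∩ Icc (0:ℝ) 1 = Icc 0 t := by
    ext y
    simp only [mem_inter_iff, mem_Iic, mem_Icc]
    constructor
    · rintro ⟨h2, h3, _⟩; exact ⟨h3, h2⟩
    · rintro ⟨h2, h3⟩; exact ⟨h3, h2, h3.trans h1⟩
  rw [e2, setLIntegral_congr_fun measurableSet_Icc (fun y hy => hH y hy.1 hy.2),
    intervalIntegral.integral_of_le h0, ← integral_Icc_eq_integral_Ioc,
    ofReal_integral_eq_lintegral_ofReal]
  · exact hc.continuousOn.integrableOn_Icc
  · exact (ae_restrict_mem measurableSet_Icc).mono fun y hy => hn y hy.1 hy.2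

theorem lint_fw_one {t : ℝ} (h0 : 0 ≤ t) (h1 : t ≤ 1) :
    ∫⁻ y, fw t y ∂unif = ENNReal.ofReal t := by
  have := lint_fw h0 h1 (h := fun _ => 1) continuous_const (fun _ _ _ => zero_le_one)
    (H := fun _ => 1) (fun _ _ _ => by simp)
  simpa using this

theorem KE_kit {t : ℝ} (h0 : 0 ≤ t) (h1 : t ≤ 1) {g : ℝ → ℝ} (hg : Continuous g)
    (hn : ∀ y, 0 ≤ y → y ≤ t → 0 ≤ g y) {G : ℝ → ℝ≥0∞}
    (hG : ∀ y, 0 ≤ y → y ≤ t → G y = ENNReal.ofReal (g y)) (r : ℕ) :
    ∀ x, 0 ≤ x → x ≤ t → KE G (fw t) r x = ENNReal.ofReal (kit g t r x) := by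
  induction r with
  | zero => intro x _ _; simp [KE, kit]
  | succ r ih =>
    intro x hx hx'
    have e1 : ∀ y, G (max x y) * (fw t y * KE G (fw t) r y)
        = fw t y * (G (max x y) * KE G (fw t) r y) := fun y => by ring
    rw [KE, kit, lintegral_congr e1]
    refine lint_fw h0 h1 ?_ ?_ ?_
    · exact (hg.comp (continuous_const.max continuous_id)).mul (kit_cont hg t r)
    · intro y hy hy'
      exact mul_nonneg (hn _ (le_max_of_le_left hx) (max_le hx' hy'))
        (kit_nonneg h0 hn r hy hy')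
    · intro y hy hy'
      rw [hG _ (le_max_of_le_left hx) (max_le hx' hy'), ih y hy hy', ENNReal.ofReal_mul]
      exact hn _ (le_max_of_le_left hx) (max_le hx' hy')

theorem kit_scale (g : ℝ → ℝ) {n : ℝ} (hn : 0 < n) (t : ℝ) (k : ℕ) :
    ∀ u, kit (fun x => g (n * x)) t k u = (1 / n) ^ k * kit g (n * t) k (n * u) := by
  induction k with
  | zero => intro u; simp [kit]
  | succ k ih =>
    intro u
    rw [kit, kit]
    have e1 : ∀ v, g (n * max u v) * kit (fun x => g (n * x)) t k v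
        = (1 / n) ^ k * (fun y => g (max (n * u) y) * kit g (n * t) k y) (n * v) := by
      intro v
      rw [ih v, mul_max_of_nonneg _ _ hn.le]
      ring
    simp only [e1]
    rw [intervalIntegral.integral_const_mul,
      intervalIntegral.integral_comp_mul_left
        (fun y => g (max (n * u) y) * kit g (n * t) k y) hn.ne']
    rw [mul_zero, smul_eq_mul, pow_succ]
    ring

theorem mL_scale (g : ℝ → ℝ) {n : ℝ} (hn : 0 < n) (t : ℝ) (L : ℕ) :
    mL (fun x => g (n * x)) t L = (1 / n) ^ (L + 1) * mL g (n * t) L := by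
  unfold mL
  simp only [kit_scale g hn t L]
  rw [intervalIntegral.integral_const_mul,
      intervalIntegral.integral_comp_mul_left (fun y => kit g (n * t) L y) hn.ne']
  rw [mul_zero, smul_eq_mul, pow_succ]
  ring

/-! ### The kernel -/

section kernel

variable {D : Type} [Fintype D] [Nonempty D] (κ : ℕ) (b : Bool) (K : ℕ)

/-- probability of the core condition -/
noncomputable def GG (D : Type) [Fintype D] (κ : ℕ) (b : Bool) (K : ℕ) (y : ℝ) : ℝ≥0∞ :=
  lawT D {W | rcnt κ b K W y + 1 < κ}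

omit [Nonempty D] in
theorem GG_meas : Measurable (GG D κ b K) := by
  have h1 : MeasurableSet {p : TC D × ℝ | rcnt κ b K p.1 p.2 + 1 < κ} := by
    have := meas_rcnt (D := D) κ b K
    exact this (MeasurableSet.of_discrete (s := {r : ℕ | r + 1 < κ}))
  exact measurable_measure_prodMk_right (μ := lawT D) h1

theorem bcdf_cont (n m : ℕ) : Continuous (bcdf n m) := by
  unfold bcdf
  fun_prop

theorem Fn_scale (n : ℕ) (hn : 0 < n) (y : ℝ) :
    Fn n κ b K (n * y) = bcdf n (κ - 1) (∫ x in (0:ℝ)..y, qn n κ b K x) := by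
  unfold Fn
  have : (n:ℝ) ≠ 0 := by positivity
  rw [mul_div_cancel_left₀ _ this]

theorem Fn_cont (n : ℕ) (hn : 0 < n) : Continuous fun y : ℝ => Fn n κ b K (n * y) := by
  simp only [Fn_scale κ b K n hn]
  refine (bcdf_cont n (κ - 1)).comp ?_
  exact intervalIntegral.continuous_primitive (fun a b' => (qn_cont n κ b K).intervalIntegrable a b') 0

theorem int_qn_mem (n : ℕ) {y : ℝ} (h0 : 0 ≤ y) (h1 : y ≤ 1) :
    (∫ x in (0:ℝ)..y, qn n κ b K x) ∈ Icc (0:ℝ) 1 := by
  constructor
  · exact intervalIntegral.integral_nonneg h0 fun x hx =>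
      (qn_mem n κ b K hx.1 (hx.2.trans h1)).1
  · have h2 : (∫ x in (0:ℝ)..y, qn n κ b K x) ≤ ∫ _x in (0:ℝ)..y, (1:ℝ) :=
      intervalIntegral.integral_mono_on h0 ((qn_cont n κ b K).intervalIntegrable 0 y)
        (continuous_const.intervalIntegrable 0 y)
        fun x hx => (qn_mem n κ b K hx.1 (hx.2.trans h1)).2
    simp only [intervalIntegral.integral_const, sub_zero, smul_eq_mul, mul_one] at h2
    exact h2.trans h1

theorem Fn_nonneg (n : ℕ) (hn : 0 < n) {y : ℝ} (h0 : 0 ≤ y) (h1 : y ≤ 1) :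
    0 ≤ Fn n κ b K (n * y) := by
  rw [Fn_scale κ b K n hn]
  have h2 := int_qn_mem κ b K n h0 h1
  exact (bcdf_mem n (κ - 1) h2.1 h2.2).1

theorem GG_eq {y : ℝ} (h0 : 0 ≤ y) (h1 : y ≤ 1) :
    GG D κ b K y = ENNReal.ofReal (Fn (Fintype.card D) κ b K (Fintype.card D * y)) := by
  rw [Fn_scale κ b K _ Fintype.card_pos, ← prob_rcnt κ b K (κ - 1) h0 h1]
  unfold GG
  congr 1
  ext W
  simp only [mem_ofPred_eq]
  omega

theorem core_int {t : ℝ} (h0 : 0 < t) (h1 : t ≤ 1) (L : ℕ) :
    ∫⁻ x, fw t x * KE (GG D κ b K) (fw t) L x ∂unif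
      = ENNReal.ofReal ((1 / (Fintype.card D : ℝ)) ^ (L + 1) *
          mL (Fn (Fintype.card D) κ b K) (Fintype.card D * t) L) := by
  have hn : 0 < Fintype.card D := Fintype.card_pos
  have hn' : (0:ℝ) < Fintype.card D := by exact_mod_cast hn
  rw [← mL_scale _ hn']
  have hnn : ∀ y, 0 ≤ y → y ≤ t → 0 ≤ Fn (Fintype.card D) κ b K (Fintype.card D * y) :=
    fun y hy hy' => Fn_nonneg κ b K _ hn hy (hy'.trans h1)
  have hc := Fn_cont κ b K _ hn
  refine lint_fw h0.le h1 (kit_cont hc t L) ?_ ?_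
  · intro y hy hy'
    exact kit_nonneg h0.le hnn L hy hy'
  · intro y hy hy'
    exact KE_kit h0.le h1 hc hnn (fun y hy hy' => GG_eq κ b K hy (hy'.trans h1)) L y hy hy'

end kernel

theorem tblock_gen {D : Type} [Fintype D] [Nonempty D] (κ : ℕ) (b : Bool) (K a L m j0 : ℕ) {t : ℝ}
    (h0 : 0 < t) (h1 : t ≤ 1) (hj : j0 ≤ a) (ha : a + L < m + 1) (Sc : Set (TC D))
    (hSc : MeasurableSet Sc) :
    ((Measure.pi fun _ : Fin (m + 1) => unif).prod
      (Measure.pi fun _ : Fin (m + 1 - 1) => lawT D))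
        (timesT D j0 t ∩ coreT D κ b K a L ∩
          {q | ∀ j : Fin (m + 1 - 1), ¬ (a ≤ j.val ∧ j.val < a + L) → q.2 j ∈ Sc})
      = ENNReal.ofReal (t ^ (m + 1 - j0 - (L + 1)) * ((1 / (Fintype.card D : ℝ)) ^ (L + 1) *
          mL (Fn (Fintype.card D) κ b K) (Fintype.card D * t) L)) *
          (lawT D Sc) ^ (m + 1 - 1 - L) := by
  classical
  have hmS : MeasurableSet {q : (Fin (m + 1) → ℝ) × (Fin (m + 1 - 1) → TC D) |
      ∀ j : Fin (m + 1 - 1), ¬ (a ≤ j.val ∧ j.val < a + L) → q.2 j ∈ Sc} := by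
    have : {q : (Fin (m + 1) → ℝ) × (Fin (m + 1 - 1) → TC D) |
      ∀ j : Fin (m + 1 - 1), ¬ (a ≤ j.val ∧ j.val < a + L) → q.2 j ∈ Sc}
      = ⋂ j : Fin (m + 1 - 1), ⋂ _ : ¬ (a ≤ j.val ∧ j.val < a + L),
        (fun q : (Fin (m + 1) → ℝ) × (Fin (m + 1 - 1) → TC D) => q.2 j) ⁻¹' Sc := by
      ext q; simp
    rw [this]
    refine MeasurableSet.iInter fun j => MeasurableSet.iInter fun _ => ?_
    exact hSc.preimage ((measurable_pi_apply j).comp measurable_snd)
  rw [Measure.prod_apply (((meas_timesT D j0 t).inter (meas_coreT D κ b K a L)).inter hmS)]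
  have key : ∀ u : Fin (m + 1) → ℝ, (Measure.pi fun _ : Fin (m + 1 - 1) => lawT D)
      (Prod.mk u ⁻¹' (timesT D j0 t ∩ coreT D κ b K a L ∩
          {q | ∀ j : Fin (m + 1 - 1), ¬ (a ≤ j.val ∧ j.val < a + L) → q.2 j ∈ Sc}))
      = (∏ j : Fin (m + 1), Fw j0 (fw t) (0 + j) (u j)) *
        ∏ j : Fin m, Ew a L (GG D κ b K) (lawT D Sc) (0 + j) (u j.castSucc) (u j.succ) := by
    intro u
    by_cases hu : ∀ j : Fin (m + 1), j0 ≤ j.val → u j ≤ t
    · have e1 : (∏ j : Fin (m + 1), Fw j0 (fw t) (0 + j) (u j)) = 1 := by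
        refine Finset.prod_eq_one fun j _ => ?_
        simp only [Fw, zero_add]
        by_cases hj : j0 ≤ j.val
        · rw [if_pos hj]
          unfold fw
          rw [indicator_of_mem (show u j ∈ Iic t from hu j hj)]
          rfl
        · rw [if_neg hj]
      have e2 : (Prod.mk u ⁻¹' (timesT D j0 t ∩ coreT D κ b K a L ∩
          {q | ∀ j : Fin (m + 1 - 1), ¬ (a ≤ j.val ∧ j.val < a + L) → q.2 j ∈ Sc}))
          = Set.univ.pi fun j : Fin (m + 1 - 1) => if a ≤ j.val ∧ j.val < a + L then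
              {W | rcnt κ b K W (max (u ⟨j.val, by omega⟩) (u ⟨j.val + 1, by omega⟩)) + 1 < κ}
              else Sc := by
        ext W
        simp only [mem_preimage, mem_inter_iff, Set.mem_pi, mem_univ, true_imp_iff, timesT, coreT,
          mem_ofPred_eq]
        constructor
        · rintro ⟨⟨-, h3⟩, h4⟩ j
          by_cases hj : a ≤ j.val ∧ j.val < a + L
          · rw [if_pos hj]; exact h3 j hj.1 hj.2
          · rw [if_neg hj]; exact h4 j hj
        · intro h3
          refine ⟨⟨hu, fun j hj1 hj2 => ?_⟩, fun j hj => ?_⟩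
          · have := h3 j
            rw [if_pos ⟨hj1, hj2⟩] at this
            exact this
          · have := h3 j
            rw [if_neg hj] at this
            exact this
      rw [e1, e2, Measure.pi_pi, one_mul]
      refine Finset.prod_congr rfl fun j _ => ?_
      simp only [Ew, zero_add]
      by_cases hj : a ≤ j.val ∧ j.val < a + L
      · rw [if_pos hj, if_pos hj]
        rfl
      · rw [if_neg hj, if_neg hj]
    · have e1 : (∏ j : Fin (m + 1), Fw j0 (fw t) (0 + j) (u j)) = 0 := by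
        push Not at hu
        obtain ⟨j, hj, hj2⟩ := hu
        refine Finset.prod_eq_zero (Finset.mem_univ j) ?_
        simp only [Fw, zero_add]
        rw [if_pos hj]
        unfold fw
        rw [indicator_of_notMem (show ¬ (u j ∈ Iic t) from not_le.2 hj2)]
      have e2 : (Prod.mk u ⁻¹' (timesT D j0 t ∩ coreT D κ b K a L ∩
          {q | ∀ j : Fin (m + 1 - 1), ¬ (a ≤ j.val ∧ j.val < a + L) → q.2 j ∈ Sc})) = ∅ := by
        rw [Set.eq_empty_iff_forall_notMem]
        rintro W ⟨⟨h3, -⟩, -⟩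
        exact hu h3
      rw [e1, e2]; simp
  rw [lintegral_congr key, path_int (Fw_meas (fw_meas t)) (Ew_meas (GG_meas κ b K)) m 0,
    evalA (GG_meas κ b K) (fw_meas t) hj a m 0 (by omega) (by omega), core_int κ b K h0 h1,
    lint_fw_one h0.le h1]
  have e3 : 0 + m + 1 - max 0 j0 - (L + 1) = m + 1 - j0 - (L + 1) := by
    rw [max_eq_right (by omega)]; omega
  rw [e3, ENNReal.ofReal_mul (p := t ^ (m + 1 - j0 - (L + 1))) (by positivity),
    ENNReal.ofReal_pow h0.le]
  have e4 : m + 1 - 1 - L = m - L := by omega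
  rw [e4]
  ring

end TBlk

open TBlk

theorem tblock {D : Type} [Fintype D] [Nonempty D] (κ : ℕ) (b : Bool) (K a L len j0 : ℕ) {t : ℝ}
    (h0 : 0 < t) (h1 : t ≤ 1) (hj : j0 ≤ a) (ha : a + L < len) :
    ((Measure.pi fun _ : Fin len => unif).prod (Measure.pi fun _ : Fin (len - 1) => lawT D))
        (timesT D j0 t ∩ coreT D κ b K a L)
      = ENNReal.ofReal (t ^ (len - j0 - (L + 1)) * ((1 / (Fintype.card D : ℝ)) ^ (L + 1) *
          mL (Fn (Fintype.card D) κ b K) (Fintype.card D * t) L)) := by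
  obtain ⟨m, rfl⟩ : ∃ m, len = m + 1 := ⟨len - 1, by omega⟩
  have h := tblock_gen κ b K a L m j0 h0 h1 hj ha (univ : Set (TC D)) MeasurableSet.univ
  simpa using h

theorem tblock_clean {D : Type} [Fintype D] [Nonempty D] (κ : ℕ) (b : Bool) (K a L len j0 : ℕ)
    {t : ℝ} (h0 : 0 < t) (h1 : t ≤ 1) (hj : j0 ≤ a) (ha : a + L < len) :
    ((Measure.pi fun _ : Fin len => unif).prod (Measure.pi fun _ : Fin (len - 1) => lawT D))
        (timesT D j0 t ∩ coreT D κ b K a L ∩ cleanT D t a L)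
      = ENNReal.ofReal (t ^ (len - j0 - (L + 1)) * ((1 / (Fintype.card D : ℝ)) ^ (L + 1) *
          mL (Fn (Fintype.card D) κ b K) (Fintype.card D * t) L) *
          ((1 - t) ^ Fintype.card D) ^ (len - 1 - L)) := by
  obtain ⟨m, rfl⟩ : ∃ m, len = m + 1 := ⟨len - 1, by omega⟩
  have hS : MeasurableSet {W : TC D | ∀ l : D, t < W [l]} := by
    have : {W : TC D | ∀ l : D, t < W [l]} = ⋂ l : D, {W : TC D | t < W [l]} := by
      ext W; simp
    rw [this]
    exact MeasurableSet.iInter fun l => measurableSet_lt measurable_const (measurable_pi_apply _)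
  have h := tblock_gen κ b K a L m j0 h0 h1 hj ha {W : TC D | ∀ l : D, t < W [l]} hS
  rw [prob_clean h0.le h1, ← ENNReal.ofReal_pow (pow_nonneg (by linarith) _),
    ← ENNReal.ofReal_mul' (pow_nonneg (pow_nonneg (by linarith) _) _)] at h
  exact h

end H42.CD
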