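import Pool.Agent.H42.CD.Transfer
import Pool.Agent.H42.CD.TBlock
import Pool.Agent.H42.CD.NotGood
import Pool.Agent.H42.CD.Lim
import Pool.Agent.H42.CD.Defs2

/-!
# Module BLOCKLOW: lower bound for the probability of a certified block

`t = s/(2d)`, `n = 2 d`. Extended word: `w 0 = p`, `w (i+1) = v i` for `i < 2h+T` (anything beyond),
`len = 2h + T + 1 ≥ 3`, `x = y - stp p`; so `pos x w (i+1) = y + bpos v i` for `i ≤ 2h+T`. `WordOK w len` holds.
Vertex `i` of the block is the root `j = i`; it is entered by the letter `w i = inl p v i` and left by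
`w (i+1) = v i`. Core vertices: `j ∈ [h+1, h+T) = [a, a + L)` with `a = h+1`, `L = T - 1`.
For `U ≤ 1`: if `(pathT, pathF) ∈ timesT 1 t ∩ coreT κ true K a L ∩ cleanT t a L` then `U ∈ BlkEv`
(`side_eq_rcnt`, `pull_single`).
Let `A` be this set. Its sections are `UpClosed t (K+1)` (`rcnt_det`; the clean condition says that no word
`[l]` of that root is revealed). `transfer` gives `lawU (BlkEv) ≥ P_T(A ∧ Good) ≥ P_T(A) - P_T(timesT 1 t ∧ ¬ Good)
 ≥ t^(2h+T) ((1/s)^T mL (Fn n κ true K) s (T-1) ((1-t)^n)^(2h+1) - C/d)`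
by `tblock_clean` (`len - 1 - (L+1) = 2h`, `(1/n)^T = t^T (1/s)^T`) and `not_good_le`. As `d → ∞`,
`(1 - s/n)^n → exp(-s)` and `mL_lim`.
-/

open MeasureTheory Set Filter
open scoped ENNReal Topology

namespace H42.CD

/-- extended word of a block -/
def bl_w {d n : ℕ} (p : Dir d) (v : Fin n → Dir d) : ℕ → Dir d
  | 0 => p
  | i + 1 => if h : i < n then v ⟨i, h⟩ else p

theorem bl_w_succ {d n : ℕ} (p : Dir d) (v : Fin n → Dir d) (i : Fin n) :
    bl_w p v (i.val + 1) = v i := by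
  simp [bl_w]

theorem bl_w_inl {d n : ℕ} (p : Dir d) (v : Fin n → Dir d) (i : Fin n) :
    bl_w p v i.val = inl p v i := by
  rcases i with ⟨i, hi⟩
  cases i with
  | zero => simp [bl_w, inl]
  | succ i => simp [bl_w, inl, show i < n by omega]

theorem bl_bpos_succ {d n : ℕ} (v : Fin n → Dir d) (i : Fin n) :
    bpos v (i.val + 1) = bpos v i.val + stp (v i) := by
  classical
  unfold bpos
  have h1 : stp (v i) = ∑ j : Fin n, if j = i then stp (v j) else 0 := by simp
  rw [h1, ← Finset.sum_add_distrib]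
  refine Finset.sum_congr rfl fun j _ => ?_
  by_cases h2 : j = i
  · subst h2
    simp
  · have h3 : j.val ≠ i.val := fun h => h2 (Fin.ext h)
    by_cases h4 : j.val < i.val
    · rw [if_pos (by omega), if_pos h4, if_neg h2, add_zero]
    · rw [if_neg (by omega), if_neg h4, if_neg h2, add_zero]

theorem bl_pos {d n : ℕ} (y : V d) (p : Dir d) (v : Fin n → Dir d) (i : ℕ) (hi : i ≤ n) :
    pos (y - stp p) (bl_w p v) (i + 1) = y + bpos v i := by
  induction i with
  | zero =>
    rw [pos_succ, pos_zero]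
    show y - stp p + stp p = _
    simp [bpos]
  | succ i ih =>
    rw [pos_succ, ih (by omega)]
    have h1 := bl_bpos_succ v ⟨i, by omega⟩
    have h2 := bl_w_succ p v ⟨i, by omega⟩
    simp only at h1 h2
    rw [h1, h2, add_assoc]

theorem bl_pe {d n : ℕ} (y : V d) (p : Dir d) (v : Fin n → Dir d) (i : Fin n) :
    pe (y - stp p) (bl_w p v) (i.val + 1) = bedge y v i := by
  unfold pe bedge
  rw [bl_pos y p v i.val i.2.le, bl_w_succ]

theorem bl_pe_in {d n : ℕ} (y : V d) (p : Dir d) (v : Fin n → Dir d) (i : Fin n) :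
    pe (y - stp p) (bl_w p v) i.val = ed (y + bpos v i.val) (rev (inl p v i)) := by
  unfold pe
  rw [← bl_pos y p v i.val i.2.le, pos_succ, bl_w_inl, ed_rev]

theorem bl_wordOK {d n : ℕ} (p : Dir d) (v : Fin n → Dir d) (hn : 2 ≤ n)
    (h1 : ∀ i j, (v i).1 = (v j).1 → i = j)
    (h2 : ∀ i : Fin n, i.val + 1 < n → p.1 ≠ (v i).1) : WordOK (bl_w p v) (n + 1) := by
  refine ⟨by omega, ?_⟩
  intro i j hij hj he
  obtain ⟨j, rfl⟩ : ∃ j', j = j' + 1 := ⟨j - 1, by omega⟩
  have hj' : j < n := by omega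
  have e1 := bl_w_succ p v ⟨j, hj'⟩
  simp only at e1
  rw [e1] at he
  cases i with
  | zero =>
    refine ⟨rfl, ?_⟩
    by_contra hne
    exact h2 ⟨j, hj'⟩ (by simp only; omega) he
  | succ i =>
    exfalso
    have e2 := bl_w_succ p v ⟨i, by omega⟩
    simp only at e2
    rw [e2] at he
    have := h1 _ _ he
    simp only [Fin.mk.injEq] at this
    omega

/-- the block event follows from the event about path times and forest -/
theorem bl_mem {d κ K h T : ℕ} {t : ℝ} (hT : 1 ≤ T) (h1 : t ≤ 1) (U : Edge d → ℝ)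
    (y : V d) (p : Dir d) (v : Fin (2 * h + T) → Dir d)
    (hA : (pathT (y - stp p) (bl_w p v) (2 * h + T + 1) U,
      pathF (y - stp p) (bl_w p v) (2 * h + T + 1) U) ∈
        timesT (Dir d) 1 t ∩ coreT (Dir d) κ true K (h + 1) (T - 1) ∩
          cleanT (Dir d) t (h + 1) (T - 1)) : U ∈ BlkEv κ K h T t y p v := by
  obtain ⟨⟨hti, hco⟩, hcl⟩ := hA
  have hti' : ∀ j, 1 ≤ j → j < 2 * h + T + 1 → U (pe (y - stp p) (bl_w p v) j) ≤ t :=
    fun j hj1 hj2 => hti ⟨j, hj2⟩ hj1
  refine ⟨?_, ?_, ?_⟩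
  · intro i
    rw [← bl_pe y p v i]
    exact hti' _ (by omega) (by omega)
  · intro i hi
    obtain ⟨hi1, hi2⟩ := hi
    rw [← bl_pe y p v i, ← bl_pe_in y p v i]
    have a1 := hti' i.val (by omega) (by omega)
    have a2 := hti' (i.val + 1) (by omega) (by omega)
    have hm : max (U (pe (y - stp p) (bl_w p v) i.val))
        (U (pe (y - stp p) (bl_w p v) (i.val + 1))) ≤ 2 :=
      max_le (by linarith) (by linarith)
    have h3 := hco ⟨i.val, by omega⟩ (by simp only; omega) (by simp only; omega)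
    have e3 : pathF (y - stp p) (bl_w p v) (2 * h + T + 1) U ⟨i.val, by omega⟩
        = pull U (y + bpos v i.val) {rev (inl p v i), v i} := by
      show pull U (pos (y - stp p) (bl_w p v) (i.val + 1))
        {rev (bl_w p v i.val), bl_w p v (i.val + 1)} = _
      rw [bl_pos y p v i.val i.2.le, bl_w_inl, bl_w_succ]
    simp only at h3
    rw [e3] at h3
    rw [← side_eq_rcnt true K U (y + bpos v i.val) (rev (inl p v i)) (v i) hm]
    exact h3
  · intro i hi l hl1 hl2
    have h3 := hcl ⟨i.val, by omega⟩ (by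
      simp only
      intro hh
      exact hi ⟨by omega, by omega⟩) l
    have e3 : pathF (y - stp p) (bl_w p v) (2 * h + T + 1) U ⟨i.val, by omega⟩
        = pull U (y + bpos v i.val) {rev (inl p v i), v i} := by
      show pull U (pos (y - stp p) (bl_w p v) (i.val + 1))
        {rev (bl_w p v i.val), bl_w p v (i.val + 1)} = _
      rw [bl_pos y p v i.val i.2.le, bl_w_inl, bl_w_succ]
    simp only at h3
    rw [e3, pull_single, if_neg (by simp [hl1, hl2])] at h3
    exact h3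

theorem bl_closed {D : Type} [Fintype D] {κ K a L len : ℕ} {t : ℝ} (ha : 1 ≤ a)
    (u : Fin len → ℝ) :
    UpClosed t (K + 1) {W : Fin (len - 1) → TC D |
      (u, W) ∈ timesT D 1 t ∩ coreT D κ true K a L ∩ cleanT D t a L} := by
  rintro W ⟨⟨hT, hC⟩, hcl⟩ W' h1 h2
  refine ⟨⟨hT, ?_⟩, ?_⟩
  · intro j hj1 hj2
    have hm : max (u ⟨j.val, by omega⟩) (u ⟨j.val + 1, by omega⟩) ≤ t :=
      max_le (hT _ (by simp only; omega)) (hT _ (by simp only; omega))
    have := hC j hj1 hj2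
    simp only at this ⊢
    rw [← rcnt_det hm (h1 j) (h2 j)]
    exact this
  · intro j hj l
    have h3 := hcl j hj l
    simp only at h3 ⊢
    refine lt_of_lt_of_le h3 (h2 j [l] ⟨[], l, rfl, Or.inl rfl⟩ ?_)
    intro h4
    exact absurd (h4.2.2 [l] (by simp) (List.prefix_refl _)) (not_le.2 h3)

theorem bl_times_tree {D : Type} {n : ℕ} {t : ℝ} (h1 : t ≤ 1) (h0 : 0 ≤ t)
    (E : Set (Fin (n + 1 - 1) → TC D)) :
    ((Measure.pi fun _ : Fin (n + 1) => unif).prod
      (Measure.pi fun _ : Fin (n + 1 - 1) => lawT D)) {q | q ∈ timesT D 1 t ∧ q.2 ∈ E}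
      = ENNReal.ofReal (t ^ n) * (Measure.pi fun _ : Fin (n + 1 - 1) => lawT D) E := by
  have h2 : {q : (Fin (n + 1) → ℝ) × (Fin (n + 1 - 1) → TC D) | q ∈ timesT D 1 t ∧ q.2 ∈ E}
      = (Set.pi univ fun j : Fin (n + 1) => if j = 0 then univ else Iic t) ×ˢ E := by
    ext q
    simp only [timesT, mem_ofPred_eq, mem_prod, Set.mem_pi, mem_univ, forall_true_left]
    refine and_congr_left fun _ => forall_congr' fun j => ?_
    by_cases hj : j = 0
    · subst hj
      simp
    · rw [if_neg hj]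
      have : 1 ≤ j.val := by
        rcases Nat.eq_zero_or_pos j.val with h | h
        · exact absurd (Fin.ext h) hj
        · exact h
      exact ⟨fun h => h this, fun h _ => h⟩
  rw [h2, Measure.prod_prod, Measure.pi_pi, Fin.prod_univ_succ]
  have h3 : ∀ j : Fin n, unif (if (j.succ : Fin (n + 1)) = 0 then univ else Iic t)
      = ENNReal.ofReal t := by
    intro j
    rw [if_neg (Fin.succ_ne_zero j), ind_unif_Iic h1]
  rw [Finset.prod_congr rfl fun j _ => h3 j, Finset.prod_const, ← ENNReal.ofReal_pow h0]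
  simp

theorem block_low {κ K h T : ℕ} (hκ : 2 ≤ κ) (hh : 1 ≤ h) (hT : 1 ≤ T) {s ψ : ℝ} (hs : 0 < s)
    (hψ : ψ < Real.exp (-s * (2 * h + 1)) * ((1 / s) ^ T * mL (FF κ true K) s (T - 1))) :
    ∃ d0 : ℕ, ∀ d, d0 ≤ d → ∀ (y : V d) (p : Dir d) (v : Fin (2 * h + T) → Dir d),
      (∀ i j, (v i).1 = (v j).1 → i = j) →
      (∀ i : Fin (2 * h + T), i.val + 1 < 2 * h + T → p.1 ≠ (v i).1) →
      ENNReal.ofReal (ψ * (s / (2 * d)) ^ (2 * h + T))
        ≤ lawU d (BlkEv κ K h T (s / (2 * d)) y p v) := by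
  obtain ⟨C, hC0, hC⟩ := not_good_le (2 * h + T + 1 - 1) (K + 1) (2 * h + T + 1) hs
  have hdd : Tendsto (fun d : ℕ => d * 2) atTop atTop :=
    tendsto_atTop_mono (fun n => by simp only [id]; omega) tendsto_id
  -- the limit
  have hexp : Tendsto (fun d : ℕ => ((1 - s / ((d * 2 : ℕ) : ℝ)) ^ (d * 2)) ^ (2 * h + 1))
      atTop (𝓝 (Real.exp (-s) ^ (2 * h + 1))) := by
    refine Tendsto.pow ?_ _
    have h3 := (Real.tendsto_one_add_div_pow_exp (-s)).comp hdd
    refine h3.congr fun d => ?_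
    simp only [Function.comp]
    congr 1
    ring
  have hlim : Tendsto (fun d : ℕ => ((1 / s) ^ T * mL (Fn (d * 2) κ true K) s (T - 1)) *
      ((1 - s / ((d * 2 : ℕ) : ℝ)) ^ (d * 2)) ^ (2 * h + 1) - C / d)
      atTop (𝓝 (((1 / s) ^ T * mL (FF κ true K) s (T - 1)) * Real.exp (-s) ^ (2 * h + 1) - 0)) := by
    refine Tendsto.sub ?_ (tendsto_const_div_atTop_nhds_zero_nat C)
    refine Tendsto.mul ?_ hexp
    refine Tendsto.const_mul _ ?_
    exact (mL_lim κ true K (T - 1) hs).comp hdd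
  have hψ' : ψ < ((1 / s) ^ T * mL (FF κ true K) s (T - 1)) * Real.exp (-s) ^ (2 * h + 1) - 0 := by
    have e : Real.exp (-s) ^ (2 * h + 1) = Real.exp (-s * (2 * h + 1)) := by
      rw [← Real.exp_nat_mul]
      congr 1
      push_cast
      ring
    rw [sub_zero, e, mul_comm]
    exact hψ
  have ev1 := hlim.eventually (lt_mem_nhds hψ')
  have ev3 : ∀ᶠ d : ℕ in atTop, s ≤ (d : ℝ) :=
    tendsto_natCast_atTop_atTop.eventually (eventually_ge_atTop s)
  obtain ⟨d0, hd0⟩ := eventually_atTop.1 (ev1.and (ev3.and (eventually_ge_atTop 1)))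
  refine ⟨d0, ?_⟩
  intro d hd y p v hv1 hv2
  obtain ⟨g1, g3, g4⟩ := hd0 d hd
  have hdpos : (0 : ℝ) < d := by exact_mod_cast g4
  set t : ℝ := s / (2 * d) with ht
  have ht0 : 0 < t := by positivity
  have ht1 : t ≤ 1 := by
    rw [ht, div_le_one (by positivity)]
    linarith
  have hwok : WordOK (bl_w p v) (2 * h + T + 1) := bl_wordOK p v (by omega) hv1 hv2
  set PT := ((Measure.pi fun _ : Fin (2 * h + T + 1) => unif).prod
        (Measure.pi fun _ : Fin (2 * h + T + 1 - 1) => lawT (Dir d))) with hPT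
  set A : Set ((Fin (2 * h + T + 1) → ℝ) × (Fin (2 * h + T + 1 - 1) → TC (Dir d))) :=
    timesT (Dir d) 1 t ∩ coreT (Dir d) κ true K (h + 1) (T - 1) ∩
      cleanT (Dir d) t (h + 1) (T - 1) with hA
  have hAm : MeasurableSet A :=
    ((meas_timesT _ _ _).inter (meas_coreT _ _ _ _ _ _)).inter (meas_cleanT _ _ _ _)
  have htr := transfer (k := K + 1) ht0.le ht1 (y - stp p) (bl_w p v) hwok A hAm
    (fun u => bl_closed (by omega) u)
  have hsub : lawU d {U | (pathT (y - stp p) (bl_w p v) (2 * h + T + 1) U,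
      pathF (y - stp p) (bl_w p v) (2 * h + T + 1) U) ∈ A ∧
        Good t (K + 1) (crd (bl_w p v) (2 * h + T + 1)) (pathF (y - stp p) (bl_w p v) (2 * h + T + 1) U)}
      ≤ lawU d (BlkEv κ K h T t y p v) := by
    refine measure_mono ?_
    rintro U ⟨hU, -⟩
    exact bl_mem hT ht1 U y p v hU
  refine le_trans ?_ (htr.trans hsub)
  have : Nonempty (Dir d) := ⟨(⟨0, g4⟩, true)⟩
  have hPA : PT A = ENNReal.ofReal (t ^ (2 * h + T) * (((1 / s) ^ T * mL (Fn (d * 2) κ true K) s (T - 1)) *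
      ((1 - s / ((d * 2 : ℕ) : ℝ)) ^ (d * 2)) ^ (2 * h + 1))) := by
    rw [hPT, hA, tblock_clean κ true K (h + 1) (T - 1) (2 * h + T + 1) 1 ht0 ht1 (by omega) (by omega)]
    have e1 : Fintype.card (Dir d) = d * 2 := by
      simp [Dir]
    rw [e1]
    congr 1
    have e2 : ((d * 2 : ℕ) : ℝ) * t = s := by
      rw [ht]; push_cast; field_simp
    have e3 : (1 / ((d * 2 : ℕ) : ℝ)) = t * (1 / s) := by
      rw [ht]; push_cast; field_simp
    have e6 : s / ((d * 2 : ℕ) : ℝ) = t := by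
      rw [ht]; push_cast; ring
    rw [e2, e3, e6, mul_pow]
    have e4 : 2 * h + T + 1 - 1 - (T - 1 + 1) = 2 * h := by omega
    have e5 : 2 * h + T + 1 - 1 - (T - 1) = 2 * h + 1 := by omega
    have e7 : T - 1 + 1 = T := by omega
    rw [e4, e5, e7, pow_add t (2 * h) T]
    ring
  have hbad : PT {q | q ∈ timesT (Dir d) 1 t ∧
      q.2 ∈ {W | ¬ Good t (K + 1) (crd (bl_w p v) (2 * h + T + 1)) W}}
      ≤ ENNReal.ofReal (t ^ (2 * h + T) * (C / d)) := by
    rw [hPT, bl_times_tree ht1 ht0.le, ENNReal.ofReal_mul (by positivity)]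
    refine mul_le_mul_right (hC d g4 (by linarith) (crd (bl_w p v) (2 * h + T + 1)) ?_) _
    refine Finset.card_image_le.trans ?_
    rw [Finset.card_range]
  have hsplit : PT A ≤ PT {q | q ∈ A ∧ Good t (K + 1) (crd (bl_w p v) (2 * h + T + 1)) q.2} +
      PT {q | q ∈ timesT (Dir d) 1 t ∧
        q.2 ∈ {W | ¬ Good t (K + 1) (crd (bl_w p v) (2 * h + T + 1)) W}} := by
    refine le_trans (measure_mono ?_) (measure_union_le _ _)
    intro q hq
    by_cases hG : Good t (K + 1) (crd (bl_w p v) (2 * h + T + 1)) q.2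
    · left
      exact ⟨hq, hG⟩
    · right
      exact ⟨hq.1.1, hG⟩
  have hfinal : PT A ≤ PT {q | q ∈ A ∧ Good t (K + 1) (crd (bl_w p v) (2 * h + T + 1)) q.2} +
      ENNReal.ofReal (t ^ (2 * h + T) * (C / d)) := hsplit.trans (add_le_add le_rfl hbad)
  rw [hPA] at hfinal
  refine le_trans ?_ (tsub_le_iff_right.2 hfinal)
  rw [← ENNReal.ofReal_sub _ (by positivity), ← mul_sub]
  apply ENNReal.ofReal_le_ofReal
  rw [mul_comm ψ]
  exact mul_le_mul_of_nonneg_left g1.le (by positivity)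

end H42.CD
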