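import Pool.Agent.H42.CD.Transfer
import Pool.Agent.H42.CD.TBlock
import Pool.Agent.H42.CD.NotGood
import Pool.Agent.H42.CD.Lim

/-!
# Module BLOCKUP: upper bound for the probability of a block

`t = s/(2d)`, `n = 2 d = card (Dir d)`, `len = L + 1 + 2 g`, `d` so large that `t ≤ 1`. Let `P_T` be the law of
`(u, W)` in `transfer`, `k = K + 1`, `D0 = crd w len` (at most `len` elements). The core vertices `c ∈ (g, g+L]`
are the roots `j = c - 1 ∈ [g, g + L)`. For `U ≤ 1` (a.s., `ae_le_one`)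
`BlockOK ↔ (pathT, pathF) ∈ timesT 0 t ∩ coreT κ false K g L` by `side_eq_rcnt`
(`pe x w (c-1)`, `pe x w c` are the path edges at the core vertex).
Let `A = timesT 0 t ∩ (coreT κ false K g L)ᶜ`. For every `u` its section is `UpClosed t (K+1)` by `rcnt_det`
(`max (u j) (u (j+1)) ≤ t`). By `transfer`
`P_T(A ∧ Good) ≤ lawU {(pathT, pathF) ∈ A ∧ Good} ≤ lawU {times ≤ t} - lawU {BlockOK}`, and
`lawU {times ≤ t} = t^len` (`prob_le`, `path_inj`). On the other side
`P_T(A ∧ Good) ≥ P_T(timesT) - P_T(timesT ∩ coreT) - P_T(timesT ∧ ¬ Good)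
  ≥ t^len - t^len (1/s)^(L+1) mL (Fn n κ false K) s L - t^len C / d`,
by `tblock` (`n t = s`, `(1/n) = t/s`), independence of `u` and `W` and `not_good_le`. So
`lawU {BlockOK} ≤ t^len ((1/s)^(L+1) mL (Fn n κ false K) s L + C/d)`, and `mL_lim` finishes.
-/

open MeasureTheory Set Filter
open scoped ENNReal Topology

namespace H42.CD

/-- the block event on the lattice is the pull back of the block event on the forest -/
theorem blockOK_iff {d κ K g L : ℕ} {t : ℝ} (h1 : t ≤ 1) (U : Edge d → ℝ) (x : V d)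
    (w : ℕ → Dir d) : BlockOK κ K g L t U x w ↔
      (pathT x w (L + 1 + 2 * g) U, pathF x w (L + 1 + 2 * g) U) ∈
        timesT (Dir d) 0 t ∩ coreT (Dir d) κ false K g L := by
  constructor
  · rintro ⟨hT, hC⟩
    refine ⟨fun j _ => hT j j.2, ?_⟩
    intro j hj1 hj2
    have hm : max (U (pe x w j)) (U (pe x w (j + 1))) ≤ 2 := by
      have a1 := hT j (by omega)
      have a2 := hT (j + 1) (by omega)
      exact max_le (by linarith) (by linarith)
    have := hC (j + 1) (by omega) (by omega)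
    rw [Nat.add_sub_cancel] at this
    rw [← side_eq_rcnt false K U (pos x w (j + 1)) (rev (w j)) (w (j + 1)) hm] at this
    exact this
  · rintro ⟨hT, hC⟩
    have hT' : ∀ j, j < L + 1 + 2 * g → U (pe x w j) ≤ t := fun j hj => hT ⟨j, hj⟩ (Nat.zero_le _)
    refine ⟨hT', ?_⟩
    intro c hc1 hc2
    obtain ⟨j, rfl⟩ : ∃ j, c = j + 1 := ⟨c - 1, by omega⟩
    rw [Nat.add_sub_cancel]
    have hm : max (U (pe x w j)) (U (pe x w (j + 1))) ≤ 2 := by
      have a1 := hT' j (by omega)
      have a2 := hT' (j + 1) (by omega)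
      exact max_le (by linarith) (by linarith)
    have := hC ⟨j, by omega⟩ (by simp only; omega) (by simp only; omega)
    rw [← side_eq_rcnt false K U (pos x w (j + 1)) (rev (w j)) (w (j + 1)) hm]
    exact this

theorem blockUp_closed {d κ K g L : ℕ} {t : ℝ} (u : Fin (L + 1 + 2 * g) → ℝ) :
    UpClosed t (K + 1) {W : Fin (L + 1 + 2 * g - 1) → TC (Dir d) |
      (u, W) ∈ timesT (Dir d) 0 t ∩ (coreT (Dir d) κ false K g L)ᶜ} := by
  rintro W ⟨hT, hC⟩ W' h1 h2
  refine ⟨hT, ?_⟩
  intro hcon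
  apply hC
  intro j hj1 hj2
  have hm : max (u ⟨j.val, by omega⟩) (u ⟨j.val + 1, by omega⟩) ≤ t :=
    max_le (hT _ (Nat.zero_le _)) (hT _ (Nat.zero_le _))
  have := hcon j hj1 hj2
  simp only at this
  rw [← rcnt_det hm (h1 j) (h2 j)] at this
  exact this

theorem blockUp_times_tree {D : Type} {len : ℕ} {t : ℝ} (h1 : t ≤ 1) (h0 : 0 ≤ t)
    (E : Set (Fin (len - 1) → TC D)) :
    ((Measure.pi fun _ : Fin len => unif).prod (Measure.pi fun _ : Fin (len - 1) => lawT D))
        {q | q ∈ timesT D 0 t ∧ q.2 ∈ E}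
      = ENNReal.ofReal (t ^ len) * (Measure.pi fun _ : Fin (len - 1) => lawT D) E := by
  have h2 : {q : (Fin len → ℝ) × (Fin (len - 1) → TC D) | q ∈ timesT D 0 t ∧ q.2 ∈ E}
      = (Set.pi univ fun _ : Fin len => Iic t) ×ˢ E := by
    ext q
    simp only [timesT, mem_ofPred_eq, mem_prod, Set.mem_pi, mem_univ, forall_true_left, mem_Iic,
      Nat.zero_le]
  rw [h2, Measure.prod_prod, Measure.pi_pi, Finset.prod_const, ind_unif_Iic h1,
    ← ENNReal.ofReal_pow h0]
  simp

theorem block_up {κ K g L : ℕ} (hκ : 2 ≤ κ) (hg : 1 ≤ g) {s φ : ℝ} (hs : 0 < s)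
    (hφ : (1 / s) ^ (L + 1) * mL (FF κ false K) s L < φ) :
    ∃ d0 : ℕ, ∀ d, d0 ≤ d → ∀ (x : V d) (w : ℕ → Dir d),
      (∀ i j, i < j → j < L + 1 + 2 * g → (w i).1 ≠ (w j).1) →
      lawU d {U | BlockOK κ K g L (s / (2 * d)) U x w}
        ≤ ENNReal.ofReal (φ * (s / (2 * d)) ^ (L + 1 + 2 * g)) := by
  obtain ⟨C, hC0, hC⟩ := not_good_le (L + 1 + 2 * g - 1) (K + 1) (L + 1 + 2 * g) hs
  -- the limit
  have hlim : Tendsto (fun d : ℕ => (1 / s) ^ (L + 1) * mL (Fn (d * 2) κ false K) s L + C / d)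
      atTop (𝓝 ((1 / s) ^ (L + 1) * mL (FF κ false K) s L + 0)) := by
    refine Tendsto.add ?_ (tendsto_const_div_atTop_nhds_zero_nat C)
    refine Tendsto.const_mul _ ?_
    have h2 : Tendsto (fun d : ℕ => d * 2) atTop atTop :=
      tendsto_atTop_mono (fun n => by simp only [id]; omega) tendsto_id
    exact (mL_lim κ false K L hs).comp h2
  rw [add_zero] at hlim
  have hpos : 0 < (1 / s) ^ (L + 1) * mL (FF κ false K) s L := by
    refine mul_pos (by positivity) (mL_pos (FF_cont κ false K) hs ?_ L)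
    intro x hx _
    exact lt_of_lt_of_le (Real.exp_pos _) (FF_lower hκ false K hx)
  have hφ0 : 0 < φ := hpos.trans hφ
  have ev1 := hlim.eventually (gt_mem_nhds hφ)
  have ev2 : ∀ᶠ d : ℕ in atTop, C / (d : ℝ) < φ :=
    (tendsto_const_div_atTop_nhds_zero_nat C).eventually (gt_mem_nhds hφ0)
  have ev3 : ∀ᶠ d : ℕ in atTop, s ≤ (d : ℝ) :=
    tendsto_natCast_atTop_atTop.eventually (eventually_ge_atTop s)
  obtain ⟨d0, hd0⟩ := eventually_atTop.1 ((ev1.and ev2).and (ev3.and (eventually_ge_atTop 1)))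
  refine ⟨d0, ?_⟩
  intro d hd x w hw
  obtain ⟨⟨g1, g2⟩, g3, g4⟩ := hd0 d hd
  have hdpos : (0 : ℝ) < d := by exact_mod_cast g4
  set t : ℝ := s / (2 * d) with ht
  have ht0 : 0 < t := by positivity
  have ht1 : t ≤ 1 := by
    rw [ht, div_le_one (by positivity)]
    linarith
  set len : ℕ := L + 1 + 2 * g with hlen
  have hwok : WordOK w len := by
    refine ⟨by omega, ?_⟩
    intro i j hij hj he
    exact absurd he (hw i j hij hj)
  set PT := ((Measure.pi fun _ : Fin len => unif).prod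
        (Measure.pi fun _ : Fin (len - 1) => lawT (Dir d))) with hPT
  set A : Set ((Fin len → ℝ) × (Fin (len - 1) → TC (Dir d))) :=
    timesT (Dir d) 0 t ∩ (coreT (Dir d) κ false K g L)ᶜ with hA
  have hAm : MeasurableSet A := (meas_timesT _ _ _).inter (meas_coreT _ _ _ _ _ _).compl
  have htr := transfer (k := K + 1) ht0.le ht1 x w hwok A hAm (fun u => blockUp_closed u)
  -- lattice side
  have hdj : Disjoint {U : Edge d → ℝ | BlockOK κ K g L t U x w}
      {U | (pathT x w len U, pathF x w len U) ∈ A ∧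
          Good t (K + 1) (crd w len) (pathF x w len U)} := by
    rw [Set.disjoint_left]
    rintro U h1 ⟨h2, -⟩
    exact h2.2 ((blockOK_iff ht1 U x w).1 h1).2
  have hsub : {U : Edge d → ℝ | BlockOK κ K g L t U x w} ∪
      {U | (pathT x w len U, pathF x w len U) ∈ A ∧
          Good t (K + 1) (crd w len) (pathF x w len U)} ⊆
      {U | ∀ e ∈ (Finset.range len).image (pe x w), U e ≤ t} := by
    rintro U (h1 | h1) e he
    · obtain ⟨j, hj, rfl⟩ := Finset.mem_image.1 he
      exact h1.1 j (Finset.mem_range.1 hj)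
    · obtain ⟨j, hj, rfl⟩ := Finset.mem_image.1 he
      exact h1.1.1 ⟨j, Finset.mem_range.1 hj⟩ (Nat.zero_le _)
  have hcard : ((Finset.range len).image (pe x w)).card = len := by
    rw [Finset.card_image_of_injOn, Finset.card_range]
    intro a ha b hb hab
    exact path_inj hwok x (by simpa using ha) (by simpa using hb) hab
  have hT : lawU d {U | ∀ e ∈ (Finset.range len).image (pe x w), U e ≤ t}
      = ENNReal.ofReal (t ^ len) := by
    rw [prob_le _ ht0.le ht1, hcard]
  have hsum : lawU d {U : Edge d → ℝ | BlockOK κ K g L t U x w} +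
      lawU d {U | (pathT x w len U, pathF x w len U) ∈ A ∧
          Good t (K + 1) (crd w len) (pathF x w len U)} ≤ ENNReal.ofReal (t ^ len) := by
    rw [← hT, ← measure_union' hdj (meas_blockOK κ K g L t x w)]
    exact measure_mono hsub
  -- tree side
  have htree : ENNReal.ofReal (t ^ len) ≤
      PT {q | q ∈ A ∧ Good t (K + 1) (crd w len) q.2}
        + PT (timesT (Dir d) 0 t ∩ coreT (Dir d) κ false K g L)
        + PT {q | q ∈ timesT (Dir d) 0 t ∧
            q.2 ∈ {W | ¬ Good t (K + 1) (crd w len) W}} := by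
    have h1 := blockUp_times_tree (D := Dir d) (len := len) ht1 ht0.le univ
    rw [measure_univ, mul_one] at h1
    rw [← h1]
    refine le_trans (measure_mono ?_) ((measure_union_le _ _).trans
      (add_le_add_left (measure_union_le _ _) _))
    rintro q ⟨hq, -⟩
    by_cases hG : Good t (K + 1) (crd w len) q.2
    · left
      by_cases hc : q ∈ coreT (Dir d) κ false K g L
      · right
        exact ⟨hq, hc⟩
      · left
        exact ⟨⟨hq, hc⟩, hG⟩
    · right
      exact ⟨hq, hG⟩
  have : Nonempty (Dir d) := ⟨(⟨0, g4⟩, true)⟩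
  have hcore : PT (timesT (Dir d) 0 t ∩ coreT (Dir d) κ false K g L)
      = ENNReal.ofReal (t ^ len * ((1 / s) ^ (L + 1) * mL (Fn (d * 2) κ false K) s L)) := by
    rw [hPT, tblock κ false K g L len 0 ht0 ht1 (Nat.zero_le _) (by omega)]
    have e1 : Fintype.card (Dir d) = d * 2 := by
      simp [Dir]
    rw [e1]
    congr 1
    have e2 : ((d * 2 : ℕ) : ℝ) * t = s := by
      rw [ht]; push_cast; field_simp
    have e3 : (1 / ((d * 2 : ℕ) : ℝ)) = t * (1 / s) := by
      rw [ht]; push_cast; field_simp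
    rw [e2, e3, mul_pow]
    have e4 : len = (len - 0 - (L + 1)) + (L + 1) := by omega
    have e5 : t ^ len = t ^ (len - 0 - (L + 1)) * t ^ (L + 1) := by
      conv_lhs => rw [e4]
      rw [pow_add]
    rw [e5]
    ring
  have hbad : PT {q | q ∈ timesT (Dir d) 0 t ∧ q.2 ∈ {W | ¬ Good t (K + 1) (crd w len) W}}
      ≤ ENNReal.ofReal (t ^ len * (C / d)) := by
    rw [hPT, blockUp_times_tree ht1 ht0.le, ENNReal.ofReal_mul (by positivity)]
    refine mul_le_mul_right (hC d g4 (by linarith) (crd w len) ?_) _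
    refine Finset.card_image_le.trans ?_
    rw [Finset.card_range]
  -- conclusion
  have hfin : lawU d {U | (pathT x w len U, pathF x w len U) ∈ A ∧
          Good t (K + 1) (crd w len) (pathF x w len U)} ≠ ⊤ := measure_ne_top _ _
  have hfinal : lawU d {U : Edge d → ℝ | BlockOK κ K g L t U x w} ≤
      ENNReal.ofReal (t ^ len * ((1 / s) ^ (L + 1) * mL (Fn (d * 2) κ false K) s L))
        + ENNReal.ofReal (t ^ len * (C / d)) := by
    refine (ENNReal.add_le_add_iff_right hfin).1 ?_
    refine hsum.trans (htree.trans ?_)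
    rw [hcore, add_comm _ (lawU d _), ← add_assoc]
    exact add_le_add (add_le_add htr le_rfl) hbad
  refine hfinal.trans ?_
  have htl : 0 < t ^ len := by positivity
  by_cases hm : 0 ≤ (1 / s) ^ (L + 1) * mL (Fn (d * 2) κ false K) s L
  · rw [← ENNReal.ofReal_add (by positivity) (by positivity), ← mul_add]
    apply ENNReal.ofReal_le_ofReal
    rw [mul_comm φ]
    exact mul_le_mul_of_nonneg_left g1.le htl.le
  · push Not at hm
    rw [ENNReal.ofReal_of_nonpos (mul_nonpos_of_nonneg_of_nonpos htl.le hm.le), zero_add]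
    apply ENNReal.ofReal_le_ofReal
    rw [mul_comm φ]
    exact mul_le_mul_of_nonneg_left g2.le htl.le

end H42.CD
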