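import Pool.Agent.H42.CD.Stmt

/-!
# MP_0b7287_pr: definitions used in the proof
-/

open MeasureTheory Set Filter
open scoped ENNReal Topology

namespace H42.CD

/-- opposite direction -/
def rev {d : ℕ} (i : Dir d) : Dir d := (i.1, !i.2)

/-- ℓ¹ distance -/
def dist1 {d : ℕ} (x y : V d) : ℕ := ∑ a, (x a - y a).natAbs

/-- edges whose base point is within distance `r` of `x` -/
def Near {d : ℕ} (r : ℕ) (x : V d) : Set (Edge d) := {e | dist1 e.1 x ≤ r}

/-- the set `A` of configurations depends only on the coordinates in `S` -/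
def Dep {I α : Type} (A : Set (I → α)) (S : Set I) : Prop :=
  ∀ U U' : I → α, (∀ e ∈ S, U e = U' e) → U ∈ A → U' ∈ A

/-! ### Tree configurations -/

/-- `W w` (`w ≠ []`) is the time of the edge entering the vertex `w` of the rooted tree in which
every vertex has one child for each element of `D`. -/
abbrev TC (D : Type) := List D → ℝ

noncomputable def lawT (D : Type) : Measure (TC D) := Measure.infinitePi fun _ => unif

instance (D : Type) : IsProbabilityMeasure (lawT D) := by unfold lawT; infer_instance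

/-- configuration of the subtree at the child `i` (its value at `[]` is the time of the edge
leading to `i`) -/
def sub {D : Type} (W : TC D) (i : D) : TC D := fun w => W (i :: w)

open Classical in
/-- `avail κ b k W v`: the root of `W` has less than `κ` open child edges before time `v`,
computed down to depth `k`; `b = true`: optimistic (upper bound), `b = false`: pessimistic. -/
noncomputable def avail {D : Type} [Fintype D] (κ : ℕ) : Bool → ℕ → TC D → ℝ → Prop
  | b, 0, _, _ => b = true
  | b, k + 1, W, v =>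
      (Finset.univ.filter fun i : D => W [i] < v ∧ avail κ (!b) k (sub W i) (W [i])).card < κ

open Classical in
/-- number of children of the root of `W` with time `< m` which are available -/
noncomputable def rcnt {D : Type} [Fintype D] (κ : ℕ) (b : Bool) (k : ℕ) (W : TC D) (m : ℝ) : ℕ :=
  (Finset.univ.filter fun i : D => W [i] < m ∧ avail κ b k (sub W i) (W [i])).card

/-- the configuration seen from `x` along the universal cover of `ℤ^d`; backtracking letters and
the letters of `G` at the root get the time `2`. -/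
def pull {d : ℕ} (U : Edge d → ℝ) : V d → Finset (Dir d) → TC (Dir d)
  | _, _, [] => 2
  | x, G, [i] => if i ∈ G then 2 else U (ed x i)
  | x, _, i :: j :: w => pull U (x + stp i) {rev i} (j :: w)

/-- vertex reached by the word `w` from `x` -/
def endp {d : ℕ} (x : V d) (w : List (Dir d)) : V d := x + (w.map stp).sum

open Classical in
/-- number of side directions (not `g`, `h`) at `x` with time `< m` whose other endpoint is
available -/
noncomputable def side {d : ℕ} (κ : ℕ) (b : Bool) (k : ℕ) (U : Edge d → ℝ) (x : V d)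
    (g h : Dir d) (m : ℝ) : ℕ :=
  (Finset.univ.filter fun l : Dir d => l ≠ g ∧ l ≠ h ∧ U (ed x l) < m ∧
    avail κ b k (pull U (x + stp l) {rev l}) (U (ed x l))).card

/-! ### Revealed words, good forests -/

/-- `w` is a nonempty word of length at most `k` all of whose edges have time `≤ t` -/
def Rvl {D : Type} (t : ℝ) (k : ℕ) (W : TC D) (w : List D) : Prop :=
  w ≠ [] ∧ w.length ≤ k ∧ ∀ p : List D, p ≠ [] → p <+: w → W p ≤ t

/-- all revealed edges of the forest have distinct coordinates, none in `D0` -/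
def Good {d m : ℕ} (t : ℝ) (k : ℕ) (D0 : Finset (Fin d)) (W : Fin m → TC (Dir d)) : Prop :=
  (∀ j w i, Rvl t k (W j) (w ++ [i]) → i.1 ∉ D0) ∧
  (∀ j w i j' w' i', Rvl t k (W j) (w ++ [i]) → Rvl t k (W j') (w' ++ [i']) → i.1 = i'.1 →
    j = j' ∧ w = w' ∧ i = i')

/-- `w` is a word whose time is inspected: its parent is revealed (or is the root) -/
def Seen {D : Type} (t : ℝ) (k : ℕ) (W : TC D) (w : List D) : Prop :=
  ∃ p i, w = p ++ [i] ∧ (p = [] ∨ Rvl t k W p)

/-- events about the forest which depend only on inspected times and can only gain when unrevealed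
inspected times are increased -/
def UpClosed {D : Type} {m : ℕ} (t : ℝ) (k : ℕ) (A : Set (Fin m → TC D)) : Prop :=
  ∀ W ∈ A, ∀ W' : Fin m → TC D,
    (∀ j w, Rvl t k (W j) w → W' j w = W j w) →
    (∀ j w, Seen t k (W j) w → ¬ Rvl t k (W j) w → W j w ≤ W' j w) → W' ∈ A

/-! ### Paths -/

/-- position after `i` steps of the word `w` from `x` -/
def pos {d : ℕ} (x : V d) (w : ℕ → Dir d) (i : ℕ) : V d := x + ∑ j ∈ Finset.range i, stp (w j)

/-- the `j`-th edge of the path -/
def pe {d : ℕ} (x : V d) (w : ℕ → Dir d) (j : ℕ) : Edge d := ed (pos x w j) (w j)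

/-- times of the edges of a path -/
def pathT {d : ℕ} (x : V d) (w : ℕ → Dir d) (len : ℕ) (U : Edge d → ℝ) : Fin len → ℝ :=
  fun j => U (pe x w j)

/-- the forest hanging from the inner vertices of a path; root `j` is the vertex `j + 1` -/
def pathF {d : ℕ} (x : V d) (w : ℕ → Dir d) (len : ℕ) (U : Edge d → ℝ) :
    Fin (len - 1) → TC (Dir d) :=
  fun j => pull U (pos x w (j + 1)) {rev (w j), w (j + 1)}

/-- coordinates of the first `len` letters -/
def crd {d : ℕ} (w : ℕ → Dir d) (len : ℕ) : Finset (Fin d) :=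
  (Finset.range len).image fun j => (w j).1

/-- the first `len` letters have distinct coordinates, except perhaps for the first and the last -/
def WordOK {d : ℕ} (w : ℕ → Dir d) (len : ℕ) : Prop :=
  3 ≤ len ∧ ∀ i j, i < j → j < len → (w i).1 = (w j).1 → i = 0 ∧ j = len - 1

/-- local necessary condition for a block of `L + 1 + 2 * g` steps to be open at time `t`:
all edges have time `≤ t` and at the `L` core vertices there are at most `κ - 2` side edges which
are certainly open before the later one of the two path edges. -/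
def BlockOK {d : ℕ} (κ K g L : ℕ) (t : ℝ) (U : Edge d → ℝ) (x : V d) (w : ℕ → Dir d) : Prop :=
  (∀ j, j < L + 1 + 2 * g → U (pe x w j) ≤ t) ∧
  ∀ c, g < c → c ≤ g + L →
    side κ false K U (pos x w c) (rev (w (c - 1))) (w c)
      (max (U (pe x w (c - 1))) (U (pe x w c))) + 1 < κ

/-- block `b` of the path of `N` blocks is bad: one of its core vertices is within distance
`2K+6` of a vertex of the path outside of the block -/
def BadBlock {d : ℕ} (K g L N : ℕ) (w : ℕ → Dir d) (b : ℕ) : Prop :=
  ∃ c m, g < c ∧ c ≤ g + L ∧ m ≤ N * (L + 1 + 2 * g) ∧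
    (m < b * (L + 1 + 2 * g) ∨ (b + 1) * (L + 1 + 2 * g) < m) ∧
    dist1 (pos 0 w (b * (L + 1 + 2 * g) + c)) (pos 0 w m) ≤ 2 * K + 6

/-- block `b` of `w` has a repeated coordinate -/
def RepBlock {d : ℕ} (g L : ℕ) (w : ℕ → Dir d) (b : ℕ) : Prop :=
  ∃ i j, i < j ∧ j < L + 1 + 2 * g ∧
    (w (b * (L + 1 + 2 * g) + i)).1 = (w (b * (L + 1 + 2 * g) + j)).1

/-- local necessary condition for the word `w` of `N` blocks to be an open path from `x` -/
def ArmW {d : ℕ} (κ K g L N : ℕ) (t : ℝ) (x : V d) (w : ℕ → Dir d) : Set (Edge d → ℝ) :=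
  {U | ∀ b, b < N →
      (∀ j, j < L + 1 + 2 * g → U (pe x w (b * (L + 1 + 2 * g) + j)) ≤ t) ∧
      (¬ BadBlock K g L N w b →
        BlockOK κ K g L t U (pos x w (b * (L + 1 + 2 * g)))
          (fun j => w (b * (L + 1 + 2 * g) + j)))}

/-- local necessary condition for the existence of an open self-avoiding path of `N` blocks -/
def ArmEv {d : ℕ} (κ K g L N : ℕ) (t : ℝ) (x : V d) : Set (Edge d → ℝ) :=
  {U | ∃ w : ℕ → Dir d, Set.InjOn (pos x w) {i | i ≤ N * (L + 1 + 2 * g)} ∧
    U ∈ ArmW κ K g L N t x w}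

/-! ### Deterministic functions -/

/-- `P(Bin(n,p) < m)` -/
noncomputable def bcdf (n m : ℕ) (p : ℝ) : ℝ :=
  ∑ j ∈ Finset.range m, (n.choose j : ℝ) * p ^ j * (1 - p) ^ (n - j)

/-- `P(Poi(x) < m)` -/
noncomputable def pcdf (m : ℕ) (x : ℝ) : ℝ :=
  Real.exp (-x) * ∑ j ∈ Finset.range m, x ^ j / (j.factorial : ℝ)

/-- probability (unscaled time) of `avail κ b k` in the `n`-ary tree -/
noncomputable def qn (n κ : ℕ) : Bool → ℕ → ℝ → ℝ
  | b, 0, _ => if b then 1 else 0
  | b, k + 1, v => bcdf n κ (∫ x in (0:ℝ)..v, qn n κ (!b) k x)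

/-- the Poisson limit -/
noncomputable def qq (κ : ℕ) : Bool → ℕ → ℝ → ℝ
  | b, 0, _ => if b then 1 else 0
  | b, k + 1, x => pcdf κ (∫ y in (0:ℝ)..x, qq κ (!b) k y)

/-- the kernel function: `P(Poi(∫_0^x q) ≤ κ - 2)` -/
noncomputable def FF (κ : ℕ) (b : Bool) (k : ℕ) (x : ℝ) : ℝ :=
  pcdf (κ - 1) (∫ y in (0:ℝ)..x, qq κ b k y)

/-- its version on the `n`-ary tree, in scaled time -/
noncomputable def Fn (n κ : ℕ) (b : Bool) (k : ℕ) (x : ℝ) : ℝ :=
  bcdf n (κ - 1) (∫ y in (0:ℝ)..(x / n), qn n κ b k y)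

/-- iterated kernel operator `(T_g^k 1)(u)` on `[0,s]` -/
noncomputable def kit (g : ℝ → ℝ) (s : ℝ) : ℕ → ℝ → ℝ
  | 0, _ => 1
  | k + 1, u => ∫ v in (0:ℝ)..s, g (max u v) * kit g s k v

/-- `m_L(g;s)` -/
noncomputable def mL (g : ℝ → ℝ) (s : ℝ) (L : ℕ) : ℝ := ∫ u in (0:ℝ)..s, kit g s L u

/-- the critical parameter of the limiting branching process -/
noncomputable def sc (κ : ℕ) : ℝ :=
  sSup {s : ℝ | 0 < s ∧ ∃ k, BddAbove (Set.range fun L => mL (FF κ false k) s L)}

end H42.CD
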