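import Pool.Agent.H42.CD.Basic

/-!
# Module DET: deterministic facts about stable sets

`det_avail_true` and `det_avail_false` are proved together by induction on `k`. Write `y = x + stp i`,
`v = U (ed x i)`, `W = pull U y {rev i}`. For `l ≠ rev i`: `W [l] = U (ed y l)` (`pull_single`) and
`avail κ b k (sub W l) _ ↔ avail κ b k (pull U (y + stp l) {rev l}) _` (`avail_sub_pull`); for `l = rev i`:
`W [l] = 2`, which is not `< v ≤ 1`.
* `k = 0`: `avail κ true 0` is true, `avail κ false 0` is false.
* true, `k + 1`: let `ed x i ∈ O`. By stability `nOpen U O y v < κ` (second conjunct). If `l` is counted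
  in `avail κ true (k+1) W v` then `U (ed y l) < v` and `avail κ false k` holds at `y + stp l`, so
  `nOpen U O (y + stp l) (U (ed y l)) < κ` by induction, and `nOpen U O y (U (ed y l)) ≤ nOpen U O y v < κ`
  (monotone in the time); so `ed y l ∈ O` by stability. So the number of counted `l` is
  `≤ nOpen U O y v < κ`.
* false, `k + 1`: if `l` is counted in `nOpen U O y v` then `l ≠ rev i` (`ed y (rev i) = ed x i` has
  time `v`, `ed_rev`), and `avail κ true k` holds at `y + stp l` by induction; so `l` is counted in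
  `avail κ false (k+1) W v`.

`det_side`: let `m` be the larger of the two times, at the edge `e`. By stability (and `ed_rev`)
`nOpen U O x m < κ`. It counts the other of the two edges (its time is `< m`), and every side edge `l`
with `U (ed x l) < m` and `avail κ false K` at `x + stp l`: `nOpen U O (x + stp l) (U (ed x l)) < κ` by
`det_avail_false` and `nOpen U O x (U (ed x l)) ≤ nOpen U O x m < κ`. So `side + 1 ≤ nOpen U O x m < κ`.

`nOpen_lt_of_side`: with `v = U (ed x h)`, `nOpen U O x v` counts at most `g` and the side edges in `O`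
with time `< v ≤ m`, which are counted in `side κ true K` by `det_avail_true`. Same for `g`.

`nOpen_lt_of_clean`: only one of `g`, `h` can be counted (the other one has time exactly `v`).
-/

open MeasureTheory Set Filter
open scoped ENNReal Topology

namespace H42.CD

variable {d κ : ℕ} {U : Edge d → ℝ} {O : Set (Edge d)}

theorem nOpen_mono (x : V d) {v v' : ℝ} (h : v ≤ v') : nOpen U O x v ≤ nOpen U O x v' := by
  classical
  unfold nOpen
  refine Finset.card_le_card fun i hi => ?_
  rw [Finset.mem_filter] at hi ⊢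
  exact ⟨hi.1, hi.2.1, lt_of_lt_of_le hi.2.2 h⟩

theorem det_avail_both (hU : ∀ e, U e ≤ 1) (hS : Stable κ U O) (k : ℕ) :
    (∀ (x : V d) (i : Dir d), ed x i ∈ O →
      avail κ true k (pull U (x + stp i) {rev i}) (U (ed x i))) ∧
    (∀ (x : V d) (i : Dir d), avail κ false k (pull U (x + stp i) {rev i}) (U (ed x i)) →
      nOpen U O (x + stp i) (U (ed x i)) < κ) := by
  classical
  induction k with
  | zero =>
    refine ⟨fun x i _ => ?_, fun x i h => ?_⟩
    · simp [avail]
    · simp [avail] at h
  | succ k ih =>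
    refine ⟨fun x i h => ?_, fun x i h => ?_⟩
    · have h1 := ((hS x i).1 h).2
      unfold avail
      refine lt_of_le_of_lt ?_ h1
      unfold nOpen
      refine Finset.card_le_card fun l hl => ?_
      rw [Finset.mem_filter] at hl ⊢
      obtain ⟨-, hl1, hl2⟩ := hl
      rw [avail_sub_pull] at hl2
      rw [pull_single] at hl1 hl2
      by_cases hli : l ∈ ({rev i} : Finset (Dir d))
      · rw [if_pos hli] at hl1
        have := hU (ed x i)
        linarith
      · rw [if_neg hli] at hl1 hl2
        refine ⟨Finset.mem_univ _, ?_, hl1⟩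
        refine (hS (x + stp i) l).2 ⟨lt_of_le_of_lt (nOpen_mono _ hl1.le) h1, ?_⟩
        exact ih.2 (x + stp i) l hl2
    · unfold avail at h
      refine lt_of_le_of_lt ?_ h
      unfold nOpen
      refine Finset.card_le_card fun l hl => ?_
      rw [Finset.mem_filter] at hl ⊢
      obtain ⟨-, hl1, hl2⟩ := hl
      have hli : l ∉ ({rev i} : Finset (Dir d)) := by
        intro hli
        rw [Finset.mem_singleton] at hli
        subst hli
        rw [ed_rev] at hl2
        exact lt_irrefl _ hl2
      rw [avail_sub_pull, pull_single, if_neg hli]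
      exact ⟨Finset.mem_univ _, hl2, ih.1 (x + stp i) l hl1⟩

theorem det_avail_true (hU : ∀ e, U e ≤ 1) (hS : Stable κ U O) (k : ℕ) (x : V d) (i : Dir d)
    (h : ed x i ∈ O) : avail κ true k (pull U (x + stp i) {rev i}) (U (ed x i)) :=
  (det_avail_both hU hS k).1 x i h

theorem det_avail_false (hU : ∀ e, U e ≤ 1) (hS : Stable κ U O) (k : ℕ) (x : V d) (i : Dir d)
    (h : avail κ false k (pull U (x + stp i) {rev i}) (U (ed x i))) :
    nOpen U O (x + stp i) (U (ed x i)) < κ :=
  (det_avail_both hU hS k).2 x i h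

theorem det_side_aux (hU : ∀ e, U e ≤ 1) (hS : Stable κ U O) (K : ℕ) (x : V d) {g h o : Dir d}
    {m : ℝ} (ho : o = g ∨ o = h) (hoO : ed x o ∈ O) (hom : U (ed x o) < m)
    (hm : nOpen U O x m < κ) : side κ false K U x g h m + 1 < κ := by
  classical
  refine lt_of_le_of_lt ?_ hm
  unfold side nOpen
  rw [← Finset.card_insert_of_notMem (a := o)]
  · refine Finset.card_le_card fun l hl => ?_
    rw [Finset.mem_insert, Finset.mem_filter] at hl
    rw [Finset.mem_filter]
    refine ⟨Finset.mem_univ _, ?_⟩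
    rcases hl with rfl | ⟨-, hl1, hl2, hl3, hl4⟩
    · exact ⟨hoO, hom⟩
    · refine ⟨(hS x l).2 ⟨lt_of_le_of_lt (nOpen_mono _ hl3.le) hm, ?_⟩, hl3⟩
      exact det_avail_false hU hS K x l hl4
  · rw [Finset.mem_filter]
    rintro ⟨-, h1, h2, -⟩
    rcases ho with rfl | rfl
    · exact h1 rfl
    · exact h2 rfl

theorem det_side (hU : ∀ e, U e ≤ 1) (hS : Stable κ U O) (K : ℕ) (x : V d) {g h : Dir d}
    (hgh : g ≠ h) (hg : ed x g ∈ O) (hh : ed x h ∈ O) (hne : U (ed x g) ≠ U (ed x h)) :
    side κ false K U x g h (max (U (ed x g)) (U (ed x h))) + 1 < κ := by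
  rcases lt_or_gt_of_ne hne with hlt | hlt
  · rw [max_eq_right hlt.le]
    exact det_side_aux hU hS K x (Or.inl rfl) hg hlt ((hS x h).1 hh).1
  · rw [max_eq_left hlt.le]
    exact det_side_aux hU hS K x (Or.inr rfl) hh hlt ((hS x g).1 hg).1

theorem nOpen_lt_of_side (hU : ∀ e, U e ≤ 1) (hS : Stable κ U O) (K : ℕ) (x : V d)
    {g h : Dir d} {m v : ℝ} (hs : side κ true K U x g h m + 1 < κ) (hv : v ≤ m)
    (hv' : v = U (ed x g) ∨ v = U (ed x h)) : nOpen U O x v < κ := by
  classical
  obtain ⟨o, ho⟩ : ∃ o : Dir d, ∀ l : Dir d, U (ed x l) < v → l = g ∨ l = h → l = o := by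
    rcases hv' with rfl | rfl
    · refine ⟨h, fun l hl hl' => ?_⟩
      rcases hl' with rfl | rfl
      · exact absurd hl (lt_irrefl _)
      · rfl
    · refine ⟨g, fun l hl hl' => ?_⟩
      rcases hl' with rfl | rfl
      · rfl
      · exact absurd hl (lt_irrefl _)
  refine lt_of_le_of_lt ?_ hs
  unfold side nOpen
  refine le_trans (Finset.card_le_card (t := insert o (Finset.univ.filter fun l : Dir d =>
    l ≠ g ∧ l ≠ h ∧ U (ed x l) < m ∧
      avail κ true K (pull U (x + stp l) {rev l}) (U (ed x l)))) fun l hl => ?_)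
    (Finset.card_insert_le _ _)
  rw [Finset.mem_filter] at hl
  obtain ⟨-, hl1, hl2⟩ := hl
  rw [Finset.mem_insert, Finset.mem_filter]
  by_cases hlg : l = g
  · exact Or.inl (ho l hl2 (Or.inl hlg))
  · by_cases hlh : l = h
    · exact Or.inl (ho l hl2 (Or.inr hlh))
    · exact Or.inr ⟨Finset.mem_univ _, hlg, hlh, lt_of_lt_of_le hl2 hv,
        det_avail_true hU hS K x l hl1⟩

theorem nOpen_lt_of_clean (hκ : 2 ≤ κ) (x : V d) {g h : Dir d} {t v : ℝ}
    (hcl : ∀ l, l ≠ g → l ≠ h → t < U (ed x l)) (hv : v ≤ t)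
    (hv' : v = U (ed x g) ∨ v = U (ed x h)) : nOpen U O x v < κ := by
  classical
  obtain ⟨o, ho⟩ : ∃ o : Dir d, ∀ l : Dir d, U (ed x l) < v → l = g ∨ l = h → l = o := by
    rcases hv' with rfl | rfl
    · refine ⟨h, fun l hl hl' => ?_⟩
      rcases hl' with rfl | rfl
      · exact absurd hl (lt_irrefl _)
      · rfl
    · refine ⟨g, fun l hl hl' => ?_⟩
      rcases hl' with rfl | rfl
      · rfl
      · exact absurd hl (lt_irrefl _)
  refine lt_of_le_of_lt ?_ (lt_of_lt_of_le one_lt_two hκ)
  unfold nOpen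
  refine le_trans (Finset.card_le_card (t := {o}) fun l hl => ?_) (Finset.card_singleton o).le
  rw [Finset.mem_filter] at hl
  obtain ⟨-, -, hl2⟩ := hl
  rw [Finset.mem_singleton]
  by_cases hlg : l = g
  · exact ho l hl2 (Or.inl hlg)
  · by_cases hlh : l = h
    · exact ho l hl2 (Or.inr hlh)
    · have := hcl l hlg hlh
      linarith

end H42.CD
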