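import Pool.Agent.H42.CD.Basic

/-!
# Module LASTEXIT: separated points in an infinite cluster

`sd` is the sup distance. Claim: an infinite cluster contains, for every `m`, points `u 0 = 0, ..., u m`,
pairwise at distance `> r`, consecutive ones at distance `≤ r + 1`.
Proof. As the cluster is infinite it contains a point `v` with `sd 0 v > (m + 1) (r + 1)`. Say that `y` is
linked to `v` avoiding `B` if there is an open path from `y` to `v` all of whose vertices are outside of `B`
(`Relation.ReflTransGen` of `Linked` restricted to `Bᶜ`, `y ∉ B`). Construct `u i` by induction such that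
`u i` is in the cluster, `sd 0 (u i) ≤ i (r + 1)`, and `u i` is linked to `v` avoiding
`B_i = {y | ∃ l < i, sd y (u l) ≤ r}`. Step: take an open path from `u i` to `v` avoiding `B_i`; as
`sd v (u i) > r` there is a last vertex on it at distance `≤ r` from `u i`; let `u (i+1)` be the next vertex:
it is at distance exactly `r + 1` from `u i`, and the rest of the path avoids `B_(i+1)`. (Formally: induction on
the path from the end, e.g. `Relation.ReflTransGen.head_induction_on`: a path from `y` with `sd y u ≤ r` to `v`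
with `sd v u > r` avoiding `B` contains a step `z → z'` with `sd z u ≤ r < sd z' u` and a path from `z'` to `v` avoiding
`B` and the ball of `u`.) Since `u j` for `j > i` is the starting vertex of a path avoiding `B_j`, it is at
distance `> r` from `u i`.
-/

open MeasureTheory Set Filter
open scoped ENNReal Topology

namespace H42.CD

/-- sup distance -/
def sd {d : ℕ} (x y : V d) : ℕ := Finset.univ.sup fun a => (x a - y a).natAbs

theorem sd_comm {d : ℕ} (x y : V d) : sd x y = sd y x := by
  unfold sd
  refine Finset.sup_congr rfl fun a _ => ?_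
  rw [← Int.natAbs_neg]
  congr 1
  ring

theorem sd_le_iff {d : ℕ} {x y : V d} {r : ℕ} : sd x y ≤ r ↔ ∀ a, (x a - y a).natAbs ≤ r := by
  unfold sd
  rw [Finset.sup_le_iff]
  exact ⟨fun h a => h a (Finset.mem_univ a), fun h a _ => h a⟩

theorem sd_tri {d : ℕ} (x y z : V d) : sd x z ≤ sd x y + sd y z := by
  rw [sd_le_iff]
  intro a
  have h1 := sd_le_iff.1 (le_refl (sd x y)) a
  have h2 := sd_le_iff.1 (le_refl (sd y z)) a
  omega

theorem sd_self {d : ℕ} (x : V d) : sd x x = 0 := by
  refine Nat.le_zero.1 (sd_le_iff.2 fun a => ?_)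
  simp

theorem sd_stp {d : ℕ} (x : V d) (i : Dir d) : sd (x + stp i) x ≤ 1 := by
  rw [sd_le_iff]
  intro a
  rw [Pi.add_apply, stp_apply]
  split_ifs <;> simp

theorem lastexit_finite (d M : ℕ) : {x : V d | sd 0 x ≤ M}.Finite := by
  refine Set.Finite.subset (Set.finite_Icc (fun _ => -(M : ℤ)) (fun _ => (M : ℤ))) fun x hx => ?_
  have hx' : sd 0 x ≤ M := hx
  have h := sd_le_iff.1 hx'
  refine ⟨fun a => ?_, fun a => ?_⟩
  · have := h a
    simp only [Pi.zero_apply] at this
    change -(M : ℤ) ≤ x a
    omega
  · have := h a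
    simp only [Pi.zero_apply] at this
    change x a ≤ (M : ℤ)
    omega

/-- open steps avoiding `B` -/
def AvR {d : ℕ} (U : Edge d → ℝ) (O : Set (Edge d)) (t : ℝ) (B : Set (V d)) (x y : V d) : Prop :=
  Linked U O t x y ∧ x ∉ B ∧ y ∉ B

theorem lastexit_alt {d : ℕ} {U : Edge d → ℝ} {O : Set (Edge d)} {t : ℝ} {B : Set (V d)}
    {u v : V d} {r : ℕ} (hv : r < sd v u) (hvB : v ∉ B) {y : V d}
    (hy : Relation.ReflTransGen (AvR U O t B) y v) :
    (Relation.ReflTransGen (AvR U O t (B ∪ {x | sd x u ≤ r})) y v ∧
      y ∉ B ∪ {x | sd x u ≤ r}) ∨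
    ∃ z, r < sd z u ∧ sd z u ≤ r + 1 ∧ z ∉ B ∧ Relation.ReflTransGen (Linked U O t) y z ∧
      Relation.ReflTransGen (AvR U O t (B ∪ {x | sd x u ≤ r})) z v := by
  induction hy using Relation.ReflTransGen.head_induction_on with
  | refl =>
    refine Or.inl ⟨Relation.ReflTransGen.refl, ?_⟩
    rintro (h | h)
    · exact hvB h
    · exact absurd hv (not_lt.2 h)
  | head hyy' hrest ih =>
    rename_i y y'
    rcases ih with ⟨h1, h2⟩ | ⟨z, h1, h2, h3, h4, h5⟩
    · by_cases hyb : sd y u ≤ r
      · right
        refine ⟨y', ?_, ?_, hyy'.2.2, Relation.ReflTransGen.single hyy'.1, h1⟩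
        · by_contra hc
          exact h2 (Or.inr (not_lt.1 hc))
        · obtain ⟨i, rfl, -, -⟩ := hyy'.1
          have h3 := sd_tri (y + stp i) y u
          have h4 := sd_stp y i
          omega
      · left
        have hyn : y ∉ B ∪ {x | sd x u ≤ r} := by
          rintro (h | h)
          · exact hyy'.2.1 h
          · exact hyb h
        exact ⟨Relation.ReflTransGen.head ⟨hyy'.1, hyn, h2⟩ h1, hyn⟩
    · exact Or.inr ⟨z, h1, h2, h3, Relation.ReflTransGen.head hyy'.1 h4, h5⟩

theorem lastexit_seq {d : ℕ} {U : Edge d → ℝ} {O : Set (Edge d)} {t : ℝ} (r M : ℕ) {v : V d}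
    (hv : v ∈ cluster U O t 0) (hvM : (M + 1) * (r + 1) < sd 0 v) (m : ℕ) (hm : m ≤ M) :
    ∃ u : ℕ → V d, u 0 = 0 ∧ (∀ i, i ≤ m → u i ∈ cluster U O t 0) ∧
      (∀ i j, i < j → j ≤ m → r < sd (u j) (u i)) ∧
      (∀ i, i < m → sd (u (i + 1)) (u i) ≤ r + 1) ∧
      (∀ i, i ≤ m → sd 0 (u i) ≤ i * (r + 1)) ∧
      Relation.ReflTransGen (AvR U O t {y | ∃ l, l < m ∧ sd y (u l) ≤ r}) (u m) v := by
  induction m with
  | zero =>
    refine ⟨fun _ => 0, rfl, fun i _ => Relation.ReflTransGen.refl,
      fun i j h1 h2 => absurd h1 (by omega), fun i h => absurd h (by omega),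
      fun i _ => by rw [sd_self]; exact Nat.zero_le _, ?_⟩
    refine Relation.ReflTransGen.mono (fun a b hab => ?_) _ _ hv
    refine ⟨hab, ?_, ?_⟩ <;> rintro ⟨l, hl, -⟩ <;> exact absurd hl (Nat.not_lt_zero _)
  | succ m ih =>
    obtain ⟨u, h0, hcl, hsep, hcon, hdist, hpath⟩ := ih (by omega)
    have hvu : ∀ l, l ≤ m → r < sd v (u l) := by
      intro l hl
      have h1 := sd_tri 0 (u l) v
      have h2 := hdist l hl
      have h3 : l * (r + 1) ≤ M * (r + 1) := Nat.mul_le_mul_right _ (by omega)
      have h4 : (M + 1) * (r + 1) = M * (r + 1) + (r + 1) := by ring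
      rw [sd_comm v (u l)]
      omega
    have hvB : v ∉ {y | ∃ l, l < m ∧ sd y (u l) ≤ r} := by
      rintro ⟨l, hl, hl'⟩
      have := hvu l hl.le
      omega
    have huself : u m ∈ {x | sd x (u m) ≤ r} := by
      change sd (u m) (u m) ≤ r
      rw [sd_self]
      exact Nat.zero_le _
    rcases lastexit_alt (hvu m le_rfl) hvB hpath with ⟨-, h2⟩ | ⟨z, h1, h2, h3, h4, h5⟩
    · exact absurd (Or.inr huself) h2
    refine ⟨Function.update u (m + 1) z, ?_, ?_, ?_, ?_, ?_, ?_⟩
    · rw [Function.update_of_ne (by omega)]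
      exact h0
    · intro i hi
      by_cases him : i = m + 1
      · subst him
        rw [Function.update_self]
        exact Relation.ReflTransGen.trans (hcl m le_rfl) h4
      · rw [Function.update_of_ne him]
        exact hcl i (by omega)
    · intro i j hij hj
      have hi : i ≠ m + 1 := by omega
      rw [Function.update_of_ne hi]
      by_cases hjm : j = m + 1
      · subst hjm
        rw [Function.update_self]
        by_cases him : i = m
        · subst him
          exact h1
        · by_contra hc
          exact h3 ⟨i, by omega, not_lt.1 hc⟩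
      · rw [Function.update_of_ne hjm]
        exact hsep i j hij (by omega)
    · intro i hi
      have hi' : i ≠ m + 1 := by omega
      rw [Function.update_of_ne hi']
      by_cases him : i = m
      · subst him
        rw [Function.update_self]
        exact h2
      · rw [Function.update_of_ne (by omega)]
        exact hcon i (by omega)
    · intro i hi
      by_cases him : i = m + 1
      · subst him
        rw [Function.update_self]
        have h6 := sd_tri 0 (u m) z
        have h7 := hdist m le_rfl
        have h8 : (m + 1) * (r + 1) = m * (r + 1) + (r + 1) := by ring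
        rw [sd_comm (u m) z] at h6
        omega
      · rw [Function.update_of_ne him]
        exact hdist i (by omega)
    · rw [Function.update_self]
      refine Relation.ReflTransGen.mono (fun a b hab => ?_) _ _ h5
      have hsub : ∀ y : V d, y ∉ {y | ∃ l, l < m ∧ sd y (u l) ≤ r} ∪ {x | sd x (u m) ≤ r} →
          y ∉ {y | ∃ l, l < m + 1 ∧ sd y (Function.update u (m + 1) z l) ≤ r} := by
        rintro y hy ⟨l, hl, hl'⟩
        rw [Function.update_of_ne (by omega)] at hl'
        by_cases hlm : l = m
        · subst hlm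
          exact hy (Or.inr hl')
        · exact hy (Or.inl ⟨l, by omega, hl'⟩)
      exact ⟨hab.1, hsub a hab.2.1, hsub b hab.2.2⟩

theorem last_exit {d : ℕ} {U : Edge d → ℝ} {O : Set (Edge d)} {t : ℝ}
    (hinf : (cluster U O t 0).Infinite) (r m : ℕ) :
    ∃ u : Fin (m + 1) → V d, u 0 = 0 ∧ (∀ i, u i ∈ cluster U O t 0) ∧
      (∀ i j, i ≠ j → r < sd (u i) (u j)) ∧
      ∀ i : Fin m, sd (u i.castSucc) (u i.succ) ≤ r + 1 := by
  obtain ⟨v, hv, hvM⟩ := hinf.exists_notMem_finite (lastexit_finite d ((m + 1) * (r + 1)))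
  have hvM' : (m + 1) * (r + 1) < sd 0 v := not_le.1 hvM
  obtain ⟨u, h0, hcl, hsep, hcon, -, -⟩ := lastexit_seq r m hv hvM' m le_rfl
  refine ⟨fun i => u i.val, h0, fun i => hcl i.val (by omega), fun i j hij => ?_, fun i => ?_⟩
  · rcases lt_or_gt_of_ne (fun h => hij (Fin.ext h) : i.val ≠ j.val) with h | h
    · rw [sd_comm]
      exact hsep i.val j.val h (by omega)
    · exact hsep j.val i.val h (by omega)
  · rw [sd_comm]
    exact hcon i.val i.isLt

end H42.CD
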