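import Pool.Agent.H42.CD.ArmProb
import Pool.Agent.H42.CD.Arm
import Pool.Agent.H42.CD.LastExit

/-!
# Module NOPERC: no percolation below `sc κ`

`arm_prob` gives `K, g, L, d0`. For `d` large let `N = d² / n'` (`n' = L + 1 + 2 g`), `ρ = d² + K + 3`, `r = 2 ρ`,
`t = s/(2d)`, `A x = ArmEv κ K g L N t x`; `A x` depends on `Near ρ x` (`dep_armEv`, `N n' ≤ d²`). For `sd x y > 2 ρ` the
sets `Near ρ x`, `Near ρ y` are disjoint (`sd ≤ dist1`). If `0` is in an infinite cluster (`U` outside of a null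
set: `ae_le_one`, `ae_ne`) then every `y` in this cluster has the same (infinite) cluster, so `U ∈ A y`
(`arm_of_infinite`). With the points of `last_exit`: `U ∈ ⋂ i, A (u i)`. For fixed `u` the probability is
`≤ (1/50)^(N (m+1))` by `indep_prod`. The number of sequences `u` with `u 0 = 0` and
`sd (u i) (u (i+1)) ≤ r + 1` is at most `((2 r + 3)^d)^m`. So
`theta ≤ ((2r+3)^d (1/50)^N)^m` for all `m`, and `(2r+3)^d (1/50)^N ≤ 1/2` for `d` large:
`log: d log(4 d² + 4K + 15) - ((d²/n') - 1) log 50 → -∞`.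
-/

open MeasureTheory Set Filter
open scoped ENNReal Topology

namespace H42.CD

theorem linked_symm {d : ℕ} {U : Edge d → ℝ} {O : Set (Edge d)} {t : ℝ} {x y : V d}
    (h : Linked U O t x y) : Linked U O t y x := by
  obtain ⟨i, hy, hO, hU⟩ := h
  subst hy
  refine ⟨rev i, (add_stp_rev x i).symm, ?_, ?_⟩
  · rw [ed_rev]; exact hO
  · rw [ed_rev]; exact hU

theorem cluster_infinite_of_mem {d : ℕ} {U : Edge d → ℝ} {O : Set (Edge d)} {t : ℝ} {x y : V d}
    (h : y ∈ cluster U O t x) (hinf : (cluster U O t x).Infinite) :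
    (cluster U O t y).Infinite := by
  have h1 : Relation.ReflTransGen (Linked U O t) y x := by
    have h2 : ∀ z, Relation.ReflTransGen (Linked U O t) x z →
        Relation.ReflTransGen (Linked U O t) z x := by
      intro z hz
      induction hz with
      | refl => exact Relation.ReflTransGen.refl
      | tail _ hl ih => exact Relation.ReflTransGen.head (linked_symm hl) ih
    exact h2 y h
  refine hinf.mono ?_
  intro z hz
  exact h1.trans hz

theorem sd_le_dist1 {d : ℕ} (x y : V d) : sd x y ≤ dist1 x y := by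
  unfold sd dist1
  refine Finset.sup_le fun a ha => ?_
  exact Finset.single_le_sum (f := fun a => (x a - y a).natAbs) (fun _ _ => Nat.zero_le _) ha

theorem near_disjoint {d ρ : ℕ} {x y : V d} (h : 2 * ρ < sd x y) :
    Disjoint (Near ρ x) (Near ρ y) := by
  rw [Set.disjoint_left]
  intro e he he'
  have h1 := sd_le_dist1 x y
  have h2 := dist1_tri x e.1 y
  have h3 : dist1 e.1 x ≤ ρ := he
  have h4 : dist1 e.1 y ≤ ρ := he'
  rw [dist1_comm] at h3
  omega

/-- the walk with given (shifted) increments -/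
noncomputable def walk {d r m : ℕ} (δ : Fin m → Fin d → Fin (2 * r + 3)) (i : Fin (m + 1)) :
    V d :=
  Fin.induction (motive := fun _ => V d) 0
    (fun j x => x + fun a => (((δ j a : Fin (2 * r + 3)) : ℕ) : ℤ) - (r + 1)) i

theorem walk_zero {d r m : ℕ} (δ : Fin m → Fin d → Fin (2 * r + 3)) : walk δ 0 = 0 := rfl

theorem walk_succ {d r m : ℕ} (δ : Fin m → Fin d → Fin (2 * r + 3)) (j : Fin m) :
    walk δ j.succ
      = walk δ j.castSucc + fun a => (((δ j a : Fin (2 * r + 3)) : ℕ) : ℤ) - (r + 1) := rfl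

theorem exists_walk {d r m : ℕ} (u : Fin (m + 1) → V d) (h0 : u 0 = 0)
    (hs : ∀ i : Fin m, sd (u i.castSucc) (u i.succ) ≤ r + 1) :
    ∃ δ : Fin m → Fin d → Fin (2 * r + 3), walk δ = u := by
  have hb : ∀ (j : Fin m) (a : Fin d), (u j.castSucc a - u j.succ a).natAbs ≤ r + 1 := by
    intro j a
    refine le_trans ?_ (hs j)
    unfold sd
    exact Finset.le_sup (f := fun a => (u j.castSucc a - u j.succ a).natAbs) (Finset.mem_univ a)
  refine ⟨fun j a => ⟨(u j.succ a - u j.castSucc a + (r + 1)).toNat, ?_⟩, ?_⟩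
  · have := hb j a
    omega
  · funext i
    induction i using Fin.induction with
    | zero => rw [walk_zero, h0]
    | succ j ih =>
      rw [walk_succ, ih]
      funext a
      have := hb j a
      simp only [Pi.add_apply]
      omega

/-- arithmetic: the number of choices of a step is beaten by the probability of a long arm -/
theorem arith {K n d : ℕ} (hn : 0 < n) (hd1 : 1 ≤ d)
    (hd : n * (8 * n ^ 2 + 8 * K + 30) ≤ d) :
    2 * (2 * (2 * (d ^ 2 / n * n + K + 3)) + 3) ^ d ≤ 50 ^ (d ^ 2 / n) := by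
  obtain ⟨j, hj⟩ : ∃ j, j = d / n := ⟨_, rfl⟩
  have hj1 : 8 * n ^ 2 + 8 * K + 30 ≤ j := by
    rw [hj, Nat.le_div_iff_mul_le hn, mul_comm]; exact hd
  have hj2 : d < n * (j + 1) := by
    rw [hj]; exact Nat.lt_mul_div_succ d hn
  have hN : j * d ≤ d ^ 2 / n := by
    rw [Nat.le_div_iff_mul_le hn]
    have : j * n ≤ d := by rw [hj]; exact Nat.div_mul_le_self d n
    calc j * d * n = (j * n) * d := by ring
      _ ≤ d * d := Nat.mul_le_mul_right d this
      _ = d ^ 2 := by ring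
  have h1 : d ^ 2 / n * n ≤ d ^ 2 := Nat.div_mul_le_self _ _
  have h2 : j + 1 ≤ 2 ^ j := Nat.lt_two_pow_self
  have h3 : 2 * (2 * (2 * (d ^ 2 / n * n + K + 3)) + 3) ≤ 50 ^ j := by
    have h4 : d ^ 2 ≤ n ^ 2 * (2 ^ j) ^ 2 := by
      calc d ^ 2 ≤ (n * 2 ^ j) ^ 2 := by
            refine Nat.pow_le_pow_left ?_ 2
            exact hj2.le.trans (Nat.mul_le_mul_left n h2)
        _ = _ := by ring
    have h5 : (2 ^ j) ^ 2 = 4 ^ j := by rw [← pow_mul, mul_comm, pow_mul]; norm_num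
    rw [h5] at h4
    have h6 : 1 ≤ 4 ^ j := Nat.one_le_pow _ _ (by norm_num)
    have h7 : j ≤ 12 ^ j := (Nat.lt_pow_self (by norm_num)).le
    calc 2 * (2 * (2 * (d ^ 2 / n * n + K + 3)) + 3)
        ≤ 8 * (n ^ 2 * 4 ^ j) + (8 * K + 30) * 4 ^ j := by nlinarith
      _ = (8 * n ^ 2 + 8 * K + 30) * 4 ^ j := by ring
      _ ≤ 12 ^ j * 4 ^ j := Nat.mul_le_mul_right _ (hj1.trans h7)
      _ = 48 ^ j := by rw [← mul_pow]; norm_num
      _ ≤ 50 ^ j := Nat.pow_le_pow_left (by norm_num) j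
  calc 2 * (2 * (2 * (d ^ 2 / n * n + K + 3)) + 3) ^ d
      ≤ 2 ^ d * (2 * (2 * (d ^ 2 / n * n + K + 3)) + 3) ^ d := by
        refine Nat.mul_le_mul_right _ ?_
        calc 2 = 2 ^ 1 := by norm_num
          _ ≤ 2 ^ d := Nat.pow_le_pow_right (by norm_num) hd1
    _ = (2 * (2 * (2 * (d ^ 2 / n * n + K + 3)) + 3)) ^ d := by rw [mul_pow]
    _ ≤ (50 ^ j) ^ d := Nat.pow_le_pow_left h3 d
    _ = 50 ^ (j * d) := by rw [← pow_mul]
    _ ≤ 50 ^ (d ^ 2 / n) := Nat.pow_le_pow_right (by norm_num) hN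

theorem no_perc {κ : ℕ} (hκ : 3 ≤ κ) {s : ℝ} (hs : 0 < s) (h : s < sc κ) :
    ∃ d0 : ℕ, ∀ d, d0 ≤ d → theta κ d (s / (2 * d)) = 0 := by
  obtain ⟨K, g, L, hg, d0, harm⟩ := arm_prob hκ hs h
  obtain ⟨n, hn⟩ : ∃ n, n = L + 1 + 2 * g := ⟨_, rfl⟩
  have hn0 : 0 < n := by omega
  refine ⟨max d0 (n * (8 * n ^ 2 + 8 * K + 30)), fun d hd => ?_⟩
  have hd0 : d0 ≤ d := le_trans (le_max_left _ _) hd
  have hdn : n * (8 * n ^ 2 + 8 * K + 30) ≤ d := le_trans (le_max_right _ _) hd
  have hd1 : 1 ≤ d := by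
    refine le_trans ?_ hdn
    exact Nat.mul_pos hn0 (by omega)
  obtain ⟨N, hN⟩ : ∃ N, N = d ^ 2 / n := ⟨_, rfl⟩
  obtain ⟨t, ht⟩ : ∃ t : ℝ, t = s / (2 * d) := ⟨_, rfl⟩
  have harm' : ∀ x : V d, lawU d (ArmEv κ K g L N t x) ≤ ENNReal.ofReal ((1 / 50) ^ N) := by
    intro x
    rw [ht]
    refine harm d hd0 N ?_ x
    rw [← hn, hN]
    exact Nat.div_mul_le_self _ _
  rw [← ht]
  obtain ⟨ρ, hρ⟩ : ∃ ρ, ρ = N * n + K + 3 := ⟨_, rfl⟩
  obtain ⟨r, hr⟩ : ∃ r, r = 2 * ρ := ⟨_, rfl⟩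
  obtain ⟨P, hP⟩ : ∃ P : ℝ≥0∞, P = ENNReal.ofReal ((1 / 50) ^ N) := ⟨_, rfl⟩
  rw [← hP] at harm'
  have hP1 : P ≤ 1 := by
    rw [hP]
    refine ENNReal.ofReal_le_one.2 (pow_le_one₀ (by norm_num) (by norm_num))
  -- the bound for every `m`
  have key : ∀ m : ℕ, theta κ d t ≤ ((((2 * r + 3) ^ d : ℕ) : ℝ≥0∞) * P) ^ m := by
    intro m
    have hB : ∀ δ : Fin m → Fin d → Fin (2 * r + 3),
        lawU d {U | (∀ i j : Fin (m + 1), i ≠ j → r < sd (walk δ i) (walk δ j)) ∧
          ∀ i, U ∈ ArmEv κ K g L N t (walk δ i)} ≤ P ^ (m + 1) := by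
      intro δ
      by_cases hsep : ∀ i j : Fin (m + 1), i ≠ j → r < sd (walk δ i) (walk δ j)
      · have h1 : {U : Edge d → ℝ | (∀ i j : Fin (m + 1), i ≠ j → r < sd (walk δ i) (walk δ j)) ∧
            ∀ i, U ∈ ArmEv κ K g L N t (walk δ i)}
            ⊆ ⋂ i ∈ (Finset.univ : Finset (Fin (m + 1))), ArmEv κ K g L N t (walk δ i) := by
          intro U hU
          simp only [Finset.mem_univ, Set.iInter_true, Set.mem_iInter]
          exact hU.2
        refine (measure_mono h1).trans ?_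
        unfold lawU
        rw [indep_prod unif Finset.univ (fun i => Near ρ (walk δ i))
          (fun i => ArmEv κ K g L N t (walk δ i)) (fun i _ => meas_armEv κ K g L N t _) ?_ ?_]
        · calc ∏ i : Fin (m + 1), (Measure.infinitePi fun _ : Edge d => unif)
                (ArmEv κ K g L N t (walk δ i))
              ≤ ∏ i : Fin (m + 1), P := Finset.prod_le_prod' fun i _ => harm' (walk δ i)
            _ = P ^ (m + 1) := by simp
        · intro i _
          have h2 := dep_armEv κ K g L N t (walk δ i)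
          rw [← hn, ← hρ] at h2
          exact h2
        · intro i _ j _ hij
          refine near_disjoint ?_
          rw [← hr]
          exact hsep i j hij
      · have h1 : {U : Edge d → ℝ | (∀ i j : Fin (m + 1), i ≠ j → r < sd (walk δ i) (walk δ j)) ∧
            ∀ i, U ∈ ArmEv κ K g L N t (walk δ i)} = ∅ := by
          ext U
          simp only [Set.mem_empty_iff_false, iff_false]
          exact fun hU => hsep hU.1
        rw [h1, measure_empty]
        exact zero_le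
    have hsub : PercEvent κ d t ≤ᵐ[lawU d] ⋃ δ : Fin m → Fin d → Fin (2 * r + 3),
        {U | (∀ i j : Fin (m + 1), i ≠ j → r < sd (walk δ i) (walk δ j)) ∧
          ∀ i, U ∈ ArmEv κ K g L N t (walk δ i)} := by
      filter_upwards [ae_le_one d, ae_ne d] with U hU1 hU2
      rintro ⟨O, hO, hinf⟩
      obtain ⟨u, hu0, hu1, hu2, hu3⟩ := last_exit hinf r m
      obtain ⟨δ, hδ⟩ := exists_walk (r := r) u hu0 hu3
      refine Set.mem_iUnion.2 ⟨δ, ?_⟩
      rw [hδ]
      exact ⟨hu2, fun i => arm_of_infinite hg hU1 hU2 hO (cluster_infinite_of_mem (hu1 i) hinf)⟩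
    unfold theta
    refine (measure_mono_ae hsub).trans ?_
    refine (measure_iUnion_le _).trans ?_
    rw [tsum_fintype]
    calc ∑ δ : Fin m → Fin d → Fin (2 * r + 3), lawU d
          {U | (∀ i j : Fin (m + 1), i ≠ j → r < sd (walk δ i) (walk δ j)) ∧
            ∀ i, U ∈ ArmEv κ K g L N t (walk δ i)}
        ≤ ∑ δ : Fin m → Fin d → Fin (2 * r + 3), P ^ (m + 1) :=
          Finset.sum_le_sum fun δ _ => hB δ
      _ = (((2 * r + 3) ^ d : ℕ) : ℝ≥0∞) ^ m * P ^ (m + 1) := by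
          rw [Finset.sum_const, Finset.card_univ]
          simp only [Fintype.card_pi, Finset.prod_const, Finset.card_univ, Fintype.card_fin,
            nsmul_eq_mul]
          push_cast
          ring
      _ ≤ (((2 * r + 3) ^ d : ℕ) : ℝ≥0∞) ^ m * P ^ m := by
          refine mul_le_mul_right ?_ _
          rw [pow_succ]
          calc P ^ m * P ≤ P ^ m * 1 := by gcongr
            _ = P ^ m := mul_one _
      _ = _ := by rw [mul_pow]
  -- conclusion
  have hq : (((2 * r + 3) ^ d : ℕ) : ℝ≥0∞) * P ≤ ENNReal.ofReal (1 / 2) := by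
    have h1 := arith (K := K) hn0 hd1 hdn
    rw [← hN, ← hρ, ← hr] at h1
    have h2 : (2:ℝ) * (2 * r + 3) ^ d ≤ 50 ^ N := by exact_mod_cast h1
    rw [hP, ← ENNReal.ofReal_natCast, ← ENNReal.ofReal_mul (by positivity)]
    refine ENNReal.ofReal_le_ofReal ?_
    push_cast
    rw [one_div, inv_pow, ← div_eq_mul_inv, div_le_div_iff₀ (by positivity) (by norm_num)]
    linarith
  have hq' : (((2 * r + 3) ^ d : ℕ) : ℝ≥0∞) * P < 1 := by
    refine hq.trans_lt ?_
    rw [ENNReal.ofReal_lt_one]; norm_num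
  have hlim := ENNReal.tendsto_pow_atTop_nhds_zero_of_lt_one hq'
  have := ge_of_tendsto' hlim key
  exact le_antisymm this zero_le

end H42.CD
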