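import Pool.Agent.H42.CD.Ind

/-!
# Module UNIQ: almost sure uniqueness of the stable set

If `O ≠ O'` are stable, some edge `e₀` is in exactly one of them. If an edge `e = ed x i` is in exactly one
of `O, O'` then for one of its endpoints `z`, `nOpen U O z (U e) ≠ nOpen U O' z (U e)`, so some edge at `z`
with time `< U e` is in exactly one of them. So there is an infinite sequence of edges
`e₀, e₁, ...` with consecutive ones sharing an endpoint and strictly decreasing times. For fixed `e₀` and
`m`, there are at most `(4 d) ^ m` sequences `e₀, ..., e_m` of this kind, and for a given one with distinct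
edges the probability that the times are decreasing is at most `1 / m!` (`m + 1` iid variables without
ties: the `(m+1)!` orderings are disjoint events of equal probability, `map_inj`; or by induction
`P(t > U_1 > ... > U_m) ≤ t ^ m / m!`). As `(4 d) ^ m / m! → 0` the event has probability zero for every
`e₀`; there are countably many edges.
-/

open MeasureTheory Set Filter
open scoped ENNReal Topology

namespace H42.CD

/-! ### Probability of a decreasing chain -/

theorem measurableSet_strictAnti (M : ℕ) : MeasurableSet {u : Fin M → ℝ | StrictAnti u} := by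
  have h : {u : Fin M → ℝ | StrictAnti u} = ⋂ i : Fin M, ⋂ j : Fin M, ⋂ _ : i < j,
      {u : Fin M → ℝ | u j < u i} := by
    ext u
    simp only [mem_iInter, mem_ofPred_eq]
    constructor
    · intro h i j hij
      exact h hij
    · intro h i j hij
      exact h i j hij
  rw [h]
  refine MeasurableSet.iInter fun i => MeasurableSet.iInter fun j => MeasurableSet.iInter fun _ => ?_
  exact measurableSet_lt (measurable_pi_apply j) (measurable_pi_apply i)

theorem anti_law {d M : ℕ} (ι : Fin M → Edge d) (hι : Function.Injective ι) :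
    lawU d {U | StrictAnti fun j => U (ι j)}
      = (Measure.pi fun _ : Fin M => unif) {u : Fin M → ℝ | StrictAnti u} := by
  have hm : Measurable fun (U : Edge d → ℝ) (j : Fin M) => U (ι j) :=
    measurable_pi_iff.2 fun j => measurable_pi_apply _
  rw [← map_inj unif ι hι, Measure.map_apply hm (measurableSet_strictAnti M)]
  rfl

theorem anti_le {d M : ℕ} (ι : Fin M → Edge d) :
    lawU d {U | StrictAnti fun j => U (ι j)} ≤ ((M.factorial : ℕ) : ℝ≥0∞)⁻¹ := by
  by_cases hι : Function.Injective ι
  · have hdisj : Pairwise (Function.onFun Disjoint fun σ : Equiv.Perm (Fin M) =>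
        {U : Edge d → ℝ | StrictAnti fun j => U (ι (σ j))}) := by
      intro σ τ hne
      refine Set.disjoint_left.2 fun U h1 h2 => hne ?_
      have h1' : StrictAnti fun j => U (ι (σ j)) := h1
      have h2' : StrictAnti fun j => U (ι (τ j)) := h2
      have hr : Set.range (fun j => U (ι (σ j))) = Set.range fun j => U (ι (τ j)) := by
        have e1 : (fun j => U (ι (σ j))) = (fun j => U (ι j)) ∘ σ := rfl
        have e2 : (fun j => U (ι (τ j))) = (fun j => U (ι j)) ∘ τ := rfl
        rw [e1, e2, σ.surjective.range_comp, τ.surjective.range_comp]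
      have he := (StrictAnti.range_inj h1' h2').1 hr
      have hinj : Function.Injective fun j => U (ι j) := by
        intro a b hab
        have h3 : U (ι (σ (σ.symm a))) = U (ι (σ (σ.symm b))) := by
          simpa using hab
        have h4 := h1'.injective h3
        exact σ.symm.injective h4
      refine Equiv.ext fun j => hinj ?_
      exact congrFun he j
    have hmeas : ∀ σ : Equiv.Perm (Fin M),
        MeasurableSet {U : Edge d → ℝ | StrictAnti fun j => U (ι (σ j))} := by
      intro σ
      have hm : Measurable fun (U : Edge d → ℝ) (j : Fin M) => U (ι (σ j)) :=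
        measurable_pi_iff.2 fun j => measurable_pi_apply _
      exact hm (measurableSet_strictAnti M)
    have hsum : ∑ σ : Equiv.Perm (Fin M), lawU d {U | StrictAnti fun j => U (ι (σ j))} ≤ 1 := by
      rw [← tsum_fintype (L := .unconditional _), ← measure_iUnion hdisj hmeas]
      exact prob_le_one
    have heq : ∀ σ : Equiv.Perm (Fin M), lawU d {U | StrictAnti fun j => U (ι (σ j))}
        = lawU d {U | StrictAnti fun j => U (ι j)} := by
      intro σ
      rw [anti_law ι hι]
      exact anti_law (fun j => ι (σ j)) (hι.comp σ.injective)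
    simp only [heq, Finset.sum_const, Finset.card_univ, Fintype.card_perm, Fintype.card_fin,
      nsmul_eq_mul] at hsum
    rw [ENNReal.le_inv_iff_mul_le, mul_comm]
    exact hsum
  · have : {U : Edge d → ℝ | StrictAnti fun j => U (ι j)} = ∅ := by
      refine Set.eq_empty_of_forall_notMem fun U hU => hι ?_
      have hU' : StrictAnti fun j => U (ι j) := hU
      intro a b hab
      refine hU'.injective ?_
      rw [hab]
    rw [this, measure_empty]
    exact bot_le

/-! ### Chains of edges -/

/-- neighbouring edge -/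
def nxt {d : ℕ} (e : Edge d) (l : Bool × Dir d) : Edge d :=
  ed (if l.1 then e.1 + stp (e.2, true) else e.1) l.2

/-- a chain of edges -/
def chn {d : ℕ} (e : Edge d) (c : ℕ → Bool × Dir d) : ℕ → Edge d
  | 0 => e
  | n + 1 => nxt (chn e c n) (c n)

theorem chn_congr {d : ℕ} (e : Edge d) {c c' : ℕ → Bool × Dir d} (n : ℕ)
    (h : ∀ i < n, c i = c' i) : chn e c n = chn e c' n := by
  induction n with
  | zero => rfl
  | succ n ih =>
    rw [chn, chn, ih fun i hi => h i (by omega), h n (by omega)]

theorem chain_null {d : ℕ} (e : Edge d) :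
    lawU d {U | ∃ c : ℕ → Bool × Dir d, ∀ n, U (chn e c (n + 1)) < U (chn e c n)} = 0 := by
  set B : Set (Edge d → ℝ) :=
    {U | ∃ c : ℕ → Bool × Dir d, ∀ n, U (chn e c (n + 1)) < U (chn e c n)} with hB
  have hbound : ∀ m : ℕ, lawU d B ≤ ENNReal.ofReal ((2 * (d * 2) : ℕ) ^ m / (m.factorial : ℝ)) := by
    intro m
    let ext : (Fin m → Bool × Dir d) → ℕ → Bool × Dir d :=
      fun c j => if h : j < m then c ⟨j, h⟩ else (true, (e.2, true))
    have hsub : B ⊆ ⋃ c : Fin m → Bool × Dir d,
        {U | StrictAnti fun j : Fin (m + 1) => U (chn e (ext c) j)} := by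
      rintro U ⟨c, hc⟩
      refine mem_iUnion.2 ⟨fun i => c i, ?_⟩
      have hanti : StrictAnti fun n : ℕ => U (chn e c n) := strictAnti_nat_of_succ_lt hc
      have heq : ∀ j : Fin (m + 1), chn e (ext fun i => c i) j = chn e c j := by
        intro j
        refine chn_congr e _ fun i hi => ?_
        have : i < m := by omega
        simp only [ext, dif_pos this]
      change StrictAnti fun j : Fin (m + 1) => U (chn e (ext fun i => c i) j)
      simp only [heq]
      intro a b hab
      exact hanti hab
    calc lawU d B ≤ ∑ c : Fin m → Bool × Dir d,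
          lawU d {U | StrictAnti fun j : Fin (m + 1) => U (chn e (ext c) j)} :=
        (measure_mono hsub).trans (measure_iUnion_fintype_le _ _)
      _ ≤ ∑ _c : Fin m → Bool × Dir d, (((m + 1).factorial : ℕ) : ℝ≥0∞)⁻¹ :=
        Finset.sum_le_sum fun c _ => anti_le _
      _ ≤ ENNReal.ofReal ((2 * (d * 2) : ℕ) ^ m / (m.factorial : ℝ)) := by
        rw [Finset.sum_const, Finset.card_univ, nsmul_eq_mul, Fintype.card_fun, Fintype.card_prod,
          Fintype.card_prod, Fintype.card_fin, Fintype.card_fin, Fintype.card_bool,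
          ENNReal.ofReal_div_of_pos (by positivity), ENNReal.ofReal_natCast, div_eq_mul_inv]
        gcongr
        · rw [← Nat.cast_pow, ENNReal.ofReal_natCast]
        · omega
  refine le_antisymm ?_ bot_le
  have hlim : Tendsto (fun m : ℕ => ENNReal.ofReal (((2 * (d * 2) : ℕ) : ℝ) ^ m / (m.factorial : ℝ)))
      atTop (𝓝 (ENNReal.ofReal 0)) :=
    (ENNReal.continuous_ofReal.tendsto _).comp
      (FloorSemiring.tendsto_pow_div_factorial_atTop ((2 * (d * 2) : ℕ) : ℝ))
  rw [ENNReal.ofReal_zero] at hlim
  exact ge_of_tendsto' hlim hbound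

/-! ### Discrepancies propagate backwards in time -/

theorem exists_next {κ d : ℕ} {U : Edge d → ℝ} {O O' : Set (Edge d)} (h : Stable κ U O)
    (h' : Stable κ U O') (e : Edge d) (he : ¬ (e ∈ O ↔ e ∈ O')) :
    ∃ l : Bool × Dir d, ¬ (nxt e l ∈ O ↔ nxt e l ∈ O') ∧ U (nxt e l) < U e := by
  classical
  have hed : ed e.1 (e.2, true) = e := by simp [ed]
  have h1 := h e.1 (e.2, true)
  have h2 := h' e.1 (e.2, true)
  rw [hed] at h1 h2
  have key : ∀ z : V d, nOpen U O z (U e) ≠ nOpen U O' z (U e) →
      ∃ i : Dir d, ¬ (ed z i ∈ O ↔ ed z i ∈ O') ∧ U (ed z i) < U e := by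
    intro z hz
    by_contra hcon
    push Not at hcon
    refine hz ?_
    unfold nOpen
    congr 1
    refine Finset.filter_congr fun i _ => ?_
    constructor
    · rintro ⟨h3, h4⟩
      refine ⟨?_, h4⟩
      by_contra h5
      exact absurd h4 (not_lt.2 (hcon i (by tauto)))
    · rintro ⟨h3, h4⟩
      refine ⟨?_, h4⟩
      by_contra h5
      exact absurd h4 (not_lt.2 (hcon i (by tauto)))
  by_cases hA : nOpen U O e.1 (U e) = nOpen U O' e.1 (U e)
  · by_cases hB : nOpen U O (e.1 + stp (e.2, true)) (U e)
        = nOpen U O' (e.1 + stp (e.2, true)) (U e)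
    · exfalso
      apply he
      rw [h1, h2, hA, hB]
    · obtain ⟨i, hi⟩ := key _ hB
      exact ⟨(true, i), by simpa [nxt] using hi⟩
  · obtain ⟨i, hi⟩ := key _ hA
    exact ⟨(false, i), by simpa [nxt] using hi⟩

theorem exists_chain {κ d : ℕ} {U : Edge d → ℝ} {O O' : Set (Edge d)} (h : Stable κ U O)
    (h' : Stable κ U O') (hne : O ≠ O') :
    ∃ e : Edge d, ∃ c : ℕ → Bool × Dir d, ∀ n, U (chn e c (n + 1)) < U (chn e c n) := by
  classical
  obtain ⟨e, he⟩ : ∃ e, ¬ (e ∈ O ↔ e ∈ O') := by
    by_contra hcon
    push Not at hcon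
    exact hne (Set.ext hcon)
  have : Nonempty (Bool × Dir d) := ⟨(true, (e.2, true))⟩
  choose! l hl using exists_next h h'
  let s : ℕ → Edge d := fun n => Nat.rec e (fun _ f => nxt f (l f)) n
  have hs : ∀ n, s (n + 1) = nxt (s n) (l (s n)) := fun n => rfl
  have hP : ∀ n, ¬ (s n ∈ O ↔ s n ∈ O') := by
    intro n
    induction n with
    | zero => exact he
    | succ n ih =>
      rw [hs]
      exact (hl _ ih).1
  have hc : ∀ n, chn e (fun k => l (s k)) n = s n := by
    intro n
    induction n with
    | zero => rfl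
    | succ n ih => rw [chn, ih, hs]
  refine ⟨e, fun k => l (s k), fun n => ?_⟩
  rw [hc, hc, hs]
  exact (hl _ (hP n)).2

theorem ae_unique (κ d : ℕ) :
    ∀ᵐ U ∂lawU d, ∀ O O', Stable κ U O → Stable κ U O' → O = O' := by
  have hnull : ∀ᵐ U ∂lawU d, ∀ e : Edge d,
      ¬ ∃ c : ℕ → Bool × Dir d, ∀ n, U (chn e c (n + 1)) < U (chn e c n) := by
    rw [ae_all_iff]
    intro e
    rw [ae_iff]
    simp only [not_not]
    exact chain_null e
  filter_upwards [hnull] with U hU O O' h h'
  by_contra hne
  obtain ⟨e, c, hc⟩ := exists_chain h h' hne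
  exact hU e ⟨c, hc⟩

end H42.CD
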