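import Pool.Agent.H42.CD.Perc
import Pool.Agent.H42.CD.NoPerc
import Pool.Agent.H42.CD.Uniq

/-!
# Final theorem (assembly, helper42)
-/

open MeasureTheory Set Filter
open scoped ENNReal Topology

namespace H42.CD

theorem cluster_mono {d : ℕ} {U : Edge d → ℝ} {O : Set (Edge d)} {t t' : ℝ} (h : t ≤ t')
    (x : V d) : cluster U O t x ⊆ cluster U O t' x := by
  intro y hy
  exact Relation.ReflTransGen.mono (r := Linked U O t) (p := Linked U O t')
    (fun a b ⟨i, h1, h2, h3⟩ => ⟨i, h1, h2, h3.trans h⟩) _ _ hy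

theorem theta_mono (κ d : ℕ) {t t' : ℝ} (h : t ≤ t') : theta κ d t ≤ theta κ d t' := by
  unfold theta
  refine measure_mono ?_
  rintro U ⟨O, hO, hinf⟩
  exact ⟨O, hO, hinf.mono (cluster_mono h 0)⟩

theorem le_tc {κ d : ℕ} {r : ℝ} (h : theta κ d r = 0) : (r : EReal) ≤ tc κ d := by
  unfold tc
  refine le_sInf ?_
  rintro x ⟨t, _, _, rfl, hpos⟩
  by_contra hlt
  rw [not_le, EReal.coe_lt_coe_iff] at hlt
  have := theta_mono κ d hlt.le
  rw [h] at this
  exact absurd hpos (not_lt.2 this)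

theorem tc_le {κ d : ℕ} {r : ℝ} (h0 : 0 ≤ r) (h1 : r ≤ 1) (h : 0 < theta κ d r) :
    tc κ d ≤ (r : EReal) :=
  sInf_le ⟨r, h0, h1, rfl, h⟩

theorem main {κ : ℕ} (hκ : 3 ≤ κ) :
    Tendsto (fun d : ℕ => (d : EReal) * tc κ d) atTop (𝓝 ((sc κ / 2 : ℝ) : EReal)) := by
  have hsc := one_le_sc hκ
  rw [tendsto_order]
  constructor
  · intro a ha
    obtain ⟨r, hr1, hr2⟩ : ∃ r : ℝ, a < (r : EReal) ∧ r < sc κ / 2 := by
      obtain ⟨q, hq1, hq2⟩ := EReal.exists_rat_btwn_of_lt ha
      exact ⟨(q : ℝ), hq1, by exact_mod_cast hq2⟩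
    set r' : ℝ := max r (sc κ / 4) with hr'
    have h1 : a < (r' : EReal) := hr1.trans_le (by exact_mod_cast le_max_left _ _)
    have h2 : r' < sc κ / 2 := max_lt hr2 (by linarith)
    have h3 : 0 < r' := lt_of_lt_of_le (by linarith) (le_max_right _ _)
    obtain ⟨d0, hd0⟩ := no_perc hκ (s := 2 * r') (by linarith) (by linarith)
    filter_upwards [eventually_ge_atTop (max d0 1)] with d hd
    have hd1 : d0 ≤ d := (le_max_left _ _).trans hd
    have hd2 : 1 ≤ d := (le_max_right _ _).trans hd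
    have hdpos : (0:ℝ) < d := by exact_mod_cast hd2
    have h4 := le_tc (hd0 d hd1)
    have h5 : ((r' : ℝ) : EReal) ≤ (d : EReal) * tc κ d := by
      have h6 : ((r' : ℝ) : EReal) = (d : EReal) * ((2 * r' / (2 * d) : ℝ) : EReal) := by
        rw [← EReal.coe_natCast, ← EReal.coe_mul]
        congr 1
        field_simp
      rw [h6]
      exact mul_le_mul_of_nonneg_left h4 (by positivity)
    exact h1.trans_le h5
  · intro a ha
    obtain ⟨r, hr1, hr2⟩ : ∃ r : ℝ, (r : EReal) < a ∧ sc κ / 2 < r := by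
      obtain ⟨q, hq1, hq2⟩ := EReal.exists_rat_btwn_of_lt ha
      exact ⟨(q : ℝ), hq2, by exact_mod_cast hq1⟩
    obtain ⟨d0, hd0⟩ := perc hκ (s := 2 * r) (by linarith)
    filter_upwards [eventually_ge_atTop (max d0 (⌈2 * r⌉₊ + 1))] with d hd
    have hd1 : d0 ≤ d := (le_max_left _ _).trans hd
    have hd2 : ⌈2 * r⌉₊ + 1 ≤ d := (le_max_right _ _).trans hd
    have hdpos : (0:ℝ) < d := by exact_mod_cast (show 0 < d by omega)
    have h7 : 2 * r ≤ d := (Nat.le_ceil _).trans (by exact_mod_cast (by omega : ⌈2 * r⌉₊ ≤ d))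
    have h4 : tc κ d ≤ ((2 * r / (2 * d) : ℝ) : EReal) := by
      refine tc_le (by have : 0 < r := by linarith
                       positivity) ?_ (hd0 d hd1)
      rw [div_le_one (by positivity)]
      linarith
    have h5 : (d : EReal) * tc κ d ≤ ((r : ℝ) : EReal) := by
      have h6 : ((r : ℝ) : EReal) = (d : EReal) * ((2 * r / (2 * d) : ℝ) : EReal) := by
        rw [← EReal.coe_natCast, ← EReal.coe_mul]
        congr 1
        field_simp
      rw [h6]
      exact mul_le_mul_of_nonneg_left h4 (by positivity)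
    exact h5.trans_lt hr1

/-- for almost every family of times there is exactly one stable set -/
theorem ae_exists_unique (κ d : ℕ) : ∀ᵐ U ∂lawU d, ∃! O, Stable κ U O := by
  filter_upwards [ae_unique κ d] with U hU
  obtain ⟨O, hO⟩ := exists_stable κ U
  exact ⟨O, hO, fun O' hO' => hU O' O hO' hO⟩

end H42.CD
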