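import Pool.Agent.H42.CD.Basic

/-!
# Module GEO: good forests are embedded

Fix a path `pos x w ·` with `len` letters and `WordOK w len`, and a forest `W` with `len - 1` roots, root `j`
being the vertex `pos x w (j + 1)`, with `Good t k (crd w len) W`. A vertex is a pair `(j, p)` with `p = []` or
`p` revealed, with the list of letters `ell w j p = w 1, ..., w j, letters of p`; its position is
`pos x w 1 + Σ stp`. The letters have distinct coordinates.
-/

open MeasureTheory Set Filter
open scoped ENNReal Topology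

namespace H42.CD

/-- an inspected edge which is not a ghost -/
def Insp {d : ℕ} (w : ℕ → Dir d) (len : ℕ) (t : ℝ) (k : ℕ) (W : Fin (len - 1) → TC (Dir d))
    (j : Fin (len - 1)) (p : List (Dir d)) (i : Dir d) : Prop :=
  (p = [] ∧ i ≠ rev (w j) ∧ i ≠ w (j + 1)) ∨
    (Rvl t k (W j) p ∧ ∀ q l, p = q ++ [l] → i ≠ rev l)

section lists

variable {d : ℕ}

/-- sign of a letter -/
def sgn (l : Dir d) : ℤ := if l.2 then 1 else -1

theorem sgn_ne (l : Dir d) : sgn l ≠ 0 := by
  unfold sgn; split_ifs <;> simp

theorem sgn_rev (l : Dir d) : sgn (rev l) = - sgn l := by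
  rcases l with ⟨a, b⟩
  cases b <;> simp [sgn, rev]

theorem stp_self (l : Dir d) : stp l l.1 = sgn l := by
  rw [stp_apply, if_pos rfl]; rfl

theorem stp_of_ne {l : Dir d} {a : Fin d} (h : l.1 ≠ a) : stp l a = 0 := by
  rw [stp_apply, if_neg (fun h' => h h'.symm)]

theorem dir_eq {l l' : Dir d} (h : l.1 = l'.1) (hs : sgn l = sgn l') : l = l' := by
  rcases l with ⟨a, b⟩
  rcases l' with ⟨a', b'⟩
  simp only at h
  subst h
  cases b <;> cases b' <;> simp_all [sgn]

theorem sum_none (ℓ : List (Dir d)) (a : Fin d) (h : ∀ l ∈ ℓ, l.1 ≠ a) :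
    (ℓ.map stp).sum a = 0 := by
  induction ℓ with
  | nil => simp
  | cons b ℓ ih =>
    rw [List.map_cons, List.sum_cons, Pi.add_apply, stp_of_ne (h b (by simp)),
      ih (fun l hl => h l (by simp [hl]))]
    simp

theorem sum_mem (ℓ : List (Dir d)) (hn : (ℓ.map Prod.fst).Nodup) {l : Dir d} (h : l ∈ ℓ) :
    (ℓ.map stp).sum l.1 = sgn l := by
  induction ℓ with
  | nil => simp at h
  | cons b ℓ ih =>
    rw [List.map_cons, List.nodup_cons] at hn
    rw [List.map_cons, List.sum_cons, Pi.add_apply]
    rcases List.mem_cons.1 h with rfl | h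
    · rw [stp_self, sum_none]
      · simp
      · intro m hm hml
        exact hn.1 (hml ▸ List.mem_map_of_mem hm)
    · rw [ih hn.2 h, stp_of_ne]
      · simp
      · intro hb
        exact hn.1 (hb ▸ List.mem_map_of_mem h)

/-- letters of the vertex `(j, p)` -/
def ell (w : ℕ → Dir d) (j : ℕ) (p : List (Dir d)) : List (Dir d) :=
  (List.range' 1 j).map w ++ p

theorem mem_ell {w : ℕ → Dir d} {j : ℕ} {p : List (Dir d)} {l : Dir d} :
    l ∈ ell w j p ↔ (∃ c, 1 ≤ c ∧ c ≤ j ∧ w c = l) ∨ l ∈ p := by
  unfold ell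
  rw [List.mem_append, List.mem_map]
  constructor
  · rintro (⟨c, h1, h2⟩ | h)
    · rw [List.mem_range'_1] at h1
      exact Or.inl ⟨c, h1.1, by omega, h2⟩
    · exact Or.inr h
  · rintro (⟨c, h1, h2, h3⟩ | h)
    · exact Or.inl ⟨c, List.mem_range'_1.2 ⟨h1, by omega⟩, h3⟩
    · exact Or.inr h

theorem pos_eq_range (x : V d) (w : ℕ → Dir d) (j : ℕ) :
    pos x w (j + 1) = pos x w 1 + (((List.range' 1 j).map w).map stp).sum := by
  induction j with
  | zero => simp
  | succ j ih =>
    rw [pos_succ, ih, List.range'_1_concat, List.map_append, List.map_append, List.sum_append,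
      add_assoc]
    simp [add_comm]

theorem position (x : V d) (w : ℕ → Dir d) (j : ℕ) (p : List (Dir d)) :
    endp (pos x w (j + 1)) p = pos x w 1 + ((ell w j p).map stp).sum := by
  unfold endp ell
  rw [pos_eq_range, List.map_append, List.sum_append, add_assoc]

end lists

section forest

variable {d len k : ℕ} {t : ℝ} {w : ℕ → Dir d} {W : Fin (len - 1) → TC (Dir d)}

/-- `p` is the word of a vertex -/
def Vtx (t : ℝ) (k : ℕ) (W : Fin (len - 1) → TC (Dir d)) (j : Fin (len - 1))
    (p : List (Dir d)) : Prop := p = [] ∨ Rvl t k (W j) p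

theorem word_inj (hw : WordOK w len) {c c' : ℕ} (h1 : 1 ≤ c) (h2 : c < len - 1)
    (h1' : 1 ≤ c') (h2' : c' < len - 1) (h : (w c).1 = (w c').1) : c = c' := by
  rcases lt_trichotomy c c' with hlt | heq | hlt
  · have := hw.2 c c' hlt (by omega) h
    omega
  · exact heq
  · have := hw.2 c' c hlt (by omega) h.symm
    omega

theorem mem_crd {c : ℕ} (hc : c < len) : (w c).1 ∈ crd w len :=
  Finset.mem_image.2 ⟨c, Finset.mem_range.2 hc, rfl⟩

/-- every letter of a revealed word is the last letter of a revealed prefix -/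
theorem prefix_of_mem {j : Fin (len - 1)} {p : List (Dir d)} (hp : Rvl t k (W j) p)
    {l : Dir d} (hl : l ∈ p) : ∃ q, (q ++ [l]) <+: p ∧ Rvl t k (W j) (q ++ [l]) := by
  obtain ⟨s, r, hsr⟩ := List.append_of_mem hl
  have h1 : (s ++ [l]) <+: p := ⟨r, by rw [hsr]; simp⟩
  refine ⟨s, h1, by simp, h1.length_le.trans hp.2.1, ?_⟩
  intro q hq hqp
  exact hp.2.2 q hq (hqp.trans h1)

theorem letter_not_crd (hG : Good t k (crd w len) W) {j : Fin (len - 1)} {p : List (Dir d)}
    (hp : Vtx t k W j p) {l : Dir d} (hl : l ∈ p) : l.1 ∉ crd w len := by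
  rcases hp with rfl | hp
  · simp at hl
  · obtain ⟨q, _, hq⟩ := prefix_of_mem hp hl
    exact hG.1 j q l hq

/-- two letters of revealed words with the same coordinate -/
theorem letter_eq (hG : Good t k (crd w len) W) {j j' : Fin (len - 1)} {p p' : List (Dir d)}
    (hp : Vtx t k W j p) (hp' : Vtx t k W j' p') {l l' : Dir d} (hl : l ∈ p) (hl' : l' ∈ p')
    (h : l.1 = l'.1) : l = l' ∧ j = j' := by
  rcases hp with rfl | hp
  · simp at hl
  rcases hp' with rfl | hp'
  · simp at hl'
  obtain ⟨q, _, hq⟩ := prefix_of_mem hp hl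
  obtain ⟨q', _, hq'⟩ := prefix_of_mem hp' hl'
  have := hG.2 j q l j' q' l' hq hq' h
  exact ⟨this.2.2, this.1⟩

/-- the last letter of a revealed word `p` occurs in a revealed `p'` only if `p` is a prefix of it -/
theorem prefix_of_last (hG : Good t k (crd w len) W) {j j' : Fin (len - 1)}
    {q p' : List (Dir d)} {l : Dir d}
    (hp : Rvl t k (W j) (q ++ [l])) (hp' : Vtx t k W j' p') (hl : l ∈ p') :
    (q ++ [l]) <+: p' := by
  rcases hp' with rfl | hp'
  · simp at hl
  obtain ⟨q', h1, hq'⟩ := prefix_of_mem hp' hl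
  have := (hG.2 j q l j' q' l hp hq' rfl).2.1
  rw [this]; exact h1

theorem nodup_word (hG : Good t k (crd w len) W) {j : Fin (len - 1)} {p : List (Dir d)}
    (hp : Vtx t k W j p) : (p.map Prod.fst).Nodup := by
  induction p using List.reverseRecOn with
  | nil => simp
  | append_singleton p i ih =>
    have hp1 : Rvl t k (W j) (p ++ [i]) := hp.resolve_left (by simp)
    have hp2 : Vtx t k W j p := by
      by_cases h : p = []
      · exact Or.inl h
      · refine Or.inr ⟨h, ?_, ?_⟩
        · have := hp1.2.1; simp at this; omega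
        · intro q hq hqp
          exact hp1.2.2 q hq (hqp.trans (List.prefix_append _ _))
    rw [List.map_append, List.nodup_append]
    refine ⟨ih hp2, by simp, ?_⟩
    intro a ha b hb hab
    simp only [List.map_cons, List.map_nil, List.mem_singleton] at hb
    obtain ⟨l, hl, rfl⟩ := List.mem_map.1 ha
    subst hb
    have hp3 : Rvl t k (W j) p := hp2.resolve_left (by rintro rfl; simp at hl)
    obtain ⟨q, hq1, hq2⟩ := prefix_of_mem hp3 hl
    have := (hG.2 j q l j p i hq2 hp1 hab).2.1
    subst this
    have := hq1.length_le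
    simp at this

theorem nodup_ell (hw : WordOK w len) (hG : Good t k (crd w len) W) {j : Fin (len - 1)}
    {p : List (Dir d)} (hp : Vtx t k W j p) : ((ell w j p).map Prod.fst).Nodup := by
  unfold ell
  rw [List.map_append, List.nodup_append]
  have h3 := hw.1
  refine ⟨?_, nodup_word hG hp, ?_⟩
  · rw [List.map_map]
    refine List.Nodup.map_on ?_ List.nodup_range'
    intro c hc c' hc' h
    rw [List.mem_range'_1] at hc hc'
    exact word_inj hw hc.1 (by omega) hc'.1 (by omega) h
  · intro a ha b hb hab
    obtain ⟨l, hl, rfl⟩ := List.mem_map.1 ha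
    obtain ⟨c, hc, rfl⟩ := List.mem_map.1 hl
    obtain ⟨m, hm, rfl⟩ := List.mem_map.1 hb
    rw [List.mem_range'_1] at hc
    exact letter_not_crd hG hp hm (hab ▸ mem_crd (by omega))

/-- letters of two vertices with the same coordinate coincide -/
theorem ell_eq (hw : WordOK w len) (hG : Good t k (crd w len) W) {j j' : Fin (len - 1)}
    {p p' : List (Dir d)} (hp : Vtx t k W j p) (hp' : Vtx t k W j' p') {l l' : Dir d}
    (hl : l ∈ ell w j p) (hl' : l' ∈ ell w j' p') (h : l.1 = l'.1) : l = l' := by
  rw [mem_ell] at hl hl'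
  rcases hl with ⟨c, h1, h2, rfl⟩ | hl
  · rcases hl' with ⟨c', h1', h2', rfl⟩ | hl'
    · rw [word_inj hw h1 (by omega) h1' (by omega) h]
    · exact absurd (h ▸ mem_crd (by omega)) (letter_not_crd hG hp' hl')
  · rcases hl' with ⟨c', h1', h2', rfl⟩ | hl'
    · exact absurd (h.symm ▸ mem_crd (by omega)) (letter_not_crd hG hp hl)
    · exact (letter_eq hG hp hp' hl hl' h).1

/-- value of a position at a coordinate -/
theorem val_mem (hw : WordOK w len) (hG : Good t k (crd w len) W) (x : V d)
    {j : Fin (len - 1)} {p : List (Dir d)} (hp : Vtx t k W j p) {l : Dir d}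
    (hl : l ∈ ell w j p) :
    endp (pos x w (j + 1)) p l.1 = pos x w 1 l.1 + sgn l := by
  rw [position, Pi.add_apply, sum_mem _ (nodup_ell hw hG hp) hl]

theorem val_none (x : V d) {j : Fin (len - 1)} {p : List (Dir d)} {a : Fin d}
    (hl : ∀ l ∈ ell w j p, l.1 ≠ a) :
    endp (pos x w (j + 1)) p a = pos x w 1 a := by
  rw [position, Pi.add_apply, sum_none _ _ hl, add_zero]

/-- if the values at the coordinate of a letter agree, the letter is common -/
theorem mem_of_val (hw : WordOK w len) (hG : Good t k (crd w len) W) (x : V d)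
    {j j' : Fin (len - 1)} {p p' : List (Dir d)} (hp : Vtx t k W j p) (hp' : Vtx t k W j' p')
    {l : Dir d} (hl : l ∈ ell w j p)
    (h : endp (pos x w (j + 1)) p l.1 = endp (pos x w (j' + 1)) p' l.1) : l ∈ ell w j' p' := by
  by_contra hn
  have hnone : ∀ m ∈ ell w j' p', m.1 ≠ l.1 := by
    intro m hm hml
    have := ell_eq hw hG hp hp' hl hm hml.symm
    subst this
    exact hn hm
  rw [val_mem hw hG x hp hl, val_none x hnone] at h
  exact sgn_ne l (by linarith)

theorem idx_le (hw : WordOK w len) (hG : Good t k (crd w len) W) {j j' : Fin (len - 1)}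
    {p : List (Dir d)} (hp : Vtx t k W j p)
    (h : ∀ c, 1 ≤ c → c ≤ j'.val → w c ∈ ell w j p) : j'.val ≤ j.val := by
  by_contra hlt
  have h1 := h j'.val (by omega) le_rfl
  rw [mem_ell] at h1
  rcases h1 with ⟨c, h2, h3, h4⟩ | h1
  · have := word_inj hw h2 (by omega) (by omega : 1 ≤ j'.val) (by omega) (congrArg Prod.fst h4)
    omega
  · exact letter_not_crd hG hp h1 (mem_crd (by omega))

/-- letters of `p'` that belong to the other vertex belong to its word -/
theorem mem_word (hw : WordOK w len) (hG : Good t k (crd w len) W) {j j' : Fin (len - 1)}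
    {p p' : List (Dir d)} (hp' : Vtx t k W j' p') {l : Dir d}
    (hl : l ∈ p') (h : l ∈ ell w j p) : l ∈ p := by
  rw [mem_ell] at h
  rcases h with ⟨c, h2, h3, h4⟩ | h1
  · exact absurd (h4 ▸ mem_crd (by omega)) (letter_not_crd hG hp' hl)
  · exact h1

theorem prefix_of_sub (hG : Good t k (crd w len) W) {j j' : Fin (len - 1)}
    {p p' : List (Dir d)} (hp : Vtx t k W j p) (hp' : Vtx t k W j' p')
    (h : ∀ l ∈ p, l ∈ p') : p <+: p' := by
  rcases hp with rfl | hp
  · exact List.nil_prefix
  · rcases List.eq_nil_or_concat p with rfl | ⟨q, l, rfl⟩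
    · exact List.nil_prefix
    · rw [List.concat_eq_append] at hp h ⊢
      exact prefix_of_last hG hp hp' (h l (by simp))

theorem vertex_inj (hw : WordOK w len) (hG : Good t k (crd w len) W) (x : V d)
    {j j' : Fin (len - 1)} {p p' : List (Dir d)} (hp : Vtx t k W j p) (hp' : Vtx t k W j' p')
    (h : endp (pos x w (j + 1)) p = endp (pos x w (j' + 1)) p') : j = j' ∧ p = p' := by
  have h1 : ∀ l ∈ ell w j p, l ∈ ell w j' p' := fun l hl =>
    mem_of_val hw hG x hp hp' hl (congrFun h _)
  have h2 : ∀ l ∈ ell w j' p', l ∈ ell w j p := fun l hl =>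
    mem_of_val hw hG x hp' hp hl (congrFun h.symm _)
  constructor
  · apply Fin.ext
    apply le_antisymm
    · exact idx_le hw hG hp' fun c hc hcj => h1 _ (mem_ell.2 (Or.inl ⟨c, hc, hcj, rfl⟩))
    · exact idx_le hw hG hp fun c hc hcj => h2 _ (mem_ell.2 (Or.inl ⟨c, hc, hcj, rfl⟩))
  · have h3 : p <+: p' := prefix_of_sub hG hp hp' fun l hl =>
      mem_word hw hG hp hl (h1 l (mem_ell.2 (Or.inr hl)))
    have h4 : p' <+: p := prefix_of_sub hG hp' hp fun l hl =>
      mem_word hw hG hp' hl (h2 l (mem_ell.2 (Or.inr hl)))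
    exact h3.eq_of_length (le_antisymm h3.length_le h4.length_le)

/-- adjacent vertices -/
theorem vertex_adj (hw : WordOK w len) (hG : Good t k (crd w len) W) (x : V d)
    {j j' : Fin (len - 1)} {p p' : List (Dir d)} {i : Dir d} (hp : Vtx t k W j p)
    (hp' : Vtx t k W j' p')
    (h : endp (pos x w (j' + 1)) p' = endp (pos x w (j + 1)) p + stp i)
    (hno : ∀ l ∈ ell w j p, l.1 ≠ i.1) :
    (j' = j ∧ p' = p ++ [i]) ∨ (j'.val = j.val + 1 ∧ p = [] ∧ p' = [] ∧ i = w (j + 1)) := by
  have hi : i ∈ ell w j' p' := by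
    have h1 := congrFun h i.1
    rw [Pi.add_apply, stp_self, val_none x hno] at h1
    by_cases hex : ∃ l ∈ ell w j' p', l.1 = i.1
    · obtain ⟨l, hl, hli⟩ := hex
      have h2 := val_mem hw hG x hp' hl
      rw [hli, h1] at h2
      have : l = i := dir_eq hli (by linarith)
      rw [← this]; exact hl
    · push Not at hex
      rw [val_none x hex] at h1
      exact absurd (by linarith : sgn i = 0) (sgn_ne i)
  have h1 : ∀ l ∈ ell w j p, l ∈ ell w j' p' := by
    intro l hl
    refine mem_of_val hw hG x hp hp' hl ?_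
    rw [h, Pi.add_apply, stp_of_ne (fun h' => hno l hl h'.symm), add_zero]
  have h2 : ∀ l ∈ ell w j' p', l ≠ i → l ∈ ell w j p := by
    intro l hl hli
    have hne : l.1 ≠ i.1 := fun h' => hli (ell_eq hw hG hp' hp' hl hi h')
    refine mem_of_val hw hG x hp' hp hl ?_
    rw [h, Pi.add_apply, stp_of_ne (fun h' => hne h'.symm), add_zero]
  have hle : j.val ≤ j'.val := idx_le hw hG hp' fun c hc hcj =>
    h1 _ (mem_ell.2 (Or.inl ⟨c, hc, hcj, rfl⟩))
  rw [mem_ell] at hi
  rcases hi with ⟨c, hc1, hc2, hc3⟩ | hi
  · -- `i` is a path letter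
    right
    have hcj : j.val < c := by
      by_contra hlt
      exact hno (w c) (mem_ell.2 (Or.inl ⟨c, hc1, by omega, rfl⟩)) (congrArg Prod.fst hc3)
    have huniq : ∀ c', j.val < c' → c' ≤ j'.val → c' = c := by
      intro c' h3 h4
      by_contra hne
      have h5 : w c' ≠ i := by
        rw [← hc3]
        intro h6
        exact hne (word_inj hw (by omega) (by omega) hc1 (by omega) (congrArg Prod.fst h6))
      have h6 := h2 (w c') (mem_ell.2 (Or.inl ⟨c', by omega, h4, rfl⟩)) h5
      rw [mem_ell] at h6
      rcases h6 with ⟨c'', h7, h8, h9⟩ | h6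
      · have := word_inj hw h7 (by omega) (by omega : 1 ≤ c') (by omega) (congrArg Prod.fst h9)
        omega
      · exact letter_not_crd hG hp h6 (mem_crd (by omega))
    have hcc : c = j.val + 1 := (huniq (j.val + 1) (by omega) (by omega)).symm
    have hj' : j'.val = j.val + 1 := by
      have := huniq j'.val (by omega) le_rfl
      omega
    have hcoord : ∀ l ∈ p', l ≠ i := by
      intro l hl hli
      subst hli
      exact letter_not_crd hG hp' hl (hc3 ▸ mem_crd (by omega))
    have hpnil : p = [] := by
      by_contra hne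
      obtain ⟨l, hl⟩ := List.exists_mem_of_ne_nil p hne
      have h3 : l ∈ p' := mem_word hw hG hp hl (h1 l (mem_ell.2 (Or.inr hl)))
      have := (letter_eq hG hp hp' hl h3 rfl).2
      rw [this] at hj'
      omega
    have hpnil' : p' = [] := by
      by_contra hne
      obtain ⟨l, hl⟩ := List.exists_mem_of_ne_nil p' hne
      have h3 : l ∈ p := mem_word hw hG hp' hl
        (h2 l (mem_ell.2 (Or.inr hl)) (hcoord l hl))
      rw [hpnil] at h3
      simp at h3
    exact ⟨hj', hpnil, hpnil', by rw [← hc3, hcc]⟩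
  · -- `i` is a letter of `p'`
    left
    have hicrd := letter_not_crd hG hp' hi
    have hjj : j' = j := by
      apply Fin.ext
      refine le_antisymm ?_ hle
      refine idx_le hw hG hp fun c hc hcj => h2 _ (mem_ell.2 (Or.inl ⟨c, hc, hcj, rfl⟩)) ?_
      intro h3
      exact hicrd (h3 ▸ mem_crd (by omega))
    refine ⟨hjj, ?_⟩
    have hp'1 : Rvl t k (W j') p' := hp'.resolve_left (by rintro rfl; simp at hi)
    obtain ⟨q', l', hq'⟩ : ∃ q' l', p' = q' ++ [l'] := by
      rcases List.eq_nil_or_concat p' with rfl | ⟨q', l', h3⟩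
      · simp at hi
      · exact ⟨q', l', by rw [h3, List.concat_eq_append]⟩
    have hl'i : l' = i := by
      by_contra hne
      have h3 : l' ∈ p := by
        refine mem_word hw hG hp' (by rw [hq']; simp) (h2 l' (mem_ell.2 (Or.inr ?_)) hne)
        rw [hq']; simp
      have h4 : (q' ++ [l']) <+: p := prefix_of_last hG (hq' ▸ hp'1) hp h3
      have h5 : i ∈ p := h4.subset (hq' ▸ hi)
      exact hno i (mem_ell.2 (Or.inr h5)) rfl
    subst hl'i
    have hq'v : Vtx t k W j' q' := by
      by_cases h3 : q' = []
      · exact Or.inl h3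
      · refine Or.inr ⟨h3, ?_, ?_⟩
        · have h4 := hp'1.2.1
          rw [hq'] at h4
          simp at h4
          omega
        · intro r hr hrq
          exact hp'1.2.2 r hr (by rw [hq']; exact hrq.trans (List.prefix_append _ _))
    have hlq : l' ∉ q' := by
      intro h3
      have h4 := nodup_word hG hp'
      rw [hq', List.map_append, List.nodup_append] at h4
      exact h4.2.2 l'.1 (List.mem_map_of_mem h3) l'.1 (by simp) rfl
    have h3 : q' <+: p := prefix_of_sub hG hq'v hp fun l hl => by
      have hl' : l ∈ p' := by rw [hq']; simp [hl]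
      exact mem_word hw hG hp' hl' (h2 l (mem_ell.2 (Or.inr hl')) (by
        rintro rfl; exact hlq hl))
    have h4 : p <+: q' := prefix_of_sub hG hp hq'v fun l hl => by
      have h5 : l ∈ p' := mem_word hw hG hp hl (h1 l (mem_ell.2 (Or.inr hl)))
      rw [hq', List.mem_append, List.mem_singleton] at h5
      rcases h5 with h5 | h5
      · exact h5
      · exact absurd rfl (h5 ▸ hno l (mem_ell.2 (Or.inr hl)))
    rw [hq', h3.eq_of_length (le_antisymm h3.length_le h4.length_le)]

end forest

theorem path_inj {d len : ℕ} {w : ℕ → Dir d} (hw : WordOK w len) (x : V d) :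
    Set.InjOn (pe x w) {c | c < len} := by
  have key : ∀ c c' : ℕ, c < c' → c' < len → pe x w c ≠ pe x w c' := by
    intro c c' hcc hc' he
    have hco : (w c).1 = (w c').1 := by
      have h2 : ∀ (y : V d) (i : Dir d), (ed y i).2 = i.1 := by
        intro y i; unfold ed; split_ifs <;> rfl
      have := congrArg Prod.snd he
      unfold pe at this
      rwa [h2, h2] at this
    obtain ⟨h0, h1⟩ := hw.2 c c' hcc hc' hco
    subst h0 h1
    have h3 := hw.1
    -- value at the coordinate of `w 1`
    have hv : pos x w (len - 1) (w 1).1 = pos x w 0 (w 1).1 + sgn (w 1) := by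
      unfold pos
      rw [Pi.add_apply, Finset.sum_apply, Finset.sum_eq_single 1]
      · simp [stp_self]
      · intro c hc hc1
        rw [Finset.mem_range] at hc
        apply stp_of_ne
        intro h4
        rcases Nat.lt_or_gt_of_ne hc1 with h5 | h5
        · have := hw.2 c 1 h5 (by omega) h4
          omega
        · have := hw.2 1 c h5 (by omega) h4.symm
          omega
      · intro h4
        exact absurd (Finset.mem_range.2 (by omega)) h4
    have h01 : (w 0).1 ≠ (w 1).1 := by
      intro h4
      have := hw.2 0 1 (by omega) (by omega) h4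
      omega
    unfold pe at he
    rw [ed_eq_iff] at he
    rcases he with ⟨h4, _⟩ | ⟨h4, _⟩
    · rw [← h4] at hv
      exact sgn_ne (w 1) (by linarith)
    · have := congrFun h4 (w 1).1
      rw [Pi.add_apply, stp_of_ne h01, hv] at this
      exact sgn_ne (w 1) (by linarith)
  intro c hc c' hc' he
  rcases lt_trichotomy c c' with h | h | h
  · exact absurd he (key c c' h hc')
  · exact h
  · exact absurd he.symm (key c' c h hc)

theorem insp_vtx {d len k : ℕ} {t : ℝ} {w : ℕ → Dir d} {W : Fin (len - 1) → TC (Dir d)}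
    {j : Fin (len - 1)} {p : List (Dir d)} {i : Dir d} (h : Insp w len t k W j p i) :
    Vtx t k W j p := by
  rcases h with h | h
  · exact Or.inl h.1
  · exact Or.inr h.1

theorem geo_inj {d len k : ℕ} {t : ℝ} {w : ℕ → Dir d} (hw : WordOK w len) (x : V d)
    {W : Fin (len - 1) → TC (Dir d)} (hG : Good t k (crd w len) W)
    {j j' : Fin (len - 1)} {p p' : List (Dir d)} {i i' : Dir d}
    (h : Insp w len t k W j p i) (h' : Insp w len t k W j' p' i')
    (he : ed (endp (pos x w (j + 1)) p) i = ed (endp (pos x w (j' + 1)) p') i') :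
    j = j' ∧ p = p' ∧ i = i' := by
  have hv := insp_vtx h
  have hv' := insp_vtx h'
  rw [ed_eq_iff] at he
  rcases he with ⟨h1, h2⟩ | ⟨h1, h2⟩
  · obtain ⟨h3, h4⟩ := vertex_inj hw hG x hv hv' h1
    exact ⟨h3, h4, h2⟩
  · exfalso
    -- contradiction in both directions
    have key : ∀ {j j' : Fin (len - 1)} {p p' : List (Dir d)} {i : Dir d},
        Insp w len t k W j p i → Insp w len t k W j' p' (rev i) →
        (j' = j ∧ p' = p ++ [i]) ∨ (j'.val = j.val + 1 ∧ p = [] ∧ p' = [] ∧ i = w (j + 1)) →
        False := by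
      intro j j' p p' i hi hi' hc
      rcases hc with ⟨_, h4⟩ | ⟨_, h4, _, h6⟩
      · rcases hi' with hi' | hi'
        · rw [hi'.1] at h4
          simp at h4
        · exact hi'.2 p i h4 rfl
      · rcases hi with hi | hi
        · exact hi.2.2 h6
        · rw [h4] at hi
          exact hi.1.1 rfl
    by_cases hno : ∀ l ∈ ell w j p, l.1 ≠ i.1
    · exact key h (h2 ▸ h') (vertex_adj hw hG x hv hv' h1 hno)
    · push Not at hno
      obtain ⟨l, hl, hli⟩ := hno
      have hback : endp (pos x w (j + 1)) p = endp (pos x w (j' + 1)) p' + stp (rev i) := by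
        rw [h1, add_stp_rev]
      have hno' : ∀ m ∈ ell w j' p', m.1 ≠ (rev i).1 := by
        intro m hm hmi
        rw [rev_fst] at hmi
        have hlm : l = m := ell_eq hw hG hv hv' hl hm (hli.trans hmi.symm)
        subst hlm
        have h3 := val_mem hw hG x hv hl
        have h4 := val_mem hw hG x hv' hm
        have h5 := congrFun h1 l.1
        rw [Pi.add_apply, h3, h4, hmi, stp_self] at h5
        exact sgn_ne i (by linarith)
      refine key (i := rev i) (h2 ▸ h') (by rw [rev_rev]; exact h)
        (vertex_adj hw hG x hv' hv hback hno')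

theorem geo_path {d len k : ℕ} {t : ℝ} {w : ℕ → Dir d} (hw : WordOK w len) (x : V d)
    {W : Fin (len - 1) → TC (Dir d)} (hG : Good t k (crd w len) W)
    {j : Fin (len - 1)} {p : List (Dir d)} {i : Dir d} (h : Insp w len t k W j p i)
    {c : ℕ} (hc : c < len) : ed (endp (pos x w (j + 1)) p) i ≠ pe x w c := by
  have hv := insp_vtx h
  have h3 := hw.1
  -- the position of a vertex is a path vertex only for the roots
  have key : ∀ c', c' ≤ len → endp (pos x w (j + 1)) p = pos x w c' →
      j.val + 1 = c' ∧ p = [] := by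
    intro c' hc' he
    have hnoc : ∀ c'', c'' < len → (c'' = 0 ∨ c'' = len - 1) →
        ∀ l ∈ ell w j p, l.1 ≠ (w c'').1 := by
      intro c'' h4 h5 l hl hlc
      rw [mem_ell] at hl
      rcases hl with ⟨a, h6, h7, rfl⟩ | hl
      · rcases h5 with rfl | rfl
        · have := hw.2 0 a (by omega) (by omega) hlc.symm
          omega
        · have := hw.2 a (len - 1) (by omega) (by omega) hlc
          omega
      · exact letter_not_crd hG hv hl (hlc ▸ mem_crd h4)
    rcases Nat.eq_zero_or_pos c' with rfl | hpos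
    · exfalso
      have h4 := val_none x (hnoc 0 (by omega) (Or.inl rfl))
      rw [he, show (1 : ℕ) = 0 + 1 from rfl, pos_succ, Pi.add_apply, stp_self] at h4
      exact sgn_ne (w 0) (by linarith)
    · rcases Nat.lt_or_ge c' len with hlt | hge
      · have h4 : endp (pos x w ((⟨c' - 1, by omega⟩ : Fin (len - 1)) + 1)) []
            = pos x w c' := by
          unfold endp
          simp only [List.map_nil, List.sum_nil, add_zero]
          congr 1
          omega
        obtain ⟨h5, h6⟩ := vertex_inj hw hG x hv (Or.inl rfl) (he.trans h4.symm)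
        refine ⟨?_, h6⟩
        rw [h5]
        simp only
        omega
      · exfalso
        have hcl : c' = len := le_antisymm hc' hge
        have h4 := val_none x (hnoc (len - 1) (by omega) (Or.inr rfl))
        have h5 : pos x w c' (w (len - 1)).1 = pos x w 1 (w (len - 1)).1 + sgn (w (len - 1)) := by
          rw [hcl]
          have h6 : len = (len - 1) + 1 := by omega
          conv_lhs => rw [h6]
          rw [pos_eq_range, Pi.add_apply]
          congr 1
          refine sum_mem _ ?_ ?_
          · rw [List.map_map]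
            refine List.Nodup.map_on ?_ List.nodup_range'
            intro a ha b hb hab
            rw [List.mem_range'_1] at ha hb
            rcases lt_trichotomy a b with h7 | h7 | h7
            · have := hw.2 a b h7 (by omega) hab
              omega
            · exact h7
            · have := hw.2 b a h7 (by omega) hab.symm
              omega
          · exact List.mem_map.2 ⟨len - 1, List.mem_range'_1.2 ⟨by omega, by omega⟩, rfl⟩
        rw [he, h5] at h4
        exact sgn_ne _ (by linarith)
  intro he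
  unfold pe at he
  rw [ed_eq_iff] at he
  have hcase : ∀ i', i' = i → p = [] → i' ≠ rev (w j) ∧ i' ≠ w (j + 1) := by
    rintro i' rfl hp
    rcases h with h | h
    · exact h.2
    · exact absurd hp h.1.1
  rcases he with ⟨h4, h5⟩ | ⟨h4, h5⟩
  · obtain ⟨h6, h7⟩ := key c hc.le h4
    exact (hcase i rfl h7).2 (by rw [h5, ← h6])
  · have h8 : endp (pos x w (j + 1)) p = pos x w (c + 1) := by
      rw [pos_succ x w c, h4, h5, add_stp_rev]
    obtain ⟨h6, h7⟩ := key (c + 1) (by omega) h8
    refine (hcase i rfl h7).1 ?_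
    have h9 : j.val = c := by omega
    rw [h9, h5, rev_rev]

end H42.CD
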