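import Pool.Agent.H42.CD.Basic

/-!
# Module IND: product measures

* `map_inj`: the law of finitely many distinct coordinates. Proof: `Measure.pi_eq`; the preimage of
  a box is a box over the finite set `ι '' univ`, see `Measure.infinitePi_pi`; or use
  `Measure.infinitePi_map_restrict` and a reindexing.
* `indep_prod`: events depending on disjoint sets of coordinates are independent. Proof: induction on
  `s`. With `m e = comap (fun U => U e)`, the coordinates are independent
  (`ProbabilityTheory.iIndepFun_infinitePi`), so `ProbabilityTheory.indep_iSup_of_disjoint` gives the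
  independence of the σ-algebras `⨆ e ∈ S, m e` and `⨆ e ∈ S', m e` for disjoint `S, S'`. A measurable
  `A` with `Dep A S` is measurable for `⨆ e ∈ S, m e`: it is the preimage of
  `{u : S → ℝ | ext u ∈ A}` under the restriction, where `ext u` is `0` outside of `S`.
* `prob_le`, `prob_gt`: boxes. `unif (Iic t) = ofReal t`, `unif (Ioi t) = ofReal (1 - t)`.
* `ae_le_one`, `ae_ne`: almost sure properties of the times (countably many conditions; for
  `ae_ne`, two distinct coordinates are independent uniform: `map_inj` with a two-point set, the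
  diagonal is a null set of `unif.prod unif`).
-/

open MeasureTheory Set Filter
open scoped ENNReal Topology

namespace H42.CD

theorem map_inj {I J : Type} [Fintype J] (μ : Measure ℝ) [IsProbabilityMeasure μ] (ι : J → I)
    (hι : Function.Injective ι) :
    (Measure.infinitePi fun _ : I => μ).map (fun U j => U (ι j)) = Measure.pi fun _ : J => μ := by
  classical
  symm
  refine Measure.pi_eq fun s hs => ?_
  have hmeas : Measurable (fun (U : I → ℝ) (j : J) => U (ι j)) :=
    measurable_pi_iff.2 fun j => measurable_pi_apply _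
  rw [Measure.map_apply hmeas (MeasurableSet.univ_pi hs)]
  have h1 : (fun (U : I → ℝ) (j : J) => U (ι j)) ⁻¹' (Set.pi Set.univ s) =
      Set.pi ((Finset.univ.map ⟨ι, hι⟩ : Finset I) : Set I)
        (Function.extend ι s (fun _ => Set.univ)) := by
    ext U
    simp only [Set.mem_preimage, Set.mem_pi, Set.mem_univ, true_implies, Finset.coe_map,
      Function.Embedding.coeFn_mk, Finset.coe_univ, Set.image_univ, Set.mem_range,
      forall_exists_index, forall_apply_eq_imp_iff]
    refine forall_congr' fun j => ?_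
    rw [hι.extend_apply]
  rw [h1, Measure.infinitePi_pi]
  · rw [Finset.prod_map]
    refine Finset.prod_congr rfl fun j _ => ?_
    show μ (Function.extend ι s (fun _ => Set.univ) (ι j)) = μ (s j)
    rw [hι.extend_apply]
  · intro i hi
    obtain ⟨j, -, rfl⟩ := Finset.mem_map.1 hi
    show MeasurableSet (Function.extend ι s (fun _ => Set.univ) (ι j))
    rw [hι.extend_apply]
    exact hs j

/-- the σ-algebra of the coordinate `e` -/
@[reducible] def indM {I : Type} (e : I) : MeasurableSpace (I → ℝ) :=
  MeasurableSpace.comap (fun U : I → ℝ => U e) inferInstance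

theorem indM_le {I : Type} (e : I) : indM e ≤ (MeasurableSpace.pi : MeasurableSpace (I → ℝ)) :=
  (measurable_pi_apply e).comap_le

theorem ind_dep_meas {I : Type} {A : Set (I → ℝ)} {S : Set I} (hA : MeasurableSet A)
    (hd : Dep A S) : MeasurableSet[⨆ e ∈ S, indM e] A := by
  classical
  have hext : Measurable (fun (u : S → ℝ) (e : I) => if h : e ∈ S then u ⟨e, h⟩ else (0 : ℝ)) := by
    refine measurable_pi_iff.2 fun e => ?_
    by_cases h : e ∈ S
    · simp only [dif_pos h]
      exact measurable_pi_apply _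
    · simp only [dif_neg h]
      exact measurable_const
  have hr : @Measurable (I → ℝ) (S → ℝ) (⨆ e ∈ S, indM e) MeasurableSpace.pi
      (fun U (e : S) => U e.1) := by
    refine @measurable_pi_iff (I → ℝ) S (fun _ => ℝ) (⨆ e ∈ S, indM e) _ _ |>.2 fun e => ?_
    have h1 : @Measurable (I → ℝ) ℝ (indM e.1) _ (fun U => U e.1) := comap_measurable _
    exact h1.mono (le_iSup₂_of_le e.1 e.2 le_rfl) le_rfl
  have hB := hr (hext hA)
  have hAB : (fun (U : I → ℝ) (e : S) => U e.1) ⁻¹'
      ((fun (u : S → ℝ) (e : I) => if h : e ∈ S then u ⟨e, h⟩ else (0 : ℝ)) ⁻¹' A) = A := by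
    ext U
    simp only [Set.mem_preimage]
    constructor
    · intro h
      exact hd _ _ (fun e he => by simp [he]) h
    · intro h
      exact hd _ _ (fun e he => by simp [he]) h
  rw [hAB] at hB
  exact hB

theorem ind_two {I : Type} (μ : Measure ℝ) [IsProbabilityMeasure μ] {S T : Set I}
    (hST : Disjoint S T) {A B : Set (I → ℝ)} (hA : MeasurableSet A) (hB : MeasurableSet B)
    (hAS : Dep A S) (hBT : Dep B T) :
    (Measure.infinitePi fun _ : I => μ) (A ∩ B) =
      (Measure.infinitePi fun _ : I => μ) A * (Measure.infinitePi fun _ : I => μ) B := by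
  have h1 : ProbabilityTheory.iIndepFun (fun (i : I) (ω : I → ℝ) => ω i)
      (Measure.infinitePi fun _ : I => μ) :=
    ProbabilityTheory.iIndepFun_infinitePi (X := fun _ x => x) (fun _ => measurable_id)
  rw [ProbabilityTheory.iIndepFun_iff_iIndep] at h1
  have h2 := ProbabilityTheory.indep_iSup_of_disjoint (fun e => indM_le e) h1 hST
  exact (ProbabilityTheory.Indep_iff _ _ _).1 h2 A B (ind_dep_meas hA hAS) (ind_dep_meas hB hBT)

theorem indep_prod {I ι : Type} (μ : Measure ℝ) [IsProbabilityMeasure μ] (s : Finset ι)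
    (S : ι → Set I) (A : ι → Set (I → ℝ)) (hm : ∀ i ∈ s, MeasurableSet (A i))
    (hd : ∀ i ∈ s, Dep (A i) (S i)) (hS : (s : Set ι).PairwiseDisjoint S) :
    (Measure.infinitePi fun _ : I => μ) (⋂ i ∈ s, A i)
      = ∏ i ∈ s, (Measure.infinitePi fun _ : I => μ) (A i) := by
  classical
  induction s using Finset.induction_on with
  | empty => simp
  | insert a s ha ih =>
    rw [Finset.prod_insert ha, Finset.set_biInter_insert]
    rw [← ih (fun i hi => hm i (Finset.mem_insert_of_mem hi))
      (fun i hi => hd i (Finset.mem_insert_of_mem hi))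
      (hS.subset (Finset.coe_subset.2 (Finset.subset_insert a s)))]
    refine ind_two μ (S := S a) (T := ⋃ i ∈ s, S i) ?_ (hm a (Finset.mem_insert_self _ _))
      (Finset.measurableSet_biInter s fun i hi => hm i (Finset.mem_insert_of_mem hi))
      (hd a (Finset.mem_insert_self _ _)) ?_
    · rw [Set.disjoint_iUnion₂_right]
      intro i hi
      refine hS (Finset.mem_coe.2 (Finset.mem_insert_self _ _))
        (Finset.mem_coe.2 (Finset.mem_insert_of_mem hi)) ?_
      rintro rfl
      exact ha hi
    · intro U U' hUU hU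
      rw [Set.mem_iInter₂] at hU ⊢
      intro i hi
      exact hd i (Finset.mem_insert_of_mem hi) U U'
        (fun e he => hUU e (Set.mem_iUnion₂.2 ⟨i, hi, he⟩)) (hU i hi)

theorem ind_unif_Iic {t : ℝ} (h1 : t ≤ 1) : unif (Iic t) = ENNReal.ofReal t := by
  unfold unif
  rw [Measure.restrict_apply measurableSet_Iic]
  have : Iic t ∩ Icc 0 1 = Icc 0 t := by
    ext x
    simp only [Set.mem_inter_iff, Set.mem_Iic, Set.mem_Icc]
    constructor
    · rintro ⟨a, b, c⟩
      exact ⟨b, a⟩
    · rintro ⟨a, b⟩
      exact ⟨b, a, b.trans h1⟩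
  rw [this, Real.volume_Icc, sub_zero]

theorem prob_le {d : ℕ} (E : Finset (Edge d)) {t : ℝ} (h0 : 0 ≤ t) (h1 : t ≤ 1) :
    lawU d {U | ∀ e ∈ E, U e ≤ t} = ENNReal.ofReal (t ^ E.card) := by
  have h2 : {U : Edge d → ℝ | ∀ e ∈ E, U e ≤ t} = Set.pi (E : Set (Edge d)) (fun _ => Iic t) := by
    ext U
    simp [Set.mem_pi]
  rw [h2, lawU, Measure.infinitePi_pi _ (fun _ _ => measurableSet_Iic), Finset.prod_const,
    ind_unif_Iic h1, ENNReal.ofReal_pow h0]

theorem ae_le_one (d : ℕ) : ∀ᵐ U ∂lawU d, ∀ e, U e ≤ 1 := by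
  rw [ae_all_iff]
  intro e
  have h1 := prob_le ({e} : Finset (Edge d)) zero_le_one le_rfl
  have h2 : {U : Edge d → ℝ | ∀ e' ∈ ({e} : Finset (Edge d)), U e' ≤ 1} = {U | U e ≤ 1} := by
    ext U
    simp
  rw [h2, one_pow, ENNReal.ofReal_one] at h1
  exact (mem_ae_iff_prob_eq_one (measurableSet_le (measurable_pi_apply e) measurable_const)).2 h1

theorem ind_diag : (unif.prod unif) {p : ℝ × ℝ | p.1 = p.2} = 0 := by
  have hms : MeasurableSet {p : ℝ × ℝ | p.1 = p.2} := measurableSet_eq_fun measurable_fst measurable_snd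
  rw [Measure.prod_apply hms]
  have : ∀ x : ℝ, unif (Prod.mk x ⁻¹' {p : ℝ × ℝ | p.1 = p.2}) = 0 := by
    intro x
    have h1 : Prod.mk x ⁻¹' {p : ℝ × ℝ | p.1 = p.2} = {x} := by
      ext y
      simp [eq_comm]
    rw [h1]
    unfold unif
    exact measure_singleton x
  rw [lintegral_congr this, lintegral_zero]

theorem ind_ne {I : Type} {e e' : I} (h : e ≠ e') :
    ∀ᵐ U ∂(Measure.infinitePi fun _ : I => unif), U e ≠ U e' := by
  have h1 : ProbabilityTheory.iIndepFun (fun (i : I) (ω : I → ℝ) => ω i)
      (Measure.infinitePi fun _ : I => unif) :=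
    ProbabilityTheory.iIndepFun_infinitePi (X := fun _ x => x) (fun _ => measurable_id)
  have h2 := h1.indepFun h
  rw [ProbabilityTheory.indepFun_iff_map_prod_eq_prod_map_map (measurable_pi_apply e).aemeasurable
    (measurable_pi_apply e').aemeasurable] at h2
  have h3 : ∀ i : I, (Measure.infinitePi fun _ : I => unif).map (fun U : I → ℝ => U i) = unif :=
    fun i => (measurePreserving_eval_infinitePi (fun _ : I => unif) i).map_eq
  rw [h3, h3] at h2
  have hms : MeasurableSet {p : ℝ × ℝ | p.1 = p.2} := measurableSet_eq_fun measurable_fst measurable_snd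
  have h4 : (Measure.infinitePi fun _ : I => unif) {U | U e = U e'} = 0 := by
    have h5 : (Measure.infinitePi fun _ : I => unif) {U | U e = U e'} =
        ((Measure.infinitePi fun _ : I => unif).map (fun U : I → ℝ => (U e, U e')))
          {p : ℝ × ℝ | p.1 = p.2} := by
      rw [Measure.map_apply ((measurable_pi_apply e).prodMk (measurable_pi_apply e')) hms]
      rfl
    rw [h5, h2, ind_diag]
  rw [ae_iff]
  simpa using h4

theorem ae_ne (d : ℕ) : ∀ᵐ U ∂lawU d, ∀ (x : V d) (i j : Dir d), i ≠ j →
    U (ed x i) ≠ U (ed x j) := by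
  rw [ae_all_iff]
  intro x
  rw [ae_all_iff]
  intro i
  rw [ae_all_iff]
  intro j
  by_cases h : i = j
  · exact Eventually.of_forall fun U hne => absurd h hne
  · have h1 : ed x i ≠ ed x j := fun he => h (ed_inj he)
    filter_upwards [ind_ne (I := Edge d) h1] with U hU _
    exact hU

end H42.CD
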