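import Mathlib

/-!
# Module PZ: second moment method

Let `X = Σ_{i ∈ s} 1_{A i} / μ(A i)`. `∫ X = #s`, `∫ X² = Σ Σ μ(A i ∩ A j)/(μ(A i) μ(A j)) ≤ C (#s)²`, `X = 0` outside of
`⋃ A i`, so by Cauchy-Schwarz `(#s)² = (∫ X 1_{⋃ A i})² ≤ ∫ X² μ(⋃ A i) ≤ C (#s)² μ(⋃ A i)`.
(Cauchy-Schwarz without `L²` theory: `0 ≤ ∫ (X - c 1_{⋃ A i})² = ∫ X² - 2 c ∫ X + c² μ(⋃)` for all `c`.)
-/

open MeasureTheory Set

namespace H42.CD

theorem pzH_quad {Ω ι : Type} [MeasurableSpace Ω] (μ : Measure Ω) [IsProbabilityMeasure μ]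
    (s : Finset ι) (A : ι → Set Ω) (hm : ∀ i ∈ s, MeasurableSet (A i)) (w : ι → ℝ) (c : ℝ) :
    0 ≤ ∑ i ∈ s, ∑ j ∈ s, w i * w j * μ.real (A i ∩ A j) - 2 * c * ∑ i ∈ s, w i * μ.real (A i)
      + c ^ 2 * μ.real (⋃ i ∈ s, A i) := by
  have hU : MeasurableSet (⋃ i ∈ s, A i) := Finset.measurableSet_biUnion s hm
  have hint : ∀ B : Set Ω, MeasurableSet B → Integrable (B.indicator (1 : Ω → ℝ)) μ :=
    fun B hB => (integrable_const (1 : ℝ)).indicator hB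
  have h1 : ∫ ω, ((∑ i ∈ s, ∑ j ∈ s, w i * w j * (A i ∩ A j).indicator (1 : Ω → ℝ) ω)
      - 2 * c * ∑ i ∈ s, w i * (A i).indicator (1 : Ω → ℝ) ω
      + c ^ 2 * (⋃ i ∈ s, A i).indicator (1 : Ω → ℝ) ω) ∂μ =
      ∑ i ∈ s, ∑ j ∈ s, w i * w j * μ.real (A i ∩ A j) - 2 * c * ∑ i ∈ s, w i * μ.real (A i)
      + c ^ 2 * μ.real (⋃ i ∈ s, A i) := by
    have e1 : Integrable (fun ω => ∑ i ∈ s, ∑ j ∈ s,
        w i * w j * (A i ∩ A j).indicator (1 : Ω → ℝ) ω) μ := by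
      refine integrable_finsetSum _ fun i hi => integrable_finsetSum _ fun j hj => ?_
      exact (hint _ ((hm i hi).inter (hm j hj))).const_mul _
    have e2 : Integrable (fun ω => ∑ i ∈ s, w i * (A i).indicator (1 : Ω → ℝ) ω) μ :=
      integrable_finsetSum _ fun i hi => (hint _ (hm i hi)).const_mul _
    have e3 : Integrable (fun ω => c ^ 2 * (⋃ i ∈ s, A i).indicator (1 : Ω → ℝ) ω) μ :=
      (hint _ hU).const_mul _
    have e2' : Integrable (fun ω => 2 * c * ∑ i ∈ s, w i * (A i).indicator (1 : Ω → ℝ) ω) μ :=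
      e2.const_mul _
    have e4 : Integrable (fun ω => (∑ i ∈ s, ∑ j ∈ s,
        w i * w j * (A i ∩ A j).indicator (1 : Ω → ℝ) ω)
        - 2 * c * ∑ i ∈ s, w i * (A i).indicator (1 : Ω → ℝ) ω) μ := e1.sub e2'
    rw [integral_add e4 e3, integral_sub e1 e2',
      integral_const_mul, integral_const_mul, integral_indicator_one hU,
      integral_finsetSum _ (fun i hi => (hint _ (hm i hi)).const_mul _),
      integral_finsetSum _ (fun i hi => integrable_finsetSum _ fun j hj =>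
        (hint _ ((hm i hi).inter (hm j hj))).const_mul _)]
    congr 1
    congr 1
    · refine Finset.sum_congr rfl fun i hi => ?_
      rw [integral_finsetSum _ (fun j hj => (hint _ ((hm i hi).inter (hm j hj))).const_mul _)]
      refine Finset.sum_congr rfl fun j hj => ?_
      rw [integral_const_mul, integral_indicator_one ((hm i hi).inter (hm j hj))]
    · congr 1
      refine Finset.sum_congr rfl fun i hi => ?_
      rw [integral_const_mul, integral_indicator_one (hm i hi)]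
  rw [← h1]
  refine integral_nonneg fun ω => ?_
  show 0 ≤ (∑ i ∈ s, ∑ j ∈ s, w i * w j * (A i ∩ A j).indicator (1 : Ω → ℝ) ω)
      - 2 * c * ∑ i ∈ s, w i * (A i).indicator (1 : Ω → ℝ) ω
      + c ^ 2 * (⋃ i ∈ s, A i).indicator (1 : Ω → ℝ) ω
  have h2 : ∀ i j, (A i ∩ A j).indicator (1 : Ω → ℝ) ω =
      (A i).indicator (1 : Ω → ℝ) ω * (A j).indicator (1 : Ω → ℝ) ω := by
    intro i j
    rw [Set.inter_indicator_one]
    rfl
  have h3 : ∑ i ∈ s, ∑ j ∈ s, w i * w j * (A i ∩ A j).indicator (1 : Ω → ℝ) ω =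
      (∑ i ∈ s, w i * (A i).indicator (1 : Ω → ℝ) ω) ^ 2 := by
    rw [sq, Finset.sum_mul_sum]
    refine Finset.sum_congr rfl fun i _ => Finset.sum_congr rfl fun j _ => ?_
    rw [h2]
    ring
  rw [h3]
  by_cases hω : ω ∈ ⋃ i ∈ s, A i
  · rw [Set.indicator_of_mem hω]
    have : (∑ i ∈ s, w i * (A i).indicator (1 : Ω → ℝ) ω) ^ 2 -
        2 * c * ∑ i ∈ s, w i * (A i).indicator (1 : Ω → ℝ) ω + c ^ 2 * (1 : Ω → ℝ) ω =
        (∑ i ∈ s, w i * (A i).indicator (1 : Ω → ℝ) ω - c) ^ 2 := by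
      rw [Pi.one_apply]
      ring
    rw [this]
    positivity
  · have h4 : ∑ i ∈ s, w i * (A i).indicator (1 : Ω → ℝ) ω = 0 := by
      refine Finset.sum_eq_zero fun i hi => ?_
      rw [Set.indicator_of_notMem (fun h => hω (Set.mem_biUnion hi h)), mul_zero]
    rw [h4, Set.indicator_of_notMem hω]
    simp

theorem second_moment {Ω ι : Type} [MeasurableSpace Ω] (μ : Measure Ω) [IsProbabilityMeasure μ]
    (s : Finset ι) (A : ι → Set Ω) (hm : ∀ i ∈ s, MeasurableSet (A i))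
    (hpos : ∀ i ∈ s, 0 < μ.real (A i)) (hs : s.Nonempty) {C : ℝ} (hC : 0 < C)
    (h : ∑ i ∈ s, ∑ j ∈ s, μ.real (A i ∩ A j) / (μ.real (A i) * μ.real (A j))
      ≤ C * (s.card : ℝ) ^ 2) : 1 / C ≤ μ.real (⋃ i ∈ s, A i) := by
  have hn : (0 : ℝ) < s.card := by exact_mod_cast hs.card_pos
  have h1 := pzH_quad μ s A hm (fun i => (μ.real (A i))⁻¹) (C * s.card)
  have h2 : ∑ i ∈ s, ∑ j ∈ s, (μ.real (A i))⁻¹ * (μ.real (A j))⁻¹ * μ.real (A i ∩ A j) =
      ∑ i ∈ s, ∑ j ∈ s, μ.real (A i ∩ A j) / (μ.real (A i) * μ.real (A j)) := by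
    refine Finset.sum_congr rfl fun i _ => Finset.sum_congr rfl fun j _ => ?_
    rw [div_eq_mul_inv, mul_inv, mul_comm]
  have h3 : ∑ i ∈ s, (μ.real (A i))⁻¹ * μ.real (A i) = s.card := by
    rw [Finset.sum_congr rfl fun i hi => inv_mul_cancel₀ (hpos i hi).ne']
    simp
  rw [h2, h3] at h1
  have h4 : 0 ≤ C * (s.card : ℝ) ^ 2 - 2 * (C * s.card) * s.card +
      (C * s.card) ^ 2 * μ.real (⋃ i ∈ s, A i) := by linarith
  have h5 : C * (s.card : ℝ) ^ 2 * 1 ≤ C * (s.card : ℝ) ^ 2 * (C * μ.real (⋃ i ∈ s, A i)) := by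
    nlinarith
  have h6 : (1 : ℝ) ≤ C * μ.real (⋃ i ∈ s, A i) := le_of_mul_le_mul_left h5 (by positivity)
  rw [div_le_iff₀ hC, mul_comm]
  exact h6

end H42.CD
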