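import Pool.Agent.H42.CD.Basic

/-!
# Module STAB: stable sets exist for every family of times

Let `E n` be the finite set of edges with both endpoints in the box `[-n, n]^d` (or: base point in the
box). First find `O n ⊆ E n` with, for all `e = ed x i ∈ E n`: `e ∈ O n ↔` both endpoints have `< κ` edges of
`O n` with time `< U e`. Such a set exists: define membership by well-founded recursion on the time
(the relation `U e < U e'` on the finite set `E n` is well-founded), because the condition for `e` only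
involves edges with strictly smaller time.
Then take an ultrafilter `F` on `ℕ` containing all cofinite sets (`Filter.hyperfilter ℕ`) and
`O = {e | ∀ᶠ n in F, e ∈ O n}`. For a vertex `x` and a time `v`, for `F`-most `n` the finitely many
edges at `x` are in `O` iff they are in `O n` (ultrafilter) and are in `E n`; so
`nOpen U O x v = nOpen U (O n) x v` for `F`-most `n`, and the equivalence passes to the limit.
-/

open MeasureTheory Set Filter
open scoped ENNReal Topology

namespace H42.CD

/-- `nOpen` only depends on the edges with smaller time -/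
theorem stab_nOpen_congr {d : ℕ} (U : Edge d → ℝ) {O O' : Set (Edge d)} (x : V d) {v : ℝ}
    (h : ∀ i : Dir d, U (ed x i) < v → (ed x i ∈ O ↔ ed x i ∈ O')) :
    nOpen U O x v = nOpen U O' x v := by
  classical
  unfold nOpen
  congr 1
  refine Finset.filter_congr fun i _ => ?_
  constructor
  · rintro ⟨h1, h2⟩; exact ⟨(h i h2).1 h1, h2⟩
  · rintro ⟨h1, h2⟩; exact ⟨(h i h2).2 h1, h2⟩

/-- stable sets relative to a finite set of edges -/
theorem stab_finite {d : ℕ} (κ : ℕ) (U : Edge d → ℝ) (m : ℕ) : ∀ E : Finset (Edge d),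
    E.card ≤ m → ∃ O : Set (Edge d), ∀ (x : V d) (i : Dir d), ed x i ∈ E → (ed x i ∈ O ↔
      nOpen U O x (U (ed x i)) < κ ∧ nOpen U O (x + stp i) (U (ed x i)) < κ) ∧ O ⊆ E := by
  classical
  induction m with
  | zero =>
    intro E hE
    have hE0 : E = ∅ := Finset.card_eq_zero.1 (Nat.le_zero.1 hE)
    subst hE0
    exact ⟨∅, fun x i h => absurd h (Finset.notMem_empty _)⟩
  | succ m ih =>
    intro E hE
    rcases E.eq_empty_or_nonempty with rfl | hne
    · exact ⟨∅, fun x i h => absurd h (Finset.notMem_empty _)⟩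
    obtain ⟨e0, he0, hmax⟩ := Finset.exists_max_image E U hne
    have hlt : (E.filter fun e => U e < U e0).card < E.card := by
      refine Finset.card_lt_card (Finset.filter_ssubset.2 ⟨e0, he0, lt_irrefl _⟩)
    obtain ⟨O', hO'⟩ := ih (E.filter fun e => U e < U e0) (by omega)
    -- restrict to edges below
    set O1 : Set (Edge d) := {e | e ∈ O' ∧ e ∈ E ∧ U e < U e0} with hO1
    set O : Set (Edge d) := O1 ∪ {e | e ∈ E ∧ U e = U e0 ∧ ∀ (x : V d) (i : Dir d), ed x i = e →
      nOpen U O1 x (U e0) < κ ∧ nOpen U O1 (x + stp i) (U e0) < κ} with hO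
    have hlow : ∀ e, U e < U e0 → (e ∈ O ↔ e ∈ O1) := by
      intro e he
      constructor
      · rintro (h | h)
        · exact h
        · exact absurd h.2.1 he.ne
      · exact fun h => Or.inl h
    have hO1' : ∀ (x : V d) (v : ℝ), v ≤ U e0 →
        (∀ e, e ∈ O' → e ∈ E ∧ U e < U e0) → nOpen U O1 x v = nOpen U O' x v := by
      intro x v _ hsub
      exact stab_nOpen_congr U x fun i _ => ⟨fun h => h.1, fun h => ⟨h, hsub _ h⟩⟩
    refine ⟨O, fun x i hxi => ⟨?_, ?_⟩⟩
    · rcases lt_or_eq_of_le (hmax _ hxi) with hlt' | heq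
      · obtain ⟨h1, h2⟩ := hO' x i (Finset.mem_filter.2 ⟨hxi, hlt'⟩)
        have hsub : ∀ e, e ∈ O' → e ∈ E ∧ U e < U e0 := fun e he =>
          Finset.mem_filter.1 (Finset.mem_coe.1 (h2 he))
        have h3 : ∀ y : V d, nOpen U O y (U (ed x i)) = nOpen U O' y (U (ed x i)) := by
          intro y
          rw [← hO1' y _ hlt'.le hsub]
          exact stab_nOpen_congr U y fun j hj => hlow _ (hj.trans hlt')
        rw [h3, h3, hlow _ hlt', ← h1]
        exact ⟨fun h => h.1, fun h => ⟨h, hsub _ h⟩⟩
      · have h3 : ∀ y : V d, nOpen U O y (U e0) = nOpen U O1 y (U e0) := fun y =>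
          stab_nOpen_congr U y fun j hj => hlow _ hj
        rw [heq, h3, h3]
        constructor
        · rintro (h | h)
          · exact absurd h.2.2 (by rw [heq]; exact lt_irrefl _)
          · exact h.2.2 x i rfl
        · rintro ⟨h1, h2⟩
          refine Or.inr ⟨hxi, heq, fun y j hyj => ?_⟩
          rcases ed_eq_iff.1 hyj.symm with ⟨rfl, rfl⟩ | ⟨rfl, rfl⟩
          · exact ⟨h1, h2⟩
          · rw [add_stp_rev]
            exact ⟨h2, h1⟩
    · rintro e (h | h)
      · exact h.2.1
      · exact h.1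

/-- the edges with base point in the box -/
noncomputable def stabE (d n : ℕ) : Finset (Edge d) :=
  (Fintype.piFinset fun _ => Finset.Icc (-(n : ℤ)) n) ×ˢ Finset.univ

theorem stab_mem_E {d : ℕ} (e : Edge d) : ∀ᶠ n in (hyperfilter ℕ : Filter ℕ), e ∈ stabE d n := by
  have h : ∀ᶠ n : ℕ in atTop, e ∈ stabE d n := by
    refine eventually_atTop.2 ⟨∑ a, (e.1 a).natAbs, fun n hn => ?_⟩
    unfold stabE
    rw [Finset.mem_product]
    refine ⟨Fintype.mem_piFinset.2 fun a => ?_, Finset.mem_univ _⟩
    have h1 : (e.1 a).natAbs ≤ ∑ a, (e.1 a).natAbs :=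
      Finset.single_le_sum (f := fun a => (e.1 a).natAbs) (fun _ _ => Nat.zero_le _)
        (Finset.mem_univ a)
    rw [Finset.mem_Icc]
    omega
  exact Nat.hyperfilter_le_atTop h

theorem exists_stable {d : ℕ} (κ : ℕ) (U : Edge d → ℝ) : ∃ O, Stable κ U O := by
  classical
  choose O hO using fun n => stab_finite κ U (stabE d n).card (stabE d n) le_rfl
  refine ⟨{e | ∀ᶠ n in (hyperfilter ℕ : Filter ℕ), e ∈ O n}, ?_⟩
  set P : Set (Edge d) := {e | ∀ᶠ n in (hyperfilter ℕ : Filter ℕ), e ∈ O n} with hP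
  have hlim : ∀ e : Edge d, ∀ᶠ n in (hyperfilter ℕ : Filter ℕ), (e ∈ P ↔ e ∈ O n) := by
    intro e
    by_cases he : e ∈ P
    · have he' : ∀ᶠ n in (hyperfilter ℕ : Filter ℕ), e ∈ O n := he
      filter_upwards [he'] with n hn
      exact ⟨fun _ => hn, fun _ => he⟩
    · have he' : ∀ᶠ n in (hyperfilter ℕ : Filter ℕ), e ∉ O n := Ultrafilter.eventually_not.2 he
      filter_upwards [he'] with n hn
      exact ⟨fun h => absurd h he, fun h => absurd h hn⟩
  have hall : ∀ x : V d, ∀ᶠ n in (hyperfilter ℕ : Filter ℕ),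
      ∀ i : Dir d, (ed x i ∈ P ↔ ed x i ∈ O n) := fun x =>
    eventually_all.2 fun i => hlim (ed x i)
  intro x i
  obtain ⟨n, h1, h2, h3⟩ := ((hall x).and ((hall (x + stp i)).and (stab_mem_E (ed x i)))).exists
  rw [h1 i, stab_nOpen_congr U x (O := P) (O' := O n) fun j _ => h1 j,
    stab_nOpen_congr U (x + stp i) (O := P) (O' := O n) fun j _ => h2 j]
  exact (hO n x i h3).1

end H42.CD
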