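import Pool.Agent.H42.CD.BNum
import Pool.Agent.H42.CD.BRet
import Pool.Agent.H42.CD.BMassA
import Pool.Agent.H42.CD.BMassB
import Pool.Agent.H42.CD.BMassC
import Pool.Agent.H42.CD.BRec
import Pool.Agent.H42.CD.BSum
import Pool.Agent.H42.CD.BRatio
import Pool.Agent.H42.CD.BOpen
import Pool.Agent.H42.CD.BlockLow
import Pool.Agent.H42.CD.PZ
import Pool.Agent.H42.CD.Stab

/-!
# Module PERC: percolation above `sc κ` (assembly, helper42)
-/

open MeasureTheory Set Filter
open scoped ENNReal Topology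

namespace H42.CD

theorem avg_smul {d n : ℕ} (B : Finset (Fin n → Dir d)) (c : ℝ)
    (f : (Fin n → Dir d) → (Fin n → Dir d) → ℝ) :
    avg B (fun v v' => c * f v v') = c * avg B f := by
  unfold avg
  rw [← mul_div_assoc]
  congr 1
  rw [Finset.mul_sum]
  refine Finset.sum_congr rfl fun v _ => ?_
  rw [Finset.mul_sum]

theorem start_castSucc {d n N : ℕ} (β : Fin (N + 1) → Fin n → Dir d) (b : ℕ) (hb : b ≤ N) :
    start (fun i : Fin N => β i.castSucc) b = start β b := by
  unfold start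
  rw [Fin.sum_univ_castSucc]
  have : ¬ (N < b) := not_lt.2 hb
  simp [this]

theorem prv_castSucc {d n N : ℕ} (p : Dir d) (β : Fin (N + 1) → Fin n → Dir d) (b : Fin N) :
    prv p (fun i : Fin N => β i.castSucc) b = prv p β b.castSucc := by
  unfold prv
  simp only [Fin.val_castSucc]
  split_ifs with h
  · rfl
  · rfl

theorem pathEv_castSucc {d N κ K h T : ℕ} {t : ℝ} {p : Dir d}
    (β : Fin (N + 1) → Fin (2 * h + T) → Dir d) :
    PathEv κ K h T t p β ⊆ PathEv κ K h T t p (fun i : Fin N => β i.castSucc) := by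
  intro U hU
  unfold PathEv at hU ⊢
  rw [mem_iInter] at hU ⊢
  intro b
  have := hU b.castSucc
  rw [Fin.val_castSucc, ← start_castSucc β b.val b.isLt.le, ← prv_castSucc] at this
  exact this

/-- the event that some certified path of `N` blocks exists -/
def EvN (d κ K g h T : ℕ) (t : ℝ) (p : Dir d) (N : ℕ) : Set (Edge d → ℝ) :=
  ⋃ β ∈ Fintype.piFinset (fun _ : Fin N => BW d g h T), PathEv κ K h T t p β

theorem evN_anti (d κ K g h T : ℕ) (t : ℝ) (p : Dir d) :
    Antitone (EvN d κ K g h T t p) := by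
  refine antitone_nat_of_succ_le fun N => ?_
  intro U hU
  unfold EvN at hU ⊢
  simp only [mem_iUnion] at hU ⊢
  obtain ⟨β, hβ, hU⟩ := hU
  refine ⟨fun i => β i.castSucc, ?_, pathEv_castSucc β hU⟩
  rw [Fintype.mem_piFinset] at hβ ⊢
  intro i
  exact hβ _

theorem meas_pathEv {d N κ K h T : ℕ} {t : ℝ} {p : Dir d}
    (β : Fin N → Fin (2 * h + T) → Dir d) : MeasurableSet (PathEv κ K h T t p β) :=
  MeasurableSet.iInter fun b => meas_blkEv κ K h T t _ _ _

theorem meas_evN (d κ K g h T : ℕ) (t : ℝ) (p : Dir d) (N : ℕ) :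
    MeasurableSet (EvN d κ K g h T t p N) :=
  Finset.measurableSet_biUnion _ fun β _ => meas_pathEv β

/-- if certified paths of all lengths exist, the origin is in an infinite cluster -/
theorem perc_of_evN {d κ K g h T : ℕ} (hg : 0 < g) (hh : 1 ≤ h) (hκ : 2 ≤ κ) {t : ℝ} {p : Dir d}
    {U : Edge d → ℝ} (hU : ∀ e, U e ≤ 1) (hN : ∀ N, U ∈ EvN d κ K g h T t p N) :
    U ∈ PercEvent κ d t := by
  obtain ⟨O, hO⟩ := exists_stable κ U
  refine ⟨O, hO, ?_⟩
  intro hfin
  have hb : BddAbove (lev g h '' cluster U O t 0) := (hfin.image _).bddAbove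
  obtain ⟨M, hM⟩ := hb
  have hUN := hN (M.toNat + 2)
  unfold EvN at hUN
  simp only [mem_iUnion] at hUN
  obtain ⟨β, hβ, hP⟩ := hUN
  rw [Fintype.mem_piFinset] at hβ
  have h1 := path_open hκ hU hO (by omega) hP ⟨M.toNat + 1, by omega⟩
  have h2 := hM (mem_image_of_mem (lev g h) h1)
  rw [lev_start hg hβ (by simp)] at h2
  simp only at h2
  have h3 : (M.toNat : ℤ) ≥ M := Int.self_le_toNat M
  have h4 : ((2 * h * (M.toNat + 1) : ℕ) : ℤ) ≥ (M.toNat : ℤ) + 1 := by
    have : M.toNat + 1 ≤ 2 * h * (M.toNat + 1) := Nat.le_mul_of_pos_left _ (by omega)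
    exact_mod_cast this
  omega

theorem perc {κ : ℕ} (hκ : 3 ≤ κ) {s : ℝ} (h : sc κ < s) :
    ∃ d0 : ℕ, ∀ d, d0 ≤ d → 0 < theta κ d (s / (2 * d)) := by
  have hs : 0 < s := by have := one_le_sc hκ; linarith
  obtain ⟨K, T, c0, ψ, hT, hc0, hψ0, hψ1, hψ, d0, hd0⟩ := params hκ h
  obtain ⟨d1, hd1⟩ := block_low (κ := κ) (K := K) (h := K + 4) (T := T) (by omega) (by omega)
    hT hs hψ
  obtain ⟨Q1, hQ1, hnear⟩ := mass_near (K + 4) T hs hc0
  obtain ⟨C2, hC2, hgrow⟩ := mass_grow (K + 4) T hs hc0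
  obtain ⟨C3, hC3, hback⟩ := mass_back (K + 4) T hs hc0
  set C : ℝ := 1 / ψ ^ 3 with hCdef
  have hC : 0 < C := by positivity
  set Q : ℝ := max 1 (C * Q1) with hQdef
  have hQ : 1 ≤ Q := le_max_left _ _
  have haQ : 0 < aQ Q := by unfold aQ; positivity
  set ε : ℝ := 1 / aQ Q with hεdef
  have hε : 0 < ε := by positivity
  obtain ⟨d2, hret⟩ := ret_sum (h := K + 4) (T := T) (by omega) hc0 hε
  refine ⟨max (max (max d0 d1) d2) (max (max ⌈C * C2 / ε⌉₊ ⌈C * C3 / ε⌉₊) (max ⌈s⌉₊ 1)), ?_⟩
  intro d hd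
  simp only [max_le_iff] at hd
  obtain ⟨⟨⟨hda, hdb⟩, hdc⟩, ⟨hdd, hde⟩, hdf, hdg⟩ := hd
  have hdd' : C * C2 / ε ≤ d := Nat.ceil_le.1 hdd
  have hde' : C * C3 / ε ≤ d := Nat.ceil_le.1 hde
  have hdf' : s ≤ d := Nat.ceil_le.1 hdf
  have hdpos : (0:ℝ) < d := by exact_mod_cast (show 0 < d by omega)
  obtain ⟨g, hadm, hμ⟩ := hd0 d hda
  have hg : 0 < g := hadm.1
  set t : ℝ := s / (2 * d) with htdef
  have ht : 0 < t := by positivity
  have ht1 : t ≤ 1 := by
    rw [htdef, div_le_one (by positivity)]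
    linarith
  set B := BW d g (K + 4) T with hBdef
  have hB : B.Nonempty := bw_nonempty hadm
  have hBc : (0:ℝ) < B.card := by exact_mod_cast hB.card_pos
  set P : ℝ := 1 / (ψ * t ^ (2 * (K + 4) + T)) with hPdef
  have hψt : 0 < ψ * t ^ (2 * (K + 4) + T) := by positivity
  have hP0 : 0 < P := by positivity
  have hWW : ∀ N, WW B P C t N 0 ≤ aQ Q := by
    refine ww_bounded B hB (ε := ε) hP0.le hC.le ht hQ ?_ ?_ ?_ ?_ ?_ ?_
    · rw [hεdef]; field_simp; exact le_rfl
    · rw [hPdef, div_div, div_le_div_iff₀ (by positivity) (by norm_num)]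
      nlinarith [hμ]
    · intro Δ _
      rw [avg_smul B C (fun v v' => (1 / t) ^ sh Δ v v')]
      exact (mul_le_mul_of_nonneg_left (hnear d g hadm Δ) hC.le).trans (le_max_right _ _)
    · intro Δ h0 h1
      have h2 := hgrow d g hadm Δ h0 h1
      have h3 : avg B (fun v v' => if nrm (Δ + disp v - disp v') < nrm Δ + 2 * (2 * (K + 4) + T)
          then C * (1 / t) ^ sh Δ v v' else 0) = C * avg B (fun v v' =>
            if nrm (Δ + disp v - disp v') < nrm Δ + 2 * (2 * (K + 4) + T)
          then (1 / t) ^ sh Δ v v' else 0) := by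
        rw [← avg_smul]
        congr 1
        funext v v'
        split_ifs <;> simp
      rw [h3]
      refine (mul_le_mul_of_nonneg_left h2 hC.le).trans ?_
      rw [← mul_div_assoc, div_le_iff₀ hdpos]
      rw [div_le_iff₀ hε] at hdd'
      linarith
    · have h2 := hback d g hadm
      have h3 : avg B (fun v v' => open Classical in
          if v ≠ v' ∧ disp v = disp v' then C * (1 / t) ^ sh 0 v v' else 0)
          = C * avg B (fun v v' => open Classical in
          if v ≠ v' ∧ disp v = disp v' then (1 / t) ^ sh 0 v v' else 0) := by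
        rw [← avg_smul]
        congr 1
        funext v v'
        split_ifs <;> simp
      rw [h3]
      refine (mul_le_mul_of_nonneg_left h2 hC.le).trans ?_
      rw [← mul_div_assoc, div_le_iff₀ hdpos]
      rw [div_le_iff₀ hε] at hde'
      linarith
    · intro Δ hΔ N
      exact hret d g hdc hadm Δ hΔ N
  -- the previous letter of the first block
  have hcoord : (2 * (K + 4) - 1) * (2 * g) < d := by
    have h1 := hadm.2.1
    have h2 : (2 * (K + 4) - 1) * (2 * g) ≤ 4 * (K + 4) * g := by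
      have : (2 * (K + 4) - 1) * (2 * g) ≤ (2 * (K + 4)) * (2 * g) :=
        Nat.mul_le_mul_right _ (by omega)
      linarith
    omega
  set p : Dir d := (⟨(2 * (K + 4) - 1) * (2 * g), hcoord⟩, true) with hpdef
  have hp : Allow g (K + 4) T (2 * (K + 4) + T - 1) p := by
    have hgr : gr (K + 4) T (2 * (K + 4) + T - 1) = some (2 * (K + 4) - 1) := by
      unfold gr
      rw [if_neg (by omega), if_neg (by omega)]
      congr 1
      omega
    unfold Allow
    rw [hgr]
    refine ⟨rfl, ?_⟩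
    simp only [hpdef]
    exact Nat.mul_div_cancel _ (by omega)
  -- lower bound for block probabilities
  have hq : ∀ (N : ℕ) (β : Fin N → Fin (2 * (K + 4) + T) → Dir d), (∀ b, β b ∈ B) →
      ∀ b, ψ * t ^ (2 * (K + 4) + T) ≤ qb κ K t p β b := by
    intro N β hβ b
    unfold qb
    have h1 := hd1 d hdb (start β b) (prv p β b) (β b) (mem_bw.1 (hβ b)).2
      (fun i hi => ext_ok hg (by omega) (prv_allow (by omega) hβ hp b) (hβ b) i hi)
    rw [ENNReal.ofReal_le_iff_le_toReal (measure_ne_top _ _)] at h1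
    exact h1
  have hEv : ∀ N, 1 / aQ Q ≤ (lawU d).real (EvN d κ K g (K + 4) T t p N) := by
    intro N
    unfold EvN
    refine second_moment (lawU d) _ _ (fun β _ => meas_pathEv β) ?_ ?_ haQ ?_
    · intro β hβ
      rw [Fintype.mem_piFinset] at hβ
      rw [path_prob hg le_rfl hp hβ t]
      exact Finset.prod_pos fun b _ => hψt.trans_le (hq N β hβ b)
    · exact ⟨fun _ => hB.choose, by rw [Fintype.mem_piFinset]; exact fun _ => hB.choose_spec⟩
    · have h1 : ∀ β ∈ Fintype.piFinset (fun _ : Fin N => B),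
          ∀ β' ∈ Fintype.piFinset (fun _ : Fin N => B),
          (lawU d).real (PathEv κ K (K + 4) T t p β ∩ PathEv κ K (K + 4) T t p β') /
            ((lawU d).real (PathEv κ K (K + 4) T t p β) *
              (lawU d).real (PathEv κ K (K + 4) T t p β'))
          ≤ ∏ b : Fin N, om P C t (0 + start β b - start β' b) (β b) (β' b) := by
        intro β hβ β' hβ'
        rw [Fintype.mem_piFinset] at hβ hβ'
        rw [path_prob hg le_rfl hp hβ t, path_prob hg le_rfl hp hβ' t]
        have hpos : 0 < (∏ b, qb κ K t p β b) * ∏ b, qb κ K t p β' b :=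
          mul_pos (Finset.prod_pos fun b _ => hψt.trans_le (hq N β hβ b))
            (Finset.prod_pos fun b _ => hψt.trans_le (hq N β' hβ' b))
        rw [div_le_iff₀ hpos]
        refine (pair_prob hg le_rfl hp hβ hβ' ht.le ht1).trans ?_
        refine (ratio_bound hg le_rfl hp hβ hβ' ht ht1 hψ0 hψ1 (hq N β hβ)
          (hq N β' hβ')).trans (le_of_eq ?_)
        rw [mul_comm]
        congr 1
        refine Finset.prod_congr rfl fun b _ => ?_
        rw [zero_add]
      refine (Finset.sum_le_sum fun β hβ => Finset.sum_le_sum fun β' hβ' =>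
        h1 β hβ β' hβ').trans ?_
      rw [sum_pairs B hB P C t N 0]
      have h2 : (Fintype.piFinset (fun _ : Fin N => B)).card = B.card ^ N := by
        rw [Fintype.card_piFinset]; simp
      rw [h2]
      push_cast
      rw [← pow_mul, mul_comm N 2, mul_comm]
      exact mul_le_mul_of_nonneg_right (hWW N) (by positivity)
  -- conclusion
  have hlim : ENNReal.ofReal (1 / aQ Q) ≤ lawU d (⋂ N, EvN d κ K g (K + 4) T t p N) := by
    have h1 := tendsto_measure_iInter_atTop (μ := lawU d)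
      (s := EvN d κ K g (K + 4) T t p) (fun N => (meas_evN d κ K g (K + 4) T t p N).nullMeasurableSet)
      (evN_anti d κ K g (K + 4) T t p) ⟨0, measure_ne_top _ _⟩
    refine ge_of_tendsto' h1 fun N => ?_
    exact (ENNReal.ofReal_le_iff_le_toReal (measure_ne_top _ _)).2 (hEv N)
  unfold theta
  have h3 : lawU d (⋂ N, EvN d κ K g (K + 4) T t p N) ≤ lawU d (PercEvent κ d t) := by
    refine measure_mono_ae ?_
    filter_upwards [ae_le_one d] with U hU hU'
    have hU'' : ∀ N, U ∈ EvN d κ K g (K + 4) T t p N := mem_iInter.1 hU'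
    exact perc_of_evN hg (by omega) (by omega) hU hU''
  refine lt_of_lt_of_le ?_ h3
  refine lt_of_lt_of_le ?_ hlim
  rw [ENNReal.ofReal_pos]
  positivity

end H42.CD
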