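import Pool.Agent.H42.CD.MLBasic
import Pool.Agent.H42.CD.FFacts

/-!
# Module SCBDD: the critical parameter is finite for `κ ≥ 3`

Claim: for `s ≥ s₁ := 2 / pcdf (κ-1) (2 (κ-1)^2)` and every `k`, `mL (FF κ false k) s L` is unbounded in `L`.
Write `Φ = pcdf κ`, `Φ₁ = pcdf (κ-1)`, `A x = ∫_0^x qq κ false k`, `g = Φ₁ ∘ A = FF κ false k`.
If `k = 0` then `A = 0`, `g = 1` and `mL g s L = s^(L+1)`, unbounded as `s ≥ s₁ ≥ 2`.
Let `k ≥ 1`. `qq κ false k y = Φ (∫_0^y qq κ true (k-1)) ≤ Φ (A y)`, as `qq κ true (k-1) ≥ qq κ false k` (needed: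
`qq κ false k ≤ qq κ true (k-1)`; prove by induction that all `qq κ false i ≤ qq κ true j` on `[0,∞)`).
It is enough to find a continuous `h : ℝ → ℝ` and `c > 0` with `c ≤ h ≤ 1` on `[0, s]` and
`∫_0^s g (max r v) h v dv ≥ (3/2) h r` for `r ∈ [0, s]`: then by induction `kit g s L r ≥ (3/2)^L h r`, so
`mL g s L ≥ (3/2)^L c s`.
(a) `A s < 2 (κ-1)^2`: `h = 1`; `g ≥ Φ₁ (2 (κ-1)^2)` on `[0, s]` so the integral is `≥ s Φ₁(...) ≥ 2`.
(b) `A s ≥ 2 (κ-1)^2`: `h = Φ ∘ A`. For `r ∈ [0, s]`
  `∫_0^s g (max r v) h v dv = Φ₁(A r) ∫_0^r Φ(A v) dv + ∫_r^s Φ₁(A v) Φ(A v) dv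
     ≥ Φ₁(A r) A r + ∫_r^s Φ₁(A v) A'(v) dv = Φ₁(A r) A r + ∫_{A r}^{A s} Φ₁(a) da`.
  Let `E a = Σ_{j < κ-1} pcdf (j+1) a` (`= E (κ-1-Poi a)^+`); `E' = - Φ₁` (`pcdf_deriv`: sum of the Poisson
  probabilities), so the last integral is `E (A r) - E (A s)`; and `a Φ₁ a + E a = (κ-1) Φ a` (finite sums
  of `a^j / j!`). So the bound is `(κ-1) Φ(A r) - E (A s)`. And `E a ≤ (κ-1) Φ₁ a ≤ ((κ-1)^2 / a) Φ a`
  (`a^j/j! = ((j+1)/a) a^(j+1)/(j+1)!`), so `E (A s) ≤ (1/2) Φ (A s) ≤ (1/2) Φ (A r)`. As `κ - 1 ≥ 2` the bound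
  is `≥ (3/2) Φ (A r)`.
Hence no `s ≥ s₁` is in the set.
-/

open MeasureTheory Set Filter
open scoped ENNReal Topology

namespace H42.CD

private theorem sb_qq_le (κ i : ℕ) : ∀ j : ℕ, ∀ x : ℝ, 0 ≤ x →
    qq κ false i x ≤ qq κ true j x ∧ qq κ false j x ≤ qq κ true i x := by
  induction i with
  | zero =>
    intro j x hx
    constructor
    · have : qq κ false 0 x = 0 := rfl
      rw [this]
      exact (qq_mem κ true j hx).1
    · have : qq κ true 0 x = 1 := rfl
      rw [this]
      exact (qq_mem κ false j hx).2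
  | succ i ih =>
    intro j
    cases j with
    | zero =>
      intro x hx
      constructor
      · have : qq κ true 0 x = 1 := rfl
        rw [this]
        exact (qq_mem κ false (i + 1) hx).2
      · have : qq κ false 0 x = 0 := rfl
        rw [this]
        exact (qq_mem κ true (i + 1) hx).1
    | succ j =>
      intro x hx
      have int : ∀ b k, IntervalIntegrable (qq κ b k) volume 0 x := fun b k =>
        (qq_cont κ b k).intervalIntegrable 0 x
      have nn : ∀ b k, 0 ≤ ∫ y in (0:ℝ)..x, qq κ b k y := fun b k =>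
        intervalIntegral.integral_nonneg hx fun y hy => (qq_mem κ b k hy.1).1
      constructor
      · show pcdf κ (∫ y in (0:ℝ)..x, qq κ true i y) ≤ pcdf κ (∫ y in (0:ℝ)..x, qq κ false j y)
        refine pcdf_anti κ (nn false j) ?_
        exact intervalIntegral.integral_mono_on hx (int false j) (int true i)
          fun y hy => (ih j y hy.1).2
      · show pcdf κ (∫ y in (0:ℝ)..x, qq κ true j y) ≤ pcdf κ (∫ y in (0:ℝ)..x, qq κ false i y)
        refine pcdf_anti κ (nn false i) ?_
        exact intervalIntegral.integral_mono_on hx (int false i) (int true j)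
          fun y hy => (ih j y hy.1).1

/-- growth from a test function -/
private theorem sb_growth {g h : ℝ → ℝ} (hg : Continuous g) (hh : Continuous h) {s c ρ : ℝ}
    (hs : 0 ≤ s) (hρ : 0 ≤ ρ) (h0 : ∀ x, 0 ≤ x → x ≤ s → 0 ≤ g x)
    (hc : ∀ x, 0 ≤ x → x ≤ s → c ≤ h x) (h1 : ∀ x, 0 ≤ x → x ≤ s → h x ≤ 1)
    (hI : ∀ r, 0 ≤ r → r ≤ s → ρ * h r ≤ ∫ v in (0:ℝ)..s, g (max r v) * h v) (L : ℕ) :
    ρ ^ L * (c * s) ≤ mL g s L := by
  have hk : ∀ L : ℕ, ∀ r, 0 ≤ r → r ≤ s → ρ ^ L * h r ≤ kit g s L r := by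
    intro L
    induction L with
    | zero => intro r hr hr'; simpa [kit] using h1 r hr hr'
    | succ L ih =>
      intro r hr hr'
      calc ρ ^ (L + 1) * h r = ρ ^ L * (ρ * h r) := by ring
        _ ≤ ρ ^ L * ∫ v in (0:ℝ)..s, g (max r v) * h v :=
          mul_le_mul_of_nonneg_left (hI r hr hr') (pow_nonneg hρ L)
        _ = ∫ v in (0:ℝ)..s, ρ ^ L * (g (max r v) * h v) := by
          rw [intervalIntegral.integral_const_mul]
        _ ≤ ∫ v in (0:ℝ)..s, g (max r v) * kit g s L v := by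
          refine intervalIntegral.integral_mono_on hs ?_ (kit_int hg s L r 0 s) fun v hv => ?_
          · refine Continuous.intervalIntegrable ?_ _ _
            exact continuous_const.mul ((hg.comp (continuous_const.max continuous_id)).mul hh)
          · have h2 := h0 (max r v) (le_max_of_le_left hr) (max_le hr' hv.2)
            calc ρ ^ L * (g (max r v) * h v) = g (max r v) * (ρ ^ L * h v) := by ring
              _ ≤ g (max r v) * kit g s L v := mul_le_mul_of_nonneg_left (ih v hv.1 hv.2) h2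
        _ = kit g s (L + 1) r := rfl
  unfold mL
  calc ρ ^ L * (c * s) = ∫ _u in (0:ℝ)..s, ρ ^ L * c := by
        rw [intervalIntegral.integral_const, smul_eq_mul]
        ring
    _ ≤ ∫ u in (0:ℝ)..s, kit g s L u := by
        refine intervalIntegral.integral_mono_on hs (continuous_const.intervalIntegrable _ _)
          ((kit_cont hg s L).intervalIntegrable 0 s) fun u hu => ?_
        exact (mul_le_mul_of_nonneg_left (hc u hu.1 hu.2) (pow_nonneg hρ L)).trans
          (hk L u hu.1 hu.2)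

private noncomputable def sbE (m : ℕ) (a : ℝ) : ℝ := ∑ j ∈ Finset.range m, pcdf (j + 1) a

private theorem sb_pcdf_succ (m : ℕ) (x : ℝ) :
    pcdf (m + 1) x = pcdf m x + Real.exp (-x) * (x ^ m / (m.factorial : ℝ)) := by
  unfold pcdf
  rw [Finset.sum_range_succ, mul_add]

private theorem sb_identity (m : ℕ) (a : ℝ) : a * pcdf m a + sbE m a = m * pcdf (m + 1) a := by
  induction m with
  | zero => simp [pcdf, sbE]
  | succ m ih =>
    have hE : sbE (m + 1) a = sbE m a + pcdf (m + 1) a := by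
      unfold sbE
      rw [Finset.sum_range_succ]
    have h1 : pcdf (m + 1) a = pcdf m a + Real.exp (-a) * (a ^ m / (m.factorial : ℝ)) :=
      sb_pcdf_succ m a
    have h2 : pcdf (m + 1 + 1) a = pcdf (m + 1) a
        + Real.exp (-a) * (a ^ (m + 1) / ((m + 1).factorial : ℝ)) := sb_pcdf_succ (m + 1) a
    have hf : (((m + 1 : ℕ) : ℝ)) * (a ^ (m + 1) / ((m + 1).factorial : ℝ))
        = a * (a ^ m / (m.factorial : ℝ)) := by
      rw [Nat.factorial_succ]
      push_cast
      have hm : (m.factorial : ℝ) ≠ 0 := by positivity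
      have hm1 : (m : ℝ) + 1 ≠ 0 := by positivity
      field_simp
      ring
    have h3 : a * pcdf (m + 1) a = a * pcdf m a
        + Real.exp (-a) * (a * (a ^ m / (m.factorial : ℝ))) := by
      rw [h1]
      ring
    rw [hE, h2, h3, ← hf]
    push_cast
    linear_combination ih

private theorem sb_E_deriv (m : ℕ) (a : ℝ) : HasDerivAt (sbE m) (-(pcdf m a)) a := by
  induction m with
  | zero =>
    have h : sbE 0 = fun _ => (0:ℝ) := by funext x; simp [sbE]
    rw [h]
    simpa [pcdf] using hasDerivAt_const a (0:ℝ)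
  | succ m ih =>
    have h : sbE (m + 1) = fun x => sbE m x + pcdf (m + 1) x := by
      funext x
      unfold sbE
      rw [Finset.sum_range_succ]
    rw [h]
    refine (ih.add (pcdf_deriv m a)).congr_deriv ?_
    rw [sb_pcdf_succ]
    ring

private theorem sb_E_le (m : ℕ) {a : ℝ} (ha : 0 ≤ a) : sbE m a ≤ m * pcdf m a := by
  unfold sbE
  have hmono : ∀ i j : ℕ, i ≤ j → pcdf i a ≤ pcdf j a := by
    intro i j hij
    unfold pcdf
    refine mul_le_mul_of_nonneg_left ?_ (Real.exp_pos _).le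
    exact Finset.sum_le_sum_of_subset_of_nonneg
      (Finset.range_subset_range.2 hij) fun _ _ _ => by positivity
  calc ∑ j ∈ Finset.range m, pcdf (j + 1) a ≤ ∑ _j ∈ Finset.range m, pcdf m a :=
        Finset.sum_le_sum fun j hj => hmono _ _ (Finset.mem_range.1 hj)
    _ = m * pcdf m a := by rw [Finset.sum_const, Finset.card_range, nsmul_eq_mul]

private theorem sb_E_nonneg (m : ℕ) {a : ℝ} (ha : 0 ≤ a) : 0 ≤ sbE m a :=
  Finset.sum_nonneg fun j _ => (pcdf_mem (j + 1) ha).1

private theorem sb_pcdf_pos {m : ℕ} (hm : 1 ≤ m) {x : ℝ} (hx : 0 ≤ x) : 0 < pcdf m x := by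
  unfold pcdf
  refine mul_pos (Real.exp_pos _) ?_
  have h0 : 0 ∈ Finset.range m := Finset.mem_range.2 (by omega)
  have := Finset.single_le_sum (f := fun j => x ^ j / (j.factorial : ℝ))
    (fun j _ => by positivity) h0
  have h1 : (1:ℝ) ≤ ∑ j ∈ Finset.range m, x ^ j / (j.factorial : ℝ) := by simpa using this
  linarith

theorem sc_bdd {κ : ℕ} (hκ : 3 ≤ κ) :
    BddAbove {s : ℝ | 0 < s ∧ ∃ k, BddAbove (Set.range fun L => mL (FF κ false k) s L)} := by
  obtain ⟨m, rfl⟩ : ∃ m, κ = m + 1 := ⟨κ - 1, by omega⟩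
  have hm : 2 ≤ m := by omega
  have hm' : (2:ℝ) ≤ m := by exact_mod_cast hm
  set D : ℝ := 2 * (m:ℝ) ^ 2 with hD
  have hD0 : 0 < D := by positivity
  set φ := pcdf m D with hφ
  have hφ0 : 0 < φ := sb_pcdf_pos (by omega) hD0.le
  refine ⟨2 / φ, ?_⟩
  rintro s ⟨hs0, k, hb⟩
  by_contra hlt
  push Not at hlt
  have hsφ : 2 ≤ s * φ := by
    rw [div_lt_iff₀ hφ0] at hlt
    exact hlt.le
  -- it suffices to have a test function
  have suff : ∀ (h : ℝ → ℝ) (c : ℝ), Continuous h → 0 < c → (∀ x, 0 ≤ x → x ≤ s → c ≤ h x) →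
      (∀ x, 0 ≤ x → x ≤ s → h x ≤ 1) →
      (∀ r, 0 ≤ r → r ≤ s → 3 / 2 * h r ≤ ∫ v in (0:ℝ)..s, FF (m + 1) false k (max r v) * h v) →
      False := by
    intro h c hh hc hc' h1 hI
    obtain ⟨B, hB⟩ := hb
    have hcs : 0 < c * s := mul_pos hc hs0
    obtain ⟨L, hL⟩ := ((tendsto_pow_atTop_atTop_of_one_lt (show (1:ℝ) < 3 / 2 by norm_num)).eventually
      (eventually_gt_atTop (B / (c * s)))).exists
    have h2 := sb_growth (FF_cont (m + 1) false k) hh hs0.le (by norm_num : (0:ℝ) ≤ 3 / 2)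
      (fun x hx _ => (Real.exp_pos _).le.trans (FF_lower (by omega) false k hx)) hc' h1 hI L
    have h3 : mL (FF (m + 1) false k) s L ≤ B := hB ⟨L, rfl⟩
    rw [div_lt_iff₀ hcs] at hL
    linarith
  -- the function `A`
  set A : ℝ → ℝ := fun x => ∫ y in (0:ℝ)..x, qq (m + 1) false k y with hA
  have hqc : Continuous (qq (m + 1) false k) := qq_cont _ _ _
  have hAd : ∀ x, HasDerivAt A (qq (m + 1) false k x) x := fun x =>
    intervalIntegral.integral_hasDerivAt_right (hqc.intervalIntegrable _ _)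
      hqc.stronglyMeasurable.stronglyMeasurableAtFilter hqc.continuousAt
  have hAc : Continuous A := continuous_iff_continuousAt.2 fun x => (hAd x).continuousAt
  have hA0 : ∀ x, 0 ≤ x → 0 ≤ A x := fun x hx =>
    intervalIntegral.integral_nonneg hx fun y hy => (qq_mem _ false k hy.1).1
  have hAmono : ∀ x y, 0 ≤ x → x ≤ y → A x ≤ A y := by
    intro x y hx hxy
    show (∫ z in (0:ℝ)..x, qq (m + 1) false k z) ≤ ∫ z in (0:ℝ)..y, qq (m + 1) false k z
    rw [← intervalIntegral.integral_add_adjacent_intervals (hqc.intervalIntegrable 0 x)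
      (hqc.intervalIntegrable x y)]
    have : 0 ≤ ∫ z in x..y, qq (m + 1) false k z :=
      intervalIntegral.integral_nonneg hxy fun _ hz => (qq_mem _ false k (hx.trans hz.1)).1
    linarith
  have hg : ∀ x, FF (m + 1) false k x = pcdf m (A x) := fun x => rfl
  by_cases hcase : A s < D
  · -- constant test function
    refine suff (fun _ => 1) 1 continuous_const one_pos (fun _ _ _ => le_rfl) (fun _ _ _ => le_rfl)
      fun r hr hrs => ?_
    have h1 : ∫ _v in (0:ℝ)..s, φ ≤ ∫ v in (0:ℝ)..s, FF (m + 1) false k (max r v) * 1 := by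
      refine intervalIntegral.integral_mono_on hs0.le (continuous_const.intervalIntegrable _ _)
        ?_ fun v hv => ?_
      · refine Continuous.intervalIntegrable ?_ _ _
        exact ((FF_cont _ _ _).comp (continuous_const.max continuous_id)).mul continuous_const
      · rw [mul_one, hg]
        have h2 : 0 ≤ max r v := le_max_of_le_left hr
        have h3 : max r v ≤ s := max_le hrs hv.2
        exact pcdf_anti m (hA0 _ h2) ((hAmono _ _ h2 h3).trans hcase.le)
    rw [intervalIntegral.integral_const, smul_eq_mul, sub_zero] at h1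
    linarith
  · push Not at hcase
    have hk : 1 ≤ k := by
      by_contra hk
      have hk0 : k = 0 := by omega
      have : A s = 0 := by
        show (∫ y in (0:ℝ)..s, qq (m + 1) false k y) = 0
        rw [hk0]
        have : qq (m + 1) false 0 = fun _ => (0:ℝ) := by funext x; rfl
        rw [this]
        simp
      linarith
    obtain ⟨k', rfl⟩ : ∃ k', k = k' + 1 := ⟨k - 1, by omega⟩
    have hqle : ∀ y, 0 ≤ y → qq (m + 1) false (k' + 1) y ≤ pcdf (m + 1) (A y) := by
      intro y hy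
      show pcdf (m + 1) (∫ z in (0:ℝ)..y, qq (m + 1) true k' z) ≤ pcdf (m + 1) (A y)
      refine pcdf_anti _ (hA0 y hy) ?_
      exact intervalIntegral.integral_mono_on hy (hqc.intervalIntegrable _ _)
        ((qq_cont _ true k').intervalIntegrable _ _) fun z hz => (sb_qq_le _ (k' + 1) k' z hz.1).1
    have hΦc : Continuous fun x => pcdf (m + 1) (A x) := (pcdf_cont _).comp hAc
    refine suff (fun x => pcdf (m + 1) (A x)) (pcdf (m + 1) (A s)) hΦc
      (sb_pcdf_pos (by omega) (hA0 s hs0.le))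
      (fun x hx hxs => pcdf_anti _ (hA0 x hx) (hAmono x s hx hxs))
      (fun x hx _ => (pcdf_mem _ (hA0 x hx)).2) fun r hr hrs => ?_
    -- the integral is split at `r`
    have hcont : Continuous fun v => FF (m + 1) false (k' + 1) (max r v) * pcdf (m + 1) (A v) :=
      ((FF_cont _ _ _).comp (continuous_const.max continuous_id)).mul hΦc
    rw [← intervalIntegral.integral_add_adjacent_intervals (hcont.intervalIntegrable 0 r)
      (hcont.intervalIntegrable r s)]
    have hI1 : pcdf m (A r) * A r ≤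
        ∫ v in (0:ℝ)..r, FF (m + 1) false (k' + 1) (max r v) * pcdf (m + 1) (A v) := by
      have e1 : ∫ v in (0:ℝ)..r, FF (m + 1) false (k' + 1) (max r v) * pcdf (m + 1) (A v)
          = ∫ v in (0:ℝ)..r, pcdf m (A r) * pcdf (m + 1) (A v) := by
        refine intervalIntegral.integral_congr fun v hv => ?_
        rw [uIcc_of_le hr] at hv
        show FF (m + 1) false (k' + 1) (max r v) * _ = _
        rw [max_eq_left hv.2, hg]
      rw [e1, intervalIntegral.integral_const_mul]
      refine mul_le_mul_of_nonneg_left ?_ (pcdf_mem m (hA0 r hr)).1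
      exact intervalIntegral.integral_mono_on hr (hqc.intervalIntegrable _ _)
        (hΦc.intervalIntegrable _ _) fun v hv => hqle v hv.1
    have hI2 : sbE m (A r) - sbE m (A s) ≤
        ∫ v in r..s, FF (m + 1) false (k' + 1) (max r v) * pcdf (m + 1) (A v) := by
      have hd : ∀ v, HasDerivAt (fun v => -sbE m (A v))
          (pcdf m (A v) * qq (m + 1) false (k' + 1) v) v := by
        intro v
        have := ((sb_E_deriv m (A v)).comp v (hAd v)).neg
        refine this.congr_deriv ?_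
        ring
      have hc2 : Continuous fun v => pcdf m (A v) * qq (m + 1) false (k' + 1) v :=
        ((pcdf_cont m).comp hAc).mul hqc
      have e2 : ∫ v in r..s, pcdf m (A v) * qq (m + 1) false (k' + 1) v
          = -sbE m (A s) - -sbE m (A r) :=
        intervalIntegral.integral_eq_sub_of_hasDerivAt (fun v _ => hd v)
          (hc2.intervalIntegrable _ _)
      calc sbE m (A r) - sbE m (A s) = ∫ v in r..s, pcdf m (A v) * qq (m + 1) false (k' + 1) v := by
            rw [e2]; ring
        _ ≤ _ := by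
            refine intervalIntegral.integral_mono_on hrs (hc2.intervalIntegrable _ _)
              (hcont.intervalIntegrable _ _) fun v hv => ?_
            have hv0 : 0 ≤ v := hr.trans hv.1
            rw [max_eq_right hv.1, hg]
            exact mul_le_mul_of_nonneg_left (hqle v hv0) (pcdf_mem m (hA0 v hv0)).1
    have hid := sb_identity m (A r)
    have hAs0 : 0 < A s := lt_of_lt_of_le hD0 hcase
    have hEs : sbE m (A s) ≤ pcdf (m + 1) (A s) / 2 := by
      have i1 := sb_identity m (A s)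
      have i2 := sb_E_nonneg m hAs0.le
      have i3 := sb_E_le m hAs0.le
      have i4 : A s * pcdf m (A s) ≤ m * pcdf (m + 1) (A s) := by linarith
      have i5 : 0 ≤ pcdf m (A s) := (pcdf_mem m hAs0.le).1
      have i6 : 0 ≤ pcdf (m + 1) (A s) := (pcdf_mem (m + 1) hAs0.le).1
      have i7 : D * pcdf m (A s) ≤ m * pcdf (m + 1) (A s) :=
        (mul_le_mul_of_nonneg_right hcase i5).trans i4
      have i8 : (m:ℝ) * pcdf m (A s) ≤ pcdf (m + 1) (A s) / 2 := by
        have hmpos : (0:ℝ) < m := by linarith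
        have : (m:ℝ) * (2 * (m * pcdf m (A s))) ≤ m * pcdf (m + 1) (A s) := by
          calc (m:ℝ) * (2 * (m * pcdf m (A s))) = D * pcdf m (A s) := by rw [hD]; ring
            _ ≤ _ := i7
        have := le_of_mul_le_mul_left this hmpos
        linarith
      linarith
    have hΦr : pcdf (m + 1) (A s) ≤ pcdf (m + 1) (A r) := pcdf_anti _ (hA0 r hr) (hAmono r s hr hrs)
    have hΦ0 : 0 ≤ pcdf (m + 1) (A r) := (pcdf_mem _ (hA0 r hr)).1
    have hmΦ : 2 * pcdf (m + 1) (A r) ≤ m * pcdf (m + 1) (A r) :=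
      mul_le_mul_of_nonneg_right hm' hΦ0
    show 3 / 2 * pcdf (m + 1) (A r) ≤ _
    calc 3 / 2 * pcdf (m + 1) (A r) ≤ pcdf m (A r) * A r + (sbE m (A r) - sbE m (A s)) := by
          linarith [mul_comm (A r) (pcdf m (A r))]
      _ ≤ _ := add_le_add hI1 hI2

end H42.CD
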