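import Mathlib

/-!
# Constrained-degree percolation on `ℤ^d` (MP_0b7287_pr): the objects of the question

Everything is coordinate based: a vertex is `Fin d → ℤ`, a direction is a coordinate with a sign,
an edge is `(x, a)`, standing for `{x, x + e_a}`.
-/

open MeasureTheory Set Filter
open scoped ENNReal Topology

namespace H42.CD

abbrev V (d : ℕ) := Fin d → ℤ
abbrev Dir (d : ℕ) := Fin d × Bool
abbrev Edge (d : ℕ) := V d × Fin d

/-- unit step in direction `i` -/
def stp {d : ℕ} (i : Dir d) : V d := Pi.single i.1 (if i.2 then 1 else -1)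

/-- the edge leaving `x` in direction `i` -/
def ed {d : ℕ} (x : V d) (i : Dir d) : Edge d :=
  if i.2 then (x, i.1) else (x - Pi.single i.1 1, i.1)

/-- the uniform law on `[0,1]` -/
noncomputable def unif : Measure ℝ := volume.restrict (Icc 0 1)

instance : IsProbabilityMeasure unif := ⟨by simp [unif]⟩

/-- the law of the family of times, i.i.d. uniform on `[0,1]` -/
noncomputable def lawU (d : ℕ) : Measure (Edge d → ℝ) := Measure.infinitePi fun _ => unif

instance (d : ℕ) : IsProbabilityMeasure (lawU d) := by unfold lawU; infer_instance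

open Classical in
/-- number of edges of `O` at `x` with time `< v` -/
noncomputable def nOpen {d : ℕ} (U : Edge d → ℝ) (O : Set (Edge d)) (x : V d) (v : ℝ) : ℕ :=
  (Finset.univ.filter fun i : Dir d => ed x i ∈ O ∧ U (ed x i) < v).card

/-- `O` is the final set of open edges of the constrained-degree dynamics with constraint `κ` and
times `U`: an edge is open iff at its time both endpoints have less than `κ` open edges. -/
def Stable {d : ℕ} (κ : ℕ) (U : Edge d → ℝ) (O : Set (Edge d)) : Prop :=
  ∀ (x : V d) (i : Dir d), ed x i ∈ O ↔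
    nOpen U O x (U (ed x i)) < κ ∧ nOpen U O (x + stp i) (U (ed x i)) < κ

/-- neighbours joined by an edge open at time `t` -/
def Linked {d : ℕ} (U : Edge d → ℝ) (O : Set (Edge d)) (t : ℝ) (x y : V d) : Prop :=
  ∃ i : Dir d, y = x + stp i ∧ ed x i ∈ O ∧ U (ed x i) ≤ t

/-- open cluster of `x` at time `t` -/
def cluster {d : ℕ} (U : Edge d → ℝ) (O : Set (Edge d)) (t : ℝ) (x : V d) : Set (V d) :=
  {y | Relation.ReflTransGen (Linked U O t) x y}

/-- the open cluster of the origin is infinite at time `t` -/
def PercEvent (κ d : ℕ) (t : ℝ) : Set (Edge d → ℝ) :=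
  {U | ∃ O, Stable κ U O ∧ (cluster U O t 0).Infinite}

/-- percolation probability -/
noncomputable def theta (κ d : ℕ) (t : ℝ) : ℝ≥0∞ := lawU d (PercEvent κ d t)

/-- critical time -/
noncomputable def tc (κ d : ℕ) : EReal :=
  sInf {x : EReal | ∃ t : ℝ, 0 ≤ t ∧ t ≤ 1 ∧ x = (t : EReal) ∧ 0 < theta κ d t}

end H42.CD
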