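import Pool.Agent.H42.CD.TransferAux

/-!
# Module TRANSFER: from the tree to the lattice

Let `t ∈ [0,1]`, a path with `WordOK w len`, `m = len - 1` roots, `D0 = crd w len`, and
`P_T = (Measure.pi unif) × (Measure.pi lawT)` the law of the path times `u` and the forest `W` (independent).
For a forest `W` let `R(W) = {(j, p) | Rvl t k (W j) p}`, a finite set. For a finite set `τ` of pairs `NG τ` is
the set of the non-ghost inspected pairs. `hatW τ W` is `W` on `NG τ` and `2` elsewhere. On the lattice side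
`latW τ U` has the times of the corresponding edges on `NG τ` and `2` elsewhere. The laws of `(u, hatW τ W)` and
of `(path times, latW τ U)` coincide if some good forest has `R = τ`.
-/

open MeasureTheory Set Filter
open scoped ENNReal Topology

namespace H42.CD

variable {d len k : ℕ} {t : ℝ}

/-- inspected words which are not ghosts -/
def NG (w : ℕ → Dir d) (len : ℕ) (τ : Finset (Fin (len - 1) × List (Dir d)))
    (j : Fin (len - 1)) (q : List (Dir d)) : Prop :=
  ∃ p i, q = p ++ [i] ∧ ((p = [] ∧ i ≠ rev (w j) ∧ i ≠ w (j + 1)) ∨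
    ((j, p) ∈ τ ∧ ∀ q' l, p = q' ++ [l] → i ≠ rev l))

theorem ng_append {w : ℕ → Dir d} {τ : Finset (Fin (len - 1) × List (Dir d))}
    {j : Fin (len - 1)} {p : List (Dir d)} {i : Dir d} :
    NG w len τ j (p ++ [i]) ↔ ((p = [] ∧ i ≠ rev (w j) ∧ i ≠ w (j + 1)) ∨
    ((j, p) ∈ τ ∧ ∀ q' l, p = q' ++ [l] → i ≠ rev l)) := by
  constructor
  · rintro ⟨q, l, h1, h2⟩
    obtain ⟨rfl, h3⟩ := List.append_inj' h1 rfl
    simp only [List.cons.injEq, and_true] at h3
    subst h3
    exact h2
  · intro h
    exact ⟨p, i, rfl, h⟩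

open Classical in
/-- `W` with the value `2` at ghosts and uninspected words -/
noncomputable def hatW (w : ℕ → Dir d) (len : ℕ) (τ : Finset (Fin (len - 1) × List (Dir d)))
    (W : Fin (len - 1) → TC (Dir d)) : Fin (len - 1) → TC (Dir d) :=
  fun j q => if NG w len τ j q then W j q else 2

/-- edge of a word -/
def eg (x : V d) (w : ℕ → Dir d) (len : ℕ) (q : Fin (len - 1) × List (Dir d)) : Edge d :=
  ed (endp (pos x w (q.1 + 1)) q.2.dropLast) (q.2.getLastD (w 0))

theorem eg_append (x : V d) (w : ℕ → Dir d) (j : Fin (len - 1)) (p : List (Dir d)) (i : Dir d) :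
    eg x w len (j, p ++ [i]) = ed (endp (pos x w (j + 1)) p) i := by
  unfold eg
  simp

open Classical in
/-- lattice configuration read at the non-ghost inspected words -/
noncomputable def latW (x : V d) (w : ℕ → Dir d) (len : ℕ)
    (τ : Finset (Fin (len - 1) × List (Dir d))) (U : Edge d → ℝ) :
    Fin (len - 1) → TC (Dir d) :=
  fun j q => if NG w len τ j q then U (eg x w len (j, q)) else 2

section det

variable {w : ℕ → Dir d} {τ : Finset (Fin (len - 1) × List (Dir d))}
  {W : Fin (len - 1) → TC (Dir d)}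

theorem w_mem_crd {j : ℕ} (hj : j < len) : (w j).1 ∈ crd w len :=
  Finset.mem_image.2 ⟨j, Finset.mem_range.2 hj, rfl⟩

theorem ng_of_mem (hG : Good t k (crd w len) W) (hR : ∀ j q, Rvl t k (W j) q ↔ (j, q) ∈ τ)
    {j : Fin (len - 1)} {q : List (Dir d)} (h : (j, q) ∈ τ) : NG w len τ j q := by
  have hr := (hR j q).2 h
  rcases List.eq_nil_or_concat q with rfl | ⟨p, i, rfl⟩
  · exact absurd rfl hr.1
  · rw [List.concat_eq_append] at h hr ⊢
    rw [ng_append]
    have h1 := hG.1 j p i hr
    by_cases hp : p = []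
    · left
      refine ⟨hp, ?_, ?_⟩
      · rintro rfl
        exact h1 (w_mem_crd (by omega))
      · rintro rfl
        exact h1 (w_mem_crd (by omega))
    · right
      have hrp : Rvl t k (W j) p := (rvl_append.1 hr).1.resolve_left hp
      refine ⟨(hR j p).1 hrp, ?_⟩
      rintro q' l rfl rfl
      have := (hG.2 j (q' ++ [l]) (rev l) j q' l hr hrp rfl).2.1
      simp at this

theorem insp_of_ng (hR : ∀ j q, Rvl t k (W j) q ↔ (j, q) ∈ τ)
    {j : Fin (len - 1)} {p : List (Dir d)} {i : Dir d} (h : NG w len τ j (p ++ [i])) :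
    Insp w len t k W j p i := by
  rw [ng_append] at h
  rcases h with h | ⟨h1, h2⟩
  · exact Or.inl h
  · exact Or.inr ⟨(hR j p).2 h1, h2⟩

theorem hat_rvl (ht : t ≤ 1) (hG : Good t k (crd w len) W)
    (hR : ∀ j q, Rvl t k (W j) q ↔ (j, q) ∈ τ) (j : Fin (len - 1)) (q : List (Dir d)) :
    Rvl t k (hatW w len τ W j) q ↔ (j, q) ∈ τ := by
  rw [← hR j q]
  induction q using List.reverseRecOn with
  | nil => exact ⟨fun h => absurd rfl h.1, fun h => absurd rfl h.1⟩
  | append_singleton p i ih =>
    constructor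
    · intro h
      have h' := rvl_append.1 h
      have hng : NG w len τ j (p ++ [i]) := by
        by_contra hng
        have : hatW w len τ W j (p ++ [i]) = 2 := by
          unfold hatW; rw [if_neg hng]
        rw [this] at h'
        linarith [h'.2.1]
      have he : hatW w len τ W j (p ++ [i]) = W j (p ++ [i]) := by
        unfold hatW; rw [if_pos hng]
      rw [he] at h'
      exact rvl_append.2 ⟨h'.1.imp_right ih.1, h'.2.1, h'.2.2⟩
    · intro h
      have h' := rvl_append.1 h
      have hng : NG w len τ j (p ++ [i]) := ng_of_mem hG hR ((hR j _).1 h)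
      have he : hatW w len τ W j (p ++ [i]) = W j (p ++ [i]) := by
        unfold hatW; rw [if_pos hng]
      rw [rvl_append, he]
      exact ⟨h'.1.imp_right ih.2, h'.2.1, h'.2.2⟩

theorem hat_mem {A : Set (Fin (len - 1) → TC (Dir d))} (hup : UpClosed t k A)
    (hG : Good t k (crd w len) W)
    (hR : ∀ j q, Rvl t k (W j) q ↔ (j, q) ∈ τ) (hW : ∀ j q, W j q ≤ 2) (hA : W ∈ A) :
    hatW w len τ W ∈ A := by
  refine hup W hA _ ?_ ?_
  · intro j q hq
    unfold hatW
    rw [if_pos (ng_of_mem hG hR ((hR j q).1 hq))]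
  · intro j q _ _
    unfold hatW
    split_ifs
    · exact le_rfl
    · exact hW j q

/-- the pulled back forest agrees with `latW` at inspected words -/
theorem pathF_eq_latW (x : V d) (U : Edge d → ℝ)
    (hR : ∀ j q, Rvl t k (latW x w len τ U j) q ↔ (j, q) ∈ τ) (j : Fin (len - 1))
    (q : List (Dir d)) (hq : Seen t k (latW x w len τ U j) q) :
    pathF x w len U j q = latW x w len τ U j q := by
  rcases List.eq_nil_or_concat q with rfl | ⟨p, i, rfl⟩
  · obtain ⟨p, i, h1, _⟩ := hq
    simp at h1
  · rw [List.concat_eq_append] at hq ⊢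
    have hp := seen_append.1 hq
    unfold pathF latW
    rw [eg_append]
    rcases List.eq_nil_or_concat p with rfl | ⟨p', l, rfl⟩
    · rw [pull_nil_single]
      by_cases hi : i ∈ ({rev (w j), w (j + 1)} : Finset (Dir d))
      · rw [if_pos hi, if_neg]
        rw [ng_append]
        simp only [Finset.mem_insert, Finset.mem_singleton] at hi
        rintro (⟨_, h2, h3⟩ | ⟨h2, _⟩)
        · tauto
        · exact absurd rfl ((hR j []).2 h2).1
      · rw [if_neg hi, if_pos]
        rw [ng_append]
        simp only [Finset.mem_insert, Finset.mem_singleton, not_or] at hi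
        exact Or.inl ⟨rfl, hi.1, hi.2⟩
    · rw [List.concat_eq_append] at hp ⊢
      rw [pull_append]
      have hp' : Rvl t k (latW x w len τ U j) (p' ++ [l]) := hp.resolve_left (by simp)
      by_cases hi : i = rev l
      · rw [if_pos hi, if_neg]
        rw [ng_append]
        rintro (⟨h2, _⟩ | ⟨_, h3⟩)
        · simp at h2
        · exact h3 p' l rfl hi
      · rw [if_neg hi, if_pos]
        rw [ng_append]
        right
        refine ⟨(hR j _).1 hp', ?_⟩
        intro q' l' h1
        obtain ⟨_, h3⟩ := List.append_inj' h1 rfl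
        simp only [List.cons.injEq, and_true] at h3
        subst h3
        exact hi

theorem lat_mem {A : Set (Fin (len - 1) → TC (Dir d))} (hup : UpClosed t k A)
    (x : V d) (U : Edge d → ℝ)
    (hR : ∀ j q, Rvl t k (latW x w len τ U j) q ↔ (j, q) ∈ τ) (hA : latW x w len τ U ∈ A) :
    pathF x w len U ∈ A ∧ ∀ j q, Rvl t k (pathF x w len U j) q ↔ (j, q) ∈ τ := by
  constructor
  · refine hup _ hA _ ?_ ?_
    · intro j q hq
      exact pathF_eq_latW x U hR j q (seen_of_rvl hq)
    · intro j q hq _
      exact (pathF_eq_latW x U hR j q hq).ge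
  · intro j q
    rw [← hR j q]
    exact (rvl_congr (fun q hq => pathF_eq_latW x U hR j q hq) q).symm

theorem good_congr {W' : Fin (len - 1) → TC (Dir d)} {D0 : Finset (Fin d)}
    (h : ∀ j q, Rvl t k (W j) q ↔ Rvl t k (W' j) q) (hG : Good t k D0 W) :
    Good t k D0 W' := by
  constructor
  · intro j p i hr
    exact hG.1 j p i ((h _ _).2 hr)
  · intro j p i j' p' i' h1 h2
    exact hG.2 j p i j' p' i' ((h _ _).2 h1) ((h _ _).2 h2)

end det

/-! ### Measures -/

section meas

theorem ae_forest (m : ℕ) (D : Type) [Countable D] :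
    ∀ᵐ W ∂(Measure.pi fun _ : Fin m => lawT D), ∀ j q, W j q ≤ 2 := by
  have h1 : ∀ᵐ W ∂lawT D, ∀ q, W q ≤ 2 := by
    rw [ae_all_iff]
    intro q
    have h2 : MeasurePreserving (fun W : TC D => W q) (lawT D) unif :=
      ⟨measurable_pi_apply q, Measure.infinitePi_map_eval _ q⟩
    have h3 : ∀ᵐ x ∂unif, x ≤ 2 := by
      unfold unif
      rw [ae_restrict_iff' measurableSet_Icc]
      exact Eventually.of_forall fun x hx => by linarith [hx.2]
    exact h2.quasiMeasurePreserving.ae h3
  rw [ae_all_iff]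
  intro j
  exact (Measure.quasiMeasurePreserving_eval (fun _ : Fin m => lawT D) j).ae h1

theorem finite_ng (w : ℕ → Dir d) (τ : Finset (Fin (len - 1) × List (Dir d))) :
    {q : Fin (len - 1) × List (Dir d) | NG w len τ q.1 q.2}.Finite := by
  classical
  have : {q : Fin (len - 1) × List (Dir d) | NG w len τ q.1 q.2} ⊆
      ((Finset.univ.image fun (r : Fin (len - 1) × Dir d) => (r.1, [r.2])) ∪
        (τ ×ˢ (Finset.univ : Finset (Dir d))).image fun r => (r.1.1, r.1.2 ++ [r.2]) :
        Finset (Fin (len - 1) × List (Dir d))) := by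
    rintro ⟨j, q⟩ ⟨p, i, h1, h2⟩
    simp only at h1
    subst h1
    rcases h2 with ⟨rfl, _⟩ | ⟨h2, _⟩
    · exact Finset.mem_coe.2 (Finset.mem_union_left _
        (Finset.mem_image.2 ⟨(j, i), Finset.mem_univ _, rfl⟩))
    · exact Finset.mem_coe.2 (Finset.mem_union_right _
        (Finset.mem_image.2 ⟨((j, p), i), Finset.mem_product.2 ⟨h2, Finset.mem_univ _⟩, rfl⟩))
  exact (Finset.finite_toSet _).subset this

/-- law of finitely many coordinates of the forest -/
theorem map_forest (m : ℕ) (D : Type) {J : Type} [Fintype J] (ι : J → Fin m × List D)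
    (hι : Function.Injective ι) :
    (Measure.pi fun _ : Fin m => lawT D).map (fun W j => W (ι j).1 (ι j).2)
      = Measure.pi fun _ : J => unif := by
  have h1 : (Measure.pi fun _ : Fin m => lawT D)
      = (Measure.infinitePi fun _ : Fin m × List D => unif).map
        (MeasurableEquiv.curry (Fin m) (List D) ℝ) := by
    rw [← Measure.infinitePi_eq_pi]
    unfold lawT
    exact (Measure.infinitePi_map_curry (fun (_ : Fin m) (_ : List D) => unif)).symm
  rw [h1, Measure.map_map (by fun_prop) (by fun_prop)]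
  exact map_inj unif ι hι

end meas

theorem meas_rvl {D : Type} [Countable D] (t : ℝ) (k : ℕ) (q : List D) :
    MeasurableSet {W : TC D | Rvl t k W q} := by
  have : {W : TC D | Rvl t k W q} = {W : TC D | q ≠ []} ∩ ({W | q.length ≤ k} ∩
      ⋂ p : List D, {W | p ≠ [] → p <+: q → W p ≤ t}) := by
    ext W
    simp only [Rvl, mem_setOf_eq, mem_inter_iff, mem_iInter]
  rw [this]
  refine (MeasurableSet.const _).inter ((MeasurableSet.const _).inter
    (MeasurableSet.iInter fun p => ?_))
  by_cases h1 : p ≠ []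
  · by_cases h2 : p <+: q
    · simp only [h1, h2, ne_eq, not_false_eq_true, forall_const]
      exact measurableSet_le (measurable_pi_apply p) measurable_const
    · simp only [h2, false_imp_iff, imp_true_iff]
      exact MeasurableSet.univ
  · simp only [h1, false_imp_iff]
    exact MeasurableSet.univ

theorem meas_RS (w : ℕ → Dir d) (t : ℝ) (k : ℕ) (τ : Finset (Fin (len - 1) × List (Dir d))) :
    MeasurableSet {W : Fin (len - 1) → TC (Dir d) | ∀ j q, Rvl t k (W j) q ↔ (j, q) ∈ τ} := by
  have : {W : Fin (len - 1) → TC (Dir d) | ∀ j q, Rvl t k (W j) q ↔ (j, q) ∈ τ}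
      = ⋂ j, ⋂ q, {W | Rvl t k (W j) q ↔ (j, q) ∈ τ} := by
    ext W; simp
  rw [this]
  refine MeasurableSet.iInter fun j => MeasurableSet.iInter fun q => ?_
  have h1 : MeasurableSet {W : Fin (len - 1) → TC (Dir d) | Rvl t k (W j) q} := by
    have hm : Measurable (fun W : Fin (len - 1) → TC (Dir d) => W j) := measurable_pi_apply j
    exact hm (meas_rvl t k q)
  by_cases h : (j, q) ∈ τ
  · simp only [h, iff_true]; exact h1
  · simp only [h, iff_false]; exact h1.compl

theorem meas_pathT (x : V d) (w : ℕ → Dir d) : Measurable (pathT x w len) :=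
  measurable_pi_lambda _ fun _ => measurable_pi_apply _

theorem meas_pathF (x : V d) (w : ℕ → Dir d) : Measurable (pathF x w len) :=
  measurable_pi_lambda _ fun _ => meas_pull _ _

/-- for `τ` realised by a good forest, the two laws agree -/
theorem law_eq (x : V d) (w : ℕ → Dir d) (hw : WordOK w len)
    (τ : Finset (Fin (len - 1) × List (Dir d))) {W0 : Fin (len - 1) → TC (Dir d)}
    (hG : Good t k (crd w len) W0) (hR : ∀ j q, Rvl t k (W0 j) q ↔ (j, q) ∈ τ)
    (S : Set ((Fin len → ℝ) × (Fin (len - 1) → TC (Dir d)))) (hS : MeasurableSet S) :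
    ((Measure.pi fun _ : Fin len => unif).prod
        (Measure.pi fun _ : Fin (len - 1) => lawT (Dir d))) {q | (q.1, hatW w len τ q.2) ∈ S}
      = lawU d {U | (pathT x w len U, latW x w len τ U) ∈ S} := by
  classical
  set J := {q : Fin (len - 1) × List (Dir d) // NG w len τ q.1 q.2} with hJ
  haveI : Fintype J := (finite_ng w τ).fintype
  set G : (Fin len ⊕ J → ℝ) → (Fin len → ℝ) × (Fin (len - 1) → TC (Dir d)) :=
    fun v => (fun c => v (Sum.inl c), fun j q =>
      if h : NG w len τ j q then v (Sum.inr ⟨(j, q), h⟩) else 2) with hGdef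
  have hGm : Measurable G := by
    refine Measurable.prodMk (measurable_pi_lambda _ fun c => measurable_pi_apply _) ?_
    refine measurable_pi_lambda _ fun j => measurable_pi_lambda _ fun q => ?_
    by_cases h : NG w len τ j q
    · simp only [h, dif_pos]; exact measurable_pi_apply _
    · simp only [h, dif_neg, not_false_eq_true]; exact measurable_const
  set ρT : (Fin len → ℝ) × (Fin (len - 1) → TC (Dir d)) → (Fin len ⊕ J → ℝ) :=
    fun q => (MeasurableEquiv.sumPiEquivProdPi (fun _ : Fin len ⊕ J => ℝ)).symm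
      (Prod.map id (fun (W : Fin (len - 1) → TC (Dir d)) (r : J) => W r.1.1 r.1.2) q) with hρT
  set ι : Fin len ⊕ J → Edge d := Sum.elim (fun c => pe x w c) (fun r => eg x w len r.1) with hι
  have hmf : Measurable (fun (W : Fin (len - 1) → TC (Dir d)) (r : J) => W r.1.1 r.1.2) :=
    measurable_pi_lambda _ fun r => (measurable_pi_apply _).comp (measurable_pi_apply _)
  have hρTm : Measurable ρT :=
    (MeasurableEquiv.measurable _).comp (measurable_id.prodMap hmf)
  have hlawT : ((Measure.pi fun _ : Fin len => unif).prod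
        (Measure.pi fun _ : Fin (len - 1) => lawT (Dir d))).map ρT
        = Measure.pi fun _ : Fin len ⊕ J => unif := by
    have e1 : ρT = (MeasurableEquiv.sumPiEquivProdPi (fun _ : Fin len ⊕ J => ℝ)).symm ∘
        (Prod.map id (fun (W : Fin (len - 1) → TC (Dir d)) (r : J) => W r.1.1 r.1.2)) := rfl
    rw [e1, ← Measure.map_map (MeasurableEquiv.measurable _) (measurable_id.prodMap hmf)]
    rw [← Measure.map_prod_map _ _ measurable_id hmf, Measure.map_id]
    rw [map_forest (len - 1) (Dir d) (fun r : J => r.1) Subtype.val_injective]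
    exact (measurePreserving_sumPiEquivProdPi_symm (fun _ : Fin len ⊕ J => unif)).map_eq
  have hinj : Function.Injective ι := by
    have hform : ∀ r : J, ∃ j p i, r.1 = (j, p ++ [i]) ∧ Insp w len t k W0 j p i := by
      rintro ⟨⟨j, q⟩, hq⟩
      obtain ⟨p, i, h1, h2⟩ := hq
      simp only at h1
      subst h1
      exact ⟨j, p, i, rfl, insp_of_ng hR (ng_append.2 h2)⟩
    intro a b hab
    rcases a with a | a <;> rcases b with b | b
    · simp only [hι, Sum.elim_inl] at hab
      have := path_inj hw x a.isLt b.isLt hab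
      rw [Fin.ext this]
    · simp only [hι, Sum.elim_inl, Sum.elim_inr] at hab
      obtain ⟨j, p, i, h1, h2⟩ := hform b
      rw [h1, eg_append] at hab
      exact absurd hab.symm (geo_path hw x hG h2 a.isLt)
    · simp only [hι, Sum.elim_inl, Sum.elim_inr] at hab
      obtain ⟨j, p, i, h1, h2⟩ := hform a
      rw [h1, eg_append] at hab
      exact absurd hab (geo_path hw x hG h2 b.isLt)
    · simp only [hι, Sum.elim_inr] at hab
      obtain ⟨j, p, i, h1, h2⟩ := hform a
      obtain ⟨j', p', i', h1', h2'⟩ := hform b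
      rw [h1, h1', eg_append, eg_append] at hab
      obtain ⟨rfl, rfl, rfl⟩ := geo_inj hw x hG h2 h2' hab
      rw [Subtype.ext (h1.trans h1'.symm)]
  have hlawZ : (lawU d).map (fun U s => U (ι s)) = Measure.pi fun _ : Fin len ⊕ J => unif := by
    unfold lawU
    exact map_inj unif ι hinj
  have hZm : Measurable (fun (U : Edge d → ℝ) (s : Fin len ⊕ J) => U (ι s)) :=
    measurable_pi_lambda _ fun _ => measurable_pi_apply _
  have e2 : {q : (Fin len → ℝ) × (Fin (len - 1) → TC (Dir d)) | (q.1, hatW w len τ q.2) ∈ S}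
      = ρT ⁻¹' (G ⁻¹' S) := by
    ext q
    have : G (ρT q) = (q.1, hatW w len τ q.2) := by
      refine Prod.ext ?_ ?_
      · rfl
      · funext j r
        show (if h : NG w len τ j r then ρT q (Sum.inr ⟨(j, r), h⟩) else 2) = hatW w len τ q.2 j r
        unfold hatW
        by_cases h : NG w len τ j r
        · rw [dif_pos h, if_pos h]; rfl
        · rw [dif_neg h, if_neg h]
    show (q.1, hatW w len τ q.2) ∈ S ↔ G (ρT q) ∈ S
    rw [this]
  have e3 : {U | (pathT x w len U, latW x w len τ U) ∈ S}
      = (fun (U : Edge d → ℝ) (s : Fin len ⊕ J) => U (ι s)) ⁻¹' (G ⁻¹' S) := by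
    ext U
    have : G (fun s => U (ι s)) = (pathT x w len U, latW x w len τ U) := by
      refine Prod.ext ?_ ?_
      · rfl
      · funext j r
        show (if h : NG w len τ j r then U (ι (Sum.inr ⟨(j, r), h⟩)) else 2)
          = latW x w len τ U j r
        unfold latW
        by_cases h : NG w len τ j r
        · rw [dif_pos h, if_pos h]; rfl
        · rw [dif_neg h, if_neg h]
    show (pathT x w len U, latW x w len τ U) ∈ S ↔ G (fun s => U (ι s)) ∈ S
    rw [this]
  rw [e2, e3, ← Measure.map_apply hρTm (hGm hS), ← Measure.map_apply hZm (hGm hS), hlawT, hlawZ]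

theorem transfer {d len k : ℕ} {t : ℝ} (h0 : 0 ≤ t) (h1 : t ≤ 1) (x : V d) (w : ℕ → Dir d)
    (hw : WordOK w len) (A : Set ((Fin len → ℝ) × (Fin (len - 1) → TC (Dir d))))
    (hA : MeasurableSet A) (hup : ∀ u, UpClosed t k {W | (u, W) ∈ A}) :
    ((Measure.pi fun _ : Fin len => unif).prod
        (Measure.pi fun _ : Fin (len - 1) => lawT (Dir d)))
        {q | q ∈ A ∧ Good t k (crd w len) q.2}
      ≤ lawU d {U | (pathT x w len U, pathF x w len U) ∈ A ∧
          Good t k (crd w len) (pathF x w len U)} := by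
  classical
  set PT := (Measure.pi fun _ : Fin len => unif).prod
        (Measure.pi fun _ : Fin (len - 1) => lawT (Dir d)) with hPT
  set RT : Finset (Fin (len - 1) × List (Dir d)) → Set (Fin (len - 1) → TC (Dir d)) :=
    fun τ => {W | ∀ j q, Rvl t k (W j) q ↔ (j, q) ∈ τ} with hRT
  set words : Finset (Fin (len - 1) × List (Dir d)) :=
    Finset.univ ×ˢ (List.finite_length_le (Dir d) k).toFinset with hwords
  set F : Finset (Finset (Fin (len - 1) × List (Dir d))) :=
    words.powerset.filter fun τ => ∃ W, W ∈ RT τ ∧ Good t k (crd w len) W with hF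
  -- every forest has a revealed set
  have hex : ∀ W : Fin (len - 1) → TC (Dir d), Good t k (crd w len) W →
      ∃ τ ∈ F, W ∈ RT τ := by
    intro W hW
    refine ⟨words.filter fun q => Rvl t k (W q.1) q.2, ?_, ?_⟩
    · rw [hF, Finset.mem_filter]
      refine ⟨Finset.mem_powerset.2 (Finset.filter_subset _ _), W, ?_, hW⟩
      intro j q
      simp only [Finset.mem_filter, hwords, Finset.mem_product, Finset.mem_univ, true_and,
        Set.Finite.mem_toFinset, mem_setOf_eq]
      exact ⟨fun h => ⟨h.2.1, h⟩, fun h => h.2⟩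
    · intro j q
      simp only [Finset.mem_filter, hwords, Finset.mem_product, Finset.mem_univ, true_and,
        Set.Finite.mem_toFinset, mem_setOf_eq]
      exact ⟨fun h => ⟨h.2.1, h⟩, fun h => h.2⟩
  have hgood : ∀ τ ∈ F, ∀ W ∈ RT τ, Good t k (crd w len) W := by
    intro τ hτ W hW
    rw [hF, Finset.mem_filter] at hτ
    obtain ⟨_, W0, hW0, hG0⟩ := hτ
    exact good_congr (fun j q => (hW0 j q).trans (hW j q).symm) hG0
  have hsub : {q : (Fin len → ℝ) × (Fin (len - 1) → TC (Dir d)) |
      q ∈ A ∧ Good t k (crd w len) q.2} ⊆ ⋃ τ ∈ F, {q | q ∈ A ∧ q.2 ∈ RT τ} := by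
    rintro q ⟨hq, hG⟩
    obtain ⟨τ, hτ, hr⟩ := hex q.2 hG
    simp only [mem_iUnion]
    exact ⟨τ, hτ, hq, hr⟩
  have hone : ∀ τ ∈ F, PT {q | q ∈ A ∧ q.2 ∈ RT τ}
      ≤ lawU d {U | (pathT x w len U, pathF x w len U) ∈ A ∧ pathF x w len U ∈ RT τ} := by
    intro τ hτ
    have hτ' := hτ
    rw [hF, Finset.mem_filter] at hτ'
    obtain ⟨_, W0, hW0, hG0⟩ := hτ'
    set S : Set ((Fin len → ℝ) × (Fin (len - 1) → TC (Dir d))) := {q | q ∈ A ∧ q.2 ∈ RT τ} with hSdef
    have hSm : MeasurableSet S := hA.inter (measurable_snd (meas_RS w t k τ))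
    calc PT {q | q ∈ A ∧ q.2 ∈ RT τ} ≤ PT {q | (q.1, hatW w len τ q.2) ∈ S} := by
          refine measure_mono_ae ?_
          have hae : ∀ᵐ q ∂PT, ∀ j r, q.2 j r ≤ 2 :=
            Measure.quasiMeasurePreserving_snd.ae (ae_forest (len - 1) (Dir d))
          filter_upwards [hae] with q hq hq'
          obtain ⟨hq1, hq2⟩ := hq'
          have hGq := hgood τ hτ q.2 hq2
          exact ⟨hat_mem (hup q.1) hGq hq2 hq hq1, fun j r => hat_rvl h1 hGq hq2 j r⟩
      _ = lawU d {U | (pathT x w len U, latW x w len τ U) ∈ S} :=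
          law_eq x w hw τ hG0 hW0 S hSm
      _ ≤ _ := by
          refine measure_mono ?_
          rintro U ⟨hU1, hU2⟩
          exact lat_mem (hup (pathT x w len U)) x U hU2 hU1
  calc PT {q | q ∈ A ∧ Good t k (crd w len) q.2}
      ≤ PT (⋃ τ ∈ F, {q | q ∈ A ∧ q.2 ∈ RT τ}) := measure_mono hsub
    _ ≤ ∑ τ ∈ F, PT {q | q ∈ A ∧ q.2 ∈ RT τ} := measure_biUnion_finset_le _ _
    _ ≤ ∑ τ ∈ F, lawU d {U | (pathT x w len U, pathF x w len U) ∈ A ∧
          pathF x w len U ∈ RT τ} := Finset.sum_le_sum hone
    _ = lawU d (⋃ τ ∈ F, {U | (pathT x w len U, pathF x w len U) ∈ A ∧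
          pathF x w len U ∈ RT τ}) := by
        rw [measure_biUnion_finset]
        · intro τ _ τ' _ hne
          rw [Function.onFun, Set.disjoint_left]
          rintro U ⟨_, hU⟩ ⟨_, hU'⟩
          apply hne
          ext ⟨j, q⟩
          exact (hU j q).symm.trans (hU' j q)
        · intro τ _
          exact (((meas_pathT x w).prodMk (meas_pathF x w)) hA).inter
            ((meas_pathF x w) (meas_RS w t k τ))
    _ ≤ _ := by
        refine measure_mono ?_
        intro U hU
        simp only [mem_iUnion] at hU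
        obtain ⟨τ, hτ, hU1, hU2⟩ := hU
        exact ⟨hU1, hgood τ hτ _ hU2⟩

end H42.CD
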