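import Pool.Agent.H42.CD.Geo
import Pool.Agent.H42.CD.Ind
import Pool.Agent.H42.CD.Meas

/-!
# Module TRANSFER, first part: revealed words
-/

open MeasureTheory Set Filter
open scoped ENNReal Topology

namespace H42.CD

section Words

variable {D : Type} {t : ℝ} {k : ℕ}

theorem rvl_append {W : TC D} {p : List D} {i : D} :
    Rvl t k W (p ++ [i]) ↔ (p = [] ∨ Rvl t k W p) ∧ W (p ++ [i]) ≤ t ∧ p.length + 1 ≤ k := by
  constructor
  · rintro ⟨h1, h2, h3⟩
    have hl : p.length + 1 ≤ k := by simpa using h2
    refine ⟨?_, h3 _ h1 (List.prefix_refl _), hl⟩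
    by_cases hp : p = []
    · exact Or.inl hp
    · exact Or.inr ⟨hp, by omega, fun q hq hqp => h3 q hq (hqp.trans (List.prefix_append _ _))⟩
  · rintro ⟨h1, h2, h3⟩
    refine ⟨by simp, by simpa using h3, ?_⟩
    intro q hq hqp
    rw [List.prefix_concat_iff] at hqp
    rcases hqp with rfl | hqp
    · exact h2
    · rcases h1 with rfl | h1
      · exact absurd (List.prefix_nil.1 hqp) hq
      · exact h1.2.2 q hq hqp

theorem rvl_ne_nil {W : TC D} {p : List D} (h : Rvl t k W p) : p ≠ [] := h.1

theorem rvl_le {W : TC D} {p : List D} (h : Rvl t k W p) : W p ≤ t :=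
  h.2.2 p h.1 (List.prefix_refl _)

theorem seen_append {W : TC D} {p : List D} {i : D} :
    Seen t k W (p ++ [i]) ↔ (p = [] ∨ Rvl t k W p) := by
  constructor
  · rintro ⟨q, j, h1, h2⟩
    obtain ⟨rfl, _⟩ := List.append_inj' h1 rfl
    exact h2
  · intro h
    exact ⟨p, i, rfl, h⟩

theorem seen_of_rvl {W : TC D} {q : List D} (h : Rvl t k W q) : Seen t k W q := by
  rcases List.eq_nil_or_concat q with rfl | ⟨p, i, rfl⟩
  · exact absurd rfl h.1
  · rw [List.concat_eq_append] at h ⊢
    exact seen_append.2 (rvl_append.1 h).1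

/-- revealed words only depend on the times of the inspected words -/
theorem rvl_congr {W W' : TC D} (h : ∀ q, Seen t k W q → W' q = W q) (q : List D) :
    Rvl t k W q ↔ Rvl t k W' q := by
  induction q using List.reverseRecOn with
  | nil => exact ⟨fun h => absurd rfl h.1, fun h => absurd rfl h.1⟩
  | append_singleton p i ih =>
    rw [rvl_append, rvl_append]
    constructor
    · rintro ⟨h1, h2, h3⟩
      have h4 := h (p ++ [i]) (seen_append.2 h1)
      exact ⟨h1.imp_right ih.1, by rw [h4]; exact h2, h3⟩
    · rintro ⟨h1, h2, h3⟩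
      have h1' : p = [] ∨ Rvl t k W p := h1.imp_right ih.2
      have h4 := h (p ++ [i]) (seen_append.2 h1')
      exact ⟨h1', by rw [← h4]; exact h2, h3⟩

/-- an unrevealed, inspected word of length `≤ k` has time `> t` -/
theorem lt_of_not_rvl {W : TC D} {q : List D} (h : Seen t k W q) (h' : ¬ Rvl t k W q)
    (hl : q.length ≤ k) : t < W q := by
  rcases List.eq_nil_or_concat q with rfl | ⟨p, i, rfl⟩
  · obtain ⟨p, i, h1, _⟩ := h
    simp at h1
  · rw [List.concat_eq_append] at h h' hl ⊢
    by_contra hlt
    exact h' (rvl_append.2 ⟨seen_append.1 h, not_lt.1 hlt, by simpa using hl⟩)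

end Words

/-! ### The pulled back configuration -/

theorem endp_nil {d : ℕ} (x : V d) : endp x [] = x := by simp [endp]

theorem endp_cons {d : ℕ} (x : V d) (i : Dir d) (w : List (Dir d)) :
    endp x (i :: w) = endp (x + stp i) w := by
  simp [endp, add_assoc]

theorem pull_nil_single {d : ℕ} (U : Edge d → ℝ) (x : V d) (G : Finset (Dir d)) (i : Dir d) :
    pull U x G ([] ++ [i]) = if i ∈ G then 2 else U (ed (endp x []) i) := by
  rw [List.nil_append, pull_single, endp_nil]

theorem pull_append {d : ℕ} (U : Edge d → ℝ) (q : List (Dir d)) :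
    ∀ (x : V d) (G : Finset (Dir d)) (l i : Dir d),
    pull U x G ((q ++ [l]) ++ [i]) = if i = rev l then 2 else U (ed (endp x (q ++ [l])) i) := by
  induction q with
  | nil =>
    intro x G l i
    simp only [List.nil_append, List.cons_append, pull, Finset.mem_singleton, endp_cons, endp_nil]
  | cons j q ih =>
    intro x G l i
    have h1 : pull U x G ((j :: q ++ [l]) ++ [i]) = pull U (x + stp j) {rev j} ((q ++ [l]) ++ [i]) := by
      cases q with
      | nil => simp [pull]
      | cons a q => simp [pull]
    rw [h1, ih]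
    simp only [List.cons_append, endp_cons]

end H42.CD
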